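import Pool.Agent.MP_e058c8_al.Statement

/-!
Task L: the algebraic part.
-/

namespace Pool.Agent.MP_e058c8_al

theorem countable_closure {G : Type*} [Group G] {S : Set G} (hS : S.Finite) :
    Countable (Subgroup.closure S) := by
  have : Countable S := hS.countable.to_subtype
  have hc : Countable (FreeGroup S) := by
    unfold FreeGroup
    infer_instance
  have hr : (FreeGroup.lift (Subtype.val : S → G)).range = Subgroup.closure S := by
    rw [FreeGroup.range_lift_eq_closure, Subtype.range_coe]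
  rw [← hr]
  exact (MonoidHom.rangeRestrict_surjective _).countable

theorem countable_mulAut {π : Type*} [Group π]
    (h : ∃ S : Finset (MulAut π), Subgroup.closure (S : Set (MulAut π)) = Inn π)
    (hc : ∀ g : MulAut π, (∀ p ∈ Inn π, g * p = p * g) → g = 1) : Countable (MulAut π) := by
  obtain ⟨S, hS⟩ := h
  have hI : Countable (Inn π) := by
    rw [← hS]
    exact countable_closure S.finite_toSet
  have hmem : ∀ s ∈ S, s ∈ Inn π := fun s hs => by
    rw [← hS]
    exact Subgroup.subset_closure hs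
  have hnorm : (Inn π).Normal := inferInstance
  let F : MulAut π → ((s : S) → Inn π) := fun φ s => ⟨φ * s * φ⁻¹, hnorm.conj_mem _ (hmem _ s.2) φ⟩
  refine Function.Injective.countable (f := F) ?_
  intro φ ψ hφψ
  have h1 : ∀ s ∈ S, (ψ⁻¹ * φ) * s = s * (ψ⁻¹ * φ) := by
    intro s hs
    have h2 : φ * s * φ⁻¹ = ψ * s * ψ⁻¹ := congrArg Subtype.val (congrFun hφψ ⟨s, hs⟩)
    calc ψ⁻¹ * φ * s = ψ⁻¹ * (φ * s * φ⁻¹) * φ := by group
      _ = ψ⁻¹ * (ψ * s * ψ⁻¹) * φ := by rw [h2]
      _ = s * (ψ⁻¹ * φ) := by group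
  have h3 : Inn π ≤ Subgroup.centralizer {ψ⁻¹ * φ} := by
    rw [← hS, Subgroup.closure_le]
    intro s hs
    rw [SetLike.mem_coe, Subgroup.mem_centralizer_iff]
    intro x hx
    rw [Set.mem_singleton_iff] at hx
    subst hx
    exact h1 s hs
  have h4 := hc (ψ⁻¹ * φ) (fun p hp => by
    have := h3 hp
    rw [Subgroup.mem_centralizer_iff] at this
    exact this _ rfl)
  exact (inv_mul_eq_one.1 h4).symm

theorem exists_characteristic {π : Type*} [Group π] (N : Subgroup (Out π)) (hN : N.Normal)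
    (main : ∀ L : Subgroup (MulAut π), L.Normal → Inn π ≤ L → ∃ M : Subgroup (MulAut π),
      M.Normal ∧ M ≤ L ∧ L ≤ M ⊔ Inn π ∧
      ∀ f : MulAut π, (∀ p ∈ Inn π, f * p * f⁻¹ * p⁻¹ ∈ M) → f ∈ M) :
    ∃ (Γ : Subgroup π) (_ : Γ.Characteristic), K Γ = N := by
  obtain ⟨M, hM, hML, hLM, hcent⟩ := main (N.comap (QuotientGroup.mk' (Inn π)))
    (hN.comap _) (by
      intro x hx
      rw [Subgroup.mem_comap]
      have : QuotientGroup.mk' (Inn π) x = 1 := (QuotientGroup.eq_one_iff x).2 hx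
      rw [this]
      exact N.one_mem)
  let Γ : Subgroup π := M.comap (MulAut.conj : π →* MulAut π)
  have hΓmem : ∀ x : π, x ∈ Γ ↔ MulAut.conj x ∈ M := fun x => Iff.rfl
  have hconj : ∀ (φ : MulAut π) (x : π), MulAut.conj (φ x) = φ * MulAut.conj x * φ⁻¹ := by
    intro φ x
    ext y
    simp [MulAut.conj_apply, MulAut.mul_apply]
  have hchar : Γ.Characteristic := by
    refine ⟨fun φ => ?_⟩
    ext x
    rw [Subgroup.mem_comap]
    change MulAut.conj (φ x) ∈ M ↔ MulAut.conj x ∈ M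
    have h1 : MulAut.conj (φ x) = φ * MulAut.conj x * φ⁻¹ := hconj φ x
    rw [h1]
    constructor
    · intro h
      have := hM.conj_mem _ h φ⁻¹
      rw [inv_inv] at this
      have e : φ⁻¹ * (φ * MulAut.conj x * φ⁻¹) * φ = MulAut.conj x := by group
      rwa [e] at this
    · intro h
      exact hM.conj_mem _ h φ
  refine ⟨Γ, hchar, ?_⟩
  have key : ∀ φ : MulAut π, ((φ : Out π) ∈ K Γ) ↔ (φ : Out π) ∈ N := by
    intro φ
    have h0 : ((φ : Out π) ∈ K Γ) ↔ quotAut Γ φ ∈ Inn (π ⧸ Γ) := by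
      change (outMap Γ (φ : Out π) = 1) ↔ _
      have : outMap Γ (φ : Out π) = ((quotAut Γ φ : MulAut (π ⧸ Γ)) : Out (π ⧸ Γ)) := rfl
      rw [this]
      exact QuotientGroup.eq_one_iff _
    rw [h0]
    constructor
    · rintro ⟨q, hq⟩
      induction q using QuotientGroup.induction_on with
      | H q =>
        -- ψ = conj q⁻¹ * φ
        have h1 : (MulAut.conj q)⁻¹ * φ ∈ M := by
          apply hcent
          rintro _ ⟨y, rfl⟩
          have h2 : ((MulAut.conj q)⁻¹ * φ) * MulAut.conj y * ((MulAut.conj q)⁻¹ * φ)⁻¹ =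
              MulAut.conj (((MulAut.conj q)⁻¹ * φ) y) := (hconj _ y).symm
          have h2' : MulAut.conj (((MulAut.conj q)⁻¹ * φ) y) * (MulAut.conj y)⁻¹ =
              MulAut.conj (((MulAut.conj q)⁻¹ * φ) y * y⁻¹) := by rw [map_mul, map_inv]
          rw [h2, h2', ← hΓmem]
          have h3 := congrArg (fun f : MulAut (π ⧸ Γ) => f (y : π ⧸ Γ)) hq
          simp only [quotAut_mk, MulAut.conj_apply] at h3
          have h4 : ((φ y : π) : π ⧸ Γ) = ((q * y * q⁻¹ : π) : π ⧸ Γ) := by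
            rw [← h3]; rfl
          have h5 : ((MulAut.conj q)⁻¹ * φ) y = q⁻¹ * φ y * q := by
            simp [MulAut.mul_apply, ← map_inv, MulAut.conj_apply]
          rw [h5, ← QuotientGroup.eq_one_iff]
          have h6 : ((q⁻¹ * φ y * q * y⁻¹ : π) : π ⧸ Γ) =
              (q : π ⧸ Γ)⁻¹ * ((φ y : π) : π ⧸ Γ) * q * (y : π ⧸ Γ)⁻¹ := rfl
          rw [h6, h4]
          have h7 : ((q * y * q⁻¹ : π) : π ⧸ Γ) = (q : π ⧸ Γ) * (y : π ⧸ Γ) * (q : π ⧸ Γ)⁻¹ := rfl
          rw [h7]
          group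
        have h8 : (φ : Out π) = (((MulAut.conj q)⁻¹ * φ : MulAut π) : Out π) := by
          have h9 : ((MulAut.conj q : MulAut π) : Out π) = 1 :=
            (QuotientGroup.eq_one_iff _).2 ⟨q, rfl⟩
          have h10 : (((MulAut.conj q)⁻¹ * φ : MulAut π) : Out π) =
            ((MulAut.conj q : MulAut π) : Out π)⁻¹ * (φ : Out π) := rfl
          rw [h10, h9, inv_one, one_mul]
        rw [h8]
        exact hML h1
    · intro hφ
      have h1 : φ ∈ M ⊔ Inn π := hLM hφ
      obtain ⟨m, hm, _, ⟨q, rfl⟩, rfl⟩ := (Subgroup.mem_sup_of_normal_left).1 h1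
      refine ⟨((m q : π) : π ⧸ Γ), ?_⟩
      ext y
      induction y using QuotientGroup.induction_on with
      | H y =>
        rw [quotAut_mk, MulAut.conj_apply]
        have h2 : (m * MulAut.conj q) y = m q * m y * (m q)⁻¹ := by
          simp [MulAut.mul_apply, MulAut.conj_apply]
        rw [h2]
        have h3 : ((m q * m y * (m q)⁻¹ : π) : π ⧸ Γ) =
          ((m q : π) : π ⧸ Γ) * ((m y : π) : π ⧸ Γ) * ((m q : π) : π ⧸ Γ)⁻¹ := rfl
        rw [h3]
        have h4 : ((m y : π) : π ⧸ Γ) = (y : π ⧸ Γ) := by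
          rw [QuotientGroup.eq, hΓmem, map_mul, map_inv, hconj]
          have h5 : (m * MulAut.conj y * m⁻¹)⁻¹ * MulAut.conj y =
            m * (((MulAut.conj y)⁻¹) * m⁻¹ * ((MulAut.conj y)⁻¹)⁻¹) := by group
          rw [h5]
          exact M.mul_mem hm (hM.conj_mem _ (M.inv_mem hm) _)
        rw [h4]
  ext x
  induction x using QuotientGroup.induction_on with
  | H φ => exact key φ

end Pool.Agent.MP_e058c8_al
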