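import Pool.Agent.MP_e058c8_al.Defs

/-!
Task E: the key bound `crossing_bound`.
-/

namespace Pool.Agent.MP_e058c8_al

namespace KBound

universe v

/-! ### Cyclic orders and cuts -/

section Cyc

variable {E : Type v} {sb : E → E → E → Prop}

theorem sb_ne12 (hc : CycOrd sb) {x y z : E} (h : sb x y z) : x ≠ y := by
  rintro rfl
  exact hc.asymm _ _ _ (hc.rot _ _ _ (hc.rot _ _ _ h)) (hc.rot _ _ _ (hc.rot _ _ _ h))

theorem sb_ne23 (hc : CycOrd sb) {x y z : E} (h : sb x y z) : y ≠ z :=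
  sb_ne12 hc (hc.rot _ _ _ h)

theorem sb_ne13 (hc : CycOrd sb) {x y z : E} (h : sb x y z) : x ≠ z :=
  (sb_ne12 hc (hc.rot _ _ _ (hc.rot _ _ _ h))).symm

theorem sb_drop (hc : CycOrd sb) {o p q r : E} (h1 : sb o p q) (h2 : sb o q r) : sb p q r := by
  have a1 : sb q r o := hc.rot _ _ _ h2
  have a2 : sb q o p := hc.rot _ _ _ (hc.rot _ _ _ h1)
  exact hc.rot _ _ _ (hc.rot _ _ _ (hc.trans _ _ _ _ a1 a2))

/-- A cut of a cyclic order at `o`. -/
structure Cut (sb : E → E → E → Prop) {T : Type*} [LinearOrder T] (ι : E → T) (o : E) : Prop where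
  inj : Function.Injective ι
  bot : ∀ x, x ≠ o → ι o < ι x
  iff : ∀ x y z, sb x y z ↔ (ι x < ι y ∧ ι y < ι z) ∨ (ι y < ι z ∧ ι z < ι x) ∨
    (ι z < ι x ∧ ι x < ι y)

theorem exists_cut0 (hc : CycOrd sb) (o : E) :
    ∃ (T : Type v) (_ : LinearOrder T) (ι : E → T), Cut sb ι o := by
  classical
  let r : E → E → Prop := fun x y => (x = o ∧ y ≠ o) ∨ sb o x y
  have hirr : ∀ x, ¬ r x x := by
    rintro x (⟨h1, h2⟩ | h)
    · exact h2 h1
    · exact sb_ne23 hc h rfl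
  have htr : ∀ x y z, r x y → r y z → r x z := by
    rintro x y z (⟨h1, h2⟩ | h) (⟨h3, h4⟩ | h')
    · exact absurd h3 h2
    · exact Or.inl ⟨h1, (sb_ne13 hc h').symm⟩
    · exact absurd h3 (sb_ne13 hc h).symm
    · exact Or.inr (hc.trans _ _ _ _ h h')
  have htri : ∀ x y, r x y ∨ x = y ∨ r y x := by
    intro x y
    by_cases hxy : x = y
    · exact Or.inr (Or.inl hxy)
    by_cases hx : x = o
    · exact Or.inl (Or.inl ⟨hx, fun h => hxy (hx.trans h.symm)⟩)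
    by_cases hy : y = o
    · exact Or.inr (Or.inr (Or.inl ⟨hy, hx⟩))
    rcases hc.total o x y (Ne.symm hx) hxy (Ne.symm hy) with h | h
    · exact Or.inl (Or.inr h)
    · exact Or.inr (Or.inr (Or.inr h))
  have : IsStrictTotalOrder E r :=
    { trichotomous := fun x y h1 h2 => by
        rcases htri x y with h | h | h
        · exact absurd h h1
        · exact h
        · exact absurd h h2
      irrefl := hirr
      trans := htr }
  let lo : LinearOrder E := linearOrderOfSTO r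
  have hlt : ∀ x y : E, x < y ↔ r x y := fun x y => Iff.rfl
  have hback : ∀ x y z : E, x < y → y < z → sb x y z := by
    intro x y z h1 h2
    rw [hlt] at h1 h2
    rcases h2 with ⟨h3, h4⟩ | h2
    · rcases h1 with ⟨h5, h6⟩ | h1
      · exact absurd h3 h6
      · exact absurd h3 (sb_ne13 hc h1).symm
    · rcases h1 with ⟨h5, h6⟩ | h1
      · rw [h5]; exact h2
      · exact sb_drop hc h1 h2
  refine ⟨E, lo, id, fun x y h => h, fun x hx => Or.inl ⟨rfl, hx⟩, fun x y z => ⟨fun h => ?_, ?_⟩⟩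
  · have n1 := sb_ne12 hc h
    have n2 := sb_ne23 hc h
    have n3 := sb_ne13 hc h
    simp only [id]
    rcases lt_trichotomy x y with h1 | h1 | h1
    · rcases lt_trichotomy y z with h2 | h2 | h2
      · exact Or.inl ⟨h1, h2⟩
      · exact absurd h2 n2
      · rcases lt_trichotomy x z with h3 | h3 | h3
        · exact absurd (hback x z y h3 h2) (hc.asymm _ _ _ h)
        · exact absurd h3 n3
        · exact Or.inr (Or.inr ⟨h3, h1⟩)
    · exact absurd h1 n1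
    · rcases lt_trichotomy y z with h2 | h2 | h2
      · rcases lt_trichotomy x z with h3 | h3 | h3
        · exact absurd (hc.rot _ _ _ (hback y x z h1 h3)) (hc.asymm _ _ _ h)
        · exact absurd h3 n3
        · exact Or.inr (Or.inl ⟨h2, h3⟩)
      · exact absurd h2 n2
      · exact absurd (hc.rot _ _ _ (hc.rot _ _ _ (hback z y x h2 h1))) (hc.asymm _ _ _ h)
  · rintro (⟨h1, h2⟩ | ⟨h1, h2⟩ | ⟨h1, h2⟩)
    · exact hback _ _ _ h1 h2
    · exact hc.rot _ _ _ (hc.rot _ _ _ (hback _ _ _ h1 h2))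
    · exact hc.rot _ _ _ (hback _ _ _ h1 h2)

theorem cr_swap {x y z w : E} : Cr sb x y z w ↔ Cr sb y x z w := by
  unfold Cr; tauto

theorem cr_swap' {x y z w : E} : Cr sb x y z w ↔ Cr sb x y w z := by
  unfold Cr; tauto

section cut
variable {T : Type*} [LinearOrder T] {ι : E → T} {o : E}

/-- crossing in terms of a cut -/
theorem Cut.cr (hι : Cut sb ι o) {x y z w : E} (hxy : ι x < ι y) :
    Cr sb x y z w ↔ ((ι x < ι z ∧ ι z < ι y) ∧ (ι w < ι x ∨ ι y < ι w)) ∨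
      ((ι x < ι w ∧ ι w < ι y) ∧ (ι z < ι x ∨ ι y < ι z)) := by
  have key : ∀ z, sb x z y ↔ ι x < ι z ∧ ι z < ι y := by
    intro z
    rw [hι.iff]
    constructor
    · rintro (h | ⟨h1, h2⟩ | ⟨h1, h2⟩)
      · exact h
      · exact absurd h2 (lt_asymm hxy)
      · exact absurd h1 (lt_asymm hxy)
    · exact fun h => Or.inl h
  have key2 : ∀ z, sb y z x ↔ ι z < ι x ∨ ι y < ι z := by
    intro z
    rw [hι.iff]
    constructor
    · rintro (⟨h1, h2⟩ | ⟨h1, h2⟩ | ⟨h1, h2⟩)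
      · exact Or.inr h1
      · exact Or.inl h1
      · exact Or.inr h2
    · rintro (h | h)
      · exact Or.inr (Or.inl ⟨h, hxy⟩)
      · exact Or.inr (Or.inr ⟨hxy, h⟩)
  unfold Cr
  rw [key, key, key2, key2]

theorem Cut.sb_bot (hι : Cut sb ι o) {x y : E} : sb o x y ↔ x ≠ o ∧ ι x < ι y := by
  rw [hι.iff]
  constructor
  · rintro (⟨h1, h2⟩ | ⟨h1, h2⟩ | ⟨h1, h2⟩)
    · exact ⟨fun h => by rw [h] at h1; exact lt_irrefl _ h1, h2⟩
    · exfalso
      by_cases hy : y = o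
      · rw [hy] at h2; exact lt_irrefl _ h2
      · exact lt_asymm h2 (hι.bot y hy)
    · exfalso
      by_cases hy : y = o
      · rw [hy] at h1; exact lt_irrefl _ h1
      · exact lt_asymm h1 (hι.bot y hy)
  · rintro ⟨h1, h2⟩
    exact Or.inl ⟨hι.bot x h1, h2⟩

theorem Cut.sb_mid (hι : Cut sb ι o) {x y z : E} (h : ι x < ι z) :
    sb x y z ↔ ι x < ι y ∧ ι y < ι z := by
  rw [hι.iff]
  constructor
  · rintro (h' | ⟨h1, h2⟩ | ⟨h1, h2⟩)
    · exact h'
    · exact absurd h2 (lt_asymm h)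
    · exact absurd h1 (lt_asymm h)
  · exact fun h => Or.inl h

theorem Cut.sb_last (hι : Cut sb ι o) {x y : E} : sb x y o ↔ x ≠ o ∧ ι x < ι y := by
  rw [← hι.sb_bot, hι.iff, hι.iff]
  tauto

/-- crossing is symmetric -/
theorem cr_symm (hc : CycOrd sb) {x y z w : E} (h : Cr sb x y z w) : Cr sb z w x y := by
  obtain ⟨T, _, ι, hι⟩ := exists_cut0 hc x
  have hxy : x ≠ y := by
    rcases h with ⟨h, -⟩ | ⟨h, -⟩
    · exact sb_ne13 hc h
    · exact sb_ne13 hc h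
  have hlt := hι.bot y hxy.symm
  rw [hι.cr hlt] at h
  have hno : ∀ z, ¬ ι z < ι x := fun z hz => by
    by_cases hzx : z = x
    · rw [hzx] at hz; exact lt_irrefl _ hz
    · exact lt_asymm hz (hι.bot z hzx)
  rcases h with ⟨⟨h1, h2⟩, h3 | h3⟩ | ⟨⟨h1, h2⟩, h3 | h3⟩
  · exact absurd h3 (hno _)
  · rw [hι.cr (h2.trans h3)]
    exact Or.inr ⟨⟨h2, h3⟩, Or.inl h1⟩
  · exact absurd h3 (hno _)
  · rw [cr_swap, hι.cr (h2.trans h3)]
    exact Or.inr ⟨⟨h2, h3⟩, Or.inl h1⟩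

end cut

end Cyc

/-! ### Dynamics -/

section Dyn

variable {G : Type*} {E : Type v} [Group G] [MulAction G E] {P : Subgroup G}
  {sb : E → E → E → Prop} {at' : G → E}

/-- The reversed circle system. -/
theorem cr_rev {x y z w : E} : Cr (fun x y z => sb z y x) x y z w ↔ Cr sb x y z w := by
  unfold Cr; tauto

theorem at_fix (hC : CS P sb at') {p : G} (hp : p ∈ P) (hp1 : p ≠ 1) : p • at' p = at' p := by
  rw [hC.smul_at p p hp hp1]
  congr 1
  group

theorem at_fix_inv (hC : CS P sb at') {p : G} (hp : p ∈ P) (hp1 : p ≠ 1) :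
    p • at' p⁻¹ = at' p⁻¹ := by
  rw [hC.smul_at p p⁻¹ (inv_mem hp) (inv_ne_one.2 hp1)]
  congr 1
  group

theorem at_fix_zpow (hC : CS P sb at') {p : G} (hp : p ∈ P) (hp1 : p ≠ 1) (i : ℤ) :
    p ^ i • at' p = at' p := by
  rw [hC.smul_at (p ^ i) p hp hp1]
  congr 1
  group

theorem at_fix_inv_zpow (hC : CS P sb at') {p : G} (hp : p ∈ P) (hp1 : p ≠ 1) (i : ℤ) :
    p ^ i • at' p⁻¹ = at' p⁻¹ := by
  rw [hC.smul_at (p ^ i) p⁻¹ (inv_mem hp) (inv_ne_one.2 hp1)]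
  congr 1
  group

theorem sb_smul_iff (hC : CS P sb at') {p : G} (hp : p ∈ P) {x y z : E} :
    sb (p • x) (p • y) (p • z) ↔ sb x y z := by
  refine ⟨fun h => ?_, hC.sbP p hp x y z⟩
  have := hC.sbP p⁻¹ (inv_mem hp) _ _ _ h
  simpa using this

theorem move_right (hC : CS P sb at') {p : G} (hp : p ∈ P) (hp1 : p ≠ 1) {x : E}
    (hx : sb (at' p) x (at' p⁻¹)) : sb (at' p) (p • x) x := by
  have h1 := hC.move p⁻¹ (inv_mem hp) (inv_ne_one.2 hp1) x (by rwa [inv_inv])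
  rw [inv_inv] at h1
  have h2 := hC.sbP p hp _ _ _ h1
  rwa [at_fix hC hp hp1, smul_inv_smul] at h2

theorem rev (hC : CS P sb at') : CS P (fun x y z => sb z y x) at' := by
  have hc := hC.cyc
  refine { cyc := ?_, normal := hC.normal, sbP := ?_, smul_at := hC.smul_at, at_ne := hC.at_ne,
           at_pow := hC.at_pow, tf := hC.tf, move := ?_, arch := ?_, exists_at := hC.exists_at,
           root := hC.root, fin := ?_, side := ?_, fg := hC.fg, cent := hC.cent,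
           nontriv := hC.nontriv, crG := ?_ }
  · refine ⟨?_, ?_, ?_, ?_⟩
    · intro x y z h
      exact hc.rot _ _ _ (hc.rot _ _ _ h)
    · intro x y z h h'
      exact hc.asymm _ _ _ h (hc.rot _ _ _ h')
    · intro x y z w h1 h2
      have a1 : sb x z y := hc.rot _ _ _ (hc.rot _ _ _ h1)
      have a2 : sb x w z := hc.rot _ _ _ (hc.rot _ _ _ h2)
      exact hc.rot _ _ _ (hc.trans _ _ _ _ a2 a1)
    · intro x y z h1 h2 h3
      rcases hc.total x y z h1 h2 h3 with h | h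
      · exact Or.inr (hc.rot _ _ _ h)
      · exact Or.inl (hc.rot _ _ _ h)
  · intro p hp x y z h
    exact hC.sbP p hp _ _ _ h
  · intro p hp hp1 x hx
    exact sb_drop hc (move_right hC hp hp1 hx) hx
  · intro p hp hp1 x y hx hy
    obtain ⟨n, hn⟩ := hC.arch p⁻¹ (inv_mem hp) (inv_ne_one.2 hp1) y x (by rwa [inv_inv])
      (by rwa [inv_inv])
    refine ⟨n, ?_⟩
    rw [inv_inv] at hn
    have h2 := hC.sbP (p ^ n) (pow_mem hp n) _ _ _ hn
    have e1 : p ^ n • at' p = at' p := by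
      have := at_fix_zpow hC hp hp1 n
      rwa [zpow_natCast] at this
    rw [e1, inv_pow, smul_inv_smul] at h2
    exact sb_drop hc h2 hy
  · intro p hp hp1
    obtain ⟨F, hF, H⟩ := hC.fin p hp hp1
    exact ⟨F, hF, fun g hg h => H g hg (cr_rev.1 h)⟩
  · intro p hp hp1
    obtain ⟨x, hx⟩ := hC.side p⁻¹ (inv_mem hp) (inv_ne_one.2 hp1)
    exact ⟨x, by rwa [inv_inv] at hx⟩
  · intro g x y z w h
    exact cr_rev.2 (hC.crG g _ _ _ _ (cr_rev.1 h))

/-- Elements with the same attracting point have the same repelling point. -/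
theorem ends (hC : CS P sb at') {p q : G} (hp : p ∈ P) (hp1 : p ≠ 1) (hq : q ∈ P) (hq1 : q ≠ 1)
    (h : at' p = at' q) : at' p⁻¹ = at' q⁻¹ := by
  obtain ⟨r, hr, hr1, hra, hroot⟩ := hC.root p hp hp1
  have key : ∀ s ∈ P, s ≠ 1 → at' s = at' p → at' s⁻¹ = at' r⁻¹ := by
    intro s hs hs1 hsa
    obtain ⟨i, hi⟩ := Subgroup.mem_zpowers_iff.1
      (hroot s hs (by rw [← hsa]; exact at_fix hC hs hs1))
    have hr1' : r⁻¹ ≠ 1 := inv_ne_one.2 hr1
    rcases lt_trichotomy i 0 with h0 | h0 | h0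
    · exfalso
      obtain ⟨n, rfl⟩ : ∃ n : ℕ, i = -n := ⟨(-i).toNat, by omega⟩
      have e : s = r⁻¹ ^ n := by rw [← hi, zpow_neg, zpow_natCast, inv_pow]
      have h3 := hC.at_pow r⁻¹ (inv_mem hr) hr1' n (by omega)
      rw [← e, hsa, ← hra] at h3
      exact hC.at_ne r hr hr1 h3.symm
    · exfalso
      rw [h0, zpow_zero] at hi
      exact hs1 hi.symm
    · obtain ⟨n, rfl⟩ : ∃ n : ℕ, i = n := ⟨i.toNat, by omega⟩
      have e : s⁻¹ = r⁻¹ ^ n := by rw [← hi, zpow_natCast, inv_pow]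
      rw [e]
      exact hC.at_pow r⁻¹ (inv_mem hr) hr1' n (by omega)
  rw [key p hp hp1 rfl, key q hq hq1 h.symm]

/-- The cut at the repelling point of `p`. -/
structure PCut (sb : E → E → E → Prop) (at' : G → E) (p : G) {T : Type*} [LinearOrder T]
    (ι : E → T) : Prop where
  cut : Cut sb ι (at' p⁻¹)
  ends : ι (at' p⁻¹) < ι (at' p)
  fixA : ∀ i : ℤ, p ^ i • at' p = at' p
  fixR : ∀ i : ℤ, p ^ i • at' p⁻¹ = at' p⁻¹
  mono : ∀ (i : ℤ) x y, ι x < ι y → ι (p ^ i • x) < ι (p ^ i • y)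
  left : ∀ x, ι (at' p⁻¹) < ι x → ι x < ι (at' p) → StrictMono fun i : ℤ => ι (p ^ i • x)
  right : ∀ x, ι (at' p) < ι x → StrictAnti fun i : ℤ => ι (p ^ i • x)
  archL : ∀ x y, ι (at' p⁻¹) < ι x → ι x < ι (at' p) → ι (at' p⁻¹) < ι y → ι y < ι (at' p) →
    ∃ n : ℕ, ∀ i : ℤ, i ≤ -n → ι (p ^ i • x) < ι y
  archR : ∀ x y, ι (at' p) < ι x → ι (at' p) < ι y →
    ∃ n : ℕ, ∀ i : ℤ, n ≤ i → ι (p ^ i • x) < ι y

theorem exists_pcut (hC : CS P sb at') {p : G} (hp : p ∈ P) (hp1 : p ≠ 1) :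
    ∃ (T : Type v) (_ : LinearOrder T) (ι : E → T), PCut sb at' p ι := by
  obtain ⟨T, inst, ι, hι⟩ := exists_cut0 hC.cyc (at' p⁻¹)
  have hA : ι (at' p⁻¹) < ι (at' p) := hι.bot _ (hC.at_ne p hp hp1).symm
  have hfA := at_fix_zpow hC hp hp1
  have hfR := at_fix_inv_zpow hC hp hp1
  have hne : ∀ x, ι (at' p⁻¹) < ι x → x ≠ at' p⁻¹ := fun x hx h => by
    rw [h] at hx; exact lt_irrefl _ hx
  have hmono : ∀ (i : ℤ) x y, ι x < ι y → ι (p ^ i • x) < ι (p ^ i • y) := by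
    intro i x y hxy
    by_cases hx : x = at' p⁻¹
    · rw [hx, hfR]
      apply hι.bot
      intro h
      have : y = at' p⁻¹ := by
        have h2 : p ^ i • y = p ^ i • at' p⁻¹ := by rw [h, hfR]
        exact smul_left_cancel _ h2
      rw [hx, this] at hxy
      exact lt_irrefl _ hxy
    · have h1 : sb (at' p⁻¹) x y := hι.sb_bot.2 ⟨hx, hxy⟩
      have h2 := hC.sbP (p ^ i) (zpow_mem hp i) _ _ _ h1
      rw [hfR] at h2
      exact (hι.sb_bot.1 h2).2
  have hstepL : ∀ x, ι (at' p⁻¹) < ι x → ι x < ι (at' p) → ι x < ι (p • x) := by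
    intro x h1 h2
    have h3 : sb (at' p⁻¹) x (at' p) := hι.sb_bot.2 ⟨hne x h1, h2⟩
    exact (hι.sb_bot.1 (hC.move p hp hp1 x h3)).2
  have hstepR : ∀ x, ι (at' p) < ι x → ι (p • x) < ι x := by
    intro x h1
    have hne' : at' p ≠ at' p⁻¹ := (hC.at_ne p hp hp1).symm
    have h3 : sb (at' p) x (at' p⁻¹) := hι.sb_last.2 ⟨hne', h1⟩
    have h4 := move_right hC hp hp1 h3
    exact ((hι.sb_mid h1).1 h4).2
  have hinL : ∀ x, ι (at' p⁻¹) < ι x → ι x < ι (at' p) → ∀ i : ℤ,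
      ι (at' p⁻¹) < ι (p ^ i • x) ∧ ι (p ^ i • x) < ι (at' p) := by
    intro x h1 h2 i
    have a1 := hmono i _ _ h1
    have a2 := hmono i _ _ h2
    rw [hfR] at a1
    rw [hfA] at a2
    exact ⟨a1, a2⟩
  have hinR : ∀ x, ι (at' p) < ι x → ∀ i : ℤ, ι (at' p) < ι (p ^ i • x) := by
    intro x h1 i
    have a1 := hmono i _ _ h1
    rwa [hfA] at a1
  have hleft : ∀ x, ι (at' p⁻¹) < ι x → ι x < ι (at' p) → StrictMono fun i : ℤ => ι (p ^ i • x) := by
    intro x h1 h2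
    apply strictMono_int_of_lt_succ
    intro i
    have h3 := hinL x h1 h2 i
    have h4 := hstepL _ h3.1 h3.2
    rwa [← mul_smul, ← zpow_one_add, add_comm] at h4
  have hright : ∀ x, ι (at' p) < ι x → StrictAnti fun i : ℤ => ι (p ^ i • x) := by
    intro x h1
    apply strictAnti_int_of_succ_lt
    intro i
    have h4 := hstepR _ (hinR x h1 i)
    rwa [← mul_smul, ← zpow_one_add, add_comm] at h4
  refine ⟨T, inst, ι, hι, hA, hfA, hfR, hmono, hleft, hright, ?_, ?_⟩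
  · intro x y h1 h2 h3 h4
    obtain ⟨n, hn⟩ := hC.arch p hp hp1 y x (hι.sb_bot.2 ⟨hne y h3, h4⟩)
      (hι.sb_bot.2 ⟨hne x h1, h2⟩)
    refine ⟨n, fun i hi => ?_⟩
    have h5 := (hι.sb_bot.1 hn).2
    have h6 := hmono (-n) _ _ h5
    rw [← mul_smul, ← zpow_natCast, ← zpow_add, neg_add_cancel, zpow_zero, one_smul] at h6
    exact ((hleft x h1 h2).monotone hi).trans_lt h6
  · intro x y h1 h2
    have hne' : at' p ≠ at' p⁻¹ := (hC.at_ne p hp hp1).symm
    obtain ⟨n, hn⟩ := hC.arch p⁻¹ (inv_mem hp) (inv_ne_one.2 hp1) y x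
      (by rw [inv_inv]; exact hι.sb_last.2 ⟨hne', h2⟩) (by rw [inv_inv]; exact hι.sb_last.2 ⟨hne', h1⟩)
    rw [inv_inv] at hn
    refine ⟨n, fun i hi => ?_⟩
    have h5 : ι x < ι (p⁻¹ ^ n • y) := by
      have h7 := hC.cyc.rot _ _ _ hn
      have h8 : ι (at' p) < ι (p⁻¹ ^ n • y) := by
        have := hinR y h2 (-n)
        rwa [zpow_neg, zpow_natCast, ← inv_pow] at this
      exact ((hι.sb_mid h8).1 hn).2
    have h6 := hmono n _ _ h5
    rw [← mul_smul, zpow_natCast, inv_pow, mul_inv_cancel, one_smul] at h6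
    rw [← zpow_natCast] at h6
    exact ((hright x h1).antitone hi).trans_lt h6

/-- Points off the axis: translates of a crossing chord do not cross it. -/
theorem fact0 (hC : CS P sb at') {p : G} (hp : p ∈ P) (hp1 : p ≠ 1) {u v : E}
    (h : Cr sb (at' p⁻¹) (at' p) u v) (l : ℤ) : ¬ Cr sb u v (p ^ l • u) (p ^ l • v) := by
  obtain ⟨T, _, ι, hι⟩ := exists_pcut hC hp hp1
  have key : ∀ u v : E, ι (at' p⁻¹) < ι u → ι u < ι (at' p) → ι (at' p) < ι v →
      ¬ Cr sb u v (p ^ l • u) (p ^ l • v) := by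
    intro u v h1 h2 h3 hcr
    rw [hι.cut.cr (h2.trans h3)] at hcr
    have m1 := hι.mono l _ _ h2
    rw [hι.fixA] at m1
    have m2 := hι.mono l _ _ h3
    rw [hι.fixA] at m2
    rcases le_total 0 l with hl | hl
    · have a1 : ι u ≤ ι (p ^ l • u) := by
        have := (hι.left u h1 h2).monotone hl
        simpa using this
      have a2 : ι (p ^ l • v) ≤ ι v := by
        have := (hι.right v h3).antitone hl
        simpa using this
      rcases hcr with ⟨⟨c1, c2⟩, c3 | c3⟩ | ⟨⟨c1, c2⟩, c3 | c3⟩ <;> order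
    · have a1 : ι (p ^ l • u) ≤ ι u := by
        have := (hι.left u h1 h2).monotone hl
        simpa using this
      have a2 : ι v ≤ ι (p ^ l • v) := by
        have := (hι.right v h3).antitone hl
        simpa using this
      rcases hcr with ⟨⟨c1, c2⟩, c3 | c3⟩ | ⟨⟨c1, c2⟩, c3 | c3⟩ <;> order
  have hno : ∀ z, ¬ ι z < ι (at' p⁻¹) := fun z hz => by
    by_cases hzx : z = at' p⁻¹
    · rw [hzx] at hz; exact lt_irrefl _ hz
    · exact lt_asymm hz (hι.cut.bot z hzx)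
  rw [hι.cut.cr hι.ends] at h
  rcases h with ⟨⟨h1, h2⟩, h3 | h3⟩ | ⟨⟨h1, h2⟩, h3 | h3⟩
  · exact absurd h3 (hno _)
  · exact key u v h1 h2 h3
  · exact absurd h3 (hno _)
  · intro hcr
    exact key v u h1 h2 h3 (cr_swap.1 (cr_swap'.1 hcr))

/-- The number of orbits of self-crossings. -/
def FactM (sb : E → E → E → Prop) (at' : G → E) (P : Subgroup G) (a : G) (m : ℕ) : Prop :=
  ∀ (g : G) (n : ℕ) (q : ℕ → G), (∀ j < n, q j ∈ P) →
    (∀ j < n, Cr sb (g • at' a⁻¹) (g • at' a) (q j • g • at' a⁻¹) (q j • g • at' a)) →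
    (∀ j < n, ∀ j' < n, j ≠ j' → ∀ l : ℤ,
      ¬ ((g * a * g⁻¹) ^ l • q j • g • at' a⁻¹ = q j' • g • at' a⁻¹ ∧
        (g * a * g⁻¹) ^ l • q j • g • at' a = q j' • g • at' a)) → n ≤ m

theorem exists_factM (hC : CS P sb at') {a : G} (ha : a ∈ P) (ha1 : a ≠ 1) :
    ∃ (F : Set G) (_ : F.Finite), (∀ k ∈ P, Cr sb (at' a⁻¹) (at' a) (k • at' a⁻¹) (k • at' a) →
      ∃ i j : ℤ, ∃ f ∈ F, k = a ^ i * f * a ^ j) ∧ ∃ m, FactM sb at' P a m := by
  classical
  obtain ⟨F, hF, H⟩ := hC.fin a ha ha1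
  refine ⟨F, hF, H, hF.toFinset.card, ?_⟩
  intro g n q hq hcr hneq
  by_contra hcon
  push Not at hcon
  have h1 : ∀ j < n, ∃ i t : ℤ, ∃ f ∈ F, g⁻¹ * q j * g = a ^ i * f * a ^ t := by
    intro j hj
    apply H
    · have := hC.normal.conj_mem _ (hq j hj) g⁻¹
      simpa using this
    · have := hC.crG g⁻¹ _ _ _ _ (hcr j hj)
      simpa [mul_smul] using this
  choose! i t f hf he using h1
  obtain ⟨x, hx, y, hy, hxy, hfxy⟩ := Finset.exists_ne_map_eq_of_card_lt_of_maps_to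
    (s := Finset.range n) (t := hF.toFinset) (by simpa using hcon) (f := f)
    (fun j hj => by simpa using hf j (Finset.mem_range.1 hj))
  rw [Finset.mem_range] at hx hy
  have key : ∀ e : E, (∀ l : ℤ, a ^ l • e = e) →
      (g * a * g⁻¹) ^ (i y - i x) • q x • g • e = q y • g • e := by
    intro e hfix
    have e1 : q x • g • e = g • (g⁻¹ * q x * g) • e := by
      simp only [mul_smul, smul_inv_smul]
    have e2 : q y • g • e = g • (g⁻¹ * q y * g) • e := by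
      simp only [mul_smul, smul_inv_smul]
    rw [e1, e2, he x hx, he y hy, hfxy, conj_zpow]
    simp only [mul_smul, hfix, inv_smul_smul]
    rw [← mul_smul (a ^ (i y - i x)), ← zpow_add, sub_add_cancel]
  exact hneq x hx y hy hxy _ ⟨key _ (at_fix_inv_zpow hC ha ha1), key _ (at_fix_zpow hC ha ha1)⟩

/-- Case A. -/
theorem caseA (hC : CS P sb at') {a : G} (ha : a ∈ P) (ha1 : a ≠ 1) {m : ℕ}
    (hm : FactM sb at' P a m) {T : Type*} [LinearOrder T] {ι : E → T} (hι : PCut sb at' a ι)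
    {g : G} {w1 w2 x : E} (hw : (w1 = g • at' a⁻¹ ∧ w2 = g • at' a) ∨
      (w1 = g • at' a ∧ w2 = g • at' a⁻¹)) (h1 : ι (at' a⁻¹) < ι w1) (h2 : ι w2 < ι (at' a))
    (h12 : ι w1 < ι w2) (hx1 : ι w1 < ι x) {n : ℕ} (hx2 : ι (a ^ n • x) < ι w2) : n ≤ m := by
  have hL1 := hι.left w1 h1 (h12.trans h2)
  have hL2 := hι.left w2 (h1.trans h12) h2
  have hxω : ι x < ι (at' a) := by
    by_contra hcon
    push Not at hcon
    rcases eq_or_lt_of_le hcon with h | h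
    · have : x = at' a := (hι.cut.inj h).symm
      have h3 := hι.fixA n
      rw [zpow_natCast] at h3
      rw [this, h3] at hx2
      order
    · have h3 := hι.mono n _ _ h
      rw [hι.fixA, zpow_natCast] at h3
      order
  have hLx := hι.left x (h1.trans hx1) hxω
  -- translates of the chord
  have hcross : ∀ i j : ℤ, i < j → j ≤ i + n →
      Cr sb (a ^ i • w1) (a ^ i • w2) (a ^ j • w1) (a ^ j • w2) := by
    intro i j hij hjn
    have e1 : ι (a ^ i • w1) < ι (a ^ i • w2) := hι.mono i _ _ h12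
    rw [hι.cut.cr e1]
    refine Or.inl ⟨⟨hL1 hij, ?_⟩, Or.inr (hL2 hij)⟩
    have b1 : ι (a ^ j • w1) < ι (a ^ j • x) := hι.mono j _ _ hx1
    have b2 : ι (a ^ j • x) ≤ ι (a ^ (i + n) • x) := hLx.monotone hjn
    have b3 : ι (a ^ (i + n) • x) < ι (a ^ i • w2) := by
      rw [zpow_add, mul_smul, zpow_natCast]
      exact hι.mono i _ _ hx2
    order
  have hcross' : ∀ i j : ℤ, i < j → j ≤ i + n → Cr sb (a ^ i • g • at' a⁻¹) (a ^ i • g • at' a)
      (a ^ j • g • at' a⁻¹) (a ^ j • g • at' a) := by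
    intro i j hij hjn
    have h3 := hcross i j hij hjn
    rcases hw with ⟨rfl, rfl⟩ | ⟨rfl, rfl⟩
    · exact h3
    · exact cr_swap.1 (cr_swap'.1 h3)
  apply hm g n (fun j => a ^ (j + 1))
  · intro j _
    exact pow_mem ha _
  · intro j hj
    have h3 := hcross' 0 ((j + 1 : ℕ) : ℤ) (by omega) (by omega)
    simpa only [zpow_zero, one_smul, zpow_natCast] using h3
  · intro j hj j' hj' hjj l hl
    have hgP : g * a * g⁻¹ ∈ P := hC.normal.conj_mem _ ha g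
    have hg1 : g * a * g⁻¹ ≠ 1 := by
      intro h
      apply ha1
      have : a = g⁻¹ * (g * a * g⁻¹) * g := by group
      rw [this, h]; group
    have e1 : at' (g * a * g⁻¹) = g • at' a := (hC.smul_at g a ha ha1).symm
    have e2 : at' (g * a * g⁻¹)⁻¹ = g • at' a⁻¹ := by
      rw [hC.smul_at g a⁻¹ (inv_mem ha) (inv_ne_one.2 ha1)]
      congr 1
      group
    have h3 := hcross' 0 ((j + 1 : ℕ) : ℤ) (by omega) (by omega)
    simp only [zpow_zero, one_smul, zpow_natCast] at h3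
    rw [← e1, ← e2] at h3
    have h4 := fact0 hC hgP hg1 h3 l
    rw [e1, e2, hl.1, hl.2] at h4
    apply h4
    rcases lt_or_gt_of_ne hjj with h5 | h5
    · have h6 := hcross' ((j + 1 : ℕ) : ℤ) ((j' + 1 : ℕ) : ℤ) (by omega) (by omega)
      simpa only [zpow_natCast] using h6
    · have h6 := hcross' ((j' + 1 : ℕ) : ℤ) ((j + 1 : ℕ) : ℤ) (by omega) (by omega)
      simpa only [zpow_natCast] using cr_symm hC.cyc h6

/-- Uniform comparison constants. -/
def FactN (sb : E → E → E → Prop) (at' : G → E) (P : Subgroup G) (a : G) {T : Type*}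
    [LinearOrder T] (ι : E → T) (N : ℕ) : Prop :=
  ∀ k ∈ P, Cr sb (at' a⁻¹) (at' a) (k • at' a⁻¹) (k • at' a) → ∃ j0 : ℤ,
    ∀ x y : E, (x = k • at' a⁻¹ ∨ x = k • at' a) → (y = k⁻¹ • at' a⁻¹ ∨ y = k⁻¹ • at' a) →
      (ι (at' a⁻¹) < ι x → ι x < ι (at' a) → ι (at' a⁻¹) < ι y → ι y < ι (at' a) →
        ∀ j : ℤ, j ≤ j0 - N → ι (a ^ j • x) < ι y) ∧
      (ι (at' a) < ι x → ι (at' a) < ι y → ∀ j : ℤ, j0 + N ≤ j → ι (a ^ j • x) < ι y)

theorem exists_factN {a : G} {T : Type*} [LinearOrder T] {ι : E → T} (hι : PCut sb at' a ι)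
    {F : Set G} (hF : F.Finite) (H : ∀ k ∈ P, Cr sb (at' a⁻¹) (at' a) (k • at' a⁻¹) (k • at' a) →
      ∃ i j : ℤ, ∃ f ∈ F, k = a ^ i * f * a ^ j) : ∃ N, FactN sb at' P a ι N := by
  classical
  have hex : ∀ x y : E, ∃ n : ℕ,
      (ι (at' a⁻¹) < ι x → ι x < ι (at' a) → ι (at' a⁻¹) < ι y → ι y < ι (at' a) →
        ∀ j : ℤ, j ≤ -n → ι (a ^ j • x) < ι y) ∧
      (ι (at' a) < ι x → ι (at' a) < ι y → ∀ j : ℤ, n ≤ j → ι (a ^ j • x) < ι y) := by
    intro x y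
    obtain ⟨n1, h1⟩ : ∃ n : ℕ, (ι (at' a⁻¹) < ι x → ι x < ι (at' a) → ι (at' a⁻¹) < ι y →
        ι y < ι (at' a) → ∀ j : ℤ, j ≤ -n → ι (a ^ j • x) < ι y) := by
      by_cases hc : ι (at' a⁻¹) < ι x ∧ ι x < ι (at' a) ∧ ι (at' a⁻¹) < ι y ∧ ι y < ι (at' a)
      · obtain ⟨n, hn⟩ := hι.archL x y hc.1 hc.2.1 hc.2.2.1 hc.2.2.2
        exact ⟨n, fun _ _ _ _ => hn⟩
      · exact ⟨0, fun c1 c2 c3 c4 => absurd ⟨c1, c2, c3, c4⟩ hc⟩
    obtain ⟨n2, h2⟩ : ∃ n : ℕ, (ι (at' a) < ι x → ι (at' a) < ι y → ∀ j : ℤ, n ≤ j →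
        ι (a ^ j • x) < ι y) := by
      by_cases hc : ι (at' a) < ι x ∧ ι (at' a) < ι y
      · obtain ⟨n, hn⟩ := hι.archR x y hc.1 hc.2
        exact ⟨n, fun _ _ => hn⟩
      · exact ⟨0, fun c1 c2 => absurd ⟨c1, c2⟩ hc⟩
    refine ⟨max n1 n2, fun c1 c2 c3 c4 j hj => h1 c1 c2 c3 c4 j ?_, fun c1 c2 j hj => h2 c1 c2 j ?_⟩
    · push_cast at hj; omega
    · push_cast at hj; omega
  choose n hn using hex
  set S : Set E := (fun f : G => f • at' a⁻¹) '' F ∪ (fun f : G => f • at' a) '' F with hS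
  set S' : Set E := (fun f : G => f⁻¹ • at' a⁻¹) '' F ∪ (fun f : G => f⁻¹ • at' a) '' F with hS'
  have hSf : S.Finite := (hF.image _).union (hF.image _)
  have hSf' : S'.Finite := (hF.image _).union (hF.image _)
  obtain ⟨N, hN⟩ := ((hSf.prod hSf').image (fun z => n z.1 z.2)).bddAbove
  have hN' : ∀ x ∈ S, ∀ y ∈ S', n x y ≤ N := fun x hx y hy => hN ⟨(x, y), ⟨hx, hy⟩, rfl⟩
  refine ⟨N, fun k hk hcr => ?_⟩
  obtain ⟨s, t, f, hf, he⟩ := H k hk hcr
  refine ⟨-(s + t), fun x y hx hy => ?_⟩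
  obtain ⟨x', hx', hxx⟩ : ∃ x' ∈ S, x = a ^ s • x' := by
    rcases hx with rfl | rfl
    · exact ⟨f • at' a⁻¹, Or.inl ⟨f, hf, rfl⟩, by rw [he, mul_smul, mul_smul, hι.fixR]⟩
    · exact ⟨f • at' a, Or.inr ⟨f, hf, rfl⟩, by rw [he, mul_smul, mul_smul, hι.fixA]⟩
  obtain ⟨y', hy', hyy⟩ : ∃ y' ∈ S', y = a ^ (-t) • y' := by
    have e : k⁻¹ = a ^ (-t) * f⁻¹ * a ^ (-s) := by rw [he]; group
    rcases hy with rfl | rfl
    · exact ⟨f⁻¹ • at' a⁻¹, Or.inl ⟨f, hf, rfl⟩, by rw [e, mul_smul, mul_smul, hι.fixR]⟩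
    · exact ⟨f⁻¹ • at' a, Or.inr ⟨f, hf, rfl⟩, by rw [e, mul_smul, mul_smul, hι.fixA]⟩
  have hback : ∀ (i : ℤ) (u w : E), ι (a ^ i • u) < ι (a ^ i • w) → ι u < ι w := by
    intro i u w h
    have := hι.mono (-i) _ _ h
    rwa [← mul_smul, ← zpow_add, neg_add_cancel, zpow_zero, one_smul, ← mul_smul, ← zpow_add,
      neg_add_cancel, zpow_zero, one_smul] at this
  have hlow : ∀ (i : ℤ) (u : E), ι (at' a⁻¹) < ι (a ^ i • u) → ι (at' a⁻¹) < ι u := by
    intro i u h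
    apply hback i
    rwa [hι.fixR]
  have hup : ∀ (i : ℤ) (u : E), ι (a ^ i • u) < ι (at' a) → ι u < ι (at' a) := by
    intro i u h
    apply hback i
    rwa [hι.fixA]
  have hup' : ∀ (i : ℤ) (u : E), ι (at' a) < ι (a ^ i • u) → ι (at' a) < ι u := by
    intro i u h
    apply hback i
    rwa [hι.fixA]
  have hle := hN' x' hx' y' hy'
  subst hxx hyy
  have hconv : ∀ j : ℤ, ι (a ^ (j + s + t) • x') < ι y' → ι (a ^ j • a ^ s • x') < ι (a ^ (-t) • y') := by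
    intro j h
    have := hι.mono (-t) _ _ h
    rw [← mul_smul, ← zpow_add] at this ⊢
    convert this using 4
    ring
  constructor
  · intro c1 c2 c3 c4 j hj
    apply hconv
    exact (hn x' y').1 (hlow _ _ c1) (hup _ _ c2) (hlow _ _ c3) (hup _ _ c4) _ (by omega)
  · intro c1 c2 j hj
    apply hconv
    exact (hn x' y').2 (hup' _ _ c1) (hup' _ _ c2) _ (by omega)

/-- Case B. -/
theorem caseB (hC : CS P sb at') {a : G} (ha : a ∈ P) (ha1 : a ≠ 1) {m : ℕ}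
    (hm : FactM sb at' P a m) {T : Type*} [LinearOrder T] {ι : E → T} (hι : PCut sb at' a ι)
    {N : ℕ} (hN : FactN sb at' P a ι N) {k g : G} (hk : k ∈ P)
    (hcr : Cr sb (at' a⁻¹) (at' a) (k • at' a⁻¹) (k • at' a)) {vL vR wL wR : E}
    (hv : (vL = k • at' a⁻¹ ∧ vR = k • at' a) ∨ (vL = k • at' a ∧ vR = k • at' a⁻¹))
    (hw : (wL = g • at' a⁻¹ ∧ wR = g • at' a) ∨ (wL = g • at' a ∧ wR = g • at' a⁻¹))
    (v1 : ι (at' a⁻¹) < ι vL) (v2 : ι vL < ι (at' a)) (v3 : ι (at' a) < ι vR)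
    (w1 : ι (at' a⁻¹) < ι wL) (w2 : ι wL < ι (at' a)) (w3 : ι (at' a) < ι wR)
    (h1 : ι wL < ι vL) {K : ℕ} (h2 : ι wR < ι (a ^ K • vR)) : K ≤ m + 2 * N + 2 := by
  by_contra hcon
  push Not at hcon
  have hcut := hι.cut
  have hc := hC.cyc
  have hinv1 := inv_ne_one.2 ha1
  have hgP : g * a * g⁻¹ ∈ P := hC.normal.conj_mem _ ha g
  have hg1 : g * a * g⁻¹ ≠ 1 := by
    intro h
    apply ha1
    have : a = g⁻¹ * (g * a * g⁻¹) * g := by group
    rw [this, h]; group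
  have e1 : at' (g * a * g⁻¹) = g • at' a := (hC.smul_at g a ha ha1).symm
  have e2 : at' (g * a * g⁻¹)⁻¹ = g • at' a⁻¹ := by
    rw [hC.smul_at g a⁻¹ (inv_mem ha) (inv_ne_one.2 ha1)]
    congr 1
    group
  obtain ⟨c, hcP, hc1, hcR, hcA, hcc⟩ : ∃ c ∈ P, c ≠ 1 ∧ at' c⁻¹ = wL ∧ at' c = wR ∧
      (c = g * a * g⁻¹ ∨ c = (g * a * g⁻¹)⁻¹) := by
    rcases hw with ⟨rfl, rfl⟩ | ⟨rfl, rfl⟩
    · exact ⟨_, hgP, hg1, e2, e1, Or.inl rfl⟩
    · refine ⟨_, inv_mem hgP, inv_ne_one.2 hg1, ?_, e2, Or.inr rfl⟩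
      rw [inv_inv, e1]
  have hfixL : c • wL = wL := by rw [← hcR]; exact at_fix_inv hC hcP hc1
  have hfixR : c • wR = wR := by rw [← hcA]; exact at_fix hC hcP hc1
  have hfixL' : c⁻¹ • wL = wL := by rw [inv_smul_eq_iff, hfixL]
  have hfixR' : c⁻¹ • wR = wR := by rw [inv_smul_eq_iff, hfixR]
  have hci : c⁻¹ ∈ P := inv_mem hcP
  have hci1 : c⁻¹ ≠ 1 := inv_ne_one.2 hc1
  -- the arc between the ends of `W` is preserved
  have harc : ∀ y, ι wL < ι y → ι y < ι wR → ι wL < ι (c • y) ∧ ι (c • y) < ι wR := by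
    intro y y1 y2
    have h3 : sb wL y wR := (hcut.sb_mid (y1.trans y2)).2 ⟨y1, y2⟩
    have h4 := hC.sbP c hcP _ _ _ h3
    rw [hfixL, hfixR] at h4
    exact (hcut.sb_mid (y1.trans y2)).1 h4
  have harc' : ∀ y, ι wL < ι y → ι y < ι wR → ι wL < ι (c⁻¹ • y) ∧ ι (c⁻¹ • y) < ι wR := by
    intro y y1 y2
    have h3 : sb wL y wR := (hcut.sb_mid (y1.trans y2)).2 ⟨y1, y2⟩
    have h4 := hC.sbP c⁻¹ hci _ _ _ h3
    rw [hfixL', hfixR'] at h4
    exact (hcut.sb_mid (y1.trans y2)).1 h4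
  have hmv : ∀ y, ι wL < ι y → ι y < ι wR → ι y < ι (c • y) := by
    intro y y1 y2
    have h3 : sb (at' c⁻¹) y (at' c) := by
      rw [hcR, hcA]; exact (hcut.sb_mid (y1.trans y2)).2 ⟨y1, y2⟩
    have h4 := hC.move c hcP hc1 y h3
    rw [hcR] at h4
    exact ((hcut.sb_mid (harc y y1 y2).1).1 h4).2
  have hω := harc' (at' a) w2 w3
  have hω2 : ι (c⁻¹ • at' a) < ι (at' a) := by
    have := hmv _ hω.1 hω.2
    rwa [smul_inv_smul] at this
  have hα : ι (at' a⁻¹) < ι (c⁻¹ • at' a⁻¹) ∧ ι (c⁻¹ • at' a⁻¹) < ι wL := by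
    have h3 : sb wR (at' a⁻¹) wL := (hcut.iff _ _ _).2 (Or.inr (Or.inl ⟨w1, w2.trans w3⟩))
    have h4 := hC.sbP c⁻¹ hci _ _ _ h3
    rw [hfixL', hfixR'] at h4
    have h5 := hC.move c⁻¹ hci hci1 (at' a⁻¹) (by rw [inv_inv, hcR, hcA]; exact h3)
    rw [inv_inv, hcA] at h5
    rw [hcut.iff] at h4 h5
    rcases h5 with ⟨a1, a2⟩ | ⟨a1, a2⟩ | ⟨a1, a2⟩
    · order
    · rcases h4 with ⟨b1, b2⟩ | ⟨b1, b2⟩ | ⟨b1, b2⟩
      · order
      · exact ⟨a1, b1⟩
      · order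
    · order
  -- powers of `a`
  have hvL := hι.left vL v1 v2
  have hvR := hι.right vR v3
  have hgap : ι (c⁻¹ • at' a) < ι (a ^ (m + 2) • vL) := by
    have h3 : ¬ ι (a ^ (m + 1) • vL) < ι (c⁻¹ • at' a) := by
      intro h4
      have := caseA hC ha ha1 hm hι (g := c⁻¹) (Or.inl ⟨rfl, rfl⟩) hα.1 hω2 (hα.2.trans hω.1)
        (hα.2.trans h1) h4
      omega
    have h4 : ι (a ^ (m + 1) • vL) < ι (a ^ (m + 2) • vL) := by
      have := hvL (show ((m + 1 : ℕ) : ℤ) < ((m + 2 : ℕ) : ℤ) by omega)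
      simpa only [zpow_natCast] using this
    order
  have hJ : ∀ z, ι (a ^ (m + 2) • vL) < ι z → ι z < ι (at' a) → ∀ l : ℕ,
      ι (at' a) < ι (c ^ (l + 1) • z) ∧ ι (c ^ (l + 1) • z) < ι wR := by
    intro z z1 z2 l
    have zL : ι wL < ι z := hω.1.trans (hgap.trans z1)
    have zR : ι z < ι wR := z2.trans w3
    induction l with
    | zero =>
      rw [zero_add, pow_one]
      have h3 : sb wL (c⁻¹ • at' a) z := (hcut.sb_mid zL).2 ⟨hω.1, hgap.trans z1⟩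
      have h4 := hC.sbP c hcP _ _ _ h3
      rw [hfixL, smul_inv_smul] at h4
      have h5 := harc z zL zR
      exact ⟨((hcut.sb_mid h5.1).1 h4).2, h5.2⟩
    | succ l ih =>
      rw [pow_succ', mul_smul]
      exact ⟨ih.1.trans (hmv _ (w2.trans ih.1) ih.2), (harc _ (w2.trans ih.1) ih.2).2⟩
  -- the translates of `W`
  obtain ⟨ws, wt, hst, j0, hj0⟩ : ∃ ws wt, ((ws = wL ∧ wt = wR) ∨ (ws = wR ∧ wt = wL)) ∧
      ∃ j0 : ℤ, ∀ j : ℤ, j ≤ j0 - N → j0 + N ≤ j + K →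
        ι vL < ι (k • a ^ j • ws) ∧ ι (k • a ^ j • ws) < ι (at' a) ∧
          ι vR < ι (k • a ^ j • wt) := by
    obtain ⟨j0, hj0⟩ := hN k hk hcr
    have hki := inv_mem hk
    have hL : ∀ j : ℤ, ι (a ^ j • wL) < ι (a ^ j • vL) := fun j => hι.mono j _ _ h1
    have hR : ∀ j : ℤ, ι (a ^ j • wR) < ι (a ^ (j + K) • vR) := fun j => by
      rw [zpow_add, mul_smul, zpow_natCast]
      exact hι.mono j _ _ h2
    have hLα : ∀ j : ℤ, ι (at' a⁻¹) < ι (a ^ j • wL) := fun j => by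
      have := hι.mono j _ _ w1
      rwa [hι.fixR] at this
    have hRω : ∀ j : ℤ, ι (at' a) < ι (a ^ j • wR) := fun j => by
      have := hι.mono j _ _ w3
      rwa [hι.fixA] at this
    have hneα : ∀ y, ι (at' a⁻¹) < ι y → y ≠ at' a⁻¹ := fun y hy h => by
      rw [h] at hy; exact lt_irrefl _ hy
    have hωα : at' a ≠ at' a⁻¹ := hneα _ hι.ends
    rcases hv with ⟨hvl, hvr⟩ | ⟨hvl, hvr⟩
    · -- case (i)
      have a1 : sb (k • at' a⁻¹) (at' a) (k • at' a) := by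
        rw [← hvl, ← hvr]; exact (hcut.sb_mid (v2.trans v3)).2 ⟨v2, v3⟩
      have a2 := hC.sbP k⁻¹ hki _ _ _ a1
      rw [inv_smul_smul, inv_smul_smul] at a2
      have b1 : sb (k • at' a) (at' a⁻¹) (k • at' a⁻¹) := by
        rw [← hvl, ← hvr]
        exact (hcut.iff _ _ _).2 (Or.inr (Or.inl ⟨v1, v2.trans v3⟩))
      have b2 := hC.sbP k⁻¹ hki _ _ _ b1
      rw [inv_smul_smul, inv_smul_smul] at b2
      have a3 := hcut.sb_bot.1 a2
      have a4 := hcut.bot _ a3.1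
      have b3 := (hcut.sb_last.1 b2).2
      have A := (hj0 vL (k⁻¹ • at' a) (Or.inl hvl) (Or.inr rfl)).1 v1 v2 a4 a3.2
      have B := (hj0 vR (k⁻¹ • at' a⁻¹) (Or.inr hvr) (Or.inl rfl)).2 v3 b3
      refine ⟨wL, wR, Or.inl ⟨rfl, rfl⟩, j0, fun j hj1 hj2 => ?_⟩
      have c1 : ι (a ^ j • wL) < ι (k⁻¹ • at' a) := (hL j).trans (A j hj1)
      have c2 : ι (a ^ j • wR) < ι (k⁻¹ • at' a⁻¹) := (hR j).trans (B _ hj2)
      have d1 : sb (at' a⁻¹) (a ^ j • wL) (k⁻¹ • at' a) := hcut.sb_bot.2 ⟨hneα _ (hLα j), c1⟩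
      have d2 := hC.sbP k hk _ _ _ d1
      rw [smul_inv_smul, ← hvl, hcut.sb_mid v2] at d2
      have d3 : sb (at' a) (a ^ j • wR) (k⁻¹ • at' a⁻¹) :=
        (hcut.sb_mid ((hRω j).trans c2)).2 ⟨hRω j, c2⟩
      have d4 := hC.sbP k hk _ _ _ d3
      rw [smul_inv_smul, ← hvr] at d4
      exact ⟨d2.1, d2.2, (hcut.sb_last.1 d4).2⟩
    · -- case (ii)
      have a1 : sb (k • at' a) (at' a) (k • at' a⁻¹) := by
        rw [← hvl, ← hvr]; exact (hcut.sb_mid (v2.trans v3)).2 ⟨v2, v3⟩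
      have a2 := hC.sbP k⁻¹ hki _ _ _ a1
      rw [inv_smul_smul, inv_smul_smul] at a2
      have b1 : sb (k • at' a⁻¹) (at' a⁻¹) (k • at' a) := by
        rw [← hvl, ← hvr]
        exact (hcut.iff _ _ _).2 (Or.inr (Or.inl ⟨v1, v2.trans v3⟩))
      have b2 := hC.sbP k⁻¹ hki _ _ _ b1
      rw [inv_smul_smul, inv_smul_smul] at b2
      have a3 := (hcut.sb_last.1 a2).2
      have b3 := hcut.sb_bot.1 b2
      have b4 := hcut.bot _ b3.1
      have A := (hj0 vL (k⁻¹ • at' a⁻¹) (Or.inr hvl) (Or.inl rfl)).1 v1 v2 b4 b3.2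
      have B := (hj0 vR (k⁻¹ • at' a) (Or.inl hvr) (Or.inr rfl)).2 v3 a3
      refine ⟨wR, wL, Or.inr ⟨rfl, rfl⟩, j0, fun j hj1 hj2 => ?_⟩
      have c1 : ι (a ^ j • wL) < ι (k⁻¹ • at' a⁻¹) := (hL j).trans (A j hj1)
      have c2 : ι (a ^ j • wR) < ι (k⁻¹ • at' a) := (hR j).trans (B _ hj2)
      have d1 : sb (at' a⁻¹) (a ^ j • wL) (k⁻¹ • at' a⁻¹) := hcut.sb_bot.2 ⟨hneα _ (hLα j), c1⟩
      have d2 := hC.sbP k hk _ _ _ d1
      rw [smul_inv_smul, ← hvr] at d2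
      have d3 : sb (at' a) (a ^ j • wR) (k⁻¹ • at' a) :=
        (hcut.sb_mid ((hRω j).trans c2)).2 ⟨hRω j, c2⟩
      have d4 := hC.sbP k hk _ _ _ d3
      rw [smul_inv_smul, ← hvl, hcut.sb_mid v2] at d4
      exact ⟨d4.1, d4.2, (hcut.sb_last.1 d2).2⟩
  -- apply `hm`
  have hn' : K - 2 * N + 1 ≤ m := by
    apply hm g (K - 2 * N + 1) (fun t => a ^ (m + 2) * k * a ^ (j0 - N - t))
    · intro t _
      exact mul_mem (mul_mem (pow_mem ha _) hk) (zpow_mem ha _)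
    · intro t ht
      have h3 := hj0 (j0 - N - t) (by omega) (by omega)
      have z1 : ι (a ^ (m + 2) • vL) < ι (a ^ (m + 2) • k • a ^ (j0 - N - t) • ws) := by
        have := hι.mono ((m + 2 : ℕ) : ℤ) _ _ h3.1
        rwa [zpow_natCast] at this
      have z2 : ι (a ^ (m + 2) • k • a ^ (j0 - N - t) • ws) < ι (at' a) := by
        have := hι.mono ((m + 2 : ℕ) : ℤ) _ _ h3.2.1
        rwa [hι.fixA, zpow_natCast] at this
      have z3 : ι (a ^ (m + 2) • vR) < ι (a ^ (m + 2) • k • a ^ (j0 - N - t) • wt) := by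
        have := hι.mono ((m + 2 : ℕ) : ℤ) _ _ h3.2.2
        rwa [zpow_natCast] at this
      have z4 : ι vL ≤ ι (a ^ (m + 2) • vL) := by
        have := hvL.monotone (show (0 : ℤ) ≤ ((m + 2 : ℕ) : ℤ) by omega)
        simpa only [zpow_natCast, zpow_zero, one_smul] using this
      have z5 : ι (a ^ K • vR) ≤ ι (a ^ (m + 2) • vR) := by
        have := hvR.antitone (show ((m + 2 : ℕ) : ℤ) ≤ ((K : ℕ) : ℤ) by omega)
        simpa only [zpow_natCast] using this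
      have hcr1 : Cr sb wL wR (a ^ (m + 2) • k • a ^ (j0 - N - t) • ws)
          (a ^ (m + 2) • k • a ^ (j0 - N - t) • wt) := by
        rw [hcut.cr (w2.trans w3)]
        refine Or.inl ⟨⟨?_, ?_⟩, Or.inr ?_⟩ <;> order
      simp only [mul_smul]
      rcases hw with ⟨rfl, rfl⟩ | ⟨rfl, rfl⟩ <;> rcases hst with ⟨rfl, rfl⟩ | ⟨rfl, rfl⟩
      · exact hcr1
      · exact cr_swap'.1 hcr1
      · exact cr_swap.1 (cr_swap'.1 hcr1)
      · exact cr_swap.1 hcr1
    · intro t ht t' ht' htt l hl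
      -- the special points
      have hz : ∀ t, t < K - 2 * N + 1 →
          ι (a ^ (m + 2) • vL) < ι ((a ^ (m + 2) * k * a ^ (j0 - N - t)) • ws) ∧
          ι ((a ^ (m + 2) * k * a ^ (j0 - N - t)) • ws) < ι (at' a) := by
        intro t ht
        have h3 := hj0 (j0 - N - t) (by omega) (by omega)
        simp only [mul_smul]
        have z1 := hι.mono ((m + 2 : ℕ) : ℤ) _ _ h3.1
        have z2 := hι.mono ((m + 2 : ℕ) : ℤ) _ _ h3.2.1
        rw [zpow_natCast] at z1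
        rw [hι.fixA, zpow_natCast] at z2
        exact ⟨z1, z2⟩
      have hl1 : (g * a * g⁻¹) ^ l • (a ^ (m + 2) * k * a ^ (j0 - N - t)) • ws =
          (a ^ (m + 2) * k * a ^ (j0 - N - t')) • ws := by
        rcases hw with ⟨rfl, rfl⟩ | ⟨rfl, rfl⟩ <;> rcases hst with ⟨rfl, rfl⟩ | ⟨rfl, rfl⟩
        · exact hl.1
        · exact hl.2
        · exact hl.2
        · exact hl.1
      obtain ⟨l', hl'⟩ : ∃ l' : ℤ, c ^ l' • (a ^ (m + 2) * k * a ^ (j0 - N - t)) • ws =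
          (a ^ (m + 2) * k * a ^ (j0 - N - t')) • ws := by
        rcases hcc with rfl | rfl
        · exact ⟨l, hl1⟩
        · exact ⟨-l, by rw [inv_zpow, zpow_neg, inv_inv]; exact hl1⟩
      have hzt := hz t ht
      have hzt' := hz t' ht'
      rcases lt_trichotomy l' 0 with h0 | h0 | h0
      · obtain ⟨r, hr⟩ : ∃ r : ℕ, l' = -((r + 1 : ℕ) : ℤ) := ⟨(-l' - 1).toNat, by omega⟩
        have h4 : (a ^ (m + 2) * k * a ^ (j0 - N - t)) • ws =
            c ^ (r + 1) • (a ^ (m + 2) * k * a ^ (j0 - N - t')) • ws := by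
          rw [← hl', hr, zpow_neg, zpow_natCast, smul_inv_smul]
        have h5 := (hJ _ hzt'.1 hzt'.2 r).1
        rw [← h4] at h5
        exact lt_asymm h5 hzt.2
      · rw [h0, zpow_zero, one_smul] at hl'
        simp only [mul_smul] at hl'
        have h4 := smul_left_cancel _ (smul_left_cancel _ hl')
        have hlr : (ι (at' a⁻¹) < ι ws ∧ ι ws < ι (at' a)) ∨ ι (at' a) < ι ws := by
          rcases hst with ⟨rfl, rfl⟩ | ⟨rfl, rfl⟩
          · exact Or.inl ⟨w1, w2⟩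
          · exact Or.inr w3
        rcases hlr with h5 | h5
        · have := (hι.left ws h5.1 h5.2).injective (congrArg ι h4)
          omega
        · have := (hι.right ws h5).injective (congrArg ι h4)
          omega
      · obtain ⟨r, hr⟩ : ∃ r : ℕ, l' = ((r + 1 : ℕ) : ℤ) := ⟨(l' - 1).toNat, by omega⟩
        rw [hr, zpow_natCast] at hl'
        have h5 := (hJ _ hzt.1 hzt.2 r).1
        rw [hl'] at h5
        exact lt_asymm h5 hzt'.2
  omega

/-- The two estimates for one orientation. -/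
theorem half (hC : CS P sb at') {a : G} (ha : a ∈ P) (ha1 : a ≠ 1) : ∃ B : ℕ,
    (∀ g k : G, k ∈ P → Cr sb (at' a⁻¹) (at' a) (k • at' a⁻¹) (k • at' a) →
      sb (at' a⁻¹) (g • at' a⁻¹) (at' a) → sb (at' a⁻¹) (g • at' a) (at' a) → ∀ i j : ℤ, i < j →
      Cr sb (a ^ i • k • at' a⁻¹) (a ^ i • k • at' a) (g • at' a⁻¹) (g • at' a) →
      Cr sb (a ^ j • k • at' a⁻¹) (a ^ j • k • at' a) (g • at' a⁻¹) (g • at' a) → j - i ≤ B) ∧
    (∀ g k : G, k ∈ P → Cr sb (at' a⁻¹) (at' a) (k • at' a⁻¹) (k • at' a) →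
      ∀ vL vR wL wR : E,
      ((vL = k • at' a⁻¹ ∧ vR = k • at' a) ∨ (vL = k • at' a ∧ vR = k • at' a⁻¹)) →
      ((wL = g • at' a⁻¹ ∧ wR = g • at' a) ∨ (wL = g • at' a ∧ wR = g • at' a⁻¹)) →
      sb (at' a⁻¹) vL (at' a) → sb (at' a) vR (at' a⁻¹) → sb (at' a⁻¹) wL (at' a) →
      sb (at' a) wR (at' a⁻¹) → ∀ i j : ℤ, i < j → sb (at' a⁻¹) wL (a ^ i • vL) →
      sb wR (a ^ j • vR) (at' a⁻¹) → j - i ≤ B) := by
  obtain ⟨F, hF, H, m, hm⟩ := exists_factM hC ha ha1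
  obtain ⟨T, _, ι, hι⟩ := exists_pcut hC ha ha1
  obtain ⟨N, hN⟩ := exists_factN hι hF H
  have hcut := hι.cut
  refine ⟨m + 2 * N + 2, ?_, ?_⟩
  · intro g k hk hcr s1 s2 i j hij ci cj
    obtain ⟨vL, vR, hv, v1, v2⟩ : ∃ vL vR, ((vL = k • at' a⁻¹ ∧ vR = k • at' a) ∨
        (vL = k • at' a ∧ vR = k • at' a⁻¹)) ∧ sb (at' a⁻¹) vL (at' a) ∧
        sb (at' a) vR (at' a⁻¹) := by
      rcases hcr with ⟨c1, c2⟩ | ⟨c1, c2⟩
      · exact ⟨_, _, Or.inl ⟨rfl, rfl⟩, c1, c2⟩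
      · exact ⟨_, _, Or.inr ⟨rfl, rfl⟩, c1, c2⟩
    obtain ⟨w1, w2, hw, t1, t2, t12⟩ : ∃ w1 w2, ((w1 = g • at' a⁻¹ ∧ w2 = g • at' a) ∨
        (w1 = g • at' a ∧ w2 = g • at' a⁻¹)) ∧ sb (at' a⁻¹) w1 (at' a) ∧
        sb (at' a⁻¹) w2 (at' a) ∧ ι w1 < ι w2 := by
      have hne : ι (g • at' a⁻¹) ≠ ι (g • at' a) := by
        intro h
        have h2 := smul_left_cancel g (hcut.inj h)
        exact hC.at_ne a ha ha1 h2
      rcases lt_or_gt_of_ne hne with h | h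
      · exact ⟨_, _, Or.inl ⟨rfl, rfl⟩, s1, s2, h⟩
      · exact ⟨_, _, Or.inr ⟨rfl, rfl⟩, s2, s1, h⟩
    rw [hcut.sb_bot] at v1 t1 t2
    have v2' := (hcut.sb_last.1 v2).2
    have vb := hcut.bot _ v1.1
    have tb := hcut.bot _ t1.1
    have key : ∀ i : ℤ, Cr sb (a ^ i • k • at' a⁻¹) (a ^ i • k • at' a) (g • at' a⁻¹)
        (g • at' a) → ι w1 < ι (a ^ i • vL) ∧ ι (a ^ i • vL) < ι w2 := by
      intro i hi
      have hi' : Cr sb (a ^ i • vL) (a ^ i • vR) w1 w2 := by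
        rcases hv with ⟨rfl, rfl⟩ | ⟨rfl, rfl⟩ <;> rcases hw with ⟨rfl, rfl⟩ | ⟨rfl, rfl⟩
        · exact hi
        · exact cr_swap'.1 hi
        · exact cr_swap.1 hi
        · exact cr_swap.1 (cr_swap'.1 hi)
      have m1 := hι.mono i _ _ v1.2
      have m2 := hι.mono i _ _ v2'
      rw [hι.fixA] at m1 m2
      rw [hcut.cr (m1.trans m2)] at hi'
      rcases hi' with ⟨⟨c1, c2⟩, c3 | c3⟩ | ⟨⟨c1, c2⟩, c3 | c3⟩
      · exfalso; order
      · exfalso; order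
      · exact ⟨c3, c1⟩
      · exfalso; order
    have k1 := key i ci
    have k2 := key j cj
    have := caseA hC ha ha1 hm hι (g := g) (w1 := w1) (w2 := w2) (x := a ^ i • vL)
      (n := (j - i).toNat) hw tb t2.2 t12 k1.1 (by
        rw [← zpow_natCast, Int.toNat_of_nonneg (by omega), ← mul_smul, ← zpow_add,
          sub_add_cancel]
        exact k2.2)
    push_cast
    omega
  · intro g k hk hcr vL vR wL wR hv hw v1 v2 w1 w2 i j hij s1 s2
    rw [hcut.sb_bot] at v1 w1 s1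
    rw [hcut.sb_last] at v2 w2 s2
    have vb := hcut.bot _ v1.1
    have wb := hcut.bot _ w1.1
    have m0 := hι.mono i _ _ vb
    have m1 := hι.mono i _ _ v1.2
    have m2 := hι.mono i _ _ v2.2
    rw [hι.fixA] at m1 m2
    rw [hι.fixR] at m0
    have hk' : a ^ i * k ∈ P := mul_mem (zpow_mem ha i) hk
    have hcr' : Cr sb (at' a⁻¹) (at' a) ((a ^ i * k) • at' a⁻¹) ((a ^ i * k) • at' a) := by
      have := hC.crG (a ^ i) _ _ _ _ hcr
      rwa [hι.fixA, hι.fixR, ← mul_smul, ← mul_smul] at this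
    have := caseB hC ha ha1 hm hι hN (k := a ^ i * k) (g := g) (vL := a ^ i • vL)
      (vR := a ^ i • vR) (wL := wL) (wR := wR) (K := (j - i).toNat) hk' hcr' (by
        rcases hv with ⟨rfl, rfl⟩ | ⟨rfl, rfl⟩
        · exact Or.inl ⟨(mul_smul _ _ _).symm, (mul_smul _ _ _).symm⟩
        · exact Or.inr ⟨(mul_smul _ _ _).symm, (mul_smul _ _ _).symm⟩) hw m0 m1 m2 wb w1.2 w2.2
      s1.2 (by
        rw [← zpow_natCast, Int.toNat_of_nonneg (by omega), ← mul_smul, ← zpow_add,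
          sub_add_cancel]
        exact s2.2)
    omega

end Dyn

end KBound

open KBound in
/-- The key bound: in the orbit of `V = k X` under the stabiliser of `X` a bounded number of
lines cross `W`. Here `X`, `W` are lines of the `G`-orbit of the axis of `a`. -/
theorem crossing_bound {G : Type*} {E : Type*} [Group G] [MulAction G E] {P : Subgroup G}
    {sb : E → E → E → Prop} {at' : G → E} (hC : CS P sb at') {a : G} (ha : Filling P sb at' a) :
    ∃ B : ℕ, ∀ g g' : G, ∀ k ∈ P, at' (g' * a * g'⁻¹) ≠ at' (g * a * g⁻¹) →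
      at' (g' * a * g'⁻¹) ≠ at' (g * a * g⁻¹)⁻¹ →
      LCr sb at' (g * a * g⁻¹) (k * (g * a * g⁻¹) * k⁻¹) →
      ∃ s : Finset ℤ, s.card ≤ B ∧ ∀ i : ℤ,
        LCr sb at' ((g * a * g⁻¹) ^ i * (k * (g * a * g⁻¹) * k⁻¹) * (g * a * g⁻¹) ^ (-i))
          (g' * a * g'⁻¹) → i ∈ s := by
  have haP := ha.mem
  have ha1 := ha.ne
  have hai := inv_mem haP
  have hai1 := inv_ne_one.2 ha1
  obtain ⟨B1, hA1, hB1⟩ := half hC haP ha1
  obtain ⟨B2, hA2, hB2⟩ := half (rev hC) haP ha1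
  obtain ⟨T, _, ι, hι⟩ := exists_pcut hC haP ha1
  have hcut := hι.cut
  refine ⟨2 * (max B1 B2) + 1, ?_⟩
  intro g g' k hk hne1 hne2 hcr
  -- end points of conjugates
  have eA : ∀ x : G, at' (x * a * x⁻¹) = x • at' a := fun x => (hC.smul_at x a haP ha1).symm
  have eR : ∀ x : G, at' (x * a * x⁻¹)⁻¹ = x • at' a⁻¹ := fun x => by
    rw [hC.smul_at x a⁻¹ hai hai1]
    congr 1
    group
  set h : G := g⁻¹ * g' with hh
  set k' : G := g⁻¹ * k * g with hk'
  have hk'P : k' ∈ P := by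
    have := hC.normal.conj_mem _ hk g⁻¹
    simpa using this
  have hmul : g * h = g' := by rw [hh]; group
  have hmulk : g * k' = k * g := by rw [hk']; group
  -- translation to `A`
  have hcr' : Cr sb (at' a⁻¹) (at' a) (k' • at' a⁻¹) (k' • at' a) := by
    unfold LCr at hcr
    have e : k * (g * a * g⁻¹) * k⁻¹ = (k * g) * a * (k * g)⁻¹ := by group
    rw [e, eA, eA, eR, eR] at hcr
    have := hC.crG g⁻¹ _ _ _ _ hcr
    simpa only [hk', mul_smul, inv_smul_smul] using this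
  have htr : ∀ i : ℤ, LCr sb at' ((g * a * g⁻¹) ^ i * (k * (g * a * g⁻¹) * k⁻¹) *
      (g * a * g⁻¹) ^ (-i)) (g' * a * g'⁻¹) →
      Cr sb (a ^ i • k' • at' a⁻¹) (a ^ i • k' • at' a) (h • at' a⁻¹) (h • at' a) := by
    intro i hi
    unfold LCr at hi
    have e : (g * a * g⁻¹) ^ i * (k * (g * a * g⁻¹) * k⁻¹) * (g * a * g⁻¹) ^ (-i) =
        (g * (a ^ i * k')) * a * (g * (a ^ i * k'))⁻¹ := by
      rw [conj_zpow, conj_zpow, hk']
      group
    rw [e, eA, eA, eR, eR] at hi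
    have := hC.crG g⁻¹ _ _ _ _ hi
    rw [← hmul] at this
    simpa only [mul_smul, inv_smul_smul] using this
  -- `W` has no end in common with `A`
  have hω1 : h • at' a ≠ at' a := by
    intro he
    apply hne1
    rw [eA, eA, ← hmul, mul_smul, he]
  have hω2 : h • at' a ≠ at' a⁻¹ := by
    intro he
    apply hne2
    rw [eA, eR, ← hmul, mul_smul, he]
  have hhP : h * a * h⁻¹ ∈ P := hC.normal.conj_mem _ haP h
  have hh1 : h * a * h⁻¹ ≠ 1 := by
    intro hx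
    apply ha1
    have : a = h⁻¹ * (h * a * h⁻¹) * h := by group
    rw [this, hx]; group
  have hα1 : h • at' a⁻¹ ≠ at' a⁻¹ := by
    intro he
    apply hω1
    have := ends hC (inv_mem hhP) (inv_ne_one.2 hh1) hai hai1 (by rw [eR, he])
    rwa [inv_inv, inv_inv, eA] at this
  have hα2 : h • at' a⁻¹ ≠ at' a := by
    intro he
    apply hω2
    have := ends hC (inv_mem hhP) (inv_ne_one.2 hh1) haP ha1 (by rw [eR, he])
    rwa [inv_inv, eA] at this
  -- the main claim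
  have main : ∀ i j : ℤ, i < j →
      Cr sb (a ^ i • k' • at' a⁻¹) (a ^ i • k' • at' a) (h • at' a⁻¹) (h • at' a) →
      Cr sb (a ^ j • k' • at' a⁻¹) (a ^ j • k' • at' a) (h • at' a⁻¹) (h • at' a) →
      j - i ≤ (max B1 B2 : ℕ) := by
    intro i j hij ci cj
    have b1 := hcut.bot _ hα1
    have b2 := hcut.bot _ hω2
    have l1 : (B1 : ℤ) ≤ (max B1 B2 : ℕ) := by exact_mod_cast le_max_left B1 B2
    have l2 : (B2 : ℤ) ≤ (max B1 B2 : ℕ) := by exact_mod_cast le_max_right B1 B2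
    have hne : at' a ≠ at' a⁻¹ := (hC.at_ne a haP ha1).symm
    have LR : ∀ wL wR : E, ((wL = h • at' a⁻¹ ∧ wR = h • at' a) ∨
        (wL = h • at' a ∧ wR = h • at' a⁻¹)) → wL ≠ at' a⁻¹ → ι wL < ι (at' a) →
        ι (at' a) < ι wR → j - i ≤ (max B1 B2 : ℕ) := by
      intro wL wR hw wne w1 w2
      obtain ⟨vL, vR, hv, v1, v2⟩ : ∃ vL vR, ((vL = k' • at' a⁻¹ ∧ vR = k' • at' a) ∨
          (vL = k' • at' a ∧ vR = k' • at' a⁻¹)) ∧ sb (at' a⁻¹) vL (at' a) ∧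
          sb (at' a) vR (at' a⁻¹) := by
        rcases hcr' with ⟨c1, c2⟩ | ⟨c1, c2⟩
        · exact ⟨_, _, Or.inl ⟨rfl, rfl⟩, c1, c2⟩
        · exact ⟨_, _, Or.inr ⟨rfl, rfl⟩, c1, c2⟩
      have v1' := hcut.sb_bot.1 v1
      have v2' := hcut.sb_last.1 v2
      have vb := hcut.bot _ v1'.1
      have hvL := hι.left vL vb v1'.2
      have hvR := hι.right vR v2'.2
      have s1 : sb (at' a⁻¹) wL (at' a) := hcut.sb_bot.2 ⟨wne, w1⟩
      have s2 : sb (at' a) wR (at' a⁻¹) := hcut.sb_last.2 ⟨hne, w2⟩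
      have wRne : wR ≠ at' a⁻¹ := fun e => by
        rw [e] at w2
        exact lt_asymm w2 hι.ends
      have key : ∀ i : ℤ, Cr sb (a ^ i • k' • at' a⁻¹) (a ^ i • k' • at' a) (h • at' a⁻¹)
          (h • at' a) → (ι wL < ι (a ^ i • vL) ∧ ι wR < ι (a ^ i • vR)) ∨
            (ι (a ^ i • vL) < ι wL ∧ ι (a ^ i • vR) < ι wR) := by
        intro i hi
        have hi' : Cr sb (a ^ i • vL) (a ^ i • vR) wL wR := by
          rcases hv with ⟨rfl, rfl⟩ | ⟨rfl, rfl⟩ <;> rcases hw with ⟨rfl, rfl⟩ | ⟨rfl, rfl⟩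
          · exact hi
          · exact cr_swap'.1 hi
          · exact cr_swap.1 hi
          · exact cr_swap.1 (cr_swap'.1 hi)
        have m1 := hι.mono i _ _ v1'.2
        have m2 := hι.mono i _ _ v2'.2
        rw [hι.fixA] at m1 m2
        rw [hcut.cr (m1.trans m2)] at hi'
        rcases hi' with ⟨⟨c1, c2⟩, c3 | c3⟩ | ⟨⟨c1, c2⟩, c3 | c3⟩
        · exfalso; order
        · exact Or.inr ⟨c1, c3⟩
        · exact Or.inl ⟨c3, c2⟩
        · exfalso; order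
      have n1 := hvL hij
      have n2 := hvR hij
      simp only at n1 n2
      have av : ∀ i : ℤ, ι (at' a⁻¹) < ι (a ^ i • vL) := fun i => by
        have := hι.mono i _ _ vb
        rwa [hι.fixR] at this
      have avR : ∀ i : ℤ, ι (at' a) < ι (a ^ i • vR) := fun i => by
        have := hι.mono i _ _ v2'.2
        rwa [hι.fixA] at this
      rcases key i ci with p1 | p1 <;> rcases key j cj with p2 | p2
      · have := hB1 h k' hk'P hcr' vL vR wL wR hv hw v1 v2 s1 s2 i j hij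
          (hcut.sb_bot.2 ⟨wne, p1.1⟩) (hcut.sb_last.2 ⟨wRne, p2.2⟩)
        omega
      · exfalso
        have q1 := p1.1
        have q2 := p2.1
        order
      · exfalso
        have q1 := p1.2
        have q2 := p2.2
        order
      · have hv' : ((vR = k' • at' a⁻¹ ∧ vL = k' • at' a) ∨
            (vR = k' • at' a ∧ vL = k' • at' a⁻¹)) := by tauto
        have hw' : ((wR = h • at' a⁻¹ ∧ wL = h • at' a) ∨
            (wR = h • at' a ∧ wL = h • at' a⁻¹)) := by tauto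
        have := hB2 h k' hk'P (cr_rev.2 hcr') vR vL wR wL hv' hw' v2 v1 s2 s1 i j hij
          (hcut.sb_last.2 ⟨fun e => by
            have := avR i
            rw [e] at this
            exact lt_asymm this hι.ends, p1.2⟩)
          (hcut.sb_bot.2 ⟨fun e => by
            have := av j
            rw [e] at this
            exact lt_irrefl _ this, p2.1⟩)
        omega
    rcases lt_trichotomy (ι (h • at' a⁻¹)) (ι (at' a)) with t1 | t1 | t1
    · rcases lt_trichotomy (ι (h • at' a)) (ι (at' a)) with t2 | t2 | t2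
      · have := hA1 h k' hk'P hcr' (hcut.sb_bot.2 ⟨hα1, t1⟩) (hcut.sb_bot.2 ⟨hω2, t2⟩) i j hij ci cj
        omega
      · exact absurd (hcut.inj t2) hω1
      · exact LR _ _ (Or.inl ⟨rfl, rfl⟩) hα1 t1 t2
    · exact absurd (hcut.inj t1) hα2
    · rcases lt_trichotomy (ι (h • at' a)) (ι (at' a)) with t2 | t2 | t2
      · exact LR _ _ (Or.inr ⟨rfl, rfl⟩) hω2 t2 t1
      · exact absurd (hcut.inj t2) hω1
      · have := hA2 h k' hk'P (cr_rev.2 hcr') (hcut.sb_last.2 ⟨hne, t1⟩)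
          (hcut.sb_last.2 ⟨hne, t2⟩) i j hij (cr_rev.2 ci) (cr_rev.2 cj)
        omega
  -- the finite set
  by_cases hex : ∃ i : ℤ, Cr sb (a ^ i • k' • at' a⁻¹) (a ^ i • k' • at' a) (h • at' a⁻¹)
      (h • at' a)
  · obtain ⟨i0, hi0⟩ := hex
    refine ⟨Finset.Icc (i0 - (max B1 B2 : ℕ)) (i0 + (max B1 B2 : ℕ)), ?_, ?_⟩
    · rw [Int.card_Icc]
      omega
    · intro i hi
      rw [Finset.mem_Icc]
      have hi' := htr i hi
      rcases lt_trichotomy i i0 with h0 | h0 | h0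
      · have := main i i0 h0 hi' hi0
        push_cast
        omega
      · subst h0
        push_cast
        omega
      · have := main i0 i h0 hi0 hi'
        push_cast
        omega
  · exact ⟨∅, by simp, fun i hi => absurd ⟨i, htr i hi⟩ hex⟩

end Pool.Agent.MP_e058c8_al
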