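import Pool.Agent.MP_e058c8_al.Defs

/-! Task J1: eigendirections of hyperbolic matrices, cyclic stabilisers. -/

namespace Pool.Agent.MP_e058c8_al

open scoped MatrixGroups

namespace Dirs

lemma mv0 (g : SL(2, ℝ)) (v : Fin 2 → ℝ) : (g.1.mulVec v) 0 = g.1 0 0 * v 0 + g.1 0 1 * v 1 := by
  simp [Matrix.mulVec, dotProduct, Fin.sum_univ_two]

lemma mv1 (g : SL(2, ℝ)) (v : Fin 2 → ℝ) : (g.1.mulVec v) 1 = g.1 1 0 * v 0 + g.1 1 1 * v 1 := by
  simp [Matrix.mulVec, dotProduct, Fin.sum_univ_two]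

lemma det1 (g : SL(2, ℝ)) : g.1 0 0 * g.1 1 1 - g.1 0 1 * g.1 1 0 = 1 := by
  have := g.2
  rwa [Matrix.det_fin_two] at this

lemma det2_mulVec (g : SL(2, ℝ)) (v w : Fin 2 → ℝ) :
    det2 (g.1.mulVec v) (g.1.mulVec w) = det2 v w := by
  have h := det1 g
  simp only [det2, mv0, mv1]
  have : (g.1 0 0 * v 0 + g.1 0 1 * v 1) * (g.1 1 0 * w 0 + g.1 1 1 * w 1) -
      (g.1 1 0 * v 0 + g.1 1 1 * v 1) * (g.1 0 0 * w 0 + g.1 0 1 * w 1) =
      (g.1 0 0 * g.1 1 1 - g.1 0 1 * g.1 1 0) * (v 0 * w 1 - v 1 * w 0) := by ring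
  rw [this, h, one_mul]

lemma det2_smul_left (c : ℝ) (v w : Fin 2 → ℝ) : det2 (c • v) w = c * det2 v w := by
  simp [det2]; ring

lemma det2_smul_right (c : ℝ) (v w : Fin 2 → ℝ) : det2 v (c • w) = c * det2 v w := by
  simp [det2]; ring

lemma det2_add_left (a b w : Fin 2 → ℝ) : det2 (a + b) w = det2 a w + det2 b w := by
  simp [det2]; ring

lemma det2_self (v : Fin 2 → ℝ) : det2 v v = 0 := by simp [det2]; ring

lemma det2_comm (v w : Fin 2 → ℝ) : det2 v w = -det2 w v := by simp [det2]; ring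

lemma vec_ext {v w : Fin 2 → ℝ} (h0 : v 0 = w 0) (h1 : v 1 = w 1) : v = w := by
  ext i; fin_cases i
  · exact h0
  · exact h1

lemma ne_zero_iff {v : Fin 2 → ℝ} : v ≠ 0 ↔ v 0 ≠ 0 ∨ v 1 ≠ 0 := by
  constructor
  · intro h
    by_contra hcon
    push Not at hcon
    exact h (vec_ext hcon.1 hcon.2)
  · rintro (h | h) rfl <;> exact h rfl

lemma exists_smul_of_det2 {v w : Fin 2 → ℝ} (hv : v ≠ 0) (h : det2 v w = 0) :
    ∃ c : ℝ, w = c • v := by
  simp only [det2] at h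
  rcases ne_zero_iff.1 hv with h0 | h1
  · refine ⟨w 0 / v 0, vec_ext ?_ ?_⟩
    · simp only [Pi.smul_apply, smul_eq_mul]; field_simp
    · simp only [Pi.smul_apply, smul_eq_mul]; field_simp; linarith
  · refine ⟨w 1 / v 1, vec_ext ?_ ?_⟩
    · simp only [Pi.smul_apply, smul_eq_mul]; field_simp; linarith
    · simp only [Pi.smul_apply, smul_eq_mul]; field_simp

lemma mulVec_ne_zero (g : SL(2, ℝ)) {v : Fin 2 → ℝ} (hv : v ≠ 0) : g.1.mulVec v ≠ 0 := by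
  intro h
  apply hv
  have h1 : (g⁻¹).1.mulVec (g.1.mulVec v) = v := by
    rw [Matrix.mulVec_mulVec, ← Matrix.SpecialLinearGroup.coe_mul]
    simp
  rw [← h1, h, Matrix.mulVec_zero]

lemma smul_ne {v : Fin 2 → ℝ} (hv : v ≠ 0) {a b : ℝ} (h : a • v = b • v) : a = b := by
  have h1 : (a - b) • v = 0 := by rw [sub_smul, h, sub_self]
  rcases smul_eq_zero.1 h1 with h2 | h2
  · linarith
  · exact absurd h2 hv

lemma inv_mulVec {g : SL(2, ℝ)} {v w : Fin 2 → ℝ} (h : g.1.mulVec v = w) :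
    (g⁻¹).1.mulVec w = v := by
  rw [← h, Matrix.mulVec_mulVec, ← Matrix.SpecialLinearGroup.coe_mul]
  simp

/-- decomposition in a basis -/
lemma decomp {v u : Fin 2 → ℝ} (hd : det2 v u ≠ 0) (x : Fin 2 → ℝ) :
    x = (det2 x u / det2 v u) • v + (det2 v x / det2 v u) • u := by
  have hd' : v 0 * u 1 - v 1 * u 0 ≠ 0 := hd
  apply vec_ext
  · simp only [Pi.add_apply, Pi.smul_apply, smul_eq_mul, det2]
    rw [div_mul_eq_mul_div, div_mul_eq_mul_div, ← add_div, eq_div_iff hd']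
    ring
  · simp only [Pi.add_apply, Pi.smul_apply, smul_eq_mul, det2]
    rw [div_mul_eq_mul_div, div_mul_eq_mul_div, ← add_div, eq_div_iff hd']
    ring

lemma trace_of {v u : Fin 2 → ℝ} (hd : det2 v u ≠ 0) {g : SL(2, ℝ)} {c c' : ℝ}
    (h1 : g.1.mulVec v = c • v) (h2 : g.1.mulVec u = c' • u) : g.1.trace = c + c' := by
  rw [Matrix.trace_fin_two]
  have e10 := congrFun h1 0
  have e11 := congrFun h1 1
  have e20 := congrFun h2 0
  have e21 := congrFun h2 1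
  rw [mv0] at e10 e20
  rw [mv1] at e11 e21
  simp only [Pi.smul_apply, smul_eq_mul] at e10 e11 e20 e21
  have hd' : v 0 * u 1 - v 1 * u 0 ≠ 0 := hd
  apply mul_left_cancel₀ hd'
  linear_combination u 1 * e10 - v 1 * e20 - u 0 * e11 + v 0 * e21

lemma nsq_bound (v u : Fin 2 → ℝ) (hd : det2 v u ≠ 0) : ∃ K : ℝ, ∀ (g : SL(2, ℝ)) (c t c' C : ℝ),
    g.1.mulVec v = c • v → g.1.mulVec u = t • v + c' • u → |c| ≤ C → |t| ≤ C → |c'| ≤ C →
    nsq g ≤ K * C ^ 2 := by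
  set s : ℝ := |u 0| + |u 1| + |v 0| + |v 1| with hs
  refine ⟨4 * (3 * s ^ 2 / |det2 v u|) ^ 2, ?_⟩
  intro g c t c' C h1 h2 hc ht hc'
  have hδ : 0 < |det2 v u| := abs_pos.2 hd
  have hC : 0 ≤ C := (abs_nonneg _).trans hc
  have e10 := congrFun h1 0
  have e11 := congrFun h1 1
  have e20 := congrFun h2 0
  have e21 := congrFun h2 1
  rw [mv0] at e10 e20
  rw [mv1] at e11 e21
  simp only [Pi.smul_apply, Pi.add_apply, smul_eq_mul] at e10 e11 e20 e21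
  have a0 := abs_nonneg (u 0)
  have a1 := abs_nonneg (u 1)
  have a2 := abs_nonneg (v 0)
  have a3 := abs_nonneg (v 1)
  have hs0 : 0 ≤ s := by rw [hs]; linarith
  -- general estimate
  have key : ∀ x1 x2 y1 y2 z1 z2 : ℝ, |x1| ≤ s → |x2| ≤ s → |y1| ≤ s → |y2| ≤ s → |z1| ≤ s →
      |z2| ≤ s → |c * (x1 * x2) + t * (y1 * y2) + c' * (z1 * z2)| ≤ C * (3 * s ^ 2) := by
    intro x1 x2 y1 y2 z1 z2 k1 k2 k3 k4 k5 k6
    have b1 : |c * (x1 * x2)| ≤ C * (s * s) := by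
      rw [abs_mul, abs_mul]
      exact mul_le_mul hc (mul_le_mul k1 k2 (abs_nonneg _) hs0) (by positivity) hC
    have b2 : |t * (y1 * y2)| ≤ C * (s * s) := by
      rw [abs_mul, abs_mul]
      exact mul_le_mul ht (mul_le_mul k3 k4 (abs_nonneg _) hs0) (by positivity) hC
    have b3 : |c' * (z1 * z2)| ≤ C * (s * s) := by
      rw [abs_mul, abs_mul]
      exact mul_le_mul hc' (mul_le_mul k5 k6 (abs_nonneg _) hs0) (by positivity) hC
    calc |c * (x1 * x2) + t * (y1 * y2) + c' * (z1 * z2)|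
        ≤ |c * (x1 * x2)| + |t * (y1 * y2)| + |c' * (z1 * z2)| := abs_add_three _ _ _
      _ ≤ C * (3 * s ^ 2) := by nlinarith
  have hu0 : |u 0| ≤ s := by rw [hs]; linarith
  have hu1 : |u 1| ≤ s := by rw [hs]; linarith
  have hv0 : |v 0| ≤ s := by rw [hs]; linarith
  have hv1 : |v 1| ≤ s := by rw [hs]; linarith
  have nv1 : |(-v 1)| ≤ s := by rw [abs_neg]; exact hv1
  have nu0 : |(-u 0)| ≤ s := by rw [abs_neg]; exact hu0
  have sq_of : ∀ m x : ℝ, det2 v u * m = x → |x| ≤ C * (3 * s ^ 2) →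
      m ^ 2 ≤ (3 * s ^ 2 / |det2 v u|) ^ 2 * C ^ 2 := by
    intro m x hmx hx
    have h3 : |m| ≤ 3 * s ^ 2 / |det2 v u| * C := by
      rw [div_mul_eq_mul_div, le_div_iff₀ hδ, ← abs_mul, mul_comm m, hmx]
      linarith
    calc m ^ 2 = |m| ^ 2 := (sq_abs m).symm
      _ ≤ (3 * s ^ 2 / |det2 v u| * C) ^ 2 := by gcongr
      _ = _ := by ring
  have m00 : g.1 0 0 ^ 2 ≤ (3 * s ^ 2 / |det2 v u|) ^ 2 * C ^ 2 := by
    refine sq_of _ (c * (u 1 * v 0) + t * ((-v 1) * v 0) + c' * ((-v 1) * u 0)) ?_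
      (key _ _ _ _ _ _ hu1 hv0 nv1 hv0 nv1 hu0)
    simp only [det2]
    linear_combination u 1 * e10 - v 1 * e20
  have m01 : g.1 0 1 ^ 2 ≤ (3 * s ^ 2 / |det2 v u|) ^ 2 * C ^ 2 := by
    refine sq_of _ (c * ((-u 0) * v 0) + t * (v 0 * v 0) + c' * (v 0 * u 0)) ?_
      (key _ _ _ _ _ _ nu0 hv0 hv0 hv0 hv0 hu0)
    simp only [det2]
    linear_combination -u 0 * e10 + v 0 * e20
  have m10 : g.1 1 0 ^ 2 ≤ (3 * s ^ 2 / |det2 v u|) ^ 2 * C ^ 2 := by
    refine sq_of _ (c * (u 1 * v 1) + t * ((-v 1) * v 1) + c' * ((-v 1) * u 1)) ?_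
      (key _ _ _ _ _ _ hu1 hv1 nv1 hv1 nv1 hu1)
    simp only [det2]
    linear_combination u 1 * e11 - v 1 * e21
  have m11 : g.1 1 1 ^ 2 ≤ (3 * s ^ 2 / |det2 v u|) ^ 2 * C ^ 2 := by
    refine sq_of _ (c * ((-u 0) * v 1) + t * (v 0 * v 1) + c' * (v 0 * u 1)) ?_
      (key _ _ _ _ _ _ nu0 hv1 hv0 hv1 hv0 hu1)
    simp only [det2]
    linear_combination -u 0 * e11 + v 0 * e21
  have : nsq g = g.1 0 0 ^ 2 + g.1 0 1 ^ 2 + g.1 1 0 ^ 2 + g.1 1 1 ^ 2 := rfl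
  rw [this]
  linarith

end Dirs

open Dirs

variable {π : Type*} [Group π]

theorem exists_dir (g : SL(2, ℝ)) (hg : 2 < |g.1.trace|) : ∃ v, IsDir g v := by
  set t := g.1.trace with ht
  have ht4 : 0 < t ^ 2 - 4 := by
    have : (2 : ℝ) ^ 2 < |t| ^ 2 := by
      apply pow_lt_pow_left₀ hg (by norm_num) (by norm_num)
    rw [sq_abs] at this
    linarith
  have hs : Real.sqrt (t ^ 2 - 4) ^ 2 = t ^ 2 - 4 := Real.sq_sqrt ht4.le
  have hs0 : 0 < Real.sqrt (t ^ 2 - 4) := Real.sqrt_pos.2 ht4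
  obtain ⟨μ, hμ, hμ1⟩ : ∃ μ : ℝ, μ ^ 2 - t * μ + 1 = 0 ∧ 1 < |μ| := by
    rcases le_or_gt 0 t with h | h
    · rw [abs_of_nonneg h] at hg
      refine ⟨(t + Real.sqrt (t ^ 2 - 4)) / 2, by nlinarith, ?_⟩
      rw [abs_of_pos (by linarith)]
      linarith
    · rw [abs_of_neg h] at hg
      refine ⟨(t - Real.sqrt (t ^ 2 - 4)) / 2, by nlinarith, ?_⟩
      rw [abs_of_neg (by linarith)]
      linarith
  have hdet : (g.1 - μ • (1 : Matrix (Fin 2) (Fin 2) ℝ)).det = 0 := by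
    rw [Matrix.det_fin_two]
    have h1 := det1 g
    have h2 : t = g.1 0 0 + g.1 1 1 := by rw [ht, Matrix.trace_fin_two]
    simp only [Matrix.sub_apply, Matrix.smul_apply, smul_eq_mul, Matrix.one_apply_eq]
    have h01 : (1 : Matrix (Fin 2) (Fin 2) ℝ) 0 1 = 0 := by simp
    have h10 : (1 : Matrix (Fin 2) (Fin 2) ℝ) 1 0 = 0 := by simp
    rw [h01, h10]
    rw [h2] at hμ
    linear_combination hμ + h1
  obtain ⟨v, hv, hv0⟩ := Matrix.exists_mulVec_eq_zero_iff.2 hdet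
  refine ⟨v, hv, μ, hμ1, ?_⟩
  rw [Matrix.sub_mulVec, Matrix.smul_mulVec, Matrix.one_mulVec, sub_eq_zero] at hv0
  exact hv0

theorem isDir_unique {g : SL(2, ℝ)} {v w : Fin 2 → ℝ} (hv : IsDir g v) (hw : IsDir g w) :
    det2 v w = 0 := by
  obtain ⟨hv0, μ, hμ, hgv⟩ := hv
  obtain ⟨hw0, ν, hν, hgw⟩ := hw
  have h := det2_mulVec g v w
  rw [hgv, hgw, det2_smul_left, det2_smul_right] at h
  by_contra hne
  have h2 : μ * ν = 1 := by
    have : (μ * ν) * det2 v w = 1 * det2 v w := by linarith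
    exact mul_right_cancel₀ hne this
  have h3 : |μ| * |ν| = 1 := by rw [← abs_mul, h2, abs_one]
  nlinarith

theorem isDir_smul {g : SL(2, ℝ)} {v w : Fin 2 → ℝ} (hv : IsDir g v) (hw : w ≠ 0)
    (h : det2 v w = 0) : IsDir g w := by
  obtain ⟨hv0, μ, hμ, hgv⟩ := hv
  obtain ⟨c, rfl⟩ := exists_smul_of_det2 hv0 h
  refine ⟨hw, μ, hμ, ?_⟩
  rw [Matrix.mulVec_smul, hgv, smul_comm]

theorem isDir_neg {g : SL(2, ℝ)} {v : Fin 2 → ℝ} (hv : IsDir g v) : IsDir (-g) v := by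
  obtain ⟨hv0, μ, hμ, hgv⟩ := hv
  refine ⟨hv0, -μ, by rwa [abs_neg], ?_⟩
  have : (-g).1 = -g.1 := rfl
  rw [this, Matrix.neg_mulVec, hgv, neg_smul]

theorem isDir_conj {g : SL(2, ℝ)} {v : Fin 2 → ℝ} (hv : IsDir g v) (k : SL(2, ℝ)) :
    IsDir (k * g * k⁻¹) (k.1.mulVec v) := by
  obtain ⟨hv0, μ, hμ, hgv⟩ := hv
  refine ⟨mulVec_ne_zero k hv0, μ, hμ, ?_⟩
  have h1 : (k * g * k⁻¹).1 = k.1 * g.1 * (k⁻¹).1 := by
    rw [Matrix.SpecialLinearGroup.coe_mul, Matrix.SpecialLinearGroup.coe_mul]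
  rw [h1, ← Matrix.mulVec_mulVec, ← Matrix.mulVec_mulVec, inv_mulVec rfl, hgv, Matrix.mulVec_smul]

theorem isDir_pow {g : SL(2, ℝ)} {v : Fin 2 → ℝ} (hv : IsDir g v) {n : ℕ} (hn : 0 < n) :
    IsDir (g ^ n) v := by
  obtain ⟨hv0, μ, hμ, hgv⟩ := hv
  refine ⟨hv0, μ ^ n, ?_, ?_⟩
  · rw [abs_pow]; exact one_lt_pow₀ hμ hn.ne'
  · clear hn
    induction n with
    | zero => simp
    | succ n ih =>
      rw [pow_succ, Matrix.SpecialLinearGroup.coe_mul, ← Matrix.mulVec_mulVec, hgv,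
        Matrix.mulVec_smul, ih, smul_smul, pow_succ]
      congr 1
      ring

theorem isDir_inv_ne {g : SL(2, ℝ)} {u v : Fin 2 → ℝ} (hu : IsDir g⁻¹ u) (hv : IsDir g v) :
    det2 u v ≠ 0 := by
  obtain ⟨hu0, ν, hν, hgu⟩ := hu
  obtain ⟨hv0, μ, hμ, hgv⟩ := hv
  intro h
  obtain ⟨c, rfl⟩ := exists_smul_of_det2 hu0 h
  have hc : c ≠ 0 := by
    rintro rfl
    exact hv0 (zero_smul _ _)
  have h1 : g.1.mulVec u = μ • u := by
    rw [Matrix.mulVec_smul, smul_comm] at hgv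
    exact smul_right_injective _ hc hgv
  have h2 := inv_mulVec h1
  rw [Matrix.mulVec_smul, hgu, smul_smul] at h2
  have h3 : μ * ν = 1 := by
    apply smul_ne hu0
    rw [h2, one_smul]
  have h4 : |μ| * |ν| = 1 := by rw [← abs_mul, h3, abs_one]
  nlinarith

theorem rep_one {M : π → SL(2, ℝ)} (hM : Rep M) : M 1 = 1 ∨ M 1 = -1 := by
  rcases hM.mul 1 1 with h | h
  · left
    rw [one_mul] at h
    exact (mul_eq_left.1 h.symm)
  · right
    rw [one_mul] at h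
    have h1 : M 1 * M 1 = M 1 * (-1) := by
      have : M 1 * M 1 = -M 1 := by
        nth_rewrite 3 [h]
        rw [neg_neg]
      rw [this, mul_neg, mul_one]
    exact mul_left_cancel h1

theorem rep_inv {M : π → SL(2, ℝ)} (hM : Rep M) (p : π) : M p⁻¹ = (M p)⁻¹ ∨ M p⁻¹ = -(M p)⁻¹ := by
  have h1 : M p * M p⁻¹ = 1 ∨ M p * M p⁻¹ = -1 := by
    have h := hM.mul p p⁻¹
    rw [mul_inv_cancel] at h
    rcases rep_one hM with h0 | h0 <;> rcases h with h | h <;> rw [h0] at h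
    · left; exact h.symm
    · right; rw [h, neg_neg]
    · right; exact h.symm
    · left; exact (neg_injective h).symm
  rcases h1 with h | h
  · left
    exact (inv_eq_of_mul_eq_one_right h).symm
  · right
    have : M p * (-(M p⁻¹)) = 1 := by rw [mul_neg, h, neg_neg]
    rw [inv_eq_of_mul_eq_one_right this, neg_neg]

namespace Dirs

/-- `v` is an eigenvector of `M q` with eigenvalue of absolute value `a` -/
def AA (M : π → SL(2, ℝ)) (v : Fin 2 → ℝ) (q : π) (a : ℝ) : Prop :=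
  ∃ c : ℝ, |c| = a ∧ (M q).1.mulVec v = c • v

lemma sgn_mul {M : π → SL(2, ℝ)} (hM : Rep M) (p q : π) : ∃ s : ℝ, |s| = 1 ∧
    ∀ x, (M (p * q)).1.mulVec x = s • (M p).1.mulVec ((M q).1.mulVec x) := by
  rcases hM.mul p q with h | h
  · refine ⟨1, abs_one, fun x => ?_⟩
    rw [h, Matrix.SpecialLinearGroup.coe_mul, Matrix.mulVec_mulVec, one_smul]
  · refine ⟨-1, by simp, fun x => ?_⟩
    have h1 : (M (p * q)).1 = -((M p).1 * (M q).1) := by
      rw [h, ← Matrix.SpecialLinearGroup.coe_mul]; rfl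
    rw [h1, Matrix.neg_mulVec, Matrix.mulVec_mulVec, neg_smul, one_smul]

lemma AA.mul {M : π → SL(2, ℝ)} (hM : Rep M) {v : Fin 2 → ℝ} {p q : π} {a b : ℝ}
    (hp : AA M v p a) (hq : AA M v q b) : AA M v (p * q) (a * b) := by
  obtain ⟨c, hc, h1⟩ := hp
  obtain ⟨d, hd, h2⟩ := hq
  obtain ⟨s, hs, h3⟩ := sgn_mul hM p q
  refine ⟨s * (d * c), ?_, ?_⟩
  · rw [abs_mul, abs_mul, hs, hc, hd]; ring
  · rw [h3, h2, Matrix.mulVec_smul, h1, smul_smul, smul_smul, mul_assoc]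

lemma AA.pos {M : π → SL(2, ℝ)} {v : Fin 2 → ℝ} (hv : v ≠ 0) {p : π} {a : ℝ}
    (hp : AA M v p a) : 0 < a := by
  obtain ⟨c, hc, h1⟩ := hp
  rw [← hc, abs_pos]
  rintro rfl
  rw [zero_smul] at h1
  exact mulVec_ne_zero _ hv h1

lemma AA.unique {M : π → SL(2, ℝ)} {v : Fin 2 → ℝ} (hv : v ≠ 0) {p : π} {a b : ℝ}
    (hp : AA M v p a) (hp' : AA M v p b) : a = b := by
  obtain ⟨c, hc, h1⟩ := hp
  obtain ⟨d, hd, h2⟩ := hp'
  rw [h1] at h2
  rw [← hc, ← hd, smul_ne hv h2]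

lemma AA.one {M : π → SL(2, ℝ)} (hM : Rep M) (v : Fin 2 → ℝ) : AA M v 1 1 := by
  rcases rep_one hM with h | h
  · refine ⟨1, abs_one, ?_⟩
    rw [h, Matrix.SpecialLinearGroup.coe_one, Matrix.one_mulVec, one_smul]
  · refine ⟨-1, by simp, ?_⟩
    have h1 : (M 1).1 = -1 := by rw [h]; rfl
    rw [h1, Matrix.neg_mulVec, Matrix.one_mulVec, neg_smul, one_smul]

lemma AA.inv {M : π → SL(2, ℝ)} (hM : Rep M) {v : Fin 2 → ℝ} (hv : v ≠ 0) {p : π} {a : ℝ}
    (hp : AA M v p a) : AA M v p⁻¹ a⁻¹ := by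
  have ha := hp.pos hv
  obtain ⟨c, hc, h1⟩ := hp
  have hc0 : c ≠ 0 := by
    rintro rfl
    rw [abs_zero] at hc
    linarith
  have h2 : ((M p)⁻¹).1.mulVec v = c⁻¹ • v := by
    have := inv_mulVec h1
    rw [Matrix.mulVec_smul] at this
    rw [← this, smul_smul, inv_mul_cancel₀ hc0, one_smul, this]
  rcases rep_inv hM p with h | h
  · refine ⟨c⁻¹, by rw [abs_inv, hc], ?_⟩
    rw [h, h2]
  · refine ⟨-c⁻¹, by rw [abs_neg, abs_inv, hc], ?_⟩
    have h3 : (M p⁻¹).1 = -((M p)⁻¹).1 := by rw [h]; rfl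
    rw [h3, Matrix.neg_mulVec, h2, neg_smul]

lemma AA.pow {M : π → SL(2, ℝ)} (hM : Rep M) {v : Fin 2 → ℝ} {p : π} {a : ℝ}
    (hp : AA M v p a) (n : ℕ) : AA M v (p ^ n) (a ^ n) := by
  induction n with
  | zero => simpa using AA.one hM v
  | succ n ih => rw [pow_succ, pow_succ]; exact ih.mul hM hp

lemma AA.zpow {M : π → SL(2, ℝ)} (hM : Rep M) {v : Fin 2 → ℝ} (hv : v ≠ 0) {p : π} {a : ℝ}
    (hp : AA M v p a) (n : ℤ) : AA M v (p ^ n) (a ^ n) := by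
  cases n with
  | ofNat n => simpa using hp.pow hM n
  | negSucc n =>
    rw [zpow_negSucc, zpow_negSucc]
    exact (hp.pow hM (n + 1)).inv hM hv

/-- no sharing of end points -/
lemma no_share {M : π → SL(2, ℝ)} (hM : Rep M) {p q : π} {u v : Fin 2 → ℝ} (hu : u ≠ 0)
    (hv : v ≠ 0) (hd : det2 v u ≠ 0) {b : ℝ} (hb : 1 < b) (hpv : AA M v p b)
    (hpu : AA M u p b⁻¹) {a : ℝ} (hqv : AA M v q a) : AA M u q a⁻¹ := by
  have hb0 : 0 < b := by linarith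
  obtain ⟨c, hc, hqc⟩ := hqv
  set t : ℝ := det2 ((M q).1.mulVec u) u / det2 v u with ht
  set c' : ℝ := det2 v ((M q).1.mulVec u) / det2 v u with hc'
  have hqu : (M q).1.mulVec u = t • v + c' • u := decomp hd _
  -- the conjugates are bounded
  have hconj : ∀ n : ℕ, ∃ c₁ t₁ c₁' : ℝ, (M ((p ^ n)⁻¹ * (q * p ^ n))).1.mulVec v = c₁ • v ∧
      (M ((p ^ n)⁻¹ * (q * p ^ n))).1.mulVec u = t₁ • v + c₁' • u ∧ |c₁| = |c| ∧ |t₁| ≤ |t| ∧
      |c₁'| = |c'| := by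
    intro n
    obtain ⟨s1, hs1, h1⟩ := sgn_mul hM (p ^ n)⁻¹ (q * p ^ n)
    obtain ⟨s2, hs2, h2⟩ := sgn_mul hM q (p ^ n)
    obtain ⟨x, hx, hxv⟩ := hpv.pow hM n
    obtain ⟨y, hy, hyu⟩ := hpu.pow hM n
    obtain ⟨x', hx', hxv'⟩ := (hpv.pow hM n).inv hM hv
    obtain ⟨y', hy', hyu'⟩ := (hpu.pow hM n).inv hM hu
    have hbn : 1 ≤ b ^ n := one_le_pow₀ hb.le
    have hbn0 : 0 < b ^ n := by positivity
    refine ⟨s1 * (s2 * (x * (c * x'))), s1 * (s2 * (y * (t * x'))), s1 * (s2 * (y * (c' * y'))),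
      ?_, ?_, ?_, ?_, ?_⟩
    · rw [h1, h2, hxv]
      simp only [Matrix.mulVec_smul, hqc, hxv', smul_smul]
      congr 1
      ring
    · rw [h1, h2, hyu]
      simp only [Matrix.mulVec_smul, hqu, Matrix.mulVec_add, hxv', hyu', smul_add, smul_smul]
      congr 2 <;> ring
    · rw [abs_mul, abs_mul, abs_mul, abs_mul, hs1, hs2, hx, hx']
      field_simp
    · rw [abs_mul, abs_mul, abs_mul, abs_mul, hs1, hs2, hy, hx', inv_pow]
      have : (b ^ n)⁻¹ ≤ 1 := inv_le_one_of_one_le₀ hbn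
      have h0 : 0 ≤ (b ^ n)⁻¹ := by positivity
      have ht0 := abs_nonneg t
      calc 1 * (1 * ((b ^ n)⁻¹ * (|t| * (b ^ n)⁻¹))) = (b ^ n)⁻¹ * (b ^ n)⁻¹ * |t| := by ring
        _ ≤ 1 * 1 * |t| := by gcongr
        _ = |t| := by ring
    · rw [abs_mul, abs_mul, abs_mul, abs_mul, hs1, hs2, hy, hy', inv_pow, inv_inv]
      field_simp
  obtain ⟨K, hK⟩ := nsq_bound v u hd
  have hfin := hM.disc (K * (|c| + |t| + |c'|) ^ 2)
  have hmaps : Set.MapsTo (fun n : ℕ => (p ^ n)⁻¹ * (q * p ^ n)) Set.univ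
      {x | nsq (M x) ≤ K * (|c| + |t| + |c'|) ^ 2} := by
    intro n _
    obtain ⟨c₁, t₁, c₁', h1, h2, h3, h4, h5⟩ := hconj n
    have := abs_nonneg c
    have := abs_nonneg t
    have := abs_nonneg c'
    exact hK _ c₁ t₁ c₁' _ h1 h2 (by rw [h3]; linarith) (by linarith) (by rw [h5]; linarith)
  obtain ⟨n, _, m, _, hnm, heq⟩ :=
    Set.infinite_univ.exists_ne_map_eq_of_mapsTo hmaps hfin
  -- q commutes with a power of p
  obtain ⟨k, hk, hcomm⟩ : ∃ k : ℕ, 0 < k ∧ p ^ k * q = q * p ^ k := by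
    have main : ∀ n m : ℕ, n < m → (p ^ n)⁻¹ * (q * p ^ n) = (p ^ m)⁻¹ * (q * p ^ m) →
        ∃ k : ℕ, 0 < k ∧ p ^ k * q = q * p ^ k := by
      intro n m hlt heq
      obtain ⟨k, rfl⟩ := Nat.exists_eq_add_of_lt hlt
      refine ⟨k + 1, by omega, ?_⟩
      have h1 : p ^ (n + k + 1) = p ^ (k + 1) * p ^ n := by
        rw [← pow_add]; congr 1; omega
      have h2 : p ^ (n + k + 1) = p ^ n * p ^ (k + 1) := by
        rw [← pow_add]; congr 1
      have h3 : (p ^ n)⁻¹ * (q * p ^ n) = (p ^ n)⁻¹ * ((p ^ (k + 1))⁻¹ * (q * p ^ (k + 1))) * p ^ n := by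
        rw [heq]
        nth_rewrite 2 [h1]
        rw [h1, mul_inv_rev]
        group
      have h4 : q = (p ^ (k + 1))⁻¹ * (q * p ^ (k + 1)) := by
        have h5 : (p ^ n)⁻¹ * q * p ^ n =
          (p ^ n)⁻¹ * ((p ^ (k + 1))⁻¹ * (q * p ^ (k + 1))) * p ^ n := by rw [← h3]; group
        exact mul_left_cancel (mul_right_cancel h5)
      rw [eq_inv_mul_iff_mul_eq] at h4
      exact h4
    rcases lt_or_gt_of_ne hnm with h | h
    · exact main n m h heq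
    · exact main m n h heq.symm
  -- compare
  have ht0 : t = 0 := by
    obtain ⟨s1, hs1, h1⟩ := sgn_mul hM (p ^ k) q
    obtain ⟨s2, hs2, h2⟩ := sgn_mul hM q (p ^ k)
    obtain ⟨x, hx, hxv⟩ := hpv.pow hM k
    obtain ⟨y, hy, hyu⟩ := hpu.pow hM k
    have e1 := h1 u
    rw [hcomm, h2, hyu, Matrix.mulVec_smul, hqu, Matrix.mulVec_add, Matrix.mulVec_smul,
      Matrix.mulVec_smul, hxv, hyu] at e1
    -- take det2 with u
    have e2 := congrArg (fun z => det2 z u) e1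
    simp only [smul_add, smul_smul, det2_add_left, det2_smul_left, det2_self, mul_zero,
      add_zero] at e2
    have e3 : s2 * (y * t) = s1 * (t * x) := by
      apply mul_right_cancel₀ hd
      linarith
    have e4 : |t| * (b ^ k)⁻¹ = |t| * b ^ k := by
      have := congrArg abs e3
      rw [abs_mul, abs_mul, abs_mul, abs_mul, hs1, hs2, hx, hy, inv_pow] at this
      linarith
    by_contra hne
    have htp : 0 < |t| := abs_pos.2 hne
    have e5 : (b ^ k)⁻¹ = b ^ k := mul_left_cancel₀ htp.ne' e4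
    have hbk : 1 < b ^ k := one_lt_pow₀ hb hk.ne'
    have : (b ^ k)⁻¹ < 1 := inv_lt_one_of_one_lt₀ hbk
    linarith
  have hqu' : (M q).1.mulVec u = c' • u := by rw [hqu, ht0, zero_smul, zero_add]
  refine ⟨c', ?_, hqu'⟩
  have h := det2_mulVec (M q) v u
  rw [hqc, hqu', det2_smul_left, det2_smul_right] at h
  have h2 : c * c' = 1 := by
    have : (c * c') * det2 v u = 1 * det2 v u := by linarith
    exact mul_right_cancel₀ hd this
  have h3 : |c| * |c'| = 1 := by rw [← abs_mul, h2, abs_one]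
  rw [← hc]
  exact eq_inv_of_mul_eq_one_right h3

end Dirs

/-- The stabiliser of a direction is infinite cyclic. -/
theorem stab_cyclic {M : π → SL(2, ℝ)} (hM : Rep M) {p : π} (hp : p ≠ 1) {v : Fin 2 → ℝ}
    (hv : IsDir (M p) v) : ∃ r : π, r ≠ 1 ∧ IsDir (M r) v ∧
      ∀ q : π, det2 ((M q).1.mulVec v) v = 0 → q ∈ Subgroup.zpowers r := by
  have htr : 2 < |((M p)⁻¹).1.trace| := by
    have h1 : ((M p)⁻¹).1.trace = (M p).1.trace := by
      rw [Matrix.SpecialLinearGroup.coe_inv, Matrix.adjugate_fin_two, Matrix.trace_fin_two,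
        Matrix.trace_fin_two]
      simp
      ring
    rw [h1]
    exact hM.hyp p hp
  obtain ⟨u, hu⟩ := exists_dir _ htr
  have hd0 := isDir_inv_ne hu hv
  have hd : det2 v u ≠ 0 := by rw [det2_comm]; exact neg_ne_zero.2 hd0
  obtain ⟨hv0, μ, hμ, hgv⟩ := hv
  obtain ⟨hu0, ν, hν, hgu⟩ := hu
  have hpv : AA M v p |μ| := ⟨μ, rfl, hgv⟩
  have hpu : AA M u p |μ|⁻¹ := by
    have hν0 : ν ≠ 0 := by
      rintro rfl
      rw [abs_zero] at hν
      linarith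
    have h1 : (M p).1.mulVec u = ν⁻¹ • u := by
      have h2 := inv_mulVec (g := (M p)⁻¹) hgu
      rw [inv_inv, Matrix.mulVec_smul] at h2
      rw [← h2, smul_smul, inv_mul_cancel₀ hν0, one_smul, h2]
    have h2 := det2_mulVec (M p) v u
    rw [hgv, h1, det2_smul_left, det2_smul_right] at h2
    have h3 : μ * ν⁻¹ = 1 := by
      have : (μ * ν⁻¹) * det2 v u = 1 * det2 v u := by linarith
      exact mul_right_cancel₀ hd this
    refine ⟨ν⁻¹, ?_, h1⟩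
    have h4 : |μ| * |ν⁻¹| = 1 := by rw [← abs_mul, h3, abs_one]
    exact eq_inv_of_mul_eq_one_right h4
  -- the function
  set f : π → ℝ := fun q => |det2 ((M q).1.mulVec v) u| / |det2 v u| with hf
  have hfA : ∀ q a, AA M v q a → f q = a := by
    rintro q a ⟨c, hc, h⟩
    simp only [hf]
    rw [h, det2_smul_left, abs_mul, hc]
    have : |det2 v u| ≠ 0 := abs_ne_zero.2 hd
    field_simp
  set S : Set π := {q | ∃ a, AA M v q a ∧ 1 < a ∧ a ≤ |μ|} with hS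
  have hSfin : S.Finite := by
    obtain ⟨K, hK⟩ := nsq_bound v u hd
    apply (hM.disc (K * |μ| ^ 2)).subset
    rintro q ⟨a, ha, ha1, ha2⟩
    obtain ⟨c', hc', h2⟩ := no_share hM hu0 hv0 hd hμ hpv hpu ha
    obtain ⟨c, hc, h1⟩ := ha
    refine hK (M q) c 0 c' |μ| h1 (by rw [h2, zero_smul, zero_add]) (by rw [hc]; exact ha2)
      (by rw [abs_zero]; positivity) ?_
    rw [hc']
    have : a⁻¹ ≤ 1 := inv_le_one_of_one_le₀ ha1.le
    linarith
  have hSne : S.Nonempty := ⟨p, |μ|, hpv, hμ, le_rfl⟩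
  obtain ⟨r, ⟨b, hrb, hb1, hb2⟩, hmin⟩ := Set.exists_min_image S f hSfin hSne
  refine ⟨r, ?_, ?_, ?_⟩
  · rintro rfl
    have := hrb.unique hv0 (AA.one hM v)
    linarith
  · obtain ⟨c, hc, h⟩ := hrb
    exact ⟨hv0, c, by rw [hc]; exact hb1, h⟩
  · intro q hq
    have hq' : det2 v ((M q).1.mulVec v) = 0 := by rw [det2_comm, hq, neg_zero]
    obtain ⟨c, hc⟩ := exists_smul_of_det2 hv0 hq'
    have hqA : AA M v q |c| := ⟨c, rfl, hc⟩
    have hcpos := hqA.pos hv0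
    obtain ⟨n, hn1, hn2⟩ := exists_mem_Ico_zpow hcpos hb1
    have hb0 : 0 < b := by linarith
    have hbn : 0 < b ^ n := zpow_pos hb0 n
    have hq2 : AA M v (q * (r ^ n)⁻¹) (|c| * (b ^ n)⁻¹) := hqA.mul hM ((hrb.zpow hM hv0 n).inv hM hv0)
    have h1 : 1 ≤ |c| * (b ^ n)⁻¹ := by
      rw [← div_eq_mul_inv, le_div_iff₀ hbn, one_mul]; exact hn1
    have h2 : |c| * (b ^ n)⁻¹ < b := by
      rw [← div_eq_mul_inv, div_lt_iff₀ hbn]
      rw [zpow_add_one₀ hb0.ne'] at hn2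
      linarith
    have h3 : |c| * (b ^ n)⁻¹ = 1 := by
      rcases eq_or_lt_of_le h1 with h | h
      · exact h.symm
      · exfalso
        have hmem : q * (r ^ n)⁻¹ ∈ S := ⟨_, hq2, h, by linarith⟩
        have := hmin _ hmem
        rw [hfA _ _ hrb, hfA _ _ hq2] at this
        linarith
    rw [h3] at hq2
    have h4 : q * (r ^ n)⁻¹ = 1 := by
      by_contra hne
      have h5 := hM.hyp _ hne
      have hq3 := no_share hM hu0 hv0 hd hμ hpv hpu hq2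
      obtain ⟨x, hx, hx'⟩ := hq2
      obtain ⟨y, hy, hy'⟩ := hq3
      rw [trace_of hd hx' hy'] at h5
      rw [inv_one] at hy
      have := abs_add_le x y
      linarith
    rw [mul_inv_eq_one] at h4
    exact ⟨n, h4.symm⟩

end Pool.Agent.MP_e058c8_al
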