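import Mathlib

/-!
Definitions for the project every normal subgroup of the (extended) mapping class group of a
closed surface of genus at least two is some `K_Γ`.

* `CycOrd`, `Cr` : cyclic orders and crossing of chords.
* `CS` : the circle system of a surface group (`P` is the surface group, `G` its automorphism
  group, `E` the set of end points of axes).
* `Proj` : the projection system on the set of lines of the `G`-orbit of a filling line.
* `RotSys` : abstract rotation system (input of the windmill lemma).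
-/

namespace Pool.Agent.MP_e058c8_al

/-! ### Cyclic orders -/

/-- A strict cyclic order: `sb x y z` means that going counterclockwise from `x` one meets `y`
strictly before `z` (and the three points are distinct). -/
structure CycOrd {E : Type*} (sb : E → E → E → Prop) : Prop where
  rot : ∀ x y z, sb x y z → sb y z x
  asymm : ∀ x y z, sb x y z → ¬ sb x z y
  trans : ∀ x y z w, sb x y z → sb x z w → sb x y w
  total : ∀ x y z, x ≠ y → y ≠ z → x ≠ z → sb x y z ∨ sb x z y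

/-- The chords `{x,y}` and `{z,w}` cross: `z` and `w` lie in different open arcs of `{x,y}`. -/
def Cr {E : Type*} (sb : E → E → E → Prop) (x y z w : E) : Prop :=
  (sb x z y ∧ sb y w x) ∨ (sb x w y ∧ sb y z x)

/-- The axes of `p` and `q` cross. -/
def LCr {G E : Type*} [Group G] (sb : E → E → E → Prop) (at' : G → E) (p q : G) : Prop :=
  Cr sb (at' p⁻¹) (at' p) (at' q⁻¹) (at' q)

/-- `x` and `y` lie (strictly) on the same side of the axis of `p`. -/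
def SS {G E : Type*} [Group G] (sb : E → E → E → Prop) (at' : G → E) (p : G) (x y : E) : Prop :=
  (sb (at' p⁻¹) x (at' p) ∧ sb (at' p⁻¹) y (at' p)) ∨
    (sb (at' p) x (at' p⁻¹) ∧ sb (at' p) y (at' p⁻¹))

/-- The circle system of a surface group `P`, normal in `G` (`G = Aut P`), without the
`G`-invariance of crossing. `E` is the set of end points of the axes of the nontrivial elements
of `P`, `at' p` is the attracting point of `p` (only meaningful for `p ∈ P`, `p ≠ 1`), the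
repelling point is `at' p⁻¹`. -/
structure CS0 {G E : Type*} [Group G] [MulAction G E] (P : Subgroup G) (sb : E → E → E → Prop)
    (at' : G → E) : Prop where
  cyc : CycOrd sb
  normal : P.Normal
  /-- `P` preserves the cyclic order -/
  sbP : ∀ p ∈ P, ∀ x y z, sb x y z → sb (p • x) (p • y) (p • z)
  smul_at : ∀ g : G, ∀ p ∈ P, p ≠ 1 → g • at' p = at' (g * p * g⁻¹)
  at_ne : ∀ p ∈ P, p ≠ 1 → at' p⁻¹ ≠ at' p
  at_pow : ∀ p ∈ P, p ≠ 1 → ∀ n : ℕ, 0 < n → at' (p ^ n) = at' p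
  tf : ∀ p ∈ P, ∀ n : ℕ, 0 < n → p ^ n = 1 → p = 1
  /-- `p` moves the points of the arc from its repelling to its attracting point forward -/
  move : ∀ p ∈ P, p ≠ 1 → ∀ x, sb (at' p⁻¹) x (at' p) → sb (at' p⁻¹) x (p • x)
  /-- north-south dynamics -/
  arch : ∀ p ∈ P, p ≠ 1 → ∀ x y, sb (at' p⁻¹) x (at' p) → sb (at' p⁻¹) y (at' p) →
    ∃ n : ℕ, sb (at' p⁻¹) y (p ^ n • x)
  exists_at : ∀ x : E, ∃ p ∈ P, p ≠ 1 ∧ at' p = x
  /-- stabilisers of points are infinite cyclic -/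
  root : ∀ p ∈ P, p ≠ 1 → ∃ r ∈ P, r ≠ 1 ∧ at' r = at' p ∧
    ∀ q ∈ P, q • at' p = at' p → q ∈ Subgroup.zpowers r
  /-- finiteness of the self-crossings of an axis modulo its stabiliser -/
  fin : ∀ p ∈ P, p ≠ 1 → ∃ F : Set G, F.Finite ∧ ∀ g ∈ P,
    Cr sb (at' p⁻¹) (at' p) (g • at' p⁻¹) (g • at' p) → ∃ i j : ℤ, ∃ f ∈ F, g = p ^ i * f * p ^ j
  /-- the left side of an axis contains a point of `E` (for the right side use `p⁻¹`) -/
  side : ∀ p ∈ P, p ≠ 1 → ∃ x, sb (at' p⁻¹) x (at' p)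
  fg : ∃ S : Finset G, Subgroup.closure (S : Set G) = P
  cent : ∀ g : G, (∀ p ∈ P, g * p = p * g) → g = 1
  nontriv : ∃ p ∈ P, p ≠ 1

/-- The circle system of a surface group. -/
structure CS {G E : Type*} [Group G] [MulAction G E] (P : Subgroup G) (sb : E → E → E → Prop)
    (at' : G → E) : Prop extends CS0 P sb at' where
  /-- `G` preserves crossing (i.e. preserves or reverses the cyclic order) -/
  crG : ∀ (g : G) x y z w, Cr sb x y z w → Cr sb (g • x) (g • y) (g • z) (g • w)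

/-- `a` generates the stabiliser of its axis, and the crossing graph of the `P`-translates of its
axis is connected. -/
structure Filling {G E : Type*} [Group G] [MulAction G E] (P : Subgroup G)
    (sb : E → E → E → Prop) (at' : G → E) (a : G) : Prop where
  mem : a ∈ P
  ne : a ≠ 1
  prim : ∀ q ∈ P, q • at' a = at' a → q ∈ Subgroup.zpowers a
  conn : ∀ p ∈ P, Relation.ReflTransGen (fun g g' : G => g ∈ P ∧ g' ∈ P ∧
    LCr sb at' (g * a * g⁻¹) (g' * a * g'⁻¹)) 1 p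

/-! ### Projection systems -/

/-- Projection system: `d Y X Z` is the distance of the projections of `X` and `Z` to `Y`,
`cr` is crossing of lines, `cd` is the distance in the crossing graph, `A` a base line,
`a ∈ P` a generator of its stabiliser, `h ∈ P` moves `A` to a line crossing `A`. -/
structure Proj {G 𝒴 : Type*} [Group G] [MulAction G 𝒴] (P : Subgroup G) (κ : ℕ)
    (d : 𝒴 → 𝒴 → 𝒴 → ℕ) (cr : 𝒴 → 𝒴 → Prop) (cd : 𝒴 → 𝒴 → ℕ) (A : 𝒴) (a h : G) : Prop where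
  d_self : ∀ Y X, d Y X X = 0
  d_symm : ∀ Y X Z, d Y X Z = d Y Z X
  d_tri : ∀ Y X U Z, X ≠ Y → U ≠ Y → Z ≠ Y → d Y X Z ≤ d Y X U + d Y U Z + κ
  d_smul : ∀ (g : G) Y X Z, d (g • Y) (g • X) (g • Z) = d Y X Z
  beh : ∀ X Y Z, X ≠ Y → X ≠ Z → Y ≠ Z → d Y X Z ≤ κ ∨ d X Y Z ≤ κ
  cr_symm : ∀ X Y, cr X Y → cr Y X
  cr_ne : ∀ X Y, cr X Y → X ≠ Y
  cr_smul : ∀ (g : G) X Y, cr X Y → cr (g • X) (g • Y)
  d_cr : ∀ Y X X', cr X X' → X ≠ Y → X' ≠ Y → d Y X X' = 0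
  cd_self : ∀ X, cd X X = 0
  cd_pos : ∀ X Y, X ≠ Y → 0 < cd X Y
  cd_symm : ∀ X Y, cd X Y = cd Y X
  cd_tri : ∀ X Y Z, cd X Z ≤ cd X Y + cd Y Z
  cd_smul : ∀ (g : G) X Y, cd (g • X) (g • Y) = cd X Y
  cd_cr : ∀ X Y, cr X Y → cd X Y = 1
  /-- geodesics of the crossing graph with a large projection to `Y` pass through `Y` -/
  bgi : ∀ X Y Z, X ≠ Y → Z ≠ Y → κ < d Y X Z → cd X Z = cd X Y + cd Y Z
  trans : ∀ Y, ∃ g : G, Y = g • A
  normal : P.Normal
  a_mem : a ∈ P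
  a_fix : a • A = A
  h_mem : h ∈ P
  h_cr : cr A (h • A)
  grow : ∀ X, X ≠ A → ∀ M : ℕ, ∃ e : ℕ, M ≤ d A X (a ^ e • X)
  step : ∀ X, X ≠ A → d A X (a • X) ≤ κ
  tch : ∀ g : G, ∃ p ∈ P, cr A (p • g • A)
  rigid : ∀ (g : G) (X : ℕ → 𝒴), (∀ i ≤ 3, g • X i = X i) → (∀ i < 3, cr (X i) (X (i + 1))) →
    κ < d (X 1) (X 0) (X 2) → κ < d (X 2) (X 1) (X 3) → g = 1

/-! ### Tracks -/

section Tracks

variable {G 𝒴 : Type*} [Group G] [MulAction G 𝒴]

/-- Bi-infinite path of the crossing graph, turning by at least `20 κ + 20` at each vertex. -/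
structure Track (κ : ℕ) (d : 𝒴 → 𝒴 → 𝒴 → ℕ) (cr : 𝒴 → 𝒴 → Prop) (z : ℤ → 𝒴) : Prop where
  cr : ∀ j, cr (z j) (z (j + 1))
  turn : ∀ j, 20 * κ + 20 ≤ d (z j) (z (j - 1)) (z (j + 1))

/-- `x` is behind `z j`. -/
def Back (κ : ℕ) (d : 𝒴 → 𝒴 → 𝒴 → ℕ) (z : ℤ → 𝒴) (j : ℤ) (x : 𝒴) : Prop :=
  x ≠ z j ∧ d (z j) x (z (j - 1)) ≤ κ

/-- `x` is in front of `z j`. -/
def Fwd (κ : ℕ) (d : 𝒴 → 𝒴 → 𝒴 → ℕ) (z : ℤ → 𝒴) (j : ℤ) (x : 𝒴) : Prop :=
  x ≠ z j ∧ d (z j) x (z (j + 1)) ≤ κ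

/-- The coordinate of `x` on the track `z`. -/
noncomputable def coord (κ : ℕ) (d : 𝒴 → 𝒴 → 𝒴 → ℕ) (z : ℤ → 𝒴) (x : 𝒴) : ℤ :=
  sSup {j : ℤ | ¬ Back κ d z j x}

/-- A family of relators: tracks `z i` with period `n`, rotations `r i`, all turning numbers are
different (up to periodicity), and the turning numbers belong to a sequence with large gaps. -/
structure Relators (κ : ℕ) (d : 𝒴 → 𝒴 → 𝒴 → ℕ) (cr : 𝒴 → 𝒴 → Prop) (n : ℕ)
    (z : ℕ → ℤ → 𝒴) (r : ℕ → G) : Prop where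
  track : ∀ i, Track κ d cr (z i)
  per : ∀ i j, z i (j + n) = r i • z i j
  turn_inj : ∀ i j i' j', d (z i j) (z i (j - 1)) (z i (j + 1)) =
    d (z i' j') (z i' (j' - 1)) (z i' (j' + 1)) → i = i' ∧ (n : ℤ) ∣ j - j'
  gap : ∃ D : ℕ → ℕ, (∀ t, D t + (20 * κ + 20) ≤ D (t + 1)) ∧
    ∀ i j, ∃ t, d (z i j) (z i (j - 1)) (z i (j + 1)) = D t

end Tracks

/-! ### Rotation systems (variant of `Pool.Agent.Burnside.RotSys` of helper47) -/

/-- Abstract system of axes: `R` is a set of rotations, `O h` is the axis of `h`,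
`c h x y` is the (signed) difference of the coordinates of `x`, `y` on the axis of `h`;
`h` itself translates the coordinate by `n`. -/
structure RotSys {G : Type*} [Group G] (n : ℕ) (R : Set G) (c : G → G → G → ℤ) (O : G → Set G)
    (dist : G → G → ℤ) (θ K : ℤ) : Prop where
  conj : ∀ h ∈ R, ∀ g, g * h * g⁻¹ ∈ R
  nonempty : ∀ h ∈ R, (O h).Nonempty
  add : ∀ h ∈ R, ∀ x y z, c h x z = c h x y + c h y z
  equiv : ∀ h ∈ R, ∀ g x y, c (g * h * g⁻¹) (g * x) (g * y) = c h x y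
  shift : ∀ h ∈ R, ∀ x y, c h x (h * y) = c h x y + n
  Oequiv : ∀ h ∈ R, ∀ g x, x ∈ O h → g * x ∈ O (g * h * g⁻¹)
  bdd : ∀ h ∈ R, ∀ h' ∈ R, h ≠ h' → ∀ x ∈ O h', ∀ y ∈ O h', |c h x y| ≤ θ
  beh : ∀ h ∈ R, ∀ h' ∈ R, h ≠ h' → ∀ x, ∀ y ∈ O h, ∀ z ∈ O h', |c h x z| ≤ θ ∨ |c h' x y| ≤ θ
  dist_nonneg : ∀ h ∈ R, ∀ x, 0 ≤ dist x h
  dist_equiv : ∀ h ∈ R, ∀ g x, dist (g * x) (g * h * g⁻¹) = dist x h
  sep : ∀ h ∈ R, ∀ h' ∈ R, h ≠ h' → ∀ x, ∀ y ∈ O h, K < |c h' x y| → dist x h' < dist x h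

/-! ### Projective representations of surface groups -/

section Reps

open scoped MatrixGroups

variable {π : Type*} [Group π]

/-- Squared Frobenius norm. -/
noncomputable def nsq (g : SL(2, ℝ)) : ℝ := g 0 0 ^ 2 + g 0 1 ^ 2 + g 1 0 ^ 2 + g 1 1 ^ 2

/-- A discrete cocompact projective representation all of whose nontrivial elements are
hyperbolic. -/
structure Rep (M : π → SL(2, ℝ)) : Prop where
  mul : ∀ p q, M (p * q) = M p * M q ∨ M (p * q) = -(M p * M q)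
  disc : ∀ C : ℝ, {p | nsq (M p) ≤ C}.Finite
  cocpt : ∃ C : ℝ, ∀ g : SL(2, ℝ), ∃ p, nsq ((M p)⁻¹ * g) ≤ C
  hyp : ∀ p, p ≠ 1 → 2 < |(M p).1.trace|

/-- Determinant of two vectors. -/
def det2 (u v : Fin 2 → ℝ) : ℝ := u 0 * v 1 - u 1 * v 0

/-- `v` spans the expanding (attracting) direction of `g`. -/
def IsDir (g : SL(2, ℝ)) (v : Fin 2 → ℝ) : Prop :=
  v ≠ 0 ∧ ∃ μ : ℝ, 1 < |μ| ∧ g.1.mulVec v = μ • v

end Reps

end Pool.Agent.MP_e058c8_al
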