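import Mathlib
import Pool.Agent.MP_e058c8_al.Defs

/-! Task J2: quantitative facts on discrete cocompact projective representations. -/

namespace Pool.Agent.MP_e058c8_al

set_option linter.unusedSimpArgs false
set_option linter.unusedVariables false

open scoped MatrixGroups

namespace Quant

theorem mv0 (g : SL(2, ℝ)) (v : Fin 2 → ℝ) : g.1.mulVec v 0 = g 0 0 * v 0 + g 0 1 * v 1 := by
  simp [Matrix.mulVec, dotProduct, Fin.sum_univ_two]

theorem mv1 (g : SL(2, ℝ)) (v : Fin 2 → ℝ) : g.1.mulVec v 1 = g 1 0 * v 0 + g 1 1 * v 1 := by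
  simp [Matrix.mulVec, dotProduct, Fin.sum_univ_two]

theorem dt (g : SL(2, ℝ)) : g 0 0 * g 1 1 - g 0 1 * g 1 0 = 1 := by
  have h := g.2
  rw [Matrix.det_fin_two] at h
  exact h

theorem i00 (g : SL(2, ℝ)) : g⁻¹ 0 0 = g 1 1 := by
  simp [Matrix.SpecialLinearGroup.coe_inv, Matrix.adjugate_fin_two]

theorem i01 (g : SL(2, ℝ)) : g⁻¹ 0 1 = -g 0 1 := by
  simp [Matrix.SpecialLinearGroup.coe_inv, Matrix.adjugate_fin_two]

theorem i10 (g : SL(2, ℝ)) : g⁻¹ 1 0 = -g 1 0 := by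
  simp [Matrix.SpecialLinearGroup.coe_inv, Matrix.adjugate_fin_two]

theorem i11 (g : SL(2, ℝ)) : g⁻¹ 1 1 = g 0 0 := by
  simp [Matrix.SpecialLinearGroup.coe_inv, Matrix.adjugate_fin_two]

theorem ml (g h : SL(2, ℝ)) (i j : Fin 2) : (g * h) i j = g i 0 * h 0 j + g i 1 * h 1 j := by
  rw [Matrix.SpecialLinearGroup.coe_mul, Matrix.mul_apply, Fin.sum_univ_two]

theorem ng (g : SL(2, ℝ)) (i j : Fin 2) : (-g) i j = -(g i j) := by
  rw [Matrix.SpecialLinearGroup.coe_neg, Matrix.neg_apply]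

theorem nsq_inv (g : SL(2, ℝ)) : nsq g⁻¹ = nsq g := by
  unfold nsq
  rw [i00, i01, i10, i11]
  ring

theorem nsq_neg (g : SL(2, ℝ)) : nsq (-g) = nsq g := by
  unfold nsq
  simp only [ng]
  ring

theorem nsq_mul (g h : SL(2, ℝ)) : nsq (g * h) ≤ nsq g * nsq h := by
  unfold nsq
  simp only [ml]
  nlinarith [sq_nonneg (g 0 0 * h 1 0 - g 0 1 * h 0 0), sq_nonneg (g 0 0 * h 1 1 - g 0 1 * h 0 1),
    sq_nonneg (g 1 0 * h 1 0 - g 1 1 * h 0 0), sq_nonneg (g 1 0 * h 1 1 - g 1 1 * h 0 1)]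

theorem nsq_nonneg (g : SL(2, ℝ)) : 0 ≤ nsq g := by
  unfold nsq
  positivity

theorem mul_mv (g h : SL(2, ℝ)) (v : Fin 2 → ℝ) :
    (g * h).1.mulVec v = g.1.mulVec (h.1.mulVec v) := by
  rw [Matrix.SpecialLinearGroup.coe_mul, Matrix.mulVec_mulVec]

theorem neg_mv (g : SL(2, ℝ)) (v : Fin 2 → ℝ) : (-g).1.mulVec v = -(g.1.mulVec v) := by
  rw [Matrix.SpecialLinearGroup.coe_neg, Matrix.neg_mulVec]

theorem one_mv (v : Fin 2 → ℝ) : (1 : SL(2, ℝ)).1.mulVec v = v := by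
  rw [Matrix.SpecialLinearGroup.coe_one, Matrix.one_mulVec]

theorem inv_mv (g : SL(2, ℝ)) (v : Fin 2 → ℝ) : (g⁻¹).1.mulVec (g.1.mulVec v) = v := by
  rw [← mul_mv, inv_mul_cancel, one_mv]

theorem mv_inv (g : SL(2, ℝ)) (v : Fin 2 → ℝ) : g.1.mulVec ((g⁻¹).1.mulVec v) = v := by
  rw [← mul_mv, mul_inv_cancel, one_mv]

theorem det2_mv (g : SL(2, ℝ)) (u v : Fin 2 → ℝ) :
    det2 (g.1.mulVec u) (g.1.mulVec v) = det2 u v := by
  unfold det2
  rw [mv0, mv1, mv0, mv1]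
  have h := dt g
  linear_combination (u 0 * v 1 - u 1 * v 0) * h

theorem det2_smul_left (c : ℝ) (u v : Fin 2 → ℝ) : det2 (c • u) v = c * det2 u v := by
  unfold det2; simp only [Pi.smul_apply, smul_eq_mul]; ring

theorem det2_smul_right (c : ℝ) (u v : Fin 2 → ℝ) : det2 u (c • v) = c * det2 u v := by
  unfold det2; simp only [Pi.smul_apply, smul_eq_mul]; ring

/-- `M (p q) = ε M p M q` on vectors. -/
theorem rep_mul_mv {π : Type*} [Group π] {M : π → SL(2, ℝ)} (hM : Rep M) (p q : π) :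
    ∃ ε : ℝ, (ε = 1 ∨ ε = -1) ∧ ∀ v, (M (p * q)).1.mulVec v =
      ε • (M p).1.mulVec ((M q).1.mulVec v) := by
  rcases hM.mul p q with h | h
  · refine ⟨1, Or.inl rfl, fun v => ?_⟩
    rw [h, mul_mv, one_smul]
  · refine ⟨-1, Or.inr rfl, fun v => ?_⟩
    rw [h, neg_mv, mul_mv, neg_smul, one_smul]

theorem rep_one' {π : Type*} [Group π] {M : π → SL(2, ℝ)} (hM : Rep M) : M 1 = 1 ∨ M 1 = -1 := by
  rcases hM.mul 1 1 with h | h
  · left
    rw [mul_one] at h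
    exact (left_eq_mul.1 h)
  · right
    rw [mul_one] at h
    have h2 : M 1 * (-(M 1)) = M 1 * 1 := by
      rw [mul_neg, ← h, mul_one]
    have h3 := mul_left_cancel h2
    rw [← h3, neg_neg]

theorem nsq_one : nsq (1 : SL(2, ℝ)) = 2 := by
  unfold nsq
  simp
  norm_num

theorem nsq_rep_mul {π : Type*} [Group π] {M : π → SL(2, ℝ)} (hM : Rep M) (p q : π) :
    nsq (M (p * q)) = nsq (M p * M q) := by
  rcases hM.mul p q with h | h
  · rw [h]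
  · rw [h, nsq_neg]

theorem nsq_rep_one {π : Type*} [Group π] {M : π → SL(2, ℝ)} (hM : Rep M) :
    nsq (M 1) = 2 := by
  rcases rep_one' hM with h | h
  · rw [h, nsq_one]
  · rw [h, nsq_neg, nsq_one]

theorem rep_inv' {π : Type*} [Group π] {M : π → SL(2, ℝ)} (hM : Rep M) (p : π) :
    M p⁻¹ = (M p)⁻¹ ∨ M p⁻¹ = -(M p)⁻¹ := by
  have h1 := hM.mul p⁻¹ p
  rw [inv_mul_cancel] at h1
  rcases rep_one' hM with h | h <;> rcases h1 with h2 | h2 <;> rw [h] at h2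
  · left; exact eq_inv_of_mul_eq_one_left h2.symm
  · right
    have : -(M p⁻¹) * M p = 1 := by rw [neg_mul, ← h2]
    rw [← eq_inv_of_mul_eq_one_left this, neg_neg]
  · right
    have : -(M p⁻¹) * M p = 1 := by rw [neg_mul, ← h2, neg_neg]
    rw [← eq_inv_of_mul_eq_one_left this, neg_neg]
  · left
    have : (M p⁻¹) * M p = 1 := by
      have := congrArg Neg.neg h2
      rw [neg_neg, neg_neg] at this
      exact this.symm
    exact eq_inv_of_mul_eq_one_left this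

theorem nsq_rep_div {π : Type*} [Group π] {M : π → SL(2, ℝ)} (hM : Rep M) (p q : π) :
    nsq (M (p⁻¹ * q)) = nsq ((M p)⁻¹ * M q) := by
  rw [nsq_rep_mul hM]
  rcases rep_inv' hM p with h | h
  · rw [h]
  · rw [h, neg_mul, nsq_neg]

end Quant

variable {π : Type*} [Group π]

theorem nontriv_of_rep {M : π → SL(2, ℝ)} (hM : Rep M) : ∃ p : π, p ≠ 1 := by
  by_contra hcon
  push Not at hcon
  obtain ⟨C, hC⟩ := hM.cocpt
  have hC0 : 0 ≤ C := by
    obtain ⟨p, hp⟩ := hC 1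
    exact (Quant.nsq_nonneg _).trans hp
  have hdet : (!![C + 1, 0; 0, (C + 1)⁻¹] : Matrix (Fin 2) (Fin 2) ℝ).det = 1 := by
    rw [Matrix.det_fin_two_of]
    have : C + 1 ≠ 0 := by positivity
    field_simp
    ring
  set g : SL(2, ℝ) := ⟨!![C + 1, 0; 0, (C + 1)⁻¹], hdet⟩ with hg
  obtain ⟨p, hp⟩ := hC g
  rw [hcon p] at hp
  have h1 : nsq g ≤ C := by
    rcases Quant.rep_one' hM with h | h
    · rw [h, inv_one, one_mul] at hp; exact hp
    · rw [h] at hp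
      have : (-1 : SL(2, ℝ))⁻¹ * g = -g := by
        rw [inv_neg, inv_one, neg_mul, one_mul]
      rw [this, Quant.nsq_neg] at hp; exact hp
  have h2 : (C + 1) ^ 2 ≤ nsq g := by
    unfold nsq
    have e : g 0 0 = C + 1 := by simp [hg]
    rw [e]
    nlinarith [sq_nonneg (g 0 1), sq_nonneg (g 1 0), sq_nonneg (g 1 1)]
  nlinarith

namespace Quant

/-- upper transvection -/
def up (s : ℝ) : SL(2, ℝ) := ⟨!![1, s; 0, 1], by rw [Matrix.det_fin_two_of]; ring⟩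

/-- lower transvection -/
def lo (s : ℝ) : SL(2, ℝ) := ⟨!![1, 0; s, 1], by rw [Matrix.det_fin_two_of]; ring⟩

theorem ext2 {g h : SL(2, ℝ)} (h00 : g 0 0 = h 0 0) (h01 : g 0 1 = h 0 1) (h10 : g 1 0 = h 1 0)
    (h11 : g 1 1 = h 1 1) : g = h := by
  apply Matrix.SpecialLinearGroup.ext
  intro i j
  fin_cases i <;> fin_cases j
  · exact h00
  · exact h01
  · exact h10
  · exact h11

theorem up_entries (s : ℝ) : up s 0 0 = 1 ∧ up s 0 1 = s ∧ up s 1 0 = 0 ∧ up s 1 1 = 1 := by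
  refine ⟨?_, ?_, ?_, ?_⟩ <;> simp [up]

theorem lo_entries (s : ℝ) : lo s 0 0 = 1 ∧ lo s 0 1 = 0 ∧ lo s 1 0 = s ∧ lo s 1 1 = 1 := by
  refine ⟨?_, ?_, ?_, ?_⟩ <;> simp [lo]

theorem up_add (s t : ℝ) : up (s + t) = up s * up t := by
  obtain ⟨a1, a2, a3, a4⟩ := up_entries s
  obtain ⟨b1, b2, b3, b4⟩ := up_entries t
  obtain ⟨c1, c2, c3, c4⟩ := up_entries (s + t)
  apply ext2 <;> rw [ml] <;> simp only [a1, a2, a3, a4, b1, b2, b3, b4, c1, c2, c3, c4] <;> ring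

theorem lo_add (s t : ℝ) : lo (s + t) = lo s * lo t := by
  obtain ⟨a1, a2, a3, a4⟩ := lo_entries s
  obtain ⟨b1, b2, b3, b4⟩ := lo_entries t
  obtain ⟨c1, c2, c3, c4⟩ := lo_entries (s + t)
  apply ext2 <;> rw [ml] <;> simp only [a1, a2, a3, a4, b1, b2, b3, b4, c1, c2, c3, c4] <;> ring

theorem nsq_up (s : ℝ) : nsq (up s) = 2 + s ^ 2 := by
  obtain ⟨a1, a2, a3, a4⟩ := up_entries s
  unfold nsq
  rw [a1, a2, a3, a4]; ring

theorem nsq_lo (s : ℝ) : nsq (lo s) = 2 + s ^ 2 := by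
  obtain ⟨a1, a2, a3, a4⟩ := lo_entries s
  unfold nsq
  rw [a1, a2, a3, a4]; ring

theorem up_zero : up 0 = 1 := by
  obtain ⟨a1, a2, a3, a4⟩ := up_entries 0
  apply ext2 <;> simp [a1, a2, a3, a4]

theorem lo_zero : lo 0 = 1 := by
  obtain ⟨a1, a2, a3, a4⟩ := lo_entries 0
  apply ext2 <;> simp [a1, a2, a3, a4]

/-- iterate a small one-parameter step -/
theorem iter_all {T : SL(2, ℝ) → Prop} {f : ℝ → SL(2, ℝ)} (hadd : ∀ s t, f (s + t) = f s * f t)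
    (h0 : f 0 = 1) (hT : ∀ g, T g → ∀ s, |s| ≤ 1 → T (g * f s)) (g : SL(2, ℝ)) (hg : T g) (s : ℝ) :
    T (g * f s) := by
  obtain ⟨n, hn⟩ := exists_nat_gt |s|
  have hn0 : (0 : ℝ) < n := lt_of_le_of_lt (abs_nonneg s) hn
  have key : ∀ k : ℕ, T (g * f (k * (s / n))) := by
    intro k
    induction k with
    | zero => simpa [h0] using hg
    | succ k ih =>
      have e : ((k + 1 : ℕ) : ℝ) * (s / n) = k * (s / n) + s / n := by push_cast; ring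
      rw [e, hadd, ← mul_assoc]
      apply hT _ ih
      rw [abs_div, abs_of_pos hn0, div_le_one hn0]
      exact hn.le
  have e2 : ((n : ℕ) : ℝ) * (s / n) = s := by field_simp
  have := key n
  rwa [e2] at this

theorem gen_all {T : SL(2, ℝ) → Prop} (h1 : T 1) (hu : ∀ g, T g → ∀ s, |s| ≤ 1 → T (g * up s))
    (hl : ∀ g, T g → ∀ s, |s| ≤ 1 → T (g * lo s)) (g : SL(2, ℝ)) : T g := by
  have U : ∀ g, T g → ∀ s, T (g * up s) := fun g hg s => iter_all up_add up_zero hu g hg s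
  have L : ∀ g, T g → ∀ s, T (g * lo s) := fun g hg s => iter_all lo_add lo_zero hl g hg s
  have main : ∀ g : SL(2, ℝ), g 1 0 ≠ 0 → T g := by
    intro g hc
    have e : g = 1 * up ((g 0 0 - 1) / g 1 0) * lo (g 1 0) * up ((g 1 1 - 1) / g 1 0) := by
      obtain ⟨a1, a2, a3, a4⟩ := up_entries ((g 0 0 - 1) / g 1 0)
      obtain ⟨b1, b2, b3, b4⟩ := lo_entries (g 1 0)
      obtain ⟨c1, c2, c3, c4⟩ := up_entries ((g 1 1 - 1) / g 1 0)
      have hd := dt g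
      have hb : g 0 1 = (g 0 0 * g 1 1 - 1) / g 1 0 := by
        field_simp
        linarith
      rw [one_mul]
      apply ext2
      · rw [ml, ml, ml]
        simp only [a1, a2, a3, a4, b1, b2, b3, b4, c1, c2, c3, c4]
        field_simp
        ring
      · rw [ml, ml, ml]
        simp only [a1, a2, a3, a4, b1, b2, b3, b4, c1, c2, c3, c4]
        rw [hb]
        field_simp
        ring
      · rw [ml, ml, ml]
        simp only [a1, a2, a3, a4, b1, b2, b3, b4, c1, c2, c3, c4]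
        ring
      · rw [ml, ml, ml]
        simp only [a1, a2, a3, a4, b1, b2, b3, b4, c1, c2, c3, c4]
        field_simp
        ring
    rw [e]
    exact U _ (L _ (U _ h1 _) _) _
  by_cases hc : g 1 0 = 0
  · have hd := dt g
    rw [hc, mul_zero, sub_zero] at hd
    have h11 : g 1 1 ≠ 0 := by
      intro h
      rw [h, mul_zero] at hd
      exact zero_ne_one hd
    have e : g = (g * lo 1) * lo (-1) := by
      rw [mul_assoc, ← lo_add, add_neg_cancel, lo_zero, mul_one]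
    rw [e]
    apply L
    apply main
    obtain ⟨a1, a2, a3, a4⟩ := lo_entries 1
    rw [ml, a1, a3, hc]
    simpa using h11
  · exact main g hc

end Quant

theorem fg_of_rep {M : π → SL(2, ℝ)} (hM : Rep M) :
    ∃ S : Finset π, Subgroup.closure (S : Set π) = ⊤ := by
  obtain ⟨C0, hC0⟩ := hM.cocpt
  set C : ℝ := max C0 2 with hCdef
  have hC : ∀ g : SL(2, ℝ), ∃ p, nsq ((M p)⁻¹ * g) ≤ C := by
    intro g
    obtain ⟨p, hp⟩ := hC0 g
    exact ⟨p, hp.trans (le_max_left _ _)⟩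
  have hC2 : 2 ≤ C := le_max_right _ _
  have hfin := hM.disc (3 * C ^ 2)
  refine ⟨hfin.toFinset, ?_⟩
  rw [Set.Finite.coe_toFinset]
  set H := Subgroup.closure {p | nsq (M p) ≤ 3 * C ^ 2} with hH
  have step : ∀ (g t : SL(2, ℝ)), nsq t ≤ 3 → ∀ q ∈ H, nsq ((M q)⁻¹ * g) ≤ C → ∀ q',
      nsq ((M q')⁻¹ * (g * t)) ≤ C → q' ∈ H := by
    intro g t ht q hq hqg q' hq'
    have e : (M q)⁻¹ * M q' = ((M q)⁻¹ * g) * t * ((M q')⁻¹ * (g * t))⁻¹ := by group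
    have hb : nsq (M (q⁻¹ * q')) ≤ 3 * C ^ 2 := by
      rw [Quant.nsq_rep_div hM, e]
      calc nsq ((M q)⁻¹ * g * t * ((M q')⁻¹ * (g * t))⁻¹)
          ≤ nsq ((M q)⁻¹ * g * t) * nsq ((M q')⁻¹ * (g * t))⁻¹ := Quant.nsq_mul _ _
        _ ≤ (nsq ((M q)⁻¹ * g) * nsq t) * nsq ((M q')⁻¹ * (g * t))⁻¹ := by
            gcongr
            · exact Quant.nsq_nonneg _
            · exact Quant.nsq_mul _ _
        _ ≤ (C * 3) * C := by
            rw [Quant.nsq_inv]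
            have n1 := Quant.nsq_nonneg t
            have n2 := Quant.nsq_nonneg ((M q)⁻¹ * g)
            have n3 := Quant.nsq_nonneg ((M q')⁻¹ * (g * t))
            gcongr
        _ = 3 * C ^ 2 := by ring
    have hmem : q⁻¹ * q' ∈ H := Subgroup.subset_closure hb
    have := H.mul_mem hq hmem
    rwa [mul_inv_cancel_left] at this
  have hT : ∀ g : SL(2, ℝ), ∃ q ∈ H, nsq ((M q)⁻¹ * g) ≤ C := by
    apply Quant.gen_all (T := fun g => ∃ q ∈ H, nsq ((M q)⁻¹ * g) ≤ C)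
    · refine ⟨1, H.one_mem, ?_⟩
      rw [mul_one, Quant.nsq_inv, Quant.nsq_rep_one hM]
      exact hC2
    · rintro g ⟨q, hq, hqg⟩ s hs
      obtain ⟨q', hq'⟩ := hC (g * Quant.up s)
      refine ⟨q', step g (Quant.up s) ?_ q hq hqg q' hq', hq'⟩
      rw [Quant.nsq_up]
      have : s ^ 2 ≤ 1 := by
        rw [← sq_abs]
        have := abs_nonneg s
        nlinarith
      linarith
    · rintro g ⟨q, hq, hqg⟩ s hs
      obtain ⟨q', hq'⟩ := hC (g * Quant.lo s)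
      refine ⟨q', step g (Quant.lo s) ?_ q hq hqg q' hq', hq'⟩
      rw [Quant.nsq_lo]
      have : s ^ 2 ≤ 1 := by
        rw [← sq_abs]
        have := abs_nonneg s
        nlinarith
      linarith
  rw [eq_top_iff]
  intro p _
  obtain ⟨q, hq, hqp⟩ := hT (M p)
  have hb : nsq (M (q⁻¹ * p)) ≤ 3 * C ^ 2 := by
    rw [Quant.nsq_rep_div hM]
    refine hqp.trans ?_
    nlinarith
  have := H.mul_mem hq (Subgroup.subset_closure hb)
  rwa [mul_inv_cancel_left] at this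

namespace Quant

theorem det2_zero_par {u v : Fin 2 → ℝ} (hu : u ≠ 0) (h : det2 u v = 0) : ∃ c : ℝ, v = c • u := by
  unfold det2 at h
  by_cases h0 : u 0 = 0
  · have h1 : u 1 ≠ 0 := by
      intro h1
      apply hu
      ext i
      fin_cases i
      · exact h0
      · exact h1
    refine ⟨v 1 / u 1, ?_⟩
    have hv0 : v 0 = 0 := by
      rw [h0, zero_mul, zero_sub, neg_eq_zero] at h
      rcases mul_eq_zero.1 h with h | h
      · exact absurd h h1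
      · exact h
    ext i
    fin_cases i
    · simp [h0, hv0]
    · simp
      field_simp
  · refine ⟨v 0 / u 0, ?_⟩
    ext i
    fin_cases i
    · simp
      field_simp
    · simp
      field_simp
      linarith

theorem dir_data {g : SL(2, ℝ)} {u₁ u₂ : Fin 2 → ℝ} (h1 : IsDir g⁻¹ u₁) (h2 : IsDir g u₂) :
    det2 u₁ u₂ ≠ 0 ∧ ∃ μ : ℝ, 1 < |μ| ∧ g.1.mulVec u₂ = μ • u₂ ∧ g.1.mulVec u₁ = μ⁻¹ • u₁ := by
  obtain ⟨hu1, ν, hν, e1⟩ := h1
  obtain ⟨hu2, μ, hμ, e2⟩ := h2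
  have hν0 : ν ≠ 0 := by
    intro h; rw [h, abs_zero] at hν; linarith
  have hμ0 : μ ≠ 0 := by
    intro h; rw [h, abs_zero] at hμ; linarith
  have e1' : g.1.mulVec u₁ = ν⁻¹ • u₁ := by
    have := congrArg (fun w => g.1.mulVec w) e1
    simp only [mv_inv] at this
    rw [Matrix.mulVec_smul] at this
    rw [eq_inv_smul_iff₀ hν0]
    exact this.symm
  have hne : det2 u₁ u₂ ≠ 0 := by
    intro h
    obtain ⟨c, hc⟩ := det2_zero_par hu1 h
    have hc0 : c ≠ 0 := by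
      intro h0
      apply hu2
      rw [hc, h0, zero_smul]
    rw [hc, Matrix.mulVec_smul, e1', smul_smul, smul_smul] at e2
    have e3 : (c * ν⁻¹ - μ * c) • u₁ = 0 := by rw [sub_smul, e2, sub_self]
    rcases smul_eq_zero.1 e3 with h3 | h3
    · have h4 : c * (ν⁻¹ - μ) = 0 := by linear_combination h3
      rcases mul_eq_zero.1 h4 with h5 | h5
      · exact hc0 h5
      · have h6 : μ = ν⁻¹ := by linarith
        rw [h6, abs_inv] at hμ
        have := inv_lt_one_of_one_lt₀ hν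
        linarith
    · exact hu1 h3
  refine ⟨hne, μ, hμ, e2, ?_⟩
  have h3 := det2_mv g u₁ u₂
  rw [e1', e2, det2_smul_left, det2_smul_right] at h3
  have h4 : (ν⁻¹ * μ - 1) * det2 u₁ u₂ = 0 := by linear_combination h3
  rcases mul_eq_zero.1 h4 with h5 | h5
  · have h6 : ν⁻¹ = μ⁻¹ := by
      exact eq_inv_of_mul_eq_one_left (by linarith)
    rw [e1', h6]
  · exact absurd h5 hne

theorem isDir_conj' {π : Type*} [Group π] {M : π → SL(2, ℝ)} (hM : Rep M) (q r : π)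
    {v : Fin 2 → ℝ} (hv : IsDir (M r) v) : IsDir (M (q * r * q⁻¹)) ((M q).1.mulVec v) := by
  obtain ⟨hv0, μ, hμ, e⟩ := hv
  refine ⟨?_, ?_⟩
  · intro h
    apply hv0
    have := congrArg (fun w => (M q)⁻¹.1.mulVec w) h
    simp only [inv_mv] at this
    rw [this, Matrix.mulVec_zero]
  · obtain ⟨ε₁, hε₁, h1⟩ := rep_mul_mv hM (q * r * q⁻¹) q
    obtain ⟨ε₂, hε₂, h2⟩ := rep_mul_mv hM q r
    rw [inv_mul_cancel_right] at h1
    have h3 := h1 v
    rw [h2 v, e, Matrix.mulVec_smul] at h3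
    have hε₁' : ε₁ * ε₁ = 1 := by rcases hε₁ with h | h <;> rw [h] <;> norm_num
    refine ⟨ε₁ * ε₂ * μ, ?_, ?_⟩
    · rcases hε₁ with h | h <;> rcases hε₂ with h' | h' <;> rw [h, h'] <;> simpa using hμ
    · calc (M (q * r * q⁻¹)).1.mulVec ((M q).1.mulVec v)
          = (ε₁ * ε₁) • (M (q * r * q⁻¹)).1.mulVec ((M q).1.mulVec v) := by rw [hε₁', one_smul]
        _ = ε₁ • (ε₁ • (M (q * r * q⁻¹)).1.mulVec ((M q).1.mulVec v)) := by rw [smul_smul]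
        _ = ε₁ • (ε₂ • (μ • (M q).1.mulVec v)) := by rw [h3]
        _ = (ε₁ * ε₂ * μ) • (M q).1.mulVec v := by
            rw [smul_smul, smul_smul]

end Quant

namespace Quant

theorem inner_alg {A B I C t N D : ℝ} (hAB : A * B = I ^ 2 + 1) (hABC : A + B ≤ C) (hA0 : 0 ≤ A)
    (hB0 : 0 ≤ B) (hI2 : -(C / 2) ≤ I) (hN0 : 0 ≤ N) (hD2 : 0 < D ^ 2)
    (ht : t = C * (C / 2 + N / D ^ 2 + 1)) :
    N / D ^ 2 + 1 ≤ I + t * A := by
  have hAC : 1 ≤ A * C := by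
    have hI0 := sq_nonneg I
    have hBC : B ≤ C := by linarith
    have : A * B ≤ A * C := mul_le_mul_of_nonneg_left hBC hA0
    linarith
  have hC0 : 0 ≤ C := by linarith
  have h0 : 0 ≤ C / 2 + N / D ^ 2 + 1 := by positivity
  have : C / 2 + N / D ^ 2 + 1 ≤ t * A := by
    rw [ht]
    calc C / 2 + N / D ^ 2 + 1 = 1 * (C / 2 + N / D ^ 2 + 1) := by ring
      _ ≤ (A * C) * (C / 2 + N / D ^ 2 + 1) := mul_le_mul_of_nonneg_right hAC h0
      _ = C * (C / 2 + N / D ^ 2 + 1) * A := by ring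
  linarith

theorem inner_alg2 {N D J s : ℝ} (hN0 : 0 ≤ N) (hD : D ≠ 0) (hst : N / D ^ 2 + 1 ≤ J)
    (hs : s = D * J) : N < s ^ 2 ∧ 0 < D * s := by
  have hD2 : 0 < D ^ 2 := by positivity
  have h2 : 0 ≤ N / D ^ 2 := by positivity
  have h3 : 1 ≤ J := by linarith
  constructor
  · rw [hs, mul_pow]
    have h4 : N / D ^ 2 + 1 ≤ J ^ 2 := by
      have : J ≤ J ^ 2 := by nlinarith
      linarith
    calc N < N + D ^ 2 := by linarith
      _ = D ^ 2 * (N / D ^ 2 + 1) := by field_simp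
      _ ≤ D ^ 2 * J ^ 2 := mul_le_mul_of_nonneg_left h4 hD2.le
  · rw [hs]
    have : D * (D * J) = D ^ 2 * J := by ring
    rw [this]
    have : 0 < J := by linarith
    positivity

theorem exists_inner {M : π → SL(2, ℝ)} (hM : Rep M) {u₁ u₂ : Fin 2 → ℝ} (hD : det2 u₁ u₂ ≠ 0) :
    ∃ (q : π) (x y : Fin 2 → ℝ), x = ((M q)⁻¹).1.mulVec u₁ ∧ y = ((M q)⁻¹).1.mulVec u₂ ∧
      (u₁ 0 ^ 2 + u₁ 1 ^ 2) * (u₂ 0 ^ 2 + u₂ 1 ^ 2) < (x 0 * y 0 + x 1 * y 1) ^ 2 ∧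
      0 < det2 u₁ u₂ * (x 0 * y 0 + x 1 * y 1) := by
  obtain ⟨C, hC0⟩ := hM.cocpt
  obtain ⟨D, hDdef⟩ : ∃ D, D = det2 u₁ u₂ := ⟨_, rfl⟩
  rw [← hDdef] at hD ⊢
  have hDe : u₁ 0 * u₂ 1 - u₁ 1 * u₂ 0 = D := by rw [hDdef]; rfl
  obtain ⟨N, hN⟩ : ∃ N, N = (u₁ 0 ^ 2 + u₁ 1 ^ 2) * (u₂ 0 ^ 2 + u₂ 1 ^ 2) := ⟨_, rfl⟩
  have hN0 : 0 ≤ N := by rw [hN]; positivity
  rw [← hN]
  have hD2 : 0 < D ^ 2 := by positivity
  obtain ⟨t, ht⟩ : ∃ t, t = C * (C / 2 + N / D ^ 2 + 1) := ⟨_, rfl⟩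
  have hdet : (!![u₁ 0, u₂ 0 / D - t * u₁ 0; u₁ 1, u₂ 1 / D - t * u₁ 1] :
      Matrix (Fin 2) (Fin 2) ℝ).det = 1 := by
    rw [Matrix.det_fin_two_of]
    field_simp
    linear_combination hDe
  obtain ⟨g, hg⟩ : ∃ g : SL(2, ℝ), g = ⟨_, hdet⟩ := ⟨_, rfl⟩
  have g00 : g 0 0 = u₁ 0 := by rw [hg]; rfl
  have g01 : g 0 1 = u₂ 0 / D - t * u₁ 0 := by rw [hg]; rfl
  have g10 : g 1 0 = u₁ 1 := by rw [hg]; rfl
  have g11 : g 1 1 = u₂ 1 / D - t * u₁ 1 := by rw [hg]; rfl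
  obtain ⟨q, hq⟩ := hC0 g
  obtain ⟨k, hk⟩ : ∃ k, k = (M q)⁻¹ * g := ⟨_, rfl⟩
  obtain ⟨x, hx⟩ : ∃ x, x = ((M q)⁻¹).1.mulVec u₁ := ⟨_, rfl⟩
  obtain ⟨y, hy⟩ : ∃ y, y = ((M q)⁻¹).1.mulVec u₂ := ⟨_, rfl⟩
  have k00 : k 0 0 = x 0 := by rw [hk, Quant.ml, g00, g10, hx, Quant.mv0]
  have k10 : k 1 0 = x 1 := by rw [hk, Quant.ml, g00, g10, hx, Quant.mv1]
  have k01 : k 0 1 = y 0 / D - t * x 0 := by
    rw [hk, Quant.ml, g01, g11, hx, hy, Quant.mv0, Quant.mv0]; ring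
  have k11 : k 1 1 = y 1 / D - t * x 1 := by
    rw [hk, Quant.ml, g01, g11, hx, hy, Quant.mv1, Quant.mv1]; ring
  have hkd := Quant.dt k
  have hkn : k 0 0 ^ 2 + k 0 1 ^ 2 + k 1 0 ^ 2 + k 1 1 ^ 2 ≤ C := by
    rw [← hk] at hq
    exact hq
  refine ⟨q, x, y, hx, hy, ?_⟩
  have hst : N / D ^ 2 + 1 ≤ (k 0 0 * k 0 1 + k 1 0 * k 1 1) + t * (k 0 0 ^ 2 + k 1 0 ^ 2) := by
    apply inner_alg (B := k 0 1 ^ 2 + k 1 1 ^ 2) (C := C) (D := D) (N := N)
    · linear_combination (k 0 0 * k 1 1 - k 0 1 * k 1 0 + 1) * hkd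
    · linarith
    · positivity
    · positivity
    · have h1 := sq_nonneg (k 0 0 + k 0 1)
      have h2 := sq_nonneg (k 1 0 + k 1 1)
      have h3 : (k 0 0 + k 0 1) ^ 2 + (k 1 0 + k 1 1) ^ 2 =
        (k 0 0 ^ 2 + k 0 1 ^ 2 + k 1 0 ^ 2 + k 1 1 ^ 2) + 2 * (k 0 0 * k 0 1 + k 1 0 * k 1 1) := by
        ring
      linarith
    · exact hN0
    · exact hD2
    · exact ht
  refine inner_alg2 hN0 hD hst ?_
  rw [k00, k10, k01, k11]
  field_simp
  ring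

theorem side_alg2 {D s N a1 b1 a2 b2 X Y n1 n2 : ℝ} (hD : D ≠ 0) (hN : N = n1 * n2)
    (hs2 : N < s ^ 2) (hsD : 0 < D * s)
    (L1 : D ^ 2 * n1 = a1 ^ 2 * X + b1 ^ 2 * Y + 2 * (b1 * a1 * s))
    (L2 : D ^ 2 * n2 = a2 ^ 2 * X + b2 ^ 2 * Y + 2 * (b2 * a2 * s))
    (L3 : a1 * b2 - a2 * b1 = D * D) (hX0 : 0 ≤ X) (hY0 : 0 ≤ Y) (L4 : s ^ 2 ≤ X * Y)
    (hq1 : b1 * a1 * -D ≤ 0) (hq2 : b2 * a2 * -D ≤ 0) : False := by
  have hD2 : 0 < D ^ 2 := by positivity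
  have P1 : 0 ≤ b1 * a1 * s := by
    have h5 : 0 ≤ D * (b1 * a1) := by linarith
    have h6 : 0 ≤ D ^ 2 * (b1 * a1 * s) := by
      have := mul_nonneg h5 hsD.le
      have e : D * (b1 * a1) * (D * s) = D ^ 2 * (b1 * a1 * s) := by ring
      rwa [e] at this
    exact nonneg_of_mul_nonneg_right h6 hD2
  have P2 : 0 ≤ b2 * a2 * s := by
    have h5 : 0 ≤ D * (b2 * a2) := by linarith
    have h6 : 0 ≤ D ^ 2 * (b2 * a2 * s) := by
      have := mul_nonneg h5 hsD.le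
      have e : D * (b2 * a2) * (D * s) = D ^ 2 * (b2 * a2 * s) := by ring
      rwa [e] at this
    exact nonneg_of_mul_nonneg_right h6 hD2
  have z1 : 0 ≤ a1 ^ 2 * X + b1 ^ 2 * Y := by positivity
  have z2 : 0 ≤ a2 ^ 2 * X + b2 ^ 2 * Y := by positivity
  have L5 : (D ^ 2 * D ^ 2) * (X * Y) ≤ (D ^ 2 * D ^ 2) * N := by
    calc (D ^ 2 * D ^ 2) * (X * Y) = (a1 * b2 - a2 * b1) ^ 2 * (X * Y) := by rw [L3]; ring
      _ ≤ (a1 * b2 - a2 * b1) ^ 2 * (X * Y) + (a1 * a2 * X + b1 * b2 * Y) ^ 2 := by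
          linarith [sq_nonneg (a1 * a2 * X + b1 * b2 * Y)]
      _ = (a1 ^ 2 * X + b1 ^ 2 * Y) * (a2 ^ 2 * X + b2 ^ 2 * Y) := by ring
      _ ≤ (D ^ 2 * n1) * (D ^ 2 * n2) := by
          rw [L1, L2]
          apply mul_le_mul
          · linarith
          · linarith
          · exact z2
          · linarith
      _ = (D ^ 2 * D ^ 2) * N := by rw [hN]; ring
  have L6 : X * Y ≤ N := le_of_mul_le_mul_left L5 (by positivity)
  linarith

end Quant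

/-- Both sides of an axis contain attracting directions (use `p⁻¹` for the other side). -/
theorem side_exists {M : π → SL(2, ℝ)} (hM : Rep M) {p : π} (hp : p ≠ 1) {u₁ u₂ : Fin 2 → ℝ}
    (h1 : IsDir (M p)⁻¹ u₁) (h2 : IsDir (M p) u₂) :
    ∃ q : π, q ≠ 1 ∧ ∃ v, IsDir (M q) v ∧ 0 < det2 u₁ v * det2 v u₂ * det2 u₂ u₁ := by
  obtain ⟨hD, -⟩ := Quant.dir_data h1 h2
  obtain ⟨q, x, y, hx, hy, hs2, hsD⟩ := Quant.exists_inner hM hD
  have hxy : det2 x y = det2 u₁ u₂ := by rw [hx, hy, Quant.det2_mv]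
  -- the two candidates
  have cand : ∀ u, det2 u₁ ((M q).1.mulVec u) = det2 x u ∧ det2 ((M q).1.mulVec u) u₂ = det2 u y := by
    intro u
    constructor
    · rw [hx, ← Quant.det2_mv (M q)⁻¹ u₁, Quant.inv_mv]
    · rw [hy, ← Quant.det2_mv (M q)⁻¹ _ u₂, Quant.inv_mv]
  have hyx : det2 u₂ u₁ = -det2 u₁ u₂ := by
    unfold det2; ring
  by_contra hcon
  push Not at hcon
  have hq2 := hcon (q * p * q⁻¹) (by
    intro h
    apply hp
    have := congrArg (fun w => q⁻¹ * w * q) h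
    simpa [mul_assoc] using this) _ (Quant.isDir_conj' hM q p h2)
  have hp' : IsDir (M p⁻¹) u₁ := by
    rcases Quant.rep_inv' hM p with h | h
    · rw [h]; exact h1
    · rw [h]
      obtain ⟨h0, ν, hν, e⟩ := h1
      refine ⟨h0, -ν, by rwa [abs_neg], ?_⟩
      rw [Quant.neg_mv, e, neg_smul]
  have hq1 := hcon (q * p⁻¹ * q⁻¹) (by
    intro h
    apply hp
    have := congrArg (fun w => q⁻¹ * w * q) h
    simpa [mul_assoc] using this) _ (Quant.isDir_conj' hM q p⁻¹ hp')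
  rw [(cand u₁).1, (cand u₁).2, hyx] at hq1
  rw [(cand u₂).1, (cand u₂).2, hyx] at hq2
  refine Quant.side_alg2 (D := det2 u₁ u₂) (s := x 0 * y 0 + x 1 * y 1)
    (a1 := det2 u₁ y) (b1 := det2 x u₁) (a2 := det2 u₂ y) (b2 := det2 x u₂)
    (X := x 0 ^ 2 + x 1 ^ 2) (Y := y 0 ^ 2 + y 1 ^ 2) hD rfl hs2 hsD ?_ ?_ ?_ (by positivity)
    (by positivity) ?_ hq1 hq2
  · rw [← hxy]
    unfold det2
    ring
  · rw [← hxy]
    unfold det2
    ring
  · have : det2 u₁ y * det2 x u₂ - det2 u₂ y * det2 x u₁ = det2 x y * det2 u₁ u₂ := by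
      unfold det2
      ring
    rw [this, hxy]
  · have := sq_nonneg (x 0 * y 1 - x 1 * y 0)
    have e : (x 0 ^ 2 + x 1 ^ 2) * (y 0 ^ 2 + y 1 ^ 2) =
      (x 0 * y 0 + x 1 * y 1) ^ 2 + (x 0 * y 1 - x 1 * y 0) ^ 2 := by ring
    linarith

theorem fin_cross {M : π → SL(2, ℝ)} (hM : Rep M) {p : π} (hp : p ≠ 1) {u₁ u₂ : Fin 2 → ℝ}
    (h1 : IsDir (M p)⁻¹ u₁) (h2 : IsDir (M p) u₂) : ∃ F : Set π, F.Finite ∧ ∀ g : π,
      det2 u₁ ((M g).1.mulVec u₁) * det2 ((M g).1.mulVec u₁) u₂ *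
        (det2 u₁ ((M g).1.mulVec u₂) * det2 ((M g).1.mulVec u₂) u₂) < 0 →
      ∃ i j : ℤ, ∃ f ∈ F, g = p ^ i * f * p ^ j := by
  obtain ⟨hD, μ, hμ, e2, e1⟩ := Quant.dir_data h1 h2
  set D := det2 u₁ u₂ with hDdef
  have hμ0 : μ ≠ 0 := by
    intro h; rw [h, abs_zero] at hμ; linarith
  -- powers of p
  have hpow : ∀ i : ℤ, ∃ ε : ℝ, (ε = 1 ∨ ε = -1) ∧ (M (p ^ i)).1.mulVec u₂ = (ε * μ ^ i) • u₂ ∧
      (M (p ^ i)).1.mulVec u₁ = (ε * μ ^ (-i)) • u₁ := by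
    intro i
    induction i using Int.induction_on with
    | zero =>
      rw [zpow_zero]
      rcases Quant.rep_one' hM with h | h
      · refine ⟨1, Or.inl rfl, ?_, ?_⟩ <;> rw [h, Quant.one_mv] <;> simp
      · refine ⟨-1, Or.inr rfl, ?_, ?_⟩ <;> rw [h, Quant.neg_mv, Quant.one_mv] <;> simp
    | succ i ih =>
      obtain ⟨ε, hε, a, b⟩ := ih
      obtain ⟨ε', hε', hm⟩ := Quant.rep_mul_mv hM (p ^ (i : ℤ)) p
      rw [zpow_add_one]
      refine ⟨ε' * ε, ?_, ?_, ?_⟩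
      · rcases hε with h | h <;> rcases hε' with h' | h' <;> rw [h, h'] <;> norm_num
      · rw [hm, e2, Matrix.mulVec_smul, a, smul_smul, smul_smul]
        congr 1
        rw [zpow_add_one₀ hμ0]
        ring
      · rw [hm, e1, Matrix.mulVec_smul, b, smul_smul, smul_smul]
        congr 1
        have : -((i : ℤ) + 1) = -(i : ℤ) - 1 := by ring
        rw [this, zpow_sub_one₀ hμ0]
        ring
    | pred i ih =>
      obtain ⟨ε, hε, a, b⟩ := ih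
      obtain ⟨ε', hε', hm⟩ := Quant.rep_mul_mv hM (p ^ (-(i : ℤ) - 1)) p
      rw [zpow_sub_one, inv_mul_cancel_right] at hm
      rw [zpow_sub_one]
      have hε'2 : ε' * ε' = 1 := by rcases hε' with h | h <;> rw [h] <;> norm_num
      refine ⟨ε' * ε, ?_, ?_, ?_⟩
      · rcases hε with h | h <;> rcases hε' with h' | h' <;> rw [h, h'] <;> norm_num
      · have h3 := hm u₂
        rw [a, e2, Matrix.mulVec_smul, smul_smul] at h3
        have h4 := congrArg (fun w => (ε' * μ⁻¹) • w) h3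
        simp only [smul_smul] at h4
        have h5 : ε' * μ⁻¹ * (ε' * μ) = 1 := by
          field_simp
          linarith
        rw [h5, one_smul] at h4
        rw [← h4]
        congr 1
        rw [zpow_sub_one₀ hμ0]
        ring
      · have h3 := hm u₁
        rw [b, e1, Matrix.mulVec_smul, smul_smul] at h3
        have h4 := congrArg (fun w => (ε' * μ) • w) h3
        simp only [smul_smul] at h4
        have h5 : ε' * μ * (ε' * μ⁻¹) = 1 := by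
          field_simp
          linarith
        rw [h5, one_smul] at h4
        rw [← h4]
        congr 1
        have : -(-(i : ℤ) - 1) = -(-(i : ℤ)) + 1 := by ring
        rw [this, zpow_add_one₀ hμ0]
        ring
  -- matrix coefficients of p^i g p^j
  have hco : ∀ (g : π) (i j : ℤ), ∃ ε : ℝ, (ε = 1 ∨ ε = -1) ∧
      det2 u₁ ((M (p ^ i * g * p ^ j)).1.mulVec u₂) =
        ε * μ ^ (i + j) * det2 u₁ ((M g).1.mulVec u₂) ∧
      det2 ((M (p ^ i * g * p ^ j)).1.mulVec u₁) u₂ =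
        ε * μ ^ (-(i + j)) * det2 ((M g).1.mulVec u₁) u₂ ∧
      det2 u₁ ((M (p ^ i * g * p ^ j)).1.mulVec u₁) =
        ε * μ ^ (i - j) * det2 u₁ ((M g).1.mulVec u₁) ∧
      det2 ((M (p ^ i * g * p ^ j)).1.mulVec u₂) u₂ =
        ε * μ ^ (-(i - j)) * det2 ((M g).1.mulVec u₂) u₂ := by
    intro g i j
    obtain ⟨ε₁, hε₁, m1⟩ := Quant.rep_mul_mv hM (p ^ i * g) (p ^ j)
    obtain ⟨ε₂, hε₂, m2⟩ := Quant.rep_mul_mv hM (p ^ i) g
    obtain ⟨ε₃, hε₃, i2, i1⟩ := hpow i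
    obtain ⟨ε₄, hε₄, j2, j1⟩ := hpow j
    have hε₃2 : ε₃ * ε₃ = 1 := by rcases hε₃ with h | h <;> rw [h] <;> norm_num
    have dl : ∀ w, det2 u₁ ((M (p ^ i)).1.mulVec w) = ε₃ * μ ^ i * det2 u₁ w := by
      intro w
      have h3 := Quant.det2_mv (M (p ^ i)) u₁ w
      rw [i1, Quant.det2_smul_left, zpow_neg] at h3
      rw [← h3]
      have hz : μ ^ i ≠ 0 := zpow_ne_zero _ hμ0
      have e : ε₃ * μ ^ i * (ε₃ * (μ ^ i)⁻¹ * det2 u₁ ((M (p ^ i)).1.mulVec w)) =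
        (ε₃ * ε₃) * (μ ^ i * (μ ^ i)⁻¹) * det2 u₁ ((M (p ^ i)).1.mulVec w) := by ring
      rw [e, hε₃2, mul_inv_cancel₀ hz]
      ring
    have dr : ∀ w, det2 ((M (p ^ i)).1.mulVec w) u₂ = ε₃ * μ ^ (-i) * det2 w u₂ := by
      intro w
      have h3 := Quant.det2_mv (M (p ^ i)) w u₂
      rw [i2, Quant.det2_smul_right] at h3
      rw [← h3, zpow_neg]
      have hz : μ ^ i ≠ 0 := zpow_ne_zero _ hμ0
      have e : ε₃ * (μ ^ i)⁻¹ * (ε₃ * μ ^ i * det2 ((M (p ^ i)).1.mulVec w) u₂) =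
        (ε₃ * ε₃) * (μ ^ i * (μ ^ i)⁻¹) * det2 ((M (p ^ i)).1.mulVec w) u₂ := by ring
      rw [e, hε₃2, mul_inv_cancel₀ hz]
      ring
    refine ⟨ε₁ * ε₂ * ε₃ * ε₄, ?_, ?_, ?_, ?_, ?_⟩
    · rcases hε₁ with h | h <;> rcases hε₂ with h' | h' <;> rcases hε₃ with h'' | h'' <;>
        rcases hε₄ with h''' | h''' <;> rw [h, h', h'', h'''] <;> norm_num
    · rw [m1, j2, Matrix.mulVec_smul, m2, smul_smul, smul_smul, Quant.det2_smul_right, dl,
        zpow_add₀ hμ0]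
      ring
    · rw [m1, j1, Matrix.mulVec_smul, m2, smul_smul, smul_smul, Quant.det2_smul_left, dr,
        neg_add, zpow_add₀ hμ0]
      ring
    · rw [m1, j1, Matrix.mulVec_smul, m2, smul_smul, smul_smul, Quant.det2_smul_right, dl,
        sub_eq_add_neg, zpow_add₀ hμ0]
      ring
    · have e : -(i - j) = -i + j := by ring
      rw [m1, j2, Matrix.mulVec_smul, m2, smul_smul, smul_smul, Quant.det2_smul_left, dr,
        e, zpow_add₀ hμ0]
      ring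
  -- bound for the norm
  have hdet : (!![u₂ 0, -(u₁ 0 / D); u₂ 1, -(u₁ 1 / D)] : Matrix (Fin 2) (Fin 2) ℝ).det = 1 := by
    rw [Matrix.det_fin_two_of]
    have : u₁ 0 * u₂ 1 - u₁ 1 * u₂ 0 = D := by rw [hDdef]; rfl
    field_simp
    linear_combination this
  set g₀ : SL(2, ℝ) := ⟨_, hdet⟩ with hg₀
  have g00 : g₀ 0 0 = u₂ 0 := rfl
  have g01 : g₀ 0 1 = -(u₁ 0 / D) := rfl
  have g10 : g₀ 1 0 = u₂ 1 := rfl
  have g11 : g₀ 1 1 = -(u₁ 1 / D) := rfl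
  have hnorm : ∀ f : π, nsq (M f) ≤ nsq g₀ * ((det2 u₁ ((M f).1.mulVec u₂) / D) ^ 2 +
      (det2 u₁ ((M f).1.mulVec u₁) / D ^ 2) ^ 2 + (det2 ((M f).1.mulVec u₂) u₂) ^ 2 +
      (det2 ((M f).1.mulVec u₁) u₂ / D) ^ 2) * nsq g₀ := by
    intro f
    have e : M f = g₀ * (g₀⁻¹ * M f * g₀) * g₀⁻¹ := by group
    have hN : nsq (g₀⁻¹ * M f * g₀) = ((det2 u₁ ((M f).1.mulVec u₂) / D) ^ 2 +
      (det2 u₁ ((M f).1.mulVec u₁) / D ^ 2) ^ 2 + (det2 ((M f).1.mulVec u₂) u₂) ^ 2 +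
      (det2 ((M f).1.mulVec u₁) u₂ / D) ^ 2) := by
      unfold nsq det2
      simp only [Quant.ml, Quant.i00, Quant.i01, Quant.i10, Quant.i11, Quant.mv0, Quant.mv1,
        g00, g01, g10, g11]
      field_simp
      ring
    calc nsq (M f) = nsq (g₀ * (g₀⁻¹ * M f * g₀) * g₀⁻¹) := by rw [← e]
      _ ≤ nsq (g₀ * (g₀⁻¹ * M f * g₀)) * nsq g₀⁻¹ := Quant.nsq_mul _ _
      _ ≤ (nsq g₀ * nsq (g₀⁻¹ * M f * g₀)) * nsq g₀⁻¹ := by
          gcongr
          · exact Quant.nsq_nonneg _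
          · exact Quant.nsq_mul _ _
      _ = _ := by rw [hN, Quant.nsq_inv]
  set Kb : ℝ := nsq g₀ * (μ ^ 4 + μ ^ 4 / D ^ 2 + D ^ 2 + 1) * nsq g₀ with hKb
  refine ⟨{f | nsq (M f) ≤ Kb}, hM.disc Kb, ?_⟩
  intro g hg
  set a := det2 u₁ ((M g).1.mulVec u₂) with ha
  set b := det2 u₁ ((M g).1.mulVec u₁) with hb
  set c := det2 ((M g).1.mulVec u₂) u₂ with hc
  set d := det2 ((M g).1.mulVec u₁) u₂ with hd
  have hadbc : a * d - b * c = D ^ 2 := by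
    have e : a * d - b * c = det2 u₁ u₂ * det2 ((M g).1.mulVec u₁) ((M g).1.mulVec u₂) := by
      rw [ha, hb, hc, hd]
      unfold det2
      ring
    rw [e, Quant.det2_mv, ← hDdef]
    ring
  have hD2 : 0 < D ^ 2 := by positivity
  have hprod : (a * d) * (b * c) < 0 := by linarith [hg, show b * d * (a * c) = (a * d) * (b * c) by ring]
  have hX : 0 < a * d ∧ b * c < 0 := by
    rcases mul_neg_iff.1 hprod with h | h
    · exact h
    · exfalso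
      linarith [h.1, h.2]
  obtain ⟨hX, hY⟩ := hX
  have hX2 : a * d ≤ D ^ 2 := by linarith
  have hY2 : -(b * c) ≤ D ^ 2 := by linarith
  have had : 0 < a / d := by
    have : d ≠ 0 := by
      intro h; rw [h, mul_zero] at hX; exact lt_irrefl _ hX
    have h3 : a / d = (a * d) / d ^ 2 := by field_simp
    rw [h3]; positivity
  have hbc : 0 < -(b / c) := by
    have : c ≠ 0 := by
      intro h; rw [h, mul_zero] at hY; exact lt_irrefl _ hY
    have h3 : -(b / c) = (-(b * c)) / c ^ 2 := by field_simp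
    rw [h3]
    have : 0 < -(b * c) := by linarith
    positivity
  have hμ4 : 1 < μ ^ 4 := by
    have : (1 : ℝ) < |μ| ^ 4 := one_lt_pow₀ hμ (by norm_num)
    rwa [show |μ| ^ 4 = μ ^ 4 by
      rw [show (4 : ℕ) = 2 * 2 by norm_num, pow_mul, pow_mul, sq_abs]] at this
  obtain ⟨n1, hn1, hn1'⟩ := exists_mem_Ico_zpow had hμ4
  obtain ⟨n2, hn2, hn2'⟩ := exists_mem_Ico_zpow hbc hμ4
  set i : ℤ := -n1 - n2 with hi
  set j : ℤ := n2 - n1 with hj
  obtain ⟨ε, hε, c1, c2, c3, c4⟩ := hco g i j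
  have hε2 : ε ^ 2 = 1 := by rcases hε with h | h <;> rw [h] <;> norm_num
  refine ⟨-i, -j, p ^ i * g * p ^ j, ?_, by group⟩
  refine (hnorm _).trans ?_
  rw [← ha] at c1
  rw [← hd] at c2
  rw [← hb] at c3
  rw [← hc] at c4
  rw [c1, c2, c3, c4, hKb]
  have hg0 := Quant.nsq_nonneg g₀
  have hm1 : (μ ^ 4) ^ n1 = μ ^ (4 * n1) := by
    rw [← zpow_natCast μ 4, ← zpow_mul]; norm_num
  have hm2 : (μ ^ 4) ^ n2 = μ ^ (4 * n2) := by
    rw [← zpow_natCast μ 4, ← zpow_mul]; norm_num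
  have hd0 : d ≠ 0 := by
    intro h; rw [h, mul_zero] at hX; exact lt_irrefl _ hX
  have hc0 : c ≠ 0 := by
    intro h; rw [h, mul_zero] at hY; exact lt_irrefl _ hY
  have z1 : 0 < (μ ^ 4) ^ n1 := by positivity
  have z2 : 0 < (μ ^ 4) ^ n2 := by positivity
  have sq1 : (μ ^ (i + j)) ^ 2 = ((μ ^ 4) ^ n1)⁻¹ := by
    rw [hm1, ← zpow_neg, ← zpow_natCast (μ ^ (i + j)) 2, ← zpow_mul]
    congr 1
    rw [hi, hj]; push_cast; ring
  have sq1' : (μ ^ (-(i + j))) ^ 2 = (μ ^ 4) ^ n1 := by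
    rw [hm1, ← zpow_natCast (μ ^ (-(i + j))) 2, ← zpow_mul]
    congr 1
    rw [hi, hj]; push_cast; ring
  have sq2 : (μ ^ (i - j)) ^ 2 = ((μ ^ 4) ^ n2)⁻¹ := by
    rw [hm2, ← zpow_neg, ← zpow_natCast (μ ^ (i - j)) 2, ← zpow_mul]
    congr 1
    rw [hi, hj]; push_cast; ring
  have sq2' : (μ ^ (-(i - j))) ^ 2 = (μ ^ 4) ^ n2 := by
    rw [hm2, ← zpow_natCast (μ ^ (-(i - j))) 2, ← zpow_mul]
    congr 1
    rw [hi, hj]; push_cast; ring
  -- the four bounds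
  have hA2 : (ε * μ ^ (i + j) * a) ^ 2 ≤ μ ^ 4 * D ^ 2 := by
    rw [mul_pow, mul_pow, hε2, one_mul, sq1]
    rw [zpow_add_one₀ (by positivity)] at hn1'
    have h3 : ((μ ^ 4) ^ n1)⁻¹ * a ^ 2 = (((μ ^ 4) ^ n1)⁻¹ * (a / d)) * (a * d) := by
      field_simp
    rw [h3]
    have h4 : ((μ ^ 4) ^ n1)⁻¹ * (a / d) ≤ μ ^ 4 := by
      rw [inv_mul_le_iff₀ z1]
      exact hn1'.le
    have h5 : 0 ≤ ((μ ^ 4) ^ n1)⁻¹ * (a / d) := by positivity
    exact mul_le_mul h4 hX2 hX.le (by positivity)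
  have hD2' : (ε * μ ^ (-(i + j)) * d) ^ 2 ≤ D ^ 2 := by
    rw [mul_pow, mul_pow, hε2, one_mul, sq1']
    have h3 : (μ ^ 4) ^ n1 * d ^ 2 ≤ (a / d) * d ^ 2 := by gcongr
    have h4 : (a / d) * d ^ 2 = a * d := by field_simp
    linarith
  have hB2 : (ε * μ ^ (i - j) * b) ^ 2 ≤ μ ^ 4 * D ^ 2 := by
    rw [mul_pow, mul_pow, hε2, one_mul, sq2]
    rw [zpow_add_one₀ (by positivity)] at hn2'
    have h3 : ((μ ^ 4) ^ n2)⁻¹ * b ^ 2 = (((μ ^ 4) ^ n2)⁻¹ * (-(b / c))) * (-(b * c)) := by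
      field_simp
    rw [h3]
    have h4 : ((μ ^ 4) ^ n2)⁻¹ * (-(b / c)) ≤ μ ^ 4 := by
      rw [inv_mul_le_iff₀ z2]
      exact hn2'.le
    have h5 : 0 ≤ ((μ ^ 4) ^ n2)⁻¹ * (-(b / c)) := by positivity
    exact mul_le_mul h4 hY2 (by linarith) (by positivity)
  have hC2 : (ε * μ ^ (-(i - j)) * c) ^ 2 ≤ D ^ 2 := by
    rw [mul_pow, mul_pow, hε2, one_mul, sq2']
    have h3 : (μ ^ 4) ^ n2 * c ^ 2 ≤ (-(b / c)) * c ^ 2 := by gcongr
    have h4 : (-(b / c)) * c ^ 2 = -(b * c) := by field_simp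
    linarith
  have F1 : (ε * μ ^ (i + j) * a / D) ^ 2 ≤ μ ^ 4 := by
    rw [div_pow, div_le_iff₀ hD2]; exact hA2
  have F2 : (ε * μ ^ (i - j) * b / D ^ 2) ^ 2 ≤ μ ^ 4 / D ^ 2 := by
    rw [div_pow, div_le_div_iff₀ (by positivity) hD2]
    nlinarith
  have F3 : (ε * μ ^ (-(i + j)) * d / D) ^ 2 ≤ 1 := by
    rw [div_pow, div_le_one hD2]; exact hD2'
  gcongr

end Pool.Agent.MP_e058c8_al
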