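import Pool.Agent.MP_e058c8_al.Defs

set_option autoImplicit false

namespace Pool.Agent.MP_e058c8_al

open scoped MatrixGroups
open Matrix Filter Topology

namespace SideInv

/-! ### the symmetric matrix `g gᵀ` -/

noncomputable def pa (g : SL(2, ℝ)) : ℝ := g 0 0 ^ 2 + g 0 1 ^ 2
noncomputable def pb (g : SL(2, ℝ)) : ℝ := g 0 0 * g 1 0 + g 0 1 * g 1 1
noncomputable def pd (g : SL(2, ℝ)) : ℝ := g 1 0 ^ 2 + g 1 1 ^ 2

theorem det_eq (g : SL(2, ℝ)) : g 0 0 * g 1 1 - g 0 1 * g 1 0 = 1 := by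
  have := g.2
  rwa [Matrix.det_fin_two] at this

theorem pa_mul_pd (g : SL(2, ℝ)) : pa g * pd g = 1 + pb g ^ 2 := by
  have := det_eq g
  unfold pa pb pd
  have h : (g 0 0 * g 1 1 - g 0 1 * g 1 0) ^ 2 = 1 := by rw [this]; norm_num
  linear_combination h

theorem pd_pos (g : SL(2, ℝ)) : 0 < pd g := by
  have h1 := pa_mul_pd g
  have h2 : 0 ≤ pd g := by unfold pd; positivity
  rcases h2.eq_or_lt with h | h
  · rw [← h] at h1; nlinarith [sq_nonneg (pb g)]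
  · exact h

theorem pa_pos (g : SL(2, ℝ)) : 0 < pa g := by
  have h1 := pa_mul_pd g
  have h2 : 0 ≤ pa g := by unfold pa; positivity
  rcases h2.eq_or_lt with h | h
  · rw [← h] at h1; nlinarith [sq_nonneg (pb g)]
  · exact h

theorem mul_entries (g k : SL(2, ℝ)) (i j : Fin 2) :
    (g * k) i j = g i 0 * k 0 j + g i 1 * k 1 j := by
  simp only [Matrix.SpecialLinearGroup.coe_mul, Matrix.mul_apply, Fin.sum_univ_two]

theorem inv00 (g : SL(2, ℝ)) : g⁻¹ 0 0 = g 1 1 := by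
  rw [Matrix.SpecialLinearGroup.SL2_inv_expl]; rfl

theorem inv01 (g : SL(2, ℝ)) : g⁻¹ 0 1 = -g 0 1 := by
  rw [Matrix.SpecialLinearGroup.SL2_inv_expl]; rfl

theorem inv10 (g : SL(2, ℝ)) : g⁻¹ 1 0 = -g 1 0 := by
  rw [Matrix.SpecialLinearGroup.SL2_inv_expl]; rfl

theorem inv11 (g : SL(2, ℝ)) : g⁻¹ 1 1 = g 0 0 := by
  rw [Matrix.SpecialLinearGroup.SL2_inv_expl]; rfl

theorem nsq_inv_mul (g k : SL(2, ℝ)) :
    nsq (g⁻¹ * k) = pa g * pd k + pd g * pa k - 2 * (pb g * pb k) := by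
  unfold nsq pa pb pd
  simp only [mul_entries, inv00, inv01, inv10, inv11]
  ring

theorem nsq_mul_le (g k : SL(2, ℝ)) : nsq (g * k) ≤ nsq g * nsq k := by
  unfold nsq
  simp only [mul_entries]
  nlinarith [sq_nonneg (g 0 0 * k 1 0 - g 0 1 * k 0 0), sq_nonneg (g 0 0 * k 1 1 - g 0 1 * k 0 1),
    sq_nonneg (g 1 0 * k 1 0 - g 1 1 * k 0 0), sq_nonneg (g 1 0 * k 1 1 - g 1 1 * k 0 1)]

theorem nsq_inv (g : SL(2, ℝ)) : nsq g⁻¹ = nsq g := by
  unfold nsq
  simp only [inv00, inv01, inv10, inv11]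
  ring

theorem nsq_neg (g : SL(2, ℝ)) : nsq (-g) = nsq g := by
  unfold nsq
  simp

theorem nsq_nonneg (g : SL(2, ℝ)) : 0 ≤ nsq g := by unfold nsq; positivity

theorem nsq_eq (g : SL(2, ℝ)) : nsq g = pa g + pd g := by unfold nsq pa pd; ring

theorem pb_neg (g : SL(2, ℝ)) : pb (-g) = pb g := by
  unfold pb
  simp

theorem pd_neg (g : SL(2, ℝ)) : pd (-g) = pd g := by
  unfold pd
  simp

/-- crossing zero -/
theorem cross {g k : SL(2, ℝ)} {T : ℝ} (hT : nsq (g⁻¹ * k) ≤ T) (h : pb g * pb k ≤ 0) :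
    2 * |pb g| ≤ T := by
  rw [nsq_inv_mul] at hT
  have h1 := pa_mul_pd g
  have h2 := pa_mul_pd k
  have ha := pa_pos g
  have hd := pd_pos g
  have ha' := pa_pos k
  have hd' := pd_pos k
  have hX : 0 < pa g * pd k := mul_pos ha hd'
  have hY : 0 < pd g * pa k := mul_pos hd ha'
  have hXY : (pa g * pd k) * (pd g * pa k) = (1 + pb g ^ 2) * (1 + pb k ^ 2) := by
    rw [← h1, ← h2]; ring
  have h3 : pa g * pd k + pd g * pa k ≤ T := by linarith
  have h4 : (2 * |pb g|) ^ 2 ≤ T ^ 2 := by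
    have h5 : 4 * ((pa g * pd k) * (pd g * pa k)) ≤ (pa g * pd k + pd g * pa k) ^ 2 := by
      nlinarith [sq_nonneg (pa g * pd k - pd g * pa k)]
    have h6 : (pa g * pd k + pd g * pa k) ^ 2 ≤ T ^ 2 := by
      apply pow_le_pow_left₀ (by positivity) h3
    rw [hXY] at h5
    have h7 : (2 * |pb g|) ^ 2 = 4 * pb g ^ 2 := by rw [mul_pow, sq_abs]; norm_num
    rw [h7]
    nlinarith [sq_nonneg (pb g), sq_nonneg (pb k), mul_nonneg (sq_nonneg (pb g)) (sq_nonneg (pb k))]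
  have hT0 : 0 ≤ T := by linarith
  exact abs_le_of_sq_le_sq' h4 hT0 |>.2

/-- `pb` is large at points close to a point where it is large -/
theorem near {g k : SL(2, ℝ)} {C : ℝ} (hC : nsq (g⁻¹ * k) ≤ C) :
    pb g ^ 2 ≤ C ^ 2 * (1 + pb k ^ 2) := by
  have hC0 : 0 ≤ C := (nsq_nonneg _).trans hC
  rw [nsq_inv_mul] at hC
  have h1 := pa_mul_pd g
  have h2 := pa_mul_pd k
  have ha := pa_pos g
  have hd := pd_pos g
  have ha' := pa_pos k
  have hd' := pd_pos k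
  have hX : 0 < pa g * pd k := mul_pos ha hd'
  have hY : 0 < pd g * pa k := mul_pos hd ha'
  have hXY : (pa g * pd k) * (pd g * pa k) = (1 + pb g ^ 2) * (1 + pb k ^ 2) := by
    rw [← h1, ← h2]; ring
  have h3 : pa g * pd k + pd g * pa k ≤ C + 2 * (pb g * pb k) := by linarith
  have h6 : (pa g * pd k + pd g * pa k) ^ 2 ≤ (C + 2 * (pb g * pb k)) ^ 2 :=
    pow_le_pow_left₀ (by positivity) h3 2
  have h5 : 4 * ((pa g * pd k) * (pd g * pa k)) ≤ (pa g * pd k + pd g * pa k) ^ 2 := by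
    nlinarith [sq_nonneg (pa g * pd k - pd g * pa k)]
  rw [hXY] at h5
  nlinarith [sq_nonneg (pb g - C * pb k), sq_nonneg (pb k), sq_nonneg C]

/-! ### connectivity of the region where `pb` is large -/

theorem chain_seg {R : ℝ → ℝ → Prop} {Q : Set ℝ} (hQ : Q.OrdConnected) {ε : ℝ} (hε : 0 < ε)
    (h : ∀ t t', t ∈ Q → t' ∈ Q → |t - t'| ≤ ε → R t t') {t t' : ℝ} (ht : t ∈ Q) (ht' : t' ∈ Q) :
    Relation.ReflTransGen R t t' := by
  obtain ⟨n, hn⟩ := exists_nat_ge (|t - t'| / ε)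
  rw [div_le_iff₀ hε] at hn
  induction n generalizing t' with
  | zero =>
    have : t = t' := by
      have : |t - t'| ≤ 0 := by simpa using hn
      have := abs_eq_zero.1 (le_antisymm this (abs_nonneg _))
      linarith
    rw [this]
  | succ n ih =>
    by_cases hc : |t - t'| ≤ n * ε
    · exact ih ht' hc
    · push Not at hc
      push_cast at hn
      have hn0 : (0 : ℝ) ≤ n * ε := by positivity
      rcases le_total t t' with hle | hle
      · have e1 : |t - t'| = t' - t := by rw [abs_sub_comm, abs_of_nonneg (by linarith)]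
        rw [e1] at hn hc
        by_cases hc2 : t ≤ t' - ε
        · have hs : t' - ε ∈ Q := hQ.out ht ht' ⟨hc2, by linarith⟩
          refine (ih hs ?_).tail (h _ _ hs ht' ?_)
          · rw [abs_sub_comm, abs_of_nonneg (by linarith)]; linarith
          · rw [abs_le]; constructor <;> linarith
        · refine Relation.ReflTransGen.single (h _ _ ht ht' ?_)
          push Not at hc2
          rw [abs_le]; constructor <;> linarith
      · have e1 : |t - t'| = t - t' := abs_of_nonneg (by linarith)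
        rw [e1] at hn hc
        by_cases hc2 : t' + ε ≤ t
        · have hs : t' + ε ∈ Q := hQ.out ht' ht ⟨by linarith, hc2⟩
          refine (ih hs ?_).tail (h _ _ hs ht' ?_)
          · rw [abs_of_nonneg (by linarith)]; linarith
          · rw [abs_le]; constructor <;> linarith
        · refine Relation.ReflTransGen.single (h _ _ ht ht' ?_)
          push Not at hc2
          rw [abs_le]; constructor <;> linarith

/-- upper triangular matrices -/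
noncomputable def ut (t B : ℝ) : SL(2, ℝ) :=
  ⟨!![Real.exp (-t), B * Real.exp (-t); 0, Real.exp t], by
    rw [Matrix.det_fin_two_of, ← Real.exp_add]; simp⟩

theorem ut_pa (t B : ℝ) : pa (ut t B) = (1 + B ^ 2) * Real.exp (-t) ^ 2 := by
  simp [pa, ut]; ring

theorem ut_pb (t B : ℝ) : pb (ut t B) = B := by
  simp only [pb, ut]
  simp
  rw [mul_assoc, ← Real.exp_add]
  simp

theorem ut_pd (t B : ℝ) : pd (ut t B) = Real.exp t ^ 2 := by
  simp [pd, ut]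

/-- bounded step inside the region `pb ∈ Q` -/
def St (Q : Set ℝ) (g k : SL(2, ℝ)) : Prop := nsq (g⁻¹ * k) ≤ 3 ∧ pb k ∈ Q

theorem chain {Q : Set ℝ} (hQ : Q.OrdConnected) {g k : SL(2, ℝ)} (hg : pb g ∈ Q) (hk : pb k ∈ Q) :
    Relation.ReflTransGen (St Q) g k := by
  -- from `g` to an upper triangular matrix
  have key : ∀ g : SL(2, ℝ), ∃ t, nsq (g⁻¹ * ut t (pb g)) = 2 ∧ nsq ((ut t (pb g))⁻¹ * g) = 2 := by
    intro g
    refine ⟨Real.log (pd g) / 2, ?_⟩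
    have hd := pd_pos g
    have e1 : Real.exp (Real.log (pd g) / 2) ^ 2 = pd g := by
      rw [← Real.exp_nat_mul]
      push_cast
      rw [mul_div_cancel₀ _ (two_ne_zero), Real.exp_log hd]
    have e2 : Real.exp (-(Real.log (pd g) / 2)) ^ 2 = (pd g)⁻¹ := by
      rw [Real.exp_neg, inv_pow, e1]
    have h1 := pa_mul_pd g
    rw [nsq_inv_mul, nsq_inv_mul, ut_pa, ut_pb, ut_pd, e1, e2]
    have h2 : pd g * ((1 + pb g ^ 2) * (pd g)⁻¹) = 1 + pb g ^ 2 := by field_simp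
    constructor
    · rw [h1, h2]; ring
    · have h3 : (1 + pb g ^ 2) * (pd g)⁻¹ * pd g = 1 + pb g ^ 2 := by field_simp
      rw [h3, mul_comm, h1]; ring
  obtain ⟨t0, ht0, -⟩ := key g
  obtain ⟨t1, -, ht1⟩ := key k
  have s1 : Relation.ReflTransGen (St Q) g (ut t0 (pb g)) :=
    Relation.ReflTransGen.single ⟨by rw [ht0]; norm_num, by rwa [ut_pb]⟩
  have s4 : Relation.ReflTransGen (St Q) (ut t1 (pb k)) k :=
    Relation.ReflTransGen.single ⟨by rw [ht1]; norm_num, hk⟩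
  -- change `t`
  have s2 : ∀ t t' B, B ∈ Q → Relation.ReflTransGen (St Q) (ut t B) (ut t' B) := by
    intro t t' B hB
    have hcont : Continuous fun s : ℝ =>
        (1 + B ^ 2) * Real.exp (2 * s) + (1 + B ^ 2) * Real.exp (-(2 * s)) - 2 * (B * B) := by
      fun_prop
    have h0 : (1 + B ^ 2) * Real.exp (2 * 0) + (1 + B ^ 2) * Real.exp (-(2 * 0)) - 2 * (B * B)
        = 2 := by simp; ring
    obtain ⟨ε, hε, hε'⟩ := Metric.continuous_iff.1 hcont 0 1 one_pos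
    have hstep : ∀ t t', t ∈ (Set.univ : Set ℝ) → t' ∈ (Set.univ : Set ℝ) → |t - t'| ≤ ε / 2 →
        St Q (ut t B) (ut t' B) := by
      intro t t' _ _ htt
      refine ⟨?_, by rwa [ut_pb]⟩
      rw [nsq_inv_mul, ut_pa, ut_pa, ut_pb, ut_pb, ut_pd, ut_pd]
      have h1 := hε' (t' - t) (by
        rw [Real.dist_eq, sub_zero, abs_sub_comm]; linarith)
      rw [Real.dist_eq, h0, abs_lt] at h1
      have e1 : (1 + B ^ 2) * Real.exp (-t) ^ 2 * Real.exp t' ^ 2 =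
          (1 + B ^ 2) * Real.exp (2 * (t' - t)) := by
        rw [mul_assoc, ← Real.exp_nat_mul, ← Real.exp_nat_mul, ← Real.exp_add]
        congr 2; push_cast; ring
      have e2 : Real.exp t ^ 2 * ((1 + B ^ 2) * Real.exp (-t') ^ 2) =
          (1 + B ^ 2) * Real.exp (-(2 * (t' - t))) := by
        rw [mul_left_comm, ← Real.exp_nat_mul, ← Real.exp_nat_mul, ← Real.exp_add]
        congr 2; push_cast; ring
      rw [e1, e2]
      linarith [h1.2]
    have := chain_seg (R := fun t t' => St Q (ut t B) (ut t' B)) Set.ordConnected_univ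
      (half_pos hε) hstep (Set.mem_univ t) (Set.mem_univ t')
    exact this.lift (fun t => ut t B) (fun _ _ h => h)
  -- change `B`
  have s3 : ∀ t B B', B ∈ Q → B' ∈ Q → Relation.ReflTransGen (St Q) (ut t B) (ut t B') := by
    intro t B B' hB hB'
    have hstep : ∀ B B', B ∈ Q → B' ∈ Q → |B - B'| ≤ 1 → St Q (ut t B) (ut t B') := by
      intro B B' _ hB' hBB
      refine ⟨?_, by rwa [ut_pb]⟩
      rw [nsq_inv_mul, ut_pa, ut_pa, ut_pb, ut_pb, ut_pd, ut_pd]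
      have e1 : (1 + B ^ 2) * Real.exp (-t) ^ 2 * Real.exp t ^ 2 = 1 + B ^ 2 := by
        rw [mul_assoc, ← Real.exp_nat_mul, ← Real.exp_nat_mul, ← Real.exp_add]
        simp
      have e2 : Real.exp t ^ 2 * ((1 + B' ^ 2) * Real.exp (-t) ^ 2) = 1 + B' ^ 2 := by
        rw [mul_left_comm, ← Real.exp_nat_mul, ← Real.exp_nat_mul, ← Real.exp_add]
        simp
      rw [e1, e2]
      have := (abs_le.1 hBB)
      nlinarith [this.1, this.2]
    have := chain_seg (R := fun B B' => St Q (ut t B) (ut t B')) hQ one_pos hstep hB hB'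
    exact this.lift (fun B => ut t B) (fun _ _ h => h)
  exact ((s1.trans (s2 _ _ _ hg)).trans (s3 _ _ _ hg hk)).trans s4

/-! ### equality up to sign -/

/-- equality up to sign -/
def PM (g k : SL(2, ℝ)) : Prop := g = k ∨ g = -k

theorem PM.refl (g : SL(2, ℝ)) : PM g g := Or.inl rfl

theorem PM.symm {g k : SL(2, ℝ)} (h : PM g k) : PM k g := by
  rcases h with h | h
  · exact Or.inl h.symm
  · exact Or.inr (by rw [h, neg_neg])

theorem PM.trans {g k l : SL(2, ℝ)} (h : PM g k) (h' : PM k l) : PM g l := by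
  rcases h with rfl | rfl <;> rcases h' with rfl | rfl
  · exact Or.inl rfl
  · exact Or.inr rfl
  · exact Or.inr rfl
  · exact Or.inl (by rw [neg_neg])

theorem PM.mul {g k g' k' : SL(2, ℝ)} (h : PM g k) (h' : PM g' k') : PM (g * g') (k * k') := by
  rcases h with rfl | rfl <;> rcases h' with rfl | rfl
  · exact Or.inl rfl
  · exact Or.inr (by rw [mul_neg])
  · exact Or.inr (by rw [neg_mul])
  · exact Or.inl (by rw [neg_mul_neg])

theorem neg_inv' (g : SL(2, ℝ)) : (-g)⁻¹ = -g⁻¹ := by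
  rw [inv_eq_iff_mul_eq_one, neg_mul_neg, mul_inv_cancel]

theorem PM.inv {g k : SL(2, ℝ)} (h : PM g k) : PM g⁻¹ k⁻¹ := by
  rcases h with rfl | rfl
  · exact Or.inl rfl
  · exact Or.inr (neg_inv' k)

theorem PM.pb_eq {g k : SL(2, ℝ)} (h : PM g k) : pb g = pb k := by
  rcases h with rfl | rfl
  · rfl
  · exact pb_neg k

theorem PM.pd_eq {g k : SL(2, ℝ)} (h : PM g k) : pd g = pd k := by
  rcases h with rfl | rfl
  · rfl
  · exact pd_neg k

theorem PM.nsq_eq {g k : SL(2, ℝ)} (h : PM g k) : nsq g = nsq k := by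
  rcases h with rfl | rfl
  · rfl
  · exact nsq_neg k

section
variable {π : Type*} [Group π] {M : π → SL(2, ℝ)}

theorem M_mul (hM : Rep M) (p q : π) : PM (M (p * q)) (M p * M q) := hM.mul p q

theorem M_one (hM : Rep M) : PM (M 1) 1 := by
  have h := M_mul hM 1 1
  rw [mul_one] at h
  have h2 := (PM.refl (M 1)⁻¹).mul h
  rw [inv_mul_cancel, inv_mul_cancel_left] at h2
  exact h2.symm

theorem M_inv (hM : Rep M) (p : π) : PM (M p⁻¹) (M p)⁻¹ := by
  have h := (M_mul hM p⁻¹ p).symm.trans (by rw [inv_mul_cancel]; exact M_one hM)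
  have h2 := h.mul (PM.refl (M p)⁻¹)
  rwa [mul_inv_cancel_right, one_mul] at h2

theorem M_pow (hM : Rep M) (p : π) (n : ℕ) : PM (M (p ^ n)) (M p ^ n) := by
  induction n with
  | zero => rw [pow_zero, pow_zero]; exact M_one hM
  | succ n ih =>
    rw [pow_succ, pow_succ]
    exact (M_mul hM _ _).trans (ih.mul (PM.refl _))

theorem M_zpow (hM : Rep M) (p : π) (i : ℤ) : PM (M (p ^ i)) (M p ^ i) := by
  cases i with
  | ofNat n => rw [Int.ofNat_eq_natCast, zpow_natCast, zpow_natCast]; exact M_pow hM p n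
  | negSucc n =>
    rw [zpow_negSucc, zpow_negSucc]
    exact (M_inv hM _).trans (M_pow hM p _).inv

theorem M_inv_mul (hM : Rep M) (x y : π) : PM (M (x⁻¹ * y)) ((M x)⁻¹ * M y) :=
  (M_mul hM _ _).trans ((M_inv hM x).mul (PM.refl _))

end

/-- diagonal matrices -/
noncomputable def dgv (t : ℝˣ) : SL(2, ℝ) :=
  ⟨!![((t⁻¹ : ℝˣ) : ℝ), 0; 0, (t : ℝ)], by rw [Matrix.det_fin_two_of]; simp⟩

theorem dgv00 (t : ℝˣ) : dgv t 0 0 = (t : ℝ)⁻¹ := by simp [dgv]
theorem dgv01 (t : ℝˣ) : dgv t 0 1 = 0 := by simp [dgv]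
theorem dgv10 (t : ℝˣ) : dgv t 1 0 = 0 := by simp [dgv]
theorem dgv11 (t : ℝˣ) : dgv t 1 1 = t := by simp [dgv]

theorem sl_ext {g k : SL(2, ℝ)} (h00 : g 0 0 = k 0 0) (h01 : g 0 1 = k 0 1)
    (h10 : g 1 0 = k 1 0) (h11 : g 1 1 = k 1 1) : g = k := by
  ext i j
  fin_cases i <;> fin_cases j
  · exact h00
  · exact h01
  · exact h10
  · exact h11

/-- diagonal matrices -/
noncomputable def dg : ℝˣ →* SL(2, ℝ) where
  toFun := dgv
  map_one' := by
    apply sl_ext <;> simp [dgv]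
  map_mul' s t := by
    apply sl_ext <;> simp only [mul_entries, dgv00, dgv01, dgv10, dgv11] <;> simp [mul_comm]

theorem dg_mul_pb (t : ℝˣ) (g : SL(2, ℝ)) : pb (dg t * g) = pb g := by
  have h : (t : ℝ) ≠ 0 := t.ne_zero
  change pb (dgv t * g) = pb g
  unfold pb
  simp only [mul_entries, dgv00, dgv01, dgv10, dgv11]
  field_simp
  ring

theorem dg_mul_pd (t : ℝˣ) (g : SL(2, ℝ)) : pd (dg t * g) = (t : ℝ) ^ 2 * pd g := by
  change pd (dgv t * g) = _
  unfold pd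
  simp only [mul_entries, dgv10, dgv11]
  ring

/-! ### growth along powers -/

theorem exists_eig {g : SL(2, ℝ)} {v : Fin 2 → ℝ} (hv : IsDir g v) : ∃ ν : ℝ, 1 < |ν| ∧
    g 0 0 * v 0 + g 0 1 * v 1 = ν * v 0 ∧ g 1 0 * v 0 + g 1 1 * v 1 = ν * v 1 ∧
    g 0 0 + g 1 1 = ν + ν⁻¹ := by
  obtain ⟨hv0, ν, hν, h⟩ := hv
  have e0 := congrFun h 0
  have e1 := congrFun h 1
  simp only [Matrix.mulVec, dotProduct, Fin.sum_univ_two, Pi.smul_apply, smul_eq_mul] at e0 e1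
  have hν0 : ν ≠ 0 := by
    rintro rfl
    norm_num at hν
  refine ⟨ν, hν, e0, e1, ?_⟩
  have hd := det_eq g
  have k0 : (1 - ν * (g 0 0 + g 1 1) + ν ^ 2) * v 0 = 0 := by
    linear_combination (-v 0) * hd + (g 1 1 - ν) * e0 - g 0 1 * e1
  have k1 : (1 - ν * (g 0 0 + g 1 1) + ν ^ 2) * v 1 = 0 := by
    linear_combination (-v 1) * hd - g 1 0 * e0 + (g 0 0 - ν) * e1
  have k : 1 - ν * (g 0 0 + g 1 1) + ν ^ 2 = 0 := by
    by_contra hne
    have a0 := (mul_eq_zero.1 k0).resolve_left hne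
    have a1 := (mul_eq_zero.1 k1).resolve_left hne
    apply hv0
    ext i
    fin_cases i
    · exact a0
    · exact a1
  field_simp
  linarith

theorem growth {g h : SL(2, ℝ)} {v : Fin 2 → ℝ} (hv : IsDir g v) {l0 l1 : ℝ}
    (hl0 : l0 = h 1 1 * v 0 - h 0 1 * v 1) (hl1 : l1 = -h 1 0 * v 0 + h 0 0 * v 1)
    (hne : l0 * l1 ≠ 0) :
    Tendsto (fun n : ℕ => (l0 * l1) * pb (h⁻¹ * g ^ n)) atTop atTop := by
  obtain ⟨ν, hν, e0, e1, htr⟩ := exists_eig hv
  have hν0 : ν ≠ 0 := by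
    rintro rfl
    norm_num at hν
  have hνν : ν - ν⁻¹ ≠ 0 := by
    intro h0
    have h1 : ν * ν = 1 := by
      have : ν = ν⁻¹ := by linarith
      nth_rewrite 2 [this]
      exact mul_inv_cancel₀ hν0
    have h2 : |ν| * |ν| = 1 := by rw [← abs_mul, h1, abs_one]
    nlinarith
  have hd := det_eq g
  set w := (ν - ν⁻¹)⁻¹ with hw
  -- the spectral decomposition
  obtain ⟨A, hA⟩ : ∃ A : Fin 2 → Fin 2 → ℝ, A = fun i j => w * (g i j - ν⁻¹ * if i = j then 1 else 0) :=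
    ⟨_, rfl⟩
  obtain ⟨B, hB⟩ : ∃ B : Fin 2 → Fin 2 → ℝ, B = fun i j => w * (ν * (if i = j then 1 else 0) - g i j) :=
    ⟨_, rfl⟩
  have hgA : ∀ i j, g i 0 * A 0 j + g i 1 * A 1 j = ν * A i j := by
    intro i j
    subst hA
    have hinv : ν * ν⁻¹ = 1 := mul_inv_cancel₀ hν0
    fin_cases i <;> fin_cases j <;> simp
    · linear_combination w * (g 0 0) * htr - w * hd + w * hinv
    · linear_combination w * (g 0 1) * htr
    · linear_combination w * (g 1 0) * htr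
    · linear_combination w * (g 1 1) * htr - w * hd + w * hinv
  have hgB : ∀ i j, g i 0 * B 0 j + g i 1 * B 1 j = ν⁻¹ * B i j := by
    intro i j
    subst hB
    have hinv : ν * ν⁻¹ = 1 := mul_inv_cancel₀ hν0
    fin_cases i <;> fin_cases j <;> simp
    · linear_combination -w * (g 0 0) * htr + w * hd - w * hinv
    · linear_combination -w * (g 0 1) * htr
    · linear_combination -w * (g 1 0) * htr
    · linear_combination -w * (g 1 1) * htr + w * hd - w * hinv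
  have hpow : ∀ n : ℕ, ∀ i j, (g ^ n) i j = ν ^ n * A i j + ν⁻¹ ^ n * B i j := by
    intro n
    induction n with
    | zero =>
      intro i j
      rw [hA, hB]
      have h1 : w * (ν - ν⁻¹) = 1 := inv_mul_cancel₀ hνν
      fin_cases i <;> fin_cases j <;> simp
      all_goals linear_combination -h1
    | succ n ih =>
      intro i j
      rw [pow_succ', mul_entries, ih, ih]
      linear_combination ν ^ n * hgA i j + ν⁻¹ ^ n * hgB i j
  -- `A` has rank one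
  have hv2 : 0 < v 0 ^ 2 + v 1 ^ 2 := by
    have : v 0 ≠ 0 ∨ v 1 ≠ 0 := by
      by_contra hc
      push Not at hc
      apply hv.1
      ext i
      fin_cases i
      · exact hc.1
      · exact hc.2
    rcases this with h0 | h0
    · have := sq_nonneg (v 1); have := pow_pos (abs_pos.2 h0) 2; rw [sq_abs] at this; linarith
    · have := sq_nonneg (v 0); have := pow_pos (abs_pos.2 h0) 2; rw [sq_abs] at this; linarith
  have hAv : ∀ j, A 0 j * v 1 = A 1 j * v 0 := by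
    intro j
    subst hA
    fin_cases j <;> simp
    · linear_combination w * v 1 * htr - w * e1
    · linear_combination -w * v 0 * htr + w * e0
  have hAtr : A 0 0 + A 1 1 = 1 := by
    rw [hA]
    have h1 : w * (ν - ν⁻¹) = 1 := inv_mul_cancel₀ hνν
    simp
    linear_combination w * htr + h1
  obtain ⟨φ, hφ⟩ : ∃ φ : Fin 2 → ℝ, φ = fun j => (A 0 j * v 0 + A 1 j * v 1) / (v 0 ^ 2 + v 1 ^ 2) :=
    ⟨_, rfl⟩
  have hAφ0 : ∀ j, A 0 j = v 0 * φ j := by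
    intro j
    rw [hφ]
    field_simp
    linear_combination v 1 * hAv j
  have hAφ1 : ∀ j, A 1 j = v 1 * φ j := by
    intro j
    rw [hφ]
    field_simp
    linear_combination -v 0 * hAv j
  have hφ0 : 0 < φ 0 ^ 2 + φ 1 ^ 2 := by
    have : φ 0 ≠ 0 ∨ φ 1 ≠ 0 := by
      by_contra hc
      push Not at hc
      rw [hAφ0, hAφ1, hc.1, hc.2] at hAtr
      norm_num at hAtr
    rcases this with h0 | h0
    · have := sq_nonneg (φ 1); have := pow_pos (abs_pos.2 h0) 2; rw [sq_abs] at this; linarith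
    · have := sq_nonneg (φ 0); have := pow_pos (abs_pos.2 h0) 2; rw [sq_abs] at this; linarith
  -- the formula for `pb`
  obtain ⟨β, hβ⟩ : ∃ β : ℝ, β =
      (l0 * φ 0) * (-h 1 0 * B 0 0 + h 0 0 * B 1 0) + (h 1 1 * B 0 0 - h 0 1 * B 1 0) * (l1 * φ 0) +
      ((l0 * φ 1) * (-h 1 0 * B 0 1 + h 0 0 * B 1 1) +
        (h 1 1 * B 0 1 - h 0 1 * B 1 1) * (l1 * φ 1)) := ⟨_, rfl⟩
  obtain ⟨γ, hγ⟩ : ∃ γ : ℝ, γ =
      (h 1 1 * B 0 0 - h 0 1 * B 1 0) * (-h 1 0 * B 0 0 + h 0 0 * B 1 0) +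
      (h 1 1 * B 0 1 - h 0 1 * B 1 1) * (-h 1 0 * B 0 1 + h 0 0 * B 1 1) := ⟨_, rfl⟩
  have hform : ∀ n : ℕ, (l0 * l1) * pb (h⁻¹ * g ^ n) =
      ((l0 * l1) ^ 2 * (φ 0 ^ 2 + φ 1 ^ 2)) * (ν ^ 2) ^ n + ((l0 * l1) * β) +
        (l0 * l1) * γ * ((ν ^ 2)⁻¹) ^ n := by
    intro n
    have hinv : ν ^ n * ν⁻¹ ^ n = 1 := by
      rw [← mul_pow, mul_inv_cancel₀ hν0, one_pow]
    have q1 : (ν ^ 2) ^ n = ν ^ n * ν ^ n := by rw [← pow_mul, mul_comm 2 n, pow_mul]; ring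
    have q2 : ((ν ^ 2)⁻¹) ^ n = ν⁻¹ ^ n * ν⁻¹ ^ n := by
      rw [← inv_pow, ← pow_mul, mul_comm 2 n, pow_mul]; ring
    rw [q1, q2]
    rw [show pb (h⁻¹ * g ^ n) =
        (ν ^ n * (l0 * φ 0) + ν⁻¹ ^ n * (h 1 1 * B 0 0 - h 0 1 * B 1 0)) *
          (ν ^ n * (l1 * φ 0) + ν⁻¹ ^ n * (-h 1 0 * B 0 0 + h 0 0 * B 1 0)) +
        (ν ^ n * (l0 * φ 1) + ν⁻¹ ^ n * (h 1 1 * B 0 1 - h 0 1 * B 1 1)) *
          (ν ^ n * (l1 * φ 1) + ν⁻¹ ^ n * (-h 1 0 * B 0 1 + h 0 0 * B 1 1)) from ?_]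
    · rw [hβ, hγ]
      linear_combination (l0 * l1 * ((l0 * φ 0) * (-h 1 0 * B 0 0 + h 0 0 * B 1 0) +
        (h 1 1 * B 0 0 - h 0 1 * B 1 0) * (l1 * φ 0) +
        ((l0 * φ 1) * (-h 1 0 * B 0 1 + h 0 0 * B 1 1) +
        (h 1 1 * B 0 1 - h 0 1 * B 1 1) * (l1 * φ 1)))) * hinv
    · unfold pb
      simp only [mul_entries, inv00, inv01, inv10, inv11, hpow, hAφ0, hAφ1]
      rw [hl0, hl1]
      ring
  have hν2 : 1 < ν ^ 2 := by
    rw [← sq_abs]
    nlinarith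
  have t1 : Tendsto (fun n : ℕ => ((l0 * l1) ^ 2 * (φ 0 ^ 2 + φ 1 ^ 2)) * (ν ^ 2) ^ n)
      atTop atTop := by
    apply Tendsto.const_mul_atTop
    · positivity
    · exact tendsto_pow_atTop_atTop_of_one_lt hν2
  have t2 : Tendsto (fun n : ℕ => (l0 * l1) * γ * ((ν ^ 2)⁻¹) ^ n) atTop (𝓝 ((l0 * l1) * γ * 0)) :=
    (tendsto_pow_atTop_nhds_zero_of_lt_one (by positivity) (inv_lt_one_of_one_lt₀ hν2)).const_mul _
  simp_rw [hform]
  exact (tendsto_atTop_add_const_right _ _ t1).atTop_add t2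

/-! ### frames -/

/-- `h` diagonalises `M p` -/
structure Frame (g h : SL(2, ℝ)) (μ : ℝˣ) : Prop where
  one_lt : 1 < |(μ : ℝ)|
  eq : g * h = h * dg μ

theorem exists_frame {g : SL(2, ℝ)} {u₁ u₂ : Fin 2 → ℝ} (h1 : IsDir g⁻¹ u₁) (h2 : IsDir g u₂) :
    ∃ (h : SL(2, ℝ)) (μ : ℝˣ) (δ : ℝ), δ ≠ 0 ∧ Frame g h μ ∧ h 0 0 = u₁ 0 ∧ h 1 0 = u₁ 1 ∧
      h 0 1 = u₂ 0 / δ ∧ h 1 1 = u₂ 1 / δ := by
  obtain ⟨hu1, μ₁, hμ₁, e1⟩ := h1
  obtain ⟨hu2, μ₂, hμ₂, e2⟩ := h2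
  have hμ10 : μ₁ ≠ 0 := by rintro rfl; norm_num at hμ₁
  have hμ20 : μ₂ ≠ 0 := by rintro rfl; norm_num at hμ₂
  have e10 := congrFun e1 0
  have e11 := congrFun e1 1
  have e20 := congrFun e2 0
  have e21 := congrFun e2 1
  simp only [Matrix.mulVec, dotProduct, Fin.sum_univ_two, Pi.smul_apply, smul_eq_mul] at e10 e11 e20 e21
  rw [inv00, inv01] at e10
  rw [inv10, inv11] at e11
  have hd := det_eq g
  -- `g u₁ = μ₁⁻¹ u₁`
  have f0 : μ₁ * (g 0 0 * u₁ 0 + g 0 1 * u₁ 1) = u₁ 0 := by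
    linear_combination (-g 0 0) * e10 - g 0 1 * e11 + u₁ 0 * hd
  have f1 : μ₁ * (g 1 0 * u₁ 0 + g 1 1 * u₁ 1) = u₁ 1 := by
    linear_combination (-g 1 0) * e10 - g 1 1 * e11 + u₁ 1 * hd
  -- the determinant is multiplied by `μ₂ / μ₁`
  have hdet : μ₁ * det2 u₁ u₂ = μ₂ * det2 u₁ u₂ := by
    unfold det2
    linear_combination (-μ₁ * (u₁ 0 * u₂ 1 - u₁ 1 * u₂ 0)) * hd +
      (g 1 0 * u₂ 0 + g 1 1 * u₂ 1) * f0 + u₁ 0 * e21 -
      (g 0 0 * u₂ 0 + g 0 1 * u₂ 1) * f1 - u₁ 1 * e20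
  have hδ : det2 u₁ u₂ ≠ 0 := by
    intro h0
    unfold det2 at h0
    -- `(μ₁ μ₂ - 1)` kills the vector `u₁ ⊗ u₂`
    have k : ∀ i j, (μ₁ * μ₂ - 1) * (u₁ i * u₂ j) = 0 := by
      intro i j
      fin_cases i <;> fin_cases j <;> simp only [Fin.zero_eta, Fin.mk_one]
      · linear_combination u₂ 0 * f0 - μ₁ * (-g 0 1 * h0 + u₁ 0 * e20)
      · linear_combination u₂ 1 * f0 - μ₁ * (g 0 0 * h0 + u₁ 1 * e20 - μ₂ * h0)
      · linear_combination u₂ 0 * f1 - μ₁ * (-g 1 1 * h0 + u₁ 0 * e21 + μ₂ * h0)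
      · linear_combination u₂ 1 * f1 - μ₁ * (g 1 0 * h0 + u₁ 1 * e21)
    obtain ⟨i, hi⟩ := Function.ne_iff.1 hu1
    obtain ⟨j, hj⟩ := Function.ne_iff.1 hu2
    have h2 := (mul_eq_zero.1 (k i j)).resolve_right (mul_ne_zero hi hj)
    have h3 : |μ₁| * |μ₂| = 1 := by
      rw [← abs_mul, show μ₁ * μ₂ = 1 by linarith, abs_one]
    nlinarith
  have hμ : μ₁ = μ₂ := mul_right_cancel₀ hδ hdet
  subst hμ
  have hδ' : u₁ 0 * u₂ 1 - u₁ 1 * u₂ 0 ≠ 0 := hδ
  obtain ⟨h, h00, h01, h10, h11⟩ : ∃ h : SL(2, ℝ), h 0 0 = u₁ 0 ∧ h 0 1 = u₂ 0 / det2 u₁ u₂ ∧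
      h 1 0 = u₁ 1 ∧ h 1 1 = u₂ 1 / det2 u₁ u₂ := by
    refine ⟨⟨!![u₁ 0, u₂ 0 / det2 u₁ u₂; u₁ 1, u₂ 1 / det2 u₁ u₂], ?_⟩, ?_, ?_, ?_, ?_⟩
    · rw [Matrix.det_fin_two_of]
      unfold det2
      field_simp
    all_goals simp
  refine ⟨h, Units.mk0 μ₁ hμ10, det2 u₁ u₂, hδ, ⟨by simpa using hμ₁, ?_⟩, h00, h10, h01, h11⟩
  have e : dg (Units.mk0 μ₁ hμ10) = dgv (Units.mk0 μ₁ hμ10) := rfl
  rw [e]
  have g0 : g 0 0 * u₁ 0 + g 0 1 * u₁ 1 = u₁ 0 * μ₁⁻¹ := by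
    field_simp; linarith
  have g1 : g 1 0 * u₁ 0 + g 1 1 * u₁ 1 = u₁ 1 * μ₁⁻¹ := by
    field_simp; linarith
  apply sl_ext
  · rw [mul_entries, mul_entries, dgv00, dgv10, h00, h01, h10, Units.val_mk0]
    linear_combination g0
  · rw [mul_entries, mul_entries, dgv01, dgv11, h00, h01, h11, Units.val_mk0]
    rw [mul_div_assoc', mul_div_assoc', ← add_div, e20]; ring
  · rw [mul_entries, mul_entries, dgv00, dgv10, h00, h10, h11, Units.val_mk0]
    linear_combination g1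
  · rw [mul_entries, mul_entries, dgv01, dgv11, h01, h10, h11, Units.val_mk0]
    rw [mul_div_assoc', mul_div_assoc', ← add_div, e21]; ring

/-! ### coarse connectivity off an axis -/

section
variable {π : Type*} [Group π] {M : π → SL(2, ℝ)}

/-- the step relation: right multiplication by an element of `F`, avoiding `⟨p⟩ F'` -/
def Step (F F' : Set π) (p : π) (x y : π) : Prop :=
  x⁻¹ * y ∈ F ∧ ∀ i : ℤ, ∀ f ∈ F', y ≠ p ^ i * f

/-- `q` and `r` are joined off `p` -/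
def Jn (p q r : π) : Prop :=
  ∃ F : Set π, F.Finite ∧ ∀ F' : Set π, F'.Finite → ∃ N : ℕ, ∀ n ≥ N,
    Relation.ReflTransGen (Step F F' p) (q ^ n) (r ^ n)

theorem Jn.map (φ : MulAut π) {p q r : π} (h : Jn p q r) : Jn (φ p) (φ q) (φ r) := by
  obtain ⟨F, hF, h⟩ := h
  refine ⟨φ '' F, hF.image _, fun F' hF' => ?_⟩
  obtain ⟨N, hN⟩ := h (φ ⁻¹' F') (hF'.preimage φ.injective.injOn)
  refine ⟨N, fun n hn => ?_⟩
  have := (hN n hn).lift (p := Step (φ '' F) F' (φ p)) φ (fun x y hxy => by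
    refine ⟨⟨_, hxy.1, by simp⟩, fun i f hf he => ?_⟩
    refine hxy.2 i (φ.symm f) (by simpa using hf) ?_
    apply φ.injective
    rw [he]
    simp)
  simpa [Function.onFun] using this

/-- the function measuring the signed distance to the axis of `p` -/
noncomputable def bb (M : π → SL(2, ℝ)) (h : SL(2, ℝ)) (x : π) : ℝ := pb (h⁻¹ * M x)

theorem frame_zpow (hM : Rep M) {p : π} {h : SL(2, ℝ)} {μ : ℝˣ} (hf : Frame (M p) h μ) (i : ℤ)
    (x : π) : PM (h⁻¹ * M (p ^ i * x)) (dg (μ ^ i) * (h⁻¹ * M x)) := by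
  have h1 : M p = h * dg μ * h⁻¹ := by rw [← hf.eq]; group
  have h2 : M p ^ i = h * dg (μ ^ i) * h⁻¹ := by
    rw [h1, map_zpow]
    exact (map_zpow (MulAut.conj h).toMonoidHom (dg μ) i).symm
  have h3 : PM (M (p ^ i * x)) (h * dg (μ ^ i) * h⁻¹ * M x) :=
    (M_mul hM _ _).trans ((h2 ▸ M_zpow hM p i).mul (PM.refl _))
  have h4 := (PM.refl h⁻¹).mul h3
  have e : h⁻¹ * (h * dg (μ ^ i) * h⁻¹ * M x) = dg (μ ^ i) * (h⁻¹ * M x) := by group
  rwa [e] at h4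

theorem bb_zpow (hM : Rep M) {p : π} {h : SL(2, ℝ)} {μ : ℝˣ} (hf : Frame (M p) h μ) (i : ℤ)
    (x : π) : bb M h (p ^ i * x) = bb M h x := by
  unfold bb
  rw [(frame_zpow hM hf i x).pb_eq, dg_mul_pb]

/-- the neighbourhood of the axis is `⟨p⟩ F'` with `F'` finite -/
theorem mem_of_bb_le (hM : Rep M) {p : π} {h : SL(2, ℝ)} {μ : ℝˣ} (hf : Frame (M p) h μ) {T : ℝ}
    {x : π} (hx : |bb M h x| ≤ T) :
    ∃ i : ℤ, ∃ f : π, nsq (M f) ≤ nsq h * (1 + T ^ 2 + (μ : ℝ) ^ 2) ∧ x = p ^ i * f := by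
  have hμ2 : 1 < (μ : ℝ) ^ 2 := by
    have := hf.one_lt
    rw [← sq_abs]; nlinarith
  obtain ⟨i, hi⟩ := exists_mem_Ico_zpow (pd_pos (h⁻¹ * M x)) hμ2
  have hpd : pd (h⁻¹ * M (p ^ (-i) * x)) = ((μ : ℝ) ^ 2) ^ (-i) * pd (h⁻¹ * M x) := by
    rw [(frame_zpow hM hf (-i) x).pd_eq, dg_mul_pd]
    congr 1
    rw [Units.val_zpow_eq_zpow_val, ← zpow_natCast, ← zpow_natCast, ← _root_.zpow_mul, ← _root_.zpow_mul, mul_comm]
  have hpos : (0 : ℝ) < ((μ : ℝ) ^ 2) ^ i := by positivity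
  have h1 : 1 ≤ pd (h⁻¹ * M (p ^ (-i) * x)) := by
    rw [hpd, _root_.zpow_neg, ← div_eq_inv_mul, le_div_iff₀ hpos, one_mul]
    exact hi.1
  have h2 : pd (h⁻¹ * M (p ^ (-i) * x)) ≤ (μ : ℝ) ^ 2 := by
    rw [hpd, _root_.zpow_neg, ← div_eq_inv_mul, div_le_iff₀ hpos]
    have := hi.2
    rw [zpow_add_one₀ (by positivity)] at this
    linarith
  have h3 : pb (h⁻¹ * M (p ^ (-i) * x)) ^ 2 ≤ T ^ 2 := by
    have e : pb (h⁻¹ * M (p ^ (-i) * x)) = bb M h x := bb_zpow hM hf (-i) x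
    rw [e, ← sq_abs]
    exact pow_le_pow_left₀ (abs_nonneg _) hx 2
  have h4 := pa_mul_pd (h⁻¹ * M (p ^ (-i) * x))
  have h5 : pa (h⁻¹ * M (p ^ (-i) * x)) ≤ 1 + T ^ 2 := by
    have := pa_pos (h⁻¹ * M (p ^ (-i) * x))
    nlinarith
  refine ⟨i, p ^ (-i) * x, ?_, by group⟩
  calc nsq (M (p ^ (-i) * x)) = nsq (h * (h⁻¹ * M (p ^ (-i) * x))) := by rw [mul_inv_cancel_left]
    _ ≤ nsq h * nsq (h⁻¹ * M (p ^ (-i) * x)) := nsq_mul_le _ _
    _ ≤ nsq h * (1 + T ^ 2 + (μ : ℝ) ^ 2) := by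
        apply mul_le_mul_of_nonneg_left _ (nsq_nonneg _)
        rw [nsq_eq]
        linarith

theorem nsq_bb (hM : Rep M) (h : SL(2, ℝ)) (x y : π) :
    nsq ((h⁻¹ * M x)⁻¹ * (h⁻¹ * M y)) = nsq (M (x⁻¹ * y)) := by
  rw [(M_inv_mul hM x y).nsq_eq]
  congr 1
  group

/-- growth along powers -/
theorem tendsto_bb (hM : Rep M) {q : π} {h : SL(2, ℝ)} {v : Fin 2 → ℝ} (hv : IsDir (M q) v)
    {l0 l1 : ℝ} (hl0 : l0 = h 1 1 * v 0 - h 0 1 * v 1) (hl1 : l1 = -h 1 0 * v 0 + h 0 0 * v 1)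
    (hne : l0 * l1 ≠ 0) : Tendsto (fun n : ℕ => (l0 * l1) * bb M h (q ^ n)) atTop atTop := by
  have e : ∀ n : ℕ, bb M h (q ^ n) = pb (h⁻¹ * M q ^ n) := by
    intro n
    exact ((PM.refl h⁻¹).mul (M_pow hM q n)).pb_eq
  simp_rw [e]
  exact growth hv hl0 hl1 hne

/-- elements on different sides are not joined -/
theorem not_joined (hM : Rep M) {p q r : π} {h : SL(2, ℝ)} {μ : ℝˣ} (hf : Frame (M p) h μ)
    {lq lr : ℝ} (hq : Tendsto (fun n : ℕ => lq * bb M h (q ^ n)) atTop atTop)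
    (hr : Tendsto (fun n : ℕ => lr * bb M h (r ^ n)) atTop atTop) (hlt : lq * lr < 0) :
    ¬ Jn p q r := by
  rintro ⟨F, hF, hJ⟩
  obtain ⟨T, hT⟩ : ∃ T, ∀ f ∈ F, nsq (M f) ≤ T := by
    obtain ⟨T, hT⟩ := (hF.image fun f => nsq (M f)).bddAbove
    exact ⟨T, fun f hf => hT ⟨f, hf, rfl⟩⟩
  obtain ⟨N, hN⟩ := hJ {f | nsq (M f) ≤ nsq h * (1 + (max T 0) ^ 2 + (μ : ℝ) ^ 2)} (hM.disc _)
  have hT0 : 0 ≤ max T 0 := le_max_right _ _
  obtain ⟨n, hn1, hn2, hn3⟩ := ((hq.eventually_gt_atTop (|lq| * (max T 0))).and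
    ((hr.eventually_gt_atTop 0).and (eventually_ge_atTop N))).exists
  have hinv : ∀ y, Relation.ReflTransGen
      (Step F {f | nsq (M f) ≤ nsq h * (1 + (max T 0) ^ 2 + (μ : ℝ) ^ 2)} p) (q ^ n) y →
      0 < lq * bb M h y ∧ max T 0 < |bb M h y| := by
    intro y hy
    induction hy with
    | refl =>
      have h1 : |lq| * max T 0 < |lq| * |bb M h (q ^ n)| := by
        rw [← abs_mul]
        exact hn1.trans_le (le_abs_self _)
      refine ⟨(mul_nonneg (abs_nonneg _) hT0).trans_lt hn1, ?_⟩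
      exact lt_of_mul_lt_mul_left h1 (abs_nonneg _)
    | @tail y z _ hyz ih =>
      have h2 : max T 0 < |bb M h z| := by
        by_contra hc
        push Not at hc
        obtain ⟨i, f, hf1, hf2⟩ := mem_of_bb_le hM hf hc
        exact hyz.2 i f hf1 hf2
      refine ⟨?_, h2⟩
      have h3 : 0 < bb M h y * bb M h z := by
        by_contra hc
        push Not at hc
        have h4 : nsq ((h⁻¹ * M y)⁻¹ * (h⁻¹ * M z)) ≤ max T 0 := by
          rw [nsq_bb hM]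
          exact (hT _ hyz.1).trans (le_max_left _ _)
        have h5 := cross h4 hc
        have h6 := ih.2
        have : |pb (h⁻¹ * M y)| = |bb M h y| := rfl
        rw [this] at h5
        linarith
      have h7 : 0 < (lq * bb M h y) * (bb M h y * bb M h z) := mul_pos ih.1 h3
      have h8 : (lq * bb M h y) * (bb M h y * bb M h z) = (lq * bb M h z) * bb M h y ^ 2 := by ring
      rw [h8] at h7
      exact (pos_iff_pos_of_mul_pos h7).2 (by
        have : bb M h y ≠ 0 := by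
          intro h0
          rw [h0] at h3
          simp at h3
        positivity)
  have h9 := (hinv _ (hN n hn3)).1
  have h10 : 0 < (lq * bb M h (r ^ n)) * (lr * bb M h (r ^ n)) := mul_pos h9 hn2
  have h11 : (lq * bb M h (r ^ n)) * (lr * bb M h (r ^ n)) = lq * lr * bb M h (r ^ n) ^ 2 := by ring
  rw [h11] at h10
  nlinarith [sq_nonneg (bb M h (r ^ n))]

/-- elements on the same side are joined -/
theorem joined (hM : Rep M) {p q r : π} {h : SL(2, ℝ)} {μ : ℝˣ} (hf : Frame (M p) h μ)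
    {s : ℝ} (hq : Tendsto (fun n : ℕ => s * bb M h (q ^ n)) atTop atTop)
    (hr : Tendsto (fun n : ℕ => s * bb M h (r ^ n)) atTop atTop) (hs : s ≠ 0) :
    Jn p q r := by
  obtain ⟨C0, hC0⟩ := hM.cocpt
  obtain ⟨C, hC, hC2⟩ : ∃ C : ℝ, (∀ g : SL(2, ℝ), ∃ p, nsq ((M p)⁻¹ * g) ≤ C) ∧ 2 ≤ C :=
    ⟨max C0 2, fun g => (hC0 g).imp fun p hp => hp.trans (le_max_left _ _), le_max_right _ _⟩
  refine ⟨{f | nsq (M f) ≤ C * 3 * C}, hM.disc _, fun F' hF' => ?_⟩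
  obtain ⟨K, hK⟩ : ∃ K, ∀ f ∈ F', |bb M h f| ≤ K := by
    obtain ⟨K, hK⟩ := (hF'.image fun f => |bb M h f|).bddAbove
    exact ⟨K, fun f hf => hK ⟨f, hf, rfl⟩⟩
  -- the threshold
  obtain ⟨b0, hb0, hb1⟩ : ∃ b0 : ℝ, 0 < b0 ∧ s ^ 2 * (C ^ 2 * (1 + K ^ 2)) < b0 ^ 2 := by
    refine ⟨s ^ 2 * (C ^ 2 * (1 + K ^ 2)) + 1, by positivity, ?_⟩
    have : 0 ≤ s ^ 2 * (C ^ 2 * (1 + K ^ 2)) := by positivity
    nlinarith
  set Q : Set ℝ := {B | b0 ≤ s * B} with hQdef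
  have hQ : Q.OrdConnected := by
    constructor
    intro x hx y hy z hz
    simp only [hQdef, Set.mem_ofPred_eq] at hx hy ⊢
    rcases le_total 0 s with h0 | h0
    · nlinarith [hz.1]
    · nlinarith [hz.2]
  have hQ2 : ∀ B ∈ Q, C ^ 2 * (1 + K ^ 2) < B ^ 2 := by
    intro B hB
    simp only [hQdef, Set.mem_ofPred_eq] at hB
    have h1 : b0 ^ 2 ≤ (s * B) ^ 2 := pow_le_pow_left₀ hb0.le hB 2
    have h2 : s ^ 2 * (C ^ 2 * (1 + K ^ 2)) < s ^ 2 * B ^ 2 := by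
      rw [← mul_pow]; exact hb1.trans_le h1
    exact lt_of_mul_lt_mul_left h2 (by positivity)
  -- large `bb` avoids `⟨p⟩ F'`
  have havoid : ∀ y : π, K ^ 2 < bb M h y ^ 2 → ∀ i : ℤ, ∀ f ∈ F', y ≠ p ^ i * f := by
    intro y hy i f hff he
    rw [he, bb_zpow hM hf, ← sq_abs (bb M h f)] at hy
    have := hK f hff
    have := pow_le_pow_left₀ (abs_nonneg _) this 2
    linarith
  -- transfer of chains
  have htrans : ∀ g k, Relation.ReflTransGen (St Q) g k → ∀ x, nsq ((h⁻¹ * M x)⁻¹ * g) ≤ C →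
      ∃ y, nsq ((h⁻¹ * M y)⁻¹ * k) ≤ C ∧
        Relation.ReflTransGen (Step {f | nsq (M f) ≤ C * 3 * C} F' p) x y := by
    intro g k hgk x hx
    induction hgk with
    | refl => exact ⟨x, hx, Relation.ReflTransGen.refl⟩
    | @tail k k' _ hkk ih =>
      obtain ⟨y, hy1, hy2⟩ := ih
      obtain ⟨y', hy'⟩ := hC (h * k')
      have e1 : (M y')⁻¹ * (h * k') = (h⁻¹ * M y')⁻¹ * k' := by group
      rw [e1] at hy'
      refine ⟨y', hy', hy2.tail ⟨?_, ?_⟩⟩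
      · change nsq (M (y⁻¹ * y')) ≤ C * 3 * C
        rw [← nsq_bb hM h]
        have e2 : (h⁻¹ * M y)⁻¹ * (h⁻¹ * M y') =
            ((h⁻¹ * M y)⁻¹ * k) * (k⁻¹ * k') * ((h⁻¹ * M y')⁻¹ * k')⁻¹ := by group
        rw [e2]
        refine (nsq_mul_le _ _).trans ?_
        rw [nsq_inv]
        refine mul_le_mul ?_ hy' (nsq_nonneg _) (by positivity)
        refine (nsq_mul_le _ _).trans ?_
        exact mul_le_mul hy1 hkk.1 (nsq_nonneg _) (by positivity)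
      · apply havoid
        have h1 : nsq (k'⁻¹ * (h⁻¹ * M y')) ≤ C := by
          have e3 : k'⁻¹ * (h⁻¹ * M y') = ((h⁻¹ * M y')⁻¹ * k')⁻¹ := by group
          rw [e3, nsq_inv]; exact hy'
        have h2 := near h1
        have h3 := hQ2 _ hkk.2
        have h4 : C ^ 2 * (1 + K ^ 2) < C ^ 2 * (1 + bb M h y' ^ 2) := h3.trans_le h2
        have h5 := lt_of_mul_lt_mul_left h4 (by positivity)
        linarith
  obtain ⟨N1, hN1⟩ := eventually_atTop.1 (hq.eventually_ge_atTop b0)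
  obtain ⟨N2, hN2⟩ := eventually_atTop.1 (hr.eventually_ge_atTop b0)
  refine ⟨max N1 N2, fun n hn => ?_⟩
  have hqn := hN1 n ((le_max_left _ _).trans hn)
  have hrn := hN2 n ((le_max_right _ _).trans hn)
  have hch := chain hQ (g := h⁻¹ * M (q ^ n)) (k := h⁻¹ * M (r ^ n)) hqn hrn
  obtain ⟨y, hy1, hy2⟩ := htrans _ _ hch (q ^ n) (by
    rw [inv_mul_cancel]
    have : nsq (1 : SL(2, ℝ)) = 2 := by
      unfold nsq; simp; norm_num
    rw [this]; exact hC2)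
  refine hy2.tail ⟨?_, havoid _ ?_⟩
  · change nsq (M (y⁻¹ * r ^ n)) ≤ C * 3 * C
    rw [← nsq_bb hM h]
    refine hy1.trans ?_
    nlinarith
  · have h3 := hQ2 _ hrn
    have h4 : K ^ 2 ≤ C ^ 2 * (1 + K ^ 2) := by
      have : 1 ≤ C ^ 2 := by nlinarith
      nlinarith [sq_nonneg K]
    exact h4.trans_lt h3

end

end SideInv

open SideInv in
/-- Automorphisms of `π` preserve the relation `q` and `r` point to the same side of the axis of
`p`: `u₁, u₂` are the repelling and attracting directions of `p`, `v`, `w` the attracting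
directions of `q`, `r`; primed: the same for the images under `φ`. -/
theorem side_inv {π : Type*} [Group π] {M : π → SL(2, ℝ)} (hM : Rep M) (φ : MulAut π) {p q r : π}
    (hp : p ≠ 1)
    (hq : q ≠ 1) (hr : r ≠ 1) {u₁ u₂ v w u₁' u₂' v' w' : Fin 2 → ℝ}
    (h1 : IsDir (M p)⁻¹ u₁) (h2 : IsDir (M p) u₂) (hv : IsDir (M q) v) (hw : IsDir (M r) w)
    (h1' : IsDir (M (φ p))⁻¹ u₁') (h2' : IsDir (M (φ p)) u₂') (hv' : IsDir (M (φ q)) v')
    (hw' : IsDir (M (φ r)) w')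
    (hpos : 0 < det2 u₁ v * det2 v u₂ * (det2 u₁ w * det2 w u₂))
    (hne : det2 u₁' v' * det2 v' u₂' ≠ 0) (hne' : det2 u₁' w' * det2 w' u₂' ≠ 0) :
    0 < det2 u₁' v' * det2 v' u₂' * (det2 u₁' w' * det2 w' u₂') := by
  -- coordinates of `x` in the frame `h`
  have coords : ∀ {a b x : Fin 2 → ℝ} {h : SL(2, ℝ)} {δ : ℝ}, δ ≠ 0 → h 0 0 = a 0 → h 1 0 = a 1 →
      h 0 1 = b 0 / δ → h 1 1 = b 1 / δ →
      (h 1 1 * x 0 - h 0 1 * x 1) * (-h 1 0 * x 0 + h 0 0 * x 1) =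
        det2 a x * det2 x b / δ := by
    intro a b x h δ hδ e1 e2 e3 e4
    rw [e1, e2, e3, e4]
    unfold det2
    field_simp
    ring
  obtain ⟨h, μ, δ, hδ, hf, a00, a10, a01, a11⟩ := exists_frame h1 h2
  obtain ⟨h', μ', δ', hδ', hf', b00, b10, b01, b11⟩ := exists_frame h1' h2'
  have cv := coords (x := v) hδ a00 a10 a01 a11
  have cw := coords (x := w) hδ a00 a10 a01 a11
  have cv' := coords (x := v') hδ' b00 b10 b01 b11
  have cw' := coords (x := w') hδ' b00 b10 b01 b11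
  have hne1 : det2 u₁ v * det2 v u₂ ≠ 0 := left_ne_zero_of_mul hpos.ne'
  have hne2 : det2 u₁ w * det2 w u₂ ≠ 0 := right_ne_zero_of_mul hpos.ne'
  have tv := tendsto_bb hM hv (h := h) rfl rfl (by rw [cv]; exact div_ne_zero hne1 hδ)
  have tw := tendsto_bb hM hw (h := h) rfl rfl (by rw [cw]; exact div_ne_zero hne2 hδ)
  have tv' := tendsto_bb hM hv' (h := h') rfl rfl (by rw [cv']; exact div_ne_zero hne hδ')
  have tw' := tendsto_bb hM hw' (h := h') rfl rfl (by rw [cw']; exact div_ne_zero hne' hδ')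
  rw [cv] at tv
  rw [cw] at tw
  rw [cv'] at tv'
  rw [cw'] at tw'
  -- `q` and `r` are joined
  have hj : Jn p q r := by
    refine joined hM hf tv ?_ (div_ne_zero hne1 hδ)
    have hc : 0 < (det2 u₁ v * det2 v u₂) / (det2 u₁ w * det2 w u₂) := by
      rcases pos_and_pos_or_neg_and_neg_of_mul_pos hpos with ⟨h1, h2⟩ | ⟨h1, h2⟩
      · exact div_pos h1 h2
      · exact div_pos_of_neg_of_neg h1 h2
    have := tw.const_mul_atTop hc
    refine this.congr fun n => ?_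
    generalize det2 u₁ w * det2 w u₂ = a at hne2
    field_simp
  have hj' := hj.map φ
  by_contra hcon
  have hlt : det2 u₁' v' * det2 v' u₂' / δ' * (det2 u₁' w' * det2 w' u₂' / δ') < 0 := by
    have h3 : det2 u₁' v' * det2 v' u₂' * (det2 u₁' w' * det2 w' u₂') < 0 :=
      lt_of_le_of_ne (not_lt.1 hcon) (mul_ne_zero hne hne')
    have h4 : det2 u₁' v' * det2 v' u₂' / δ' * (det2 u₁' w' * det2 w' u₂' / δ') =
        det2 u₁' v' * det2 v' u₂' * (det2 u₁' w' * det2 w' u₂') / δ' ^ 2 := by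
      field_simp
    rw [h4]
    exact div_neg_of_neg_of_pos h3 (by positivity)
  exact not_joined hM hf' tv' tw' hlt hj'

end Pool.Agent.MP_e058c8_al
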