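import Pool.Agent.MP_e058c8_al.Defs

/-! Task K: `G` preserves crossing as soon as it preserves the sides of axes. -/

namespace Pool.Agent.MP_e058c8_al

namespace Sides

section Cyc

variable {E : Type*} {sb : E → E → E → Prop}

/-- cyclic order of integers -/
def cz (a b c : ℤ) : Prop := (a < b ∧ b < c) ∨ (b < c ∧ c < a) ∨ (c < a ∧ a < b)

theorem ne_of_sb (hc : CycOrd sb) {x y z : E} (h : sb x y z) : x ≠ y ∧ y ≠ z ∧ x ≠ z := by
  have key : ∀ a b : E, ¬ sb a b b := fun a b h => hc.asymm _ _ _ h h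
  refine ⟨?_, ?_, ?_⟩
  · rintro rfl
    exact key _ _ (hc.rot _ _ _ (hc.rot _ _ _ h))
  · rintro rfl
    exact key _ _ h
  · rintro rfl
    exact key _ _ (hc.rot _ _ _ h)

theorem sb_key (hc : CycOrd sb) {o a b c : E} (h1 : sb o a b) (h2 : sb o b c) : sb a b c := by
  have h3 : sb b c o := hc.rot _ _ _ h2
  have h4 : sb b o a := hc.rot _ _ _ (hc.rot _ _ _ h1)
  exact hc.rot _ _ _ (hc.rot _ _ _ (hc.trans _ _ _ _ h3 h4))

/-- finite cyclically ordered sets embed into `ℤ` -/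
theorem rank (hc : CycOrd sb) {n : ℕ} (v : Fin (n + 1) → E) : ∃ r : Fin (n + 1) → ℤ,
    (∀ i j, r i = r j ↔ v i = v j) ∧ (∀ i, r 0 ≤ r i) ∧
      (∀ j k, sb (v 0) (v j) (v k) ↔ r 0 < r j ∧ r j < r k) ∧
      (∀ i j, sb (v i) (v j) (v 0) ↔ r 0 < r i ∧ r i < r j) ∧
      ∀ i j k, sb (v i) (v j) (v k) ↔ cz (r i) (r j) (r k) := by
  classical
  set o := v 0
  let lt : E → E → Prop := fun x y => (x = o ∧ y ≠ o) ∨ sb o x y
  have lt_irrefl : ∀ x, ¬ lt x x := by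
    rintro x (h | h)
    · exact h.2 h.1
    · exact hc.asymm _ _ _ h h
  have lt_trans : ∀ x y z, lt x y → lt y z → lt x z := by
    rintro x y z (h | h) (h' | h')
    · exact absurd h'.1 h.2
    · exact Or.inl ⟨h.1, fun h3 => (ne_of_sb hc h').2.2 h3.symm⟩
    · exact absurd h'.1 (fun h3 => (ne_of_sb hc h).2.2 h3.symm)
    · exact Or.inr (hc.trans _ _ _ _ h h')
  have lt_total : ∀ x y, x ≠ y → lt x y ∨ lt y x := by
    intro x y hxy
    by_cases hx : x = o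
    · exact Or.inl (Or.inl ⟨hx, fun h => hxy (hx.trans h.symm)⟩)
    · by_cases hy : y = o
      · exact Or.inr (Or.inl ⟨hy, hx⟩)
      · rcases hc.total o x y (Ne.symm hx) hxy (Ne.symm hy) with h | h
        · exact Or.inl (Or.inr h)
        · exact Or.inr (Or.inr h)
  have lt_sb : ∀ x y z, lt x y → lt y z → sb x y z := by
    rintro x y z (h | h) (h' | h')
    · exact absurd h'.1 h.2
    · rw [h.1]; exact h'
    · exact absurd h'.1 (fun h3 => (ne_of_sb hc h).2.2 h3.symm)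
    · exact sb_key hc h h'
  let r : Fin (n + 1) → ℤ := fun i => ((Finset.univ.filter (fun j => lt (v j) (v i))).card : ℤ)
  have hr : ∀ i j, lt (v i) (v j) → r i < r j := by
    intro i j hij
    have : (Finset.univ.filter (fun k => lt (v k) (v i))) ⊂
        (Finset.univ.filter (fun k => lt (v k) (v j))) := by
      rw [Finset.ssubset_iff_of_subset]
      · exact ⟨i, by simp [hij], by simp [lt_irrefl]⟩
      · intro k hk
        simp only [Finset.mem_filter, Finset.mem_univ, true_and] at hk ⊢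
        exact lt_trans _ _ _ hk hij
    exact Int.ofNat_lt.2 (Finset.card_lt_card this)
  have heq : ∀ i j, r i = r j ↔ v i = v j := by
    intro i j
    constructor
    · intro h
      by_contra hne
      rcases lt_total _ _ hne with h1 | h1
      · exact absurd h (hr _ _ h1).ne
      · exact absurd h (hr _ _ h1).ne'
    · intro h
      simp only [r, h]
  have hr' : ∀ i j, r i < r j → lt (v i) (v j) := by
    intro i j h
    rcases lt_total (v i) (v j) (fun h1 => h.ne ((heq i j).2 h1)) with h1 | h1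
    · exact h1
    · exact absurd (hr _ _ h1) (not_lt.2 h.le)
  have hbot : ∀ i, r 0 ≤ r i := by
    intro i
    by_cases h : v i = v 0
    · exact ((heq i 0).2 h).ge
    · exact (hr 0 i (Or.inl ⟨rfl, h⟩)).le
  have hmain : ∀ i j k, sb (v i) (v j) (v k) ↔ cz (r i) (r j) (r k) := by
    refine fun i j k => ⟨fun h => ?_, ?_⟩
    · obtain ⟨h1, h2, h3⟩ := ne_of_sb hc h
      have e1 : r i ≠ r j := fun h' => h1 ((heq _ _).1 h')
      have e2 : r j ≠ r k := fun h' => h2 ((heq _ _).1 h')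
      have e3 : r i ≠ r k := fun h' => h3 ((heq _ _).1 h')
      by_contra hcon
      have hcz : cz (r i) (r k) (r j) := by
        unfold cz at hcon ⊢
        omega
      rcases hcz with h' | h' | h'
      · exact hc.asymm _ _ _ h (lt_sb _ _ _ (hr' _ _ h'.1) (hr' _ _ h'.2))
      · have := lt_sb _ _ _ (hr' _ _ h'.1) (hr' _ _ h'.2)
        exact hc.asymm _ _ _ h (hc.rot _ _ _ (hc.rot _ _ _ this))
      · have := lt_sb _ _ _ (hr' _ _ h'.1) (hr' _ _ h'.2)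
        exact hc.asymm _ _ _ h (hc.rot _ _ _ this)
    · rintro (h' | h' | h')
      · exact lt_sb _ _ _ (hr' _ _ h'.1) (hr' _ _ h'.2)
      · have := lt_sb _ _ _ (hr' _ _ h'.1) (hr' _ _ h'.2)
        exact hc.rot _ _ _ (hc.rot _ _ _ this)
      · have := lt_sb _ _ _ (hr' _ _ h'.1) (hr' _ _ h'.2)
        exact hc.rot _ _ _ this
  refine ⟨r, heq, hbot, fun j k => ?_, fun i j => ?_, hmain⟩
  · rw [hmain]
    have := hbot j
    have := hbot k
    unfold cz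
    omega
  · rw [hmain]
    have := hbot i
    have := hbot j
    unfold cz
    omega

/-- left and right sides are disjoint -/
theorem lr_disj (hc : CycOrd sb) {m p x : E} (h1 : sb m x p) (h2 : sb p x m) : False :=
  hc.asymm _ _ _ h1 (hc.rot _ _ _ (hc.rot _ _ _ h2))

theorem mid (hc : CycOrd sb) {m p c d : E} (h1 : sb m c p) (h2 : sb p d m) : sb c p d :=
  sb_key hc h1 (hc.rot _ _ _ (hc.rot _ _ _ h2))

theorem midL (hc : CycOrd sb) {m p c d q : E} (hd : sb p d m) (hq : sb m q p)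
    (h : sb m c q) : sb c q d := by
  obtain ⟨r, -, hb, h0, h2, hr⟩ := rank hc ![m, p, c, d, q]
  have e2 := (h2 1 3).1 hd
  have e3 := (h0 4 1).1 hq
  have e4 := (h0 2 4).1 h
  exact (hr 2 4 3).2 (Or.inl ⟨by omega, by omega⟩)

theorem midR (hc : CycOrd sb) {m p c d q : E} (h1 : sb m c p) (hq : sb p q m)
    (h : sb p q d) (hd : sb p d m) : sb c q d := by
  obtain ⟨r, -, hb, h0, h2, hr⟩ := rank hc ![m, p, c, d, q]
  have e1 := (h0 2 1).1 h1
  have e3 := (h2 1 4).1 hq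
  have e5 := (h2 1 3).1 hd
  have e4 := (hr 1 4 3).1 h
  have e6 : r 4 < r 3 := by
    unfold cz at e4
    omega
  exact (hr 2 4 3).2 (Or.inl ⟨by omega, by omega⟩)

theorem outL (hc : CycOrd sb) {m p c d q : E} (h1 : sb m c p) (h2 : sb p d m) (hq : sb m q p)
    (h : ¬ sb d q c) : q = c ∨ sb m c q := by
  obtain ⟨r, hi, hb, h0, h2', hr⟩ := rank hc ![m, p, c, d, q]
  have e1 := (h0 2 1).1 h1
  have e2 := (h2' 1 3).1 h2
  have e3 := (h0 4 1).1 hq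
  rcases lt_trichotomy (r 4) (r 2) with k | k | k
  · exact absurd ((hr 3 4 2).2 (Or.inr (Or.inl ⟨k, by omega⟩))) h
  · exact Or.inl ((hi 4 2).1 k)
  · exact Or.inr ((h0 2 4).2 ⟨e1.1, k⟩)

theorem outR (hc : CycOrd sb) {m p c d q : E} (h1 : sb m c p) (h2 : sb p d m) (hq : sb p q m)
    (h : ¬ sb d q c) : q = d ∨ sb p q d := by
  obtain ⟨r, hi, hb, h0, h2', hr⟩ := rank hc ![m, p, c, d, q]
  have e1 := (h0 2 1).1 h1
  have e2 := (h2' 1 3).1 h2
  have e3 := (h2' 1 4).1 hq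
  rcases lt_trichotomy (r 4) (r 3) with k | k | k
  · exact Or.inr ((hr 1 4 3).2 (Or.inl ⟨e3.2, k⟩))
  · exact Or.inl ((hi 4 3).1 k)
  · exact absurd ((hr 3 4 2).2 (Or.inr (Or.inr ⟨by omega, k⟩))) h

theorem shrinkL (hc : CycOrd sb) {m p s t c0 : E} (hst : sb s p t) (h0 : sb m c0 p) :
    ∃ c, sb m c p ∧ ∀ q, sb c q p → sb s q p := by
  by_cases h : sb m s p
  · exact ⟨s, h, fun q hq => hq⟩
  · refine ⟨c0, h0, fun q hq => ?_⟩
    -- base point `p`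
    obtain ⟨r, hi, hb, k0, k2, hr⟩ := rank hc ![p, m, s, c0, q]
    have e2 := (k2 1 3).1 h0
    have e3 := (k2 3 4).1 hq
    have e4 : ¬ (r 0 < r 1 ∧ r 1 < r 2) := fun h' => h ((k2 1 2).2 h')
    have e5 : r 2 ≠ r 0 := fun h' => (ne_of_sb hc hst).1 ((hi 2 0).1 h')
    have e6 := hb 2
    exact (k2 2 4).2 ⟨by omega, by omega⟩

theorem shrinkR (hc : CycOrd sb) {m p s t d0 : E} (hst : sb s p t) (h0 : sb p d0 m) :
    ∃ d, sb p d m ∧ ∀ q, sb p q d → sb p q t := by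
  by_cases h : sb p t m
  · exact ⟨t, h, fun q hq => hq⟩
  · refine ⟨d0, h0, fun q hq => ?_⟩
    obtain ⟨r, hi, hb, k0, k2, hr⟩ := rank hc ![p, m, t, d0, q]
    have e2 := (k0 3 1).1 h0
    have e3 := (k0 4 3).1 hq
    have e4 : ¬ (r 0 < r 2 ∧ r 2 < r 1) := fun h' => h ((k0 2 1).2 h')
    have e5 : r 2 ≠ r 0 := fun h' => (ne_of_sb hc hst).2.1 ((hi 2 0).1 h').symm
    have e6 := hb 2
    exact (k0 4 2).2 ⟨by omega, by omega⟩

/-- an arc around `p` contains an arc around `p` with end points on both sides of `{m,p}` -/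
theorem shrink (hc : CycOrd sb) {m p s t c0 d0 : E} (hst : sb s p t) (hc0 : sb m c0 p)
    (hd0 : sb p d0 m) : ∃ c d, sb m c p ∧ sb p d m ∧ ∀ q, sb c q d → sb s q t := by
  obtain ⟨c, h1, h2⟩ := shrinkL hc hst hc0
  obtain ⟨d, h3, h4⟩ := shrinkR hc hst hd0
  refine ⟨c, d, h1, h3, fun q hq => ?_⟩
  have h5 : sb c p d := mid hc h1 h3
  by_cases e : q = p
  · rw [e]; exact hst
  have hcases : sb c q p ∨ sb p q d := by
    obtain ⟨r, hi, hb, k0, k2, hr⟩ := rank hc ![c, p, d, q]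
    have e1 := (k0 1 2).1 h5
    have e2 := (k0 3 2).1 hq
    rcases lt_trichotomy (r 3) (r 1) with k | k | k
    · exact Or.inl ((k0 3 1).2 ⟨e2.1, k⟩)
    · exact absurd ((hi 3 1).1 k) e
    · exact Or.inr ((hr 1 3 2).2 (Or.inl ⟨k, e2.2⟩))
  rcases hcases with k | k
  · exact hc.trans _ _ _ _ (h2 q k) hst
  · have k1 := h4 q k
    have k2 : sb p t s := hc.rot _ _ _ hst
    exact hc.rot _ _ _ (hc.rot _ _ _ (sb_key hc k1 k2))

/-- if `x,y` are on one side and `z,w` on the other side then `xy` and `zw` do not cross -/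
theorem not_cr (hc : CycOrd sb) {m p x y z w : E} (hx : sb m x p) (hy : sb m y p)
    (hz : sb p z m) (hw : sb p w m) : ¬ Cr sb x y z w := by
  have key : ∀ a b c : E, sb m a p → sb m b p → sb p c m → sb a c b → sb m b a := by
    intro a b c ha hb' hc' h
    obtain ⟨r, -, hb, k0, k2, hr⟩ := rank hc ![m, p, a, b, c]
    have e1 := (k0 2 1).1 ha
    have e2 := (k0 3 1).1 hb'
    have e3 := (k2 1 4).1 hc'
    have e4 := (hr 2 4 3).1 h
    refine (k0 3 2).2 ⟨e2.1, ?_⟩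
    unfold cz at e4
    omega
  rintro (⟨h1, h2⟩ | ⟨h1, h2⟩)
  · exact hc.asymm _ _ _ (key _ _ _ hx hy hz h1) (key _ _ _ hy hx hw h2)
  · exact hc.asymm _ _ _ (key _ _ _ hx hy hw h1) (key _ _ _ hy hx hz h2)

end Cyc

section Main

variable {G : Type*} {E : Type*} [Group G] [MulAction G E] {P : Subgroup G}
  {sb : E → E → E → Prop} {at' : G → E}

theorem sb_iff (hC : CS0 P sb at') {p : G} (hp : p ∈ P) {x y z : E} :
    sb (p • x) (p • y) (p • z) ↔ sb x y z := by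
  refine ⟨fun h => ?_, hC.sbP p hp x y z⟩
  have := hC.sbP p⁻¹ (P.inv_mem hp) _ _ _ h
  simpa using this

theorem fix_at (hC : CS0 P sb at') {p : G} (hp : p ∈ P) (hp1 : p ≠ 1) : p • at' p = at' p := by
  have := hC.smul_at p p hp hp1
  simpa using this

theorem fix_at_inv (hC : CS0 P sb at') {p : G} (hp : p ∈ P) (hp1 : p ≠ 1) :
    p • at' p⁻¹ = at' p⁻¹ := by
  have := hC.smul_at p p⁻¹ (P.inv_mem hp) (inv_ne_one.2 hp1)
  simpa using this

theorem pow_fix_at (hC : CS0 P sb at') {p : G} (hp : p ∈ P) (hp1 : p ≠ 1) (n : ℕ) :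
    p ^ n • at' p = at' p := by
  induction n with
  | zero => simp
  | succ n ih => rw [pow_succ, mul_smul, fix_at hC hp hp1, ih]

theorem pow_fix_at_inv (hC : CS0 P sb at') {p : G} (hp : p ∈ P) (hp1 : p ≠ 1) (n : ℕ) :
    p ^ n • at' p⁻¹ = at' p⁻¹ := by
  induction n with
  | zero => simp
  | succ n ih => rw [pow_succ, mul_smul, fix_at_inv hC hp hp1, ih]

theorem pow_L (hC : CS0 P sb at') {p : G} (hp : p ∈ P) (hp1 : p ≠ 1) (n : ℕ) {x : E}
    (hx : sb (at' p⁻¹) x (at' p)) : sb (at' p⁻¹) (p ^ n • x) (at' p) := by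
  have := hC.sbP (p ^ n) (P.pow_mem hp n) _ _ _ hx
  rwa [pow_fix_at hC hp hp1, pow_fix_at_inv hC hp hp1] at this

theorem pow_R (hC : CS0 P sb at') {p : G} (hp : p ∈ P) (hp1 : p ≠ 1) (n : ℕ) {x : E}
    (hx : sb (at' p) x (at' p⁻¹)) : sb (at' p) (p ^ n • x) (at' p⁻¹) := by
  have := hC.sbP (p ^ n) (P.pow_mem hp n) _ _ _ hx
  rwa [pow_fix_at hC hp hp1, pow_fix_at_inv hC hp hp1] at this

theorem archL (hC : CS0 P sb at') {p : G} (hp : p ∈ P) (hp1 : p ≠ 1) {x y : E}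
    (hx : sb (at' p⁻¹) x (at' p)) (hy : sb (at' p⁻¹) y (at' p)) :
    ∃ N : ℕ, ∀ n, N ≤ n → sb (at' p⁻¹) y (p ^ n • x) := by
  obtain ⟨N, hN⟩ := hC.arch p hp hp1 x y hx hy
  refine ⟨N, fun n hn => ?_⟩
  induction n, hn using Nat.le_induction with
  | base => exact hN
  | succ n _ ih =>
    have := hC.move p hp hp1 _ (pow_L hC hp hp1 n hx)
    rw [← mul_smul, ← pow_succ'] at this
    exact hC.cyc.trans _ _ _ _ ih this

theorem archR (hC : CS0 P sb at') {p : G} (hp : p ∈ P) (hp1 : p ≠ 1) {x y : E}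
    (hx : sb (at' p) x (at' p⁻¹)) (hy : sb (at' p) y (at' p⁻¹)) :
    ∃ N : ℕ, ∀ n, N ≤ n → sb (at' p) (p ^ n • x) y := by
  obtain ⟨N, hN⟩ := archL hC (P.inv_mem hp) (inv_ne_one.2 hp1) (x := y) (y := x)
    (by rwa [inv_inv]) (by rwa [inv_inv])
  refine ⟨N, fun n hn => ?_⟩
  have := hC.sbP (p ^ n) (P.pow_mem hp n) _ _ _ (hN n hn)
  rw [inv_inv, pow_fix_at hC hp hp1] at this
  simpa using this

/-- every other point is on one of the two sides -/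
theorem sides (hC : CS0 P sb at') {p : G} (hp : p ∈ P) (hp1 : p ≠ 1) {q : E}
    (h1 : q ≠ at' p) (h2 : q ≠ at' p⁻¹) :
    sb (at' p⁻¹) q (at' p) ∨ sb (at' p) q (at' p⁻¹) := by
  rcases hC.cyc.total (at' p⁻¹) q (at' p) h2.symm h1 (hC.at_ne p hp hp1) with h | h
  · exact Or.inl h
  · exact Or.inr (hC.cyc.rot _ _ _ h)

/-- uniform contraction -/
theorem contract (hC : CS0 P sb at') {p : G} (hp : p ∈ P) (hp1 : p ≠ 1) {c c' d d' : E}
    (hc : sb (at' p⁻¹) c (at' p)) (hc' : sb (at' p⁻¹) c' (at' p))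
    (hd : sb (at' p) d (at' p⁻¹)) (hd' : sb (at' p) d' (at' p⁻¹)) :
    ∃ N : ℕ, ∀ n, N ≤ n → ∀ q, ¬ sb d' q c' → sb c (p ^ n • q) d := by
  obtain ⟨N1, h1⟩ := archL hC hp hp1 hc' hc
  obtain ⟨N2, h2⟩ := archR hC hp hp1 hd' hd
  refine ⟨max N1 N2, fun n hn q hq => ?_⟩
  have k1 := h1 n ((le_max_left _ _).trans hn)
  have k2 := h2 n ((le_max_right _ _).trans hn)
  by_cases e1 : q = at' p
  · rw [e1, pow_fix_at hC hp hp1]
    exact mid hC.cyc hc hd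
  by_cases e2 : q = at' p⁻¹
  · exact absurd (e2 ▸ mid hC.cyc hd' hc') hq
  rcases sides hC hp hp1 e1 e2 with hL | hR
  · refine midL hC.cyc hd (pow_L hC hp hp1 n hL) ?_
    rcases outL hC.cyc hc' hd' hL hq with h | h
    · rw [h]; exact k1
    · have := hC.sbP (p ^ n) (P.pow_mem hp n) _ _ _ h
      rw [pow_fix_at_inv hC hp hp1] at this
      exact hC.cyc.trans _ _ _ _ k1 this
  · refine midR hC.cyc hc (pow_R hC hp hp1 n hR) ?_ hd
    rcases outR hC.cyc hc' hd' hR hq with h | h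
    · rw [h]; exact k2
    · have := hC.sbP (p ^ n) (P.pow_mem hp n) _ _ _ h
      rw [pow_fix_at hC hp hp1] at this
      exact hC.cyc.trans _ _ _ _ this k2

theorem sideR (hC : CS0 P sb at') {p : G} (hp : p ∈ P) (hp1 : p ≠ 1) :
    ∃ x, sb (at' p) x (at' p⁻¹) := by
  obtain ⟨x, hx⟩ := hC.side p⁻¹ (P.inv_mem hp) (inv_ne_one.2 hp1)
  exact ⟨x, by rwa [inv_inv] at hx⟩

/-- density -/
theorem dense (hC : CS0 P sb at') {x y : E} (hxy : x ≠ y) : ∃ z, sb x z y := by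
  obtain ⟨q, hq, hq1, rfl⟩ := hC.exists_at x
  set p := q⁻¹ with hpdef
  have hp : p ∈ P := P.inv_mem hq
  have hp1 : p ≠ 1 := inv_ne_one.2 hq1
  have hqp : q = p⁻¹ := by simp [hpdef]
  rw [hqp] at hxy ⊢
  obtain ⟨z0, hz0⟩ := hC.side p hp hp1
  by_cases e1 : y = at' p
  · exact ⟨z0, e1 ▸ hz0⟩
  rcases sides hC hp hp1 e1 hxy.symm with h | h
  · obtain ⟨n, hn⟩ := archL hC hp hp1 h hz0
    have h3 := hn n le_rfl
    have h4 := hC.sbP (p ^ n)⁻¹ (P.inv_mem (P.pow_mem hp n)) _ _ _ h3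
    rw [inv_smul_smul, inv_smul_eq_iff.2 (pow_fix_at_inv hC hp hp1 n).symm] at h4
    exact ⟨_, h4⟩
  · exact ⟨at' p, hC.cyc.rot _ _ _ (hC.cyc.rot _ _ _ h)⟩

/-- convergence to the attracting point -/
theorem conv (hC : CS0 P sb at') {p : G} (hp : p ∈ P) (hp1 : p ≠ 1) {q s t : E}
    (hq : q ≠ at' p⁻¹) (hst : sb s (at' p) t) : ∃ N : ℕ, ∀ n, N ≤ n → sb s (p ^ n • q) t := by
  obtain ⟨c0, hc0⟩ := hC.side p hp hp1
  obtain ⟨d0, hd0⟩ := sideR hC hp hp1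
  obtain ⟨c, d, hc, hd, hcd⟩ := shrink hC.cyc hst hc0 hd0
  obtain ⟨s', hs'⟩ := dense hC hq
  obtain ⟨t', ht'⟩ := dense hC hq.symm
  have hst' : sb s' (at' p⁻¹) t' := mid hC.cyc hs' ht'
  obtain ⟨d', c', hd', hc', hcd'⟩ := shrink hC.cyc hst' hd0 hc0
  obtain ⟨N, hN⟩ := contract hC hp hp1 hc hc' hd hd'
  refine ⟨N, fun n hn => hcd _ (hN n hn q (fun h => ?_))⟩
  have h1 := hcd' _ h
  obtain ⟨r, -, hb, k0, k2, hr⟩ := rank hC.cyc ![q, at' p⁻¹, s', t']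
  have e1 := (k0 2 1).1 hs'
  have e2 := (k2 1 3).1 ht'
  have e3 := (k0 3 2).1 (hC.cyc.rot _ _ _ h1)
  omega

/-- If `u` maps the complement of the arc `(w,x)` into the disjoint arc `(y,z)` then the ends of
the axis of `u` are in these arcs. -/
theorem ends_of_map (hC : CS0 P sb at') {u : G} (hu : u ∈ P) {x y z w : E} (h1 : sb x y z)
    (h2 : sb x z w) (hm : ∀ q, ¬ sb w q x → sb y (u • q) z) :
    u ≠ 1 ∧ sb y (at' u) z ∧ sb w (at' u⁻¹) x := by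
  have disj : ∀ q, sb y q z → sb w q x → False := by
    intro q k1 k2
    obtain ⟨r, -, hb, k0', k2', hr⟩ := rank hC.cyc ![x, y, z, w, q]
    have e1 := (k0' 1 2).1 h1
    have e2 := (k0' 2 3).1 h2
    have e3 := (hr 1 4 2).1 k1
    have e4 := (k2' 3 4).1 k2
    unfold cz at e3
    omega
  have hxJ : ¬ sb w x x := fun h => hC.cyc.asymm _ _ _ h h
  have hxI : ¬ sb y x z := by
    intro h
    exact hC.cyc.asymm _ _ _ h1 (hC.cyc.rot _ _ _ h)
  have hu1 : u ≠ 1 := by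
    rintro rfl
    have := hm x hxJ
    rw [one_smul] at this
    exact hxI this
  have hin : ∀ q, u • q = q → sb y q z ∨ sb w q x := by
    intro q hq
    by_cases h : sb w q x
    · exact Or.inr h
    · have := hm q h
      rw [hq] at this
      exact Or.inl this
  have hx1 : x ≠ at' u := by
    rintro h
    rcases hin (at' u) (fix_at hC hu hu1) with h' | h'
    · rw [← h] at h'; exact hxI h'
    · rw [← h] at h'; exact hxJ h'
  have hx2 : x ≠ at' u⁻¹ := by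
    rintro h
    rcases hin (at' u⁻¹) (fix_at_inv hC hu hu1) with h' | h'
    · rw [← h] at h'; exact hxI h'
    · rw [← h] at h'; exact hxJ h'
  have hfw : ∀ n : ℕ, sb y (u ^ (n + 1) • x) z := by
    intro n
    induction n with
    | zero => simpa using hm x hxJ
    | succ n ih =>
      rw [pow_succ', mul_smul]
      exact hm _ (fun h => disj _ ih h)
  have hm' : ∀ q, ¬ sb y q z → sb w (u⁻¹ • q) x := by
    intro q hq
    by_contra h
    have := hm _ h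
    rw [smul_inv_smul] at this
    exact hq this
  have hbw : ∀ n : ℕ, sb w (u⁻¹ ^ (n + 1) • x) x := by
    intro n
    induction n with
    | zero => simpa using hm' x hxI
    | succ n ih =>
      rw [pow_succ', mul_smul]
      exact hm' _ (fun h => disj _ h ih)
  refine ⟨hu1, ?_, ?_⟩
  · rcases hin (at' u) (fix_at hC hu hu1) with h | h
    · exact h
    · obtain ⟨N, hN⟩ := conv hC hu hu1 hx2 h
      exact (disj _ (hfw N) (hN (N + 1) (Nat.le_succ N))).elim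
  · rcases hin (at' u⁻¹) (fix_at_inv hC hu hu1) with h | h
    · obtain ⟨N, hN⟩ := conv hC (P.inv_mem hu) (inv_ne_one.2 hu1) (q := x)
        (by rwa [inv_inv]) h
      exact (disj _ (hN (N + 1) (Nat.le_succ N)) (hbw N)).elim
    · exact h

/-- an element with a common end point has the same axis -/
theorem share (hC : CS0 P sb at') {p q : G} (hp : p ∈ P) (hp1 : p ≠ 1) (hq : q ∈ P) (hq1 : q ≠ 1)
    (h : at' p = at' q) : at' p⁻¹ = at' q⁻¹ := by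
  obtain ⟨r, hr, hr1, hrp, hroot⟩ := hC.root p hp hp1
  have key : ∀ s ∈ P, s ≠ 1 → s • at' p = at' p → at' s = at' p → at' s⁻¹ = at' r⁻¹ := by
    intro s hs hs1 hfix hat
    obtain ⟨k, hk⟩ := hroot s hs hfix
    have hk' : r ^ k = s := hk
    rcases lt_trichotomy k 0 with h0 | h0 | h0
    · exfalso
      obtain ⟨m, rfl⟩ : ∃ m : ℕ, k = -(m : ℤ) := ⟨k.natAbs, by omega⟩
      have hm : 0 < m := by omega
      have e1 : s = (r⁻¹) ^ m := by rw [← hk', zpow_neg, zpow_natCast, inv_pow]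
      have e2 := hC.at_pow r⁻¹ (P.inv_mem hr) (inv_ne_one.2 hr1) m hm
      rw [← e1, hat, ← hrp] at e2
      exact hC.at_ne r hr hr1 e2.symm
    · exfalso
      rw [h0, zpow_zero] at hk'
      exact hs1 hk'.symm
    · obtain ⟨m, rfl⟩ : ∃ m : ℕ, k = (m : ℤ) := ⟨k.natAbs, by omega⟩
      have hm : 0 < m := by omega
      have e1 : s⁻¹ = (r⁻¹) ^ m := by rw [← hk', zpow_natCast, inv_pow]
      rw [e1]
      exact hC.at_pow r⁻¹ (P.inv_mem hr) (inv_ne_one.2 hr1) m hm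
  have k1 := key p hp hp1 (fix_at hC hp hp1) rfl
  have k2 := key q hq hq1 (by rw [h]; exact fix_at hC hq hq1) h.symm
  rw [k1, k2]

/-- elements with one end point in each of two disjoint arcs -/
theorem exists_ends (hC : CS0 P sb at') {x y z w : E} (h1 : sb x y z) (h2 : sb x z w) :
    ∃ u ∈ P, u ≠ 1 ∧ sb y (at' u) z ∧ sb w (at' u⁻¹) x := by
  obtain ⟨α, hα⟩ := dense hC (ne_of_sb hC.cyc h1).2.1
  obtain ⟨β, hβ⟩ := dense hC (ne_of_sb hC.cyc h2).2.2.symm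
  obtain ⟨v, hv, hv1, rfl⟩ := hC.exists_at α
  obtain ⟨b, hb, hb1, rfl⟩ := hC.exists_at β
  by_cases hcase : at' v⁻¹ = at' b
  · exact ⟨v, hv, hv1, hα, by rw [hcase]; exact hβ⟩
  have hvi := P.inv_mem hv
  have hvi1 := inv_ne_one.2 hv1
  have hbi := P.inv_mem hb
  have hbi1 := inv_ne_one.2 hb1
  have hab : at' v ≠ at' b := by
    intro h
    rw [← h] at hβ
    obtain ⟨r, -, hb', k0', k2', hr⟩ := rank hC.cyc ![x, y, z, w, at' v]
    have e1 := (k0' 1 2).1 h1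
    have e2 := (k0' 2 3).1 h2
    have e3 := (hr 1 4 2).1 hα
    have e4 := (k2' 3 4).1 hβ
    unfold cz at e3
    omega
  have hne : at' v⁻¹ ≠ at' b⁻¹ := by
    intro h
    have := share hC hvi hvi1 hbi hbi1 h
    rw [inv_inv, inv_inv] at this
    exact hab this
  -- arcs around `v⁻` and `b⁻`
  obtain ⟨s, hs⟩ := dense hC hne
  obtain ⟨t, ht⟩ := dense hC hne.symm
  have hK1 : sb s (at' b⁻¹) t := mid hC.cyc hs ht
  have hK2 : sb t (at' v⁻¹) s := mid hC.cyc ht hs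
  obtain ⟨cv, hcv⟩ := hC.side v hv hv1
  obtain ⟨dv, hdv⟩ := sideR hC hv hv1
  obtain ⟨cb, hcb⟩ := hC.side b hb hb1
  obtain ⟨db, hdb⟩ := sideR hC hb hb1
  obtain ⟨c1, d1, hc1, hd1, hcd1⟩ := shrink hC.cyc hα hcv hdv
  obtain ⟨d1', c1', hd1', hc1', hcd1'⟩ := shrink hC.cyc hK2 hdv hcv
  obtain ⟨d2', c2', hd2', hc2', hcd2'⟩ := shrink hC.cyc hβ hcb hdb
  obtain ⟨c2, d2, hc2, hd2, hcd2⟩ := shrink hC.cyc hK1 hdb hcb
  obtain ⟨N1, hN1⟩ := contract hC hv hv1 hc1 hc1' hd1 hd1'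
  obtain ⟨N2, hN2⟩ := contract hC hbi hbi1 (c := c2) (d := d2) (c' := c2') (d' := d2')
    (by rwa [inv_inv]) (by rwa [inv_inv]) (by rwa [inv_inv]) (by rwa [inv_inv])
  have hmap : ∀ q, ¬ sb w q x → sb y ((v ^ N1 * b⁻¹ ^ N2) • q) z := by
    intro q hq
    have k1 : sb c2 (b⁻¹ ^ N2 • q) d2 := hN2 N2 le_rfl q (fun h => hq (hcd2' _ h))
    have k2 : sb s (b⁻¹ ^ N2 • q) t := hcd2 _ k1
    have k3 : ¬ sb d1' (b⁻¹ ^ N2 • q) c1' := by
      intro h
      have k4 := hcd1' _ h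
      exact lr_disj hC.cyc k2 k4
    rw [mul_smul]
    exact hcd1 _ (hN1 N1 le_rfl _ k3)
  exact ⟨v ^ N1 * b⁻¹ ^ N2, P.mul_mem (P.pow_mem hv _) (P.pow_mem hbi _),
    ends_of_map hC (P.mul_mem (P.pow_mem hv _) (P.pow_mem hbi _)) h1 h2 hmap⟩

theorem sep_aux (hC : CS0 P sb at') {x y z w : E} (h1 : sb x y z) (h2 : sb x z w) :
    ∃ p ∈ P, p ≠ 1 ∧ (sb (at' p⁻¹) x (at' p) ∧ sb (at' p⁻¹) y (at' p)) ∧
      (sb (at' p) z (at' p⁻¹) ∧ sb (at' p) w (at' p⁻¹)) := by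
  obtain ⟨u, hu, hu1, k1, k2⟩ := exists_ends hC h1 h2
  refine ⟨u, hu, hu1, ?_⟩
  obtain ⟨r, -, hb, k0', k2', hr⟩ := rank hC.cyc ![x, y, z, w, at' u, at' u⁻¹]
  have e1 := (k0' 1 2).1 h1
  have e2 := (k0' 2 3).1 h2
  have e3 := (hr 1 4 2).1 k1
  have e4 := (k2' 3 5).1 k2
  have e5 : r 1 < r 4 ∧ r 4 < r 2 := by
    unfold cz at e3
    omega
  refine ⟨⟨(hr 5 0 4).2 (Or.inr (Or.inl ⟨by omega, by omega⟩)),
    (hr 5 1 4).2 (Or.inr (Or.inl ⟨by omega, by omega⟩))⟩,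
    (hr 4 2 5).2 (Or.inl ⟨by omega, by omega⟩), (hr 4 3 5).2 (Or.inl ⟨by omega, by omega⟩)⟩

/-- disjoint chords are separated by an axis -/
theorem sep (hC : CS0 P sb at') {x y z w : E} (hxy : x ≠ y) (hxz : x ≠ z) (hxw : x ≠ w)
    (hyz : y ≠ z) (hyw : y ≠ w) (hzw : z ≠ w) (h : ¬ Cr sb x y z w) :
    ∃ p ∈ P, p ≠ 1 ∧ (sb (at' p⁻¹) x (at' p) ∧ sb (at' p⁻¹) y (at' p)) ∧
      (sb (at' p) z (at' p⁻¹) ∧ sb (at' p) w (at' p⁻¹)) := by
  obtain ⟨r, hi, hb, k0, k2, hr⟩ := rank hC.cyc ![x, y, z, w]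
  have n1 : r 0 ≠ r 1 := fun h => hxy ((hi 0 1).1 h)
  have n2 : r 0 ≠ r 2 := fun h => hxz ((hi 0 2).1 h)
  have n3 : r 0 ≠ r 3 := fun h => hxw ((hi 0 3).1 h)
  have n4 : r 1 ≠ r 2 := fun h => hyz ((hi 1 2).1 h)
  have n5 : r 1 ≠ r 3 := fun h => hyw ((hi 1 3).1 h)
  have n6 : r 2 ≠ r 3 := fun h => hzw ((hi 2 3).1 h)
  have l1 : r 0 < r 1 := lt_of_le_of_ne (hb 1) n1
  have l2 : r 0 < r 2 := lt_of_le_of_ne (hb 2) n2
  have l3 : r 0 < r 3 := lt_of_le_of_ne (hb 3) n3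
  rcases lt_or_gt_of_ne n4 with a | a <;> rcases lt_or_gt_of_ne n5 with b | b
  · -- y < z, y < w
    rcases lt_or_gt_of_ne n6 with c | c
    · exact sep_aux hC ((k0 1 2).2 ⟨l1, a⟩) ((k0 2 3).2 ⟨l2, c⟩)
    · obtain ⟨p, hp, hp1, ⟨a1, a2⟩, a3, a4⟩ := sep_aux hC ((k0 1 3).2 ⟨l1, b⟩)
        ((k0 3 2).2 ⟨l3, c⟩)
      exact ⟨p, hp, hp1, ⟨a1, a2⟩, a4, a3⟩
  · -- w < y < z
    exact absurd (Or.inr ⟨(k0 3 1).2 ⟨l3, b⟩, (k2 1 2).2 ⟨l1, a⟩⟩) h
  · -- z < y < w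
    exact absurd (Or.inl ⟨(k0 2 1).2 ⟨l2, a⟩, (k2 1 3).2 ⟨l1, b⟩⟩) h
  · -- z, w < y
    rcases lt_or_gt_of_ne n6 with c | c
    · -- x < z < w < y : cyclic order y x z w
      obtain ⟨p, hp, hp1, ⟨a1, a2⟩, a3, a4⟩ := sep_aux hC (x := y) (y := x) (z := z) (w := w)
        ((hr 1 0 2).2 (Or.inr (Or.inl ⟨l2, a⟩))) ((hr 1 2 3).2 (Or.inr (Or.inl ⟨c, b⟩)))
      exact ⟨p, hp, hp1, ⟨a2, a1⟩, a3, a4⟩
    · obtain ⟨p, hp, hp1, ⟨a1, a2⟩, a3, a4⟩ := sep_aux hC (x := y) (y := x) (z := w) (w := z)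
        ((hr 1 0 3).2 (Or.inr (Or.inl ⟨l3, b⟩))) ((hr 1 3 2).2 (Or.inr (Or.inl ⟨c, a⟩)))
      exact ⟨p, hp, hp1, ⟨a2, a1⟩, a4, a3⟩

end Main

end Sides

open Sides in
theorem crG_of_sides {G : Type*} {E : Type*} [Group G] [MulAction G E] {P : Subgroup G}
    {sb : E → E → E → Prop} {at' : G → E} (hC : CS0 P sb at')
    (hs : ∀ g : G, ∀ p ∈ P, p ≠ 1 → ∀ x y, SS sb at' p x y →
      SS sb at' (g * p * g⁻¹) (g • x) (g • y)) :
    ∀ (g : G) x y z w, Cr sb x y z w → Cr sb (g • x) (g • y) (g • z) (g • w) := by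
  intro g x y z w hcr
  by_contra hncr
  have hdist : x ≠ y ∧ x ≠ z ∧ x ≠ w ∧ y ≠ z ∧ y ≠ w ∧ z ≠ w := by
    rcases hcr with ⟨h1, h2⟩ | ⟨h1, h2⟩
    · obtain ⟨a1, a2, a3⟩ := ne_of_sb hC.cyc h1
      obtain ⟨b1, b2, b3⟩ := ne_of_sb hC.cyc h2
      refine ⟨a3, a1, b2.symm, a2.symm, b1, ?_⟩
      rintro rfl
      exact lr_disj hC.cyc h1 h2
    · obtain ⟨a1, a2, a3⟩ := ne_of_sb hC.cyc h1
      obtain ⟨b1, b2, b3⟩ := ne_of_sb hC.cyc h2
      refine ⟨a3, b2.symm, a1, b1, a2.symm, ?_⟩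
      rintro rfl
      exact lr_disj hC.cyc h1 h2
  obtain ⟨n1, n2, n3, n4, n5, n6⟩ := hdist
  have inj : ∀ {a b : E}, a ≠ b → g • a ≠ g • b := fun h h' => h (smul_left_cancel g h')
  obtain ⟨p, hp, hp1, ⟨a1, a2⟩, a3, a4⟩ := sep hC (inj n1) (inj n2) (inj n3) (inj n4) (inj n5)
    (inj n6) hncr
  have hnorm := hC.normal
  have hp' : g⁻¹ * p * g ∈ P := by
    have := hnorm.conj_mem p hp g⁻¹
    simpa using this
  have hp1' : g⁻¹ * p * g ≠ 1 := by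
    intro h
    apply hp1
    have h2 : p = g * (g⁻¹ * p * g) * g⁻¹ := by group
    rw [h2, h]
    group
  have k1 : SS sb at' (g⁻¹ * p * g) x y := by
    have := hs g⁻¹ p hp hp1 _ _ (Or.inl ⟨a1, a2⟩)
    simpa using this
  have k2 : SS sb at' (g⁻¹ * p * g) z w := by
    have := hs g⁻¹ p hp hp1 _ _ (Or.inr ⟨a3, a4⟩)
    simpa using this
  have k3 : ¬ SS sb at' (g⁻¹ * p * g) x z := by
    intro h
    have := hs g _ hp' hp1' _ _ h
    have e : g * (g⁻¹ * p * g) * g⁻¹ = p := by group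
    rw [e] at this
    rcases this with h' | h'
    · exact lr_disj hC.cyc h'.2 a3
    · exact lr_disj hC.cyc a1 h'.1
  rcases k1 with ⟨b1, b2⟩ | ⟨b1, b2⟩
  · rcases k2 with ⟨b3, b4⟩ | ⟨b3, b4⟩
    · exact k3 (Or.inl ⟨b1, b3⟩)
    · exact not_cr hC.cyc b1 b2 b3 b4 hcr
  · rcases k2 with ⟨b3, b4⟩ | ⟨b3, b4⟩
    · exact not_cr hC.cyc b1 b2 b3 b4 hcr
    · exact k3 (Or.inr ⟨b1, b3⟩)

end Pool.Agent.MP_e058c8_al
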