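import Pool.Agent.MP_e058c8_al.Statement
import Pool.Agent.MP_e058c8_al.Dirs
import Pool.Agent.MP_e058c8_al.Quant
import Pool.Agent.MP_e058c8_al.SideInv
import Pool.Agent.MP_e058c8_al.Sides
/-! Task J3: the circle system of a discrete cocompact projective representation. -/

namespace Pool.Agent.MP_e058c8_al

open scoped UpperHalfPlane MatrixGroups

universe u

namespace Circle

/-! ### Vectors -/

/-- Positively oriented triple of directions. -/
def sbv (u v w : Fin 2 → ℝ) : Prop := 0 < det2 u v * det2 v w * det2 w u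

theorem det2_self (u : Fin 2 → ℝ) : det2 u u = 0 := by unfold det2; ring

theorem det2_anti (u v : Fin 2 → ℝ) : det2 u v = - det2 v u := by unfold det2; ring

theorem det2_smul_left (c : ℝ) (u v : Fin 2 → ℝ) : det2 (c • u) v = c * det2 u v := by
  simp [det2]; ring

theorem det2_smul_right (c : ℝ) (u v : Fin 2 → ℝ) : det2 u (c • v) = c * det2 u v := by
  simp [det2]; ring

theorem det2_add_left (u v w : Fin 2 → ℝ) : det2 (u + v) w = det2 u w + det2 v w := by
  simp [det2]; ring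

theorem det2_add_right (u v w : Fin 2 → ℝ) : det2 u (v + w) = det2 u v + det2 u w := by
  simp [det2]; ring

theorem det2_mulVec (g : SL(2, ℝ)) (u v : Fin 2 → ℝ) :
    det2 (g.1.mulVec u) (g.1.mulVec v) = det2 u v := by
  have h : g.1 0 0 * g.1 1 1 - g.1 0 1 * g.1 1 0 = 1 := by
    have := g.2
    rwa [Matrix.det_fin_two] at this
  simp only [det2, Matrix.mulVec, dotProduct, Fin.sum_univ_two]
  linear_combination (u 0 * v 1 - u 1 * v 0) * h

theorem par {u v : Fin 2 → ℝ} (hu : u ≠ 0) (hv : v ≠ 0) (h : det2 u v = 0) :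
    ∃ c : ℝ, c ≠ 0 ∧ v = c • u := by
  have h' : u 0 * v 1 = u 1 * v 0 := by unfold det2 at h; linarith
  by_cases h0 : u 0 = 0
  · have h1 : u 1 ≠ 0 := by
      intro h1; apply hu; ext i; fin_cases i <;> simp [h0, h1]
    have hv0 : v 0 = 0 := by
      rw [h0, zero_mul] at h'
      rcases mul_eq_zero.1 h'.symm with h2 | h2
      · exact absurd h2 h1
      · exact h2
    refine ⟨v 1 / u 1, ?_, ?_⟩
    · intro hc
      rw [div_eq_zero_iff] at hc
      rcases hc with hc | hc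
      · apply hv; ext i; fin_cases i <;> simp [hv0, hc]
      · exact h1 hc
    · ext i; fin_cases i
      · simp [hv0, h0]
      · simp; field_simp
  · have key : v 1 = v 0 / u 0 * u 1 := by field_simp; linarith
    refine ⟨v 0 / u 0, ?_, ?_⟩
    · intro hc
      rw [div_eq_zero_iff] at hc
      rcases hc with hc | hc
      · apply hv; ext i; fin_cases i
        · simp [hc]
        · simp [key, hc]
      · exact h0 hc
    · ext i; fin_cases i
      · simp; field_simp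
      · simpa using key

theorem sbv_smul₁ {c : ℝ} (hc : c ≠ 0) (u v w : Fin 2 → ℝ) : sbv (c • u) v w ↔ sbv u v w := by
  unfold sbv
  rw [det2_smul_left, det2_smul_right]
  have : c * det2 u v * det2 v w * (c * det2 w u) = c ^ 2 * (det2 u v * det2 v w * det2 w u) := by
    ring
  rw [this, mul_pos_iff_of_pos_left (by positivity)]

theorem sbv_rot (u v w : Fin 2 → ℝ) : sbv u v w ↔ sbv v w u := by
  unfold sbv
  rw [show det2 u v * det2 v w * det2 w u = det2 v w * det2 w u * det2 u v by ring]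

theorem sbv_smul₂ {c : ℝ} (hc : c ≠ 0) (u v w : Fin 2 → ℝ) : sbv u (c • v) w ↔ sbv u v w := by
  rw [sbv_rot, sbv_smul₁ hc, ← sbv_rot]

theorem sbv_smul₃ {c : ℝ} (hc : c ≠ 0) (u v w : Fin 2 → ℝ) : sbv u v (c • w) ↔ sbv u v w := by
  rw [← sbv_rot, sbv_smul₁ hc, sbv_rot]

theorem sbv_congr {u v w u' v' w' : Fin 2 → ℝ} (hu : u ≠ 0) (hv : v ≠ 0) (hw : w ≠ 0)
    (hu' : u' ≠ 0) (hv' : v' ≠ 0) (hw' : w' ≠ 0) (h1 : det2 u u' = 0) (h2 : det2 v v' = 0)
    (h3 : det2 w w' = 0) : sbv u v w ↔ sbv u' v' w' := by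
  obtain ⟨a, ha, rfl⟩ := par hu hu' h1
  obtain ⟨b, hb, rfl⟩ := par hv hv' h2
  obtain ⟨c, hc, rfl⟩ := par hw hw' h3
  rw [sbv_smul₁ ha, sbv_smul₂ hb, sbv_smul₃ hc]

theorem sbv_mulVec (g : SL(2, ℝ)) (u v w : Fin 2 → ℝ) :
    sbv (g.1.mulVec u) (g.1.mulVec v) (g.1.mulVec w) ↔ sbv u v w := by
  unfold sbv
  rw [det2_mulVec, det2_mulVec, det2_mulVec]

theorem sbv_asymm {u v w : Fin 2 → ℝ} (h : sbv u v w) : ¬ sbv u w v := by
  unfold sbv at *
  rw [det2_anti u w, det2_anti w v, det2_anti v u]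
  nlinarith

theorem plucker (u v w x : Fin 2 → ℝ) :
    det2 u v * det2 w x - det2 u w * det2 v x + det2 u x * det2 v w = 0 := by
  unfold det2; ring

theorem sbv_trans {x y z w : Fin 2 → ℝ} (h1 : sbv x y z) (h2 : sbv x z w) : sbv x y w := by
  unfold sbv at *
  have hp := plucker x y z w
  rw [det2_anti z x] at h1
  rw [det2_anti w x] at h2 ⊢
  set a := det2 x y
  set b := det2 x z
  set c := det2 x w
  set s := det2 y z
  set t := det2 z w
  set r := det2 y w
  -- a t - b r + c s = 0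
  have hb : b ≠ 0 := by rintro hb; rw [hb] at h1; simp at h1
  have hb2 : 0 < b ^ 2 := by positivity
  have h1' : 0 < - (a * b * s) := by nlinarith
  have h2' : 0 < - (b * c * t) := by nlinarith
  have : 0 < b ^ 2 * (a * r * -c) := by
    have : b ^ 2 * (a * r * -c) = a ^ 2 * (- (b * c * t)) + c ^ 2 * (-(a * b * s)) := by
      linear_combination (a * b * c) * hp
    rw [this]
    have ha : a ≠ 0 := by rintro ha; rw [ha] at h1; simp at h1
    have : 0 < a ^ 2 := by positivity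
    positivity
  exact (mul_pos_iff_of_pos_left hb2).1 this

theorem sbv_total {x y z : Fin 2 → ℝ} (h1 : det2 x y ≠ 0) (h2 : det2 y z ≠ 0)
    (h3 : det2 x z ≠ 0) : sbv x y z ∨ sbv x z y := by
  unfold sbv
  rw [det2_anti z x, det2_anti z y, det2_anti y x]
  have : det2 x y * det2 y z * -det2 x z ≠ 0 := by
    refine mul_ne_zero (mul_ne_zero h1 h2) (neg_ne_zero.2 h3)
  rcases lt_or_gt_of_ne this with h | h
  · right; nlinarith
  · left; exact h


/-! ### Directions of elements of `π` -/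

section System

variable {π : Type u} [Group π]

variable (π) in
/-- Nontrivial elements with a common positive power. -/
def rel : Setoid {p : π // p ≠ 1} where
  r p q := ∃ i j : ℕ, 0 < i ∧ 0 < j ∧ p.1 ^ i = q.1 ^ j
  iseqv := ⟨fun p => ⟨1, 1, one_pos, one_pos, rfl⟩,
    fun {p q} ⟨i, j, hi, hj, h⟩ => ⟨j, i, hj, hi, h.symm⟩,
    fun {p q r} ⟨i, j, hi, hj, h⟩ ⟨k, l, hk, hl, h'⟩ => ⟨i * k, l * j, Nat.mul_pos hi hk,
      Nat.mul_pos hl hj, by
        rw [pow_mul, h, ← pow_mul, mul_comm j k, pow_mul, h', ← pow_mul]⟩⟩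

variable (π) in
/-- The set of end points. -/
abbrev Ends : Type u := Quotient (rel π)

instance : MulAction (MulAut π) (Ends π) where
  smul φ := Quotient.map (fun p => ⟨φ p.1, by simpa using p.2⟩) (by
     rintro p q ⟨i, j, hi, hj, h⟩
     exact ⟨i, j, hi, hj, by simp [← map_pow, h]⟩)
  one_smul := by rintro ⟨p⟩; rfl
  mul_smul := by rintro φ ψ ⟨p⟩; rfl

/-- The end point of a nontrivial element. -/
def mk (p : π) (hp : p ≠ 1) : Ends π := Quotient.mk (rel π) ⟨p, hp⟩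

theorem map_ne (φ : MulAut π) {p : π} (hp : p ≠ 1) : φ p ≠ 1 := by simpa using hp

theorem smul_mk (φ : MulAut π) (p : π) (hp : p ≠ 1) : φ • mk p hp = mk (φ p) (map_ne φ hp) := rfl

theorem exists_mk (x : Ends π) : ∃ p, ∃ hp : p ≠ 1, mk p hp = x := by
  induction x using Quotient.ind with
  | _ p => exact ⟨p.1, p.2, rfl⟩

theorem mk_eq_iff {p q : π} (hp : p ≠ 1) (hq : q ≠ 1) :
    mk p hp = mk q hq ↔ ∃ i j : ℕ, 0 < i ∧ 0 < j ∧ p ^ i = q ^ j := by
  unfold mk
  rw [Quotient.eq]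
  exact Iff.rfl

variable {M : π → SL(2, ℝ)}

theorem isDir_sign {g g' : SL(2, ℝ)} {v : Fin 2 → ℝ} (hv : IsDir g v) (h : g' = g ∨ g' = -g) :
    IsDir g' v := by
  rcases h with h | h
  · rw [h]; exact hv
  · rw [h]; exact isDir_neg hv

theorem rep_pow (hM : Rep M) (p : π) (n : ℕ) : M (p ^ n) = M p ^ n ∨ M (p ^ n) = -(M p ^ n) := by
  induction n with
  | zero => simpa using rep_one hM
  | succ n ih =>
    rw [pow_succ, pow_succ]
    rcases hM.mul (p ^ n) p with h | h <;> rcases ih with h' | h' <;> rw [h, h'] <;> simp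

theorem dir_pow (hM : Rep M) {p : π} {v : Fin 2 → ℝ} (hv : IsDir (M p) v) {n : ℕ} (hn : 0 < n) :
    IsDir (M (p ^ n)) v :=
  isDir_sign (isDir_pow hv hn) (rep_pow hM p n)

theorem dir_inv (hM : Rep M) {p : π} {v : Fin 2 → ℝ} : IsDir (M p⁻¹) v ↔ IsDir (M p)⁻¹ v := by
  constructor
  · intro h
    refine isDir_sign h ?_
    rcases rep_inv hM p with h' | h'
    · left; exact h'.symm
    · right; rw [h']; simp
  · intro h
    exact isDir_sign h (rep_inv hM p)

theorem conj_sign (hM : Rep M) (k p : π) : M (k * p * k⁻¹) = M k * M p * (M k)⁻¹ ∨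
    M (k * p * k⁻¹) = -(M k * M p * (M k)⁻¹) := by
  rcases hM.mul (k * p) k⁻¹ with h | h <;> rcases hM.mul k p with h' | h' <;>
    rcases rep_inv hM k with h'' | h'' <;> rw [h, h', h''] <;> simp

theorem dir_conj (hM : Rep M) {p : π} {v : Fin 2 → ℝ} (hv : IsDir (M p) v) (k : π) :
    IsDir (M (k * p * k⁻¹)) ((M k).1.mulVec v) :=
  isDir_sign (isDir_conj hv (M k)) (conj_sign hM k p)

theorem det_comm {u v : Fin 2 → ℝ} (h : det2 u v = 0) : det2 v u = 0 := by
  rw [det2_anti, h, neg_zero]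

theorem dir_of_pow_eq (hM : Rep M) {p q : π} (hq : q ≠ 1) {i j : ℕ} (hi : 0 < i)
    (hj : 0 < j) (h : p ^ i = q ^ j) {v : Fin 2 → ℝ} (hv : IsDir (M p) v) : IsDir (M q) v := by
  obtain ⟨w, hw⟩ := exists_dir (M q) (hM.hyp q hq)
  have h1 := dir_pow hM hv hi
  rw [h] at h1
  have h2 := dir_pow hM hw hj
  exact isDir_smul hw hv.1 (isDir_unique h2 h1)

theorem not_dir_inv (hM : Rep M) {p : π} {v : Fin 2 → ℝ} (hv : IsDir (M p) v) :
    ¬ IsDir (M p⁻¹) v := by
  intro h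
  exact isDir_inv_ne ((dir_inv hM).1 h) hv (det2_self v)

theorem not_dir_one (hM : Rep M) {v : Fin 2 → ℝ} : ¬ IsDir (M 1) v := by
  intro h
  have h2 := not_dir_inv hM h
  rw [inv_one] at h2
  exact h2 h

theorem zpow_pos_of_dir (hM : Rep M) {r : π} {v : Fin 2 → ℝ} (hr : IsDir (M r) v) {k : ℤ}
    (hk : IsDir (M (r ^ k)) v) : 0 < k := by
  by_contra hneg
  push Not at hneg
  rcases eq_or_lt_of_le hneg with h0 | h0
  · rw [h0, zpow_zero] at hk
    exact not_dir_one hM hk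
  · obtain ⟨n, hn⟩ := Int.eq_ofNat_of_zero_le (show 0 ≤ -k by omega)
    have hn0 : 0 < n := by omega
    have h1 : r ^ k = (r ^ n)⁻¹ := by
      rw [show k = -(n : ℤ) by omega, zpow_neg, zpow_natCast]
    rw [h1] at hk
    exact not_dir_inv hM (dir_pow hM hr hn0) hk

theorem pow_eq_of_dir (hM : Rep M) {p q : π} (hp : p ≠ 1) {v : Fin 2 → ℝ}
    (hv : IsDir (M p) v) (hv' : IsDir (M q) v) : ∃ i j : ℕ, 0 < i ∧ 0 < j ∧ p ^ i = q ^ j := by
  obtain ⟨r, hr1, hr, hr'⟩ := stab_cyclic hM hp hv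
  have key : ∀ q : π, IsDir (M q) v → ∃ n : ℕ, 0 < n ∧ r ^ n = q := by
    intro q hq
    obtain ⟨μ, hμ, h⟩ := hq.2
    obtain ⟨k, hk⟩ := Subgroup.mem_zpowers_iff.1 (hr' q (by rw [h, det2_smul_left, det2_self,
      mul_zero]))
    have hk' : 0 < k := by
      apply zpow_pos_of_dir hM hr
      rw [hk]; exact hq
    obtain ⟨n, hn⟩ := Int.eq_ofNat_of_zero_le hk'.le
    refine ⟨n, by omega, ?_⟩
    rw [← hk, hn]; simp
  obtain ⟨m, hm, hm'⟩ := key p hv
  obtain ⟨n, hn, hn'⟩ := key q hv'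
  refine ⟨n, m, hn, hm, ?_⟩
  rw [← hm', ← hn', ← pow_mul, ← pow_mul, mul_comm]

theorem mk_eq_iff_dir (hM : Rep M) {p q : π} (hp : p ≠ 1) (hq : q ≠ 1) {v w : Fin 2 → ℝ}
    (hv : IsDir (M p) v) (hw : IsDir (M q) w) : mk p hp = mk q hq ↔ det2 v w = 0 := by
  rw [mk_eq_iff]
  constructor
  · rintro ⟨i, j, hi, hj, h⟩
    exact isDir_unique (dir_of_pow_eq hM hq hi hj h hv) hw
  · intro h
    exact pow_eq_of_dir hM hp hv (isDir_smul hw hv.1 (det_comm h))

/-- A chosen direction of an end point. -/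
noncomputable def dirOf (hM : Rep M) (x : Ends π) : Fin 2 → ℝ :=
  Classical.choose (exists_dir (M x.out.1) (hM.hyp _ x.out.2))

theorem dirOf_spec (hM : Rep M) (x : Ends π) : IsDir (M x.out.1) (dirOf hM x) :=
  Classical.choose_spec (exists_dir (M x.out.1) (hM.hyp _ x.out.2))

theorem mk_out (x : Ends π) : mk x.out.1 x.out.2 = x := by
  unfold mk
  exact Quotient.out_eq x

theorem dirOf_mk (hM : Rep M) {p : π} (hp : p ≠ 1) : IsDir (M p) (dirOf hM (mk p hp)) := by
  have h := mk_out (mk p hp)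
  rw [mk_eq_iff] at h
  obtain ⟨i, j, hi, hj, h⟩ := h
  exact dir_of_pow_eq hM hp hi hj h (dirOf_spec hM _)

theorem dirOf_ne (hM : Rep M) (x : Ends π) : dirOf hM x ≠ 0 := (dirOf_spec hM x).1

theorem dirOf_inj (hM : Rep M) (x y : Ends π) : det2 (dirOf hM x) (dirOf hM y) = 0 ↔ x = y := by
  obtain ⟨p, hp, rfl⟩ := exists_mk x
  obtain ⟨q, hq, rfl⟩ := exists_mk y
  rw [mk_eq_iff_dir hM hp hq (dirOf_mk hM hp) (dirOf_mk hM hq)]

/-- The cyclic order of the end points. -/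
def sb (hM : Rep M) (x y z : Ends π) : Prop := sbv (dirOf hM x) (dirOf hM y) (dirOf hM z)

/-- `v` is a direction of the end point `x`. -/
def HasDir (hM : Rep M) (x : Ends π) (v : Fin 2 → ℝ) : Prop := v ≠ 0 ∧ det2 (dirOf hM x) v = 0

theorem hasDir_dirOf (hM : Rep M) (x : Ends π) : HasDir hM x (dirOf hM x) :=
  ⟨dirOf_ne hM x, det2_self _⟩

theorem hasDir_mk (hM : Rep M) {p : π} (hp : p ≠ 1) {v : Fin 2 → ℝ} (hv : IsDir (M p) v) :
    HasDir hM (mk p hp) v := ⟨hv.1, isDir_unique (dirOf_mk hM hp) hv⟩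

theorem sb_iff (hM : Rep M) {x y z : Ends π} {u v w : Fin 2 → ℝ} (hu : HasDir hM x u)
    (hv : HasDir hM y v) (hw : HasDir hM z w) : sb hM x y z ↔ sbv u v w :=
  sbv_congr (dirOf_ne hM x) (dirOf_ne hM y) (dirOf_ne hM z) hu.1 hv.1 hw.1 hu.2 hv.2 hw.2

theorem hasDir_isDir (hM : Rep M) {p : π} (hp : p ≠ 1) {v : Fin 2 → ℝ}
    (hv : HasDir hM (mk p hp) v) : IsDir (M p) v := isDir_smul (dirOf_mk hM hp) hv.1 hv.2

theorem par_trans {u v w : Fin 2 → ℝ} (hu : u ≠ 0) (h1 : det2 u v = 0) (h2 : det2 u w = 0) :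
    det2 v w = 0 := by
  by_cases hv : v = 0
  · rw [hv]; simp [det2]
  by_cases hw : w = 0
  · rw [hw]; simp [det2]
  obtain ⟨a, ha, rfl⟩ := par hu hv h1
  obtain ⟨b, hb, rfl⟩ := par hu hw h2
  rw [det2_smul_left, det2_smul_right, det2_self]; ring

theorem hasDir_smul (hM : Rep M) {x : Ends π} {v : Fin 2 → ℝ} (hv : HasDir hM x v) (k : π) :
    HasDir hM (MulAut.conj k • x) ((M k).1.mulVec v) := by
  obtain ⟨p, hp, rfl⟩ := exists_mk x
  rw [smul_mk]
  apply hasDir_mk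
  rw [MulAut.conj_apply]
  exact dir_conj hM (hasDir_isDir hM hp hv) k

theorem hasDir_eq_iff (hM : Rep M) {x y : Ends π} {v w : Fin 2 → ℝ} (hv : HasDir hM x v)
    (hw : HasDir hM y w) : x = y ↔ det2 v w = 0 := by
  rw [← dirOf_inj hM]
  constructor
  · intro h
    have h1 := par_trans (dirOf_ne hM x) hv.2 h
    exact par_trans (dirOf_ne hM y) (det_comm h1) hw.2
  · intro h
    have h1 := par_trans hv.1 (det_comm hv.2) h
    exact par_trans hw.1 (det_comm h1) (det_comm hw.2)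

/-! ### Injectivity of `conj` -/

theorem center_trivial (hM : Rep M) {z : π} (hz : ∀ p, z * p = p * z) : z = 1 := by
  by_contra hz1
  obtain ⟨v, hv⟩ := exists_dir (M z) (hM.hyp z hz1)
  have hz1' : z⁻¹ ≠ 1 := by simpa using hz1
  obtain ⟨u, hu⟩ := exists_dir (M z⁻¹) (hM.hyp _ hz1')
  obtain ⟨r, hr1, hr, hr'⟩ := stab_cyclic hM hz1 hv
  obtain ⟨q, hq1, w, hw, hpos⟩ := side_exists hM hz1 ((dir_inv hM).1 hu) hv
  have h1 : IsDir (M z) ((M q).1.mulVec v) := by
    have := dir_conj hM hv q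
    rwa [← hz q, mul_inv_cancel_right] at this
  obtain ⟨k, hk⟩ := Subgroup.mem_zpowers_iff.1 (hr' q (isDir_unique h1 hv))
  obtain ⟨l, hl⟩ := Subgroup.mem_zpowers_iff.1 (hr' z (by
    obtain ⟨μ, _, h⟩ := hv.2
    rw [h, det2_smul_left, det2_self, mul_zero]))
  have hl0 : 0 < l := zpow_pos_of_dir hM hr (by rw [hl]; exact hv)
  have hk0 : k ≠ 0 := by
    rintro rfl
    apply hq1
    rw [← hk, zpow_zero]
  -- `q ^ l = z ^ k`
  have hpow : q ^ l = z ^ k := by rw [← hk, ← hl, ← zpow_mul, ← zpow_mul, mul_comm]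
  obtain ⟨n, hn⟩ := Int.eq_ofNat_of_zero_le hl0.le
  have hn0 : 0 < n := by omega
  rcases lt_or_gt_of_ne hk0 with hk1 | hk1
  · obtain ⟨m, hm⟩ := Int.eq_ofNat_of_zero_le (show 0 ≤ -k by omega)
    have hm0 : 0 < m := by omega
    have : z⁻¹ ^ m = q ^ n := by
      rw [hn, show k = -(m : ℤ) by omega] at hpow
      rw [zpow_natCast] at hpow
      rw [hpow, zpow_neg, zpow_natCast, inv_pow]
    have h2 := dir_of_pow_eq hM hq1 hm0 hn0 this hu
    have h3 := isDir_unique h2 hw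
    rw [h3] at hpos
    simp at hpos
  · obtain ⟨m, hm⟩ := Int.eq_ofNat_of_zero_le hk1.le
    have hm0 : 0 < m := by omega
    have : z ^ m = q ^ n := by
      rw [hn, hm] at hpow
      simpa using hpow.symm
    have h2 := dir_of_pow_eq hM hq1 hm0 hn0 this hv
    have h3 := isDir_unique h2 hw
    rw [det_comm h3] at hpos
    simp at hpos

theorem conj_inj (hM : Rep M) : Function.Injective (MulAut.conj : π →* MulAut π) := by
  rw [injective_iff_map_eq_one]
  intro z hz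
  apply center_trivial hM
  intro p
  have := DFunLike.congr_fun hz p
  rw [MulAut.conj_apply, MulAut.one_apply] at this
  calc z * p = (z * p * z⁻¹) * z := by group
    _ = p * z := by rw [this]


/-! ### The circle system -/

open Classical in
/-- The end point map. -/
noncomputable def atp (hM : Rep M) (g : MulAut π) : Ends π :=
  if h : ∃ p : π, p ≠ 1 ∧ MulAut.conj p = g then mk (Classical.choose h)
    (Classical.choose_spec h).1
  else mk (Classical.choose (nontriv_of_rep hM)) (Classical.choose_spec (nontriv_of_rep hM))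

theorem atp_conj (hM : Rep M) {p : π} (hp : p ≠ 1) : atp hM (MulAut.conj p) = mk p hp := by
  have h : ∃ q : π, q ≠ 1 ∧ MulAut.conj q = MulAut.conj p := ⟨p, hp, rfl⟩
  unfold atp
  rw [dif_pos h]
  have h2 := conj_inj hM (Classical.choose_spec h).2
  congr 1

theorem conj_ne (hM : Rep M) {p : π} : (MulAut.conj p : MulAut π) ≠ 1 ↔ p ≠ 1 := by
  rw [not_iff_not]
  constructor
  · intro h
    apply conj_inj hM
    rw [h, map_one]
  · rintro rfl
    exact map_one _

theorem mem_inn {g : MulAut π} (h : g ∈ Inn π) : ∃ p, MulAut.conj p = g := h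

/-- The basic data of an axis: the directions of the two ends, and how the element acts. -/
theorem axis (hM : Rep M) {p : π} (hp : p ≠ 1) : ∃ u₁ u₂ : Fin 2 → ℝ, ∃ μ : ℝ,
    IsDir (M p)⁻¹ u₁ ∧ IsDir (M p) u₂ ∧
    HasDir hM (atp hM (MulAut.conj p)⁻¹) u₁ ∧ HasDir hM (atp hM (MulAut.conj p)) u₂ ∧
    det2 u₁ u₂ ≠ 0 ∧ 1 < |μ| ∧ (M p).1.mulVec u₁ = μ⁻¹ • u₁ ∧ (M p).1.mulVec u₂ = μ • u₂ := by
  have hp' : p⁻¹ ≠ 1 := by simpa using hp
  obtain ⟨u₁, hu₁⟩ := exists_dir (M p⁻¹) (hM.hyp _ hp')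
  obtain ⟨u₂, hu₂⟩ := exists_dir (M p) (hM.hyp _ hp)
  have hu₁' := (dir_inv hM).1 hu₁
  have hne := isDir_inv_ne hu₁' hu₂
  obtain ⟨μ, hμ, hμ'⟩ := hu₂.2
  obtain ⟨ν, hν, hν'⟩ := hu₁'.2
  have hν0 : ν ≠ 0 := by rintro rfl; simp at hν; linarith
  have h1 : (M p).1.mulVec u₁ = ν⁻¹ • u₁ := by
    have h2 : (M p).1.mulVec ((M p)⁻¹.1.mulVec u₁) = u₁ := by
      rw [Matrix.mulVec_mulVec, ← Matrix.SpecialLinearGroup.coe_mul, mul_inv_cancel,
        Matrix.SpecialLinearGroup.coe_one, Matrix.one_mulVec]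
    rw [hν', Matrix.mulVec_smul] at h2
    rw [← h2, smul_smul, inv_mul_cancel₀ hν0, one_smul, h2]
  have h3 := det2_mulVec (M p) u₁ u₂
  rw [h1, hμ', det2_smul_left, det2_smul_right] at h3
  have h4 : ν⁻¹ * μ = 1 := by
    have : (ν⁻¹ * μ) * det2 u₁ u₂ = 1 * det2 u₁ u₂ := by
      rw [one_mul, mul_assoc, h3]
    exact mul_right_cancel₀ hne this
  have h5 : ν = μ := by field_simp at h4; exact h4.symm
  refine ⟨u₁, u₂, μ, hu₁', hu₂, ?_, ?_, hne, hμ, by rw [h1, h5], hμ'⟩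
  · rw [← map_inv, atp_conj hM hp']
    exact hasDir_mk hM hp' hu₁
  · rw [atp_conj hM hp]
    exact hasDir_mk hM hp hu₂

theorem exists_basis {u₁ u₂ : Fin 2 → ℝ} (h : det2 u₁ u₂ ≠ 0) (v : Fin 2 → ℝ) :
    ∃ α β : ℝ, v = α • u₁ + β • u₂ := by
  refine ⟨det2 v u₂ / det2 u₁ u₂, det2 u₁ v / det2 u₁ u₂, ?_⟩
  have key : det2 u₁ u₂ • v = det2 v u₂ • u₁ + det2 u₁ v • u₂ := by
    ext i; fin_cases i <;> simp [det2] <;> ring
  rw [div_eq_inv_mul, div_eq_inv_mul, ← smul_smul, ← smul_smul, ← smul_add, ← key, smul_smul,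
    inv_mul_cancel₀ h, one_smul]

theorem mulVec_pow {g : SL(2, ℝ)} {v : Fin 2 → ℝ} {c : ℝ} (h : g.1.mulVec v = c • v) (n : ℕ) :
    (g ^ n).1.mulVec v = c ^ n • v := by
  induction n with
  | zero => simp
  | succ n ih =>
    rw [pow_succ, Matrix.SpecialLinearGroup.coe_mul, ← Matrix.mulVec_mulVec, h,
      Matrix.mulVec_smul, ih, smul_smul]
    congr 1
    ring

theorem hasDir_pow (hM : Rep M) {x : Ends π} {v : Fin 2 → ℝ} (hv : HasDir hM x v) (k : π) (n : ℕ) :
    HasDir hM ((MulAut.conj k) ^ n • x) ((M k ^ n).1.mulVec v) := by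
  rw [← map_pow]
  have h := hasDir_smul hM hv (k ^ n)
  rcases rep_pow hM k n with h' | h'
  · rwa [h'] at h
  · rw [h'] at h
    refine ⟨?_, ?_⟩
    · intro h0
      apply h.1
      rw [Matrix.SpecialLinearGroup.coe_neg, Matrix.neg_mulVec, h0, neg_zero]
    · have h2 := h.2
      rw [Matrix.SpecialLinearGroup.coe_neg, Matrix.neg_mulVec, ← neg_one_smul ℝ,
        det2_smul_right] at h2
      simpa using h2

theorem cs0 (hM : Rep M) : CS0 (Inn π) (sb hM) (atp hM) where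
  cyc := by
    constructor
    · intro x y z h
      exact (sbv_rot _ _ _).1 h
    · intro x y z h
      exact sbv_asymm h
    · intro x y z w h1 h2
      exact sbv_trans h1 h2
    · intro x y z h1 h2 h3
      exact sbv_total (fun h => h1 ((dirOf_inj hM _ _).1 h)) (fun h => h2 ((dirOf_inj hM _ _).1 h))
        (fun h => h3 ((dirOf_inj hM _ _).1 h))
  normal := inferInstance
  sbP := by
    intro p hp x y z h
    obtain ⟨k, rfl⟩ := mem_inn hp
    rw [sb_iff hM (hasDir_smul hM (hasDir_dirOf hM x) k) (hasDir_smul hM (hasDir_dirOf hM y) k)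
      (hasDir_smul hM (hasDir_dirOf hM z) k), sbv_mulVec]
    exact h
  smul_at := by
    intro g p hp hp1
    obtain ⟨k, rfl⟩ := mem_inn hp
    rw [conj_ne hM] at hp1
    rw [atp_conj hM hp1, smul_mk]
    have : g * MulAut.conj k * g⁻¹ = MulAut.conj (g k) := by
      ext x
      simp [MulAut.conj_apply, MulAut.mul_apply]
    rw [this, atp_conj hM (map_ne g hp1)]
  at_ne := by
    intro p hp hp1
    obtain ⟨k, rfl⟩ := mem_inn hp
    rw [conj_ne hM] at hp1
    obtain ⟨u₁, u₂, μ, -, -, h1, h2, h3, -⟩ := axis hM hp1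
    rw [Ne, hasDir_eq_iff hM h1 h2]
    exact h3
  at_pow := by
    intro p hp hp1 n hn
    obtain ⟨k, rfl⟩ := mem_inn hp
    rw [conj_ne hM] at hp1
    have hk : k ^ n ≠ 1 := by
      intro h
      obtain ⟨v, hv⟩ := exists_dir (M k) (hM.hyp k hp1)
      have := dir_pow hM hv hn
      rw [h] at this
      exact not_dir_one hM this
    rw [← map_pow, atp_conj hM hk, atp_conj hM hp1, mk_eq_iff]
    exact ⟨1, n, one_pos, hn, by simp⟩
  tf := by
    intro p hp n hn h
    obtain ⟨k, rfl⟩ := mem_inn hp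
    by_contra hp1
    rw [← Ne, conj_ne hM] at hp1
    rw [← map_pow] at h
    have h' : k ^ n = 1 := by
      apply conj_inj hM
      rw [h, map_one]
    obtain ⟨v, hv⟩ := exists_dir (M k) (hM.hyp k hp1)
    have := dir_pow hM hv hn
    rw [h'] at this
    exact not_dir_one hM this
  move := by
    intro p hp hp1 x h
    obtain ⟨k, rfl⟩ := mem_inn hp
    rw [conj_ne hM] at hp1
    obtain ⟨u₁, u₂, μ, -, -, h1, h2, h3, hμ, h4, h5⟩ := axis hM hp1
    obtain ⟨α, β, hv⟩ := exists_basis h3 (dirOf hM x)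
    have hx := hasDir_dirOf hM x
    rw [sb_iff hM h1 hx h2] at h
    rw [sb_iff hM h1 hx (hasDir_smul hM hx k)]
    rw [hv] at h ⊢
    rw [Matrix.mulVec_add, Matrix.mulVec_smul, Matrix.mulVec_smul, h4, h5]
    unfold sbv at *
    simp only [det2_add_left, det2_add_right, det2_smul_left, det2_smul_right, det2_self] at *
    rw [det2_anti u₂ u₁] at *
    have hμ0 : μ ≠ 0 := by rintro rfl; simp at hμ; linarith
    have hμ2 : 1 < μ ^ 2 := by
      rw [← sq_abs]; nlinarith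
    set δ := det2 u₁ u₂ with hδ
    have hβ : β ≠ 0 := by rintro rfl; simp at h
    have e1 : (α * 0 + β * δ) * (α * δ + β * 0) * -δ = - (α * β * δ ^ 3) := by ring
    have h' : 0 < - (α * β * δ ^ 3) := by
      refine lt_of_lt_of_eq h ?_
      ring
    have : 0 < - (α * β * δ ^ 3) * (β ^ 2 * (μ ^ 2 - 1)) := by
      apply mul_pos h'
      apply mul_pos (by positivity)
      linarith
    refine lt_of_lt_of_eq this ?_
    field_simp
    ring
  arch := by
    intro p hp hp1 x y hx hy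
    obtain ⟨k, rfl⟩ := mem_inn hp
    rw [conj_ne hM] at hp1
    obtain ⟨u₁, u₂, μ, -, -, h1, h2, h3, hμ, h4, h5⟩ := axis hM hp1
    obtain ⟨α, β, hv⟩ := exists_basis h3 (dirOf hM x)
    obtain ⟨γ, ε, hw⟩ := exists_basis h3 (dirOf hM y)
    have dx := hasDir_dirOf hM x
    have dy := hasDir_dirOf hM y
    rw [sb_iff hM h1 dx h2] at hx
    rw [sb_iff hM h1 dy h2] at hy
    have hμ0 : μ ≠ 0 := by rintro rfl; simp at hμ; linarith
    have hμ2 : 1 < μ ^ 2 := by
      rw [← sq_abs]; nlinarith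
    rw [hv] at hx
    rw [hw] at hy
    unfold sbv at hx hy
    simp only [det2_add_left, det2_add_right, det2_smul_left, det2_smul_right, det2_self] at hx hy
    rw [det2_anti u₂ u₁] at hx hy
    set δ := det2 u₁ u₂ with hδ
    have hx' : 0 < - (α * β * δ) := by
      have : 0 < δ ^ 2 * (-(α * β * δ)) := by
        refine lt_of_lt_of_eq hx ?_
        ring
      exact (mul_pos_iff_of_pos_left (by positivity)).1 this
    have hy' : 0 < - (γ * ε * δ) := by
      have : 0 < δ ^ 2 * (-(γ * ε * δ)) := by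
        refine lt_of_lt_of_eq hy ?_
        ring
      exact (mul_pos_iff_of_pos_left (by positivity)).1 this
    have hβ : β ≠ 0 := by rintro rfl; simp at hx'
    have hA : 0 < - (γ * ε * δ) * β ^ 2 := by positivity
    obtain ⟨n, hn⟩ := pow_unbounded_of_one_lt ((- (ε ^ 2 * α * β * δ)) / (- (γ * ε * δ) * β ^ 2)) hμ2
    refine ⟨n, ?_⟩
    rw [sb_iff hM h1 dy (hasDir_pow hM dx k n), hv, hw, Matrix.mulVec_add, Matrix.mulVec_smul,
      Matrix.mulVec_smul, mulVec_pow h4, mulVec_pow h5]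
    unfold sbv
    simp only [det2_add_left, det2_add_right, det2_smul_left, det2_smul_right, det2_self]
    rw [det2_anti u₂ u₁, ← hδ]
    rw [div_lt_iff₀ hA] at hn
    have hn' : 0 < (μ ^ 2) ^ n * (-(γ * ε * δ) * β ^ 2) + ε ^ 2 * α * β * δ := by linarith
    have : 0 < δ ^ 2 * ((μ ^ 2) ^ n * (-(γ * ε * δ) * β ^ 2) + ε ^ 2 * α * β * δ) := by positivity
    refine lt_of_lt_of_eq this ?_
    have hinv : μ⁻¹ ^ n * μ ^ n = 1 := by rw [← mul_pow, inv_mul_cancel₀ hμ0, one_pow]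
    have e2 : (μ ^ 2) ^ n = μ ^ n * μ ^ n := by ring
    rw [e2]
    linear_combination (-(δ ^ 3 * ε ^ 2 * α * β)) * hinv
  exists_at := by
    intro x
    obtain ⟨p, hp, rfl⟩ := exists_mk x
    exact ⟨MulAut.conj p, ⟨p, rfl⟩, (conj_ne hM).2 hp, atp_conj hM hp⟩
  root := by
    intro p hp hp1
    obtain ⟨k, rfl⟩ := mem_inn hp
    rw [conj_ne hM] at hp1
    obtain ⟨v, hv⟩ := exists_dir (M k) (hM.hyp k hp1)
    obtain ⟨r, hr1, hr, hr'⟩ := stab_cyclic hM hp1 hv
    refine ⟨MulAut.conj r, ⟨r, rfl⟩, (conj_ne hM).2 hr1, ?_, ?_⟩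
    · rw [atp_conj hM hr1, atp_conj hM hp1, mk_eq_iff_dir hM hr1 hp1 hr hv]
      exact det2_self v
    · intro q hq h
      obtain ⟨l, rfl⟩ := mem_inn hq
      rw [atp_conj hM hp1] at h
      have hd := hasDir_mk hM hp1 hv
      rw [hasDir_eq_iff hM (hasDir_smul hM hd l) hd] at h
      obtain ⟨n, hn⟩ := Subgroup.mem_zpowers_iff.1 (hr' l h)
      rw [← hn, map_zpow]
      exact Subgroup.zpow_mem_zpowers _ _
  fin := by
    intro p hp hp1
    obtain ⟨k, rfl⟩ := mem_inn hp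
    rw [conj_ne hM] at hp1
    obtain ⟨u₁, u₂, μ, d1, d2, h1, h2, h3, hμ, h4, h5⟩ := axis hM hp1
    obtain ⟨F, hF, hF'⟩ := fin_cross hM hp1 d1 d2
    refine ⟨MulAut.conj '' F, hF.image _, ?_⟩
    intro g hg hcr
    obtain ⟨l, rfl⟩ := mem_inn hg
    have e1 := hasDir_smul hM h1 l
    have e2 := hasDir_smul hM h2 l
    obtain ⟨i, j, f, hf, h⟩ := hF' l (by
      unfold Cr at hcr
      rw [sb_iff hM h1 e1 h2, sb_iff hM h2 e2 h1, sb_iff hM h1 e2 h2, sb_iff hM h2 e1 h1] at hcr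
      unfold sbv at hcr
      rw [det2_anti u₂ u₁, det2_anti u₂ ((M l).1.mulVec u₂), det2_anti u₂ ((M l).1.mulVec u₁),
        det2_anti ((M l).1.mulVec u₂) u₁, det2_anti ((M l).1.mulVec u₁) u₁] at hcr
      set δ := det2 u₁ u₂
      set A := det2 u₁ ((M l).1.mulVec u₁)
      set B := det2 ((M l).1.mulVec u₁) u₂
      set C := det2 u₁ ((M l).1.mulVec u₂)
      set D := det2 ((M l).1.mulVec u₂) u₂
      have key : 0 < δ ^ 2 * (-(A * B * (C * D))) := by
        rcases hcr with ⟨ha, hb⟩ | ⟨ha, hb⟩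
        · have := mul_pos ha hb
          refine lt_of_lt_of_eq this ?_
          ring
        · have := mul_pos ha hb
          refine lt_of_lt_of_eq this ?_
          ring
      have := (mul_pos_iff_of_pos_left (by positivity)).1 key
      linarith)
    refine ⟨i, j, MulAut.conj f, ⟨f, hf, rfl⟩, ?_⟩
    rw [h, map_mul, map_mul, map_zpow, map_zpow]
  side := by
    intro p hp hp1
    obtain ⟨k, rfl⟩ := mem_inn hp
    rw [conj_ne hM] at hp1
    obtain ⟨u₁, u₂, μ, d1, d2, h1, h2, h3, hμ, h4, h5⟩ := axis hM hp1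
    obtain ⟨q, hq, v, hv, h⟩ := side_exists hM hp1 d1 d2
    refine ⟨mk q hq, ?_⟩
    rw [sb_iff hM h1 (hasDir_mk hM hq hv) h2]
    exact h
  fg := by
    classical
    obtain ⟨S, hS⟩ := fg_of_rep hM
    refine ⟨S.image MulAut.conj, ?_⟩
    rw [Finset.coe_image, ← MonoidHom.map_closure, hS, ← MonoidHom.range_eq_map]
  cent := by
    intro g hg
    ext p
    have h := hg (MulAut.conj p) ⟨p, rfl⟩
    rw [MulAut.one_apply]
    apply conj_inj hM
    have : MulAut.conj (g p) * g = MulAut.conj p * g := by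
      rw [← h]
      ext x
      simp [MulAut.conj_apply, MulAut.mul_apply]
    exact mul_right_cancel this
  nontriv := by
    obtain ⟨p, hp⟩ := nontriv_of_rep hM
    exact ⟨MulAut.conj p, ⟨p, rfl⟩, (conj_ne hM).2 hp⟩


theorem sides_inv (hM : Rep M) : ∀ g : MulAut π, ∀ p ∈ Inn π, p ≠ 1 → ∀ x y,
    SS (sb hM) (atp hM) p x y → SS (sb hM) (atp hM) (g * p * g⁻¹) (g • x) (g • y) := by
  intro g p hp hp1 x y h
  obtain ⟨k, rfl⟩ := mem_inn hp
  rw [conj_ne hM] at hp1
  have hgk : g * MulAut.conj k * g⁻¹ = MulAut.conj (g k) := by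
    ext x
    simp [MulAut.conj_apply, MulAut.mul_apply]
  have hgk1 := map_ne g hp1
  have hk' : k⁻¹ ≠ 1 := by simpa using hp1
  obtain ⟨u₁, u₂, μ, d1, d2, h1, h2, h3, -, -, -⟩ := axis hM hp1
  obtain ⟨u₁', u₂', μ', d1', d2', h1', h2', h3', -, -, -⟩ := axis hM hgk1
  obtain ⟨q, hq, rfl⟩ := exists_mk x
  obtain ⟨r, hr, rfl⟩ := exists_mk y
  obtain ⟨v, hv⟩ := exists_dir (M q) (hM.hyp q hq)
  obtain ⟨w, hw⟩ := exists_dir (M r) (hM.hyp r hr)
  obtain ⟨v', hv'⟩ := exists_dir (M (g q)) (hM.hyp _ (map_ne g hq))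
  obtain ⟨w', hw'⟩ := exists_dir (M (g r)) (hM.hyp _ (map_ne g hr))
  have hdv := hasDir_mk hM hq hv
  have hdw := hasDir_mk hM hr hw
  have hdv' := hasDir_mk hM (map_ne g hq) hv'
  have hdw' := hasDir_mk hM (map_ne g hr) hw'
  -- sides of `x` and `y`
  have hpos : 0 < det2 u₁ v * det2 v u₂ * (det2 u₁ w * det2 w u₂) := by
    unfold SS at h
    rw [sb_iff hM h1 hdv h2, sb_iff hM h1 hdw h2, sb_iff hM h2 hdv h1, sb_iff hM h2 hdw h1] at h
    unfold sbv at h
    rw [det2_anti u₂ u₁, det2_anti u₂ v, det2_anti u₂ w, det2_anti v u₁, det2_anti w u₁] at h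
    have key : 0 < det2 u₁ u₂ ^ 2 * (det2 u₁ v * det2 v u₂ * (det2 u₁ w * det2 w u₂)) := by
      rcases h with ⟨ha, hb⟩ | ⟨ha, hb⟩
      · have := mul_pos ha hb
        refine lt_of_lt_of_eq this ?_
        ring
      · have := mul_pos ha hb
        refine lt_of_lt_of_eq this ?_
        ring
    exact (mul_pos_iff_of_pos_left (by positivity)).1 key
  -- the images are not on the axis
  have himg : ∀ (q : π) (hq : q ≠ 1) (v v' : Fin 2 → ℝ), IsDir (M q) v → IsDir (M (g q)) v' →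
      det2 u₁ v ≠ 0 → det2 v u₂ ≠ 0 → det2 u₁' v' * det2 v' u₂' ≠ 0 := by
    intro q hq v v' hv hv' ha hb
    have hdv := hasDir_mk hM hq hv
    have hdv' := hasDir_mk hM (map_ne g hq) hv'
    rw [← smul_mk g q hq] at hdv'
    have e1 : atp hM (MulAut.conj (g k))⁻¹ = g • atp hM (MulAut.conj k)⁻¹ := by
      rw [← map_inv, ← map_inv, ← map_inv, atp_conj hM hk', atp_conj hM (map_ne g hk'), smul_mk]
    have e2 : atp hM (MulAut.conj (g k)) = g • atp hM (MulAut.conj k) := by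
      rw [atp_conj hM hp1, atp_conj hM hgk1, smul_mk]
    rw [e1] at h1'
    rw [e2] at h2'
    refine mul_ne_zero ?_ ?_
    · rw [Ne, ← hasDir_eq_iff hM h1' hdv', smul_left_cancel_iff, hasDir_eq_iff hM h1 hdv]
      exact ha
    · rw [Ne, ← hasDir_eq_iff hM hdv' h2', smul_left_cancel_iff, hasDir_eq_iff hM hdv h2]
      exact hb
  have n1 : det2 u₁ v ≠ 0 := by rintro h0; rw [h0] at hpos; simp at hpos
  have n2 : det2 v u₂ ≠ 0 := by rintro h0; rw [h0] at hpos; simp at hpos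
  have n3 : det2 u₁ w ≠ 0 := by rintro h0; rw [h0] at hpos; simp at hpos
  have n4 : det2 w u₂ ≠ 0 := by rintro h0; rw [h0] at hpos; simp at hpos
  have hpos' := side_inv hM g hp1 hq hr d1 d2 hv hw d1' d2' hv' hw' hpos
    (himg q hq v v' hv hv' n1 n2) (himg r hr w w' hw hw' n3 n4)
  rw [hgk]
  unfold SS
  rw [smul_mk, smul_mk, sb_iff hM h1' hdv' h2', sb_iff hM h1' hdw' h2', sb_iff hM h2' hdv' h1',
    sb_iff hM h2' hdw' h1']
  unfold sbv
  rw [det2_anti u₂' u₁', det2_anti u₂' v', det2_anti u₂' w', det2_anti v' u₁', det2_anti w' u₁']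
  set δ := det2 u₁' u₂'
  set a := det2 u₁' v' * det2 v' u₂'
  set b := det2 u₁' w' * det2 w' u₂'
  have e3 : -det2 v' u₂' * -det2 u₁' v' * δ = a * δ := by simp only [a]; ring
  have e4 : -det2 w' u₂' * -det2 u₁' w' * δ = b * δ := by simp only [b]; ring
  rw [e3, e4]
  have hδ : 0 < δ ^ 2 := by positivity
  have ha : a * δ ≠ 0 := by
    refine mul_ne_zero ?_ h3'
    rintro h0; rw [h0] at hpos'; simp at hpos'
  rcases lt_or_gt_of_ne ha with h0 | h0
  · left
    refine ⟨by linarith, ?_⟩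
    by_contra hc
    push Not at hc
    have hc' : 0 ≤ b * δ := by linarith
    nlinarith [mul_nonneg hc' (neg_nonneg.2 h0.le), mul_pos hpos' hδ]
  · right
    refine ⟨h0, ?_⟩
    by_contra hc
    push Not at hc
    nlinarith [mul_nonneg (neg_nonneg.2 hc) h0.le, mul_pos hpos' hδ]

end System

end Circle

theorem cs_of_rep {π : Type u} [Group π] {M : π → SL(2, ℝ)} (hM : Rep M) :
    ∃ (E : Type u) (_ : MulAction (MulAut π) E) (sb : E → E → E → Prop) (at' : MulAut π → E),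
      CS (Inn π) sb at' :=
  ⟨Circle.Ends π, inferInstance, Circle.sb hM, Circle.atp hM,
    { Circle.cs0 hM with crG := crG_of_sides (Circle.cs0 hM) (Circle.sides_inv hM) }⟩

end Pool.Agent.MP_e058c8_al
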