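import Pool.Agent.MP_e058c8_al.ProjBase
import Pool.Agent.MP_e058c8_al.Bound

/-! Task G1: counting walls. -/

namespace Pool.Agent.MP_e058c8_al

open scoped Pointwise

namespace Counts

open KBound

variable {G : Type*} {E : Type*} [Group G] [MulAction G E] {P : Subgroup G}
  {sb : E → E → E → Prop} {at' : G → E} {a : G}

/-! ### Dynamics of one element -/

theorem arcL_zpow (hC : CS P sb at') {b : G} (hb : b ∈ P) (hb1 : b ≠ 1) {x : E}
    (hx : sb (at' b⁻¹) x (at' b)) (i : ℤ) : sb (at' b⁻¹) (b ^ i • x) (at' b) := by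
  have h := hC.sbP (b ^ i) (zpow_mem hb i) _ _ _ hx
  rwa [at_fix_zpow hC hb hb1, at_fix_inv_zpow hC hb hb1] at h

theorem arcR_zpow (hC : CS P sb at') {b : G} (hb : b ∈ P) (hb1 : b ≠ 1) {x : E}
    (hx : sb (at' b) x (at' b⁻¹)) (i : ℤ) : sb (at' b) (b ^ i • x) (at' b⁻¹) := by
  have h := hC.sbP (b ^ i) (zpow_mem hb i) _ _ _ hx
  rwa [at_fix_zpow hC hb hb1, at_fix_inv_zpow hC hb hb1] at h

theorem mvL (hC : CS P sb at') {b : G} (hb : b ∈ P) (hb1 : b ≠ 1) {x : E}
    (hx : sb (at' b⁻¹) x (at' b)) {i j : ℤ} (hij : i < j) :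
    sb (at' b⁻¹) (b ^ i • x) (b ^ j • x) := by
  obtain ⟨k, rfl⟩ : ∃ k : ℕ, j = i + (k + 1 : ℤ) := ⟨(j - i - 1).toNat, by omega⟩
  clear hij
  induction k with
  | zero =>
    have h := hC.move b hb hb1 _ (arcL_zpow hC hb hb1 hx i)
    rw [← mul_smul, ← zpow_one_add] at h
    rwa [show i + (((0 : ℕ) : ℤ) + 1) = 1 + i by push_cast; ring]
  | succ k ih =>
    have h := hC.move b hb hb1 _ (arcL_zpow hC hb hb1 hx (i + (k + 1 : ℤ)))
    rw [← mul_smul, ← zpow_one_add] at h
    rw [show i + (((k + 1 : ℕ) : ℤ) + 1) = 1 + (i + (k + 1 : ℤ)) by push_cast; ring]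
    exact hC.cyc.trans _ _ _ _ ih h

theorem mvR (hC : CS P sb at') {b : G} (hb : b ∈ P) (hb1 : b ≠ 1) {x : E}
    (hx : sb (at' b) x (at' b⁻¹)) {i j : ℤ} (hij : i < j) :
    sb (at' b) (b ^ j • x) (b ^ i • x) := by
  have h := mvL hC (inv_mem hb) (inv_ne_one.2 hb1) (x := x) (by rwa [inv_inv])
    (i := -j) (j := -i) (by omega)
  rw [inv_inv, inv_zpow, inv_zpow] at h
  simpa using h

theorem archL (hC : CS P sb at') {b : G} (hb : b ∈ P) (hb1 : b ≠ 1) {x y : E}
    (hx : sb (at' b⁻¹) x (at' b)) (hy : sb (at' b⁻¹) y (at' b)) :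
    ∃ N : ℤ, ∀ i, N ≤ i → sb (at' b⁻¹) y (b ^ i • x) := by
  obtain ⟨n, hn⟩ := hC.arch b hb hb1 x y hx hy
  refine ⟨n, fun i hi => ?_⟩
  rcases hi.eq_or_lt with rfl | hi
  · rwa [zpow_natCast]
  · have h := mvL hC hb hb1 hx hi
    rw [zpow_natCast] at h
    exact hC.cyc.trans _ _ _ _ hn h

theorem archL' (hC : CS P sb at') {b : G} (hb : b ∈ P) (hb1 : b ≠ 1) {x y : E}
    (hx : sb (at' b⁻¹) x (at' b)) (hy : sb (at' b⁻¹) y (at' b)) :
    ∃ N : ℤ, ∀ i, i ≤ N → sb (at' b⁻¹) (b ^ i • x) y := by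
  obtain ⟨N, hN⟩ := archL hC hb hb1 hy hx
  refine ⟨-N, fun i hi => ?_⟩
  have h := hC.sbP (b ^ i) (zpow_mem hb i) _ _ _ (hN (-i) (by omega))
  rwa [at_fix_inv_zpow hC hb hb1, ← mul_smul, ← zpow_add, add_neg_cancel, zpow_zero,
    one_smul] at h

theorem archR (hC : CS P sb at') {b : G} (hb : b ∈ P) (hb1 : b ≠ 1) {x y : E}
    (hx : sb (at' b) x (at' b⁻¹)) (hy : sb (at' b) y (at' b⁻¹)) :
    ∃ N : ℤ, ∀ i, N ≤ i → sb (at' b) (b ^ i • x) y := by
  obtain ⟨N, hN⟩ := archL' hC (inv_mem hb) (inv_ne_one.2 hb1) (x := x) (y := y)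
    (by rwa [inv_inv]) (by rwa [inv_inv])
  refine ⟨-N, fun i hi => ?_⟩
  have h := hN (-i) (by omega)
  rw [inv_inv, inv_zpow] at h
  simpa using h

theorem archR' (hC : CS P sb at') {b : G} (hb : b ∈ P) (hb1 : b ≠ 1) {x y : E}
    (hx : sb (at' b) x (at' b⁻¹)) (hy : sb (at' b) y (at' b⁻¹)) :
    ∃ N : ℤ, ∀ i, i ≤ N → sb (at' b) y (b ^ i • x) := by
  obtain ⟨N, hN⟩ := archL hC (inv_mem hb) (inv_ne_one.2 hb1) (x := x) (y := y)
    (by rwa [inv_inv]) (by rwa [inv_inv])
  refine ⟨-N, fun i hi => ?_⟩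
  have h := hN (-i) (by omega)
  rw [inv_inv, inv_zpow] at h
  simpa using h

theorem arc_cases (hC : CS P sb at') {b : G} (hb : b ∈ P) (hb1 : b ≠ 1) {x : E}
    (h1 : x ≠ at' b⁻¹) (h2 : x ≠ at' b) :
    sb (at' b⁻¹) x (at' b) ∨ sb (at' b) x (at' b⁻¹) := by
  rcases hC.cyc.total (at' b⁻¹) x (at' b) h1.symm h2 (hC.at_ne b hb hb1) with h | h
  · exact Or.inl h
  · exact Or.inr (hC.cyc.rot _ _ _ h)

/-- for large `i`, the point `x` is on the side of `b⁻` of the chord `b ^ i • {l, r}` -/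
theorem before (hC : CS P sb at') {b : G} (hb : b ∈ P) (hb1 : b ≠ 1) {x l r : E}
    (h1 : x ≠ at' b⁻¹) (h2 : x ≠ at' b) (hl : sb (at' b⁻¹) l (at' b))
    (hr : sb (at' b) r (at' b⁻¹)) :
    ∃ N : ℤ, ∀ i, N ≤ i → Cr sb (b ^ i • l) (b ^ i • r) x (at' b) := by
  have hc := hC.cyc
  rcases arc_cases hC hb hb1 h1 h2 with hx | hx
  · obtain ⟨N, hN⟩ := archL hC hb hb1 hl hx
    refine ⟨N, fun i hi => ?_⟩
    have e1 := hN i hi
    have e2 := arcL_zpow hC hb hb1 hl i
    have e3 := arcR_zpow hC hb hb1 hr i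
    generalize b ^ i • l = l' at *
    generalize b ^ i • r = r' at *
    generalize at' b⁻¹ = u at *
    generalize at' b = v at *
    clear hl hr hN h1 h2 hb hb1
    have := hC.toCS0.countable
    obtain ⟨ρ_, hinj_, hr_⟩ := CycOrd.rk hc
    simp only [Cr, ne_eq, hinj_, hr_] at *
    clear hinj_ hr_
    grind (splits := 40)
  · obtain ⟨N, hN⟩ := archR hC hb hb1 hr hx
    refine ⟨N, fun i hi => ?_⟩
    have e1 := hN i hi
    have e2 := arcL_zpow hC hb hb1 hl i
    have e3 := arcR_zpow hC hb hb1 hr i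
    generalize b ^ i • l = l' at *
    generalize b ^ i • r = r' at *
    generalize at' b⁻¹ = u at *
    generalize at' b = v at *
    clear hl hr hN h1 h2 hb hb1
    have := hC.toCS0.countable
    obtain ⟨ρ_, hinj_, hr_⟩ := CycOrd.rk hc
    simp only [Cr, ne_eq, hinj_, hr_] at *
    clear hinj_ hr_
    grind (splits := 40)

/-- for small `i`, the point `x` is on the side of `b⁺` of the chord `b ^ i • {l, r}` -/
theorem after (hC : CS P sb at') {b : G} (hb : b ∈ P) (hb1 : b ≠ 1) {x l r : E}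
    (h1 : x ≠ at' b⁻¹) (h2 : x ≠ at' b) (hl : sb (at' b⁻¹) l (at' b))
    (hr : sb (at' b) r (at' b⁻¹)) :
    ∃ N : ℤ, ∀ i, i ≤ N → Cr sb (b ^ i • l) (b ^ i • r) x (at' b⁻¹) := by
  have hc := hC.cyc
  rcases arc_cases hC hb hb1 h1 h2 with hx | hx
  · obtain ⟨N, hN⟩ := archL' hC hb hb1 hl hx
    refine ⟨N, fun i hi => ?_⟩
    have e1 := hN i hi
    have e2 := arcL_zpow hC hb hb1 hl i
    have e3 := arcR_zpow hC hb hb1 hr i
    generalize b ^ i • l = l' at *
    generalize b ^ i • r = r' at *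
    generalize at' b⁻¹ = u at *
    generalize at' b = v at *
    clear hl hr hN h1 h2 hb hb1
    have := hC.toCS0.countable
    obtain ⟨ρ_, hinj_, hr_⟩ := CycOrd.rk hc
    simp only [Cr, ne_eq, hinj_, hr_] at *
    clear hinj_ hr_
    grind (splits := 40)
  · obtain ⟨N, hN⟩ := archR' hC hb hb1 hr hx
    refine ⟨N, fun i hi => ?_⟩
    have e1 := hN i hi
    have e2 := arcL_zpow hC hb hb1 hl i
    have e3 := arcR_zpow hC hb hb1 hr i
    generalize b ^ i • l = l' at *
    generalize b ^ i • r = r' at *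
    generalize at' b⁻¹ = u at *
    generalize at' b = v at *
    clear hl hr hN h1 h2 hb hb1
    have := hC.toCS0.countable
    obtain ⟨ρ_, hinj_, hr_⟩ := CycOrd.rk hc
    simp only [Cr, ne_eq, hinj_, hr_] at *
    clear hinj_ hr_
    grind (splits := 40)

/-! ### Walls -/

theorem crS_Ln (hC : CS P sb at') {p q : G} (h : CrS sb (Ln at' p) (Ln at' q)) :
    LCr sb at' p q := by
  have hc := hC.cyc
  obtain ⟨u, hu, v, hv, s, hs, t, ht, hcr⟩ := h
  have hne := hcr.ne hc
  unfold LCr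
  simp only [Ln, Set.mem_insert_iff, Set.mem_singleton_iff] at hu hv hs ht
  rcases hu with rfl | rfl <;> rcases hv with rfl | rfl
  · exact absurd rfl hne.1
  · rcases hs with rfl | rfl <;> rcases ht with rfl | rfl
    · exact absurd rfl hne.2.2.2.2.2
    · exact hcr
    · exact hcr.swap₂
    · exact absurd rfl hne.2.2.2.2.2
  · rcases hs with rfl | rfl <;> rcases ht with rfl | rfl
    · exact absurd rfl hne.2.2.2.2.2
    · exact hcr.swap₁
    · exact hcr.swap₁.swap₂
    · exact absurd rfl hne.2.2.2.2.2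
  · exact absurd rfl hne.1

omit [MulAction G E] in
theorem crS_of_LCr {p q : G} (h : LCr sb at' p q) : CrS sb (Ln at' p) (Ln at' q) :=
  ⟨_, Or.inl rfl, _, Or.inr rfl, _, Or.inl rfl, _, Or.inr rfl, h⟩

/-- the two ends of a line crossing the axis of `b` -/
theorem wall_ends (hC : CS P sb at') (ha : Filling P sb at' a) {b : G} {V : Lines G at' a}
    (h : CrS sb (Ln at' b) V.1) :
    ∃ l r, sb (at' b⁻¹) l (at' b) ∧ sb (at' b) r (at' b⁻¹) ∧ V.1 = {l, r} := by
  have hc := hC.cyc
  obtain ⟨x, y, hxy, hV⟩ := line_pair hC ha V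
  obtain ⟨u, hu, v, hv, s, hs, t, ht, hcr⟩ := h
  have hne := hcr.ne hc
  rw [hV] at hs ht
  simp only [Ln, Set.mem_insert_iff, Set.mem_singleton_iff] at hu hv hs ht
  have key : Cr sb (at' b⁻¹) (at' b) x y := by
    rcases hu with rfl | rfl <;> rcases hv with rfl | rfl
    · exact absurd rfl hne.1
    · rcases hs with rfl | rfl <;> rcases ht with rfl | rfl
      · exact absurd rfl hne.2.2.2.2.2
      · exact hcr
      · exact hcr.swap₂
      · exact absurd rfl hne.2.2.2.2.2
    · rcases hs with rfl | rfl <;> rcases ht with rfl | rfl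
      · exact absurd rfl hne.2.2.2.2.2
      · exact hcr.swap₁
      · exact hcr.swap₁.swap₂
      · exact absurd rfl hne.2.2.2.2.2
    · exact absurd rfl hne.1
  rcases key with ⟨h1, h2⟩ | ⟨h1, h2⟩
  · exact ⟨x, y, h1, h2, hV⟩
  · exact ⟨y, x, h1, h2, by rw [hV, Set.pair_comm]⟩

theorem smul_pair' (g : G) (V : Lines G at' a) {l r : E} (hV : V.1 = {l, r}) :
    (g • V : Lines G at' a).1 = {g • l, g • r} := by
  rw [MulAction.orbit.coe_smul, hV, Set.smul_set_insert, Set.smul_set_singleton]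

/-- separation in terms of points -/
theorem sep_points (hC : CS P sb at') {V X Z : Set E} {l r x z : E} (hV : V = {l, r})
    (h : SepS sb V X Z) (hx : x ∈ X) (hz : z ∈ Z) : Cr sb l r x z := by
  obtain ⟨u, hu, v, hv, H⟩ := h
  have hcr := H x hx z hz
  have hne := hcr.ne hC.cyc
  rw [hV] at hu hv
  simp only [Set.mem_insert_iff, Set.mem_singleton_iff] at hu hv
  rcases hu with rfl | rfl <;> rcases hv with rfl | rfl
  · exact absurd rfl hne.1
  · exact hcr
  · exact hcr.swap₁
  · exact absurd rfl hne.1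

theorem a_fix (hC : CS P sb at') (ha : Filling P sb at' a) (i : ℤ) :
    a ^ i • baseLine G at' a = baseLine G at' a := by
  apply Subtype.ext
  rw [MulAction.orbit.coe_smul]
  change a ^ i • Ln at' a = Ln at' a
  rw [smul_Ln hC _ ha.mem ha.ne]
  congr 1
  group

theorem b_fix (hC : CS P sb at') (ha : Filling P sb at' a) (g : G) (i : ℤ) :
    (g * a * g⁻¹) ^ i • g • baseLine G at' a = g • baseLine G at' a := by
  rw [conj_zpow, mul_smul, mul_smul, inv_smul_smul, a_fix hC ha]

theorem exists_cover (hC : CS P sb at') (ha : Filling P sb at' a) : ∃ F : Finset G,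
    ∀ g : G, ∀ V ∈ walls P sb (g • baseLine G at' a), ∃ f ∈ F,
      g • f • baseLine G at' a ∈ walls P sb (g • baseLine G at' a) ∧
      ∃ i : ℤ, V = (g * a * g⁻¹) ^ i • g • f • baseLine G at' a := by
  obtain ⟨F, hF, H⟩ := hC.fin a ha.mem ha.ne
  refine ⟨hF.toFinset, ?_⟩
  rintro g V ⟨⟨k, hk, rfl⟩, hcr⟩
  have hk' : g⁻¹ * k * g ∈ P := by
    have := hC.normal.conj_mem k hk g⁻¹
    rwa [inv_inv] at this
  have h1 := crS_smul hC g⁻¹ hcr
  have e1 : g⁻¹ • (g • baseLine G at' a : Lines G at' a).1 = Ln at' a := by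
    rw [MulAction.orbit.coe_smul, inv_smul_smul]
    rfl
  have e2 : g⁻¹ • (k • g • baseLine G at' a : Lines G at' a).1 =
      {(g⁻¹ * k * g) • at' a⁻¹, (g⁻¹ * k * g) • at' a} := by
    rw [MulAction.orbit.coe_smul, MulAction.orbit.coe_smul, smul_smul, smul_smul]
    change (g⁻¹ * k * g) • ({at' a⁻¹, at' a} : Set E) = _
    rw [Set.smul_set_insert, Set.smul_set_singleton]
  rw [e1, e2] at h1
  have h2 : Cr sb (at' a⁻¹) (at' a) ((g⁻¹ * k * g) • at' a⁻¹) ((g⁻¹ * k * g) • at' a) := by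
    obtain ⟨u, hu, v, hv, s, hs, t, ht, hcr'⟩ := h1
    have hne := hcr'.ne hC.cyc
    simp only [Ln, Set.mem_insert_iff, Set.mem_singleton_iff] at hu hv hs ht
    rcases hu with rfl | rfl <;> rcases hv with rfl | rfl
    · exact absurd rfl hne.1
    · rcases hs with rfl | rfl <;> rcases ht with rfl | rfl
      · exact absurd rfl hne.2.2.2.2.2
      · exact hcr'
      · exact hcr'.swap₂
      · exact absurd rfl hne.2.2.2.2.2
    · rcases hs with rfl | rfl <;> rcases ht with rfl | rfl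
      · exact absurd rfl hne.2.2.2.2.2
      · exact hcr'.swap₁
      · exact hcr'.swap₁.swap₂
      · exact absurd rfl hne.2.2.2.2.2
    · exact absurd rfl hne.1
  obtain ⟨i, j, f, hf, hfe⟩ := H _ hk' h2
  have hfP : f ∈ P := by
    have : f = a ^ (-i) * (g⁻¹ * k * g) * a ^ (-j) := by
      rw [hfe]
      group
    rw [this]
    exact mul_mem (mul_mem (zpow_mem ha.mem _) hk') (zpow_mem ha.mem _)
  have hV : k • g • baseLine G at' a = (g * a * g⁻¹) ^ i • g • f • baseLine G at' a := by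
    have : k • g • baseLine G at' a = g • (g⁻¹ * k * g) • baseLine G at' a := by
      rw [smul_smul, smul_smul]
      congr 1
      group
    rw [this, hfe, mul_smul, mul_smul, a_fix hC ha, conj_zpow, mul_smul (g * a ^ i), mul_smul g,
      inv_smul_smul]
  refine ⟨f, hF.mem_toFinset.2 hf, ⟨⟨g * f * g⁻¹, hC.normal.conj_mem f hfP g, ?_⟩, ?_⟩, i, hV⟩
  · rw [mul_smul, mul_smul, inv_smul_smul]
  · have h3 := crS_smul hC ((g * a * g⁻¹) ^ (-i)) hcr
    rw [← MulAction.orbit.coe_smul, ← MulAction.orbit.coe_smul, b_fix hC ha, hV, smul_smul,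
      ← zpow_add, neg_add_cancel, zpow_zero, one_smul] at h3
    exact h3

theorem count_fin {α ι : Type*} (F : Finset ι) (S : Set α) (φ : ι → ℤ → α) (good : ι → Prop)
    (hS : ∀ V ∈ S, ∃ f ∈ F, good f ∧ ∃ i, V = φ f i)
    (hB : ∀ f ∈ F, good f → {i | φ f i ∈ S}.Finite) : S.Finite := by
  classical
  have h1 : S ⊆ ⋃ f ∈ {f | f ∈ F ∧ good f}, φ f '' {i | φ f i ∈ S} := by
    intro V hV
    obtain ⟨f, hf, hg, i, rfl⟩ := hS V hV
    exact Set.mem_biUnion (show f ∈ {f | f ∈ F ∧ good f} from ⟨hf, hg⟩) ⟨i, hV, rfl⟩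
  refine Set.Finite.subset (Set.Finite.biUnion ?_ ?_) h1
  · exact F.finite_toSet.subset fun f hf => hf.1
  · rintro f ⟨hf, hg⟩
    exact (hB f hf hg).image _

theorem count_card {α ι : Type*} (F : Finset ι) (B : ℕ) (S : Set α) (φ : ι → ℤ → α)
    (good : ι → Prop) (hS : ∀ V ∈ S, ∃ f ∈ F, good f ∧ ∃ i, V = φ f i)
    (hB : ∀ f ∈ F, good f → ∃ s : Finset ℤ, s.card ≤ B ∧ ∀ i, φ f i ∈ S → i ∈ s) :
    S.Finite ∧ S.ncard ≤ F.card * B := by
  classical
  have hB' : ∀ f : ι, ∃ s : Finset ℤ, s.card ≤ B ∧ (f ∈ F → good f → ∀ i, φ f i ∈ S → i ∈ s) := by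
    intro f
    by_cases h : f ∈ F ∧ good f
    · obtain ⟨s, h1, h2⟩ := hB f h.1 h.2
      exact ⟨s, h1, fun _ _ => h2⟩
    · exact ⟨∅, by simp, fun h1 h2 => absurd ⟨h1, h2⟩ h⟩
  choose s hs1 hs2 using hB'
  have h1 : S ⊆ ((F.biUnion fun f => (s f).image (φ f) : Finset α) : Set α) := by
    intro V hV
    obtain ⟨f, hf, hg, i, rfl⟩ := hS V hV
    rw [Finset.mem_coe, Finset.mem_biUnion]
    exact ⟨f, hf, Finset.mem_image_of_mem _ (hs2 f hf hg i hV)⟩
  refine ⟨(Finset.finite_toSet _).subset h1, ?_⟩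
  refine (Set.ncard_le_ncard h1 (Finset.finite_toSet _)).trans ?_
  rw [Set.ncard_coe_finset]
  refine Finset.card_biUnion_le.trans ?_
  rw [← smul_eq_mul]
  exact Finset.sum_le_card_nsmul _ _ _ fun f _ => Finset.card_image_le.trans (hs1 f)

end Counts

section Main

open Counts KBound

variable {G : Type*} {E : Type*} [Group G] [MulAction G E] {P : Subgroup G}
  {sb : E → E → E → Prop} {at' : G → E} {a : G}

/-- one constant bounding the number of walls of `Y` which cross or equal a line `W ≠ Y` -/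
theorem walls_bound (hC : CS P sb at') (ha : Filling P sb at' a) : ∃ θ : ℕ,
    ∀ Y W : Lines G at' a, W ≠ Y →
      {V | V ∈ walls P sb Y ∧ (CrS sb V.1 W.1 ∨ V = W)}.Finite ∧
      Set.ncard {V | V ∈ walls P sb Y ∧ (CrS sb V.1 W.1 ∨ V = W)} ≤ θ := by
  obtain ⟨F, hF⟩ := exists_cover hC ha
  obtain ⟨B, hB⟩ := crossing_bound hC ha
  refine ⟨F.card * B + 1, ?_⟩
  intro Y W hne
  obtain ⟨g, rfl, hY⟩ := line_eq hC ha Y
  obtain ⟨g', hW', hW⟩ := line_eq hC ha W
  have hb : g * a * g⁻¹ ∈ P := hC.normal.conj_mem a ha.mem g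
  have hb1 : g * a * g⁻¹ ≠ 1 := fun h => ha.ne (by
    have : a = g⁻¹ * (g * a * g⁻¹) * g := by group
    rw [this, h]
    group)
  have key := count_card F B {V | V ∈ walls P sb (g • baseLine G at' a) ∧ CrS sb V.1 W.1}
    (fun f i => (g * a * g⁻¹) ^ i • g • f • baseLine G at' a)
    (fun f => g • f • baseLine G at' a ∈ walls P sb (g • baseLine G at' a)) ?_ ?_
  · have hsub : {V | V ∈ walls P sb (g • baseLine G at' a) ∧ (CrS sb V.1 W.1 ∨ V = W)} ⊆
        {V | V ∈ walls P sb (g • baseLine G at' a) ∧ CrS sb V.1 W.1} ∪ {W} := by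
      rintro V ⟨h1, h2 | h2⟩
      · exact Or.inl ⟨h1, h2⟩
      · exact Or.inr h2
    have hfin := key.1.union (Set.finite_singleton W)
    refine ⟨hfin.subset hsub, (Set.ncard_le_ncard hsub hfin).trans ?_⟩
    refine (Set.ncard_union_le _ _).trans ?_
    rw [Set.ncard_singleton]
    have := key.2
    omega
  · rintro V ⟨hV, -⟩
    obtain ⟨f, hf, h1, i, hi⟩ := hF g V hV
    exact ⟨f, hf, h1, i, hi⟩
  · intro f _ hf
    obtain ⟨⟨k, hk, hfk⟩, hcr⟩ := hf
    have eL : ∀ i : ℤ, ((g * a * g⁻¹) ^ i • g • f • baseLine G at' a : Lines G at' a).1 =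
        Ln at' ((g * a * g⁻¹) ^ i * (k * (g * a * g⁻¹) * k⁻¹) * (g * a * g⁻¹) ^ (-i)) := by
      intro i
      rw [hfk, MulAction.orbit.coe_smul, MulAction.orbit.coe_smul, hY, smul_Ln hC _ hb hb1,
        smul_Ln hC _ (hC.normal.conj_mem _ hb k) ?_, zpow_neg]
      intro h
      apply hb1
      have : g * a * g⁻¹ = k⁻¹ * (k * (g * a * g⁻¹) * k⁻¹) * k := by group
      rw [this, h, mul_one, inv_mul_cancel]
    have hn1 : at' (g' * a * g'⁻¹) ≠ at' (g * a * g⁻¹) := by
      intro h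
      apply hne
      refine line_disj hC ha (x := at' (g' * a * g'⁻¹)) ?_ ?_
      · rw [hW]
        exact Or.inr rfl
      · rw [hY, h]
        exact Or.inr rfl
    have hn2 : at' (g' * a * g'⁻¹) ≠ at' (g * a * g⁻¹)⁻¹ := by
      intro h
      apply hne
      refine line_disj hC ha (x := at' (g' * a * g'⁻¹)) ?_ ?_
      · rw [hW]
        exact Or.inr rfl
      · rw [hY, h]
        exact Or.inl rfl
    have hn3 : LCr sb at' (g * a * g⁻¹) (k * (g * a * g⁻¹) * k⁻¹) := by
      have h1 := eL 0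
      rw [zpow_zero, one_smul, neg_zero, zpow_zero, one_mul, mul_one] at h1
      rw [hY, h1] at hcr
      exact crS_Ln hC hcr
    obtain ⟨s, hs1, hs2⟩ := hB g g' k hk hn1 hn2 hn3
    refine ⟨s, hs1, fun i hi => hs2 i ?_⟩
    have h1 := hi.2
    rw [eL, hW] at h1
    exact crS_Ln hC h1

theorem sep_finite (hC : CS P sb at') (ha : Filling P sb at' a) (Y X Z : Lines G at' a) :
    {V | V ∈ walls P sb Y ∧ SepS sb V.1 X.1 Z.1}.Finite := by
  by_cases hXY : X = Y
  · subst hXY
    convert Set.finite_empty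
    rw [Set.eq_empty_iff_forall_notMem]
    rintro V ⟨h1, h2⟩
    exact (sep_not_cr hC ha h2).2.2.2.1 (crS_symm hC h1.2)
  by_cases hZY : Z = Y
  · subst hZY
    convert Set.finite_empty
    rw [Set.eq_empty_iff_forall_notMem]
    rintro V ⟨h1, h2⟩
    exact (sep_not_cr hC ha h2).2.2.2.2.1 (crS_symm hC h1.2)
  obtain ⟨F, hF⟩ := exists_cover hC ha
  obtain ⟨g, rfl, hY⟩ := line_eq hC ha Y
  have hb : g * a * g⁻¹ ∈ P := hC.normal.conj_mem a ha.mem g
  have hb1 : g * a * g⁻¹ ≠ 1 := fun h => ha.ne (by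
    have : a = g⁻¹ * (g * a * g⁻¹) * g := by group
    rw [this, h]
    group)
  obtain ⟨x, x', hxx, hX⟩ := line_pair hC ha X
  obtain ⟨z, z', hzz, hZ⟩ := line_pair hC ha Z
  have hxX : x ∈ X.1 := by rw [hX]; exact Or.inl rfl
  have hzZ : z ∈ Z.1 := by rw [hZ]; exact Or.inl rfl
  have hx1 : x ≠ at' (g * a * g⁻¹)⁻¹ := fun h => hXY (line_disj hC ha hxX (by
    rw [hY, h]; exact Or.inl rfl))
  have hx2 : x ≠ at' (g * a * g⁻¹) := fun h => hXY (line_disj hC ha hxX (by
    rw [hY, h]; exact Or.inr rfl))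
  have hz1 : z ≠ at' (g * a * g⁻¹)⁻¹ := fun h => hZY (line_disj hC ha hzZ (by
    rw [hY, h]; exact Or.inl rfl))
  have hz2 : z ≠ at' (g * a * g⁻¹) := fun h => hZY (line_disj hC ha hzZ (by
    rw [hY, h]; exact Or.inr rfl))
  refine count_fin F _ (fun f i => (g * a * g⁻¹) ^ i • g • f • baseLine G at' a)
    (fun f => g • f • baseLine G at' a ∈ walls P sb (g • baseLine G at' a)) ?_ ?_
  · rintro V ⟨hV, -⟩
    obtain ⟨f, hf, h1, i, hi⟩ := hF g V hV
    exact ⟨f, hf, h1, i, hi⟩
  · intro f _ hf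
    have hcr := hf.2
    rw [hY] at hcr
    obtain ⟨l, r, hl, hr, hV⟩ := wall_ends hC ha hcr
    obtain ⟨N1, hN1⟩ := before hC hb hb1 hx1 hx2 hl hr
    obtain ⟨N2, hN2⟩ := before hC hb hb1 hz1 hz2 hl hr
    obtain ⟨N3, hN3⟩ := after hC hb hb1 hx1 hx2 hl hr
    obtain ⟨N4, hN4⟩ := after hC hb hb1 hz1 hz2 hl hr
    refine (Set.finite_Icc (min N3 N4) (max N1 N2)).subset ?_
    rintro i ⟨-, hi⟩
    have hp := sep_points hC (smul_pair' _ _ hV) hi hxX hzZ
    have hc := hC.cyc
    rw [Set.mem_Icc]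
    constructor
    · by_contra hcon
      push Not at hcon
      have e1 := hN3 i (by have := min_le_left N3 N4; omega)
      have e2 := hN4 i (by have := min_le_right N3 N4; omega)
      generalize (g * a * g⁻¹) ^ i • l = l' at *
      generalize (g * a * g⁻¹) ^ i • r = r' at *
      generalize at' (g * a * g⁻¹)⁻¹ = u at *
      clear hX hZ hN1 hN2 hN3 hN4 hxX hzZ hx1 hx2 hz1 hz2 hl hr hcr hV hXY hZY hY hxx hzz
      have := hC.toCS0.countable
      obtain ⟨ρ_, hinj_, hr_⟩ := CycOrd.rk hc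
      simp only [Cr, ne_eq, hinj_, hr_] at *
      clear hinj_ hr_
      grind (splits := 40)
    · by_contra hcon
      push Not at hcon
      have e1 := hN1 i (by have := le_max_left N1 N2; omega)
      have e2 := hN2 i (by have := le_max_right N1 N2; omega)
      generalize (g * a * g⁻¹) ^ i • l = l' at *
      generalize (g * a * g⁻¹) ^ i • r = r' at *
      generalize at' (g * a * g⁻¹) = v at *
      clear hX hZ hN1 hN2 hN3 hN4 hxX hzZ hx1 hx2 hz1 hz2 hl hr hcr hV hXY hZY hY hxx hzz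
      have := hC.toCS0.countable
      obtain ⟨ρ_, hinj_, hr_⟩ := CycOrd.rk hc
      simp only [Cr, ne_eq, hinj_, hr_] at *
      clear hinj_ hr_
      grind (splits := 40)

theorem exists_wall (hC : CS P sb at') (ha : Filling P sb at' a) :
    ∃ h ∈ P, CrS sb (baseLine G at' a).1 (h • baseLine G at' a).1 := by
  rcases (ha.conn a ha.mem).cases_head with h | ⟨c, ⟨-, hc, h⟩, -⟩
  · exact absurd h.symm ha.ne
  · refine ⟨c, hc, ?_⟩
    have h1 := crS_of_LCr h
    rw [inv_one, mul_one, one_mul, ← smul_Ln hC c ha.mem ha.ne] at h1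
    rw [MulAction.orbit.coe_smul]
    exact h1

theorem pd_step (hC : CS P sb at') (ha : Filling P sb at' a) : ∃ m : ℕ, ∀ X : Lines G at' a,
    X ≠ baseLine G at' a → pd P sb (baseLine G at' a) X (a • X) ≤ m := by
  obtain ⟨F, hF⟩ := exists_cover hC ha
  refine ⟨F.card * 1, fun X hX => ?_⟩
  have haP := ha.mem
  have ha1 := ha.ne
  obtain ⟨x, x', hxx, hXe⟩ := line_pair hC ha X
  have hxX : x ∈ X.1 := by rw [hXe]; exact Or.inl rfl
  have hx1 : x ≠ at' a⁻¹ := fun h => hX (line_disj hC ha hxX (h ▸ Or.inl rfl))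
  have hx2 : x ≠ at' a := fun h => hX (line_disj hC ha hxX (h ▸ Or.inr rfl))
  have e1a : (1 : G) • baseLine G at' a = baseLine G at' a := one_smul _ _
  have hcov := hF 1
  rw [e1a] at hcov
  refine (count_card F 1 {V | V ∈ walls P sb (baseLine G at' a) ∧ SepS sb V.1 X.1 (a • X).1}
    (fun f i => a ^ i • f • baseLine G at' a)
    (fun f => f • baseLine G at' a ∈ walls P sb (baseLine G at' a)) ?_ ?_).2
  · rintro V ⟨hV, -⟩
    obtain ⟨f, hf, h1, i, hi⟩ := hcov V hV
    rw [one_smul] at h1 hi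
    rw [one_mul, inv_one, mul_one] at hi
    exact ⟨f, hf, h1, i, hi⟩
  · intro f _ hf
    obtain ⟨l, r, hl, hr, hV⟩ := wall_ends hC ha hf.2
    have hc := hC.cyc
    -- at most one `i`
    have key : ∀ i j : ℤ, i < j →
        SepS sb (a ^ i • f • baseLine G at' a : Lines G at' a).1 X.1 (a • X).1 →
        SepS sb (a ^ j • f • baseLine G at' a : Lines G at' a).1 X.1 (a • X).1 → False := by
      intro i j hij hi hj
      have haX : a • x ∈ (a • X).1 := by
        rw [MulAction.orbit.coe_smul]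
        exact Set.smul_mem_smul_set hxX
      have pi := sep_points hC (smul_pair' _ _ hV) hi hxX haX
      have pj := sep_points hC (smul_pair' _ _ hV) hj hxX haX
      rcases arc_cases hC haP ha1 hx1 hx2 with hx | hx
      · have e1 := arcL_zpow hC haP ha1 hl i
        have e2 := arcR_zpow hC haP ha1 hr i
        have e3 := arcL_zpow hC haP ha1 hl j
        have e4 := arcR_zpow hC haP ha1 hr j
        have e5 := hC.move a haP ha1 x hx
        have e6 := arcL_zpow hC haP ha1 hx 1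
        rw [zpow_one] at e6
        -- `x < a ^ i l` hence `a x < a ^ (i+1) l ≤ a ^ j l`
        have f1 : sb (at' a⁻¹) x (a ^ i • l) := by
          clear hF hcov hX hXe hxX hx1 hx2 hV hi hj pj e3 e4 haX hf
          generalize a ^ i • l = l' at *
          generalize a ^ i • r = r' at *
          generalize at' a⁻¹ = u at *
          generalize at' a = v at *
          generalize a • x = y at *
          clear hxx hl hr
          have := hC.toCS0.countable
          obtain ⟨ρ_, hinj_, hr_⟩ := CycOrd.rk hc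
          simp only [Cr, ne_eq, hinj_, hr_] at *
          clear hinj_ hr_
          grind (splits := 40)
        have f2 : sb (at' a⁻¹) (a ^ j • l) (a • x) := by
          clear hF hcov hX hXe hxX hx1 hx2 hV hi hj pi e1 e2 haX hf f1
          generalize a ^ j • l = l' at *
          generalize a ^ j • r = r' at *
          generalize at' a⁻¹ = u at *
          generalize at' a = v at *
          generalize a • x = y at *
          clear hxx hl hr
          have := hC.toCS0.countable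
          obtain ⟨ρ_, hinj_, hr_⟩ := CycOrd.rk hc
          simp only [Cr, ne_eq, hinj_, hr_] at *
          clear hinj_ hr_
          grind (splits := 40)
        have f3 := hC.sbP a haP _ _ _ f1
        rw [at_fix_inv hC haP ha1, ← mul_smul, ← zpow_one_add] at f3
        have f4 : sb (at' a⁻¹) (a ^ j • l) (a ^ (1 + i) • l) := hc.trans _ _ _ _ f2 f3
        rcases (show 1 + i ≤ j by omega).eq_or_lt with h | h
        · rw [h] at f4
          exact CycInt.irrefl₁ hc _ _ f4
        · exact hc.asymm _ _ _ f4 (mvL hC haP ha1 hl h)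
      · have e1 := arcL_zpow hC haP ha1 hl i
        have e2 := arcR_zpow hC haP ha1 hr i
        have e3 := arcL_zpow hC haP ha1 hl j
        have e4 := arcR_zpow hC haP ha1 hr j
        have e5 := move_right hC haP ha1 hx
        have e6 := arcR_zpow hC haP ha1 hx 1
        rw [zpow_one] at e6
        have f1 : sb (at' a) (a ^ i • r) x := by
          clear hF hcov hX hXe hxX hx1 hx2 hV hi hj pj e3 e4 haX hf
          generalize a ^ i • l = l' at *
          generalize a ^ i • r = r' at *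
          generalize at' a⁻¹ = u at *
          generalize at' a = v at *
          generalize a • x = y at *
          clear hxx hl hr
          have := hC.toCS0.countable
          obtain ⟨ρ_, hinj_, hr_⟩ := CycOrd.rk hc
          simp only [Cr, ne_eq, hinj_, hr_] at *
          clear hinj_ hr_
          grind (splits := 40)
        have f2 : sb (at' a) (a • x) (a ^ j • r) := by
          clear hF hcov hX hXe hxX hx1 hx2 hV hi hj pi e1 e2 haX hf f1
          generalize a ^ j • l = l' at *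
          generalize a ^ j • r = r' at *
          generalize at' a⁻¹ = u at *
          generalize at' a = v at *
          generalize a • x = y at *
          clear hxx hl hr
          have := hC.toCS0.countable
          obtain ⟨ρ_, hinj_, hr_⟩ := CycOrd.rk hc
          simp only [Cr, ne_eq, hinj_, hr_] at *
          clear hinj_ hr_
          grind (splits := 40)
        have f3 := hC.sbP a haP _ _ _ f1
        rw [at_fix hC haP ha1, ← mul_smul, ← zpow_one_add] at f3
        have f4 : sb (at' a) (a ^ (1 + i) • r) (a ^ j • r) := hc.trans _ _ _ _ f3 f2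
        rcases (show 1 + i ≤ j by omega).eq_or_lt with h | h
        · rw [h] at f4
          exact CycInt.irrefl₁ hc _ _ f4
        · exact hc.asymm _ _ _ f4 (mvR hC haP ha1 hr h)
    by_cases hex : ∃ i : ℤ, SepS sb (a ^ i • f • baseLine G at' a : Lines G at' a).1 X.1 (a • X).1
    · obtain ⟨i, hi⟩ := hex
      refine ⟨{i}, by simp, fun j hj => ?_⟩
      rw [Finset.mem_singleton]
      rcases lt_trichotomy i j with h | h | h
      · exact (key i j h hi hj.2).elim
      · exact h.symm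
      · exact (key j i h hj.2 hi).elim
    · exact ⟨∅, by simp, fun j hj => absurd ⟨j, hj.2⟩ hex⟩

theorem pd_grow (hC : CS P sb at') (ha : Filling P sb at' a) (X : Lines G at' a)
    (hX : X ≠ baseLine G at' a) (M : ℕ) :
    ∃ e : ℕ, M ≤ pd P sb (baseLine G at' a) X (a ^ e • X) := by
  classical
  have haP := ha.mem
  have ha1 := ha.ne
  have hc := hC.cyc
  obtain ⟨h, hh, hcr⟩ := exists_wall hC ha
  obtain ⟨l, r, hl, hr, hV⟩ := wall_ends (b := a) hC ha hcr
  obtain ⟨x, x', hxx, hXe⟩ := line_pair hC ha X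
  have hxX : x ∈ X.1 := by rw [hXe]; exact Or.inl rfl
  have hxX' : x' ∈ X.1 := by rw [hXe]; exact Or.inr rfl
  have hx1 : x ≠ at' a⁻¹ := fun h => hX (line_disj hC ha hxX (h ▸ Or.inl rfl))
  have hx2 : x ≠ at' a := fun h => hX (line_disj hC ha hxX (h ▸ Or.inr rfl))
  have hx1' : x' ≠ at' a⁻¹ := fun h => hX (line_disj hC ha hxX' (h ▸ Or.inl rfl))
  have hx2' : x' ≠ at' a := fun h => hX (line_disj hC ha hxX' (h ▸ Or.inr rfl))
  obtain ⟨n1, hn1⟩ := before hC haP ha1 hx1 hx2 hl hr
  obtain ⟨n2, hn2⟩ := before hC haP ha1 hx1' hx2' hl hr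
  obtain ⟨n3, hn3⟩ := after hC haP ha1 hx1 hx2 hl hr
  obtain ⟨n4, hn4⟩ := after hC haP ha1 hx1' hx2' hl hr
  have hbef : ∀ i, max n1 n2 ≤ i → ∀ s ∈ X.1, Cr sb (a ^ i • l) (a ^ i • r) s (at' a) := by
    intro i hi s hs
    rw [hXe] at hs
    rcases hs with rfl | rfl
    · exact hn1 i ((le_max_left _ _).trans hi)
    · exact hn2 i ((le_max_right _ _).trans hi)
  have haft : ∀ i, i ≤ min n3 n4 → ∀ s ∈ X.1, Cr sb (a ^ i • l) (a ^ i • r) s (at' a⁻¹) := by
    intro i hi s hs
    rw [hXe] at hs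
    rcases hs with rfl | rfl
    · exact hn3 i (hi.trans (min_le_left _ _))
    · exact hn4 i (hi.trans (min_le_right _ _))
  generalize max n1 n2 = N2 at hbef
  generalize min n3 n4 = N1 at haft
  refine ⟨(N2 - N1).toNat + M, ?_⟩
  generalize he : (N2 - N1).toNat + M = e
  have hfin := sep_finite hC ha (baseLine G at' a) X (a ^ e • X)
  let φ : ℤ → Lines G at' a := fun i => a ^ i • h • baseLine G at' a
  have hinj : Function.Injective φ := by
    have key : ∀ i j : ℤ, i < j → φ i ≠ φ j := by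
      intro i j hij hφ
      have h1 : (φ i).1 = (φ j).1 := by rw [hφ]
      have h2 : (φ i).1 = {a ^ i • l, a ^ i • r} := smul_pair' _ _ hV
      have h3 : (φ j).1 = {a ^ j • l, a ^ j • r} := smul_pair' _ _ hV
      have h4 : a ^ i • l ∈ ({a ^ j • l, a ^ j • r} : Set E) := by
        rw [← h3, ← h1, h2]
        exact Or.inl rfl
      rcases h4 with h4 | h4
      · have h5 := mvL hC haP ha1 hl hij
        rw [h4] at h5
        exact CycInt.irrefl₁ hc _ _ h5
      · have h5 := arcL_zpow hC haP ha1 hl i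
        have h6 := arcR_zpow hC haP ha1 hr j
        rw [Set.mem_singleton_iff] at h4
        rw [h4] at h5
        exact hc.asymm _ _ _ h5 (CycInt.rot2 hc h6)
    intro i j hij
    rcases lt_trichotomy i j with h1 | h1 | h1
    · exact absurd hij (key i j h1)
    · exact h1
    · exact absurd hij.symm (key j i h1)
  have hsub : (((Finset.Icc N2 (N1 + e)).image φ : Finset _) : Set (Lines G at' a)) ⊆
      {V | V ∈ walls P sb (baseLine G at' a) ∧ SepS sb V.1 X.1 (a ^ e • X).1} := by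
    intro V hVm
    rw [Finset.mem_coe, Finset.mem_image] at hVm
    obtain ⟨i, hi, rfl⟩ := hVm
    rw [Finset.mem_Icc] at hi
    refine ⟨⟨⟨a ^ i * h, mul_mem (zpow_mem haP i) hh, (mul_smul _ _ _).symm⟩, ?_⟩, ?_⟩
    · have h1 := crS_smul hC (a ^ i) hcr
      rw [← MulAction.orbit.coe_smul, ← MulAction.orbit.coe_smul, a_fix hC ha] at h1
      exact h1
    · refine ⟨a ^ i • l, ?_, a ^ i • r, ?_, ?_⟩
      · rw [show (φ i).1 = {a ^ i • l, a ^ i • r} from smul_pair' _ _ hV]
        exact Or.inl rfl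
      · rw [show (φ i).1 = {a ^ i • l, a ^ i • r} from smul_pair' _ _ hV]
        exact Or.inr rfl
      · intro s hs t ht
        rw [MulAction.orbit.coe_smul] at ht
        obtain ⟨t', ht', rfl⟩ := ht
        have e1 := hbef i hi.1 s hs
        have e2 := hC.crG (a ^ e) _ _ _ _ (haft (i - e) (by omega) t' ht')
        rw [← zpow_natCast a e, at_fix_inv_zpow hC haP ha1, ← mul_smul, ← mul_smul, ← zpow_add,
          show (e : ℤ) + (i - e) = i by ring, zpow_natCast] at e2
        have e3 := arcL_zpow hC haP ha1 hl i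
        have e4 := arcR_zpow hC haP ha1 hr i
        change Cr sb (a ^ i • l) (a ^ i • r) s (a ^ e • t')
        clear hinj hfin hbef haft hn1 hn2 hn3 hn4 hV hcr hXe hxX hxX' hx1 hx2 hx1' hx2' hl hr hs ht'
        clear hxx φ
        generalize a ^ i • l = l' at *
        generalize a ^ i • r = r' at *
        generalize a ^ e • t' = t at *
        generalize at' a⁻¹ = u at *
        generalize at' a = v at *
        have := hC.toCS0.countable
        obtain ⟨ρ_, hinj_, hr_⟩ := CycOrd.rk hc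
        simp only [Cr, ne_eq, hinj_, hr_] at *
        clear hinj_ hr_
        grind (splits := 40)
  have h1 := Set.ncard_le_ncard hsub hfin
  rw [Set.ncard_coe_finset, Finset.card_image_of_injective _ hinj, Int.card_Icc] at h1
  unfold pd
  omega

end Main

end Pool.Agent.MP_e058c8_al
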