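import Pool.Agent.MP_e058c8_al.Rank

/-! Basic facts on crossing of chords. -/

namespace Pool.Agent.MP_e058c8_al

namespace CycInt

variable {E : Type*} {sb : E → E → E → Prop}

theorem irrefl₁ (h : CycOrd sb) (x y : E) : ¬ sb x y y := fun hh => h.asymm _ _ _ hh hh

theorem irrefl₂ (h : CycOrd sb) (x y : E) : ¬ sb x x y := fun hh =>
  irrefl₁ h _ _ (h.rot _ _ _ (h.rot _ _ _ hh))

theorem irrefl₃ (h : CycOrd sb) (x y : E) : ¬ sb x y x := fun hh =>
  irrefl₁ h _ _ (h.rot _ _ _ hh)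

theorem ne₁ (h : CycOrd sb) {x y z : E} (hh : sb x y z) : x ≠ y := by
  rintro rfl; exact irrefl₂ h _ _ hh

theorem ne₂ (h : CycOrd sb) {x y z : E} (hh : sb x y z) : y ≠ z := by
  rintro rfl; exact irrefl₁ h _ _ hh

theorem ne₃ (h : CycOrd sb) {x y z : E} (hh : sb x y z) : x ≠ z := by
  rintro rfl; exact irrefl₃ h _ _ hh

theorem rot2 (h : CycOrd sb) {x y z : E} (hh : sb x y z) : sb z x y :=
  h.rot _ _ _ (h.rot _ _ _ hh)

/-- linear order from a base point implies cyclic order -/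
theorem of_base (h : CycOrd sb) {o x y z : E} (h1 : sb o x y) (h2 : sb o y z) : sb x y z := by
  have h3 : sb y z o := h.rot _ _ _ h2
  have h4 : sb y o x := rot2 h h1
  have := h.trans _ _ _ _ h3 h4
  -- sb y z x
  exact rot2 h this

/-- Finite subsets of a cyclic order embed into `ℤ`. -/
theorem exists_rank (h : CycOrd sb) (s : Finset E) : ∃ f : E → ℤ,
    (∀ x ∈ s, ∀ y ∈ s, f x = f y → x = y) ∧
    ∀ x ∈ s, ∀ y ∈ s, ∀ z ∈ s, (sb x y z ↔
      (f x < f y ∧ f y < f z) ∨ (f y < f z ∧ f z < f x) ∨ (f z < f x ∧ f x < f y)) := by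
  classical
  rcases s.eq_empty_or_nonempty with rfl | ⟨o, ho⟩
  · exact ⟨fun _ => 0, by simp, by simp⟩
  let f : E → ℤ := fun x => if x = o then -1 else ((s.filter fun y => sb o y x).card : ℤ)
  have fo : f o = -1 := by simp [f]
  have fx : ∀ x, x ≠ o → 0 ≤ f x := by
    intro x hx
    simp only [f, if_neg hx]
    positivity
  have mono : ∀ x ∈ s, ∀ y, sb o x y → f x < f y := by
    intro x hx y hxy
    have hxo : x ≠ o := (ne₁ h hxy).symm
    have hyo : y ≠ o := (ne₃ h hxy).symm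
    simp only [f, if_neg hxo, if_neg hyo]
    norm_cast
    apply Finset.card_lt_card
    constructor
    · intro z hz
      rw [Finset.mem_filter] at hz ⊢
      exact ⟨hz.1, h.trans _ _ _ _ hz.2 hxy⟩
    · intro hcon
      have h1 : x ∈ s.filter fun z => sb o z y := Finset.mem_filter.2 ⟨hx, hxy⟩
      have h2 := hcon h1
      rw [Finset.mem_filter] at h2
      exact irrefl₁ h _ _ h2.2
  have tri : ∀ x ∈ s, ∀ y ∈ s, x ≠ o → y ≠ o → x ≠ y → (sb o x y ∨ sb o y x) := by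
    intro x _ y _ hxo hyo hxy
    exact h.total _ _ _ hxo.symm hxy hyo.symm
  have lt_iff : ∀ x ∈ s, ∀ y ∈ s, x ≠ o → y ≠ o → (f x < f y ↔ sb o x y) := by
    intro x hx y hy hxo hyo
    refine ⟨fun hlt => ?_, mono x hx y⟩
    by_cases hxy : x = y
    · subst hxy
      exact absurd hlt (lt_irrefl _)
    rcases tri x hx y hy hxo hyo hxy with h1 | h1
    · exact h1
    · exact absurd hlt (not_lt.2 (mono y hy x h1).le)
  have inj : ∀ x ∈ s, ∀ y ∈ s, f x = f y → x = y := by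
    intro x hx y hy hxy
    by_contra hne
    by_cases hxo : x = o
    · subst hxo
      have := fx y (Ne.symm hne)
      omega
    by_cases hyo : y = o
    · subst hyo
      have := fx x hne
      omega
    rcases tri x hx y hy hxo hyo hne with h1 | h1
    · have := mono x hx y h1
      omega
    · have := mono y hy x h1
      omega
  refine ⟨f, inj, ?_⟩
  -- first: inequalities imply cyclic order
  have key : ∀ x ∈ s, ∀ y ∈ s, ∀ z ∈ s, f x < f y → f y < f z → sb x y z := by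
    intro x hx y hy z hz h1 h2
    have hyo : y ≠ o := by
      rintro rfl
      by_cases hxo : x = y
      · subst hxo
        omega
      · have := fx x hxo
        omega
    have hzo : z ≠ o := by
      rintro rfl
      have := fx y hyo
      omega
    have h3 := (lt_iff y hy z hz hyo hzo).1 h2
    by_cases hxo : x = o
    · subst hxo
      exact h3
    · exact of_base h ((lt_iff x hx y hy hxo hyo).1 h1) h3
  intro x hx y hy z hz
  constructor
  · intro hxyz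
    have n1 : f x ≠ f y := fun e => ne₁ h hxyz (inj x hx y hy e)
    have n2 : f y ≠ f z := fun e => ne₂ h hxyz (inj y hy z hz e)
    have n3 : f x ≠ f z := fun e => ne₃ h hxyz (inj x hx z hz e)
    have c1 : ¬ (f x < f z ∧ f z < f y) := fun hh =>
      h.asymm _ _ _ hxyz (key x hx z hz y hy hh.1 hh.2)
    have c2 : ¬ (f z < f y ∧ f y < f x) := fun hh =>
      h.asymm _ _ _ hxyz (rot2 h (key z hz y hy x hx hh.1 hh.2))
    have c3 : ¬ (f y < f x ∧ f x < f z) := fun hh =>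
      h.asymm _ _ _ hxyz (h.rot _ _ _ (key y hy x hx z hz hh.1 hh.2))
    omega
  · rintro (hh | hh | hh)
    · exact key x hx y hy z hz hh.1 hh.2
    · exact rot2 h (key y hy z hz x hx hh.1 hh.2)
    · exact h.rot _ _ _ (key z hz x hx y hy hh.1 hh.2)

theorem exists_rank_list (h : CycOrd sb) (l : List E) : ∃ f : E → ℤ,
    (∀ x ∈ l, ∀ y ∈ l, f x = f y → x = y) ∧
    ∀ x ∈ l, ∀ y ∈ l, ∀ z ∈ l, (sb x y z ↔
      (f x < f y ∧ f y < f z) ∨ (f y < f z ∧ f z < f x) ∨ (f z < f x ∧ f x < f y)) := by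
  classical
  obtain ⟨f, h1, h2⟩ := exists_rank h l.toFinset
  refine ⟨f, ?_, ?_⟩
  · intro x hx y hy
    exact h1 x (List.mem_toFinset.2 hx) y (List.mem_toFinset.2 hy)
  · intro x hx y hy z hz
    exact h2 x (List.mem_toFinset.2 hx) y (List.mem_toFinset.2 hy) z (List.mem_toFinset.2 hz)

end CycInt

section CrLemmas

variable {E : Type*} {sb : E → E → E → Prop}

theorem CycOrd.rk [Countable E] (h : CycOrd sb) : ∃ ρ : E → ℚ,
    (∀ x y : E, x = y ↔ ρ x = ρ y) ∧ ∀ x y z : E, sb x y z ↔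
      (ρ x < ρ y ∧ ρ y < ρ z) ∨ (ρ y < ρ z ∧ ρ z < ρ x) ∨ (ρ z < ρ x ∧ ρ x < ρ y) := by
  obtain ⟨ρ, h1, h2⟩ := exists_rank h
  exact ⟨ρ, fun x y => h1.eq_iff.symm, h2⟩

theorem Cr.swap₁ {x y z w : E} (hc : Cr sb x y z w) : Cr sb y x z w := by
  unfold Cr at *
  tauto

theorem Cr.swap₂ {x y z w : E} (hc : Cr sb x y z w) : Cr sb x y w z := by
  unfold Cr at *
  tauto

theorem Cr.symm (h : CycOrd sb) {x y z w : E} (hc : Cr sb x y z w) : Cr sb z w x y := by
  obtain ⟨f, finj, hf⟩ := CycInt.exists_rank_list h [x, y, z, w]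
  have m0 : x ∈ [x, y, z, w] := by simp
  have m1 : y ∈ [x, y, z, w] := by simp
  have m2 : z ∈ [x, y, z, w] := by simp
  have m3 : w ∈ [x, y, z, w] := by simp
  simp only [Cr, hf _ m0 _ m2 _ m1, hf _ m1 _ m3 _ m0, hf _ m0 _ m3 _ m1, hf _ m1 _ m2 _ m0,
    hf _ m2 _ m0 _ m3, hf _ m3 _ m1 _ m2, hf _ m2 _ m1 _ m3, hf _ m3 _ m0 _ m2] at hc ⊢
  clear finj hf m0 m1 m2 m3
  omega

theorem Cr.ne (h : CycOrd sb) {x y z w : E} (hc : Cr sb x y z w) :
    x ≠ y ∧ x ≠ z ∧ x ≠ w ∧ y ≠ z ∧ y ≠ w ∧ z ≠ w := by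
  rcases hc with ⟨h1, h2⟩ | ⟨h1, h2⟩
  · refine ⟨CycInt.ne₃ h h1, CycInt.ne₁ h h1, (CycInt.ne₂ h h2).symm, (CycInt.ne₂ h h1).symm,
      CycInt.ne₁ h h2, ?_⟩
    rintro rfl
    exact h.asymm _ _ _ h1 (h.rot _ _ _ (h.rot _ _ _ h2))
  · refine ⟨CycInt.ne₃ h h1, (CycInt.ne₂ h h2).symm, CycInt.ne₁ h h1, CycInt.ne₁ h h2,
      (CycInt.ne₂ h h1).symm, ?_⟩
    rintro rfl
    exact h.asymm _ _ _ h1 (h.rot _ _ _ (h.rot _ _ _ h2))

/-- if the chord `u v` separates `x` from `z`, then a third point is on the side of `x` or of `z`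
or an end point. -/
theorem Cr.third (h : CycOrd sb) {u v x z t : E} (hc : Cr sb u v x z) (h1 : t ≠ u) (h2 : t ≠ v) :
    Cr sb u v x t ∨ Cr sb u v t z := by
  have h3 := (Cr.ne h hc).1
  rcases h.total u t v h1.symm h2 h3 with h4 | h4
  · rcases hc with ⟨h5, h6⟩ | ⟨h5, h6⟩
    · exact Or.inr (Or.inl ⟨h4, h6⟩)
    · exact Or.inl (Or.inr ⟨h4, h6⟩)
  · have h4' := h.rot _ _ _ h4
    rcases hc with ⟨h5, h6⟩ | ⟨h5, h6⟩
    · exact Or.inl (Or.inl ⟨h5, h4'⟩)
    · exact Or.inr (Or.inr ⟨h5, h4'⟩)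

end CrLemmas

end Pool.Agent.MP_e058c8_al
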