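import Pool.Agent.MP_e058c8_al.Rank

set_option autoImplicit false

/-! Task F: existence of a filling element. -/

namespace Pool.Agent.MP_e058c8_al
namespace Fill

/-- open sets of the cyclic order topology -/
def Op {E : Type*} (sb : E → E → E → Prop) (S : Set E) : Prop :=
  ∀ x ∈ S, ∃ α β, sb α x β ∧ ∀ y, sb α y β → y ∈ S

section Order
variable {E : Type*} {sb : E → E → E → Prop} {ρ : E → ℚ}

theorem op_arc (x y : E) : Op sb {z | sb x z y} := fun _ hz => ⟨x, y, hz, fun _ h => h⟩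

theorem op_inter (hi : Function.Injective ρ) (hρ : ∀ x y z, sb x y z ↔ cycQ (ρ x) (ρ y) (ρ z))
    {S T : Set E} (hS : Op sb S) (hT : Op sb T) : Op sb (S ∩ T) := by
  rintro x ⟨hxS, hxT⟩
  obtain ⟨a, b, h1, h2⟩ := hS x hxS
  obtain ⟨a', b', h3, h4⟩ := hT x hxT
  by_cases ha : a = a' ∨ sb x a' a
  · by_cases hb : b = b' ∨ sb x b b'
    · refine ⟨a, b, h1, fun y hy => ⟨h2 y hy, h4 y ?_⟩⟩
      rcases ha with rfl | ha <;> rcases hb with rfl | hb <;> simp only [hρ, cycQ] at * <;> grind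
    · have hb' : sb x b' b := by
        have : ρ b ≠ ρ b' := fun h => hb (Or.inl (hi h))
        simp only [hρ, cycQ] at *; grind
      refine ⟨a, b', ?_, fun y hy => ⟨h2 y ?_, h4 y ?_⟩⟩
      · rcases ha with rfl | ha <;> simp only [hρ, cycQ] at * <;> grind
      · rcases ha with rfl | ha <;> simp only [hρ, cycQ] at * <;> grind
      · rcases ha with rfl | ha <;> simp only [hρ, cycQ] at * <;> grind
  · have ha' : sb x a a' := by
      have : ρ a ≠ ρ a' := fun h => ha (Or.inl (hi h))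
      simp only [hρ, cycQ] at *; grind
    by_cases hb : b = b' ∨ sb x b b'
    · refine ⟨a', b, ?_, fun y hy => ⟨h2 y ?_, h4 y ?_⟩⟩
      · rcases hb with rfl | hb <;> simp only [hρ, cycQ] at * <;> grind
      · rcases hb with rfl | hb <;> simp only [hρ, cycQ] at * <;> grind
      · rcases hb with rfl | hb <;> simp only [hρ, cycQ] at * <;> grind
    · have hb' : sb x b' b := by
        have : ρ b ≠ ρ b' := fun h => hb (Or.inl (hi h))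
        simp only [hρ, cycQ] at *; grind
      refine ⟨a', b', h3, fun y hy => ⟨h2 y ?_, h4 y hy⟩⟩
      simp only [hρ, cycQ] at *; grind

theorem hausdorff (hi : Function.Injective ρ) (hρ : ∀ x y z, sb x y z ↔ cycQ (ρ x) (ρ y) (ρ z))
    (dense : ∀ x y : E, x ≠ y → ∃ z, sb x z y) {x y : E} (hxy : x ≠ y) :
    ∃ S T, Op sb S ∧ Op sb T ∧ x ∈ S ∧ y ∈ T ∧ ∀ z ∈ S, z ∉ T := by
  obtain ⟨α, h1⟩ := dense x y hxy
  obtain ⟨β, h2⟩ := dense y x hxy.symm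
  refine ⟨_, _, op_arc β α, op_arc α β, ?_, ?_, ?_⟩
  · simp only [hρ, cycQ, Set.mem_ofPred_eq] at *; grind
  · simp only [hρ, cycQ, Set.mem_ofPred_eq] at *; grind
  · simp only [hρ, cycQ, Set.mem_ofPred_eq] at *; grind

theorem stab (hi : Function.Injective ρ) (hρ : ∀ x y z, sb x y z ↔ cycQ (ρ x) (ρ y) (ρ z))
    (dense : ∀ x y : E, x ≠ y → ∃ z, sb x z y) {x y z : E} (h : sb x y z) :
    ∃ X Y Z, Op sb X ∧ Op sb Y ∧ Op sb Z ∧ x ∈ X ∧ y ∈ Y ∧ z ∈ Z ∧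
      ∀ x' ∈ X, ∀ y' ∈ Y, ∀ z' ∈ Z, sb x' y' z' := by
  have hxy : x ≠ y := by rintro rfl; simp only [hρ, cycQ] at *; grind
  have hyz : y ≠ z := by rintro rfl; simp only [hρ, cycQ] at *; grind
  have hzx : z ≠ x := by rintro rfl; simp only [hρ, cycQ] at *; grind
  obtain ⟨α, h1⟩ := dense x y hxy
  obtain ⟨β, h2⟩ := dense y z hyz
  obtain ⟨γ, h3⟩ := dense z x hzx
  refine ⟨_, _, _, op_arc γ α, op_arc α β, op_arc β γ, ?_, ?_, ?_, ?_⟩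
  · simp only [hρ, cycQ, Set.mem_ofPred_eq] at *; grind
  · simp only [hρ, cycQ, Set.mem_ofPred_eq] at *; grind
  · simp only [hρ, cycQ, Set.mem_ofPred_eq] at *; grind
  · intro x' hx' y' hy' z' hz'
    simp only [hρ, cycQ, Set.mem_ofPred_eq] at *; grind

theorem stabCr (hi : Function.Injective ρ) (hρ : ∀ x y z, sb x y z ↔ cycQ (ρ x) (ρ y) (ρ z))
    (dense : ∀ x y : E, x ≠ y → ∃ z, sb x z y) {x y z w : E} (h : Cr sb x y z w) :
    ∃ X Y Z W, Op sb X ∧ Op sb Y ∧ Op sb Z ∧ Op sb W ∧ x ∈ X ∧ y ∈ Y ∧ z ∈ Z ∧ w ∈ W ∧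
      ∀ x' ∈ X, ∀ y' ∈ Y, ∀ z' ∈ Z, ∀ w' ∈ W, Cr sb x' y' z' w' := by
  rcases h with ⟨h1, h2⟩ | ⟨h1, h2⟩
  · obtain ⟨X1, Z1, Y1, a1, a2, a3, b1, b2, b3, c⟩ := stab hi hρ dense h1
    obtain ⟨Y2, W2, X2, d1, d2, d3, e1, e2, e3, f⟩ := stab hi hρ dense h2
    exact ⟨X1 ∩ X2, Y1 ∩ Y2, Z1, W2, op_inter hi hρ a1 d3, op_inter hi hρ a3 d1, a2, d2,
      ⟨b1, e3⟩, ⟨b3, e1⟩, b2, e2, fun x' hx y' hy z' hz w' hw =>
        Or.inl ⟨c _ hx.1 _ hz _ hy.1, f _ hy.2 _ hw _ hx.2⟩⟩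
  · obtain ⟨X1, W1, Y1, a1, a2, a3, b1, b2, b3, c⟩ := stab hi hρ dense h1
    obtain ⟨Y2, Z2, X2, d1, d2, d3, e1, e2, e3, f⟩ := stab hi hρ dense h2
    exact ⟨X1 ∩ X2, Y1 ∩ Y2, Z2, W1, op_inter hi hρ a1 d3, op_inter hi hρ a3 d1, d2, a2,
      ⟨b1, e3⟩, ⟨b3, e1⟩, e2, b2, fun x' hx y' hy z' hz w' hw =>
        Or.inr ⟨c _ hx.1 _ hw _ hy.1, f _ hy.2 _ hz _ hx.2⟩⟩

/-- two chords are crossed by a common chord -/
theorem both (hi : Function.Injective ρ) (hρ : ∀ x y z, sb x y z ↔ cycQ (ρ x) (ρ y) (ρ z))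
    (dense : ∀ x y : E, x ≠ y → ∃ z, sb x z y) {x y z w : E} (hxy : x ≠ y) (hzw : z ≠ w) :
    ∃ I J, Op sb I ∧ Op sb J ∧ I.Nonempty ∧ J.Nonempty ∧ (∀ e ∈ I, e ∉ J) ∧
      ∀ e ∈ I, ∀ f ∈ J, Cr sb x y e f ∧ Cr sb z w e f := by
  -- reduce to arcs
  have main : ∀ α β γ δ : E, α ≠ β → γ ≠ δ → (∀ e, sb α e β → ¬ sb γ e δ) →
      (∀ e, sb α e β → ∀ f, sb γ f δ → Cr sb x y e f ∧ Cr sb z w e f) →
      ∃ I J, Op sb I ∧ Op sb J ∧ I.Nonempty ∧ J.Nonempty ∧ (∀ e ∈ I, e ∉ J) ∧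
      ∀ e ∈ I, ∀ f ∈ J, Cr sb x y e f ∧ Cr sb z w e f := by
    intro α β γ δ h1 h2 h3 h4
    exact ⟨_, _, op_arc α β, op_arc γ δ, dense α β h1, dense γ δ h2, h3, h4⟩
  have hxy' : ρ x ≠ ρ y := hi.ne hxy
  have hzw' : ρ z ≠ ρ w := hi.ne hzw
  by_cases hz : z = x ∨ sb x z y
  · by_cases hw : w = x ∨ sb x w y
    · -- both in [x,y)
      by_cases h : w ≠ x ∧ (z = x ∨ sb z w y)
      · refine main z w y x hzw hxy.symm ?_ ?_
        · intro e; clear main dense; simp only [ne_eq, hρ, cycQ, Cr, ← hi.eq_iff] at *; grind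
        · intro e he f hf; clear main dense; simp only [ne_eq, hρ, cycQ, Cr, ← hi.eq_iff] at *; grind
      · refine main w z y x hzw.symm hxy.symm ?_ ?_
        · intro e; clear main dense; simp only [ne_eq, hρ, cycQ, Cr, ← hi.eq_iff] at *; grind
        · intro e he f hf; clear main dense; simp only [ne_eq, hρ, cycQ, Cr, ← hi.eq_iff] at *; grind
    · refine main z y w x ?_ ?_ ?_ ?_
      · clear main dense; simp only [ne_eq, hρ, cycQ, Cr, ← hi.eq_iff] at *; grind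
      · clear main dense; simp only [ne_eq, hρ, cycQ, Cr, ← hi.eq_iff] at *; grind
      · intro e; clear main dense; simp only [ne_eq, hρ, cycQ, Cr, ← hi.eq_iff] at *; grind
      · intro e he f hf; clear main dense; simp only [ne_eq, hρ, cycQ, Cr, ← hi.eq_iff] at *; grind
  · by_cases hw : w = x ∨ sb x w y
    · refine main w y z x ?_ ?_ ?_ ?_
      · clear main dense; simp only [ne_eq, hρ, cycQ, Cr, ← hi.eq_iff] at *; grind
      · clear main dense; simp only [ne_eq, hρ, cycQ, Cr, ← hi.eq_iff] at *; grind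
      · intro e; clear main dense; simp only [ne_eq, hρ, cycQ, Cr, ← hi.eq_iff] at *; grind
      · intro e he f hf; clear main dense; simp only [ne_eq, hρ, cycQ, Cr, ← hi.eq_iff] at *; grind
    · -- both in [y,x)
      by_cases h : w ≠ y ∧ (z = y ∨ sb z w x)
      · refine main z w x y hzw hxy ?_ ?_
        · intro e; clear main dense; simp only [ne_eq, hρ, cycQ, Cr, ← hi.eq_iff] at *; grind
        · intro e he f hf; clear main dense; simp only [ne_eq, hρ, cycQ, Cr, ← hi.eq_iff] at *; grind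
      · refine main w z x y hzw.symm hxy ?_ ?_
        · intro e; clear main dense; simp only [ne_eq, hρ, cycQ, Cr, ← hi.eq_iff] at *; grind
        · intro e he f hf; clear main dense; simp only [ne_eq, hρ, cycQ, Cr, ← hi.eq_iff] at *; grind

end Order

section Dyn
variable {G : Type*} {E : Type*} [Group G] [MulAction G E] {P : Subgroup G}
  {sb : E → E → E → Prop} {at' : G → E}

theorem smul_self (hC : CS0 P sb at') {p : G} (hp : p ∈ P) (h1 : p ≠ 1) : p • at' p = at' p := by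
  rw [hC.smul_at p p hp h1]; simp

theorem pow_smul_self (hC : CS0 P sb at') {p : G} (hp : p ∈ P) (h1 : p ≠ 1) (n : ℕ) :
    p ^ n • at' p = at' p := by
  rw [hC.smul_at (p ^ n) p hp h1]
  congr 1
  rw [mul_inv_eq_iff_eq_mul]
  exact (pow_mul_comm' p n)

theorem pow_smul_inv (hC : CS0 P sb at') {p : G} (hp : p ∈ P) (h1 : p ≠ 1) (n : ℕ) :
    p ^ n • at' p⁻¹ = at' p⁻¹ := by
  rw [hC.smul_at (p ^ n) p⁻¹ (P.inv_mem hp) (inv_ne_one.2 h1)]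
  congr 1
  rw [mul_inv_eq_iff_eq_mul]
  exact ((Commute.refl p).inv_right.pow_left n).eq

theorem sb_smul_iff (hC : CS0 P sb at') {p : G} (hp : p ∈ P) {x y z : E} :
    sb (p • x) (p • y) (p • z) ↔ sb x y z := by
  constructor
  · intro h
    have := hC.sbP p⁻¹ (P.inv_mem hp) _ _ _ h
    simpa using this
  · exact hC.sbP p hp _ _ _

theorem dense (hC : CS0 P sb at') (x y : E) (hxy : x ≠ y) : ∃ z, sb x z y := by
  obtain ⟨p, hp, hp1, rfl⟩ := hC.exists_at x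
  have hinv : p⁻¹ ∈ P := P.inv_mem hp
  have hinv1 : p⁻¹ ≠ 1 := inv_ne_one.2 hp1
  by_cases hy : y = at' p⁻¹
  · obtain ⟨z, hz⟩ := hC.side p⁻¹ hinv hinv1
    rw [inv_inv] at hz
    exact ⟨z, hy ▸ hz⟩
  · rcases hC.cyc.total (at' p) y (at' p⁻¹) hxy hy (hC.at_ne p hp hp1).symm with h | h
    · have h1 : sb (at' p) (p • y) (at' p⁻¹) := by
        have := hC.sbP p hp _ _ _ h
        have e1 := pow_smul_self hC hp hp1 1
        have e2 := pow_smul_inv hC hp hp1 1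
        rw [pow_one] at e1 e2
        rwa [e1, e2] at this
      have h2 := hC.move p⁻¹ hinv hinv1 (p • y) (by rwa [inv_inv])
      rw [inv_inv, inv_smul_smul] at h2
      exact ⟨p • y, h2⟩
    · exact ⟨at' p⁻¹, h⟩

theorem op_smul (hC : CS0 P sb at') {g : G} (hg : g ∈ P) {S : Set E} (hS : Op sb S) :
    Op sb {x | g • x ∈ S} := by
  intro x hx
  obtain ⟨α, β, h1, h2⟩ := hS (g • x) hx
  refine ⟨g⁻¹ • α, g⁻¹ • β, ?_, fun y hy => h2 _ ?_⟩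
  · rw [← sb_smul_iff hC hg]; simpa using h1
  · rw [← sb_smul_iff hC hg] at hy; simpa using hy

theorem left_arch (hC : CS0 P sb at') {p : G} (hp : p ∈ P) (h1 : p ≠ 1) {x y : E}
    (hx : sb (at' p⁻¹) x (at' p)) (hy : sb (at' p⁻¹) y (at' p)) :
    ∃ N : ℕ, ∀ n ≥ N, sb (at' p⁻¹) y (p ^ n • x) := by
  obtain ⟨N, hN⟩ := hC.arch p hp h1 x y hx hy
  refine ⟨N, fun n hn => ?_⟩
  induction n, hn using Nat.le_induction with
  | base => exact hN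
  | succ n hn ih =>
    have hin : sb (at' p⁻¹) (p ^ n • x) (at' p) := by
      have := hC.sbP (p ^ n) (P.pow_mem hp n) _ _ _ hx
      rwa [pow_smul_self hC hp h1, pow_smul_inv hC hp h1] at this
    have := hC.move p hp h1 _ hin
    rw [← mul_smul, ← pow_succ'] at this
    exact hC.cyc.trans _ _ _ _ ih this

theorem ns (hC : CS0 P sb at') {p : G} (hp : p ∈ P) (h1 : p ≠ 1) {S T : Set E} (hS : Op sb S)
    (hT : Op sb T) (hpS : at' p ∈ S) (hpT : at' p⁻¹ ∈ T) :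
    ∃ N : ℕ, ∀ n ≥ N, ∀ z, z ∉ T → p ^ n • z ∈ S := by
  obtain ⟨ρ, hi, hρ⟩ := hC.rank
  have hinv : p⁻¹ ∈ P := P.inv_mem hp
  have hinv1 : p⁻¹ ≠ 1 := inv_ne_one.2 h1
  obtain ⟨α, β, hα, hα'⟩ := hS _ hpS
  obtain ⟨γ, δ, hγ, hγ'⟩ := hT _ hpT
  obtain ⟨l, hl⟩ := hC.side p hp h1
  obtain ⟨r, hr⟩ := hC.side p⁻¹ hinv hinv1
  rw [inv_inv] at hr
  have hne := hC.at_ne p hp h1
  have L1 : ∃ l0, sb (at' p⁻¹) l0 (at' p) ∧ ∀ z, sb (at' p⁻¹) z (at' p) → z ∉ T →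
      z = l0 ∨ sb (at' p⁻¹) l0 z := by
    by_cases h : sb (at' p⁻¹) δ (at' p)
    · refine ⟨δ, h, fun z hz hzT => ?_⟩
      have : ¬ sb γ z δ := fun h => hzT (hγ' z h)
      clear hα' hγ'
      simp only [hρ, cycQ, ← hi.eq_iff] at *; grind
    · refine ⟨l, hl, fun z hz hzT => ?_⟩
      have : ¬ sb γ z δ := fun h => hzT (hγ' z h)
      clear hα' hγ'
      simp only [hρ, cycQ, ← hi.eq_iff] at *; grind
  have L2 : ∃ l0, sb (at' p⁻¹) l0 (at' p) ∧ ∀ z, sb (at' p⁻¹) l0 z → sb (at' p⁻¹) z (at' p) →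
      z ∈ S := by
    by_cases h : sb (at' p⁻¹) α (at' p)
    · refine ⟨α, h, fun z hz hz' => hα' z ?_⟩
      clear hα' hγ'
      simp only [hρ, cycQ, ← hi.eq_iff] at *; grind
    · refine ⟨l, hl, fun z hz hz' => hα' z ?_⟩
      clear hα' hγ'
      simp only [hρ, cycQ, ← hi.eq_iff] at *; grind
  have R1 : ∃ r0, sb (at' p) r0 (at' p⁻¹) ∧ ∀ z, sb (at' p) z (at' p⁻¹) → z ∉ T →
      z = r0 ∨ sb (at' p) z r0 := by
    by_cases h : sb (at' p) γ (at' p⁻¹)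
    · refine ⟨γ, h, fun z hz hzT => ?_⟩
      have : ¬ sb γ z δ := fun h => hzT (hγ' z h)
      clear hα' hγ'
      simp only [hρ, cycQ, ← hi.eq_iff] at *; grind
    · refine ⟨r, hr, fun z hz hzT => ?_⟩
      have : ¬ sb γ z δ := fun h => hzT (hγ' z h)
      clear hα' hγ'
      simp only [hρ, cycQ, ← hi.eq_iff] at *; grind
  have R2 : ∃ r0, sb (at' p) r0 (at' p⁻¹) ∧ ∀ z, sb (at' p) z r0 → z ∈ S := by
    by_cases h : sb (at' p) β (at' p⁻¹)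
    · refine ⟨β, h, fun z hz => hα' z ?_⟩
      clear hα' hγ'
      simp only [hρ, cycQ, ← hi.eq_iff] at *; grind
    · refine ⟨r, hr, fun z hz => hα' z ?_⟩
      clear hα' hγ'
      simp only [hρ, cycQ, ← hi.eq_iff] at *; grind
  obtain ⟨l0, hl0, hl0'⟩ := L1
  obtain ⟨l1, hl1, hl1'⟩ := L2
  obtain ⟨r0, hr0, hr0'⟩ := R1
  obtain ⟨r1, hr1, hr1'⟩ := R2
  obtain ⟨N1, hN1⟩ := left_arch hC hp h1 hl0 hl1
  obtain ⟨N2, hN2⟩ := left_arch hC hinv hinv1 (x := r1) (y := r0) (by rwa [inv_inv])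
    (by rwa [inv_inv])
  rw [inv_inv] at hN2
  refine ⟨max N1 N2, fun n hn z hz => ?_⟩
  have hn1 : N1 ≤ n := le_trans (le_max_left _ _) hn
  have hn2 : N2 ≤ n := le_trans (le_max_right _ _) hn
  have hPn : p ^ n ∈ P := P.pow_mem hp n
  by_cases hz1 : z = at' p
  · rw [hz1, pow_smul_self hC hp h1]; exact hpS
  have hz2 : z ≠ at' p⁻¹ := fun h => hz (h ▸ hpT)
  rcases hC.cyc.total (at' p⁻¹) z (at' p) hz2.symm hz1 hne with h | h
  · have e1 : sb (at' p⁻¹) (p ^ n • z) (at' p) := by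
      have := hC.sbP _ hPn _ _ _ h
      rwa [pow_smul_self hC hp h1, pow_smul_inv hC hp h1] at this
    rcases hl0' z h hz with rfl | h3
    · exact hl1' _ (hN1 n hn1) e1
    · have e2 := hC.sbP _ hPn _ _ _ h3
      rw [pow_smul_inv hC hp h1] at e2
      exact hl1' _ (hC.cyc.trans _ _ _ _ (hN1 n hn1) e2) e1
  · have h' : sb (at' p) z (at' p⁻¹) := hC.cyc.rot _ _ _ h
    have e3 : sb (at' p) (p ^ n • r0) r1 := by
      have := hC.sbP _ hPn _ _ _ (hN2 n hn2)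
      rwa [pow_smul_self hC hp h1, inv_pow, smul_inv_smul] at this
    rcases hr0' z h' hz with rfl | h3
    · exact hr1' _ e3
    · have e2 := hC.sbP _ hPn _ _ _ h3
      rw [pow_smul_self hC hp h1] at e2
      exact hr1' _ (hC.cyc.trans _ _ _ _ e2 e3)

theorem at_zpow_pos (hC : CS0 P sb at') {r : G} (hr : r ∈ P) (h1 : r ≠ 1) {k : ℤ} (hk : 0 < k) :
    at' (r ^ k) = at' r := by
  obtain ⟨n, rfl⟩ := Int.eq_ofNat_of_zero_le hk.le
  rw [zpow_natCast]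
  exact hC.at_pow r hr h1 n (by omega)

theorem at_zpow_neg (hC : CS0 P sb at') {r : G} (hr : r ∈ P) (h1 : r ≠ 1) {k : ℤ} (hk : k < 0) :
    at' (r ^ k) = at' r⁻¹ := by
  have := at_zpow_pos hC (P.inv_mem hr) (inv_ne_one.2 h1) (k := -k) (by omega)
  rwa [inv_zpow, zpow_neg, inv_inv] at this

theorem axis_eq (hC : CS0 P sb at') {p q : G} (hp : p ∈ P) (hp1 : p ≠ 1) (hq : q ∈ P)
    (hq1 : q ≠ 1) (h : at' p = at' q) : at' p⁻¹ = at' q⁻¹ := by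
  obtain ⟨r, hr, hr1, hrp, hst⟩ := hC.root p hp hp1
  have key : ∀ q ∈ P, q ≠ 1 → at' q = at' p → at' q⁻¹ = at' r⁻¹ := by
    intro q hq hq1 hqp
    obtain ⟨k, rfl⟩ := hst q hq (by rw [← hqp]; exact smul_self hC hq hq1)
    simp only at *
    have hk0 : k ≠ 0 := by rintro rfl; simp at hq1
    rcases lt_or_gt_of_ne hk0 with hk | hk
    · exfalso
      rw [at_zpow_neg hC hr hr1 hk, ← hrp] at hqp
      exact hC.at_ne r hr hr1 hqp
    · rw [← zpow_neg]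
      exact at_zpow_neg hC hr hr1 (by omega)
  rw [key p hp hp1 rfl, key q hq hq1 h.symm]

theorem ping1 (hC : CS0 P sb at') {c : G} (hc : c ∈ P) (h1 : c ≠ 1) {I J : Set E}
    (hJ : Op sb J) (hd : ∀ z ∈ I, z ∉ J) (hcI : ∀ z, z ∉ J → c • z ∈ I)
    (hne : ∃ z1 z2, z1 ≠ z2 ∧ z1 ∉ J ∧ z2 ∉ J) : at' c ∈ I := by
  obtain ⟨ρ, hi, hρ⟩ := hC.rank
  by_contra hcon
  have hcJ : at' c ∈ J := by
    by_contra h
    apply hcon
    have := hcI _ h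
    rwa [smul_self hC hc h1] at this
  have : ∃ z, z ∉ J ∧ z ≠ at' c⁻¹ := by
    obtain ⟨z1, z2, h12, hz1, hz2⟩ := hne
    by_cases h : z1 = at' c⁻¹
    · exact ⟨z2, hz2, fun h' => h12 (h.trans h'.symm)⟩
    · exact ⟨z1, hz1, h⟩
  obtain ⟨z, hzJ, hz⟩ := this
  obtain ⟨A, B, hA, hB, hzA, hcB, hAB⟩ := hausdorff hi hρ (dense hC) hz
  obtain ⟨N, hN⟩ := ns hC hc h1 hJ hB hcJ hcB
  have hit : ∀ n : ℕ, c ^ n • z ∉ J := by
    intro n
    induction n with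
    | zero => simpa using hzJ
    | succ n ih =>
      rw [pow_succ', mul_smul]
      exact hd _ (hcI _ ih)
  exact hit N (hN N le_rfl z (hAB z hzA))

theorem ping (hC : CS0 P sb at') {c : G} (hc : c ∈ P) (h1 : c ≠ 1) {I J : Set E}
    (hI : Op sb I) (hJ : Op sb J) (hd : ∀ z ∈ I, z ∉ J) (hcI : ∀ z, z ∉ J → c • z ∈ I)
    (hne : ∃ z1 z2, z1 ≠ z2 ∧ z1 ∉ J ∧ z2 ∉ J) (hne' : ∃ z1 z2, z1 ≠ z2 ∧ z1 ∉ I ∧ z2 ∉ I) :
    at' c ∈ I ∧ at' c⁻¹ ∈ J := by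
  refine ⟨ping1 hC hc h1 hJ hd hcI hne, ?_⟩
  refine ping1 hC (P.inv_mem hc) (inv_ne_one.2 h1) hI (fun z hz hz' => hd z hz' hz) ?_ hne'
  intro z hz
  by_contra h
  have := hcI _ h
  rw [smul_inv_smul] at this
  exact hz this

/-- four distinct points have pairwise disjoint open neighbourhoods -/
theorem sep4 (hC : CS0 P sb at') {a b c d : E} (hab : a ≠ b) (hac : a ≠ c) (had : a ≠ d)
    (hbc : b ≠ c) (hbd : b ≠ d) (hcd : c ≠ d) : ∃ A B C D, Op sb A ∧ Op sb B ∧ Op sb C ∧ Op sb D ∧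
    a ∈ A ∧ b ∈ B ∧ c ∈ C ∧ d ∈ D ∧ (∀ z ∈ A, z ∉ B) ∧ (∀ z ∈ A, z ∉ C) ∧ (∀ z ∈ A, z ∉ D) ∧
    (∀ z ∈ B, z ∉ C) ∧ (∀ z ∈ B, z ∉ D) ∧ (∀ z ∈ C, z ∉ D) := by
  obtain ⟨ρ, hi, hρ⟩ := hC.rank
  obtain ⟨A1, B1, oA1, oB1, mA1, mB1, d1⟩ := hausdorff hi hρ (dense hC) hab
  obtain ⟨A2, C1, oA2, oC1, mA2, mC1, d2⟩ := hausdorff hi hρ (dense hC) hac
  obtain ⟨A3, D1, oA3, oD1, mA3, mD1, d3⟩ := hausdorff hi hρ (dense hC) had
  obtain ⟨B2, C2, oB2, oC2, mB2, mC2, d4⟩ := hausdorff hi hρ (dense hC) hbc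
  obtain ⟨B3, D2, oB3, oD2, mB3, mD2, d5⟩ := hausdorff hi hρ (dense hC) hbd
  obtain ⟨C3, D3, oC3, oD3, mC3, mD3, d6⟩ := hausdorff hi hρ (dense hC) hcd
  have oi := fun {S T : Set E} (hS : Op sb S) (hT : Op sb T) => op_inter hi hρ hS hT
  exact ⟨(A1 ∩ A2) ∩ A3, (B1 ∩ B2) ∩ B3, (C1 ∩ C2) ∩ C3, (D1 ∩ D2) ∩ D3, oi (oi oA1 oA2) oA3,
    oi (oi oB1 oB2) oB3, oi (oi oC1 oC2) oC3, oi (oi oD1 oD2) oD3, ⟨⟨mA1, mA2⟩, mA3⟩,
    ⟨⟨mB1, mB2⟩, mB3⟩, ⟨⟨mC1, mC2⟩, mC3⟩, ⟨⟨mD1, mD2⟩, mD3⟩,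
    fun z hz hz' => d1 z hz.1.1 hz'.1.1, fun z hz hz' => d2 z hz.1.2 hz'.1.1,
    fun z hz hz' => d3 z hz.2 hz'.1.1, fun z hz hz' => d4 z hz.1.2 hz'.1.2,
    fun z hz hz' => d5 z hz.2 hz'.1.2, fun z hz hz' => d6 z hz.2 hz'.2⟩

theorem inv_ns {p : G} {S T : Set E} {n : ℕ} (h : ∀ z, z ∉ T → p ^ n • z ∈ S) :
    ∀ z, z ∉ S → (p ^ n)⁻¹ • z ∈ T := by
  intro z hz
  by_contra hcon
  have := h _ hcon
  rw [smul_inv_smul] at this
  exact hz this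

theorem exists_elt (hC : CS0 P sb at') {I J : Set E} (hI : Op sb I) (hJ : Op sb J)
    (hIn : I.Nonempty) (hJn : J.Nonempty) (hd : ∀ z ∈ I, z ∉ J) :
    ∃ u ∈ P, u ≠ 1 ∧ at' u ∈ I ∧ at' u⁻¹ ∈ J := by
  obtain ⟨ρ, hi, hρ⟩ := hC.rank
  obtain ⟨x, hx⟩ := hIn
  obtain ⟨y, hy⟩ := hJn
  obtain ⟨v, hv, hv1, rfl⟩ := hC.exists_at x
  obtain ⟨w, hw, hw1, rfl⟩ := hC.exists_at y
  have hvi := P.inv_mem hv
  have hwi := P.inv_mem hw
  have hvi1 := inv_ne_one.2 hv1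
  have hwi1 := inv_ne_one.2 hw1
  have h0 : at' v ≠ at' w := fun h => hd _ hx (h ▸ hy)
  by_cases h1 : at' w = at' v⁻¹
  · exact ⟨v, hv, hv1, hx, h1 ▸ hy⟩
  by_cases h2 : at' w⁻¹ = at' v
  · exfalso
    have := axis_eq hC hwi hwi1 hv hv1 h2
    rw [inv_inv] at this
    exact h1 this
  have h3 : at' v⁻¹ ≠ at' w⁻¹ := by
    intro h
    have := axis_eq hC hvi hvi1 hwi hwi1 h
    rw [inv_inv, inv_inv] at this
    exact h0 this
  have h4 := hC.at_ne v hv hv1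
  have h5 := hC.at_ne w hw hw1
  obtain ⟨A, B, C, D, oA, oB, oC, oD, mA, mB, mC, mD, dAB, dAC, dAD, dBC, dBD, dCD⟩ :=
    sep4 hC (a := at' v) (b := at' v⁻¹) (c := at' w) (d := at' w⁻¹) h4.symm h0 (Ne.symm h2)
      (Ne.symm h1) h3 h5.symm
  obtain ⟨N1, hN1⟩ := ns hC hv hv1 (op_inter hi hρ hI oA) oB ⟨hx, mA⟩ mB
  obtain ⟨N2, hN2⟩ := ns hC hwi hwi1 oD (op_inter hi hρ hJ oC) mD (by rw [inv_inv]; exact ⟨hy, mC⟩)
  have hmap : ∀ z, z ∉ J ∩ C → (v ^ N1 * w⁻¹ ^ N2) • z ∈ I ∩ A := by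
    intro z hz
    rw [mul_smul]
    exact hN1 N1 le_rfl _ (fun h => dBD _ h (hN2 N2 le_rfl z hz))
  have hc : v ^ N1 * w⁻¹ ^ N2 ∈ P := P.mul_mem (P.pow_mem hv _) (P.pow_mem hwi _)
  have hvJ : at' v⁻¹ ∉ J ∩ C := fun h => dBC _ mB h.2
  have hwJ : at' w⁻¹ ∉ J ∩ C := fun h => dCD _ h.2 mD
  have hvI : at' v⁻¹ ∉ I ∩ A := fun h => dAB _ h.2 mB
  have hwI : at' w⁻¹ ∉ I ∩ A := fun h => dAD _ h.2 mD
  have hc1 : v ^ N1 * w⁻¹ ^ N2 ≠ 1 := by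
    intro h
    have := hmap _ hvJ
    rw [h, one_smul] at this
    exact hvI this
  have := ping hC hc hc1 (op_inter hi hρ hI oA) (op_inter hi hρ hJ oC)
    (fun z hz hz' => dAC _ hz.2 hz'.2) hmap ⟨_, _, h3, hvJ, hwJ⟩ ⟨_, _, h3, hvI, hwI⟩
  exact ⟨_, hc, hc1, this.1.1, this.2.1⟩

/-- the two-line lemma -/
theorem two (hC : CS0 P sb at') {b u : G} (hb : b ∈ P) (hb1 : b ≠ 1) (hu : u ∈ P) (hu1 : u ≠ 1)
    (hne : at' b ≠ at' u) (hne' : at' b ≠ at' u⁻¹) {I I' J J' : Set E} (hI : Op sb I)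
    (hI' : Op sb I') (hJ : Op sb J) (hJ' : Op sb J') (mI : at' b ∈ I) (mI' : at' b⁻¹ ∈ I')
    (mJ : at' u ∈ J) (mJ' : at' u⁻¹ ∈ J') :
    ∃ c ∈ P, c ≠ 1 ∧ ∃ g ∈ P, at' c ∈ I ∧ at' c⁻¹ ∈ I' ∧ at' (g * c * g⁻¹) ∈ J ∧
      at' (g * c * g⁻¹)⁻¹ ∈ J' := by
  obtain ⟨ρ, hi, hρ⟩ := hC.rank
  have hbi := P.inv_mem hb
  have hui := P.inv_mem hu
  have hbi1 := inv_ne_one.2 hb1
  have hui1 := inv_ne_one.2 hu1
  have h1 : at' b⁻¹ ≠ at' u := by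
    intro h
    have := axis_eq hC hbi hbi1 hu hu1 h
    rw [inv_inv] at this
    exact hne' this
  have h2 : at' b⁻¹ ≠ at' u⁻¹ := by
    intro h
    have := axis_eq hC hbi hbi1 hui hui1 h
    rw [inv_inv, inv_inv] at this
    exact hne this
  obtain ⟨A, B, C, D, oA, oB, oC, oD, mA, mB, mC, mD, dAB, dAC, dAD, dBC, dBD, dCD⟩ :=
    sep4 hC (a := at' b) (b := at' b⁻¹) (c := at' u) (d := at' u⁻¹) (hC.at_ne b hb hb1).symm hne
      hne' h1 h2 (hC.at_ne u hu hu1).symm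
  have oA' := op_inter hi hρ hI oA
  have oB' := op_inter hi hρ hI' oB
  have oC' := op_inter hi hρ hJ oC
  have oD' := op_inter hi hρ hJ' oD
  obtain ⟨N1, hN1⟩ := ns hC hb hb1 oA' oB' ⟨mI, mA⟩ ⟨mI', mB⟩
  obtain ⟨N2, hN2⟩ := ns hC hu hu1 oC' oD' ⟨mJ, mC⟩ ⟨mJ', mD⟩
  set N := max N1 N2 with hN
  have hbN : ∀ z, z ∉ I' ∩ B → b ^ N • z ∈ I ∩ A := hN1 N (le_max_left _ _)
  have hb2N : ∀ z, z ∉ I' ∩ B → b ^ (2 * N) • z ∈ I ∩ A :=
    hN1 (2 * N) (le_trans (le_max_left N1 N2) (by omega))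
  have huN : ∀ z, z ∉ J' ∩ D → u ^ N • z ∈ J ∩ C := hN2 N (le_max_right _ _)
  have hu2N : ∀ z, z ∉ J' ∩ D → u ^ (2 * N) • z ∈ J ∩ C :=
    hN2 (2 * N) (le_trans (le_max_right N1 N2) (by omega))
  set c := b ^ N * u ^ (2 * N) * b ^ N with hc
  set g := (u ^ N)⁻¹ * (b ^ N)⁻¹ with hg
  have hcP : c ∈ P := P.mul_mem (P.mul_mem (P.pow_mem hb _) (P.pow_mem hu _)) (P.pow_mem hb _)
  have hgP : g ∈ P := P.mul_mem (P.inv_mem (P.pow_mem hu _)) (P.inv_mem (P.pow_mem hb _))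
  have hgc : g * c * g⁻¹ = u ^ N * b ^ (2 * N) * u ^ N := by
    rw [hg, hc, two_mul, pow_add, pow_add]
    group
  have hmap : ∀ z, z ∉ I' ∩ B → c • z ∈ I ∩ A := by
    intro z hz
    rw [hc, mul_smul, mul_smul]
    refine hbN _ (fun h => dBC _ h.2 (hu2N _ (fun h' => dAD _ (hbN z hz).2 h'.2)).2)
  have hmap' : ∀ z, z ∉ J' ∩ D → (g * c * g⁻¹) • z ∈ J ∩ C := by
    intro z hz
    rw [hgc, mul_smul, mul_smul]
    refine huN _ (fun h => dAD _ (hb2N _ (fun h' => dBC _ h'.2 (huN z hz).2)).2 h.2)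
  have hc1 : c ≠ 1 := by
    intro h
    have := hmap (at' u) (fun h' => dBC _ h'.2 mC)
    rw [h, one_smul] at this
    exact dAC _ this.2 mC
  have hgc1 : g * c * g⁻¹ ≠ 1 := by
    intro h
    apply hc1
    rwa [mul_inv_eq_one, mul_eq_left] at h
  have hp1 := ping hC hcP hc1 oA' oB' (fun z hz hz' => dAB _ hz.2 hz'.2) hmap
    ⟨at' u, at' u⁻¹, (hC.at_ne u hu hu1).symm, fun h' => dBC _ h'.2 mC, fun h' => dBD _ h'.2 mD⟩
    ⟨at' u, at' u⁻¹, (hC.at_ne u hu hu1).symm, fun h' => dAC _ h'.2 mC, fun h' => dAD _ h'.2 mD⟩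
  have hp2 := ping hC (P.mul_mem (P.mul_mem hgP hcP) (P.inv_mem hgP)) hgc1 oC' oD'
    (fun z hz hz' => dCD _ hz.2 hz'.2) hmap'
    ⟨at' b, at' b⁻¹, (hC.at_ne b hb hb1).symm, fun h' => dAD _ mA h'.2, fun h' => dBD _ mB h'.2⟩
    ⟨at' b, at' b⁻¹, (hC.at_ne b hb hb1).symm, fun h' => dAC _ mA h'.2, fun h' => dBC _ mB h'.2⟩
  exact ⟨c, hcP, hc1, g, hgP, hp1.1.1, hp1.2.1, hp2.1.1, hp2.2.1⟩

/-! ### The crossing graph of the translates of the axis of `b` -/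

/-- `g b g⁻¹` and `g' b g'⁻¹` have crossing axes -/
def Rel (P : Subgroup G) (sb : E → E → E → Prop) (at' : G → E) (b : G) (g g' : G) : Prop :=
  g ∈ P ∧ g' ∈ P ∧ LCr sb at' (g * b * g⁻¹) (g' * b * g'⁻¹)

theorem cr_comm (hC : CS0 P sb at') {x y z w : E} (h : Cr sb x y z w) : Cr sb z w x y := by
  obtain ⟨ρ, hi, hρ⟩ := hC.rank
  simp only [Cr, hρ, cycQ] at *
  grind

theorem cr_swap {x y z w : E} (h : Cr sb x y z w) : Cr sb x y w z := h.symm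

theorem cr_smul (hC : CS0 P sb at') {g : G} (hg : g ∈ P) {x y z w : E} (h : Cr sb x y z w) :
    Cr sb (g • x) (g • y) (g • z) (g • w) := by
  rcases h with ⟨h1, h2⟩ | ⟨h1, h2⟩
  · exact Or.inl ⟨hC.sbP g hg _ _ _ h1, hC.sbP g hg _ _ _ h2⟩
  · exact Or.inr ⟨hC.sbP g hg _ _ _ h1, hC.sbP g hg _ _ _ h2⟩

theorem lcr_conj (hC : CS0 P sb at') {b : G} (hb : b ∈ P) (hb1 : b ≠ 1) (g g' : G) :
    LCr sb at' (g * b * g⁻¹) (g' * b * g'⁻¹) ↔
      Cr sb (g • at' b⁻¹) (g • at' b) (g' • at' b⁻¹) (g' • at' b) := by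
  unfold LCr
  rw [hC.smul_at g b hb hb1, hC.smul_at g' b hb hb1, hC.smul_at g b⁻¹ (P.inv_mem hb)
    (inv_ne_one.2 hb1), hC.smul_at g' b⁻¹ (P.inv_mem hb) (inv_ne_one.2 hb1)]
  simp only [mul_inv_rev, inv_inv, mul_assoc]

theorem Rel.symm (hC : CS0 P sb at') {b g g' : G} (h : Rel P sb at' b g g') :
    Rel P sb at' b g' g := ⟨h.2.1, h.1, cr_comm hC h.2.2⟩

theorem Rel.smul (hC : CS0 P sb at') {b g g' k : G} (hb : b ∈ P) (hb1 : b ≠ 1) (hk : k ∈ P)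
    (h : Rel P sb at' b g g') : Rel P sb at' b (k * g) (k * g') := by
  refine ⟨P.mul_mem hk h.1, P.mul_mem hk h.2.1, ?_⟩
  have := h.2.2
  rw [lcr_conj hC hb hb1] at this ⊢
  have h2 := cr_smul hC hk this
  simpa only [mul_smul] using h2

theorem rtg_smul (hC : CS0 P sb at') {b g g' k : G} (hb : b ∈ P) (hb1 : b ≠ 1) (hk : k ∈ P)
    (h : Relation.ReflTransGen (Rel P sb at' b) g g') :
    Relation.ReflTransGen (Rel P sb at' b) (k * g) (k * g') :=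
  h.lift (fun x => k * x) (fun _ _ hx => hx.smul hC hb hb1 hk)

theorem rtg_symm (hC : CS0 P sb at') {b g g' : G}
    (h : Relation.ReflTransGen (Rel P sb at' b) g g') :
    Relation.ReflTransGen (Rel P sb at' b) g' g := by
  induction h with
  | refl => exact Relation.ReflTransGen.refl
  | tail _ h2 ih => exact Relation.ReflTransGen.head (h2.symm hC) ih

theorem rtg_closure (hC : CS0 P sb at') {b : G} (hb : b ∈ P) (hb1 : b ≠ 1) {S : Set G}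
    (hS : Subgroup.closure S = P)
    (h : ∀ s ∈ S, Relation.ReflTransGen (Rel P sb at' b) 1 s) :
    ∀ p ∈ P, Relation.ReflTransGen (Rel P sb at' b) 1 p := by
  intro p hp
  have hp' : p ∈ Subgroup.closure S := by rw [hS]; exact hp
  induction hp' using Subgroup.closure_induction with
  | mem x hx => exact h x hx
  | one => exact Relation.ReflTransGen.refl
  | mul x y hx hy ihx ihy =>
    have hxP : x ∈ P := hS ▸ hx
    have hyP : y ∈ P := hS ▸ hy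
    refine (ihx hxP).trans ?_
    have := rtg_smul hC hb hb1 hxP (ihy hyP)
    rwa [mul_one] at this
  | inv x hx ih =>
    have hxP : x ∈ P := hS ▸ hx
    have := rtg_smul hC hb hb1 (P.inv_mem hxP) (ih hxP)
    rw [mul_one, inv_mul_cancel] at this
    exact rtg_symm hC this

theorem claim (hC : CS0 P sb at') (S : Finset G) (hS : ∀ s ∈ S, s ∈ P) :
    ∃ a ∈ P, a ≠ 1 ∧ ∃ U V : Set E, Op sb U ∧ Op sb V ∧ at' a ∈ U ∧ at' a⁻¹ ∈ V ∧
      ∀ b ∈ P, b ≠ 1 → at' b ∈ U → at' b⁻¹ ∈ V →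
        ∀ s ∈ S, Relation.ReflTransGen (Rel P sb at' b) 1 s := by
  classical
  obtain ⟨ρ, hi, hρ⟩ := hC.rank
  induction S using Finset.induction_on with
  | empty =>
    obtain ⟨a, ha, ha1⟩ := hC.nontriv
    obtain ⟨U, V, oU, oV, mU, mV, -⟩ := hausdorff hi hρ (dense hC) (hC.at_ne a ha ha1).symm
    exact ⟨a, ha, ha1, U, V, oU, oV, mU, mV, fun b _ _ _ _ s hs => by simp at hs⟩
  | insert s S hsS ih =>
    have hsP : s ∈ P := hS s (Finset.mem_insert_self _ _)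
    obtain ⟨a, ha, ha1, U, V, oU, oV, mU, mV, hall⟩ :=
      ih (fun t ht => hS t (Finset.mem_insert_of_mem ht))
    have hne := hC.at_ne a ha ha1
    have hne' : s • at' a⁻¹ ≠ s • at' a := fun h => hne (smul_left_cancel s h)
    obtain ⟨I, J, oI, oJ, nI, nJ, dIJ, hIJ⟩ := both hi hρ (dense hC) hne hne'
    obtain ⟨u, hu, hu1, muI, muJ⟩ := exists_elt hC oI oJ nI nJ dIJ
    obtain ⟨hcr1, hcr2⟩ := hIJ _ muI _ muJ
    obtain ⟨X1, Y1, Z1, W1, oX1, oY1, oZ1, oW1, mX1, mY1, mZ1, mW1, h1⟩ :=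
      stabCr hi hρ (dense hC) hcr1
    obtain ⟨X2, Y2, Z2, W2, oX2, oY2, oZ2, oW2, mX2, mY2, mZ2, mW2, h2⟩ :=
      stabCr hi hρ (dense hC) hcr2
    have hau : at' a ≠ at' u := by
      intro h
      rw [← h] at hcr1
      simp only [Cr, hρ, cycQ] at hcr1
      clear h1 h2 hIJ hall hρ
      grind
    have hau' : at' a ≠ at' u⁻¹ := by
      intro h
      rw [← h] at hcr1
      simp only [Cr, hρ, cycQ] at hcr1
      clear h1 h2 hIJ hall hρ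
      grind
    have oi := fun {S T : Set E} (hS : Op sb S) (hT : Op sb T) => op_inter hi hρ hS hT
    have oA : Op sb ((U ∩ Y1) ∩ {x | s • x ∈ Y2}) := oi (oi oU oY1) (op_smul hC hsP oY2)
    have oB : Op sb ((V ∩ X1) ∩ {x | s • x ∈ X2}) := oi (oi oV oX1) (op_smul hC hsP oX2)
    obtain ⟨c, hc, hc1, g, hg, c1, c2, c3, c4⟩ := two hC ha ha1 hu hu1 hau hau' oA oB
      (oi oZ1 oZ2) (oi oW1 oW2) ⟨⟨mU, mY1⟩, mY2⟩ ⟨⟨mV, mX1⟩, mX2⟩ ⟨mZ1, mZ2⟩ ⟨mW1, mW2⟩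
    have e1 : ∀ b ∈ P, b ≠ 1 → at' (g * b * g⁻¹) = g • at' b := fun b hb hb1 =>
      (hC.smul_at g b hb hb1).symm
    have e2 : ∀ b ∈ P, b ≠ 1 → at' (g * b * g⁻¹)⁻¹ = g • at' b⁻¹ := fun b hb hb1 => by
      rw [hC.smul_at g b⁻¹ (P.inv_mem hb) (inv_ne_one.2 hb1)]
      simp only [mul_inv_rev, inv_inv, mul_assoc]
    rw [e1 c hc hc1] at c3
    rw [e2 c hc hc1] at c4
    refine ⟨c, hc, hc1, _, _, oi oA (op_smul hC hg (oi oZ1 oZ2)),
      oi oB (op_smul hC hg (oi oW1 oW2)), ⟨c1, c3⟩, ⟨c2, c4⟩, ?_⟩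
    intro b hb hb1 hbU hbV t ht
    obtain ⟨⟨⟨b1, b2⟩, b3⟩, b4, b5⟩ := hbU
    obtain ⟨⟨⟨d1, d2⟩, d3⟩, d4, d5⟩ := hbV
    rcases Finset.mem_insert.1 ht with rfl | ht
    · have r1 : Rel P sb at' b 1 g := by
        refine ⟨P.one_mem, hg, ?_⟩
        rw [lcr_conj hC hb hb1, one_smul, one_smul]
        exact cr_swap (h1 _ d2 _ b2 _ b4 _ d4)
      have r2 : Rel P sb at' b t g := by
        refine ⟨hsP, hg, ?_⟩
        rw [lcr_conj hC hb hb1]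
        exact cr_swap (h2 _ d3 _ b3 _ b5 _ d5)
      exact (Relation.ReflTransGen.single r1).trans (Relation.ReflTransGen.single (r2.symm hC))
    · exact hall b hb hb1 b1 d1 t ht

end Dyn

end Fill

/-! ### Task F -/

theorem exists_filling {G : Type*} {E : Type*} [Group G] [MulAction G E] {P : Subgroup G}
    {sb : E → E → E → Prop} {at' : G → E} (hC : CS P sb at') : ∃ a : G, Filling P sb at' a := by
  have hC0 := hC.toCS0
  obtain ⟨S, hS⟩ := hC.fg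
  have hSP : ∀ s ∈ S, s ∈ P := fun s hs => hS ▸ Subgroup.subset_closure hs
  obtain ⟨a, ha, ha1, U, V, -, -, mU, mV, hall⟩ := Fill.claim hC0 S hSP
  have hconn := Fill.rtg_closure hC0 ha ha1 hS (hall a ha ha1 mU mV)
  obtain ⟨r, hr, hr1, hra, hst⟩ := hC.root a ha ha1
  have hra' : at' r⁻¹ = at' a⁻¹ := Fill.axis_eq hC0 hr hr1 ha ha1 hra
  refine ⟨r, hr, hr1, ?_, ?_⟩
  · intro q hq h
    rw [hra] at h
    exact hst q hq h
  · intro p hp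
    have key : ∀ g g' : G, Fill.Rel P sb at' a g g' → Fill.Rel P sb at' r g g' := by
      rintro g g' ⟨h1, h2, h3⟩
      refine ⟨h1, h2, ?_⟩
      rw [Fill.lcr_conj hC0 ha ha1] at h3
      rw [Fill.lcr_conj hC0 hr hr1, hra, hra']
      exact h3
    exact (hconn p hp).lift id key

end Pool.Agent.MP_e058c8_al
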