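import Pool.Agent.MP_e058c8_al.ProjBase
import Pool.Agent.MP_e058c8_al.Counts

/-! Task G2: every line is crossed by a `P`-translate of the base line; the crossing graph is
connected. -/

namespace Pool.Agent.MP_e058c8_al

open scoped Pointwise

variable {G : Type*} {E : Type*} [Group G] [MulAction G E] {P : Subgroup G}
  {sb : E → E → E → Prop} {at' : G → E} {a : G}

/-- the `P`-translates of the base line as axes -/
theorem graph_smul_base (hC : CS P sb at') (ha : Filling P sb at' a) (g : G) :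
    (g • baseLine G at' a).1 = Ln at' (g * a * g⁻¹) :=
  smul_Ln hC g ha.mem ha.ne

theorem graph_crS_pair (hc : CycOrd sb) {u v s t : E} (h : CrS sb {u, v} {s, t}) : Cr sb u v s t := by
  obtain ⟨x, hx, y, hy, z, hz, w, hw, hcr⟩ := h
  have hne := hcr.ne hc
  simp only [Set.mem_insert_iff, Set.mem_singleton_iff] at hx hy hz hw
  rcases hx with rfl | rfl <;> rcases hy with rfl | rfl <;> rcases hz with rfl | rfl <;>
    rcases hw with rfl | rfl <;>
    first
    | exact hcr
    | exact hcr.swap₁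
    | exact hcr.swap₂
    | exact hcr.swap₁.swap₂
    | exact absurd rfl hne.1
    | exact absurd rfl hne.2.2.2.2.2

theorem graph_crS_of_cr {u v s t : E} (h : Cr sb u v s t) : CrS sb {u, v} {s, t} :=
  ⟨u, by simp, v, by simp, s, by simp, t, by simp, h⟩

/-- ends of a line not crossing `u v` are on the same side -/
theorem graph_same_side_of_not_cr [Countable E] (hc : CycOrd sb) {u v s t : E} (huv : u ≠ v)
    (h : ¬ Cr sb u v s t) (h1 : s ≠ u) (h2 : s ≠ v) (h3 : t ≠ u) (h4 : t ≠ v) :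
    sb u s v ↔ sb u t v := by
  obtain ⟨ρ_, hinj_, hr_⟩ := CycOrd.rk hc
  simp only [Cr, ne_eq, hinj_, hr_] at *
  clear hinj_ hr_
  grind (splits := 40)

/-- crossing lines which do not cross `u v` are on the same side of `u v` -/
theorem graph_same_side_of_cr [Countable E] (hc : CycOrd sb) {u v s t s' t' : E} (huv : u ≠ v)
    (h : Cr sb s t s' t') (hst : sb u s v ↔ sb u t v) (hst' : sb u s' v ↔ sb u t' v)
    (h1 : s ≠ u) (h2 : s ≠ v) (h3 : t ≠ u) (h4 : t ≠ v)
    (h1' : s' ≠ u) (h2' : s' ≠ v) (h3' : t' ≠ u) (h4' : t' ≠ v) :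
    sb u s v ↔ sb u s' v := by
  obtain ⟨ρ_, hinj_, hr_⟩ := CycOrd.rk hc
  simp only [Cr, ne_eq, hinj_, hr_] at *
  clear hinj_ hr_
  grind (splits := 40)

/-- points `x`, `x'` of the left arc of `m p` on different sides of `u` are separated by the
line `u v` crossing `m p` -/
theorem graph_side_aux [Countable E] (hc : CycOrd sb) {m p u v x x' : E} (hcr : Cr sb m p u v)
    (hu : sb m u p) (h1 : sb m u x) (h2 : sb m x p) (h1' : sb m x' u) : Cr sb u v x x' := by
  obtain ⟨ρ_, hinj_, hr_⟩ := CycOrd.rk hc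
  simp only [Cr, ne_eq, hinj_, hr_] at *
  clear hinj_ hr_
  grind (splits := 40)

theorem graph_not_iff_of_cr [Countable E] (hc : CycOrd sb) {u v x x' : E} (h : Cr sb u v x x') :
    ¬ (sb u x v ↔ sb u x' v) := by
  obtain ⟨ρ_, hinj_, hr_⟩ := CycOrd.rk hc
  simp only [Cr, ne_eq, hinj_, hr_] at *
  clear hinj_ hr_
  grind (splits := 40)

/-- dynamics : `x` in the left arc of `w`, `w` crosses `u v` -/
theorem graph_dyn_aux (hC : CS P sb at') {w : G} (hw : w ∈ P) (hw1 : w ≠ 1) {x u v : E}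
    (hcr : Cr sb (at' w⁻¹) (at' w) u v) (hx : sb (at' w⁻¹) x (at' w)) :
    ∃ p ∈ P, ∃ q ∈ P, Cr sb u v (p • x) (q • x) := by
  have := hC.toCS0.countable
  have hfix1 : ∀ n : ℕ, w ^ n • at' w = at' w := by
    intro n
    rw [hC.smul_at _ w hw hw1]
    congr 1
    group
  have hfix2 : ∀ n : ℕ, w ^ n • at' w⁻¹ = at' w⁻¹ := by
    intro n
    rw [hC.smul_at _ w⁻¹ (P.inv_mem hw) (by simpa using hw1)]
    congr 1
    group
  -- wlog `u` is in the left arc
  have key : ∀ u v : E, Cr sb (at' w⁻¹) (at' w) u v → sb (at' w⁻¹) u (at' w) →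
      ∃ p ∈ P, ∃ q ∈ P, Cr sb u v (p • x) (q • x) := by
    intro u v hcr hu
    obtain ⟨n, hn⟩ := hC.arch w hw hw1 x u hx hu
    obtain ⟨m, hm⟩ := hC.arch w hw hw1 u x hu hx
    refine ⟨w ^ n, P.pow_mem hw n, (w ^ m)⁻¹, P.inv_mem (P.pow_mem hw m), ?_⟩
    have h2 : sb (at' w⁻¹) (w ^ n • x) (at' w) := by
      have := hC.sbP (w ^ n) (P.pow_mem hw n) _ _ _ hx
      rwa [hfix1, hfix2] at this
    have h3 : sb (at' w⁻¹) ((w ^ m)⁻¹ • x) u := by
      have := hC.sbP ((w ^ m)⁻¹) (P.inv_mem (P.pow_mem hw m)) _ _ _ hm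
      rw [inv_smul_smul] at this
      rwa [show (w ^ m)⁻¹ • at' w⁻¹ = at' w⁻¹ by
        rw [inv_smul_eq_iff, hfix2]] at this
    exact graph_side_aux hC.cyc hcr hu hn h2 h3
  by_cases hu : sb (at' w⁻¹) u (at' w)
  · exact key u v hcr hu
  · have hv : sb (at' w⁻¹) v (at' w) := by
      rcases hcr with h | h
      · exact absurd h.1 hu
      · exact h.1
    obtain ⟨p, hp, q, hq, hpq⟩ := key v u hcr.swap₂ hv
    exact ⟨p, hp, q, hq, hpq.swap₁⟩

/-- every line is crossed by a `P`-translate of the base line -/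
theorem exists_cross (hC : CS P sb at') (ha : Filling P sb at' a) (X : Lines G at' a) :
    ∃ p ∈ P, CrS sb X.1 (p • baseLine G at' a).1 := by
  classical
  have := hC.toCS0.countable
  have hc := hC.cyc
  by_contra hno
  push Not at hno
  obtain ⟨h, hhP, hwall⟩ := exists_wall hC ha
  obtain ⟨g, hXg, hX1⟩ := line_eq hC ha X
  -- `X` is not a `P`-translate of `A`
  have hXne : ∀ p ∈ P, p • baseLine G at' a ≠ X := by
    rintro p hp rfl
    refine hno (p * h) (P.mul_mem hp hhP) ?_
    rw [mul_smul]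
    exact crS_smul hC p hwall
  have huv : at' (g * a * g⁻¹)⁻¹ ≠ at' (g * a * g⁻¹) := by
    refine hC.at_ne _ (hC.normal.conj_mem _ ha.mem g) ?_
    intro hb1
    exact ha.ne (conj_eq_one_iff.1 hb1)
  generalize hu : at' (g * a * g⁻¹)⁻¹ = u at *
  generalize hv : at' (g * a * g⁻¹) = v at *
  have hXuv : X.1 = {u, v} := by rw [hX1, Ln, hu, hv]
  have hdis : ∀ p ∈ P, ∀ z ∈ (p • baseLine G at' a).1, z ≠ u ∧ z ≠ v := by
    intro p hp z hz
    constructor
    · rintro rfl
      exact hXne p hp (line_disj hC ha hz (by rw [hXuv]; simp))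
    · rintro rfl
      exact hXne p hp (line_disj hC ha hz (by rw [hXuv]; simp))
  have hend : ∀ p : G, (p • baseLine G at' a).1 =
      {at' (p * a * p⁻¹)⁻¹, at' (p * a * p⁻¹)} := fun p => graph_smul_base hC ha p
  -- ends of one translate lie on the same side
  have hone : ∀ p ∈ P, (sb u (at' (p * a * p⁻¹)⁻¹) v ↔ sb u (at' (p * a * p⁻¹)) v) := by
    intro p hp
    have h1 := hno p hp
    rw [hXuv, hend p] at h1
    have h3 := hdis p hp (at' (p * a * p⁻¹)⁻¹) (by rw [hend]; simp)
    have h4 := hdis p hp (at' (p * a * p⁻¹)) (by rw [hend]; simp)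
    exact graph_same_side_of_not_cr hc huv (fun hh => h1 (graph_crS_of_cr hh)) h3.1 h3.2 h4.1 h4.2
  -- all translates lie on one side
  have hall : ∀ p ∈ P, (sb u (at' (p * a * p⁻¹)) v ↔ sb u (at' a) v) := by
    intro p hp
    have h1 := ha.conn p hp
    induction h1 with
    | refl => simp
    | tail _ h2 ih =>
      rename_i g1 g2 _
      obtain ⟨hg1, hg2, hcr⟩ := h2
      have h3 := hdis g1 hg1 (at' (g1 * a * g1⁻¹)⁻¹) (by rw [hend]; simp)
      have h4 := hdis g1 hg1 (at' (g1 * a * g1⁻¹)) (by rw [hend]; simp)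
      have h3' := hdis g2 hg2 (at' (g2 * a * g2⁻¹)⁻¹) (by rw [hend]; simp)
      have h4' := hdis g2 hg2 (at' (g2 * a * g2⁻¹)) (by rw [hend]; simp)
      have h5 := graph_same_side_of_cr hc huv hcr (hone g1 hg1) (hone g2 hg2) h3.1 h3.2 h4.1 h4.2
        h3'.1 h3'.2 h4'.1 h4'.2
      rw [← hone g2 hg2, ← h5, hone g1 hg1]
      exact ih hg1
  -- the wall `W` of `X`
  have hWcr : CrS sb X.1 ((g * h) • baseLine G at' a).1 := by
    rw [hXg, mul_smul]
    exact crS_smul hC g hwall
  have hwP : (g * h) * a * (g * h)⁻¹ ∈ P := hC.normal.conj_mem _ ha.mem (g * h)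
  have hw1 : (g * h) * a * (g * h)⁻¹ ≠ 1 := fun hb1 => ha.ne (conj_eq_one_iff.1 hb1)
  have hAW : baseLine G at' a ≠ (g * h) • baseLine G at' a := by
    intro hAW
    refine hno 1 P.one_mem ?_
    rw [one_smul]
    nth_rw 1 [hAW]
    exact hWcr
  have hWe : ((g * h) • baseLine G at' a).1 =
      {at' ((g * h) * a * (g * h)⁻¹)⁻¹, at' ((g * h) * a * (g * h)⁻¹)} := graph_smul_base hC ha (g * h)
  generalize hw : (g * h) * a * (g * h)⁻¹ = w at *
  have hx : at' a ∈ (baseLine G at' a).1 := by simp [baseLine, Ln]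
  have hxw : at' a ≠ at' w⁻¹ ∧ at' a ≠ at' w := by
    constructor
    · intro he
      exact hAW (line_disj hC ha hx (by rw [hWe, he]; simp))
    · intro he
      exact hAW (line_disj hC ha hx (by rw [hWe, he]; simp))
  have hcr : Cr sb u v (at' w⁻¹) (at' w) := by
    rw [hXuv, hWe] at hWcr
    exact graph_crS_pair hc hWcr
  have hcr' : Cr sb (at' w⁻¹) (at' w) u v := hcr.symm hc
  have hfin : ∃ p ∈ P, ∃ q ∈ P, Cr sb u v (p • at' a) (q • at' a) := by
    rcases hc.total (at' w⁻¹) (at' a) (at' w) hxw.1.symm hxw.2 (hC.at_ne w hwP hw1) with h1 | h1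
    · exact graph_dyn_aux hC hwP hw1 hcr' h1
    · have h2 : sb (at' w) (at' a) (at' w⁻¹) := hc.rot _ _ _ h1
      exact graph_dyn_aux hC (P.inv_mem hwP) (inv_ne_one.2 hw1) (x := at' a) (u := u) (v := v)
        (by rw [inv_inv]; exact hcr'.swap₁) (by rw [inv_inv]; exact h2)
  obtain ⟨p, hp, q, hq, hpq⟩ := hfin
  apply graph_not_iff_of_cr hc hpq
  rw [hC.smul_at p a ha.mem ha.ne, hC.smul_at q a ha.mem ha.ne, hall p hp, hall q hq]

theorem cross_connected (hC : CS P sb at') (ha : Filling P sb at' a) (X Y : Lines G at' a) :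
    Relation.ReflTransGen (fun U V : Lines G at' a => CrS sb U.1 V.1) X Y := by
  have key : ∀ p ∈ P, Relation.ReflTransGen (fun U V : Lines G at' a => CrS sb U.1 V.1)
      (baseLine G at' a) (p • baseLine G at' a) := by
    intro p hp
    have h2 := (ha.conn p hp).lift (p := fun U V : Lines G at' a => CrS sb U.1 V.1)
      (fun g : G => g • baseLine G at' a) (fun g g' hgg' => by
        show CrS sb (g • baseLine G at' a).1 (g' • baseLine G at' a).1
        rw [graph_smul_base hC ha, graph_smul_base hC ha]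
        exact graph_crS_of_cr hgg'.2.2)
    simpa [Function.onFun] using h2
  have hsymm : ∀ {U V : Lines G at' a},
      Relation.ReflTransGen (fun U V : Lines G at' a => CrS sb U.1 V.1) U V →
      Relation.ReflTransGen (fun U V : Lines G at' a => CrS sb U.1 V.1) V U := by
    intro U V hUV
    induction hUV with
    | refl => exact Relation.ReflTransGen.refl
    | tail _ h2 ih => exact Relation.ReflTransGen.head (crS_symm hC h2) ih
  have toA : ∀ Z : Lines G at' a,
      Relation.ReflTransGen (fun U V : Lines G at' a => CrS sb U.1 V.1) Z (baseLine G at' a) := by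
    intro Z
    obtain ⟨p, hp, hcr⟩ := exists_cross hC ha Z
    exact Relation.ReflTransGen.head hcr (hsymm (key p hp))
  exact (toA X).trans (hsymm (toA Y))

end Pool.Agent.MP_e058c8_al
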