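import Pool.Agent.MP_e058c8_al.ProjBase
import Pool.Agent.MP_e058c8_al.Counts

/-! Task G3: rigidity. -/

namespace Pool.Agent.MP_e058c8_al

open scoped Pointwise

namespace Rigid


section Cyc

variable {E : Type*} {sb : E → E → E → Prop}

theorem not_cr_left (h : CycOrd sb) (x z w : E) : ¬ Cr sb x x z w := by
  intro hc; exact (Cr.ne h hc).1 rfl

theorem not_cr_right (h : CycOrd sb) (x y z : E) : ¬ Cr sb x y z z := by
  intro hc; exact (Cr.ne h hc).2.2.2.2.2 rfl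

theorem crS_pair (h : CycOrd sb) {u v s t : E} (hc : CrS sb {u, v} {s, t}) : Cr sb u v s t := by
  obtain ⟨u', hu, v', hv, s', hs, t', ht, hcr⟩ := hc
  have h1 := not_cr_left h
  have h2 := not_cr_right h
  simp only [Set.mem_insert_iff, Set.mem_singleton_iff] at hu hv hs ht
  rcases hu with rfl | rfl <;> rcases hv with rfl | rfl <;> rcases hs with rfl | rfl <;>
    rcases ht with rfl | rfl <;>
    first
      | exact absurd hcr (h1 _ _ _)
      | exact absurd hcr (h2 _ _ _)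
      | exact hcr
      | exact hcr.swap₁
      | exact hcr.swap₂
      | exact hcr.swap₁.swap₂

theorem side1 [Countable E] (h : CycOrd sb) {p q a b c : E} (h1 : Cr sb p q a b) (h2 : Cr sb p q c b) :
    ¬ Cr sb p q a c := by
  obtain ⟨ρ_, hinj_, hr_⟩ := CycOrd.rk h
  simp only [Cr, ne_eq, hinj_, hr_] at *
  clear hinj_ hr_
  grind (splits := 40)

theorem side2 [Countable E] (h : CycOrd sb) {p q a b c d : E} (h1 : Cr sb p q a b) (h2 : Cr sb p q c b)
    (h3 : Cr sb p q a d) : Cr sb p q c d := by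
  have hd := Cr.ne h h3
  rcases Cr.third h h2 (t := d) (Ne.symm hd.2.2.1) (Ne.symm hd.2.2.2.2.1) with h4 | h4
  · exact h4
  · exact absurd h3 (side1 h h1 h4)

theorem inner [Countable E] (h : CycOrd sb) {p q P Q z y : E} (h1 : Cr sb p q z P) (h2 : Cr sb p q z Q)
    (h3 : Cr sb P Q z y) : Cr sb p q z y := by
  obtain ⟨ρ_, hinj_, hr_⟩ := CycOrd.rk h
  simp only [Cr, ne_eq, hinj_, hr_] at *
  clear hinj_ hr_
  grind (splits := 40)

theorem corner [Countable E] (h : CycOrd sb) {p q P Q u v x t : E}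
    (h1 : Cr sb p q x v) (h2 : Cr sb p q u v) (h3 : Cr sb p q x t)
    (h4 : Cr sb P Q x u) (h5 : Cr sb P Q v u) (h6 : Cr sb P Q x t) :
    Cr sb p q P Q ∨ P = p ∨ P = q ∨ Q = p ∨ Q = q := by
  by_cases e1 : P = p
  · exact Or.inr (Or.inl e1)
  by_cases e2 : P = q
  · exact Or.inr (Or.inr (Or.inl e2))
  by_cases e3 : Q = p
  · exact Or.inr (Or.inr (Or.inr (Or.inl e3)))
  by_cases e4 : Q = q
  · exact Or.inr (Or.inr (Or.inr (Or.inr e4)))
  left
  rcases Cr.third h h2 e1 e2 with a1 | a1 <;> rcases Cr.third h h2 e3 e4 with a2 | a2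
  · have := inner h a1 a2 h4.swap₂
    exact absurd h2 (by
      have := side1 h (a := u) (b := x) (c := v) this h1.swap₂
      exact this)
  · exact (side2 h h2 a2 a1).swap₂
  · exact side2 h h2 a1 a2
  · have h7 := side2 h h4 h5 h6
    have := inner h a1.swap₂ a2.swap₂ h7
    exact absurd this (side1 h h1.swap₂ h3.swap₂)

end Cyc

section Lines

variable {G : Type*} {E : Type*} [Group G] [MulAction G E] {P : Subgroup G}
  {sb : E → E → E → Prop} {at' : G → E} {a : G}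

theorem coe_smul (g : G) (Y : Lines G at' a) : (g • Y).1 = g • Y.1 := rfl

theorem mem_smul {g : G} {Y : Lines G at' a} {y : E} (hy : y ∈ Y.1) : g • y ∈ (g • Y).1 :=
  Set.smul_mem_smul_set hy

theorem smul_mem_of_fix {g : G} {Y : Lines G at' a} (h : g • Y = Y) {y : E} (hy : y ∈ Y.1) :
    g • y ∈ Y.1 := by
  have := mem_smul (g := g) hy
  rwa [h] at this

theorem smul_inv_of_fix {g : G} {Y : Lines G at' a} (h : g • Y = Y) : g⁻¹ • Y = Y := by
  rw [inv_smul_eq_iff, h]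

theorem pair_of (hC : CS P sb at') (ha : Filling P sb at' a) (Y : Lines G at' a) :
    ∃ u v : E, u ≠ v ∧ Y.1 = {u, v} := by
  obtain ⟨g, -, h⟩ := line_eq hC ha Y
  refine ⟨_, _, ?_, h⟩
  have hp : g * a * g⁻¹ ∈ P := hC.normal.conj_mem _ ha.mem g
  have h1 : g * a * g⁻¹ ≠ 1 := by
    intro hx
    apply ha.ne
    have : a = g⁻¹ * (g * a * g⁻¹) * g := by group
    rw [this, hx]; group
  exact hC.at_ne _ hp h1

/-- crossing in terms of all pairs of points -/
theorem crS_points (h : CycOrd sb) {S T : Set E} {u v s t : E} (hS : S = {u, v}) (hT : T = {s, t})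
    (hc : CrS sb S T) : Cr sb u v s t := by
  subst hS hT
  exact crS_pair h hc

theorem sepS_points (h : CycOrd sb) {V X Z : Set E} {p q : E} (hV : V = {p, q})
    (hX : X.Nonempty) (hZ : Z.Nonempty) (hs : SepS sb V X Z) :
    ∀ s ∈ X, ∀ t ∈ Z, Cr sb p q s t := by
  subst hV
  obtain ⟨u, hu, v, hv, H⟩ := hs
  obtain ⟨s0, hs0⟩ := hX
  obtain ⟨t0, ht0⟩ := hZ
  have hne := (Cr.ne h (H s0 hs0 t0 ht0)).1
  intro s hs t ht
  have := H s hs t ht
  simp only [Set.mem_insert_iff, Set.mem_singleton_iff] at hu hv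
  rcases hu with rfl | rfl <;> rcases hv with rfl | rfl
  · exact absurd rfl hne
  · exact this
  · exact this.swap₁
  · exact absurd rfl hne

/-- the walls of `Y` which separate `X` from `Z` and have `x` on the side of `u` -/
def half (P : Subgroup G) (sb : E → E → E → Prop) (X Y Z : Lines G at' a) (x u v : E) :
    Set (Lines G at' a) :=
  {V | V ∈ walls P sb Y ∧ ∃ p q, V.1 = {p, q} ∧ Cr sb p q u v ∧
    (∀ s ∈ X.1, ∀ t ∈ Z.1, Cr sb p q s t) ∧ Cr sb p q x v}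

theorem half_bound (hC : CS P sb at') (ha : Filling P sb at' a) {θ : ℕ}
    (hθ : ∀ Y W : Lines G at' a, W ≠ Y →
      {V | V ∈ walls P sb Y ∧ (CrS sb V.1 W.1 ∨ V = W)}.Finite ∧
      Set.ncard {V | V ∈ walls P sb Y ∧ (CrS sb V.1 W.1 ∨ V = W)} ≤ θ)
    {g : G} {X Y Z : Lines G at' a} (hX : g • X = X) (hY : g • Y = Y) (hZ : g • Z = Z)
    {x u v t : E} (hx : x ∈ X.1) (ht : t ∈ Z.1) (hu : g • u = v) (hv : g • v = u) :
    (half P sb X Y Z x u v).Finite ∧ (half P sb X Y Z x u v).ncard ≤ θ := by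
  have hc := hC.cyc
  have := hC.toCS0.countable
  rcases (half P sb X Y Z x u v).eq_empty_or_nonempty with h0 | ⟨V2, hV2⟩
  · rw [h0]
    simp
  obtain ⟨hw2, P2, Q2, hV2, c2, d2, e2⟩ := hV2
  have hne : g • V2 ≠ Y := by
    intro he
    apply crS_ne hC ha hw2.2
    rw [← hY] at he
    exact (smul_left_cancel g he).symm
  have hsub : half P sb X Y Z x u v ⊆
      {V | V ∈ walls P sb Y ∧ (CrS sb V.1 (g • V2).1 ∨ V = g • V2)} := by
    rintro V ⟨hw, p, q, hV, c, d, e⟩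
    refine ⟨hw, ?_⟩
    have hx' : g⁻¹ • x ∈ X.1 := smul_mem_of_fix (smul_inv_of_fix hX) hx
    have ht' : g⁻¹ • t ∈ Z.1 := smul_mem_of_fix (smul_inv_of_fix hZ) ht
    have k1 : Cr sb P2 Q2 (g⁻¹ • x) v := side2 hc (d2 x hx t ht) (d2 _ hx' t ht) e2
    have k2 := hC.crG g _ _ _ _ k1
    have k3 := hC.crG g _ _ _ _ c2
    have k4 := hC.crG g _ _ _ _ (d2 _ hx' _ ht')
    rw [smul_inv_smul] at k2 k4
    rw [smul_inv_smul] at k4
    rw [hv] at k2 k3
    rw [hu] at k3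
    have hp : p ∈ V.1 := by rw [hV]; simp
    have hq : q ∈ V.1 := by rw [hV]; simp
    have hP : g • P2 ∈ (g • V2).1 := mem_smul (by rw [hV2]; simp)
    have hQ : g • Q2 ∈ (g • V2).1 := mem_smul (by rw [hV2]; simp)
    rcases corner hc e c (d x hx t ht) k2 k3 k4 with h | h | h | h | h
    · exact Or.inl ⟨p, hp, q, hq, _, hP, _, hQ, h⟩
    · rw [h] at hP
      exact Or.inr (line_disj hC ha hp hP)
    · rw [h] at hP
      exact Or.inr (line_disj hC ha hq hP)
    · rw [h] at hQ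
      exact Or.inr (line_disj hC ha hp hQ)
    · rw [h] at hQ
      exact Or.inr (line_disj hC ha hq hQ)
  obtain ⟨h1, h2⟩ := hθ Y (g • V2) hne
  exact ⟨h1.subset hsub, (Set.ncard_le_ncard hsub h1).trans h2⟩

theorem no_swap (hC : CS P sb at') (ha : Filling P sb at' a) {θ : ℕ}
    (hθ : ∀ Y W : Lines G at' a, W ≠ Y →
      {V | V ∈ walls P sb Y ∧ (CrS sb V.1 W.1 ∨ V = W)}.Finite ∧
      Set.ncard {V | V ∈ walls P sb Y ∧ (CrS sb V.1 W.1 ∨ V = W)} ≤ θ)
    {g : G} {X Y Z : Lines G at' a} (hX : g • X = X) (hY : g • Y = Y) (hZ : g • Z = Z)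
    (hpd : 2 * θ < pd P sb Y X Z) : ∀ y ∈ Y.1, g • y = y := by
  have hc := hC.cyc
  have := hC.toCS0.countable
  obtain ⟨u, v, huv, hYe⟩ := pair_of hC ha Y
  obtain ⟨x, x', -, hXe⟩ := pair_of hC ha X
  obtain ⟨t, t', -, hZe⟩ := pair_of hC ha Z
  have hx : x ∈ X.1 := by rw [hXe]; simp
  have ht : t ∈ Z.1 := by rw [hZe]; simp
  have hu : u ∈ Y.1 := by rw [hYe]; simp
  have hv : v ∈ Y.1 := by rw [hYe]; simp
  have gu := smul_mem_of_fix hY hu
  have gv := smul_mem_of_fix hY hv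
  have hinj : g • u ≠ g • v := fun h => huv (smul_left_cancel g h)
  rw [hYe] at gu gv
  simp only [Set.mem_insert_iff, Set.mem_singleton_iff] at gu gv
  have hcase : (g • u = u ∧ g • v = v) ∨ (g • u = v ∧ g • v = u) := by
    rcases gu with h1 | h1 <;> rcases gv with h2 | h2
    · exact absurd (h1.trans h2.symm) hinj
    · exact Or.inl ⟨h1, h2⟩
    · exact Or.inr ⟨h1, h2⟩
    · exact absurd (h1.trans h2.symm) hinj
  rcases hcase with ⟨h1, h2⟩ | ⟨h1, h2⟩
  · intro y hy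
    rw [hYe] at hy
    rcases hy with rfl | hy
    · exact h1
    · rw [Set.mem_singleton_iff] at hy
      rw [hy]
      exact h2
  · exfalso
    obtain ⟨f1, b1⟩ := half_bound hC ha hθ hX hY hZ hx ht h1 h2
    obtain ⟨f2, b2⟩ := half_bound hC ha hθ hX hY hZ hx ht h2 h1
    have hsub : {V | V ∈ walls P sb Y ∧ SepS sb V.1 X.1 Z.1} ⊆
        half P sb X Y Z x u v ∪ half P sb X Y Z x v u := by
      rintro V ⟨hw, hs⟩
      obtain ⟨p, q, -, hV⟩ := pair_of hC ha V
      have k1 := (crS_points hc hYe hV hw.2).symm hc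
      have k2 := sepS_points hc hV ⟨x, hx⟩ ⟨t, ht⟩ hs
      have k3 := Cr.ne hc (k2 x hx t ht)
      rcases Cr.third hc k1 (Ne.symm k3.2.1) (Ne.symm k3.2.2.2.1) with h | h
      · exact Or.inr ⟨hw, p, q, hV, k1.swap₂, k2, h.swap₂⟩
      · exact Or.inl ⟨hw, p, q, hV, k1, k2, h⟩
    have h3 := Set.ncard_le_ncard hsub (f1.union f2)
    have h4 := Set.ncard_union_le (half P sb X Y Z x u v) (half P sb X Y Z x v u)
    unfold pd at hpd
    omega

/-! #### The stabiliser of an end point -/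

theorem conj_ne_one (ha : Filling P sb at' a) (x : G) : x * a * x⁻¹ ≠ 1 := by
  intro hx
  apply ha.ne
  have : a = x⁻¹ * (x * a * x⁻¹) * x := by group
  rw [this, hx]; group

theorem prim' (hC : CS P sb at') (ha : Filling P sb at' a) (x : G) {q : G} (hq : q ∈ P)
    (h : q • at' (x * a * x⁻¹) = at' (x * a * x⁻¹)) : q ∈ Subgroup.zpowers (x * a * x⁻¹) := by
  have e := hC.smul_at x a ha.mem ha.ne
  rw [← e, ← mul_smul] at h
  have h2 : (x⁻¹ * q * x) • at' a = at' a := by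
    rw [mul_assoc, mul_smul, h, inv_smul_smul]
  have h3 : x⁻¹ * q * x ∈ P := by
    have := hC.normal.conj_mem q hq x⁻¹
    simpa using this
  obtain ⟨i, hi⟩ := Subgroup.mem_zpowers_iff.1 (ha.prim _ h3 h2)
  refine Subgroup.mem_zpowers_iff.2 ⟨i, ?_⟩
  rw [conj_zpow, hi]
  group

theorem zpow_ne (hC : CS P sb at') {b : G} (hb : b ∈ P) (hb1 : b ≠ 1) {i : ℤ} (h : b ^ i = 1) :
    i = 0 := by
  by_contra hi
  apply hb1
  apply hC.tf b hb i.natAbs (Int.natAbs_pos.2 hi)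
  rcases Int.natAbs_eq i with h1 | h1
  · rw [← zpow_natCast, ← h1, h]
  · have : ((i.natAbs : ℕ) : ℤ) = -i := by omega
    rw [← zpow_natCast, this, zpow_neg, h, inv_one]

theorem comm (hC : CS P sb at') (ha : Filling P sb at' a) (x : G) {g : G}
    (h : g • at' (x * a * x⁻¹) = at' (x * a * x⁻¹)) :
    g * (x * a * x⁻¹) = (x * a * x⁻¹) * g := by
  have hb : x * a * x⁻¹ ∈ P := hC.normal.conj_mem _ ha.mem x
  have hb1 := conj_ne_one ha x
  have hp := fun q hq => prim' hC ha x (q := q) hq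
  generalize x * a * x⁻¹ = b at *
  have h' : g⁻¹ • at' b = at' b := by rw [inv_smul_eq_iff, h]
  have hfix := KBound.at_fix hC hb hb1
  have m1 : g * b * g⁻¹ ∈ P := hC.normal.conj_mem _ hb g
  have m2 : g⁻¹ * b * g ∈ P := by
    have := hC.normal.conj_mem _ hb g⁻¹
    simpa using this
  obtain ⟨i, hi⟩ := Subgroup.mem_zpowers_iff.1 (hp _ m1 (by
    rw [mul_smul, mul_smul, h', hfix, h]))
  obtain ⟨j, hj⟩ := Subgroup.mem_zpowers_iff.1 (hp _ m2 (by
    rw [mul_smul, mul_smul, h, hfix, h']))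
  have hij : b ^ (i * j - 1) = 1 := by
    rw [zpow_sub, zpow_mul, hi, conj_zpow, hj]
    group
  have h0 := zpow_ne hC hb hb1 hij
  have hiu : i = 1 ∨ i = -1 := by
    apply Int.isUnit_iff.1
    exact IsUnit.of_mul_eq_one j (by omega)
  rcases hiu with h1 | h1
  · rw [h1, zpow_one] at hi
    rw [eq_mul_inv_iff_mul_eq] at hi
    exact hi.symm
  · exfalso
    rw [h1, zpow_neg, zpow_one] at hi
    have h2 := hC.smul_at g b hb hb1
    rw [← hi, h] at h2
    exact hC.at_ne b hb hb1 h2.symm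

theorem mono_left (hC : CS P sb at') {g : G} {b1 b2 e' z : E} (h1 : g • b1 = b1)
    (h2 : g • b2 = b2) (he : g • e' = e') (hr : sb b2 e' b1) (hz : sb b1 z b2) :
    sb b1 (g • z) b2 := by
  have h3 : Cr sb b1 b2 z e' := Or.inl ⟨hz, hr⟩
  have h4 := hC.crG g _ _ _ _ h3
  rw [h1, h2, he] at h4
  have hc := hC.cyc
  have := hC.toCS0.countable
  clear h3 hz
  generalize g • z = w at *
  clear h1 h2 he
  obtain ⟨ρ_, hinj_, hr_⟩ := CycOrd.rk hc
  simp only [Cr, ne_eq, hinj_, hr_] at *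
  clear hinj_ hr_
  grind (splits := 40)

theorem mono_lt (hC : CS P sb at') {g : G} {b1 b2 e' z z' : E} (h1 : g • b1 = b1)
    (h2 : g • b2 = b2) (he : g • e' = e') (hr : sb b2 e' b1) (hz : sb b1 z z')
    (hz' : sb b1 z' b2) : sb b1 (g • z) (g • z') := by
  have hc := hC.cyc
  have := hC.toCS0.countable
  have h3 : Cr sb b1 z' z b2 := Or.inl ⟨hz, hc.rot _ _ _ hz'⟩
  have h4 := hC.crG g _ _ _ _ h3
  rw [h1, h2] at h4
  have h5 := mono_left hC h1 h2 he hr hz'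
  rcases h4 with ⟨h6, -⟩ | ⟨h6, -⟩
  · exact h6
  · exact absurd h6 (hc.asymm _ _ _ h5)

theorem tri (h : CycOrd sb) {b1 b2 v w f v' w' f' : E} (h1 : sb b1 v w) (h2 : sb b1 w f)
    (h3 : sb b1 f b2) (h4 : sb b2 v' b1) (h5 : sb b2 w' b1) (h6 : sb b2 f' b1) :
    Cr sb w w' v v' ∨ Cr sb w w' f f' ∨
      (Cr sb w w' v f ∧ Cr sb w w' v f' ∧ Cr sb w w' v' f ∧ Cr sb w w' v' f') ∨
      w' = v' ∨ w' = f' := by
  obtain ⟨T, _, ι, hι⟩ := KBound.exists_cut0 h b1
  rw [hι.sb_bot] at h1 h2 h3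
  rw [hι.sb_last] at h4 h5 h6
  have hlt : ι w < ι w' := h2.2.trans (h3.2.trans h5.2)
  have l1 := h1.2
  have l2 := h2.2
  have l3 := h3.2
  have l4 := h4.2
  have l5 := h5.2
  have l6 := h6.2
  simp only [hι.cr hlt]
  rcases lt_trichotomy (ι w') (ι v') with c | c | c
  · rcases lt_trichotomy (ι w') (ι f') with d | d | d
    · right; left
      left
      exact ⟨⟨l2, by order⟩, Or.inr d⟩
    · right; right; right; right
      exact hι.inj d
    · right; right; left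
      refine ⟨Or.inr ⟨⟨l2, by order⟩, Or.inl l1⟩, Or.inr ⟨⟨by order, d⟩, Or.inl l1⟩,
        Or.inr ⟨⟨l2, by order⟩, Or.inr c⟩, Or.inr ⟨⟨by order, d⟩, Or.inr c⟩⟩
  · right; right; right; left
    exact hι.inj c
  · left
    right
    exact ⟨⟨by order, c⟩, Or.inl l1⟩

theorem no_move (hC : CS P sb at') (ha : Filling P sb at' a) (x : G) {g : G}
    {Y U V : Lines G at' a} {θ : ℕ}
    (hθ : ∀ Y W : Lines G at' a, W ≠ Y →
      {V | V ∈ walls P sb Y ∧ (CrS sb V.1 W.1 ∨ V = W)}.Finite ∧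
      Set.ncard {V | V ∈ walls P sb Y ∧ (CrS sb V.1 W.1 ∨ V = W)} ≤ θ)
    (hY : Y.1 = {at' (x * a * x⁻¹)⁻¹, at' (x * a * x⁻¹)})
    (hgY : ∀ y ∈ Y.1, g • y = y) (hgU : ∀ y ∈ U.1, g • y = y) {e e' : E} (hU : U.1 = {e, e'})
    (he : sb (at' (x * a * x⁻¹)⁻¹) e (at' (x * a * x⁻¹)))
    (he' : sb (at' (x * a * x⁻¹)) e' (at' (x * a * x⁻¹)⁻¹))
    (hVw : V ∈ walls P sb Y) {v v' : E} (hV : V.1 = {v, v'})
    (hv : sb (at' (x * a * x⁻¹)⁻¹) v (at' (x * a * x⁻¹)))
    (hv' : sb (at' (x * a * x⁻¹)) v' (at' (x * a * x⁻¹)⁻¹)) :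
    ¬ sb (at' (x * a * x⁻¹)⁻¹) v (g • v) := by
  intro hlt
  have hc := hC.cyc
  have := hC.toCS0.countable
  have hb : x * a * x⁻¹ ∈ P := hC.normal.conj_mem _ ha.mem x
  have hb1 := conj_ne_one ha x
  have hcom : g * (x * a * x⁻¹) = (x * a * x⁻¹) * g := comm hC ha x (hgY _ (by rw [hY]; simp))
  generalize x * a * x⁻¹ = b at *
  obtain ⟨n, hn⟩ := hC.arch b hb hb1 e v he hv
  have g1 : g • at' b⁻¹ = at' b⁻¹ := hgY _ (by rw [hY]; simp)
  have g2 : g • at' b = at' b := hgY _ (by rw [hY]; simp)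
  have g3 : g • e = e := hgU _ (by rw [hU]; simp)
  have g4 : g • e' = e' := hgU _ (by rw [hU]; simp)
  have hpow : ∀ (i : ℕ) {z : E}, g • z = z → g ^ i • z = z := by
    intro i z hz
    induction i with
    | zero => simp
    | succ i ih => rw [pow_succ, mul_smul, hz, ih]
  have bn1 : b ^ n • at' b⁻¹ = at' b⁻¹ := by
    have := KBound.at_fix_inv_zpow hC hb hb1 n
    rwa [zpow_natCast] at this
  have bn2 : b ^ n • at' b = at' b := by
    have := KBound.at_fix_zpow hC hb hb1 n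
    rwa [zpow_natCast] at this
  have hf : sb (at' b⁻¹) (b ^ n • e) (at' b) := by
    have := hC.sbP (b ^ n) (pow_mem hb n) _ _ _ he
    rwa [bn1, bn2] at this
  have hf' : sb (at' b) (b ^ n • e') (at' b⁻¹) := by
    have := hC.sbP (b ^ n) (pow_mem hb n) _ _ _ he'
    rwa [bn1, bn2] at this
  have gf : g • (b ^ n • e) = b ^ n • e := by
    have : g * b ^ n = b ^ n * g := (Commute.pow_right (show Commute g b from hcom) n)
    rw [← mul_smul, this, mul_smul, g3]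
  have L1 : ∀ i : ℕ, sb (at' b⁻¹) (g ^ i • v) (at' b) := fun i =>
    mono_left hC (hpow i g1) (hpow i g2) (hpow i g4) he' hv
  have L2 : ∀ i : ℕ, sb (at' b) (g ^ i • v') (at' b⁻¹) := fun i =>
    mono_left hC (hpow i g2) (hpow i g1) (hpow i g3) he hv'
  have L3 : ∀ i : ℕ, sb (at' b⁻¹) (g ^ i • v) (b ^ n • e) := fun i => by
    have := mono_lt hC (hpow i g1) (hpow i g2) (hpow i g4) he' hn hf
    rwa [hpow i gf] at this
  have L4 : ∀ i : ℕ, sb (at' b⁻¹) v (g ^ (i + 1) • v) := by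
    intro i
    induction i with
    | zero => simpa using hlt
    | succ i ih =>
      have h1 : sb (at' b⁻¹) (g • v) (at' b) := by simpa using L1 1
      have := mono_lt hC (hpow (i + 1) g1) (hpow (i + 1) g2) (hpow (i + 1) g4) he' hlt h1
      rw [← mul_smul, ← pow_succ] at this
      exact hc.trans _ _ _ _ ih this
  have gY : ∀ i : ℕ, g ^ i • Y = Y := by
    intro i
    apply line_disj hC ha (x := at' b)
    · have := mem_smul (g := g ^ i) (Y := Y) (y := at' b) (by rw [hY]; simp)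
      rwa [hpow i g2] at this
    · rw [hY]; simp
  have hw : ∀ i : ℕ, g ^ i • V ∈ walls P sb Y := by
    intro i
    obtain ⟨⟨k, hk, rfl⟩, hcr⟩ := hVw
    refine ⟨⟨g ^ i * k * (g ^ i)⁻¹, hC.normal.conj_mem _ hk _, ?_⟩, ?_⟩
    · rw [mul_smul, inv_smul_eq_iff.2 (gY i).symm, mul_smul]
    · have := crS_smul hC (g ^ i) hcr
      rwa [← coe_smul, ← coe_smul, gY] at this
  set F : Lines G at' a := b ^ n • U with hF
  have hVne : V ≠ Y := (crS_ne hC ha hVw.2).symm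
  have fF : b ^ n • e ∈ F.1 := mem_smul (by rw [hU]; simp)
  have fF' : b ^ n • e' ∈ F.1 := mem_smul (by rw [hU]; simp)
  have hFe : F.1 = {b ^ n • e, b ^ n • e'} := by
    rw [hF, coe_smul, hU, Set.smul_set_insert, Set.smul_set_singleton]
  have hFne : F ≠ Y := by
    intro h
    rw [h, hY] at fF
    simp only [Set.mem_insert_iff, Set.mem_singleton_iff] at fF
    rcases fF with h1 | h1
    · exact CycInt.ne₁ hc hf h1.symm
    · exact CycInt.ne₂ hc hf h1
  have vV : v ∈ V.1 := by rw [hV]; simp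
  have vV' : v' ∈ V.1 := by rw [hV]; simp
  have hT : ∀ i : ℕ, g ^ i • V ∈ ({V' | V' ∈ walls P sb Y ∧ (CrS sb V'.1 V.1 ∨ V' = V)} ∪
      {V' | V' ∈ walls P sb Y ∧ (CrS sb V'.1 F.1 ∨ V' = F)}) ∪
      {V' | V' ∈ walls P sb Y ∧ SepS sb V'.1 V.1 F.1} := by
    intro i
    have wV : g ^ i • v ∈ (g ^ i • V).1 := mem_smul vV
    have wV' : g ^ i • v' ∈ (g ^ i • V).1 := mem_smul vV'
    cases i with
    | zero => exact Or.inl (Or.inl ⟨hw 0, Or.inr (by rw [pow_zero, one_smul])⟩)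
    | succ i =>
      rcases tri hc (L4 i) (L3 (i + 1)) hf hv' (L2 (i + 1)) hf' with h | h | h | h | h
      · exact Or.inl (Or.inl ⟨hw _, Or.inl ⟨_, wV, _, wV', _, vV, _, vV', h⟩⟩)
      · exact Or.inl (Or.inr ⟨hw _, Or.inl ⟨_, wV, _, wV', _, fF, _, fF', h⟩⟩)
      · refine Or.inr ⟨hw _, _, wV, _, wV', ?_⟩
        intro s hs t ht
        rw [hV] at hs
        rw [hFe] at ht
        simp only [Set.mem_insert_iff, Set.mem_singleton_iff] at hs ht
        rcases hs with rfl | rfl <;> rcases ht with rfl | rfl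
        · exact h.1
        · exact h.2.1
        · exact h.2.2.1
        · exact h.2.2.2
      · rw [h] at wV'
        exact Or.inl (Or.inl ⟨hw _, Or.inr (line_disj hC ha wV' vV')⟩)
      · rw [h] at wV'
        exact Or.inl (Or.inr ⟨hw _, Or.inr (line_disj hC ha wV' fF')⟩)
  have hfin := ((hθ Y V hVne).1.union (hθ Y F hFne).1).union (sep_finite hC ha Y V F)
  obtain ⟨i, j, hij, heq⟩ := Set.Finite.exists_lt_map_eq_of_forall_mem hT hfin
  have h1 : g ^ i • v ∈ (g ^ j • V).1 := by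
    rw [← heq]
    exact mem_smul vV
  rw [coe_smul, hV, Set.smul_set_insert, Set.smul_set_singleton] at h1
  simp only [Set.mem_insert_iff, Set.mem_singleton_iff] at h1
  rcases h1 with h1 | h1
  · obtain ⟨m, rfl⟩ : ∃ m, j = i + (m + 1) := ⟨j - i - 1, by omega⟩
    rw [pow_add, mul_smul] at h1
    have h2 := smul_left_cancel _ h1
    exact CycInt.ne₂ hc (L4 m) h2
  · have a1 := L1 i
    have a2 := L2 j
    rw [h1] at a1
    exact hc.asymm _ _ _ a1 (CycInt.rot2 hc a2)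

theorem fix_wall_core (hC : CS P sb at') (ha : Filling P sb at' a) (x : G) {g : G}
    {Y U V : Lines G at' a} {θ : ℕ}
    (hθ : ∀ Y W : Lines G at' a, W ≠ Y →
      {V | V ∈ walls P sb Y ∧ (CrS sb V.1 W.1 ∨ V = W)}.Finite ∧
      Set.ncard {V | V ∈ walls P sb Y ∧ (CrS sb V.1 W.1 ∨ V = W)} ≤ θ)
    (hY : Y.1 = {at' (x * a * x⁻¹)⁻¹, at' (x * a * x⁻¹)})
    (hgY : ∀ y ∈ Y.1, g • y = y) (hgU : ∀ y ∈ U.1, g • y = y) {e e' : E} (hU : U.1 = {e, e'})
    (he : sb (at' (x * a * x⁻¹)⁻¹) e (at' (x * a * x⁻¹)))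
    (he' : sb (at' (x * a * x⁻¹)) e' (at' (x * a * x⁻¹)⁻¹))
    (hVw : V ∈ walls P sb Y) {v v' : E} (hV : V.1 = {v, v'})
    (hv : sb (at' (x * a * x⁻¹)⁻¹) v (at' (x * a * x⁻¹)))
    (hv' : sb (at' (x * a * x⁻¹)) v' (at' (x * a * x⁻¹)⁻¹)) :
    g • v = v ∧ g • v' = v' := by
  have hc := hC.cyc
  have := hC.toCS0.countable
  have k1 := no_move hC ha x hθ hY hgY hgU hU he he' hVw hV hv hv'
  have k2 := no_move hC ha x (g := g⁻¹) hθ hY
    (fun y hy => by rw [inv_smul_eq_iff, hgY y hy])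
    (fun y hy => by rw [inv_smul_eq_iff, hgU y hy]) hU he he' hVw hV hv hv'
  have g1 := hgY (at' (x * a * x⁻¹)⁻¹) (by rw [hY]; simp)
  have g2 := hgY (at' (x * a * x⁻¹)) (by rw [hY]; simp)
  have g4 : g • e' = e' := hgU _ (by rw [hU]; simp)
  have hgv : g • v = v := by
    by_contra hne
    have l := mono_left hC g1 g2 g4 he' hv
    have i1 : g⁻¹ • at' (x * a * x⁻¹)⁻¹ = at' (x * a * x⁻¹)⁻¹ := by rw [inv_smul_eq_iff, g1]
    have i2 : g⁻¹ • at' (x * a * x⁻¹) = at' (x * a * x⁻¹) := by rw [inv_smul_eq_iff, g2]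
    have i4 : g⁻¹ • e' = e' := by rw [inv_smul_eq_iff, g4]
    rcases hc.total (at' (x * a * x⁻¹)⁻¹) v (g • v) (CycInt.ne₁ hc hv) (Ne.symm hne)
      (CycInt.ne₁ hc l) with h | h
    · exact k1 h
    · have := mono_lt hC i1 i2 i4 he' h hv
      rw [inv_smul_smul] at this
      exact k2 this
  refine ⟨hgv, ?_⟩
  have vV : v ∈ V.1 := by rw [hV]; simp
  have vV' : v' ∈ V.1 := by rw [hV]; simp
  have hgV : g • V = V := by
    have := mem_smul (g := g) vV
    rw [hgv] at this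
    exact line_disj hC ha this vV
  have h1 := smul_mem_of_fix hgV vV'
  rw [hV] at h1
  simp only [Set.mem_insert_iff, Set.mem_singleton_iff] at h1
  rcases h1 with h1 | h1
  · exfalso
    rw [← hgv] at h1
    have h2 := smul_left_cancel _ h1
    rw [h2] at hv'
    exact hc.asymm _ _ _ hv (CycInt.rot2 hc hv')
  · exact h1

theorem fix_wall (hC : CS P sb at') (ha : Filling P sb at' a) {g : G}
    {Y U V : Lines G at' a} {θ : ℕ}
    (hθ : ∀ Y W : Lines G at' a, W ≠ Y →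
      {V | V ∈ walls P sb Y ∧ (CrS sb V.1 W.1 ∨ V = W)}.Finite ∧
      Set.ncard {V | V ∈ walls P sb Y ∧ (CrS sb V.1 W.1 ∨ V = W)} ≤ θ)
    (hgY : ∀ y ∈ Y.1, g • y = y) (hgU : ∀ y ∈ U.1, g • y = y) (hYU : CrS sb Y.1 U.1)
    (hVw : V ∈ walls P sb Y) : ∀ y ∈ V.1, g • y = y := by
  have hc := hC.cyc
  have := hC.toCS0.countable
  obtain ⟨x, -, hY⟩ := line_eq hC ha Y
  replace hY : Y.1 = {at' (x * a * x⁻¹)⁻¹, at' (x * a * x⁻¹)} := hY
  obtain ⟨e, e', hU, he, he'⟩ : ∃ e e', U.1 = {e, e'} ∧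
      sb (at' (x * a * x⁻¹)⁻¹) e (at' (x * a * x⁻¹)) ∧
      sb (at' (x * a * x⁻¹)) e' (at' (x * a * x⁻¹)⁻¹) := by
    obtain ⟨e, e', -, hU⟩ := pair_of hC ha U
    rcases crS_points hc hY hU hYU with ⟨h1, h2⟩ | ⟨h1, h2⟩
    · exact ⟨e, e', hU, h1, h2⟩
    · exact ⟨e', e, by rw [hU, Set.pair_comm], h1, h2⟩
  obtain ⟨v, v', hV, hv, hv'⟩ : ∃ e e', V.1 = {e, e'} ∧
      sb (at' (x * a * x⁻¹)⁻¹) e (at' (x * a * x⁻¹)) ∧
      sb (at' (x * a * x⁻¹)) e' (at' (x * a * x⁻¹)⁻¹) := by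
    obtain ⟨e, e', -, hU⟩ := pair_of hC ha V
    rcases crS_points hc hY hU hVw.2 with ⟨h1, h2⟩ | ⟨h1, h2⟩
    · exact ⟨e, e', hU, h1, h2⟩
    · exact ⟨e', e, by rw [hU, Set.pair_comm], h1, h2⟩
  obtain ⟨h1, h2⟩ := fix_wall_core hC ha x hθ hY hgY hgU hU he he' hVw hV hv hv'
  intro y hy
  rw [hV] at hy
  simp only [Set.mem_insert_iff, Set.mem_singleton_iff] at hy
  rcases hy with rfl | rfl
  · exact h1
  · exact h2

/-- (R3) all `P`-translates are fixed pointwise -/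
theorem fix_all (hC : CS P sb at') (ha : Filling P sb at' a) {g x : G}
    {Y U : Lines G at' a} {θ : ℕ}
    (hθ : ∀ Y W : Lines G at' a, W ≠ Y →
      {V | V ∈ walls P sb Y ∧ (CrS sb V.1 W.1 ∨ V = W)}.Finite ∧
      Set.ncard {V | V ∈ walls P sb Y ∧ (CrS sb V.1 W.1 ∨ V = W)} ≤ θ)
    (hYx : Y = x • baseLine G at' a)
    (hgY : ∀ y ∈ Y.1, g • y = y) (hgU : ∀ y ∈ U.1, g • y = y) (hYU : CrS sb Y.1 U.1)
    {p : G} (hp : p ∈ P) : ∀ y ∈ (x • p • baseLine G at' a).1, g • y = y := by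
  have key : ∀ k : G, Relation.ReflTransGen (fun g g' : G => g ∈ P ∧ g' ∈ P ∧
      LCr sb at' (g * a * g⁻¹) (g' * a * g'⁻¹)) 1 k →
      (∀ y ∈ (x • k • baseLine G at' a).1, g • y = y) ∧
      ∃ U : Lines G at' a, (∀ y ∈ U.1, g • y = y) ∧
        CrS sb (x • k • baseLine G at' a).1 U.1 := by
    intro k hk
    induction hk with
    | refl =>
      rw [one_smul, ← hYx]
      exact ⟨hgY, U, hgU, hYU⟩
    | @tail k k' _ hkk ih =>
      obtain ⟨ih1, U', hU', hcr⟩ := ih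
      obtain ⟨hk, hk', hl⟩ := hkk
      have hcr2 : CrS sb (k • baseLine G at' a).1 (k' • baseLine G at' a).1 := by
        rw [coe_smul, coe_smul]
        change CrS sb (k • Ln at' a) (k' • Ln at' a)
        rw [smul_Ln hC k ha.mem ha.ne, smul_Ln hC k' ha.mem ha.ne]
        exact ⟨_, Or.inl rfl, _, Or.inr rfl, _, Or.inl rfl, _, Or.inr rfl, hl⟩
      have hcr3 := crS_smul hC x hcr2
      rw [← coe_smul, ← coe_smul] at hcr3
      have hw : x • k' • baseLine G at' a ∈ walls P sb (x • k • baseLine G at' a) := by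
        refine ⟨⟨x * (k' * k⁻¹) * x⁻¹, hC.normal.conj_mem _ (mul_mem hk' (inv_mem hk)) _, ?_⟩,
          hcr3⟩
        rw [← mul_smul, ← mul_smul, ← mul_smul]
        congr 1
        group
      exact ⟨fix_wall hC ha hθ ih1 hU' hcr hw, _, ih1, crS_symm hC hcr3⟩
  exact (key p (ha.conn p hp)).1

end Lines

end Rigid

open Rigid in
theorem rigid_of_filling {G : Type*} {E : Type*} [Group G] [MulAction G E] {P : Subgroup G}
    {sb : E → E → E → Prop} {at' : G → E} {a : G} (hC : CS P sb at') (ha : Filling P sb at' a) :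
    ∃ κ : ℕ, ∀ (g : G) (X : ℕ → Lines G at' a), (∀ i ≤ 3, g • X i = X i) →
      (∀ i < 3, CrS sb (X i).1 (X (i + 1)).1) →
      κ < pd P sb (X 1) (X 0) (X 2) → κ < pd P sb (X 2) (X 1) (X 3) → g = 1 := by
  obtain ⟨θ, hθ⟩ := walls_bound hC ha
  refine ⟨2 * θ, ?_⟩
  intro g X hX hcr h1 h2
  have hc := hC.cyc
  have := hC.toCS0.countable
  have f1 := no_swap hC ha hθ (hX 0 (by omega)) (hX 1 (by omega)) (hX 2 (by omega)) h1
  have f2 := no_swap hC ha hθ (hX 1 (by omega)) (hX 2 (by omega)) (hX 3 (by omega)) h2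
  obtain ⟨x, hx, hxL⟩ := line_eq hC ha (X 1)
  have hall := fun (p : G) (hp : p ∈ P) =>
    fix_all hC ha hθ hx f1 f2 (hcr 1 (by omega)) hp
  apply hC.cent
  intro p hp
  -- the element `q = p⁻¹ g p g⁻¹` fixes all end points
  have hq : p⁻¹ * (g * p * g⁻¹) ∈ P := mul_mem (inv_mem hp) (hC.normal.conj_mem _ hp g)
  have hqfix : ∀ k ∈ P, ∀ y ∈ (x • k • baseLine G at' a).1, (p⁻¹ * (g * p * g⁻¹)) • y = y := by
    intro k hk y hy
    have e1 : g⁻¹ • y = y := by
      rw [inv_smul_eq_iff, hall k hk y hy]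
    have hpy : p • y ∈ (x • (x⁻¹ * p * x * k) • baseLine G at' a).1 := by
      have h3 := mem_smul (g := p) hy
      have h4 : p • x • k • baseLine G at' a =
          x • (x⁻¹ * p * x * k) • baseLine G at' a := by
        rw [← mul_smul, ← mul_smul, ← mul_smul]
        congr 1
        group
      rwa [h4] at h3
    have hmem : x⁻¹ * p * x * k ∈ P := by
      refine mul_mem ?_ hk
      have := hC.normal.conj_mem _ hp x⁻¹
      simpa using this
    have e2 := hall _ hmem _ hpy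
    rw [mul_smul, mul_smul, mul_smul, e1, e2, inv_smul_smul]
  -- so it is trivial
  have hq1 : p⁻¹ * (g * p * g⁻¹) = 1 := by
    generalize p⁻¹ * (g * p * g⁻¹) = q at hq hqfix
    have hb : x * a * x⁻¹ ∈ P := hC.normal.conj_mem _ ha.mem x
    have hb1 := conj_ne_one ha x
    have hqb : q • at' (x * a * x⁻¹) = at' (x * a * x⁻¹) := by
      apply hqfix 1 (one_mem _)
      rw [one_smul, ← hx, hxL]
      exact Or.inr rfl
    obtain ⟨i, hi⟩ := Subgroup.mem_zpowers_iff.1 (prim' hC ha x hq hqb)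
    -- a wall of `X 1`
    have hne : {V | V ∈ walls P sb (X 1) ∧ SepS sb V.1 (X 0).1 (X 2).1}.Nonempty := by
      by_contra h0
      rw [Set.not_nonempty_iff_eq_empty] at h0
      unfold pd at h1
      rw [h0, Set.ncard_empty] at h1
      omega
    obtain ⟨V, ⟨⟨k, hk, hVk⟩, hVcr⟩, -⟩ := hne
    obtain ⟨v, v', -, hVe⟩ := pair_of hC ha V
    have hfix : ∀ y ∈ V.1, q • y = y := by
      have h4 : V = x • (x⁻¹ * k * x) • baseLine G at' a := by
        rw [hVk, hx, ← mul_smul, ← mul_smul]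
        congr 1
        group
      rw [h4]
      apply hqfix
      have := hC.normal.conj_mem _ hk x⁻¹
      simpa using this
    have hcr1 := crS_points hc hxL hVe hVcr
    obtain ⟨w, hw, hwl⟩ : ∃ w ∈ V.1, sb (at' (x * a * x⁻¹)⁻¹) w (at' (x * a * x⁻¹)) := by
      rcases hcr1 with ⟨h3, -⟩ | ⟨h3, -⟩
      · exact ⟨v, by rw [hVe]; simp, h3⟩
      · exact ⟨v', by rw [hVe]; simp, h3⟩
    obtain ⟨T, _, ι, hι⟩ := KBound.exists_pcut hC hb hb1
    have h5 := hι.cut.sb_bot.1 hwl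
    have h6 := (hι.left w (hι.cut.bot _ h5.1) h5.2).injective (a₁ := i) (a₂ := 0) (by
      simp only [zpow_zero, one_smul]
      rw [hi, hfix w hw])
    rw [h6, zpow_zero] at hi
    exact hi.symm
  have h7 : g * p * g⁻¹ = p := by
    have := congrArg (fun z => p * z) hq1
    simpa using this
  rw [mul_inv_eq_iff_eq_mul] at h7
  exact h7

end Pool.Agent.MP_e058c8_al
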