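import Pool.Agent.MP_e058c8_al.ProjBase
import Pool.Agent.MP_e058c8_al.Counts
import Pool.Agent.MP_e058c8_al.Graph
import Pool.Agent.MP_e058c8_al.Rigid
/-! Assembly of the projection system (Task G). -/

namespace Pool.Agent.MP_e058c8_al

open scoped Pointwise

variable {G : Type*} {E : Type*} [Group G] [MulAction G E] {P : Subgroup G}
  {sb : E → E → E → Prop} {at' : G → E} {a : G}

/-- The crossing graph. -/
def crossGraph (hC : CS P sb at') (ha : Filling P sb at' a) : SimpleGraph (Lines G at' a) where
  Adj X Y := CrS sb X.1 Y.1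
  symm := ⟨fun _ _ h => crS_symm hC h⟩
  loopless := ⟨fun X h => crS_ne hC ha h rfl⟩

theorem crossGraph_connected (hC : CS P sb at') (ha : Filling P sb at' a) :
    (crossGraph hC ha).Connected := by
  haveI : Nonempty (Lines G at' a) := ⟨baseLine G at' a⟩
  refine ⟨fun X Y => ?_⟩
  have h := cross_connected hC ha X Y
  induction h with
  | refl => exact SimpleGraph.Reachable.refl _
  | tail _ hbc ih =>
    exact ih.trans (SimpleGraph.Adj.reachable (G := crossGraph hC ha) hbc)

/-- A path between two lines separated by `V` meets `V` or crosses it. -/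
theorem walk_meets (hC : CS P sb at') (ha : Filling P sb at' a) {V Z : Lines G at' a} (n : ℕ)
    (x : ℕ → Lines G at' a) (h0 : SepS sb V.1 (x 0).1 Z.1) (hn : x n = Z)
    (hx : ∀ i < n, CrS sb (x i).1 (x (i + 1)).1) :
    ∃ i ≤ n, CrS sb V.1 (x i).1 ∨ V = x i := by
  by_contra hcon
  push Not at hcon
  have key : ∀ i ≤ n, SepS sb V.1 (x i).1 Z.1 := by
    intro i
    induction i with
    | zero => intro _; exact h0
    | succ i ih =>
      intro hi
      have h1 := ih (by omega)
      obtain ⟨h2, h3⟩ := hcon (i + 1) hi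
      rcases sep_third hC ha h1 (Ne.symm h3) h2 with h4 | h4
      · exact absurd (hx i (by omega)) (sep_not_cr hC ha h4).2.2.2.2.2
      · exact h4
  have h5 := key n le_rfl
  rw [hn] at h5
  exact (sep_not_cr hC ha h5).2.2.1 rfl

/-- walks as sequences -/
theorem exists_seq (hC : CS P sb at') (ha : Filling P sb at' a) (X Z : Lines G at' a) :
    ∃ x : ℕ → Lines G at' a, x 0 = X ∧ x ((crossGraph hC ha).dist X Z) = Z ∧
      ∀ i < (crossGraph hC ha).dist X Z, CrS sb (x i).1 (x (i + 1)).1 := by
  obtain ⟨p, hp⟩ := (crossGraph_connected hC ha).exists_walk_length_eq_dist X Z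
  refine ⟨p.getVert, p.getVert_zero, ?_, ?_⟩
  · rw [← hp]
    exact p.getVert_length
  · intro i hi
    rw [← hp] at hi
    exact p.adj_getVert_succ hi

theorem dist_smul_le (hC : CS P sb at') (ha : Filling P sb at' a) (g : G)
    (X Y : Lines G at' a) :
    (crossGraph hC ha).dist (g • X) (g • Y) ≤ (crossGraph hC ha).dist X Y := by
  obtain ⟨p, hp⟩ := (crossGraph_connected hC ha).exists_walk_length_eq_dist X Y
  let f : (crossGraph hC ha) →g (crossGraph hC ha) :=
    ⟨fun X => g • X, fun {X Y} h => crS_smul hC g h⟩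
  have := SimpleGraph.dist_le (p.map f)
  rw [SimpleGraph.Walk.length_map, hp] at this
  exact this

/-- Task G. -/
theorem proj_of_filling (hC : CS P sb at') {a : G} (ha : Filling P sb at' a) :
    ∃ (κ : ℕ) (d : Lines G at' a → Lines G at' a → Lines G at' a → ℕ)
      (cr : Lines G at' a → Lines G at' a → Prop)
      (cd : Lines G at' a → Lines G at' a → ℕ) (A : Lines G at' a) (h : G),
      Proj P κ d cr cd A a h := by
  obtain ⟨θ, hθ⟩ := walls_bound hC ha
  obtain ⟨m, hm⟩ := pd_step hC ha
  obtain ⟨κ₀, hκ₀⟩ := rigid_of_filling hC ha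
  obtain ⟨h, hhP, hh⟩ := exists_wall hC ha
  have hconn := crossGraph_connected hC ha
  -- quasi-triangle inequality
  have tri : ∀ Y X U Z : Lines G at' a, X ≠ Y → U ≠ Y → Z ≠ Y →
      pd P sb Y X Z ≤ pd P sb Y X U + pd P sb Y U Z + θ := by
    intro Y X U Z _ hU _
    have hsub : {V | V ∈ walls P sb Y ∧ SepS sb V.1 X.1 Z.1} ⊆
        ({V | V ∈ walls P sb Y ∧ SepS sb V.1 X.1 U.1} ∪
          {V | V ∈ walls P sb Y ∧ SepS sb V.1 U.1 Z.1}) ∪
        {V | V ∈ walls P sb Y ∧ (CrS sb V.1 U.1 ∨ V = U)} := by
      rintro V ⟨h1, h2⟩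
      by_cases h3 : CrS sb V.1 U.1 ∨ V = U
      · exact Or.inr ⟨h1, h3⟩
      · push Not at h3
        rcases sep_third hC ha h2 (Ne.symm h3.2) h3.1 with h4 | h4
        · exact Or.inl (Or.inl ⟨h1, h4⟩)
        · exact Or.inl (Or.inr ⟨h1, h4⟩)
    have f1 := sep_finite hC ha Y X U
    have f2 := sep_finite hC ha Y U Z
    have f3 := (hθ Y U hU).1
    have e1 := Set.ncard_le_ncard hsub ((f1.union f2).union f3)
    have e2 := Set.ncard_union_le ({V | V ∈ walls P sb Y ∧ SepS sb V.1 X.1 U.1} ∪
          {V | V ∈ walls P sb Y ∧ SepS sb V.1 U.1 Z.1})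
        {V | V ∈ walls P sb Y ∧ (CrS sb V.1 U.1 ∨ V = U)}
    have e3 := Set.ncard_union_le {V | V ∈ walls P sb Y ∧ SepS sb V.1 X.1 U.1}
          {V | V ∈ walls P sb Y ∧ SepS sb V.1 U.1 Z.1}
    have e4 := (hθ Y U hU).2
    unfold pd
    omega
  have beh : ∀ X Y Z : Lines G at' a, X ≠ Y → X ≠ Z → Y ≠ Z →
      pd P sb Y X Z ≤ θ ∨ pd P sb X Y Z ≤ θ := by
    intro X Y Z hXY hXZ hYZ
    by_cases h0 : ∃ W, W ∈ walls P sb Y ∧ SepS sb W.1 X.1 Z.1
    · right
      obtain ⟨W, hW, hWs⟩ := h0
      have hWX : W ≠ X := (sep_not_cr hC ha hWs).1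
      have hsub : {V | V ∈ walls P sb X ∧ SepS sb V.1 Y.1 Z.1} ⊆
          {V | V ∈ walls P sb X ∧ (CrS sb V.1 W.1 ∨ V = W)} := by
        rintro V ⟨h1, h2⟩
        exact ⟨h1, Or.inl (sep_cross hC ha hWs (crS_symm hC hW.2) h2 (crS_symm hC h1.2))⟩
      exact (Set.ncard_le_ncard hsub (hθ X W hWX).1).trans (hθ X W hWX).2
    · left
      have : {V | V ∈ walls P sb Y ∧ SepS sb V.1 X.1 Z.1} = ∅ := by
        ext V
        simp only [Set.mem_setOf_eq, Set.mem_empty_iff_false, iff_false]
        exact fun hV => h0 ⟨V, hV⟩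
      unfold pd
      rw [this, Set.ncard_empty]
      exact Nat.zero_le _
  have bgi : ∀ X Y Z : Lines G at' a, X ≠ Y → Z ≠ Y → 5 * θ + 5 < pd P sb Y X Z →
      (crossGraph hC ha).dist X Z = (crossGraph hC ha).dist X Y + (crossGraph hC ha).dist Y Z := by
    intro X Y Z hXY hZY hlt
    obtain ⟨x, hx0, hxn, hx⟩ := exists_seq hC ha X Z
    set n := (crossGraph hC ha).dist X Z with hn
    -- distances along the path
    have hle : ∀ i j, i ≤ j → j ≤ n → (crossGraph hC ha).dist (x i) (x j) ≤ j - i := by
      intro i j hij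
      induction j, hij using Nat.le_induction with
      | base => intro _; simp
      | succ j hij ih =>
        intro hj
        have h1 := ih (by omega)
        have h2 : (crossGraph hC ha).dist (x j) (x (j + 1)) = 1 :=
          SimpleGraph.dist_eq_one_iff_adj.2 (hx j (by omega))
        have h3 := hconn.dist_triangle (u := x i) (v := x j) (w := x (j + 1))
        omega
    by_cases hY : ∃ i ≤ n, x i = Y
    · obtain ⟨i, hi, rfl⟩ := hY
      have h1 := hle 0 i (by omega) hi
      have h2 := hle i n hi le_rfl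
      rw [hx0] at h1
      rw [hxn] at h2
      have h3 := hconn.dist_triangle (u := X) (v := x i) (w := Z)
      omega
    · exfalso
      push Not at hY
      -- every wall separating meets a vertex of the path
      have hmeet : ∀ V, V ∈ walls P sb Y → SepS sb V.1 X.1 Z.1 →
          ∃ i ≤ n, CrS sb V.1 (x i).1 ∨ V = x i := by
        intro V _ hV
        rw [← hx0] at hV
        exact walk_meets hC ha n x hV hxn hx
      -- indices met are within distance 4
      have hnear : ∀ i ≤ n, (∃ V, V ∈ walls P sb Y ∧ (CrS sb V.1 (x i).1 ∨ V = x i)) →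
          (crossGraph hC ha).dist (x i) Y ≤ 2 := by
        rintro i hi ⟨V, hV, h1⟩
        have h2 : (crossGraph hC ha).dist Y V = 1 := SimpleGraph.dist_eq_one_iff_adj.2 hV.2
        rw [SimpleGraph.dist_comm] at h2
        have h3 := hconn.dist_triangle (u := x i) (v := V) (w := Y)
        rcases h1 with h1 | h1
        · have h4 : (crossGraph hC ha).dist V (x i) = 1 := SimpleGraph.dist_eq_one_iff_adj.2 h1
          rw [SimpleGraph.dist_comm] at h4
          omega
        · subst h1
          omega
      classical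
      let I : Finset ℕ := (Finset.range (n + 1)).filter fun i =>
        ∃ V, V ∈ walls P sb Y ∧ (CrS sb V.1 (x i).1 ∨ V = x i)
      have hI : ∀ i ∈ I, ∀ j ∈ I, i ≤ j → j ≤ i + 4 := by
        intro i hi j hj hij
        rw [Finset.mem_filter, Finset.mem_range] at hi hj
        have h1 := hnear i (by omega) hi.2
        have h2 := hnear j (by omega) hj.2
        rw [SimpleGraph.dist_comm] at h2
        have h3 := hconn.dist_triangle (u := x i) (v := Y) (w := x j)
        have h4 := hle 0 i (by omega) (by omega)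
        have h5 := hle j n (by omega) le_rfl
        rw [hx0] at h4
        rw [hxn] at h5
        have h6 := hconn.dist_triangle (u := X) (v := x i) (w := x j)
        have h7 := hconn.dist_triangle (u := X) (v := x j) (w := Z)
        omega
      have hIcard : I.card ≤ 5 := by
        rcases I.eq_empty_or_nonempty with h0 | h0
        · rw [h0]; simp
        · have hmin := I.min'_mem h0
          have : I ⊆ Finset.Icc (I.min' h0) (I.min' h0 + 4) := by
            intro j hj
            rw [Finset.mem_Icc]
            exact ⟨I.min'_le j hj, hI _ hmin j hj (I.min'_le j hj)⟩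
          have h1 := Finset.card_le_card this
          rw [Nat.card_Icc] at h1
          omega
      have hsub : {V | V ∈ walls P sb Y ∧ SepS sb V.1 X.1 Z.1} ⊆
          ⋃ i ∈ I, {V | V ∈ walls P sb Y ∧ (CrS sb V.1 (x i).1 ∨ V = x i)} := by
        rintro V ⟨h1, h2⟩
        obtain ⟨i, hi, h3⟩ := hmeet V h1 h2
        rw [Set.mem_iUnion₂]
        exact ⟨i, Finset.mem_filter.2 ⟨Finset.mem_range.2 (by omega), V, h1, h3⟩, h1, h3⟩
      have hfin : (⋃ i ∈ I, {V | V ∈ walls P sb Y ∧ (CrS sb V.1 (x i).1 ∨ V = x i)}).Finite := by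
        apply Set.Finite.biUnion I.finite_toSet
        intro i hi
        have hi' := Finset.mem_filter.1 hi
        have hi2 := Finset.mem_range.1 hi'.1
        exact (hθ Y (x i) (hY i (by omega))).1
      have h1 := Set.ncard_le_ncard hsub hfin
      have h2 : Set.ncard (⋃ i ∈ I, {V | V ∈ walls P sb Y ∧ (CrS sb V.1 (x i).1 ∨ V = x i)}) ≤
          I.card * θ := by
        have key : ∀ J : Finset ℕ, (∀ i ∈ J, i ≤ n) →
            Set.ncard (⋃ i ∈ J, {V | V ∈ walls P sb Y ∧ (CrS sb V.1 (x i).1 ∨ V = x i)}) ≤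
              J.card * θ := by
          intro J
          induction J using Finset.induction_on with
          | empty => intro _; simp
          | insert i J hi ih =>
            intro hJ
            rw [Finset.set_biUnion_insert, Finset.card_insert_of_notMem hi]
            have e1 := Set.ncard_union_le
              {V | V ∈ walls P sb Y ∧ (CrS sb V.1 (x i).1 ∨ V = x i)}
              (⋃ i ∈ J, {V | V ∈ walls P sb Y ∧ (CrS sb V.1 (x i).1 ∨ V = x i)})
            have e2 := ih (fun j hj => hJ j (Finset.mem_insert_of_mem hj))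
            have e3 := (hθ Y (x i) (hY i (hJ i (Finset.mem_insert_self _ _)))).2
            rw [Nat.add_mul, Nat.one_mul]
            omega
        apply key
        intro i hi
        have hi' := Finset.mem_filter.1 hi
        have hi2 := Finset.mem_range.1 hi'.1
        omega
      have h3 : I.card * θ ≤ 5 * θ := Nat.mul_le_mul_right _ hIcard
      unfold pd at hlt
      omega
  refine ⟨5 * θ + 5 + m + κ₀, pd P sb, fun X Y => CrS sb X.1 Y.1, (crossGraph hC ha).dist,
    baseLine G at' a, h, ?_⟩
  constructor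
  case d_self =>
    intro Y X
    have : {V | V ∈ walls P sb Y ∧ SepS sb V.1 X.1 X.1} = ∅ := by
      ext V
      simp only [Set.mem_setOf_eq, Set.mem_empty_iff_false, iff_false]
      exact fun hV => (sep_not_cr hC ha hV.2).2.2.1 rfl
    unfold pd
    rw [this, Set.ncard_empty]
  case d_symm =>
    intro Y X Z
    unfold pd
    congr 1
    ext V
    exact ⟨fun h => ⟨h.1, sepS_symm h.2⟩, fun h => ⟨h.1, sepS_symm h.2⟩⟩
  case d_tri =>
    intro Y X U Z h1 h2 h3
    have := tri Y X U Z h1 h2 h3
    omega
  case d_smul => exact fun g Y X Z => pd_smul hC g Y X Z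
  case beh =>
    intro X Y Z h1 h2 h3
    rcases beh X Y Z h1 h2 h3 with h4 | h4
    · left; omega
    · right; omega
  case cr_symm => exact fun X Y h => crS_symm hC h
  case cr_ne => exact fun X Y h => crS_ne hC ha h
  case cr_smul => exact fun g X Y h => crS_smul hC g h
  case d_cr =>
    intro Y X X' h1 _ _
    have : {V | V ∈ walls P sb Y ∧ SepS sb V.1 X.1 X'.1} = ∅ := by
      ext V
      simp only [Set.mem_setOf_eq, Set.mem_empty_iff_false, iff_false]
      exact fun hV => (sep_not_cr hC ha hV.2).2.2.2.2.2 h1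
    unfold pd
    rw [this, Set.ncard_empty]
  case cd_self => exact fun X => SimpleGraph.dist_self
  case cd_pos => exact fun X Y hXY => hconn.pos_dist_of_ne hXY
  case cd_symm => exact fun X Y => SimpleGraph.dist_comm
  case cd_tri => exact fun X Y Z => hconn.dist_triangle
  case cd_smul =>
    intro g X Y
    apply le_antisymm (dist_smul_le hC ha g X Y)
    have := dist_smul_le hC ha g⁻¹ (g • X) (g • Y)
    rwa [inv_smul_smul, inv_smul_smul] at this
  case cd_cr => exact fun X Y hXY => SimpleGraph.dist_eq_one_iff_adj.2 hXY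
  case bgi =>
    intro X Y Z h1 h2 h3
    exact bgi X Y Z h1 h2 (by omega)
  case trans =>
    intro Y
    obtain ⟨g, hg, -⟩ := line_eq hC ha Y
    exact ⟨g, hg⟩
  case normal => exact hC.normal
  case a_mem => exact ha.mem
  case a_fix =>
    apply Subtype.ext
    show a • Ln at' a = Ln at' a
    rw [smul_Ln hC a ha.mem ha.ne]
    congr 1
    group
  case h_mem => exact hhP
  case h_cr => exact hh
  case grow => exact fun X hX M => pd_grow hC ha X hX M
  case step =>
    intro X hX
    have := hm X hX
    omega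
  case tch =>
    intro g
    obtain ⟨p, hp, hc⟩ := exists_cross hC ha (g⁻¹ • baseLine G at' a)
    refine ⟨g * p * g⁻¹, hC.normal.conj_mem p hp g, ?_⟩
    have h1 := crS_smul hC g hc
    have e1 : g • (g⁻¹ • baseLine G at' a).1 = (baseLine G at' a).1 := by
      show g • (g⁻¹ • (baseLine G at' a).1) = _
      rw [smul_inv_smul]
    have e2 : g • (p • baseLine G at' a).1 = ((g * p * g⁻¹) • g • baseLine G at' a).1 := by
      show g • (p • (baseLine G at' a).1) = (g * p * g⁻¹) • (g • (baseLine G at' a).1)
      rw [smul_smul, smul_smul]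
      congr 1
      group
    rw [e1, e2] at h1
    exact h1
  case rigid =>
    intro g X h1 h2 h3 h4
    exact hκ₀ g X h1 h2 (by omega) (by omega)

end Pool.Agent.MP_e058c8_al
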