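import Mathlib

/-!
Definitions for the final statement: surface groups (as groups acting on the upper half-plane),
outer automorphism groups, the kernels `K Γ`.
-/

namespace Pool.Agent.MP_e058c8_al

open scoped UpperHalfPlane MatrixGroups

/-- `π` acts on the hyperbolic plane freely, properly discontinuously and cocompactly by
orientation preserving isometries (Möbius transformations). -/
structure SurfaceAction (π : Type*) [Group π] [MulAction π ℍ] : Prop where
  moebius : ∀ p : π, ∃ g : SL(2, ℝ), ∀ z : ℍ, p • z = g • z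
  free : ∀ (p : π) (z : ℍ), p • z = z → p = 1
  discont : ∀ C : Set ℍ, IsCompact C → {p : π | ∃ z ∈ C, p • z ∈ C}.Finite
  cocompact : ∃ C : Set ℍ, IsCompact C ∧ ∀ z : ℍ, ∃ p : π, p • z ∈ C

section Out

variable (π : Type*) [Group π]

/-- Inner automorphisms. -/
abbrev Inn : Subgroup (MulAut π) := (MulAut.conj : π →* MulAut π).range

instance : (Inn π).Normal := by
  constructor
  rintro _ ⟨p, rfl⟩ g
  refine ⟨g p, ?_⟩
  ext x
  simp [MulAut.conj_apply, MulAut.mul_apply]

/-- The outer automorphism group. -/
abbrev Out : Type _ := MulAut π ⧸ Inn π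

variable {π}

/-- The automorphism of `π ⧸ Γ` induced by an automorphism of `π`, for `Γ` characteristic. -/
def quotAut (Γ : Subgroup π) [hΓ : Γ.Characteristic] : MulAut π →* MulAut (π ⧸ Γ) where
  toFun φ := QuotientGroup.congr Γ Γ φ (Subgroup.characteristic_iff_map_eq.1 hΓ φ)
  map_one' := by
    ext x
    induction x using QuotientGroup.induction_on with
    | H x => rfl
  map_mul' φ ψ := by
    ext x
    induction x using QuotientGroup.induction_on with
    | H x => rfl

@[simp] theorem quotAut_mk (Γ : Subgroup π) [Γ.Characteristic] (φ : MulAut π) (x : π) :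
    quotAut Γ φ (x : π ⧸ Γ) = ((φ x : π) : π ⧸ Γ) := rfl

/-- The natural homomorphism `Out π → Out (π ⧸ Γ)`, for `Γ` characteristic. -/
def outMap (Γ : Subgroup π) [Γ.Characteristic] : Out π →* Out (π ⧸ Γ) :=
  QuotientGroup.map (Inn π) (Inn (π ⧸ Γ)) (quotAut Γ) (by
    rintro _ ⟨p, rfl⟩
    refine ⟨(p : π ⧸ Γ), ?_⟩
    ext x
    induction x using QuotientGroup.induction_on with
    | H x => rfl)

/-- `K_Γ`, the kernel of `Out π → Out (π ⧸ Γ)`. -/
def K (Γ : Subgroup π) [Γ.Characteristic] : Subgroup (Out π) := (outMap Γ).ker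

end Out

end Pool.Agent.MP_e058c8_al
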