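import Pool.Agent.MP_e058c8_al.Defs
import Pool.Agent.MP_e058c8_al.Statement

namespace Pool.Agent.MP_e058c8_al
open scoped UpperHalfPlane MatrixGroups
open UpperHalfPlane

namespace RepOf

/-- the quadratic form attached to a matrix -/
noncomputable def qf (g : SL(2, ℝ)) (z : ℂ) : ℂ :=
  (g 1 0 : ℂ) * z ^ 2 + ((g 1 1 : ℂ) - g 0 0) * z - g 0 1

theorem den_ne (g : SL(2, ℝ)) (z : ℍ) : (g 1 0 : ℂ) * z + g 1 1 ≠ 0 := by
  have := UpperHalfPlane.denom_ne_zero (g : GL (Fin 2) ℝ) z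
  simpa [UpperHalfPlane.denom] using this

theorem coe_smul' (g : SL(2, ℝ)) (z : ℍ) :
    (↑(g • z) : ℂ) = ((g 0 0 : ℂ) * z + g 0 1) / ((g 1 0 : ℂ) * z + g 1 1) := by
  rw [UpperHalfPlane.coe_specialLinearGroup_apply]
  simp

theorem sub_smul' (g : SL(2, ℝ)) (z : ℍ) :
    (z : ℂ) - ↑(g • z) = qf g z / ((g 1 0 : ℂ) * z + g 1 1) := by
  rw [coe_smul', qf]
  have := den_ne g z
  rw [eq_div_iff this, sub_mul, div_mul_cancel₀ _ this]
  ring

theorem im_smul' (g : SL(2, ℝ)) (z : ℍ) :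
    (g • z).im = z.im / Complex.normSq ((g 1 0 : ℂ) * z + g 1 1) := by
  have h1 : (g • z).im = ((g • z : ℍ) : ℂ).im := rfl
  rw [h1, coe_smul']
  have hdet : g 0 0 * g 1 1 - g 0 1 * g 1 0 = 1 := by
    have := g.2
    rwa [Matrix.det_fin_two] at this
  rw [Complex.div_im]
  have := den_ne g z
  have h2 : Complex.normSq ((g 1 0 : ℂ) * z + g 1 1) ≠ 0 := by
    rwa [Ne, Complex.normSq_eq_zero]
  rw [← sub_div, div_left_inj' h2]
  simp
  linear_combination (z.im) * hdet

theorem sinh_half (g : SL(2, ℝ)) (z : ℍ) :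
    Real.sinh (dist z (g • z) / 2) = ‖qf g z‖ / (2 * z.im) := by
  rw [UpperHalfPlane.sinh_half_dist, dist_eq_norm, sub_smul', im_smul', norm_div]
  have h := den_ne g z
  have h2 : 0 < ‖(g 1 0 : ℂ) * z + g 1 1‖ := norm_pos_iff.2 h
  have h3 : √(z.im * (z.im / Complex.normSq ((g 1 0 : ℂ) * z + g 1 1))) =
      z.im / ‖(g 1 0 : ℂ) * z + g 1 1‖ := by
    rw [Complex.normSq_eq_norm_sq]
    have : z.im * (z.im / ‖(g 1 0 : ℂ) * z + g 1 1‖ ^ 2) = (z.im / ‖(g 1 0 : ℂ) * z + g 1 1‖) ^ 2 := by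
      field_simp
    rw [this, Real.sqrt_sq]
    exact (div_pos z.im_pos h2).le
  rw [h3]
  have := z.im_pos
  field_simp

theorem smul_eq_iff (g : SL(2, ℝ)) (z : ℍ) : g • z = z ↔ qf g z = 0 := by
  have h := den_ne g z
  have h1 := sub_smul' g z
  constructor
  · intro h2
    rw [h2, sub_self] at h1
    have := h1.symm
    rw [div_eq_zero_iff] at this
    exact this.resolve_right h
  · intro h2
    rw [h2, zero_div] at h1
    apply UpperHalfPlane.ext
    exact (sub_eq_zero.1 h1).symm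

theorem det_eq (g : SL(2, ℝ)) : g 0 0 * g 1 1 - g 0 1 * g 1 0 = 1 := by
  have := g.2
  rwa [Matrix.det_fin_two] at this

theorem nsq_eq (g : SL(2, ℝ)) :
    nsq g = 4 * Real.sinh (dist UpperHalfPlane.I (g • UpperHalfPlane.I) / 2) ^ 2 + 2 := by
  rw [sinh_half, div_pow, ← Complex.normSq_eq_norm_sq, Complex.normSq_apply, qf, nsq]
  simp
  linear_combination 2 * det_eq g

theorem eq_one_or (g : SL(2, ℝ)) (h : ∀ z : ℍ, g • z = z) : g = 1 ∨ g = -1 := by
  have h1 := (smul_eq_iff g UpperHalfPlane.I).1 (h _)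
  have h2 := (smul_eq_iff g ⟨2 * Complex.I, by simp⟩).1 (h _)
  rw [qf, Complex.ext_iff] at h1 h2
  simp [pow_two] at h1 h2
  have hd := det_eq g
  have h10 : g 1 0 = 0 := by linarith [h1.1, h2.1]
  have h01 : g 0 1 = 0 := by linarith [h1.1, h2.1]
  have h11 : g 1 1 = g 0 0 := by linarith [h1.2]
  rw [h10, h01, h11] at hd
  have h3 : (g 0 0 - 1) * (g 0 0 + 1) = 0 := by linarith
  rcases mul_eq_zero.1 h3 with h4 | h4
  · left
    have h5 : g 0 0 = 1 := by linarith
    ext i j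
    fin_cases i <;> fin_cases j <;> simp [h10, h01, h11, h5]
  · right
    have h5 : g 0 0 = -1 := by linarith
    ext i j
    fin_cases i <;> fin_cases j <;> simp [h10, h01, h11, h5]

theorem eq_or_neg (g g' : SL(2, ℝ)) (h : ∀ z : ℍ, g • z = g' • z) : g = g' ∨ g = -g' := by
  rcases eq_one_or (g * g'⁻¹) (fun z => by rw [mul_smul, h, smul_inv_smul]) with h1 | h1
  · left
    exact mul_inv_eq_one.1 h1
  · right
    rw [mul_inv_eq_iff_eq_mul] at h1
    rw [h1]
    simp

/-- A parabolic element has arbitrarily small displacement. -/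
theorem parabolic (g : SL(2, ℝ)) (ht : |g.1.trace| = 2) {η : ℝ} (hη : 0 < η) :
    ∃ z : ℍ, dist z (g • z) < η := by
  have hs : 0 < Real.sinh (η / 2) := Real.sinh_pos_iff.2 (by positivity)
  suffices h : ∃ z : ℍ, ‖qf g z‖ / (2 * z.im) < Real.sinh (η / 2) by
    obtain ⟨z, hz⟩ := h
    rw [← sinh_half, Real.sinh_lt_sinh] at hz
    exact ⟨z, by linarith⟩
  have htr : (g 0 0 + g 1 1) ^ 2 = 4 := by
    rw [Matrix.trace_fin_two] at ht
    have h0 : (g 0 0 + g 1 1) ^ 2 = |g.1 0 0 + g.1 1 1| ^ 2 := by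
      rw [sq_abs]
    rw [h0, ht]
    norm_num
  have hd := det_eq g
  by_cases hc : g 1 0 = 0
  · have h1 : g 1 1 = g 0 0 := by
      rw [hc] at hd
      have : (g 1 1 - g 0 0) ^ 2 = 0 := by nlinarith
      have := pow_eq_zero_iff (two_ne_zero) |>.1 this
      linarith
    set s : ℝ := (|g 0 1| + 1) / Real.sinh (η / 2) with hsdef
    have hs' : 0 < s := by positivity
    refine ⟨⟨⟨0, s⟩, hs'⟩, ?_⟩
    have h2 : qf g ((⟨⟨0, s⟩, hs'⟩ : ℍ) : ℂ) = -((g 0 1 : ℝ) : ℂ) := by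
      rw [qf, hc, h1]
      simp
    rw [h2, norm_neg, Complex.norm_real, Real.norm_eq_abs]
    change |g 0 1| / (2 * s) < Real.sinh (η / 2)
    rw [div_lt_iff₀ (by positivity), hsdef]
    have h3 : Real.sinh (η / 2) * (2 * ((|g 0 1| + 1) / Real.sinh (η / 2))) = 2 * (|g 0 1| + 1) := by
      field_simp
    rw [h3]
    have := abs_nonneg (g 0 1)
    linarith
  · set x : ℝ := (g 0 0 - g 1 1) / (2 * g 1 0) with hx
    set s : ℝ := Real.sinh (η / 2) / |g 1 0| with hsdef
    have hc' : 0 < |g 1 0| := abs_pos.2 hc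
    have hs' : 0 < s := by positivity
    refine ⟨⟨⟨x, s⟩, hs'⟩, ?_⟩
    have h2 : qf g ((⟨⟨x, s⟩, hs'⟩ : ℍ) : ℂ) = ((-(g 1 0) * s ^ 2 : ℝ) : ℂ) := by
      have h3 : g 0 0 - g 1 1 = 2 * g 1 0 * x := by
        rw [hx]
        field_simp
      have h4 : -(g 0 1) = g 1 0 * x ^ 2 := by
        have h5 : (g 0 0 - g 1 1) ^ 2 = -4 * g 0 1 * g 1 0 := by linarith
        rw [h3] at h5
        have h6 : g 1 0 * (g 1 0 * x ^ 2 + g 0 1) = 0 := by linarith
        have := (mul_eq_zero.1 h6).resolve_left hc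
        linarith
      rw [qf]
      apply Complex.ext
      · simp [pow_two]
        linear_combination -x * h3 + h4
      · simp [pow_two]
        linear_combination -s * h3
    rw [h2, Complex.norm_real, Real.norm_eq_abs, abs_mul, abs_neg, abs_of_pos (pow_pos hs' 2)]
    change |g 1 0| * s ^ 2 / (2 * s) < Real.sinh (η / 2)
    have h3 : |g 1 0| * s ^ 2 / (2 * s) = Real.sinh (η / 2) / 2 := by
      rw [hsdef]
      field_simp
    rw [h3]
    linarith

/-- An elliptic element has a fixed point. -/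
theorem elliptic (g : SL(2, ℝ)) (ht : |g.1.trace| < 2) : ∃ z : ℍ, g • z = z := by
  have htr : (g 0 0 + g 1 1) ^ 2 < 4 := by
    rw [Matrix.trace_fin_two] at ht
    have h0 : (g 0 0 + g 1 1) ^ 2 = |g.1 0 0 + g.1 1 1| ^ 2 := by
      rw [sq_abs]
    rw [h0]
    have := abs_nonneg (g.1 0 0 + g.1 1 1)
    nlinarith
  have hd := det_eq g
  have hc : g 1 0 ≠ 0 := by
    intro hc
    rw [hc] at hd
    nlinarith [sq_nonneg (g 0 0 - g 1 1)]
  set D : ℝ := 4 - (g 0 0 + g 1 1) ^ 2 with hD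
  have hDpos : 0 < D := by linarith
  set x : ℝ := (g 0 0 - g 1 1) / (2 * g 1 0) with hx
  set s : ℝ := √D / (2 * |g 1 0|) with hsdef
  have hc' : 0 < |g 1 0| := abs_pos.2 hc
  have hs' : 0 < s := by
    have := Real.sqrt_pos.2 hDpos
    positivity
  refine ⟨⟨⟨x, s⟩, hs'⟩, ?_⟩
  rw [smul_eq_iff]
  have h3 : g 0 0 - g 1 1 = 2 * g 1 0 * x := by
    rw [hx]
    field_simp
  have h4 : 4 * (g 1 0) ^ 2 * s ^ 2 = D := by
    rw [hsdef, div_pow, Real.sq_sqrt hDpos.le, mul_pow, sq_abs]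
    field_simp
    ring
  have h5 : g 1 0 * (g 1 0 * (x ^ 2 - s ^ 2) - 2 * g 1 0 * x * x - g 0 1) = 0 := by
    have h6 : (g 0 0 - g 1 1) ^ 2 = (2 * g 1 0 * x) ^ 2 := by rw [h3]
    linear_combination (-1/4 : ℝ) * h4 + (1 / 4 : ℝ) * h6 - hd + 2 * hd
  have h6 := (mul_eq_zero.1 h5).resolve_left hc
  rw [qf]
  apply Complex.ext
  · simp [pow_two]
    linear_combination h6 - x * h3
  · simp [pow_two]
    linear_combination -s * h3

end RepOf

theorem rep_of_surfaceAction {π : Type*} [Group π] [MulAction π ℍ] (h : SurfaceAction π) :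
    ∃ M : π → SL(2, ℝ), Rep M := by
  classical
  choose M hM using h.moebius
  have hone : ∀ p : π, M p = 1 ∨ M p = -1 → p = 1 := by
    intro p hp
    apply h.free p UpperHalfPlane.I
    rw [hM]
    rcases hp with hp | hp
    · rw [hp, one_smul]
    · rw [hp, RepOf.smul_eq_iff, RepOf.qf]
      simp
  have hdisc : ∀ R : ℝ, {p : π | dist UpperHalfPlane.I (p • UpperHalfPlane.I) ≤ R}.Finite := by
    intro R
    apply (h.discont (Metric.closedBall UpperHalfPlane.I (max R 0)) (isCompact_closedBall _ _)).subset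
    intro p hp
    refine ⟨UpperHalfPlane.I, Metric.mem_closedBall_self (le_max_right _ _), ?_⟩
    rw [Metric.mem_closedBall, dist_comm]
    exact le_trans hp (le_max_left _ _)
  obtain ⟨K, hK, hcov⟩ := h.cocompact
  obtain ⟨R, hR⟩ : ∃ R : ℝ, ∀ z ∈ K, dist UpperHalfPlane.I z ≤ R := by
    obtain ⟨R, hR⟩ := hK.isBounded.subset_closedBall UpperHalfPlane.I
    exact ⟨R, fun z hz => by rw [dist_comm]; exact hR hz⟩
  -- minimal displacement
  have hiso : ∀ (p : π) (z w : ℍ), dist (p • z) (p • w) = dist z w := by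
    intro p z w
    rw [hM, hM, dist_smul]
  obtain ⟨η, hη, hmin⟩ : ∃ η : ℝ, 0 < η ∧ ∀ p : π, p ≠ 1 → ∀ z : ℍ, η ≤ dist z (p • z) := by
    have hF := hdisc (2 * R + 1)
    have hpt : ∀ p : π, p ≠ 1 → ∃ η : ℝ, 0 < η ∧ ∀ z ∈ K, η ≤ dist z (p • z) := by
      intro p hp
      by_cases hne : K.Nonempty
      · have hcont : Continuous (fun z : ℍ => dist z (p • z)) := by
          have : (fun z : ℍ => dist z (p • z)) = fun z : ℍ => dist z (M p • z) := by
            ext z
            rw [hM]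
          rw [this]
          fun_prop
        obtain ⟨z₀, hz₀, hmin⟩ := hK.exists_isMinOn hne hcont.continuousOn
        refine ⟨dist z₀ (p • z₀), ?_, fun z hz => hmin hz⟩
        apply dist_pos.2
        intro h1
        exact hp (h.free p z₀ h1.symm)
      · exact ⟨1, one_pos, fun z hz => absurd ⟨z, hz⟩ hne⟩
    choose! f hf using hpt
    obtain ⟨η, hη, hle⟩ : ∃ η : ℝ, 0 < η ∧ ∀ p ∈ hF.toFinset.filter (fun p => p ≠ 1), η ≤ f p := by
      by_cases hne : (hF.toFinset.filter (fun p => p ≠ 1)).Nonempty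
      · obtain ⟨p, hp, hmin⟩ := Finset.exists_min_image _ f hne
        exact ⟨f p, (hf p (Finset.mem_filter.1 hp).2).1, hmin⟩
      · exact ⟨1, one_pos, fun p hp => absurd ⟨p, hp⟩ hne⟩
    refine ⟨min η 1, lt_min hη one_pos, ?_⟩
    intro p hp z
    obtain ⟨q, hq⟩ := hcov z
    have h1 : dist z (p • z) = dist (q • z) ((q * p * q⁻¹) • (q • z)) := by
      rw [← hiso q, ← mul_smul, ← mul_smul, inv_mul_cancel_right]
    rw [h1]
    by_contra hlt
    push Not at hlt
    have hne : q * p * q⁻¹ ≠ 1 := by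
      intro h2
      apply hp
      have : p = q⁻¹ * (q * p * q⁻¹) * q := by group
      rw [this, h2]
      group
    have h3 : dist UpperHalfPlane.I ((q * p * q⁻¹) • UpperHalfPlane.I) ≤ 2 * R + 1 := by
      have h4 := hR _ hq
      calc dist UpperHalfPlane.I ((q * p * q⁻¹) • UpperHalfPlane.I) ≤
          dist UpperHalfPlane.I (q • z) + dist (q • z) ((q * p * q⁻¹) • (q • z)) +
            dist ((q * p * q⁻¹) • (q • z)) ((q * p * q⁻¹) • UpperHalfPlane.I) :=
            dist_triangle4 _ _ _ _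
        _ ≤ R + 1 + R := by
            rw [hiso, dist_comm (q • z) UpperHalfPlane.I]
            have := lt_of_lt_of_le hlt (min_le_right _ _)
            linarith
        _ = 2 * R + 1 := by ring
    have h5 := hle (q * p * q⁻¹) (Finset.mem_filter.2 ⟨hF.mem_toFinset.2 h3, hne⟩)
    have h6 := (hf _ hne).2 _ hq
    have h7 := lt_of_lt_of_le hlt (min_le_left _ _)
    linarith
  refine ⟨M, ?_, ?_, ?_, ?_⟩
  · intro p q
    apply RepOf.eq_or_neg
    intro z
    rw [← hM, mul_smul, mul_smul, ← hM, ← hM]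
  · intro C
    apply (hdisc (C + 1)).subset
    intro p hp
    change nsq (M p) ≤ C at hp
    rw [RepOf.nsq_eq, ← hM] at hp
    set t := dist UpperHalfPlane.I (p • UpperHalfPlane.I) with ht
    change t ≤ C + 1
    have ht0 : 0 ≤ t := dist_nonneg
    have h1 : t / 2 ≤ Real.sinh (t / 2) := Real.self_le_sinh_iff.2 (by positivity)
    nlinarith [sq_nonneg (Real.sinh (t / 2) - 1)]
  · refine ⟨4 * Real.sinh (R / 2) ^ 2 + 2, ?_⟩
    intro g
    obtain ⟨q, hq⟩ := hcov (g • UpperHalfPlane.I)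
    refine ⟨q⁻¹, ?_⟩
    have h1 : ((M q⁻¹)⁻¹ * g) • UpperHalfPlane.I = q • (g • UpperHalfPlane.I) := by
      rw [mul_smul, inv_smul_eq_iff, ← hM, inv_smul_smul]
    rw [RepOf.nsq_eq, h1]
    have h2 := hR _ hq
    have h3 : 0 ≤ dist UpperHalfPlane.I (q • (g • UpperHalfPlane.I)) := dist_nonneg
    have h4 : 0 ≤ Real.sinh (dist UpperHalfPlane.I (q • (g • UpperHalfPlane.I)) / 2) :=
      Real.sinh_nonneg_iff.2 (by positivity)
    have h5 : Real.sinh (dist UpperHalfPlane.I (q • (g • UpperHalfPlane.I)) / 2) ≤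
        Real.sinh (R / 2) := Real.sinh_le_sinh.2 (by linarith)
    have := pow_le_pow_left₀ h4 h5 2
    linarith
  · intro p hp
    by_contra hlt
    push Not at hlt
    rcases lt_or_eq_of_le hlt with h1 | h1
    · obtain ⟨z, hz⟩ := RepOf.elliptic (M p) h1
      rw [← hM] at hz
      exact hp (h.free p z hz)
    · obtain ⟨z, hz⟩ := RepOf.parabolic (M p) h1 hη
      have := hmin p hp z
      rw [hM] at this
      linarith

end Pool.Agent.MP_e058c8_al
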