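import Pool.Agent.MP_e058c8_al.Main
import Pool.Agent.MP_e058c8_al.Algebra
import Pool.Agent.MP_e058c8_al.ProjOf
import Pool.Agent.MP_e058c8_al.Fill
import Pool.Agent.MP_e058c8_al.Circle
import Pool.Agent.MP_e058c8_al.RepOf

/-! Assembly. -/

namespace Pool.Agent.MP_e058c8_al

open scoped UpperHalfPlane MatrixGroups Pointwise

universe u

theorem exists_K_eq {π : Type u} [Group π] [MulAction π ℍ] (h : SurfaceAction π)
    (N : Subgroup (Out π)) (hN : N.Normal) :
    ∃ (Γ : Subgroup π) (_ : Γ.Characteristic), K Γ = N := by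
  obtain ⟨M, hM⟩ := rep_of_surfaceAction h
  obtain ⟨E, hE, sb, at', hC⟩ := cs_of_rep hM
  obtain ⟨a, ha⟩ := exists_filling hC
  obtain ⟨κ, d, cr, cd, A, b, hP⟩ := proj_of_filling hC ha
  have := countable_mulAut hC.fg hC.cent
  exact exists_characteristic N hN (fun L hL hPL => main_of_proj hP L hL hPL)

end Pool.Agent.MP_e058c8_al
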