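import Pool.Agent.MP_e058c8_al.Defs

/-!
Task C: existence of relators (recursive choice of the exponents, periodic words).
-/

namespace Pool.Agent.MP_e058c8_al

namespace RelC

section Words

variable {G : Type*} [Group G]

/-- letters -/
def H (h : G) (n : ℕ) (t : ℕ → G) (i s : ℕ) : G := if s + 1 < n then h else t i

/-- syllables -/
def L (a h : G) (n : ℕ) (t : ℕ → G) (e : ℕ → ℕ) (i s : ℕ) : G :=
  a ^ e (n * i + s) * H h n t i s

/-- prefixes -/
def U (a h : G) (n : ℕ) (t : ℕ → G) (e : ℕ → ℕ) (i : ℕ) : ℕ → G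
  | 0 => 1
  | s + 1 => U a h n t e i s * L a h n t e i s

/-- periodic extension of the prefixes -/
def u (a h : G) (n : ℕ) (t : ℕ → G) (e : ℕ → ℕ) (i : ℕ) (s : ℤ) : G :=
  U a h n t e i n ^ (s / (n : ℤ)) * U a h n t e i (s % (n : ℤ)).toNat

variable {a h : G} {n : ℕ} {t : ℕ → G} {e : ℕ → ℕ} {i : ℕ}

theorem u_rep (q : ℤ) {m : ℕ} (hm : m < n) :
    u a h n t e i ((n : ℤ) * q + m) = U a h n t e i n ^ q * U a h n t e i m := by
  have hn : (0 : ℤ) < n := by omega
  have h1 : ((n : ℤ) * q + m) / (n : ℤ) = q := by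
    rw [add_comm, Int.add_mul_ediv_left _ _ hn.ne', Int.ediv_eq_zero_of_lt (by omega) (by omega),
      zero_add]
  have h2 : ((n : ℤ) * q + m) % (n : ℤ) = m := by
    rw [add_comm, Int.add_mul_emod_self_left, Int.emod_eq_of_lt (by omega) (by omega)]
  unfold u
  rw [h1, h2, Int.toNat_natCast]

theorem u_succ (q : ℤ) {m : ℕ} (hm : m < n) :
    u a h n t e i ((n : ℤ) * q + m + 1) =
      u a h n t e i ((n : ℤ) * q + m) * L a h n t e i m := by
  rcases Nat.lt_or_ge (m + 1) n with hlt | hge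
  · have h1 : (n : ℤ) * q + m + 1 = (n : ℤ) * q + ((m + 1 : ℕ) : ℤ) := by push_cast; ring
    rw [h1, u_rep q hlt, u_rep q hm, U, mul_assoc]
  · have hmn : m + 1 = n := by omega
    have h0 : 0 < n := by omega
    have h1 : (n : ℤ) * q + m + 1 = (n : ℤ) * (q + 1) + ((0 : ℕ) : ℤ) := by
      have : ((m + 1 : ℕ) : ℤ) = n := by rw [hmn]
      push_cast at this ⊢
      linarith
    have h2 : U a h n t e i n = U a h n t e i m * L a h n t e i m := by
      rw [← U, Nat.succ_eq_add_one, hmn]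
    rw [h1, u_rep (q + 1) h0, u_rep q hm, U, mul_one, zpow_add_one, mul_assoc, h2]

theorem u_per (s : ℤ) (hn : 0 < n) :
    u a h n t e i (s + n) = U a h n t e i n * u a h n t e i s := by
  have hn' : (n : ℤ) ≠ 0 := by omega
  unfold u
  rw [Int.add_ediv_of_dvd_right (dvd_refl _), Int.ediv_self hn', Int.add_emod_right, add_comm,
    zpow_one_add, mul_assoc]

theorem exists_rep (s : ℤ) (hn : 0 < n) : ∃ (q : ℤ) (m : ℕ), m < n ∧ s = (n : ℤ) * q + m := by
  have hn' : (0 : ℤ) < n := by omega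
  refine ⟨s / n, (s % n).toNat, ?_, ?_⟩
  · have h1 := Int.emod_lt_of_pos s hn'
    have h2 := Int.emod_nonneg s hn'.ne'
    omega
  · rw [Int.toNat_of_nonneg (Int.emod_nonneg s hn'.ne')]
    exact (Int.mul_ediv_add_emod s n).symm

end Words

/-- Recursive choice. -/
theorem exists_seq (F : ℕ → ℕ → ℕ) (hF : ∀ t M, ∃ e, M ≤ F t e) (C : ℕ) :
    ∃ e : ℕ → ℕ, C ≤ F 0 (e 0) ∧ ∀ t, F t (e t) + C ≤ F (t + 1) (e (t + 1)) := by
  choose g hg using hF
  let e : ℕ → ℕ := fun t => Nat.rec (motive := fun _ => ℕ) (g 0 C)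
    (fun t x => g (t + 1) (F t x + C)) t
  refine ⟨e, hg 0 C, fun t => ?_⟩
  exact hg (t + 1) (F t (e t) + C)

section Main

variable {G 𝒴 : Type*} [Group G] [MulAction G 𝒴] {P : Subgroup G} {κ : ℕ}
  {d : 𝒴 → 𝒴 → 𝒴 → ℕ} {cr : 𝒴 → 𝒴 → Prop} {cd : 𝒴 → 𝒴 → ℕ} {A : 𝒴} {a h : G}

theorem a_pow_fix (hP : Proj P κ d cr cd A a h) (k : ℕ) : a ^ k • A = A := by
  induction k with
  | zero => simp
  | succ k ih => rw [pow_succ, mul_smul, hP.a_fix, ih]

theorem a_pow_inv_fix (hP : Proj P κ d cr cd A a h) (k : ℕ) : (a ^ k)⁻¹ • A = A := by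
  rw [inv_smul_eq_iff, a_pow_fix hP]

theorem inv_ne (hP : Proj P κ d cr cd A a h) {g : G} (hg : cr A (g • A)) : g⁻¹ • A ≠ A := by
  have h1 := hP.cr_smul g⁻¹ _ _ hg
  rw [inv_smul_smul] at h1
  exact hP.cr_ne _ _ h1

/-- the turning numbers are unbounded -/
theorem turn_unbdd (hP : Proj P κ d cr cd A a h) {g g' : G} (hg : cr A (g • A))
    (hg' : cr A (g' • A)) (M : ℕ) : ∃ e : ℕ, M ≤ d A (g⁻¹ • A) (a ^ e • g' • A) := by
  have hX := inv_ne hP hg
  have hX' : g' • A ≠ A := (hP.cr_ne _ _ hg').symm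
  obtain ⟨e, he⟩ := hP.grow _ hX (M + d A (g' • A) (g⁻¹ • A) + κ)
  refine ⟨e, ?_⟩
  have hne : ∀ Y : 𝒴, Y ≠ A → a ^ e • Y ≠ A := by
    intro Y hY h1
    apply hY
    have h2 : a ^ e • Y = a ^ e • A := by rw [h1, a_pow_fix hP]
    exact smul_left_cancel _ h2
  have h1 := hP.d_tri A (g⁻¹ • A) (a ^ e • g' • A) (a ^ e • g⁻¹ • A) hX (hne _ hX') (hne _ hX)
  have h2 := hP.d_smul (a ^ e) A (g' • A) (g⁻¹ • A)
  rw [a_pow_fix hP] at h2
  rw [h2] at h1
  omega

theorem cr_H (hP : Proj P κ d cr cd A a h) {n : ℕ} {t : ℕ → G} (ht : ∀ i, cr A (t i • A))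
    (i s : ℕ) : cr A (H h n t i s • A) := by
  unfold H
  split_ifs
  · exact hP.h_cr
  · exact ht i

/-- the previous index modulo `n` -/
def prev (n s : ℕ) : ℕ := if s = 0 then n - 1 else s - 1

theorem exists_relators_aux (hP : Proj P κ d cr cd A a h) (n : ℕ) (hn : 10 < n) (t : ℕ → G)
    (ht : ∀ i, cr A (t i • A)) :
    ∃ (z : ℕ → ℤ → 𝒴) (r : ℕ → G), Relators κ d cr n z r ∧ ∀ i, r i * (t i)⁻¹ ∈ P := by
  have hn0 : 0 < n := by omega
  -- choice of the exponents
  obtain ⟨e, he0, he⟩ := exists_seq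
    (fun T x => d A ((H h n t (T / n) (prev n (T % n)))⁻¹ • A)
      (a ^ x • H h n t (T / n) (T % n) • A))
    (fun T M => turn_unbdd hP (cr_H hP ht _ _) (cr_H hP ht _ _) M) (20 * κ + 20)
  set D : ℕ → ℕ := fun T => d A ((H h n t (T / n) (prev n (T % n)))⁻¹ • A)
      (a ^ e T • H h n t (T / n) (T % n) • A) with hD
  have hD0 : 20 * κ + 20 ≤ D 0 := he0
  have hDs : ∀ T, D T + (20 * κ + 20) ≤ D (T + 1) := he
  have hmono : StrictMono D := strictMono_nat_of_lt_succ fun T => by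
    have := hDs T
    omega
  have hDC : ∀ T, 20 * κ + 20 ≤ D T := fun T => hD0.trans (hmono.monotone (Nat.zero_le T))
  have hdm : ∀ i m : ℕ, m < n → (n * i + m) / n = i ∧ (n * i + m) % n = m := by
    intro i m hm
    constructor
    · rw [add_comm, Nat.add_mul_div_left _ _ hn0, Nat.div_eq_of_lt hm, zero_add]
    · rw [add_comm, Nat.add_mul_mod_self_left, Nat.mod_eq_of_lt hm]
  set z : ℕ → ℤ → 𝒴 := fun i j => u a h n t e i j • A with hz
  -- next line
  have hnext : ∀ i (q : ℤ) (m : ℕ), m < n → z i ((n : ℤ) * q + m + 1) =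
      u a h n t e i ((n : ℤ) * q + m) • a ^ e (n * i + m) • H h n t i m • A := by
    intro i q m hm
    simp only [hz]
    rw [u_succ q hm, L, mul_smul, mul_smul]
  -- turning numbers
  have hturn : ∀ i (q : ℤ) (m : ℕ), m < n →
      d (z i ((n : ℤ) * q + m)) (z i ((n : ℤ) * q + m - 1)) (z i ((n : ℤ) * q + m + 1)) =
        D (n * i + m) := by
    intro i q m hm
    have hprev : z i ((n : ℤ) * q + m - 1) =
        u a h n t e i ((n : ℤ) * q + m) • (H h n t i (prev n m))⁻¹ • A := by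
      obtain ⟨q', m', hm', hqm, hpm⟩ : ∃ (q' : ℤ) (m' : ℕ), m' < n ∧
          (n : ℤ) * q + m = (n : ℤ) * q' + m' + 1 ∧ m' = prev n m := by
        unfold prev
        by_cases h0 : m = 0
        · refine ⟨q - 1, n - 1, by omega, ?_, ?_⟩
          · subst h0
            rw [Nat.cast_sub (by omega : 1 ≤ n)]
            push_cast
            ring
          · rw [if_pos h0]
        · refine ⟨q, m - 1, by omega, ?_, ?_⟩
          · rw [Nat.cast_sub (by omega : 1 ≤ m)]
            push_cast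
            ring
          · rw [if_neg h0]
      rw [hqm, u_succ q' hm', ← hpm]
      simp only [hz]
      rw [add_sub_cancel_right, mul_smul]
      congr 1
      rw [L, mul_smul, smul_inv_smul, a_pow_fix hP]
    rw [hprev, hnext i q m hm]
    simp only [hz]
    rw [hP.d_smul]
    simp only [hD]
    rw [(hdm i m hm).1, (hdm i m hm).2]
  refine ⟨z, fun i => U a h n t e i n, ⟨?_, ?_, ?_, ?_⟩, ?_⟩
  · -- tracks
    intro i
    refine ⟨fun j => ?_, fun j => ?_⟩
    · obtain ⟨q, m, hm, rfl⟩ := exists_rep j hn0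
      rw [hnext i q m hm]
      have h1 := hP.cr_smul (u a h n t e i ((n : ℤ) * q + m) * a ^ e (n * i + m)) _ _
        (cr_H hP (n := n) ht i m)
      rw [mul_smul, mul_smul, a_pow_fix hP] at h1
      exact h1
    · obtain ⟨q, m, hm, rfl⟩ := exists_rep j hn0
      rw [hturn i q m hm]
      exact hDC _
  · intro i j
    simp only [hz]
    rw [u_per j hn0, mul_smul]
  · intro i j i' j' heq
    obtain ⟨q, m, hm, rfl⟩ := exists_rep j hn0
    obtain ⟨q', m', hm', rfl⟩ := exists_rep j' hn0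
    rw [hturn i q m hm, hturn i' q' m' hm'] at heq
    have h1 := hmono.injective heq
    have h2 : i = i' := by
      rw [← (hdm i m hm).1, ← (hdm i' m' hm').1, h1]
    have h3 : m = m' := by
      rw [← (hdm i m hm).2, ← (hdm i' m' hm').2, h1]
    refine ⟨h2, ⟨q - q', ?_⟩⟩
    rw [h3]
    ring
  · refine ⟨D, hDs, fun i j => ?_⟩
    obtain ⟨q, m, hm, rfl⟩ := exists_rep j hn0
    exact ⟨_, hturn i q m hm⟩
  · intro i
    have hU : ∀ s, s < n → U a h n t e i s ∈ P := by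
      intro s
      induction s with
      | zero => intro _; exact P.one_mem
      | succ s ih =>
        intro hs
        have h1 := ih (by omega)
        rw [U, L, H, if_pos (by omega)]
        exact P.mul_mem h1 (P.mul_mem (P.pow_mem hP.a_mem _) hP.h_mem)
    obtain ⟨k, rfl⟩ : ∃ k, n = k + 1 := ⟨n - 1, by omega⟩
    have h1 : U a h (k + 1) t e i (k + 1) * (t i)⁻¹ =
        U a h (k + 1) t e i k * a ^ e ((k + 1) * i + k) := by
      rw [U, L, H, if_neg (by omega), mul_assoc, mul_assoc, mul_inv_cancel, mul_one]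
    show U a h (k + 1) t e i (k + 1) * (t i)⁻¹ ∈ P
    rw [h1]
    exact P.mul_mem (hU k (by omega)) (P.pow_mem hP.a_mem _)

end Main

end RelC

/-- `t i` are the elements which have to become elements of `P` modulo the relators. -/
theorem exists_relators {G 𝒴 : Type*} [Group G] [MulAction G 𝒴] {P : Subgroup G} {κ : ℕ}
    {d : 𝒴 → 𝒴 → 𝒴 → ℕ} {cr : 𝒴 → 𝒴 → Prop} {cd : 𝒴 → 𝒴 → ℕ} {A : 𝒴} {a h : G}
    (hP : Proj P κ d cr cd A a h) (n : ℕ) (hn : 10 < n) (t : ℕ → G)
    (ht : ∀ i, cr A (t i • A)) :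
    ∃ (z : ℕ → ℤ → 𝒴) (r : ℕ → G), Relators κ d cr n z r ∧ ∀ i, r i * (t i)⁻¹ ∈ P :=
  RelC.exists_relators_aux hP n hn t ht

end Pool.Agent.MP_e058c8_al
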