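import Pool.Agent.MP_e058c8_al.Defs

/-!
Windmill lemma: the group generated by a rotation system satisfies a Greendlinger type property.
(Adapted from helper30's `Pool.Agent.Burnside.Windmill`; blueprint of helper47.)
-/

namespace Pool.Agent.MP_e058c8_al

variable {G : Type*} [Group G]

namespace Windmill

variable {P : Set G} {a : G → G → G → ℤ} {O : G → Set G} {dist : G → G → ℤ} {θ K : ℤ} {n : ℕ}

theorem a_self (S : RotSys n P a O dist θ K) {h : G} (hh : h ∈ P) (x : G) : a h x x = 0 := by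
  have := S.add h hh x x x
  omega

theorem a_symm (S : RotSys n P a O dist θ K) {h : G} (hh : h ∈ P) (x y : G) :
    a h y x = - a h x y := by
  have h1 := S.add h hh x y x
  have h2 := a_self S hh x
  omega

theorem a_inv (S : RotSys n P a O dist θ K) {h : G} (hh : h ∈ P) (g x y : G) :
    a (g⁻¹ * h * g) (g⁻¹ * x) (g⁻¹ * y) = a h x y := by
  have := S.equiv h hh g⁻¹ x y
  rwa [inv_inv] at this

theorem a_npow (S : RotSys n P a O dist θ K) {h : G} (hh : h ∈ P) (x y : G) (k : ℕ) :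
    a h x (h ^ k * y) = a h x y + k * n := by
  induction k with
  | zero => simp
  | succ k ih =>
    rw [pow_succ', mul_assoc, S.shift h hh, ih]
    push_cast
    ring

theorem a_zpow (S : RotSys n P a O dist θ K) {h : G} (hh : h ∈ P) (x y : G) (k : ℤ) :
    a h x (h ^ k * y) = a h x y + k * n := by
  rcases Int.eq_nat_or_neg k with ⟨m, rfl | rfl⟩
  · rw [zpow_natCast]
    exact a_npow S hh x y m
  · have h1 := a_npow S hh x (h ^ (-(m : ℤ)) * y) m
    rw [← zpow_natCast, ← mul_assoc, ← zpow_add] at h1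
    simp only [add_neg_cancel, zpow_zero, one_mul] at h1
    rw [neg_mul]
    omega

theorem O_zpow (S : RotSys n P a O dist θ K) {h : G} (hh : h ∈ P) {x : G} (hx : x ∈ O h) (k : ℤ) :
    h ^ k * x ∈ O h := by
  have := S.Oequiv h hh (h ^ k) x hx
  have e : h ^ k * h * (h ^ k)⁻¹ = h := by group
  rwa [e] at this

theorem O_inv (S : RotSys n P a O dist θ K) {h : G} (hh : h ∈ P) (g : G) {x : G}
    (hx : x ∈ O (g * h * g⁻¹)) : g⁻¹ * x ∈ O h := by
  have := S.Oequiv _ (S.conj h hh g) g⁻¹ x hx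
  have e : g⁻¹ * (g * h * g⁻¹) * g⁻¹⁻¹ = h := by group
  rwa [e] at this

/-- The subgroup generated by the rotations (`n` is a dummy argument). -/
def rotN (W : Set G) (_n : ℕ) : Subgroup G := Subgroup.closure W

/-- The windmill of `W`. -/
def U (O : G → Set G) (n : ℕ) (p : G) (W : Set G) : Set G :=
  {x | (∃ g ∈ rotN W n, x = g * p) ∨ ∃ h ∈ W, x ∈ O h}

theorem rotN_mono {W W' : Set G} (h : W ⊆ W') (n : ℕ) : rotN W n ≤ rotN W' n := by
  exact Subgroup.closure_mono h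

theorem U_mono {n : ℕ} {p : G} {W W' : Set G} (h : W ⊆ W') : U O n p W ⊆ U O n p W' := by
  rintro x (⟨g, hg, rfl⟩ | ⟨k, hk, hx⟩)
  · exact Or.inl ⟨g, rotN_mono h n hg, rfl⟩
  · exact Or.inr ⟨k, h hk, hx⟩

theorem p_mem_U {n : ℕ} {p : G} {W : Set G} : p ∈ U O n p W :=
  Or.inl ⟨1, Subgroup.one_mem _, by simp⟩

theorem rotN_zpow {W : Set G} {n : ℕ} {b : G} (hb : b ∈ W) (k : ℤ) :
    b ^ k ∈ rotN W n := by
  exact Subgroup.zpow_mem _ (Subgroup.subset_closure hb) k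

/-- Good windmills. -/
structure Good (P : Set G) (a : G → G → G → ℤ) (O : G → Set G) (θ K : ℤ) (n : ℕ) (p : G)
    (W : Set G) : Prop where
  sub : W ⊆ P
  inv : ∀ h ∈ W, ∀ g ∈ rotN W n, g * h * g⁻¹ ∈ W
  bd : ∀ z ∈ P, z ∉ W → ∀ u ∈ U O n p W, ∀ v ∈ U O n p W, |a z u v| ≤ 2 * K + 6 * θ
  grn : ∀ g ∈ rotN W n, g ≠ 1 → ∃ h ∈ W, ∃ k : ℤ, k ≠ 0 ∧ |a h p (g * p) - k * n| ≤ 2 * K + 8 * θ

theorem good_empty (S : RotSys n P a O dist θ K) (hθ : 0 ≤ θ) (hK : 0 ≤ K) (p : G) :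
    Good P a O θ K n p ∅ := by
  have hr : rotN (∅ : Set G) n = ⊥ := by
    unfold rotN
    exact Subgroup.closure_empty
  refine ⟨Set.empty_subset _, fun h hh => hh.elim, ?_, ?_⟩
  · intro z hz _ u hu v hv
    rcases hu with ⟨g, hg, rfl⟩ | ⟨h, hh, _⟩
    swap
    · exact hh.elim
    rcases hv with ⟨g', hg', rfl⟩ | ⟨h, hh, _⟩
    swap
    · exact hh.elim
    rw [hr, Subgroup.mem_bot] at hg hg'
    subst hg
    subst hg'
    rw [a_self S hz]
    simp only [abs_zero]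
    positivity
  · intro g hg h1
    rw [hr, Subgroup.mem_bot] at hg
    exact absurd hg h1

theorem rotN_sUnion {c : Set (Set G)} (hc : IsChain (· ⊆ ·) c) (hne : c.Nonempty) (n : ℕ)
    {g : G} (hg : g ∈ rotN (⋃₀ c) n) : ∃ W ∈ c, g ∈ rotN W n := by
  unfold rotN at hg
  induction hg using Subgroup.closure_induction with
  | mem x hx =>
    obtain ⟨W, hW, hh⟩ := hx
    exact ⟨W, hW, Subgroup.subset_closure hh⟩
  | one =>
    obtain ⟨W, hW⟩ := hne
    exact ⟨W, hW, Subgroup.one_mem _⟩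
  | mul x y _ _ ihx ihy =>
    obtain ⟨W, hW, hx⟩ := ihx
    obtain ⟨W', hW', hy⟩ := ihy
    rcases hc.total hW hW' with h | h
    · exact ⟨W', hW', Subgroup.mul_mem _ (rotN_mono h n hx) hy⟩
    · exact ⟨W, hW, Subgroup.mul_mem _ hx (rotN_mono h n hy)⟩
  | inv x _ ih =>
    obtain ⟨W, hW, hx⟩ := ih
    exact ⟨W, hW, Subgroup.inv_mem _ hx⟩

theorem U_sUnion {c : Set (Set G)} (hc : IsChain (· ⊆ ·) c) (hne : c.Nonempty) {n : ℕ}
    {p x : G} (hx : x ∈ U O n p (⋃₀ c)) : ∃ W ∈ c, x ∈ U O n p W := by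
  rcases hx with ⟨g, hg, rfl⟩ | ⟨h, ⟨W, hW, hh⟩, hx⟩
  · obtain ⟨W, hW, hg⟩ := rotN_sUnion hc hne n hg
    exact ⟨W, hW, Or.inl ⟨g, hg, rfl⟩⟩
  · exact ⟨W, hW, Or.inr ⟨h, hh, hx⟩⟩

theorem good_sUnion {n : ℕ} {p : G}
    {c : Set (Set G)} (hcg : ∀ W ∈ c, Good P a O θ K n p W) (hc : IsChain (· ⊆ ·) c)
    (hne : c.Nonempty) : Good P a O θ K n p (⋃₀ c) := by
  have hdir : ∀ W ∈ c, ∀ W' ∈ c, ∃ W'' ∈ c, W ⊆ W'' ∧ W' ⊆ W'' := by
    intro W hW W' hW'
    rcases hc.total hW hW' with h | h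
    · exact ⟨W', hW', h, subset_rfl⟩
    · exact ⟨W, hW, subset_rfl, h⟩
  refine ⟨?_, ?_, ?_, ?_⟩
  · rintro x ⟨W, hW, hx⟩
    exact (hcg W hW).sub hx
  · rintro h ⟨W, hW, hx⟩ g hg
    obtain ⟨W', hW', hg⟩ := rotN_sUnion hc hne n hg
    obtain ⟨W'', hW'', h1, h2⟩ := hdir W hW W' hW'
    exact ⟨W'', hW'', (hcg W'' hW'').inv h (h1 hx) g (rotN_mono h2 n hg)⟩
  · intro z hz hzc u hu v hv
    obtain ⟨W, hW, hu⟩ := U_sUnion hc hne hu
    obtain ⟨W', hW', hv⟩ := U_sUnion hc hne hv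
    obtain ⟨W'', hW'', h1, h2⟩ := hdir W hW W' hW'
    exact (hcg W'' hW'').bd z hz (fun h => hzc ⟨W'', hW'', h⟩) u (U_mono h1 hu) v (U_mono h2 hv)
  · intro g hg h1
    obtain ⟨W, hW, hg⟩ := rotN_sUnion hc hne n hg
    obtain ⟨h, hh, k, hk⟩ := (hcg W hW).grn g hg h1
    exact ⟨h, ⟨W, hW, hh⟩, k, hk⟩

/-- Data for the extension of a good windmill. -/
structure Ext (P : Set G) (a : G → G → G → ℤ) (O : G → Set G) (θ K : ℤ) (n : ℕ) (p : G)
    (W B : Set G) : Prop where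
  good : Good P a O θ K n p W
  Bsub : B ⊆ P
  Bdisj : ∀ b ∈ B, b ∉ W
  Binv : ∀ b ∈ B, ∀ g ∈ rotN W n, g * b * g⁻¹ ∈ B
  B1 : ∀ b ∈ B, ∀ u ∈ U O n p W, ∀ b' ∈ B, b' ≠ b → ∀ v ∈ O b', |a b u v| ≤ 2 * K + 7 * θ
  B2 : ∀ z ∈ P, z ∉ W → z ∉ B → ∀ u, (u ∈ U O n p W ∨ ∃ b ∈ B, u ∈ O b) →
    ∀ v, (v ∈ U O n p W ∨ ∃ b ∈ B, v ∈ O b) → |a z u v| ≤ 2 * K + 4 * θ

/-- Product of a list. -/
def lp (n : ℕ) (L : List (G × ℤ)) : G := (L.map fun q => q.1 ^ q.2).prod

@[simp] theorem lp_nil (n : ℕ) : lp n ([] : List (G × ℤ)) = 1 := rfl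

@[simp] theorem lp_cons (n : ℕ) (q : G × ℤ) (L : List (G × ℤ)) :
    lp n (q :: L) = q.1 ^ q.2 * lp n L := by simp [lp]

@[simp] theorem lp_append (n : ℕ) (L L' : List (G × ℤ)) :
    lp n (L ++ L') = lp n L * lp n L' := by simp [lp]

/-- Reduced lists. -/
def Red (B : Set G) (L : List (G × ℤ)) : Prop :=
  (∀ q ∈ L, q.1 ∈ B ∧ q.2 ≠ 0) ∧ L.IsChain (fun q q' => q.1 ≠ q'.1)

omit [Group G] in
theorem Red.tail {B : Set G} {q : G × ℤ} {L : List (G × ℤ)} (h : Red B (q :: L)) : Red B L :=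
  ⟨fun r hr => h.1 r (List.mem_cons_of_mem _ hr), h.2.tail⟩

theorem lp_conj (n : ℕ) (g : G) (L : List (G × ℤ)) :
    lp n (L.map fun q => (g * q.1 * g⁻¹, q.2)) = g * lp n L * g⁻¹ := by
  induction L with
  | nil => simp
  | cons q L ih =>
    simp only [List.map_cons, lp_cons, ih]
    have : (g * q.1 * g⁻¹) ^ q.2 = g * q.1 ^ q.2 * g⁻¹ := by
      exact conj_zpow
    rw [this]
    group

theorem Red.conj {B : Set G} {g : G} (hB : ∀ b ∈ B, g * b * g⁻¹ ∈ B) {L : List (G × ℤ)}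
    (h : Red B L) : Red B (L.map fun q => (g * q.1 * g⁻¹, q.2)) := by
  refine ⟨?_, ?_⟩
  · intro q hq
    obtain ⟨r, hr, rfl⟩ := List.mem_map.1 hq
    exact ⟨hB _ (h.1 r hr).1, (h.1 r hr).2⟩
  · rw [List.isChain_map]
    refine h.2.imp ?_
    intro x y hxy he
    apply hxy
    simpa using he

/-- Normal form in the enlarged group. -/
theorem normal_form {n : ℕ} {W B : Set G}
    (hinv : ∀ b ∈ B, ∀ g ∈ rotN W n, g * b * g⁻¹ ∈ B) {g : G} (hg : g ∈ rotN (W ∪ B) n) :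
    ∃ L : List (G × ℤ), Red B L ∧ ∃ h ∈ rotN W n, g = lp n L * h := by
  have key : ∀ b ∈ B, ∀ ε : ℤ, ∀ y : G, (∃ L : List (G × ℤ), Red B L ∧ ∃ h ∈ rotN W n,
      y = lp n L * h) → ∃ L : List (G × ℤ), Red B L ∧ ∃ h ∈ rotN W n,
        b ^ ε * y = lp n L * h := by
    rintro b hb ε y ⟨L, hL, h, hh, rfl⟩
    by_cases hε : ε = 0
    · subst hε
      exact ⟨L, hL, h, hh, by simp⟩
    cases L with
    | nil =>
      refine ⟨[(b, ε)], ⟨?_, ?_⟩, h, hh, ?_⟩
      · intro q hq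
        rw [List.mem_singleton] at hq
        subst hq
        exact ⟨hb, hε⟩
      · simp
      · simp
    | cons q L =>
      by_cases hbq : b = q.1
      · subst hbq
        by_cases hk : ε + q.2 = 0
        · refine ⟨L, hL.tail, h, hh, ?_⟩
          rw [lp_cons, ← mul_assoc, ← mul_assoc, ← zpow_add, hk]
          simp
        · refine ⟨(q.1, ε + q.2) :: L, ⟨?_, ?_⟩, h, hh, ?_⟩
          · intro r hr
            rcases List.mem_cons.1 hr with rfl | hr
            · exact ⟨hb, hk⟩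
            · exact hL.tail.1 r hr
          · have := hL.2
            cases L with
            | nil => simp
            | cons r L =>
              rw [List.isChain_cons_cons] at this ⊢
              exact this
          · rw [lp_cons, lp_cons, ← mul_assoc, ← mul_assoc, ← zpow_add]
      · refine ⟨(b, ε) :: q :: L, ⟨?_, ?_⟩, h, hh, ?_⟩
        · intro r hr
          rcases List.mem_cons.1 hr with rfl | hr
          · exact ⟨hb, hε⟩
          · exact hL.1 r hr
        · rw [List.isChain_cons_cons]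
          exact ⟨hbq, hL.2⟩
        · rw [lp_cons (L := q :: L)]
          rw [mul_assoc]
  have key2 : ∀ g' ∈ rotN W n, ∀ y : G, (∃ L : List (G × ℤ), Red B L ∧ ∃ h ∈ rotN W n,
      y = lp n L * h) → ∃ L : List (G × ℤ), Red B L ∧ ∃ h ∈ rotN W n,
        g' * y = lp n L * h := by
    rintro g' hg' y ⟨L, hL, h, hh, rfl⟩
    refine ⟨L.map fun q => (g' * q.1 * g'⁻¹, q.2), hL.conj (fun b hb => hinv b hb g' hg'),
      g' * h, Subgroup.mul_mem _ hg' hh, ?_⟩
    rw [lp_conj]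
    group
  unfold rotN at hg
  induction hg using Subgroup.closure_induction_left with
  | one => exact ⟨[], ⟨by simp, by simp⟩, 1, Subgroup.one_mem _, by simp⟩
  | mul_left x hx y hy ih =>
    rcases hx with hh | hh
    · exact key2 _ (Subgroup.subset_closure hh) y ih
    · have := key x hh 1 y ih
      simpa using this
  | inv_mul_cancel x hx y hy ih =>
    rcases hx with hh | hh
    · exact key2 _ (Subgroup.inv_mem _ (Subgroup.subset_closure hh)) y ih
    · have := key x hh (-1) y ih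
      simpa using this

/-- Admissible end points of a list. -/
def End (O : G → Set G) (n : ℕ) (p : G) (W B : Set G) (L : List (G × ℤ)) (v : G) : Prop :=
  v ∈ U O n p W ∨ ∃ b ∈ B, v ∈ O b ∧ ∀ q, L.getLast? = some q → q.1 ≠ b

theorem End.tail {n : ℕ} {p : G} {W B : Set G} {q : G × ℤ} {L : List (G × ℤ)} {v : G}
    (h : End O n p W B (q :: L) v) : End O n p W B L v := by
  rcases h with h | ⟨b, hb, hv, h⟩
  · exact Or.inl h
  · refine Or.inr ⟨b, hb, hv, ?_⟩
    intro r hr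
    cases L with
    | nil => simp at hr
    | cons s L =>
      apply h r
      rw [List.getLast?_cons_cons]
      exact hr

theorem big_abs {n k : ℤ} (hn : 0 ≤ n) (hk : k ≠ 0) : n ≤ |k * n| := by
  rw [abs_mul, abs_of_nonneg hn]
  have : 1 ≤ |k| := Int.one_le_abs hk
  nlinarith

/-- The key estimate for reduced lists. -/
theorem estC (S : RotSys n P a O dist θ K) (hθ : 0 ≤ θ) (hK : 0 ≤ K)
    (hn : 100 * (θ + K + 1) < n) {p : G} {W B : Set G} (E : Ext P a O θ K n p W B)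
    {v : G} (L : List (G × ℤ)) : ∀ q : G × ℤ, Red B (q :: L) → End O n p W B (q :: L) v →
    ∀ u ∈ U O n p W, |a q.1 u (lp n (q :: L) * v) - q.2 * n| ≤ 2 * K + 8 * θ := by
  have hb7 : ∀ b ∈ B, ∀ u ∈ U O n p W, ∀ w ∈ U O n p W, |a b u w| ≤ 2 * K + 7 * θ := by
    intro b hb u hu w hw
    have := E.good.bd b (E.Bsub hb) (E.Bdisj b hb) u hu w hw
    omega
  induction L with
  | nil =>
    intro q hL hv u hu
    have hq := hL.1 q (by simp)
    have h1 : |a q.1 u v| ≤ 2 * K + 7 * θ := by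
      rcases hv with hv | ⟨b, hb, hv, h⟩
      · exact hb7 _ hq.1 u hu v hv
      · have h2 := h q (by simp)
        exact E.B1 q.1 hq.1 u hu b hb (Ne.symm h2) v hv
    have h3 : lp n [q] * v = q.1 ^ q.2 * v := by simp
    rw [h3, a_zpow S (E.Bsub hq.1)]
    have : a q.1 u v + q.2 * n - q.2 * n = a q.1 u v := by ring
    rw [this]
    omega
  | cons q2 L ih =>
    intro q hL hv u hu
    have hq := hL.1 q (by simp)
    have hq2 := hL.1 q2 (by simp)
    have hne : q.1 ≠ q2.1 := by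
      have := hL.2
      rw [List.isChain_cons_cons] at this
      exact this.1
    have IH := ih q2 hL.tail hv.tail
    set w := lp n (q2 :: L) * v with hw
    have h3 : lp n (q :: q2 :: L) * v = q.1 ^ q.2 * w := by
      rw [lp_cons, hw, mul_assoc]
    rw [h3, a_zpow S (E.Bsub hq.1)]
    have e1 : a q.1 u w + q.2 * n - q.2 * n = a q.1 u w := by ring
    rw [e1]
    obtain ⟨y, hy⟩ := S.nonempty q.1 (E.Bsub hq.1)
    obtain ⟨z, hz⟩ := S.nonempty q2.1 (E.Bsub hq2.1)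
    have h4 := IH u hu
    have h5 := E.B1 q2.1 hq2.1 u hu q.1 hq.1 hne y hy
    have h6 := S.add q2.1 (E.Bsub hq2.1) u w y
    have h7 := big_abs (n := (n : ℤ)) (by positivity) hq2.2
    have h8 := S.beh q.1 (E.Bsub hq.1) q2.1 (E.Bsub hq2.1) hne w y hy z hz
    have h9 := E.B1 q.1 hq.1 u hu q2.1 hq2.1 (Ne.symm hne) z hz
    have h10 := S.add q.1 (E.Bsub hq.1) u w z
    generalize q2.2 * (n : ℤ) = t at *
    rw [abs_le] at *
    rcases h8 with h8 | h8
    · constructor <;> omega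
    · exfalso
      rw [le_abs] at h7
      rw [abs_le] at h8
      omega

/-- The enlarged windmill. -/
def W' (W B : Set G) (n : ℕ) : Set G :=
  {z | ∃ g ∈ rotN (W ∪ B) n, ∃ b ∈ W ∪ B, z = g * b * g⁻¹}

theorem sub_W' (W B : Set G) (n : ℕ) : W ∪ B ⊆ W' W B n := fun b hb =>
  ⟨1, Subgroup.one_mem _, b, hb, by simp⟩

theorem rotN_W' (W B : Set G) (n : ℕ) : rotN (W' W B n) n = rotN (W ∪ B) n := by
  apply le_antisymm
  · unfold rotN
    rw [Subgroup.closure_le]
    rintro _ ⟨g, hg, b, hb, rfl⟩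
    simp only [SetLike.mem_coe]
    exact Subgroup.mul_mem _ (Subgroup.mul_mem _ hg (Subgroup.subset_closure hb))
      (Subgroup.inv_mem _ hg)
  · exact rotN_mono (sub_W' W B n) n

theorem W'_inv {W B : Set G} {n : ℕ} {z : G} (hz : z ∈ W' W B n) {g : G}
    (hg : g ∈ rotN (W ∪ B) n) : g * z * g⁻¹ ∈ W' W B n := by
  obtain ⟨g', hg', b, hb, rfl⟩ := hz
  exact ⟨g * g', Subgroup.mul_mem _ hg hg', b, hb, by group⟩

theorem W'_inv' {W B : Set G} {n : ℕ} {z : G} (hz : z ∉ W' W B n) {g : G}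
    (hg : g ∈ rotN (W ∪ B) n) : g⁻¹ * z * g ∉ W' W B n := by
  intro h
  apply hz
  have := W'_inv h hg
  have e : g * (g⁻¹ * z * g) * g⁻¹ = z := by group
  rwa [e] at this

/-- The key estimate for axes outside of the enlarged windmill. -/
theorem estD (S : RotSys n P a O dist θ K) (hθ : 0 ≤ θ) (hK : 0 ≤ K)
    (hn : 100 * (θ + K + 1) < n) {p : G} {W B : Set G} (E : Ext P a O θ K n p W B)
    {v : G} (L : List (G × ℤ)) : Red B L → End O n p W B L v →
    ∀ z ∈ P, z ∉ W' W B n → ∀ s t : G, (t ∈ U O n p W ∨ ∃ b ∈ B, t ∈ O b) → |a z s t| ≤ θ →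
    (∀ q, L.head? = some q → ∀ u ∈ U O n p W, |a q.1 u s| ≤ 2 * K + 8 * θ) →
    |a z s (lp n L * v)| ≤ 2 * K + 6 * θ := by
  induction L with
  | nil =>
    intro _ hv z hz hzW s t ht hst _
    have hzW' : z ∉ W := fun h => hzW (sub_W' W B n (Or.inl h))
    have hzB' : z ∉ B := fun h => hzW (sub_W' W B n (Or.inr h))
    have hv' : v ∈ U O n p W ∨ ∃ b ∈ B, v ∈ O b := by
      rcases hv with hv | ⟨b, hb, hv, _⟩
      · exact Or.inl hv
      · exact Or.inr ⟨b, hb, hv⟩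
    have h1 := E.B2 z hz hzW' hzB' t ht v hv'
    have h2 := S.add z hz s t v
    simp only [lp_nil, one_mul]
    rw [abs_le] at *
    constructor <;> omega
  | cons q L ih =>
    intro hL hv z hz hzW s t ht hst hT1
    have hzW' : z ∉ W := fun h => hzW (sub_W' W B n (Or.inl h))
    have hzB' : z ∉ B := fun h => hzW (sub_W' W B n (Or.inr h))
    have hq := hL.1 q (by simp)
    have hqP := E.Bsub hq.1
    have hzq : z ≠ q.1 := fun h => hzB' (h ▸ hq.1)
    have hC := estC S hθ hK hn E L q hL hv p p_mem_U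
    have h1 := hT1 q (by simp) p p_mem_U
    obtain ⟨o, ho⟩ := S.nonempty z hz
    obtain ⟨y, hy⟩ := S.nonempty q.1 hqP
    have h7 := big_abs (n := (n : ℤ)) (by positivity) hq.2
    -- either the start or the end is far from `z` seen from `q.1`
    by_cases hcase : |a q.1 s o| ≤ θ
    · -- the end point is close, as seen from `z`
      have h2 := S.beh z hz q.1 hqP hzq (lp n (q :: L) * v) o ho y hy
      have h3 := S.add q.1 hqP p s o
      have h4 := S.add q.1 hqP p (lp n (q :: L) * v) o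
      have h5 := E.B2 z hz hzW' hzB' t ht y (Or.inr ⟨q.1, hq.1, hy⟩)
      have h6 := S.add z hz s t y
      have h8 := S.add z hz s y (lp n (q :: L) * v)
      have h9 := a_symm S hz (lp n (q :: L) * v) y
      generalize lp n (q :: L) * v = X at *
      generalize q.2 * (n : ℤ) = T at *
      rw [le_abs] at h7
      rw [abs_le] at hC h1 hcase h5 hst ⊢
      rcases h2 with h2 | h2
      · rw [abs_le] at h2
        constructor <;> omega
      · exfalso
        rw [abs_le] at h2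
        omega
    · have h2 : ∀ y ∈ O q.1, |a z s y| ≤ θ := by
        intro y hy
        rcases S.beh z hz q.1 hqP hzq s o ho y hy with h | h
        · exact h
        · exact absurd h hcase
      set c := q.1 ^ q.2 with hc
      have hcH : c ∈ rotN (W ∪ B) n :=
        rotN_zpow (W := W ∪ B) (Set.mem_union_right W hq.1) q.2
      have h3 : lp n (q :: L) * v = c * (lp n L * v) := by
        rw [lp_cons, mul_assoc]
      have h4 : a z s (c * (lp n L * v)) = a (c⁻¹ * z * c) (c⁻¹ * s) (lp n L * v) := by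
        have := a_inv S hz c s (c * (lp n L * v))
        rw [inv_mul_cancel_left] at this
        exact this.symm
      rw [h3, h4]
      have hz' : c⁻¹ * z * c ∈ P := by
        have := S.conj z hz c⁻¹
        rwa [inv_inv] at this
      refine ih hL.tail hv.tail _ hz' (W'_inv' hzW hcH) (c⁻¹ * s) (c⁻¹ * y)
        (Or.inr ⟨q.1, hq.1, ?_⟩) ?_ ?_
      · have := O_zpow S hqP hy (-q.2)
        rwa [zpow_neg, ← hc] at this
      · rw [a_inv S hz]
        exact h2 y hy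
      · intro q2 hq2 u hu
        obtain ⟨L', rfl⟩ : ∃ L', L = q2 :: L' := by
          cases L with
          | nil => simp at hq2
          | cons r L' =>
            simp only [List.head?_cons, Option.some.injEq] at hq2
            exact ⟨L', by rw [hq2]⟩
        have hne : q.1 ≠ q2.1 := by
          have := hL.2
          rw [List.isChain_cons_cons] at this
          exact this.1
        have hq2B := (hL.1 q2 (by simp)).1
        have hq2P := E.Bsub hq2B
        obtain ⟨y2, hy2⟩ := S.nonempty q2.1 hq2P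
        have k1 := hT1 q (by simp) u hu
        have k2 := S.beh q2.1 hq2P q.1 hqP hne.symm (c⁻¹ * s) y2 hy2 y hy
        have k3 := E.B1 q.1 hq.1 u hu q2.1 hq2B hne.symm y2 hy2
        have k4 := E.B1 q2.1 hq2B u hu q.1 hq.1 hne y hy
        have k5 := S.add q.1 hqP u (c⁻¹ * s) y2
        have k6 : a q.1 u (c⁻¹ * s) = a q.1 u s - q.2 * n := by
          have := a_zpow S hqP u s (-q.2)
          rw [zpow_neg, ← hc, neg_mul] at this
          omega
        have k7 := S.add q2.1 hq2P u (c⁻¹ * s) y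
        generalize q.2 * (n : ℤ) = T at *
        rw [le_abs] at h7
        rw [abs_le] at k1 k3 k4 ⊢
        rcases k2 with k2 | k2
        · rw [abs_le] at k2
          constructor <;> omega
        · exfalso
          rw [abs_le] at k2
          omega

/-- Axes outside of the enlarged windmill see a small windmill. -/
theorem estE (S : RotSys n P a O dist θ K) (hθ : 0 ≤ θ) (hK : 0 ≤ K)
    (hn : 100 * (θ + K + 1) < n) {p : G} {W B : Set G} (E : Ext P a O θ K n p W B) (m : ℕ) :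
    ∀ L : List (G × ℤ), L.length = m → Red B L →
    ∀ z ∈ P, z ∉ W' W B n → ∀ u, (u ∈ U O n p W ∨ ∃ b ∈ B, u ∈ O b) →
    ∀ v, (v ∈ U O n p W ∨ ∃ b ∈ B, v ∈ O b) →
    |a z u (lp n L * v)| ≤ 2 * K + 6 * θ := by
  induction m with
  | zero =>
    intro L hLm hL z hz hzW u hu v hv
    have hzW' : z ∉ W := fun h => hzW (sub_W' W B n (Or.inl h))
    have hzB' : z ∉ B := fun h => hzW (sub_W' W B n (Or.inr h))
    rw [List.length_eq_zero_iff] at hLm
    subst hLm
    have := E.B2 z hz hzW' hzB' u hu v hv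
    simp only [lp_nil, one_mul]
    omega
  | succ m ih =>
    intro L hLm hL z hz hzW u hu v hv
    obtain ⟨q, L', rfl⟩ : ∃ q L', L = q :: L' := by
      cases L with
      | nil => simp at hLm
      | cons q L' => exact ⟨q, L', rfl⟩
    have hq := hL.1 q (by simp)
    have hqP := E.Bsub hq.1
    by_cases hu1 : u ∈ O q.1
    · -- remove the first rotation
      set c := q.1 ^ q.2 with hc
      have hcH : c ∈ rotN (W ∪ B) n :=
        rotN_zpow (W := W ∪ B) (Set.mem_union_right W hq.1) q.2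
      have h3 : lp n (q :: L') * v = c * (lp n L' * v) := by
        rw [lp_cons, mul_assoc]
      have h4 : a z u (c * (lp n L' * v)) = a (c⁻¹ * z * c) (c⁻¹ * u) (lp n L' * v) := by
        have := a_inv S hz c u (c * (lp n L' * v))
        rw [inv_mul_cancel_left] at this
        exact this.symm
      rw [h3, h4]
      have hz' : c⁻¹ * z * c ∈ P := by
        have := S.conj z hz c⁻¹
        rwa [inv_inv] at this
      refine ih L' (by simpa using hLm) hL.tail _ hz' (W'_inv' hzW hcH) (c⁻¹ * u)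
        (Or.inr ⟨q.1, hq.1, ?_⟩) v hv
      have := O_zpow S hqP hu1 (-q.2)
      rwa [zpow_neg, ← hc] at this
    by_cases hv1 : ∃ r, (q :: L').getLast? = some r ∧ v ∈ O r.1
    · obtain ⟨r, hr, hv1⟩ := hv1
      obtain ⟨L'', hL''⟩ := List.getLast?_eq_some_iff.1 hr
      rw [hL''] at hLm hL ⊢
      have hrB := hL.1 r (by simp)
      have e : lp n (L'' ++ [r]) * v = lp n L'' * (r.1 ^ r.2 * v) := by
        simp [mul_assoc]
      rw [e]
      refine ih L'' (by simpa using hLm) ⟨?_, ?_⟩ z hz hzW u hu _ (Or.inr ⟨r.1, hrB.1, ?_⟩)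
      · intro q hq
        exact hL.1 q (by simp [hq])
      · exact hL.2.left_of_append
      · exact O_zpow S (E.Bsub hrB.1) hv1 _
    · have hend : End O n p W B (q :: L') v := by
        rcases hv with hv | ⟨b, hb, hv⟩
        · exact Or.inl hv
        · refine Or.inr ⟨b, hb, hv, ?_⟩
          intro r hr he
          exact hv1 ⟨r, hr, he ▸ hv⟩
      refine estD S hθ hK hn E (q :: L') hL hend z hz hzW u u hu ?_ ?_
      · rw [a_self S hz]
        simpa using hθ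
      · intro r hr w hw
        simp only [List.head?_cons, Option.some.injEq] at hr
        subst hr
        rcases hu with hu | ⟨b, hb, hu⟩
        · have := E.good.bd q.1 hqP (E.Bdisj q.1 hq.1) w hw u hu
          omega
        · have hne : b ≠ q.1 := fun h => hu1 (h ▸ hu)
          have := E.B1 q.1 hq.1 w hw b hb hne u hu
          omega

theorem U_inv (S : RotSys n P a O dist θ K) {p : G} {W B : Set G}
    (E : Ext P a O θ K n p W B) {g : G} (hg : g ∈ rotN W n) {u : G}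
    (hu : u ∈ U O n p W ∨ ∃ b ∈ B, u ∈ O b) :
    g * u ∈ U O n p W ∨ ∃ b ∈ B, g * u ∈ O b := by
  rcases hu with (⟨g', hg', rfl⟩ | ⟨h, hh, hu⟩) | ⟨b, hb, hu⟩
  · exact Or.inl (Or.inl ⟨g * g', Subgroup.mul_mem _ hg hg', by group⟩)
  · exact Or.inl (Or.inr ⟨g * h * g⁻¹, E.good.inv h hh g hg,
      S.Oequiv h (E.good.sub hh) g u hu⟩)
  · exact Or.inr ⟨g * b * g⁻¹, E.Binv b hb g hg, S.Oequiv b (E.Bsub hb) g u hu⟩

theorem U_W' (S : RotSys n P a O dist θ K) {p : G} {W B : Set G}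
    (E : Ext P a O θ K n p W B) {u : G} (hu : u ∈ U O n p (W' W B n)) :
    ∃ g ∈ rotN (W ∪ B) n, ∃ v, (v ∈ U O n p W ∨ ∃ b ∈ B, v ∈ O b) ∧ u = g * v := by
  rcases hu with ⟨g, hg, rfl⟩ | ⟨h, ⟨g, hg, b, hb, rfl⟩, hu⟩
  · rw [rotN_W'] at hg
    exact ⟨g, hg, p, Or.inl p_mem_U, rfl⟩
  · have hbP : b ∈ P := by
      rcases hb with hb | hb
      · exact E.good.sub hb
      · exact E.Bsub hb
    refine ⟨g, hg, g⁻¹ * u, ?_, by group⟩
    have := O_inv S hbP g hu
    rcases hb with hb | hb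
    · exact Or.inl (Or.inr ⟨b, hb, this⟩)
    · exact Or.inr ⟨b, hb, this⟩

/-- The enlarged windmill is good. -/
theorem ext_good (S : RotSys n P a O dist θ K) (hθ : 0 ≤ θ) (hK : 0 ≤ K)
    (hn : 100 * (θ + K + 1) < n) {p : G} {W B : Set G} (E : Ext P a O θ K n p W B) :
    Good P a O θ K n p (W' W B n) := by
  refine ⟨?_, ?_, ?_, ?_⟩
  · rintro _ ⟨g, hg, b, hb, rfl⟩
    apply S.conj
    rcases hb with hb | hb
    · exact E.good.sub hb
    · exact E.Bsub hb
  · intro h hh g hg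
    rw [rotN_W'] at hg
    exact W'_inv hh hg
  · intro z hz hzW u hu v hv
    obtain ⟨g, hg, u', hu', rfl⟩ := U_W' S E hu
    obtain ⟨g', hg', v', hv', rfl⟩ := U_W' S E hv
    have h1 : a z (g * u') (g' * v') = a (g⁻¹ * z * g) u' (g⁻¹ * g' * v') := by
      have := a_inv S hz g (g * u') (g' * v')
      rw [inv_mul_cancel_left, ← mul_assoc] at this
      exact this.symm
    rw [h1]
    have hz' : g⁻¹ * z * g ∈ P := by
      have := S.conj z hz g⁻¹
      rwa [inv_inv] at this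
    obtain ⟨L, hL, h, hh, he⟩ := normal_form E.Binv
      (Subgroup.mul_mem _ (Subgroup.inv_mem _ hg) hg')
    rw [he, mul_assoc (lp n L) h v']
    exact estE S hθ hK hn E _ L rfl hL _ hz' (W'_inv' hzW hg) u' hu' _ (U_inv S E hh hv')
  · intro g hg h1
    rw [rotN_W'] at hg
    obtain ⟨L, hL, h, hh, rfl⟩ := normal_form E.Binv hg
    cases L with
    | nil =>
      rw [lp_nil, one_mul] at h1 ⊢
      obtain ⟨k, hk, m, hm⟩ := E.good.grn h hh h1
      exact ⟨k, sub_W' W B n (Or.inl hk), m, hm⟩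
    | cons q L =>
      have hq := hL.1 q (by simp)
      refine ⟨q.1, sub_W' W B n (Or.inr hq.1), q.2, hq.2, ?_⟩
      have := estC S hθ hK hn E L q hL (v := h * p) (Or.inl (Or.inl ⟨h, hh, rfl⟩)) p p_mem_U
      rwa [← mul_assoc] at this

/-- Step A. -/
theorem extA (S : RotSys n P a O dist θ K) (hθ : 0 ≤ θ) (hK : 0 ≤ K)
    {p : G} {W : Set G} (hW : Good P a O θ K n p W) :
    Ext P a O θ K n p W {z | z ∈ P ∧ z ∉ W ∧ ∃ u ∈ U O n p W, ∃ v ∈ U O n p W,
      2 * θ < |a z u v|} := by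
  have key : ∀ z ∈ P, z ∉ W → ∀ b ∈ {z | z ∈ P ∧ z ∉ W ∧ ∃ u ∈ U O n p W, ∃ v ∈ U O n p W,
      2 * θ < |a z u v|}, b ≠ z → ∃ u ∈ U O n p W, ∀ v ∈ O b, |a z u v| ≤ θ := by
    rintro z hz hzW b ⟨hb, hbW, u, hu, v, hv, huv⟩ hne
    obtain ⟨o, ho⟩ := S.nonempty z hz
    by_cases h1 : |a b u o| ≤ θ
    · refine ⟨v, hv, fun y hy => ?_⟩
      rcases S.beh z hz b hb hne.symm v o ho y hy with h | h
      · exact h
      · exfalso
        have h2 := S.add b hb u v o
        rw [abs_le] at h h1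
        rw [lt_abs] at huv
        omega
    · refine ⟨u, hu, fun y hy => ?_⟩
      rcases S.beh z hz b hb hne.symm u o ho y hy with h | h
      · exact h
      · exact absurd h h1
  refine ⟨hW, fun z hz => hz.1, fun z hz => hz.2.1, ?_, ?_, ?_⟩
  · rintro z ⟨hz, hzW, u, hu, v, hv, huv⟩ g hg
    refine ⟨S.conj z hz g, ?_, g * u, ?_, g * v, ?_, ?_⟩
    · intro h
      apply hzW
      have := hW.inv _ h g⁻¹ (Subgroup.inv_mem _ hg)
      have e : g⁻¹ * (g * z * g⁻¹) * g⁻¹⁻¹ = z := by group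
      rwa [e] at this
    · rcases hu with ⟨g', hg', rfl⟩ | ⟨h, hh, hu⟩
      · exact Or.inl ⟨g * g', Subgroup.mul_mem _ hg hg', by group⟩
      · exact Or.inr ⟨g * h * g⁻¹, hW.inv h hh g hg, S.Oequiv h (hW.sub hh) g u hu⟩
    · rcases hv with ⟨g', hg', rfl⟩ | ⟨h, hh, hv⟩
      · exact Or.inl ⟨g * g', Subgroup.mul_mem _ hg hg', by group⟩
      · exact Or.inr ⟨g * h * g⁻¹, hW.inv h hh g hg, S.Oequiv h (hW.sub hh) g v hv⟩
    · rw [S.equiv z hz]
      exact huv
  · intro b hb u hu b' hb' hne v hv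
    obtain ⟨u0, hu0, h⟩ := key b hb.1 hb.2.1 b' hb' hne
    have h1 := h v hv
    have h2 := hW.bd b hb.1 hb.2.1 u hu u0 hu0
    have h3 := S.add b hb.1 u u0 v
    rw [abs_le] at *
    constructor <;> omega
  · intro z hz hzW hzB u hu v hv
    have hsm : ∀ u ∈ U O n p W, ∀ v ∈ U O n p W, |a z u v| ≤ 2 * θ := by
      intro u hu v hv
      by_contra hcon
      push Not at hcon
      exact hzB ⟨hz, hzW, u, hu, v, hv, hcon⟩
    have near : ∀ u, (u ∈ U O n p W ∨ ∃ b ∈ {z | z ∈ P ∧ z ∉ W ∧ ∃ u ∈ U O n p W,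
        ∃ v ∈ U O n p W, 2 * θ < |a z u v|}, u ∈ O b) →
        ∃ u0 ∈ U O n p W, |a z u0 u| ≤ θ := by
      rintro u (hu | ⟨b, hb, hu⟩)
      · exact ⟨u, hu, by rw [a_self S hz]; simpa using hθ⟩
      · obtain ⟨u0, hu0, h⟩ := key z hz hzW b hb (fun h => hzB (h ▸ hb))
        exact ⟨u0, hu0, h u hu⟩
    obtain ⟨u0, hu0, h1⟩ := near u hu
    obtain ⟨v0, hv0, h2⟩ := near v hv
    have h3 := hsm u0 hu0 v0 hv0
    have h4 := S.add z hz u0 u v
    have h5 := S.add z hz u0 v0 v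
    rw [abs_le] at *
    constructor <;> omega

/-- Step B. -/
theorem extB (S : RotSys n P a O dist θ K) (hθ : 0 ≤ θ) (hK : 0 ≤ K)
    {p : G} {W : Set G} (hW : Good P a O θ K n p W)
    (hsm : ∀ z ∈ P, z ∉ W → ∀ u ∈ U O n p W, ∀ v ∈ U O n p W, |a z u v| ≤ 2 * θ)
    {z0 : G} (hz0 : z0 ∈ P) (hz0W : z0 ∉ W)
    (hmin : ∀ z ∈ P, z ∉ W → dist p z0 ≤ dist p z) :
    Ext P a O θ K n p W {z | ∃ g ∈ rotN W n, z = g * z0 * g⁻¹} := by
  have hinvW : ∀ z, z ∉ W → ∀ g ∈ rotN W n, g * z * g⁻¹ ∉ W := by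
    intro z hz g hg h
    apply hz
    have := hW.inv _ h g⁻¹ (Subgroup.inv_mem _ hg)
    have e : g⁻¹ * (g * z * g⁻¹) * g⁻¹⁻¹ = z := by group
    rwa [e] at this
  -- the main estimate
  have key : ∀ z ∈ P, z ∉ W → ∀ g ∈ rotN W n, g * z0 * g⁻¹ ≠ z → ∀ v ∈ O (g * z0 * g⁻¹),
      |a z (g * p) v| ≤ K := by
    intro z hz hzW g hg hne v hv
    by_contra hcon
    push Not at hcon
    have h1 := S.sep (g * z0 * g⁻¹) (S.conj _ hz0 g) z hz hne (g * p) v hv hcon
    rw [S.dist_equiv z0 hz0 g p] at h1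
    have h2 := S.dist_equiv _ (S.conj z hz g⁻¹) g p
    have e : g * (g⁻¹ * z * g⁻¹⁻¹) * g⁻¹ = z := by group
    rw [e] at h2
    have h3 := hmin _ (S.conj z hz g⁻¹) (hinvW z hzW g⁻¹ (Subgroup.inv_mem _ hg))
    omega
  have key' : ∀ z ∈ P, z ∉ W → ∀ b ∈ {z | ∃ g ∈ rotN W n, z = g * z0 * g⁻¹}, b ≠ z →
      ∀ v ∈ O b, ∃ u ∈ U O n p W, |a z u v| ≤ K := by
    rintro z hz hzW _ ⟨g, hg, rfl⟩ hne v hv
    exact ⟨g * p, Or.inl ⟨g, hg, rfl⟩, key z hz hzW g hg hne v hv⟩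
  have hBP : ∀ b ∈ {z | ∃ g ∈ rotN W n, z = g * z0 * g⁻¹}, b ∈ P := by
    rintro _ ⟨g, hg, rfl⟩
    exact S.conj z0 hz0 g
  have hBW : ∀ b ∈ {z | ∃ g ∈ rotN W n, z = g * z0 * g⁻¹}, b ∉ W := by
    rintro _ ⟨g, hg, rfl⟩
    exact hinvW z0 hz0W g hg
  refine ⟨hW, hBP, hBW, ?_, ?_, ?_⟩
  · rintro _ ⟨g, hg, rfl⟩ g' hg'
    exact ⟨g' * g, Subgroup.mul_mem _ hg' hg, by group⟩
  · intro b hb u hu b' hb' hne v hv
    obtain ⟨u0, hu0, h⟩ := key' b (hBP b hb) (hBW b hb) b' hb' hne v hv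
    have h2 := hsm b (hBP b hb) (hBW b hb) u hu u0 hu0
    have h3 := S.add b (hBP b hb) u u0 v
    rw [abs_le] at *
    constructor <;> omega
  · intro z hz hzW hzB u hu v hv
    have near : ∀ u, (u ∈ U O n p W ∨ ∃ b ∈ {z | ∃ g ∈ rotN W n, z = g * z0 * g⁻¹}, u ∈ O b) →
        ∃ u0 ∈ U O n p W, |a z u0 u| ≤ K := by
      rintro u (hu | ⟨b, hb, hu⟩)
      · exact ⟨u, hu, by rw [a_self S hz]; simpa using hK⟩
      · exact key' z hz hzW b hb (fun h => hzB (h ▸ hb)) u hu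
    obtain ⟨u0, hu0, h1⟩ := near u hu
    obtain ⟨v0, hv0, h2⟩ := near v hv
    have h3 := hsm z hz hzW u0 hu0 v0 hv0
    have h4 := S.add z hz u0 u v
    have h5 := S.add z hz u0 v0 v
    rw [abs_le] at *
    constructor <;> omega

end Windmill

open Windmill in
theorem windmill {P : Set G} {a : G → G → G → ℤ} {O : G → Set G} {dist : G → G → ℤ} {θ K : ℤ}
    {n : ℕ} (S : RotSys n P a O dist θ K) (hθ : 0 ≤ θ) (hK : 0 ≤ K) (hn : 100 * (θ + K + 1) < n) :
    ∀ g ∈ Subgroup.closure P, g ≠ 1 → ∀ x : G, ∃ h ∈ P, ∃ k : ℤ, k ≠ 0 ∧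
      |a h x (g * x) - k * n| ≤ 20 * (θ + K + 1) := by
  intro g hg h1 x
  obtain ⟨W, hW⟩ := zorn_subset {W | Good P a O θ K n x W} (by
    intro c hc hchain
    rcases c.eq_empty_or_nonempty with rfl | hne
    · exact ⟨∅, good_empty S hθ hK x, by simp⟩
    · exact ⟨⋃₀ c, good_sUnion (fun W hW => hc hW) hchain hne,
        fun W hW => Set.subset_sUnion_of_mem hW⟩)
  have hWg : Good P a O θ K n x W := hW.prop
  have hWP : W = P := by
    by_contra hne
    obtain ⟨z, hzP, hzW⟩ : ∃ z ∈ P, z ∉ W := by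
      by_contra hcon
      push Not at hcon
      exact hne (Set.Subset.antisymm hWg.sub hcon)
    have fin : ∀ B : Set G, Ext P a O θ K n x W B → B.Nonempty → False := by
      rintro B E ⟨b, hb⟩
      have hg' := ext_good S hθ hK hn E
      have h2 : W ⊆ W' W B n := fun w hw => sub_W' W B n (Or.inl hw)
      have h3 := hW.le_of_ge (y := W' W B n) hg' h2
      exact E.Bdisj b hb (h3 (sub_W' W B n (Or.inr hb)))
    by_cases hA : ∃ z, z ∈ P ∧ z ∉ W ∧ ∃ u ∈ U O n x W, ∃ v ∈ U O n x W, 2 * θ < |a z u v|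
    · exact fin _ (extA S hθ hK hWg) hA
    · have hsm : ∀ z ∈ P, z ∉ W → ∀ u ∈ U O n x W, ∀ v ∈ U O n x W, |a z u v| ≤ 2 * θ := by
        intro z hz hzW u hu v hv
        by_contra hcon
        push Not at hcon
        exact hA ⟨z, hz, hzW, u, hu, v, hv, hcon⟩
      -- choose an axis of minimal distance
      obtain ⟨z0, ⟨hz0, hz0W⟩, hmin⟩ : ∃ z0, (z0 ∈ P ∧ z0 ∉ W) ∧
          ∀ z, (z ∈ P ∧ z ∉ W) → (dist x z0).toNat ≤ (dist x z).toNat := by
        have := WellFounded.has_min (measure fun z : G => (dist x z).toNat).wf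
          {z | z ∈ P ∧ z ∉ W} ⟨z, hzP, hzW⟩
        obtain ⟨m, hm, hm2⟩ := this
        exact ⟨m, hm, fun z hz => not_lt.1 (hm2 z hz)⟩
      have hmin' : ∀ z ∈ P, z ∉ W → dist x z0 ≤ dist x z := by
        intro z hz hzW
        have h2 := hmin z ⟨hz, hzW⟩
        have h3 := S.dist_nonneg z hz x
        have h4 := S.dist_nonneg z0 hz0 x
        omega
      exact fin _ (extB S hθ hK hWg hsm hz0 hz0W hmin')
        ⟨z0, 1, Subgroup.one_mem _, by simp⟩
  subst hWP
  obtain ⟨h, hh, k, hk, hb⟩ := hWg.grn g hg h1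
  exact ⟨h, hh, k, hk, by omega⟩

end Pool.Agent.MP_e058c8_al
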