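import Pool.Agent.MP_e058c8_al.Tracks
import Pool.Agent.MP_e058c8_al.Windmill
/-!
Task B: the rotation system of the tracks (`exists_rotSys`) and the Greendlinger property
(`green`).
-/

namespace Pool.Agent.MP_e058c8_al

namespace Rot

variable {G 𝒴 : Type*} [Group G] [MulAction G 𝒴] {P : Subgroup G} {κ : ℕ}
  {d : 𝒴 → 𝒴 → 𝒴 → ℕ} {cr : 𝒴 → 𝒴 → Prop} {cd : 𝒴 → 𝒴 → ℕ} {A : 𝒴} {a h : G}
  {n : ℕ} {z : ℕ → ℤ → 𝒴} {r : ℕ → G}

/-- The track `(g, i)`. -/
def T (z : ℕ → ℤ → 𝒴) (g : G) (i : ℕ) : ℤ → 𝒴 := fun j => g • z i j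

/-- The coordinate on the track `(g, i)`. -/
noncomputable def C (κ : ℕ) (d : 𝒴 → 𝒴 → 𝒴 → ℕ) (z : ℕ → ℤ → 𝒴) (g : G) (i : ℕ) (x : 𝒴) : ℤ :=
  coord κ d (T z g i) x

theorem track_T (hP : Proj P κ d cr cd A a h) (hR : Relators κ d cr n z r) (g : G) (i : ℕ) :
    Track κ d cr (T z g i) := track_smul hP (hR.track i) g

theorem per_nat (hR : Relators κ d cr n z r) (i : ℕ) (j : ℤ) (k : ℕ) :
    z i (j + k * n) = r i ^ k • z i j := by
  induction k with
  | zero => simp
  | succ k ih =>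
    have : j + ((k + 1 : ℕ) : ℤ) * n = (j + k * n) + n := by push_cast; ring
    rw [this, hR.per, ih, ← mul_smul, ← pow_succ']

theorem per_int (hR : Relators κ d cr n z r) (i : ℕ) (j : ℤ) (k : ℤ) :
    z i (j + k * n) = r i ^ k • z i j := by
  rcases Int.eq_nat_or_neg k with ⟨m, rfl | rfl⟩
  · rw [zpow_natCast]
    exact per_nat hR i j m
  · have h1 := per_nat hR i (j + (-(m : ℤ)) * n) m
    have e : j + (-(m : ℤ)) * n + m * n = j := by ring
    rw [e] at h1
    rw [h1, ← zpow_natCast, ← mul_smul, ← zpow_add]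
    simp

theorem T_mul (hR : Relators κ d cr n z r) (g : G) (i : ℕ) (k : ℤ) (j : ℤ) :
    T z (g * r i ^ k) i j = T z g i (j + k * n) := by
  simp only [T]
  rw [mul_smul, per_int hR]

theorem C_smul (hP : Proj P κ d cr cd A a h) (g g' : G) (i : ℕ) (x : 𝒴) :
    C κ d z (g * g') i (g • x) = C κ d z g' i x := by
  have h1 := coord_smul hP (T z g' i) g x
  have h2 : (fun j => g • T z g' i j) = T z (g * g') i := by
    funext j
    simp only [T, mul_smul]
  rw [h2] at h1
  exact h1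

theorem C_mul (hP : Proj P κ d cr cd A a h) (hR : Relators κ d cr n z r) (g : G) (i : ℕ) (k : ℤ)
    (x : 𝒴) : C κ d z (g * r i ^ k) i x = C κ d z g i x - k * n := by
  have h1 := coord_shift hP (track_T hP hR g i) (k * n) x
  have h2 : (fun j => T z g i (j + k * n)) = T z (g * r i ^ k) i := by
    funext j
    rw [T_mul hR]
  rw [h2] at h1
  exact h1

theorem C_rot (hP : Proj P κ d cr cd A a h) (hR : Relators κ d cr n z r) (g : G) (i : ℕ) (x : 𝒴) :
    C κ d z g i ((g * r i * g⁻¹) • x) = C κ d z g i x + n := by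
  refine coord_rot hP (track_T hP hR g i) (fun j => ?_) x
  simp only [T]
  rw [hR.per, ← mul_smul, ← mul_smul]
  congr 1
  group

/-- Two tracks with a long overlap are equal up to shift. -/
theorem key (hP : Proj P κ d cr cd A a h) (hn : 100 < n) (hR : Relators κ d cr n z r) {g g' : G}
    {i i' : ℕ} {s t : ℤ}
    (hst : C κ d z g i (T z g' i' s) + 8 ≤ C κ d z g i (T z g' i' t)) :
    i = i' ∧ ∃ k : ℤ, g' = g * r i ^ k := by
  obtain ⟨ε, hε, c, hc⟩ := match_tracks hP (track_T hP hR g i) (track_T hP hR g' i')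
    (i := s) (i' := t) (by unfold C at hst; omega)
  have hc' : ∀ l : ℤ, 1 ≤ l → l ≤ 7 → T z g i (C κ d z g i (T z g' i' s) + l) =
      T z g' i' (ε * (C κ d z g i (T z g' i' s) + l) + c) := by
    intro l h1 h2
    apply hc
    · change C κ d z g i (T z g' i' s) < _
      omega
    · change _ < C κ d z g i (T z g' i' t)
      omega
  set p := C κ d z g i (T z g' i' s) with hp
  -- turning numbers
  have turn : ∀ l : ℤ, 2 ≤ l → l ≤ 6 → d (z i (p + l)) (z i (p + l - 1)) (z i (p + l + 1)) =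
      d (z i' (ε * (p + l) + c)) (z i' (ε * (p + l) + c - 1)) (z i' (ε * (p + l) + c + 1)) := by
    intro l h1 h2
    rw [← hP.d_smul g (z i (p + l)), ← hP.d_smul g' (z i' (ε * (p + l) + c))]
    change d (T z g i (p + l)) (T z g i (p + l - 1)) (T z g i (p + l + 1)) =
      d (T z g' i' (ε * (p + l) + c)) (T z g' i' (ε * (p + l) + c - 1))
        (T z g' i' (ε * (p + l) + c + 1))
    have e1 : p + l - 1 = p + (l - 1) := by ring
    have e2 : p + l + 1 = p + (l + 1) := by ring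
    rw [e1, e2, hc' l (by omega) (by omega), hc' (l - 1) (by omega) (by omega),
      hc' (l + 1) (by omega) (by omega)]
    rcases hε with rfl | rfl
    · congr 2 <;> ring
    · rw [hP.d_symm]
      congr 2 <;> ring
  obtain ⟨hii, hd2⟩ := hR.turn_inj _ _ _ _ (turn 2 (by omega) (by omega))
  obtain ⟨-, hd3⟩ := hR.turn_inj _ _ _ _ (turn 3 (by omega) (by omega))
  subst hii
  refine ⟨rfl, ?_⟩
  rcases hε with rfl | rfl
  · have hdc : (n : ℤ) ∣ c := by
      have : p + 2 - (1 * (p + 2) + c) = -c := by ring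
      rw [this] at hd2
      exact (dvd_neg.1 hd2)
    obtain ⟨k, hk⟩ := hdc
    refine ⟨-k, ?_⟩
    -- `g⁻¹ * g' * r i ^ k` fixes four consecutive lines
    have fix : ∀ l : ℤ, 1 ≤ l → l ≤ 7 → (g⁻¹ * g' * r i ^ k) • z i (p + l) = z i (p + l) := by
      intro l h1 h2
      have h3 := hc' l h1 h2
      have e : (1 : ℤ) * (p + l) + c = (p + l) + k * n := by rw [hk]; ring
      rw [e] at h3
      simp only [T] at h3
      rw [per_int hR, ← mul_smul] at h3
      rw [mul_assoc, mul_smul, ← h3, inv_smul_smul]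
    have h1 := hP.rigid (g⁻¹ * g' * r i ^ k) (fun l => z i (p + 1 + l)) (by
        intro l hl
        have := fix (1 + l) (by omega) (by omega)
        have e : p + 1 + (l : ℤ) = p + (1 + l) := by ring
        simp only [e]
        exact this) (by
        intro l hl
        have := (hR.track i).cr (p + 1 + l)
        have e : p + 1 + ((l + 1 : ℕ) : ℤ) = p + 1 + l + 1 := by push_cast; ring
        simp only [e]
        exact this) (by
        have := (hR.track i).turn (p + 2)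
        have e0 : p + 1 + ((0 : ℕ) : ℤ) = p + 2 - 1 := by push_cast; ring
        have e1 : p + 1 + ((1 : ℕ) : ℤ) = p + 2 := by push_cast; ring
        have e2 : p + 1 + ((2 : ℕ) : ℤ) = p + 2 + 1 := by push_cast; ring
        simp only [e0, e1, e2]
        omega) (by
        have := (hR.track i).turn (p + 3)
        have e0 : p + 1 + ((1 : ℕ) : ℤ) = p + 3 - 1 := by push_cast; ring
        have e1 : p + 1 + ((2 : ℕ) : ℤ) = p + 3 := by push_cast; ring
        have e2 : p + 1 + ((3 : ℕ) : ℤ) = p + 3 + 1 := by push_cast; ring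
        simp only [e0, e1, e2]
        omega)
    calc g' = g * (g⁻¹ * g' * r i ^ k) * r i ^ (-k) := by group
      _ = g * r i ^ (-k) := by rw [h1]; group
  · exfalso
    have h2 : (n : ℤ) ∣ (p + 3 - (-1 * (p + 3) + c)) - (p + 2 - (-1 * (p + 2) + c)) :=
      dvd_sub hd3 hd2
    have e : (p + 3 - (-1 * (p + 3) + c)) - (p + 2 - (-1 * (p + 2) + c)) = 2 := by ring
    rw [e] at h2
    have := Int.le_of_dvd (by norm_num) h2
    omega

theorem key' (hP : Proj P κ d cr cd A a h) (hn : 100 < n) (hR : Relators κ d cr n z r) {g g' : G}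
    {i i' : ℕ} {s t : ℤ}
    (hst : 8 ≤ |C κ d z g i (T z g' i' t) - C κ d z g i (T z g' i' s)|) :
    i = i' ∧ ∃ k : ℤ, g' = g * r i ^ k := by
  rcases le_abs.1 hst with h1 | h1
  · exact key hP hn hR (s := s) (t := t) (by omega)
  · exact key hP hn hR (s := t) (t := s) (by omega)

/-- Two representations of the same rotation differ by a power of the relator. -/
theorem same (hP : Proj P κ d cr cd A a h) (hn : 100 < n) (hR : Relators κ d cr n z r) {g g' : G}
    {i i' : ℕ} (hu : g * r i * g⁻¹ = g' * r i' * g'⁻¹) : i = i' ∧ ∃ k : ℤ, g' = g * r i ^ k := by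
  have h1 : T z g' i' (0 + n) = (g * r i * g⁻¹) • T z g' i' 0 := by
    simp only [T]
    rw [hu, hR.per, ← mul_smul, ← mul_smul]
    congr 1
    group
  have h2 := C_rot hP hR g i (T z g' i' 0)
  rw [← h1] at h2
  exact key hP hn hR (s := 0) (t := 0 + n) (by omega)

/-- The set of rotations. -/
def RS (r : ℕ → G) : Set G := {u : G | ∃ g i, u = g * r i * g⁻¹}

open Classical in
/-- A chosen pair `(g, i)` representing a rotation. -/
noncomputable def rep (r : ℕ → G) (u : G) : G × ℕ :=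
  if hu : ∃ q : G × ℕ, u = q.1 * r q.2 * q.1⁻¹ then hu.choose else (1, 0)

theorem rep_spec {u : G} (hu : u ∈ RS r) :
    u = (rep r u).1 * r (rep r u).2 * (rep r u).1⁻¹ := by
  obtain ⟨g, i, hgi⟩ := hu
  have hu' : ∃ q : G × ℕ, u = q.1 * r q.2 * q.1⁻¹ := ⟨(g, i), hgi⟩
  have h1 : rep r u = hu'.choose := by rw [rep, dif_pos hu']
  rw [h1]
  exact hu'.choose_spec

theorem mem_RS (g : G) (i : ℕ) : g * r i * g⁻¹ ∈ RS r := ⟨g, i, rfl⟩

theorem conj_RS {u : G} (hu : u ∈ RS r) (g : G) : g * u * g⁻¹ ∈ RS r := by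
  obtain ⟨g', i, rfl⟩ := hu
  exact ⟨g * g', i, by group⟩

/-- coordinate differences -/
noncomputable def cc (κ : ℕ) (d : 𝒴 → 𝒴 → 𝒴 → ℕ) (z : ℕ → ℤ → 𝒴) (r : ℕ → G) (A : 𝒴)
    (u x y : G) : ℤ :=
  C κ d z (rep r u).1 (rep r u).2 (y • A) - C κ d z (rep r u).1 (rep r u).2 (x • A)

/-- the axis -/
def OO (z : ℕ → ℤ → 𝒴) (r : ℕ → G) (A : 𝒴) (u : G) : Set G :=
  {x | ∃ j : ℤ, x • A = T z (rep r u).1 (rep r u).2 j}

/-- the distance to the axis -/
noncomputable def dd (cd : 𝒴 → 𝒴 → ℕ) (z : ℕ → ℤ → 𝒴) (r : ℕ → G) (A : 𝒴) (x u : G) : ℤ :=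
  ((sInf {m : ℕ | ∃ y ∈ OO z r A u, m = cd (x • A) (y • A)} : ℕ) : ℤ)

theorem cc_eq (hP : Proj P κ d cr cd A a h) (hn : 100 < n) (hR : Relators κ d cr n z r) {u : G}
    {g : G} {i : ℕ} (hu : u = g * r i * g⁻¹) (x y : G) :
    cc κ d z r A u x y = C κ d z g i (y • A) - C κ d z g i (x • A) := by
  have hs := rep_spec (r := r) (u := u) ⟨g, i, hu⟩
  obtain ⟨h1, k, hk⟩ := same hP hn hR (hs.symm.trans hu)
  unfold cc
  rw [hk, ← h1, C_mul hP hR, C_mul hP hR]
  ring

theorem mem_OO (hP : Proj P κ d cr cd A a h) (hn : 100 < n) (hR : Relators κ d cr n z r) {u : G}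
    {g : G} {i : ℕ} (hu : u = g * r i * g⁻¹) (x : G) :
    x ∈ OO z r A u ↔ ∃ j : ℤ, x • A = T z g i j := by
  have hs := rep_spec (r := r) (u := u) ⟨g, i, hu⟩
  obtain ⟨h1, k, hk⟩ := same hP hn hR (hs.symm.trans hu)
  constructor
  · rintro ⟨j, hj⟩
    refine ⟨j - k * n, ?_⟩
    rw [hk, ← h1, T_mul hR, hj]
    congr 1
    ring
  · rintro ⟨j, hj⟩
    refine ⟨j + k * n, ?_⟩
    rw [hk, ← h1, T_mul hR] at hj
    exact hj

theorem OO_smul (hP : Proj P κ d cr cd A a h) (hn : 100 < n) (hR : Relators κ d cr n z r) {u : G}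
    (hu : u ∈ RS r) (g x : G) : g * x ∈ OO z r A (g * u * g⁻¹) ↔ x ∈ OO z r A u := by
  have hs := rep_spec hu
  have hs' : g * u * g⁻¹ = (g * (rep r u).1) * r (rep r u).2 * (g * (rep r u).1)⁻¹ := by
    nth_rw 1 [hs]
    group
  rw [mem_OO hP hn hR hs', mem_OO hP hn hR hs]
  constructor
  · rintro ⟨j, hj⟩
    refine ⟨j, ?_⟩
    have : T z (g * (rep r u).1) (rep r u).2 j = g • T z (rep r u).1 (rep r u).2 j := by
      simp only [T, mul_smul]
    rw [this, mul_smul] at hj
    exact smul_left_cancel g hj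
  · rintro ⟨j, hj⟩
    refine ⟨j, ?_⟩
    have : T z (g * (rep r u).1) (rep r u).2 j = g • T z (rep r u).1 (rep r u).2 j := by
      simp only [T, mul_smul]
    rw [this, mul_smul, hj]

theorem OO_nonempty (hP : Proj P κ d cr cd A a h) (u : G) : (OO z r A u).Nonempty := by
  obtain ⟨g, hg⟩ := hP.trans (T z (rep r u).1 (rep r u).2 0)
  exact ⟨g, 0, hg.symm⟩

theorem bdd (hP : Proj P κ d cr cd A a h) (hn : 100 < n) (hR : Relators κ d cr n z r) {u u' : G}
    (hu : u ∈ RS r) (hu' : u' ∈ RS r) (hne : u ≠ u') (s t : ℤ) :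
    |C κ d z (rep r u).1 (rep r u).2 (T z (rep r u').1 (rep r u').2 t) -
      C κ d z (rep r u).1 (rep r u).2 (T z (rep r u').1 (rep r u').2 s)| ≤ 7 := by
  by_contra hcon
  push Not at hcon
  obtain ⟨h1, k, hk⟩ := key' hP hn hR (s := s) (t := t) (Int.add_one_le_iff.2 hcon)
  apply hne
  rw [rep_spec hu, rep_spec hu', hk, ← h1]
  group

theorem bdd_cc (hP : Proj P κ d cr cd A a h) (hn : 100 < n) (hR : Relators κ d cr n z r) {u u' : G}
    (hu : u ∈ RS r) (hu' : u' ∈ RS r) (hne : u ≠ u') {x y : G} (hx : x ∈ OO z r A u')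
    (hy : y ∈ OO z r A u') : |cc κ d z r A u x y| ≤ 7 := by
  obtain ⟨s, hs⟩ := hx
  obtain ⟨t, ht⟩ := hy
  unfold cc
  rw [hs, ht]
  exact bdd hP hn hR hu hu' hne s t

/-- If `x` is far from the track of `u'`, seen from the track of `u`, there is a line of the track
of `u` separating `x` from all the lines of the track of `u'`. -/
theorem far (hP : Proj P κ d cr cd A a h) (hn : 100 < n) (hR : Relators κ d cr n z r) {u u' : G}
    (hu : u ∈ RS r) (hu' : u' ∈ RS r) (hne : u ≠ u') {x y : G} (hy : y ∈ OO z r A u')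
    (hxy : 10 < |cc κ d z r A u x y|) :
    ∃ j : ℤ, x • A ≠ T z (rep r u).1 (rep r u).2 j ∧ ∀ t : ℤ,
      T z (rep r u').1 (rep r u').2 t ≠ T z (rep r u).1 (rep r u).2 j ∧
      κ < d (T z (rep r u).1 (rep r u).2 j) (T z (rep r u').1 (rep r u').2 t) (x • A) := by
  obtain ⟨s, hs⟩ := hy
  unfold cc at hxy
  rw [hs] at hxy
  have hT := track_T hP hR (rep r u).1 (rep r u).2
  rcases lt_abs.1 hxy with h1 | h1
  · -- `C x < C (T' t)`
    have hb : ∀ t : ℤ, C κ d z (rep r u).1 (rep r u).2 (x • A) + 1 <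
        C κ d z (rep r u).1 (rep r u).2 (T z (rep r u').1 (rep r u').2 t) := by
      intro t
      have := abs_le.1 (bdd hP hn hR hu hu' hne s t)
      omega
    have hbb := fun t => big_between hP hT (x := x • A) (y := T z (rep r u').1 (rep r u').2 t)
      (j := C κ d z (rep r u).1 (rep r u).2 (x • A) + 1) (by unfold C; omega) (hb t)
    refine ⟨C κ d z (rep r u).1 (rep r u).2 (x • A) + 1, (hbb 0).1, fun t => ⟨(hbb t).2.1, ?_⟩⟩
    have h2 := (hbb t).2.2
    have h3 := hT.turn (C κ d z (rep r u).1 (rep r u).2 (x • A) + 1)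
    rw [hP.d_symm]
    omega
  · have hb : ∀ t : ℤ, C κ d z (rep r u).1 (rep r u).2 (T z (rep r u').1 (rep r u').2 t) <
        C κ d z (rep r u).1 (rep r u).2 (x • A) - 1 := by
      intro t
      have := abs_le.1 (bdd hP hn hR hu hu' hne s t)
      omega
    have hbb := fun t => big_between hP hT (x := T z (rep r u').1 (rep r u').2 t) (y := x • A)
      (j := C κ d z (rep r u).1 (rep r u).2 (x • A) - 1) (hb t) (by unfold C; omega)
    refine ⟨C κ d z (rep r u).1 (rep r u).2 (x • A) - 1, (hbb 0).2.1, fun t => ⟨(hbb t).1, ?_⟩⟩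
    have h2 := (hbb t).2.2
    have h3 := hT.turn (C κ d z (rep r u).1 (rep r u).2 (x • A) - 1)
    omega

theorem dd_le (x : G) {u y : G} (hy : y ∈ OO z r A u) :
    dd cd z r A x u ≤ cd (x • A) (y • A) := by
  have h1 : sInf {m : ℕ | ∃ y ∈ OO z r A u, m = cd (x • A) (y • A)} ≤ cd (x • A) (y • A) :=
    Nat.sInf_le ⟨y, hy, rfl⟩
  unfold dd
  exact_mod_cast h1

theorem exists_dd (hP : Proj P κ d cr cd A a h) (x u : G) :
    ∃ y ∈ OO z r A u, dd cd z r A x u = cd (x • A) (y • A) := by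
  obtain ⟨y0, hy0⟩ := OO_nonempty (z := z) (r := r) hP u
  have hne : {m : ℕ | ∃ y ∈ OO z r A u, m = cd (x • A) (y • A)}.Nonempty :=
    ⟨_, y0, hy0, rfl⟩
  obtain ⟨y, hy, he⟩ := Nat.sInf_mem hne
  refine ⟨y, hy, ?_⟩
  unfold dd
  exact_mod_cast he

theorem dd_smul (hP : Proj P κ d cr cd A a h) (hn : 100 < n) (hR : Relators κ d cr n z r) {u : G}
    (hu : u ∈ RS r) (g x : G) : dd cd z r A (g * x) (g * u * g⁻¹) = dd cd z r A x u := by
  unfold dd
  congr 2
  ext m
  constructor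
  · rintro ⟨y, hy, rfl⟩
    refine ⟨g⁻¹ * y, ?_, ?_⟩
    · rw [← OO_smul hP hn hR hu g]
      simpa using hy
    · have h1 := hP.cd_smul g (x • A) ((g⁻¹ * y) • A)
      rw [← mul_smul, ← mul_smul, mul_inv_cancel_left] at h1
      exact h1
  · rintro ⟨y, hy, rfl⟩
    refine ⟨g * y, ?_, ?_⟩
    · rwa [OO_smul hP hn hR hu g]
    · rw [mul_smul, mul_smul, hP.cd_smul]

theorem rotSys (hP : Proj P κ d cr cd A a h) (hn : 100 < n) (hR : Relators κ d cr n z r) :
    RotSys n (RS r) (cc κ d z r A) (OO z r A) (dd cd z r A) 10 20 where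
  conj u hu g := conj_RS hu g
  nonempty u _ := OO_nonempty hP u
  add u _ x y w := by unfold cc; ring
  equiv u hu g x y := by
    have hs := rep_spec hu
    have hs' : g * u * g⁻¹ = (g * (rep r u).1) * r (rep r u).2 * (g * (rep r u).1)⁻¹ := by
      nth_rw 1 [hs]
      group
    rw [cc_eq hP hn hR hs', mul_smul, mul_smul, C_smul hP, C_smul hP]
    rfl
  shift u hu x y := by
    have hs := rep_spec hu
    have h1 := C_rot hP hR (rep r u).1 (rep r u).2 (y • A)
    rw [← hs, ← mul_smul] at h1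
    unfold cc
    rw [h1]
    ring
  Oequiv u hu g x hx := by rwa [OO_smul hP hn hR hu]
  bdd u hu u' hu' hne x hx y hy := by
    have := bdd_cc hP hn hR hu hu' hne hx hy
    omega
  beh u hu u' hu' hne x y hy w hw := by
    by_contra hcon
    push Not at hcon
    obtain ⟨h1, h2⟩ := hcon
    obtain ⟨j, hj, hj'⟩ := far hP hn hR hu hu' hne hw h1
    obtain ⟨j', hk, hk'⟩ := far hP hn hR hu' hu (Ne.symm hne) hy h2
    rcases hP.beh (T z (rep r u).1 (rep r u).2 j) (T z (rep r u').1 (rep r u').2 j') (x • A)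
      (hk' j).1 (Ne.symm hj) (Ne.symm hk) with h3 | h3
    · exact absurd h3 (not_le.2 (hk' j).2)
    · exact absurd h3 (not_le.2 (hj' j').2)
  dist_nonneg u _ x := by unfold dd; positivity
  dist_equiv u hu g x := dd_smul hP hn hR hu g x
  sep u hu u' hu' hne x y hy hxy := by
    obtain ⟨y0, hy0, he⟩ := exists_dd (z := z) (r := r) hP x u
    have hb := bdd_cc hP hn hR hu' hu (Ne.symm hne) hy hy0
    have hadd : cc κ d z r A u' x y0 = cc κ d z r A u' x y + cc κ d z r A u' y y0 := by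
      unfold cc; ring
    have hfar : 10 < |cc κ d z r A u' x y0| := by
      rw [hadd]
      rcases lt_abs.1 hxy with h1 | h1
      · have := abs_le.1 hb
        rw [lt_abs]
        left
        omega
      · have := abs_le.1 hb
        rw [lt_abs]
        right
        omega
    have hT := track_T hP hR (rep r u').1 (rep r u').2
    -- a line of the track of `u'` strictly between
    have hex : ∃ j : ℤ, y0 • A ≠ T z (rep r u').1 (rep r u').2 j ∧
        cd (x • A) (y0 • A) = cd (x • A) (T z (rep r u').1 (rep r u').2 j) +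
          cd (T z (rep r u').1 (rep r u').2 j) (y0 • A) := by
      unfold cc at hfar
      rcases lt_abs.1 hfar with h1 | h1
      · have e1 : coord κ d (T z (rep r u').1 (rep r u').2) (x • A) <
            C κ d z (rep r u').1 (rep r u').2 (x • A) + 1 := by unfold C; omega
        have e2 : C κ d z (rep r u').1 (rep r u').2 (x • A) + 1 <
            coord κ d (T z (rep r u').1 (rep r u').2) (y0 • A) := by unfold C at h1 ⊢; omega
        exact ⟨_, (big_between hP hT e1 e2).2.1, split_between hP hT e1 e2⟩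
      · have e1 : coord κ d (T z (rep r u').1 (rep r u').2) (y0 • A) <
            C κ d z (rep r u').1 (rep r u').2 (x • A) - 1 := by unfold C at h1 ⊢; omega
        have e2 : C κ d z (rep r u').1 (rep r u').2 (x • A) - 1 <
            coord κ d (T z (rep r u').1 (rep r u').2) (x • A) := by unfold C; omega
        refine ⟨_, (big_between hP hT e1 e2).1, ?_⟩
        have := split_between hP hT e1 e2
        rw [hP.cd_symm (x • A) (y0 • A), this, add_comm, hP.cd_symm (y0 • A),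
          hP.cd_symm (x • A)]
    obtain ⟨j, hj1, hj2⟩ := hex
    obtain ⟨g, hg⟩ := hP.trans (T z (rep r u').1 (rep r u').2 j)
    have hgO : g ∈ OO z r A u' := ⟨j, hg.symm⟩
    have h1 := dd_le (cd := cd) x hgO
    have h2 := hP.cd_pos _ _ (Ne.symm hj1)
    rw [← hg] at h1
    rw [he, hj2]
    push_cast
    omega

end Rot

section III

variable {G 𝒴 : Type*} [Group G] [MulAction G 𝒴] {P : Subgroup G} {κ : ℕ}
  {d : 𝒴 → 𝒴 → 𝒴 → ℕ} {cr : 𝒴 → 𝒴 → Prop} {cd : 𝒴 → 𝒴 → ℕ} {A : 𝒴} {a h : G}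

theorem exists_rotSys (hP : Proj P κ d cr cd A a h) {n : ℕ} (hn : 100 < n) {z : ℕ → ℤ → 𝒴}
    {r : ℕ → G} (hR : Relators κ d cr n z r) :
    ∃ (c : G → G → G → ℤ) (O : G → Set G) (dist : G → G → ℤ),
      RotSys n {u : G | ∃ g i, u = g * r i * g⁻¹} c O dist 10 20 ∧
      ∀ u ∈ {u : G | ∃ g i, u = g * r i * g⁻¹}, ∃ g i, u = g * r i * g⁻¹ ∧ ∀ x y : G,
        c u x y = coord κ d (fun j => g • z i j) (y • A) - coord κ d (fun j => g • z i j) (x • A) := by
  refine ⟨Rot.cc κ d z r A, Rot.OO z r A, Rot.dd cd z r A, Rot.rotSys hP hn hR, ?_⟩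
  intro u hu
  exact ⟨(Rot.rep r u).1, (Rot.rep r u).2, Rot.rep_spec hu, fun x y => rfl⟩

/-- Greendlinger property (from `exists_rotSys` and `windmill`). -/
theorem green (hP : Proj P κ d cr cd A a h) {n : ℕ} (hn : 4000 < n) {z : ℕ → ℤ → 𝒴}
    {r : ℕ → G} (hR : Relators κ d cr n z r) {u : G}
    (hu : u ∈ Subgroup.normalClosure (Set.range r)) (hu1 : u ≠ 1) (x : 𝒴) :
    ∃ (g : G) (i : ℕ) (k : ℤ), k ≠ 0 ∧
      |coord κ d (fun j => g • z i j) (u • x) - coord κ d (fun j => g • z i j) x - k * n| ≤ 620 := by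
  obtain ⟨c, O, dist, hS, hc⟩ := exists_rotSys hP (n := n) (by omega) hR
  obtain ⟨g0, rfl⟩ := hP.trans x
  have hu' : u ∈ Subgroup.closure {u : G | ∃ g i, u = g * r i * g⁻¹} := by
    have hle : Subgroup.normalClosure (Set.range r) ≤
        Subgroup.closure {u : G | ∃ g i, u = g * r i * g⁻¹} := by
      unfold Subgroup.normalClosure
      apply Subgroup.closure_mono
      intro w hw
      rw [Group.mem_conjugatesOfSet_iff] at hw
      obtain ⟨_, ⟨i, rfl⟩, hw⟩ := hw
      rw [isConj_iff] at hw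
      obtain ⟨g, hg⟩ := hw
      exact ⟨g, i, hg.symm⟩
    exact hle hu
  obtain ⟨v, hv, k, hk, hkn⟩ := windmill hS (by norm_num) (by norm_num)
    (by norm_num; omega) u hu' hu1 g0
  obtain ⟨g, i, -, hgi⟩ := hc v hv
  refine ⟨g, i, k, hk, ?_⟩
  rw [hgi, mul_smul] at hkn
  have e : (20 : ℤ) * (10 + 20 + 1) = 620 := by norm_num
  rw [e] at hkn
  exact hkn

end III

end Pool.Agent.MP_e058c8_al
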