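import Pool.Agent.MP_e058c8_al.Tracks
import Pool.Agent.MP_e058c8_al.Rot
import Pool.Agent.MP_e058c8_al.Relators
/-!
Task D: the centraliser of `P` modulo the relators, and the main theorem for projection systems.
-/

namespace Pool.Agent.MP_e058c8_al

section Main

variable {G 𝒴 : Type*} [Group G] [MulAction G 𝒴] {P : Subgroup G} {κ : ℕ}
  {d : 𝒴 → 𝒴 → 𝒴 → ℕ} {cr : 𝒴 → 𝒴 → Prop} {cd : 𝒴 → 𝒴 → ℕ} {A : 𝒴} {a h : G}

namespace Main

/-- distance of two points of a track -/
theorem cd_track_abs (hP : Proj P κ d cr cd A a h) {z : ℤ → 𝒴} (hz : Track κ d cr z) (i j : ℤ) :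
    (cd (z i) (z j) : ℤ) = |j - i| := by
  rcases le_total i j with hij | hij
  · rw [cd_track hP hz hij, abs_of_nonneg (by omega)]
  · rw [hP.cd_symm, cd_track hP hz hij, abs_of_nonpos (by omega)]
    ring

/-- moving by the rotation does not decrease the distance: bound of the coordinate difference -/
theorem rot_bound (hP : Proj P κ d cr cd A a h) {n : ℕ} {z : ℤ → 𝒴} (hn : 0 < n)
    (hz : Track κ d cr z) {ρ : G} (hρ : ∀ j, z (j + n) = ρ • z j) {x y : 𝒴}
    (h1 : cd x y ≤ cd x (ρ • y)) (h2 : cd x y ≤ cd x (ρ⁻¹ • y)) :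
    2 * |coord κ d z y - coord κ d z x| ≤ n + 10 := by
  set p := coord κ d z x with hp
  set q := coord κ d z y with hq
  by_contra hcon
  push Not at hcon
  have hnZ : (0 : ℤ) < n := by exact_mod_cast hn
  rcases le_total p q with hpq | hpq
  · rw [abs_of_nonneg (by omega)] at hcon
    have e1 : cd x y = cd x (z (p + 1)) + cd (z (p + 1)) y :=
      split_between hP hz (by omega) (by omega)
    have e2 : cd (z (p + 1)) y = cd (z (p + 1)) (z (q - 1)) + cd (z (q - 1)) y :=
      split_between hP hz (by rw [coord_self hP hz]; omega) (by omega)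
    have e3 := cd_track hP hz (i := p + 1) (j := q - 1) (by omega)
    have e4 : ρ⁻¹ • z (q - 1) = z (q - 1 - n) := by
      have := hρ (q - 1 - n)
      rw [sub_add_cancel] at this
      rw [this, inv_smul_smul]
    have e5 : cd x (ρ⁻¹ • y) ≤ cd x (z (p + 1)) + cd (z (p + 1)) (ρ⁻¹ • y) := hP.cd_tri _ _ _
    have e6 : cd (z (p + 1)) (ρ⁻¹ • y) ≤
        cd (z (p + 1)) (z (q - 1 - n)) + cd (z (q - 1 - n)) (ρ⁻¹ • y) := hP.cd_tri _ _ _
    have e7 : cd (z (q - 1 - n)) (ρ⁻¹ • y) = cd (z (q - 1)) y := by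
      rw [← e4, hP.cd_smul]
    have e8 := cd_track_abs hP hz (p + 1) (q - 1 - n)
    have e9 : |q - 1 - n - (p + 1)| < q - 1 - (p + 1) := by
      rw [abs_lt]
      constructor <;> omega
    omega
  · rw [abs_of_nonpos (by omega)] at hcon
    have e1 : cd y x = cd y (z (p - 1)) + cd (z (p - 1)) x :=
      split_between hP hz (by omega) (by omega)
    have e2 : cd y (z (p - 1)) = cd y (z (q + 1)) + cd (z (q + 1)) (z (p - 1)) :=
      split_between hP hz (by omega) (by rw [coord_self hP hz]; omega)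
    have e3 := cd_track hP hz (i := q + 1) (j := p - 1) (by omega)
    have e4 : ρ • z (q + 1) = z (q + 1 + n) := (hρ _).symm
    have e5 : cd (ρ • y) x ≤ cd (ρ • y) (z (q + 1 + n)) + cd (z (q + 1 + n)) x := hP.cd_tri _ _ _
    have e6 : cd (z (q + 1 + n)) x ≤
        cd (z (q + 1 + n)) (z (p - 1)) + cd (z (p - 1)) x := hP.cd_tri _ _ _
    have e7 : cd (ρ • y) (z (q + 1 + n)) = cd y (z (q + 1)) := by
      rw [← e4, hP.cd_smul]
    have e8 := cd_track_abs hP hz (q + 1 + n) (p - 1)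
    have e9 : |p - 1 - (q + 1 + n)| < p - 1 - (q + 1) := by
      rw [abs_lt]
      constructor <;> omega
    have e10 := hP.cd_symm x y
    have e11 := hP.cd_symm x (ρ • y)
    omega

/-- the turning number at a line `A` lying deep between `x` and `y` -/
theorem turn_near (hP : Proj P κ d cr cd A a h) {z : ℤ → 𝒴} (hz : Track κ d cr z) {x y : 𝒴}
    (hx : x ≠ A) (hy : y ≠ A) (h1 : coord κ d z x + 2 ≤ coord κ d z A)
    (h2 : coord κ d z A + 2 ≤ coord κ d z y) (h3 : 5 * κ < d A x y) :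
    d A x y ≤ d (z (coord κ d z A)) (z (coord κ d z A - 1)) (z (coord κ d z A + 1)) + 4 * κ ∧
    d (z (coord κ d z A)) (z (coord κ d z A - 1)) (z (coord κ d z A + 1)) ≤ d A x y + 4 * κ := by
  set s := coord κ d z A with hs
  obtain ⟨b1, b2, b3⟩ := big_between hP hz (x := x) (y := A) (j := s - 1) (by omega) (by omega)
  obtain ⟨c1, c2, c3⟩ := big_between hP hz (x := A) (y := y) (j := s + 1) (by omega) (by omega)
  have t1 := hz.turn (s - 1)
  have t2 := hz.turn (s + 1)
  have f1 : d A (z (s - 1)) x ≤ κ := by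
    rcases hP.beh A (z (s - 1)) x b2 hx.symm b1.symm with hh | hh
    · rw [hP.d_symm] at hh
      omega
    · exact hh
  have f2 : d A (z (s + 1)) y ≤ κ := by
    rcases hP.beh A (z (s + 1)) y c1 hy.symm c2.symm with hh | hh
    · omega
    · exact hh
  have g1 := hP.d_tri A x (z (s - 1)) y hx b2.symm hy
  have g2 := hP.d_tri A (z (s - 1)) (z (s + 1)) y b2.symm c1.symm hy
  have g3 := hP.d_symm A x (z (s - 1))
  have g4 := hP.d_tri A (z (s - 1)) x (z (s + 1)) b2.symm hx c1.symm
  have g5 := hP.d_tri A x y (z (s + 1)) hx hy c1.symm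
  have g6 := hP.d_symm A y (z (s + 1))
  have hA : A = z s := by
    by_contra hne
    have k1 : d A (z (s - 1)) (z s) = 0 := by
      apply hP.d_cr A _ _ _ b2.symm (Ne.symm hne)
      have := hz.cr (s - 1)
      rwa [sub_add_cancel] at this
    have k2 : d A (z s) (z (s + 1)) = 0 := hP.d_cr A _ _ (hz.cr s) (Ne.symm hne) c1.symm
    have k3 := hP.d_tri A (z (s - 1)) (z s) (z (s + 1)) b2.symm (Ne.symm hne) c1.symm
    omega
  rw [← hA]
  omega

/-- conjugate of a relator in the normal closure -/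
theorem rot_mem {r : ℕ → G} (g : G) (i : ℕ) :
    g * r i * g⁻¹ ∈ Subgroup.normalClosure (Set.range r) :=
  (Subgroup.normalClosure_normal (s := Set.range r)).conj_mem _
    (Subgroup.subset_normalClosure (Set.mem_range_self i)) g

/-- Step 1 and 2: some element of the coset fixes `A`. -/
theorem fix_line (hP : Proj P κ d cr cd A a h) {n : ℕ} (hn : 4000 < n) {z : ℕ → ℤ → 𝒴}
    {r : ℕ → G} (hR : Relators κ d cr n z r) (f : G)
    (hf : ∀ p ∈ P, f * p * f⁻¹ * p⁻¹ ∈ Subgroup.normalClosure (Set.range r)) :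
    ∃ ν ∈ Subgroup.normalClosure (Set.range r), (ν * f) • A = A := by
  set N := Subgroup.normalClosure (Set.range r) with hN
  have hNn : N.Normal := Subgroup.normalClosure_normal
  -- minimal representative
  obtain ⟨ν, hν, hmin⟩ : ∃ ν ∈ N, ∀ ν' ∈ N, cd A ((ν * f) • A) ≤ cd A ((ν' * f) • A) := by
    let S : Set ℕ := {m | ∃ ν ∈ N, cd A ((ν * f) • A) = m}
    have hS : S.Nonempty := ⟨_, 1, N.one_mem, rfl⟩
    obtain ⟨ν, hν, he⟩ := Nat.sInf_mem hS
    refine ⟨ν, hν, fun ν' hν' => ?_⟩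
    rw [he]
    exact Nat.sInf_le ⟨ν', hν', rfl⟩
  refine ⟨ν, hν, ?_⟩
  set f1 := ν * f with hf1
  have hcent : ∀ p ∈ P, f1 * p * f1⁻¹ * p⁻¹ ∈ N := by
    intro p hp
    have e : f1 * p * f1⁻¹ * p⁻¹ = (ν * (f * p * f⁻¹ * p⁻¹) * ν⁻¹) * (ν * (p * ν⁻¹ * p⁻¹)) := by
      rw [hf1]; group
    rw [e]
    exact N.mul_mem (hNn.conj_mem _ (hf p hp) ν)
      (N.mul_mem hν (hNn.conj_mem _ (N.inv_mem hν) p))
  -- Step 1
  have step1 : ∀ (g : G) (i : ℕ), 2 * |coord κ d (fun j => g • z i j) (f1 • A) -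
      coord κ d (fun j => g • z i j) A| ≤ n + 10 := by
    intro g i
    have hz := track_smul hP (hR.track i) g
    have hρ : ∀ j : ℤ, (fun j => g • z i j) (j + n) = (g * r i * g⁻¹) • (fun j => g • z i j) j := by
      intro j
      simp only
      rw [hR.per i j, smul_smul, smul_smul]
      congr 1
      group
    apply rot_bound hP (by omega) hz hρ
    · have := hmin (g * r i * g⁻¹ * ν) (N.mul_mem (rot_mem g i) hν)
      rw [mul_assoc (g * r i * g⁻¹) ν f, mul_smul (g * r i * g⁻¹) (ν * f)] at this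
      exact this
    · have := hmin ((g * r i * g⁻¹)⁻¹ * ν) (N.mul_mem (N.inv_mem (rot_mem g i)) hν)
      rw [mul_assoc (g * r i * g⁻¹)⁻¹ ν f, mul_smul (g * r i * g⁻¹)⁻¹ (ν * f)] at this
      exact this
  -- Step 2
  by_contra hne
  set X := f1⁻¹ • A with hX
  have hXA : X ≠ A := by
    intro h0
    apply hne
    rw [hX, inv_smul_eq_iff] at h0
    exact h0.symm
  have haA : ∀ e : ℕ, a ^ e • A = A := by
    intro e
    induction e with
    | zero => simp
    | succ e ih => rw [pow_succ, mul_smul, hP.a_fix, ih]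
  have haX : ∀ e : ℕ, a ^ e • X ≠ A := by
    intro e h0
    apply hXA
    rw [← haA e] at h0
    exact smul_left_cancel _ h0
  have hdinv : ∀ (e : ℕ) (y w : 𝒴), d A (a ^ e • y) (a ^ e • w) = d A y w := by
    intro e y w
    conv_lhs => rw [← haA e]
    exact hP.d_smul _ _ _ _
  -- F
  have hF0 : d A X (a ^ 0 • X) = 0 := by simp [hP.d_self]
  have hFs : ∀ e : ℕ, d A X (a ^ (e + 1) • X) ≤ d A X (a ^ e • X) + 2 * κ := by
    intro e
    have h1 := hP.d_tri A X (a ^ e • X) (a ^ (e + 1) • X) hXA (haX e) (haX (e + 1))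
    have h2 : d A (a ^ e • X) (a ^ (e + 1) • X) = d A X (a • X) := by
      rw [pow_succ, mul_smul]
      exact hdinv e X (a • X)
    have h3 := hP.step X hXA
    omega
  obtain ⟨D, hD1, hD2⟩ := hR.gap
  have hex : ∃ e : ℕ, D 0 + 5 * κ + 5 ≤ d A X (a ^ e • X) := hP.grow X hXA _
  classical
  obtain ⟨e, he1, he2⟩ : ∃ e : ℕ, D 0 + 5 * κ + 5 ≤ d A X (a ^ e • X) ∧
      d A X (a ^ e • X) ≤ D 0 + 7 * κ + 5 := by
    refine ⟨Nat.find hex, Nat.find_spec hex, ?_⟩
    rcases Nat.eq_zero_or_pos (Nat.find hex) with h0 | h0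
    · have := Nat.find_spec hex
      rw [h0, hF0] at this
      omega
    · have h1 := Nat.find_min hex (m := Nat.find hex - 1) (by omega)
      have h2 := hFs (Nat.find hex - 1)
      rw [Nat.sub_add_cancel h0] at h2
      omega
  have hDmono : ∀ t, 1 ≤ t → D 0 + (20 * κ + 20) ≤ D t := by
    intro t ht
    induction t, ht using Nat.le_induction with
    | base => exact hD1 0
    | succ t ht ih => have := hD1 t; omega
  have hnot : ∀ i j, ¬ (d A X (a ^ e • X) ≤ d (z i j) (z i (j - 1)) (z i (j + 1)) + 4 * κ ∧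
      d (z i j) (z i (j - 1)) (z i (j + 1)) ≤ d A X (a ^ e • X) + 4 * κ) := by
    rintro i j ⟨h1, h2⟩
    obtain ⟨t, ht⟩ := hD2 i j
    rw [ht] at h1 h2
    rcases Nat.eq_zero_or_pos t with h0 | h0
    · rw [h0] at h1
      omega
    · have := hDmono t h0
      omega
  -- v
  set v := a ^ e * f1⁻¹ * (a ^ e)⁻¹ * f1 with hv
  have hvN : v ∈ N := by
    have h1 := hNn.conj_mem _ (hcent (a ^ e) (P.pow_mem hP.a_mem e)) f1⁻¹
    have h2 : f1⁻¹ * (f1 * a ^ e * f1⁻¹ * (a ^ e)⁻¹) * f1⁻¹⁻¹ = v := by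
      rw [hv]; group
    rwa [h2] at h1
  have hvX : v • X = a ^ e • X := by
    rw [hv, hX, mul_smul, mul_smul, mul_smul, smul_inv_smul]
    congr 2
    rw [inv_smul_eq_iff, haA]
  have hv1 : v ≠ 1 := by
    intro h0
    rw [h0, one_smul] at hvX
    rw [← hvX, hP.d_self] at he1
    omega
  obtain ⟨g, i, k, hk, hg⟩ := green hP hn hR hvN hv1 X
  rw [hvX] at hg
  -- coordinates
  have hcX : 2 * |coord κ d (fun j => g • z i j) A - coord κ d (fun j => g • z i j) X| ≤ n + 10 := by
    have h1 := step1 (f1 * g) i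
    have h2 : coord κ d (fun j => (f1 * g) • z i j) (f1 • A) =
        coord κ d (fun j => g • z i j) A := by
      have := coord_smul hP (fun j => g • z i j) f1 A
      simp only [smul_smul] at this
      exact this
    have h3 : coord κ d (fun j => (f1 * g) • z i j) A = coord κ d (fun j => g • z i j) X := by
      have := coord_smul hP (fun j => g • z i j) f1 X
      rw [hX] at this
      simp only [smul_smul, mul_inv_cancel, one_smul] at this
      exact this
    rwa [h2, h3] at h1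
  have hcX2 : 2 * |coord κ d (fun j => g • z i j) A -
      coord κ d (fun j => g • z i j) (a ^ e • X)| ≤ n + 10 := by
    have h1 := step1 (f1 * (a ^ e)⁻¹ * g) i
    have h2 : coord κ d (fun j => (f1 * (a ^ e)⁻¹ * g) • z i j) (f1 • A) =
        coord κ d (fun j => g • z i j) A := by
      have := coord_smul hP (fun j => g • z i j) (f1 * (a ^ e)⁻¹) A
      simp only [smul_smul] at this
      rw [mul_smul f1 (a ^ e)⁻¹ A] at this
      have h4 : (a ^ e)⁻¹ • A = A := by rw [inv_smul_eq_iff, haA]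
      rw [h4] at this
      exact this
    have h3 : coord κ d (fun j => (f1 * (a ^ e)⁻¹ * g) • z i j) A =
        coord κ d (fun j => g • z i j) (a ^ e • X) := by
      have := coord_smul hP (fun j => g • z i j) (f1 * (a ^ e)⁻¹) (a ^ e • X)
      simp only [smul_smul] at this
      have h4 : (f1 * (a ^ e)⁻¹ * a ^ e) • X = A := by
        rw [hX, smul_smul]
        have : f1 * (a ^ e)⁻¹ * a ^ e * f1⁻¹ = 1 := by group
        rw [this, one_smul]
      rw [h4] at this
      exact this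
    rwa [h2, h3] at h1
  have hz := track_smul hP (hR.track i) g
  have hzz : ∀ s : ℤ, d ((fun j => g • z i j) s) ((fun j => g • z i j) (s - 1))
      ((fun j => g • z i j) (s + 1)) = d (z i s) (z i (s - 1)) (z i (s + 1)) := by
    intro s
    exact hP.d_smul _ _ _ _
  have hnZ : (4000 : ℤ) < n := by exact_mod_cast hn
  have hkn : (n : ℤ) ≤ |k * n| := by
    rw [abs_mul, Nat.abs_cast]
    have : 1 ≤ |k| := Int.one_le_abs hk
    nlinarith
  rw [abs_le] at hg
  set cA := coord κ d (fun j => g • z i j) A with hcA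
  set cX := coord κ d (fun j => g • z i j) X with hcXd
  set cY := coord κ d (fun j => g • z i j) (a ^ e • X) with hcY
  have hm1 : |cA - cX| * 2 ≤ n + 10 := by linarith
  have hm2 : |cA - cY| * 2 ≤ n + 10 := by linarith
  have hb1 := abs_le.1 (show |cA - cX| ≤ (n + 10) / 2 by omega)
  have hb2 := abs_le.1 (show |cA - cY| ≤ (n + 10) / 2 by omega)
  rcases le_abs.1 hkn with hk1 | hk1
  · -- forward
    have h5 := turn_near hP hz (x := X) (y := a ^ e • X) hXA (haX e) (by omega) (by omega)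
      (by omega)
    rw [hzz] at h5
    exact hnot i _ h5
  · have h5 := turn_near hP hz (x := a ^ e • X) (y := X) (haX e) hXA (by omega) (by omega)
      (by rw [hP.d_symm]; omega)
    rw [hzz, hP.d_symm A (a ^ e • X) X] at h5
    exact hnot i _ h5

/-- fixing an arbitrary line -/
theorem fix_any (hP : Proj P κ d cr cd A a h) {n : ℕ} (hn : 4000 < n) {z : ℕ → ℤ → 𝒴}
    {r : ℕ → G} (hR : Relators κ d cr n z r) (f : G)
    (hf : ∀ p ∈ P, f * p * f⁻¹ * p⁻¹ ∈ Subgroup.normalClosure (Set.range r)) (Y : 𝒴) :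
    ∃ ν ∈ Subgroup.normalClosure (Set.range r), (ν * f) • Y = Y := by
  obtain ⟨g, rfl⟩ := hP.trans Y
  have hNn : (Subgroup.normalClosure (Set.range r)).Normal := Subgroup.normalClosure_normal
  obtain ⟨ν, hν, he⟩ := fix_line hP hn hR (g⁻¹ * f * g) (by
    intro p hp
    have h1 := hNn.conj_mem _ (hf (g * p * g⁻¹) (hP.normal.conj_mem p hp g)) g⁻¹
    have e : g⁻¹ * (f * (g * p * g⁻¹) * f⁻¹ * (g * p * g⁻¹)⁻¹) * g⁻¹⁻¹ =
        g⁻¹ * f * g * p * (g⁻¹ * f * g)⁻¹ * p⁻¹ := by group
    rwa [e] at h1)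
  refine ⟨g * ν * g⁻¹, hNn.conj_mem _ hν g, ?_⟩
  have e : g * ν * g⁻¹ * f * g = g * (ν * (g⁻¹ * f * g)) := by group
  rw [smul_smul, e, mul_smul, he]

end Main

theorem centralizer (hP : Proj P κ d cr cd A a h) {n : ℕ} (hn : 4000 < n) {z : ℕ → ℤ → 𝒴}
    {r : ℕ → G} (hR : Relators κ d cr n z r) (f : G)
    (hf : ∀ p ∈ P, f * p * f⁻¹ * p⁻¹ ∈ Subgroup.normalClosure (Set.range r)) :
    f ∈ Subgroup.normalClosure (Set.range r) := by
  set N := Subgroup.normalClosure (Set.range r) with hN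
  have hNn : N.Normal := Subgroup.normalClosure_normal
  have hnZ : (4000 : ℤ) < n := by exact_mod_cast hn
  -- neighbouring lines have the same element
  have key : ∀ X X' : 𝒴, cr X X' → ∀ ν ∈ N, ∀ ν' ∈ N, (ν * f) • X = X → (ν' * f) • X' = X' →
      ν * f = ν' * f := by
    intro X X' hcr ν hν ν' hν' h1 h2
    set F := ν * f with hF
    set F' := ν' * f with hF'
    by_contra hne
    have hvN : F⁻¹ * F' ∈ N := by
      have := hNn.conj_mem _ (N.mul_mem (N.inv_mem hν) hν') f⁻¹
      have e : f⁻¹ * (ν⁻¹ * ν') * f⁻¹⁻¹ = F⁻¹ * F' := by rw [hF, hF']; group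
      rwa [e] at this
    have hv1 : F⁻¹ * F' ≠ 1 := by
      intro h0
      apply hne
      rwa [inv_mul_eq_one] at h0
    obtain ⟨g, i, k, hk, hg⟩ := green hP hn hR hvN hv1 X
    have hz := track_smul hP (hR.track i) g
    have c1 : cr (F⁻¹ • X') ((F⁻¹ * F') • X) := by
      have := hP.cr_smul F' X' X (hP.cr_symm _ _ hcr)
      rw [h2] at this
      have := hP.cr_smul F⁻¹ _ _ this
      rwa [smul_smul] at this
    have c2 : cr X (F⁻¹ • X') := by
      have := hP.cr_smul F⁻¹ X X' hcr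
      have e : F⁻¹ • X = X := by rw [inv_smul_eq_iff, h1]
      rwa [e] at this
    have l1 := coord_lip hP hz c1
    have l2 := coord_lip hP hz c2
    have hkn : (n : ℤ) ≤ |k * n| := by
      rw [abs_mul, Nat.abs_cast]
      have : 1 ≤ |k| := Int.one_le_abs hk
      nlinarith
    rw [abs_le] at hg l1 l2
    rcases le_abs.1 hkn with hk1 | hk1 <;> omega
  have hz := hR.track 0
  choose ν hν hfix using fun j : ℤ => Main.fix_any hP hn hR f hf (z 0 j)
  have h01 : ν 0 * f = ν 1 * f := key _ _ (hz.cr 0) _ (hν 0) _ (hν 1) (hfix 0) (hfix 1)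
  have h12 : ν 1 * f = ν 2 * f := key _ _ (hz.cr 1) _ (hν 1) _ (hν 2) (hfix 1) (hfix 2)
  have h23 : ν 2 * f = ν 3 * f := key _ _ (hz.cr 2) _ (hν 2) _ (hν 3) (hfix 2) (hfix 3)
  have hone : ν 0 * f = 1 := by
    apply hP.rigid (ν 0 * f) (fun i : ℕ => z 0 i)
    · intro i hi
      interval_cases i
      · exact hfix 0
      · rw [h01]; exact hfix 1
      · rw [h01, h12]; exact hfix 2
      · rw [h01, h12, h23]; exact hfix 3
    · intro i _
      have := hz.cr i
      simpa using this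
    · have := hz.turn 1
      norm_num at this ⊢
      omega
    · have := hz.turn 2
      norm_num at this ⊢
      omega
  have : f = (ν 0)⁻¹ := eq_inv_of_mul_eq_one_right hone
  rw [this]
  exact N.inv_mem (hν 0)

theorem main_of_proj [Countable G] (hP : Proj P κ d cr cd A a h) (L : Subgroup G) (hL : L.Normal)
    (hPL : P ≤ L) : ∃ N : Subgroup G, N.Normal ∧ N ≤ L ∧ L ≤ N ⊔ P ∧
      ∀ f : G, (∀ p ∈ P, f * p * f⁻¹ * p⁻¹ ∈ N) → f ∈ N := by
  have : Nonempty L := ⟨1⟩
  obtain ⟨l, hl⟩ := exists_surjective_nat L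
  choose p hpP hp using fun i : ℕ => hP.tch (l i : G)
  obtain ⟨z, r, hR, hr⟩ := exists_relators hP 5000 (by norm_num) (fun i => p i * (l i : G))
    (fun i => by rw [mul_smul]; exact hp i)
  have hNn : (Subgroup.normalClosure (Set.range r)).Normal := Subgroup.normalClosure_normal
  refine ⟨Subgroup.normalClosure (Set.range r), hNn, ?_, ?_, ?_⟩
  · have := hL
    apply Subgroup.normalClosure_le_normal
    rintro _ ⟨i, rfl⟩
    have h1 := L.mul_mem (hPL (hr i)) (L.mul_mem (hPL (hpP i)) (l i).2)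
    rwa [inv_mul_cancel_right] at h1
  · intro x hx
    obtain ⟨i, hi⟩ := hl ⟨x, hx⟩
    have e : x = (p i)⁻¹ * ((r i * (p i * (l i : G))⁻¹)⁻¹ * r i) := by
      rw [hi]; group
    rw [e]
    apply Subgroup.mul_mem
    · exact Subgroup.mem_sup_right (P.inv_mem (hpP i))
    · apply Subgroup.mul_mem
      · exact Subgroup.mem_sup_right (P.inv_mem (hr i))
      · exact Subgroup.mem_sup_left (Subgroup.subset_normalClosure (Set.mem_range_self i))
  · intro f hf
    exact centralizer hP (by norm_num) hR f hf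

end Main

end Pool.Agent.MP_e058c8_al
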