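import Pool.Agent.MP_e058c8_al.ProjDefs
import Pool.Agent.MP_e058c8_al.CycR

/-! Base lemmas for Task G. -/

namespace Pool.Agent.MP_e058c8_al

open scoped Pointwise

variable {G : Type*} {E : Type*} [Group G] [MulAction G E] {P : Subgroup G}
  {sb : E → E → E → Prop} {at' : G → E} {a : G}

theorem smul_Ln (hC : CS P sb at') (g : G) {p : G} (hp : p ∈ P) (h1 : p ≠ 1) :
    g • Ln at' p = Ln at' (g * p * g⁻¹) := by
  have e : (g * p * g⁻¹)⁻¹ = g * p⁻¹ * g⁻¹ := by group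
  unfold Ln
  rw [Set.smul_set_insert, Set.smul_set_singleton, hC.smul_at g p hp h1,
    hC.smul_at g p⁻¹ (P.inv_mem hp) (inv_ne_one.2 h1), e]

/-- at most the generator of the stabiliser matters -/
theorem at_root (hC : CS P sb at') {r : G} (hr : r ∈ P) (hr1 : r ≠ 1) {p : G} (hp1 : p ≠ 1)
    (hpr : p ∈ Subgroup.zpowers r) (h : at' p = at' r) : at' p⁻¹ = at' r⁻¹ := by
  obtain ⟨k, rfl⟩ := Subgroup.mem_zpowers_iff.1 hpr
  rcases lt_trichotomy k 0 with hk | hk | hk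
  · exfalso
    obtain ⟨n, hn⟩ : ∃ n : ℕ, k = -(n : ℤ) := ⟨k.natAbs, by omega⟩
    have hn0 : 0 < n := by omega
    have e : r ^ k = (r⁻¹) ^ n := by rw [hn, zpow_neg, zpow_natCast, inv_pow]
    have h2 := hC.at_pow r⁻¹ (P.inv_mem hr) (inv_ne_one.2 hr1) n hn0
    rw [← e, h] at h2
    exact hC.at_ne r hr hr1 h2.symm
  · subst hk
    simp at hp1
  · obtain ⟨n, hn⟩ : ∃ n : ℕ, k = (n : ℤ) := ⟨k.natAbs, by omega⟩
    have hn0 : 0 < n := by omega
    have e : (r ^ k)⁻¹ = (r⁻¹) ^ n := by rw [hn, zpow_natCast, inv_pow]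
    rw [e, hC.at_pow r⁻¹ (P.inv_mem hr) (inv_ne_one.2 hr1) n hn0]

theorem smul_at_self (hC : CS P sb at') {p : G} (hp : p ∈ P) (hp1 : p ≠ 1) : p • at' p = at' p := by
  rw [hC.smul_at p p hp hp1]
  congr 1
  group

theorem at_inv_eq (hC : CS P sb at') {p q : G} (hp : p ∈ P) (hp1 : p ≠ 1) (hq : q ∈ P)
    (hq1 : q ≠ 1) (h : at' p = at' q) : at' p⁻¹ = at' q⁻¹ := by
  obtain ⟨r, hr, hr1, hrp, hrs⟩ := hC.root p hp hp1
  have h1 : p ∈ Subgroup.zpowers r := hrs p hp (smul_at_self hC hp hp1)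
  have h2 : q ∈ Subgroup.zpowers r := hrs q hq (by rw [h]; exact smul_at_self hC hq hq1)
  rw [at_root hC hr hr1 hp1 h1 hrp.symm, at_root hC hr hr1 hq1 h2 (by rw [← h, hrp])]

/-- every line is the axis of a conjugate of `a` -/
theorem line_eq (hC : CS P sb at') (ha : Filling P sb at' a) (Y : Lines G at' a) :
    ∃ g : G, Y = g • baseLine G at' a ∧ Y.1 = Ln at' (g * a * g⁻¹) := by
  obtain ⟨Y, g, hg⟩ := Y
  have hg' : g • Ln at' a = Y := hg
  refine ⟨g, ?_, ?_⟩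
  · apply Subtype.ext
    exact hg'.symm
  · show Y = _
    rw [← hg', smul_Ln hC g ha.mem ha.ne]

theorem conj_mem (hC : CS P sb at') {p : G} (hp : p ∈ P) (g : G) : g * p * g⁻¹ ∈ P :=
  hC.normal.conj_mem p hp g

theorem conj_ne {p : G} (hp : p ≠ 1) (g : G) : g * p * g⁻¹ ≠ 1 := by
  intro h
  apply hp
  have : p = g⁻¹ * (g * p * g⁻¹) * g := by group
  rw [this, h]
  group

/-- a line has exactly two points -/
theorem line_pair (hC : CS P sb at') (ha : Filling P sb at' a) (Y : Lines G at' a) :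
    ∃ u v : E, u ≠ v ∧ Y.1 = {u, v} := by
  obtain ⟨g, -, h⟩ := line_eq hC ha Y
  exact ⟨_, _, hC.at_ne _ (conj_mem hC ha.mem g) (conj_ne ha.ne g), h⟩

theorem Ln_inv (p : G) : Ln at' p⁻¹ = Ln at' p := by
  unfold Ln
  rw [inv_inv, Set.pair_comm]

/-- a point of an axis is the attracting point of `p` or `p⁻¹`; lines with a common point are
equal -/
theorem Ln_eq_of_mem (hC : CS P sb at') {p q : G} (hp : p ∈ P) (hp1 : p ≠ 1) (hq : q ∈ P)
    (hq1 : q ≠ 1) {x : E} (hx : x ∈ Ln at' p) (hy : x ∈ Ln at' q) : Ln at' p = Ln at' q := by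
  have key : ∀ p q : G, p ∈ P → p ≠ 1 → q ∈ P → q ≠ 1 → at' p = at' q → Ln at' p = Ln at' q := by
    intro p q hp hp1 hq hq1 h
    unfold Ln
    rw [h, at_inv_eq hC hp hp1 hq hq1 h]
  have hx' : x = at' p⁻¹ ∨ x = at' p := hx
  have hy' : x = at' q⁻¹ ∨ x = at' q := hy
  rcases hx' with hx' | hx' <;> rcases hy' with hy' | hy'
  · have := key p⁻¹ q⁻¹ (P.inv_mem hp) (inv_ne_one.2 hp1) (P.inv_mem hq) (inv_ne_one.2 hq1)
      (hx'.symm.trans hy')
    rwa [Ln_inv, Ln_inv] at this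
  · have := key p⁻¹ q (P.inv_mem hp) (inv_ne_one.2 hp1) hq hq1 (hx'.symm.trans hy')
    rwa [Ln_inv] at this
  · have := key p q⁻¹ hp hp1 (P.inv_mem hq) (inv_ne_one.2 hq1) (hx'.symm.trans hy')
    rwa [Ln_inv] at this
  · exact key p q hp hp1 hq hq1 (hx'.symm.trans hy')

/-- lines with a common point are equal -/
theorem line_disj (hC : CS P sb at') (ha : Filling P sb at' a) {X Y : Lines G at' a} {x : E}
    (hx : x ∈ X.1) (hy : x ∈ Y.1) : X = Y := by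
  obtain ⟨g, -, hg⟩ := line_eq hC ha X
  obtain ⟨g', -, hg'⟩ := line_eq hC ha Y
  apply Subtype.ext
  rw [hg, hg']
  rw [hg] at hx
  rw [hg'] at hy
  exact Ln_eq_of_mem hC (conj_mem hC ha.mem g) (conj_ne ha.ne g) (conj_mem hC ha.mem g')
    (conj_ne ha.ne g') hx hy

theorem crS_smul (hC : CS P sb at') (g : G) {S T : Set E} (h : CrS sb S T) :
    CrS sb (g • S) (g • T) := by
  obtain ⟨u, hu, v, hv, s, hs, t, ht, h⟩ := h
  exact ⟨g • u, Set.smul_mem_smul_set hu, g • v, Set.smul_mem_smul_set hv, g • s,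
    Set.smul_mem_smul_set hs, g • t, Set.smul_mem_smul_set ht, hC.crG g _ _ _ _ h⟩

theorem sepS_smul (hC : CS P sb at') (g : G) {V X Z : Set E} (h : SepS sb V X Z) :
    SepS sb (g • V) (g • X) (g • Z) := by
  obtain ⟨u, hu, v, hv, h⟩ := h
  refine ⟨g • u, Set.smul_mem_smul_set hu, g • v, Set.smul_mem_smul_set hv, ?_⟩
  rintro _ ⟨s, hs, rfl⟩ _ ⟨t, ht, rfl⟩
  exact hC.crG g _ _ _ _ (h s hs t ht)

theorem crS_symm (hC : CS P sb at') {S T : Set E} (h : CrS sb S T) : CrS sb T S := by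
  have := hC.toCS0.countable
  obtain ⟨u, hu, v, hv, s, hs, t, ht, h⟩ := h
  exact ⟨s, hs, t, ht, u, hu, v, hv, h.symm hC.cyc⟩

theorem sepS_symm {V X Z : Set E} (h : SepS sb V X Z) : SepS sb V Z X := by
  obtain ⟨u, hu, v, hv, h⟩ := h
  exact ⟨u, hu, v, hv, fun s hs t ht => (h t ht s hs).swap₂⟩

/-- `CrS` for pairs -/
theorem crS_pair (hC : CS P sb at') {x y z w : E} (h : CrS sb {x, y} {z, w}) : Cr sb x y z w := by
  have := hC.toCS0.countable
  obtain ⟨u, hu, v, hv, s, hs, t, ht, h⟩ := h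
  have hne := h.ne hC.cyc
  have hu' : u = x ∨ u = y := hu
  have hv' : v = x ∨ v = y := hv
  have hs' : s = z ∨ s = w := hs
  have ht' : t = z ∨ t = w := ht
  rcases hu' with rfl | rfl <;> rcases hv' with rfl | rfl <;> rcases hs' with rfl | rfl <;>
    rcases ht' with rfl | rfl <;> first
    | exact h
    | exact h.swap₁
    | exact h.swap₂
    | exact h.swap₁.swap₂
    | exact absurd rfl hne.1
    | exact absurd rfl hne.2.2.2.2.2

theorem crS_of_pair {x y z w : E} (h : Cr sb x y z w) : CrS sb {x, y} {z, w} :=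
  ⟨x, by simp, y, by simp, z, by simp, w, by simp, h⟩

theorem sepS_pair (hC : CS P sb at') {x y z w s t : E} (h : SepS sb {x, y} {z, w} {s, t}) :
    Cr sb x y z s ∧ Cr sb x y z t ∧ Cr sb x y w s ∧ Cr sb x y w t := by
  have := hC.toCS0.countable
  obtain ⟨u, hu, v, hv, h⟩ := h
  have h1 := h z (by simp) s (by simp)
  have h2 := h z (by simp) t (by simp)
  have h3 := h w (by simp) s (by simp)
  have h4 := h w (by simp) t (by simp)
  have hne := h1.ne hC.cyc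
  have hu' : u = x ∨ u = y := hu
  have hv' : v = x ∨ v = y := hv
  rcases hu' with rfl | rfl <;> rcases hv' with rfl | rfl
  · exact absurd rfl hne.1
  · exact ⟨h1, h2, h3, h4⟩
  · exact ⟨h1.swap₁, h2.swap₁, h3.swap₁, h4.swap₁⟩
  · exact absurd rfl hne.1

theorem sepS_of_pair {x y z w s t : E} (h1 : Cr sb x y z s) (h2 : Cr sb x y z t)
    (h3 : Cr sb x y w s) (h4 : Cr sb x y w t) : SepS sb {x, y} {z, w} {s, t} := by
  refine ⟨x, by simp, y, by simp, ?_⟩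
  intro p hp q hq
  have hp' : p = z ∨ p = w := hp
  have hq' : q = s ∨ q = t := hq
  rcases hp' with rfl | rfl <;> rcases hq' with rfl | rfl <;> assumption

theorem crS_ne (hC : CS P sb at') (ha : Filling P sb at' a) {X Y : Lines G at' a}
    (h : CrS sb X.1 Y.1) : X ≠ Y := by
  have := hC.toCS0.countable
  rintro rfl
  obtain ⟨u, v, -, hX⟩ := line_pair hC ha X
  rw [hX] at h
  have h1 := crS_pair hC h
  have := h1.ne hC.cyc
  exact this.2.1 rfl

/-- distinct lines have four different end points -/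
theorem pair_ne (hC : CS P sb at') (ha : Filling P sb at' a) {X Y : Lines G at' a} (h : X ≠ Y)
    {x x' y y' : E} (hX : X.1 = {x, x'}) (hY : Y.1 = {y, y'}) :
    x ≠ y ∧ x ≠ y' ∧ x' ≠ y ∧ x' ≠ y' := by
  have mx : x ∈ X.1 := by rw [hX]; simp
  have mx' : x' ∈ X.1 := by rw [hX]; simp
  have my : y ∈ Y.1 := by rw [hY]; simp
  have my' : y' ∈ Y.1 := by rw [hY]; simp
  refine ⟨?_, ?_, ?_, ?_⟩ <;> rintro rfl
  · exact h (line_disj hC ha mx my)
  · exact h (line_disj hC ha mx my')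
  · exact h (line_disj hC ha mx' my)
  · exact h (line_disj hC ha mx' my')

theorem sep_third (hC : CS P sb at') (ha : Filling P sb at' a) {V X Z U : Lines G at' a}
    (h : SepS sb V.1 X.1 Z.1) (h1 : U ≠ V) (h2 : ¬ CrS sb V.1 U.1) :
    SepS sb V.1 X.1 U.1 ∨ SepS sb V.1 U.1 Z.1 := by
  have := hC.toCS0.countable
  obtain ⟨v, v', hv, hV⟩ := line_pair hC ha V
  obtain ⟨u, u', hu, hU⟩ := line_pair hC ha U
  obtain ⟨x, x', hx, hX⟩ := line_pair hC ha X
  obtain ⟨z, z', hz, hZ⟩ := line_pair hC ha Z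
  have hne := pair_ne hC ha h1 hU hV
  rw [hV, hX, hZ] at h
  have h3 := sepS_pair hC h
  have h4 : ¬ Cr sb v v' u u' := fun hh => h2 (by rw [hV, hU]; exact crS_of_pair hh)
  rw [hV, hX, hZ, hU]
  obtain ⟨n1, n2, n3, n4⟩ := hne
  obtain ⟨s1, s2, s3, s4⟩ := h3
  clear h h1 h2 hV hU hX hZ
  rcases s1.third hC.cyc n1 n2 with h5 | h5
  · left
    obtain ⟨ρ_, hinj_, hr_⟩ := CycOrd.rk hC.cyc
    apply sepS_of_pair <;> simp only [Cr, ne_eq, hinj_, hr_] at * <;> clear hinj_ hr_ <;> grind (splits := 40)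
  · right
    obtain ⟨ρ_, hinj_, hr_⟩ := CycOrd.rk hC.cyc
    apply sepS_of_pair <;> simp only [Cr, ne_eq, hinj_, hr_] at * <;> clear hinj_ hr_ <;> grind (splits := 40)

theorem sep_not_cr (hC : CS P sb at') (ha : Filling P sb at' a) {V X Z : Lines G at' a}
    (h : SepS sb V.1 X.1 Z.1) : V ≠ X ∧ V ≠ Z ∧ X ≠ Z ∧ ¬ CrS sb V.1 X.1 ∧ ¬ CrS sb V.1 Z.1 ∧
      ¬ CrS sb X.1 Z.1 := by
  have := hC.toCS0.countable
  obtain ⟨v, v', hv, hV⟩ := line_pair hC ha V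
  obtain ⟨x, x', hx, hX⟩ := line_pair hC ha X
  obtain ⟨z, z', hz, hZ⟩ := line_pair hC ha Z
  have hs := h
  rw [hV, hX, hZ] at h
  obtain ⟨s1, s2, s3, s4⟩ := sepS_pair hC h
  have n1 := s1.ne hC.cyc
  have n4 := s4.ne hC.cyc
  refine ⟨?_, ?_, ?_, ?_, ?_, ?_⟩
  · rintro rfl
    have mx : x ∈ V.1 := by rw [hX]; simp
    rw [hV] at mx
    have mx' : x = v ∨ x = v' := mx
    rcases mx' with rfl | rfl
    · exact n1.2.1 rfl
    · exact n1.2.2.2.1 rfl
  · rintro rfl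
    have mx : z ∈ V.1 := by rw [hZ]; simp
    rw [hV] at mx
    have mx' : z = v ∨ z = v' := mx
    rcases mx' with rfl | rfl
    · exact n1.2.2.1 rfl
    · exact n1.2.2.2.2.1 rfl
  · rintro rfl
    have mx : z ∈ X.1 := by rw [hZ]; simp
    rw [hX] at mx
    have mx' : z = x ∨ z = x' := mx
    rcases mx' with rfl | rfl
    · exact n1.2.2.2.2.2 rfl
    · exact (s3.ne hC.cyc).2.2.2.2.2 rfl
  · intro hc
    rw [hV, hX] at hc
    have hc' := crS_pair hC hc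
    clear h hs hV hX hZ hc
    obtain ⟨ρ_, hinj_, hr_⟩ := CycOrd.rk hC.cyc
    simp only [Cr, ne_eq, hinj_, hr_] at *
    clear hinj_ hr_
    grind (splits := 40)
  · intro hc
    rw [hV, hZ] at hc
    have hc' := crS_pair hC hc
    clear h hs hV hX hZ hc
    obtain ⟨ρ_, hinj_, hr_⟩ := CycOrd.rk hC.cyc
    simp only [Cr, ne_eq, hinj_, hr_] at *
    clear hinj_ hr_
    grind (splits := 40)
  · intro hc
    rw [hX, hZ] at hc
    have hc' := crS_pair hC hc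
    clear h hs hV hX hZ hc
    obtain ⟨ρ_, hinj_, hr_⟩ := CycOrd.rk hC.cyc
    simp only [Cr, ne_eq, hinj_, hr_] at *
    clear hinj_ hr_
    grind (splits := 40)

/-- core of the Behrstock inequality -/
theorem sep_cross (hC : CS P sb at') (ha : Filling P sb at' a) {X Y Z V W : Lines G at' a}
    (h1 : SepS sb W.1 X.1 Z.1) (h2 : CrS sb W.1 Y.1) (h3 : SepS sb V.1 Y.1 Z.1)
    (h4 : CrS sb V.1 X.1) : CrS sb V.1 W.1 := by
  have := hC.toCS0.countable
  obtain ⟨v, v', hv, hV⟩ := line_pair hC ha V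
  obtain ⟨w, w', hw, hW⟩ := line_pair hC ha W
  obtain ⟨x, x', hx, hX⟩ := line_pair hC ha X
  obtain ⟨y, y', hy, hY⟩ := line_pair hC ha Y
  obtain ⟨z, z', hz, hZ⟩ := line_pair hC ha Z
  have hVW : V ≠ W := by
    rintro rfl
    exact (sep_not_cr hC ha h1).2.2.2.1 h4
  obtain ⟨n1, n2, n3, n4⟩ := pair_ne hC ha hVW hV hW
  rw [hW, hX, hZ] at h1
  rw [hW, hY] at h2
  rw [hV, hY, hZ] at h3
  rw [hV, hX] at h4
  obtain ⟨a1, a2, a3, a4⟩ := sepS_pair hC h1
  obtain ⟨b1, b2, b3, b4⟩ := sepS_pair hC h3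
  have c1 := crS_pair hC h2
  have c2 := crS_pair hC h4
  rw [hV, hW]
  apply crS_of_pair
  clear h1 h2 h3 h4 hV hW hX hY hZ hVW a2 a4 b2 b4
  obtain ⟨f, finj, hf⟩ := CycInt.exists_rank_list hC.cyc [v, v', w, w', x, x', y, y', z]
  have m0 : v ∈ [v, v', w, w', x, x', y, y', z] := by simp
  have m1 : v' ∈ [v, v', w, w', x, x', y, y', z] := by simp
  have m2 : w ∈ [v, v', w, w', x, x', y, y', z] := by simp
  have m3 : w' ∈ [v, v', w, w', x, x', y, y', z] := by simp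
  have m4 : x ∈ [v, v', w, w', x, x', y, y', z] := by simp
  have m5 : x' ∈ [v, v', w, w', x, x', y, y', z] := by simp
  have m6 : y ∈ [v, v', w, w', x, x', y, y', z] := by simp
  have m7 : y' ∈ [v, v', w, w', x, x', y, y', z] := by simp
  have m8 : z ∈ [v, v', w, w', x, x', y, y', z] := by simp
  simp only [Cr, hf _ m0 _ m2 _ m1,
    hf _ m0 _ m3 _ m1,
    hf _ m0 _ m4 _ m1,
    hf _ m0 _ m5 _ m1,
    hf _ m0 _ m6 _ m1,
    hf _ m0 _ m7 _ m1,
    hf _ m0 _ m8 _ m1,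
    hf _ m1 _ m2 _ m0,
    hf _ m1 _ m3 _ m0,
    hf _ m1 _ m4 _ m0,
    hf _ m1 _ m5 _ m0,
    hf _ m1 _ m6 _ m0,
    hf _ m1 _ m7 _ m0,
    hf _ m1 _ m8 _ m0,
    hf _ m2 _ m4 _ m3,
    hf _ m2 _ m5 _ m3,
    hf _ m2 _ m6 _ m3,
    hf _ m2 _ m7 _ m3,
    hf _ m2 _ m8 _ m3,
    hf _ m3 _ m4 _ m2,
    hf _ m3 _ m5 _ m2,
    hf _ m3 _ m6 _ m2,
    hf _ m3 _ m7 _ m2,
    hf _ m3 _ m8 _ m2] at a1 a3 b1 b3 c1 c2 ⊢
  have n1' : f v ≠ f w := fun e => n1 (finj _ m0 _ m2 e)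
  have n2' : f v ≠ f w' := fun e => n2 (finj _ m0 _ m3 e)
  have n3' : f v' ≠ f w := fun e => n3 (finj _ m1 _ m2 e)
  have n4' : f v' ≠ f w' := fun e => n4 (finj _ m1 _ m3 e)
  clear finj hf n1 n2 n3 n4 m0 m1 m2 m3 m4 m5 m6 m7 m8
  grind (splits := 40)

theorem smul_walls (hC : CS P sb at') (g : G) (Y : Lines G at' a) {V : Lines G at' a}
    (hV : V ∈ walls P sb Y) : g • V ∈ walls P sb (g • Y) := by
  obtain ⟨⟨k, hk, rfl⟩, h⟩ := hV
  refine ⟨⟨g * k * g⁻¹, hC.normal.conj_mem k hk g, ?_⟩, ?_⟩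
  · rw [smul_smul, smul_smul]
    congr 1
    group
  · exact crS_smul hC g h

theorem pd_smul (hC : CS P sb at') (g : G) (Y X Z : Lines G at' a) :
    pd P sb (g • Y) (g • X) (g • Z) = pd P sb Y X Z := by
  unfold pd
  have key : {V | V ∈ walls P sb (g • Y) ∧ SepS sb V.1 (g • X).1 (g • Z).1} =
      (fun V => g • V) '' {V | V ∈ walls P sb Y ∧ SepS sb V.1 X.1 Z.1} := by
    ext V
    constructor
    · rintro ⟨h1, h2⟩
      refine ⟨g⁻¹ • V, ⟨?_, ?_⟩, smul_inv_smul g V⟩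
      · have := smul_walls hC g⁻¹ (g • Y) h1
        rwa [inv_smul_smul] at this
      · have := sepS_smul hC g⁻¹ h2
        have e1 : g⁻¹ • (g • X).1 = X.1 := by
          show g⁻¹ • (g • X.1) = X.1
          rw [inv_smul_smul]
        have e2 : g⁻¹ • (g • Z).1 = Z.1 := by
          show g⁻¹ • (g • Z.1) = Z.1
          rw [inv_smul_smul]
        rw [e1, e2] at this
        exact this
    · rintro ⟨V, ⟨h1, h2⟩, rfl⟩
      exact ⟨smul_walls hC g Y h1, sepS_smul hC g h2⟩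
  rw [key, Set.ncard_image_of_injective _ (MulAction.injective g)]

end Pool.Agent.MP_e058c8_al
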