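import Pool.Agent.MP_e058c8_al.Defs

/-! Definitions for Task G: the projection system on the `G`-orbit of the axis of `a`. -/

namespace Pool.Agent.MP_e058c8_al

open scoped Pointwise

variable {G : Type*} {E : Type*} [Group G] [MulAction G E]

/-- The axis of `p` as a set of two points. -/
def Ln (at' : G → E) (p : G) : Set E := {at' p⁻¹, at' p}

/-- The lines of the `G`-orbit of the axis of `a`. -/
abbrev Lines (G : Type*) {E : Type*} [Group G] [MulAction G E] (at' : G → E) (a : G) : Type _ :=
  MulAction.orbit G (Ln at' a)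

/-- The base line. -/
def baseLine (G : Type*) {E : Type*} [Group G] [MulAction G E] (at' : G → E) (a : G) :
    Lines G at' a := ⟨Ln at' a, MulAction.mem_orbit_self _⟩

/-- Crossing of two sets (lines). -/
def CrS (sb : E → E → E → Prop) (S T : Set E) : Prop :=
  ∃ u ∈ S, ∃ v ∈ S, ∃ s ∈ T, ∃ t ∈ T, Cr sb u v s t

/-- `V` separates `X` from `Z`. -/
def SepS (sb : E → E → E → Prop) (V X Z : Set E) : Prop :=
  ∃ u ∈ V, ∃ v ∈ V, ∀ s ∈ X, ∀ t ∈ Z, Cr sb u v s t

variable {at' : G → E} {a : G}

/-- The walls of a line: its `P`-translates crossing it. -/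
def walls (P : Subgroup G) (sb : E → E → E → Prop) (Y : Lines G at' a) : Set (Lines G at' a) :=
  {V | (∃ k ∈ P, V = k • Y) ∧ CrS sb Y.1 V.1}

/-- The projection distance. -/
noncomputable def pd (P : Subgroup G) (sb : E → E → E → Prop) (Y X Z : Lines G at' a) : ℕ :=
  Set.ncard {V | V ∈ walls P sb Y ∧ SepS sb V.1 X.1 Z.1}

end Pool.Agent.MP_e058c8_al
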