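import Pool.Agent.MP_e058c8_al.Defs

set_option autoImplicit false

/-! Embedding of a countable cyclic order in `ℚ`: all questions about finitely many points of the
circle become questions about `<` on `ℚ`. -/

namespace Pool.Agent.MP_e058c8_al

/-- the cyclic order of `ℚ` -/
def cycQ (a b c : ℚ) : Prop := (a < b ∧ b < c) ∨ (b < c ∧ c < a) ∨ (c < a ∧ a < b)

theorem CycOrd.ne12 {E : Type*} {sb : E → E → E → Prop} (h : CycOrd sb) {x y z : E}
    (hs : sb x y z) : x ≠ y := by
  rintro rfl
  exact h.asymm _ _ _ hs (h.rot _ _ _ hs)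

theorem CycOrd.ne23 {E : Type*} {sb : E → E → E → Prop} (h : CycOrd sb) {x y z : E}
    (hs : sb x y z) : y ≠ z := h.ne12 (h.rot _ _ _ hs)

theorem CycOrd.ne13 {E : Type*} {sb : E → E → E → Prop} (h : CycOrd sb) {x y z : E}
    (hs : sb x y z) : x ≠ z := (h.ne12 (h.rot _ _ _ (h.rot _ _ _ hs))).symm

theorem exists_rank {E : Type*} [Countable E] {sb : E → E → E → Prop} (h : CycOrd sb) :
    ∃ ρ : E → ℚ, Function.Injective ρ ∧ ∀ x y z, sb x y z ↔ cycQ (ρ x) (ρ y) (ρ z) := by
  classical
  rcases isEmpty_or_nonempty E with hE | ⟨⟨b⟩⟩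
  · exact ⟨fun _ => 0, fun x => (hE.false x).elim, fun x => (hE.false x).elim⟩
  let lt : E → E → Prop := fun x y => (x = b ∧ y ≠ b) ∨ (x ≠ b ∧ y ≠ b ∧ sb b x y)
  have irr : ∀ x, ¬ lt x x := by
    rintro x (⟨h1, h2⟩ | ⟨_, _, h3⟩)
    · exact h2 h1
    · exact h.ne23 h3 rfl
  have tr : ∀ x y z, lt x y → lt y z → lt x z := by
    rintro x y z (⟨h1, h2⟩ | ⟨h1, h2, h3⟩) (⟨h4, h5⟩ | ⟨h4, h5, h6⟩)
    · exact absurd h4 h2
    · exact Or.inl ⟨h1, h5⟩
    · exact absurd h4 h2
    · exact Or.inr ⟨h1, h5, h.trans _ _ _ _ h3 h6⟩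
  have tri : ∀ x y, lt x y ∨ x = y ∨ lt y x := by
    intro x y
    by_cases hxy : x = y
    · exact Or.inr (Or.inl hxy)
    by_cases hx : x = b
    · exact Or.inl (Or.inl ⟨hx, fun hy => hxy (hx.trans hy.symm)⟩)
    by_cases hy : y = b
    · exact Or.inr (Or.inr (Or.inl ⟨hy, hx⟩))
    rcases h.total b x y (Ne.symm hx) hxy (Ne.symm hy) with h1 | h1
    · exact Or.inl (Or.inr ⟨hx, hy, h1⟩)
    · exact Or.inr (Or.inr (Or.inr ⟨hy, hx, h1⟩))
  have : IsStrictTotalOrder E lt :=
    { trichotomous := fun x y h1 h2 => by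
        rcases tri x y with h | h | h
        · exact absurd h h1
        · exact h
        · exact absurd h h2
      irrefl := irr
      trans := tr }
  let _i : LinearOrder E := linearOrderOfSTO lt
  have hlt : ∀ x y : E, x < y ↔ lt x y := fun x y => Iff.rfl
  obtain ⟨f⟩ := Order.embedding_from_countable_to_dense E ℚ
  refine ⟨f, f.injective, ?_⟩
  have hf : ∀ x y, f x < f y ↔ lt x y := fun x y => by rw [f.lt_iff_lt, hlt]
  -- main computation
  have key : ∀ x y z, lt x y → lt y z → sb x y z := by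
    rintro x y z (⟨h1, h2⟩ | ⟨h1, h2, h3⟩) (⟨h4, h5⟩ | ⟨h4, h5, h6⟩)
    · exact absurd h4 h2
    · rw [h1]; exact h6
    · exact absurd h4 h2
    · have e1 : sb y z b := h.rot _ _ _ h6
      have e2 : sb y b x := h.rot _ _ _ (h.rot _ _ _ h3)
      have e3 : sb y z x := h.trans _ _ _ _ e1 e2
      exact h.rot _ _ _ (h.rot _ _ _ e3)
  intro x y z
  unfold cycQ
  simp only [hf]
  constructor
  · intro hs
    have hxy := h.ne12 hs
    have hyz := h.ne23 hs
    have hxz := h.ne13 hs
    rcases tri x y with a | a | a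
    · rcases tri y z with c | c | c
      · exact Or.inl ⟨a, c⟩
      · exact absurd c hyz
      · rcases tri x z with d | d | d
        · exact absurd (key _ _ _ d c) (h.asymm _ _ _ hs)
        · exact absurd d hxz
        · exact Or.inr (Or.inr ⟨d, a⟩)
    · exact absurd a hxy
    · rcases tri y z with c | c | c
      · rcases tri x z with d | d | d
        · exact absurd (key _ _ _ a d) (fun e => h.asymm _ _ _ hs (h.rot _ _ _ e))
        · exact absurd d hxz
        · exact Or.inr (Or.inl ⟨c, d⟩)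
      · exact absurd c hyz
      · exact absurd (key _ _ _ c a) (fun e => h.asymm _ _ _ hs (h.rot _ _ _ (h.rot _ _ _ e)))
  · rintro (⟨h1, h2⟩ | ⟨h1, h2⟩ | ⟨h1, h2⟩)
    · exact key _ _ _ h1 h2
    · exact h.rot _ _ _ (h.rot _ _ _ (key _ _ _ h1 h2))
    · exact h.rot _ _ _ (key _ _ _ h1 h2)

theorem countable_closure_finset {G : Type*} [Group G] (S : Finset G) :
    Countable (Subgroup.closure (S : Set G)) := by
  have h1 : Subgroup.closure (S : Set G) = (FreeGroup.lift (fun s : ↥(S : Set G) => (s : G))).range := by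
    rw [FreeGroup.range_lift_eq_closure]
    simp
  rw [h1]
  have : Countable (FreeGroup ↥(S : Set G)) := by
    have : Function.Surjective (FreeGroup.mk : List (↥(S : Set G) × Bool) → FreeGroup ↥(S : Set G)) :=
      Quot.mk_surjective
    exact this.countable
  exact (FreeGroup.lift (fun s : ↥(S : Set G) => (s : G))).rangeRestrict_surjective.countable

theorem CS0.countable {G E : Type*} [Group G] [MulAction G E] {P : Subgroup G}
    {sb : E → E → E → Prop} {at' : G → E} (hC : CS0 P sb at') : Countable E := by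
  obtain ⟨S, hS⟩ := hC.fg
  have := countable_closure_finset S
  rw [hS] at this
  have hsurj : Function.Surjective (fun p : P => at' (p : G)) := by
    intro x
    obtain ⟨p, hp, -, h⟩ := hC.exists_at x
    exact ⟨⟨p, hp⟩, h⟩
  exact hsurj.countable

theorem CS0.rank {G E : Type*} [Group G] [MulAction G E] {P : Subgroup G}
    {sb : E → E → E → Prop} {at' : G → E} (hC : CS0 P sb at') :
    ∃ ρ : E → ℚ, Function.Injective ρ ∧ ∀ x y z, sb x y z ↔ cycQ (ρ x) (ρ y) (ρ z) := by
  have := hC.countable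
  exact exists_rank hC.cyc

end Pool.Agent.MP_e058c8_al
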