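import Pool.Agent.MP_e058c8_al.StdPres

namespace Pool.Agent.MP_e058c8_al

namespace StdEmbed

/-- the image sequence of the automorphism `σ_i`. -/
def zi {S : Type*} [Group S] (Z : ℕ → S) (i k : ℕ) : S :=
  if k % 2 = i then (Z k)⁻¹ else zp Z k

theorem zp_succ {S : Type*} [Group S] (Z : ℕ → S) (k : ℕ) :
    zp Z (k + 1) = zp Z k * Z (k + 1) * (Z k)⁻¹ := rfl

theorem zp_zi {S : Type*} [Group S] (Z : ℕ → S) (h0 : Z 0 = 1) (i : ℕ) (hi : i < 2) (k : ℕ) :
    zp (zi Z i) k = if k % 2 = i then (zp Z k)⁻¹ else Z k := by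
  induction k with
  | zero => simp [zp, h0]
  | succ k ih =>
    rw [zp_succ (zi Z i), ih]
    by_cases hk : k % 2 = i
    · have hk' : ¬ (k + 1) % 2 = i := by omega
      rw [if_pos hk, if_neg hk']
      unfold zi
      rw [if_pos hk, if_neg hk', zp_succ]
      group
    · have hk' : (k + 1) % 2 = i := by omega
      rw [if_neg hk, if_pos hk']
      unfold zi
      rw [if_neg hk, if_pos hk', zp_succ]
      group

theorem zi_zero {S : Type*} [Group S] (Z : ℕ → S) (h0 : Z 0 = 1) (i : ℕ) : zi Z i 0 = 1 := by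
  unfold zi
  split_ifs
  · simp [h0]
  · rfl

theorem zi_one {S : Type*} [Group S] (Z : ℕ → S) (h0 : Z 0 = 1) (h1 : Z 1 = 1) (i : ℕ) :
    zi Z i 1 = 1 := by
  unfold zi
  split_ifs
  · simp [h1]
  · simp [zp, h0, h1]

theorem map_zp {S H : Type*} [Group S] [Group H] (Z : ℕ → S) (z : ℕ → H) (φ : S →* H) (n : ℕ)
    (h : ∀ k ≤ n, φ (Z k) = z k) (k : ℕ) (hk : k ≤ n) : φ (zp Z k) = zp z k := by
  induction k with
  | zero => simp [zp]
  | succ k ih =>
    rw [zp_succ, zp_succ, map_mul, map_mul, map_inv, ih (by omega), h _ hk, h _ (by omega)]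

/-- The automorphisms `σ_i`. -/
theorem exists_sigma {S : Type} [Group S] (g : ℕ) (Z : ℕ → S) (h0 : Z 0 = 1) (h1 : Z 1 = 1)
    (hrel : zp Z (2 * g + 1) = Z (2 * g + 1))
    (huniv : ∀ (H : Type) [Group H] (z : ℕ → H), z 0 = 1 → z 1 = 1 →
        zp z (2 * g + 1) = z (2 * g + 1) →
        ∃ φ : S →* H, ∀ k ≤ 2 * g + 1, φ (Z k) = z k) (i : ℕ) (hi : i < 2) :
    ∃ σ : S →* S, ∀ k ≤ 2 * g + 1, σ (Z k) = (if k % 2 = i then (Z k)⁻¹ else zp Z k) ∧
      σ (zp Z k) = (if k % 2 = i then (zp Z k)⁻¹ else Z k) := by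
  obtain ⟨σ, hσ⟩ := huniv S (zi Z i) (zi_zero Z h0 i) (zi_one Z h0 h1 i) (by
    rw [zp_zi Z h0 i hi]
    unfold zi
    split_ifs
    · rw [hrel]
    · rw [hrel])
  refine ⟨σ, fun k hk => ⟨hσ k hk, ?_⟩⟩
  rw [map_zp Z (zi Z i) σ (2 * g + 1) hσ k hk, zp_zi Z h0 i hi]

theorem hom_ext {S H : Type*} [Group S] [Group H] (g : ℕ) (Z : ℕ → S)
    (hgen : Subgroup.closure (Set.range fun k : Fin (2 * g + 2) => Z k) = ⊤)
    (φ ψ : S →* H) (h : ∀ k ≤ 2 * g + 1, φ (Z k) = ψ (Z k)) : φ = ψ := by
  apply MonoidHom.eq_of_eqOn_dense hgen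
  rintro _ ⟨k, rfl⟩
  exact h k (by omega)

/-- The generators of `W` as a total function. -/
def sg (g : ℕ) (k : ℕ) : PolyGroup g := if h : k < 2 * g + 2 then sgen g ⟨k, h⟩ else 1

theorem sg_val (g : ℕ) (k : Fin (2 * g + 2)) : sg g k = sgen g k := by
  unfold sg
  rw [dif_pos k.2]

theorem sg_sq (g : ℕ) (k : ℕ) : sg g k * sg g k = 1 := by
  unfold sg
  split_ifs
  · exact (polyMatrix g).toCoxeterSystem.simple_mul_simple_self _
  · simp

theorem sg_inv (g : ℕ) (k : ℕ) : (sg g k)⁻¹ = sg g k :=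
  inv_eq_of_mul_eq_one_right (sg_sq g k)

theorem comm_of_padj (g : ℕ) (i j : Fin (2 * g + 2)) (h : padj g i j) (hij : i ≠ j) :
    sgen g i * sgen g j = sgen g j * sgen g i := by
  have h1 := (polyMatrix g).toCoxeterSystem.simple_mul_simple_pow i j
  have h2 : (polyMatrix g) i j = 2 := by
    change (if i = j then 1 else if padj g i j then 2 else 0) = 2
    rw [if_neg hij, if_pos h]
  rw [h2, pow_two] at h1
  have h3 := eq_inv_of_mul_eq_one_left h1
  rw [h3, mul_inv_rev, CoxeterSystem.inv_simple, CoxeterSystem.inv_simple]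

theorem sg_comm (g : ℕ) (k : ℕ) : sg g k * sg g (k + 1) = sg g (k + 1) * sg g k := by
  by_cases h : k + 1 < 2 * g + 2
  · have e1 := sg_val g ⟨k, by omega⟩
    have e2 := sg_val g ⟨k + 1, h⟩
    simp only at e1 e2
    rw [e1, e2]
    apply comm_of_padj
    · left; rfl
    · intro hh
      have := congrArg Fin.val hh
      simp at this
  · have : sg g (k + 1) = 1 := by unfold sg; rw [dif_neg h]
    rw [this]; simp

theorem sg_comm_last (g : ℕ) (hg : 1 ≤ g) : sg g 0 * sg g (2 * g + 1) = sg g (2 * g + 1) * sg g 0 := by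
  have e1 := sg_val g ⟨0, by omega⟩
  have e2 := sg_val g ⟨2 * g + 1, by omega⟩
  simp only at e1 e2
  rw [e1, e2]
  apply comm_of_padj
  · right; right; left; exact ⟨rfl, rfl⟩
  · intro hh
    have := congrArg Fin.val hh
    simp at this

/-- the images in `W` -/
def zw (g : ℕ) (k : ℕ) : PolyGroup g := sg g (k % 2) * sg g k

theorem t_comm (g : ℕ) (k : ℕ) :
    sg g (k % 2) * sg g ((k + 1) % 2) = sg g ((k + 1) % 2) * sg g (k % 2) := by
  rcases Nat.mod_two_eq_zero_or_one k with h | h
  · have h' : (k + 1) % 2 = 1 := by omega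
    rw [h, h']
    exact sg_comm g 0
  · have h' : (k + 1) % 2 = 0 := by omega
    rw [h, h']
    exact (sg_comm g 0).symm

theorem mul_self_cancel_left (g : ℕ) (k : ℕ) (x : PolyGroup g) : sg g k * (sg g k * x) = x := by
  rw [← mul_assoc, sg_sq, one_mul]

theorem zp_zw (g : ℕ) (k : ℕ) :
    zp (zw g) k = sg g ((k + 1) % 2) * sg g (k % 2) * sg g k * sg g ((k + 1) % 2) := by
  induction k with
  | zero =>
    simp only [zp]
    change 1 = sg g 1 * sg g 0 * sg g 0 * sg g 1
    rw [mul_assoc (sg g 1), sg_sq, mul_one, sg_sq]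
  | succ k ih =>
    rw [zp_succ, ih]
    unfold zw
    have e : (k + 1 + 1) % 2 = k % 2 := by omega
    rw [e, mul_inv_rev, sg_inv, sg_inv]
    have hc := sg_comm g k
    have ht := t_comm g k
    calc sg g ((k + 1) % 2) * sg g (k % 2) * sg g k * sg g ((k + 1) % 2) *
          (sg g ((k + 1) % 2) * sg g (k + 1)) * (sg g k * sg g (k % 2))
        = sg g ((k + 1) % 2) * sg g (k % 2) * sg g k *
          (sg g ((k + 1) % 2) * sg g ((k + 1) % 2)) * (sg g (k + 1) * sg g k) * sg g (k % 2) := by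
          simp only [mul_assoc]
      _ = sg g ((k + 1) % 2) * sg g (k % 2) * sg g k * (sg g k * sg g (k + 1)) * sg g (k % 2) := by
          rw [sg_sq, mul_one, hc]
      _ = sg g (k % 2) * sg g ((k + 1) % 2) * (sg g k * sg g k) * sg g (k + 1) * sg g (k % 2) := by
          rw [ht]; simp only [mul_assoc]
      _ = _ := by rw [sg_sq, mul_one]

theorem zw_zero (g : ℕ) : zw g 0 = 1 := sg_sq g 0

theorem zw_one (g : ℕ) : zw g 1 = 1 := sg_sq g 1

theorem zw_rel (g : ℕ) (hg : 1 ≤ g) : zp (zw g) (2 * g + 1) = zw g (2 * g + 1) := by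
  rw [zp_zw]
  unfold zw
  have e1 : (2 * g + 1 + 1) % 2 = 0 := by omega
  have e2 : (2 * g + 1) % 2 = 1 := by omega
  rw [e1, e2]
  have h1 := sg_comm g 0
  have h2 := sg_comm_last g hg
  calc sg g 0 * sg g 1 * sg g (2 * g + 1) * sg g 0
      = sg g 0 * sg g 1 * (sg g (2 * g + 1) * sg g 0) := by rw [mul_assoc]
    _ = sg g 1 * sg g 0 * (sg g 0 * sg g (2 * g + 1)) := by rw [h1, h2]
    _ = sg g 1 * (sg g 0 * sg g 0) * sg g (2 * g + 1) := by simp only [mul_assoc]
    _ = _ := by rw [sg_sq, mul_one]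

/-- the action of the generator `s_k` on `S`. -/
def act {S : Type*} [Group S] (Z : ℕ → S) (σ : ℕ → S →* S) (k : ℕ) (p : S) : S :=
  σ (k % 2) (Z k * p)

end StdEmbed

open StdEmbed in
/-- The surface group embeds in the right-angled polygon group (as the kernel of the parity map
to `Z₂²`). See BLUEPRINT_STD.md, part 2. -/
theorem exists_embedding (g : ℕ) (hg : 1 ≤ g) :
    ∃ Ψ : SurfaceGroup g →* PolyGroup g, Function.Injective Ψ ∧
      Ψ.range ≤ Subgroup.closure
        (Set.range fun k : Fin (2 * g + 2) => sgen g (par g k) * sgen g k) ∧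
      ∀ w : PolyGroup g, ∃ p : SurfaceGroup g, ∃ h ∈ ({1, sgen g (par g 0), sgen g (par g 1),
        sgen g (par g 0) * sgen g (par g 1)} : Set (PolyGroup g)), w = h * Ψ p := by
  obtain ⟨Z, h0, h1, hrel, hgen, huniv⟩ := exists_zgen g hg
  obtain ⟨σ0, hσ0⟩ := exists_sigma g Z h0 h1 hrel huniv 0 (by omega)
  obtain ⟨σ1, hσ1⟩ := exists_sigma g Z h0 h1 hrel huniv 1 (by omega)
  obtain ⟨Ψ, hΨ⟩ := huniv (PolyGroup g) (zw g) (zw_zero g) (zw_one g) (zw_rel g hg)
  -- the family σ
  let σ : ℕ → SurfaceGroup g →* SurfaceGroup g := fun i => if i = 0 then σ0 else σ1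
  have hσ : ∀ i < 2, ∀ k ≤ 2 * g + 1, σ i (Z k) = (if k % 2 = i then (Z k)⁻¹ else zp Z k) ∧
      σ i (zp Z k) = (if k % 2 = i then (zp Z k)⁻¹ else Z k) := by
    intro i hi
    rcases (by omega : i = 0 ∨ i = 1) with rfl | rfl
    · exact hσ0
    · exact hσ1
  have hσσ : ∀ i < 2, ∀ p, σ i (σ i p) = p := by
    intro i hi p
    have : (σ i).comp (σ i) = MonoidHom.id _ := by
      apply hom_ext g Z hgen
      intro k hk
      rw [MonoidHom.comp_apply, MonoidHom.id_apply, (hσ i hi k hk).1]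
      by_cases h : k % 2 = i
      · rw [if_pos h, map_inv, (hσ i hi k hk).1, if_pos h, inv_inv]
      · rw [if_neg h, (hσ i hi k hk).2, if_neg h]
    exact DFunLike.congr_fun this p
  have hcomm01 : ∀ p, σ 0 (σ 1 p) = σ 1 (σ 0 p) := by
    intro p
    have : (σ 0).comp (σ 1) = (σ 1).comp (σ 0) := by
      apply hom_ext g Z hgen
      intro k hk
      rw [MonoidHom.comp_apply, MonoidHom.comp_apply, (hσ 0 (by omega) k hk).1,
        (hσ 1 (by omega) k hk).1]
      rcases Nat.mod_two_eq_zero_or_one k with h | h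
      · rw [if_neg (by omega), if_pos h, (hσ 0 (by omega) k hk).2, if_pos h, map_inv,
          (hσ 1 (by omega) k hk).1, if_neg (by omega)]
      · rw [if_pos h, if_neg (by omega), map_inv, (hσ 0 (by omega) k hk).1, if_neg (by omega),
          (hσ 1 (by omega) k hk).2, if_pos h]
    exact DFunLike.congr_fun this p
  have hcomm : ∀ i < 2, ∀ j < 2, ∀ p, σ i (σ j p) = σ j (σ i p) := by
    intro i hi j hj p
    rcases (by omega : i = 0 ∨ i = 1) with rfl | rfl <;>
      rcases (by omega : j = 0 ∨ j = 1) with rfl | rfl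
    · rfl
    · exact hcomm01 p
    · exact (hcomm01 p).symm
    · rfl
  -- the action
  have hinvol : ∀ k ≤ 2 * g + 1, Function.Involutive (act Z σ k) := by
    intro k hk p
    unfold act
    rw [map_mul, hσσ _ (by omega), (hσ _ (by omega) k hk).1, if_pos rfl, inv_mul_cancel_left]
  -- general commutation
  have hcommute : ∀ k ≤ 2 * g + 1, ∀ l ≤ 2 * g + 1,
      σ (k % 2) (Z k) * σ (k % 2) (σ (l % 2) (Z l)) =
        σ (l % 2) (Z l) * σ (l % 2) (σ (k % 2) (Z k)) →
      ∀ p, act Z σ k (act Z σ l p) = act Z σ l (act Z σ k p) := by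
    intro k _ l _ h p
    unfold act
    simp only [map_mul]
    rw [← mul_assoc, ← mul_assoc, h, hcomm (k % 2) (by omega) (l % 2) (by omega) p]
  have hadj : ∀ k, k + 1 ≤ 2 * g + 1 →
      ∀ p, act Z σ k (act Z σ (k + 1) p) = act Z σ (k + 1) (act Z σ k p) := by
    intro k hk
    apply hcommute k (by omega) (k + 1) hk
    have e1 := (hσ (k % 2) (by omega) k (by omega)).1
    have e2 := (hσ ((k + 1) % 2) (by omega) (k + 1) hk).1
    have e3 := (hσ (k % 2) (by omega) (k + 1) hk).1
    have e4 := (hσ ((k + 1) % 2) (by omega) k (by omega)).1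
    rw [if_pos rfl] at e1 e2
    rw [if_neg (by omega)] at e3 e4
    rw [e1, e2, map_inv, map_inv, e3, e4, zp_succ]
    group
  have hadj' : ∀ p, act Z σ 0 (act Z σ (2 * g + 1) p) = act Z σ (2 * g + 1) (act Z σ 0 p) := by
    apply hcommute 0 (by omega) (2 * g + 1) le_rfl
    have e0 : 0 % 2 = 0 := rfl
    have e1' : (2 * g + 1) % 2 = 1 := by omega
    have e1 := (hσ 1 (by omega) (2 * g + 1) le_rfl).1
    have e2 := (hσ 0 (by omega) (2 * g + 1) le_rfl).1
    rw [if_pos e1'] at e1
    rw [if_neg (by omega)] at e2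
    rw [e0, e1', h0, e1, map_inv, e2, hrel]
    simp
  let f : Fin (2 * g + 2) → Equiv.Perm (SurfaceGroup g) := fun k =>
    (hinvol k.val (by omega)).toPerm (act Z σ k.val)
  have hf : ∀ k p, f k p = act Z σ k.val p := fun k p => rfl
  have hff : ∀ k, f k * f k = 1 := by
    intro k
    ext p
    rw [Equiv.Perm.mul_apply, hf, hf, hinvol k.val (by omega) p]
    rfl
  have hadjf : ∀ k l, padj g k l → f k * f l = f l * f k := by
    intro k l h
    ext p
    rw [Equiv.Perm.mul_apply, Equiv.Perm.mul_apply, hf, hf, hf, hf]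
    rcases h with h | h | ⟨h, h'⟩ | ⟨h, h'⟩
    · rw [← h]; exact hadj _ (by omega) p
    · rw [← h]; exact (hadj _ (by omega) p).symm
    · rw [h, h']; exact hadj' p
    · rw [h, h']; exact (hadj' p).symm
  have hlift : (polyMatrix g).IsLiftable f := by
    intro k l
    change (f k * f l) ^ (if k = l then 1 else if padj g k l then 2 else 0) = 1
    split_ifs with h h'
    · rw [pow_one, h, hff]
    · calc (f k * f l) ^ 2 = (f k * f l) * (f l * f k) := by rw [pow_two, hadjf k l h']
        _ = f k * (f l * f l) * f k := by simp only [mul_assoc]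
        _ = 1 := by rw [hff, mul_one, hff]
    · rw [pow_zero]
  let Φ : PolyGroup g →* Equiv.Perm (SurfaceGroup g) :=
    (polyMatrix g).toCoxeterSystem.lift ⟨f, hlift⟩
  have hΦ : ∀ k : Fin (2 * g + 2), Φ (sgen g k) = f k := fun k =>
    CoxeterSystem.lift_apply_simple _ hlift k
  have hΦΨ : Φ.comp Ψ = MulAction.toPermHom (SurfaceGroup g) (SurfaceGroup g) := by
    apply hom_ext g Z hgen
    intro k hk
    rw [MonoidHom.comp_apply, hΨ k hk]
    have e1 := sg_val g ⟨k % 2, by omega⟩
    have e2 := sg_val g ⟨k, by omega⟩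
    simp only at e1 e2
    unfold zw
    rw [e1, e2, map_mul, hΦ, hΦ]
    ext p
    rw [Equiv.Perm.mul_apply, hf, hf]
    simp only
    rw [MulAction.toPermHom_apply, MulAction.toPerm_apply, smul_eq_mul]
    have hZ01 : Z (k % 2) = 1 := by
      rcases Nat.mod_two_eq_zero_or_one k with h | h
      · rw [h, h0]
      · rw [h, h1]
    unfold act
    rw [hZ01, one_mul, Nat.mod_mod, hσσ _ (by omega)]
  refine ⟨Ψ, ?_, ?_, ?_⟩
  · intro x y hxy
    have h : (Φ.comp Ψ) x = (Φ.comp Ψ) y := by
      rw [MonoidHom.comp_apply, MonoidHom.comp_apply, hxy]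
    rw [hΦΨ] at h
    have := DFunLike.congr_fun h 1
    simpa using this
  · rw [MonoidHom.range_eq_map, ← hgen, MonoidHom.map_closure, Subgroup.closure_le]
    rintro _ ⟨_, ⟨k, rfl⟩, rfl⟩
    apply Subgroup.subset_closure
    refine ⟨k, ?_⟩
    simp only
    rw [hΨ k (by omega)]
    unfold zw
    rw [sg_val g k]
    have e1 := sg_val g (par g k)
    rw [← e1]
    rfl
  · -- conjugation
    have hconj : ∀ i < 2, ∀ p, Ψ (σ i p) = sg g i * Ψ p * sg g i := by
      intro i hi
      have : Ψ.comp (σ i) = ((MulAut.conj (sg g i)).toMonoidHom).comp Ψ := by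
        apply hom_ext g Z hgen
        intro k hk
        rw [MonoidHom.comp_apply, MonoidHom.comp_apply, (hσ i hi k hk).1, hΨ k hk]
        change _ = sg g i * zw g k * (sg g i)⁻¹
        rw [sg_inv]
        by_cases h : k % 2 = i
        · rw [if_pos h, map_inv, hΨ k hk]
          unfold zw
          rw [h, mul_inv_rev, sg_inv, sg_inv, ← mul_assoc, sg_sq, one_mul]
        · rw [if_neg h, map_zp Z (zw g) Ψ (2 * g + 1) hΨ k hk, zp_zw]
          have h' : (k + 1) % 2 = i := by omega
          unfold zw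
          rw [h']
          simp only [mul_assoc]
      intro p
      have h := DFunLike.congr_fun this p
      rw [MonoidHom.comp_apply, MonoidHom.comp_apply] at h
      rw [h]
      change sg g i * Ψ p * (sg g i)⁻¹ = _
      rw [sg_inv]
    have hp0 : sgen g (par g 0) = sg g 0 := (sg_val g (par g 0)).symm
    have hp1 : sgen g (par g 1) = sg g 1 := (sg_val g (par g 1)).symm
    rw [hp0, hp1]
    intro w
    refine CoxeterSystem.simple_induction_right (p := fun w => ∃ p : SurfaceGroup g,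
      ∃ h ∈ ({1, sg g 0, sg g 1, sg g 0 * sg g 1} : Set (PolyGroup g)), w = h * Ψ p)
      (polyMatrix g).toCoxeterSystem w ?_ ?_
    · exact ⟨1, 1, by simp, by simp⟩
    · rintro w k ⟨p, h, hh, rfl⟩
      refine ⟨σ (k.val % 2) p * Z k.val, h * sg g (k.val % 2), ?_, ?_⟩
      · have c01 := sg_comm g 0
        simp only [zero_add] at c01
        simp only [Set.mem_insert_iff, Set.mem_singleton_iff] at hh ⊢
        rcases Nat.mod_two_eq_zero_or_one k.val with e | e
        · rw [e]
          rcases hh with rfl | rfl | rfl | rfl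
          · right; left; simp
          · left; exact sg_sq g 0
          · right; right; right; exact c01.symm
          · right; right; left
            rw [c01, mul_assoc, sg_sq, mul_one]
        · rw [e]
          rcases hh with rfl | rfl | rfl | rfl
          · right; right; left; simp
          · right; right; right; rfl
          · left; exact sg_sq g 1
          · right; left
            rw [mul_assoc, sg_sq, mul_one]
      · rw [map_mul, hconj _ (by omega), hΨ k.val (by omega)]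
        unfold zw
        rw [sg_val g k]
        change h * Ψ p * sgen g k = _
        simp only [mul_assoc]
        rw [mul_self_cancel_left, mul_self_cancel_left]

end Pool.Agent.MP_e058c8_al
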