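import Pool.Agent.MP_e058c8_al.StdPolygon
import Pool.Agent.MP_e058c8_al.StdEmbed
import Pool.Agent.MP_e058c8_al.Statement

/-!
# The action of the polygon group on the hyperbolic plane, and surface groups
-/

open UpperHalfPlane Matrix MatrixGroups

namespace Pool.Agent.MP_e058c8_al

theorem polyMatrix_apply (g : ℕ) (i j : Fin (2 * g + 2)) :
    polyMatrix g i j = if i = j then 1 else if padj g i j then 2 else 0 := rfl

theorem polyMatrix_two {g : ℕ} {i j : Fin (2 * g + 2)} (h : i ≠ j) :
    polyMatrix g i j = 2 ↔ padj g i j := by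
  rw [polyMatrix_apply, if_neg h]
  split_ifs with h' <;> simp [h']

/-- The Coxeter system. -/
abbrev pcs (g : ℕ) : CoxeterSystem (polyMatrix g) (PolyGroup g) := (polyMatrix g).toCoxeterSystem

theorem liftable {g : ℕ} (hg : 2 ≤ g) : (polyMatrix g).IsLiftable
    (fun k : Fin (2 * g + 2) => (MulAction.toPerm (refl hg k) : Equiv.Perm ℍ)) := by
  intro i j
  rw [polyMatrix_apply]
  split_ifs with h1 h2
  · subst h1
    rw [pow_one]
    ext1 z
    exact rmat_invol _ _ _ _ z
  · have hb : bet g i j = 0 := by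
      unfold bet
      rw [cos_adj h2, Aa_cos hg]; ring
    have hcomm : ∀ z : ℍ, refl hg i • (refl hg j • z) = refl hg j • (refl hg i • z) := fun z => by
      have := bet_eq (g := g) j i
      apply rmat_comm
      rw [this]
      unfold bet at hb ⊢
      rw [show ((j : ℕ) - (i : ℕ) : ℝ) * th g = -(((i : ℕ) - (j : ℕ) : ℝ) * th g) by ring,
        Real.cos_neg]
      linarith
    ext1 z
    rw [pow_two]
    show refl hg i • (refl hg j • (refl hg i • (refl hg j • z))) = z
    have e1 : ∀ k (z : ℍ), refl hg k • (refl hg k • z) = z := fun k z => rmat_invol _ _ _ _ z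
    rw [hcomm, e1, e1]
  · rw [pow_zero]

/-- The action of the polygon group. -/
noncomputable def polyHom {g : ℕ} (hg : 2 ≤ g) : PolyGroup g →* Equiv.Perm ℍ :=
  (pcs g).lift ⟨_, liftable hg⟩

theorem polyHom_simple {g : ℕ} (hg : 2 ≤ g) (k : Fin (2 * g + 2)) (z : ℍ) :
    polyHom hg ((pcs g).simple k) z = refl hg k • z := by
  unfold polyHom
  rw [(pcs g).lift_apply_simple (liftable hg)]
  rfl

section Act

variable {g : ℕ} [hg : Fact (2 ≤ g)]

noncomputable local instance polyAct : MulAction (PolyGroup g) ℍ :=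
  MulAction.compHom ℍ (polyHom hg.out)

theorem simple_smul (k : Fin (2 * g + 2)) (z : ℍ) :
    (pcs g).simple k • z = refl hg.out k • z := polyHom_simple hg.out k z

theorem titsData : TitsData (pcs g) (fun k z => ff g k z) (fun j k => bet g j k) where
  diag k z := by rw [simple_smul]; exact ff_refl_self _ _ _
  refl j k _ z := by rw [simple_smul]; exact ff_refl _ _ _ _
  ge j k hjk hM := by
    refine bet_ge hg.out hjk ?_
    intro h
    exact hM ((polyMatrix_two hjk).2 h)
  adj j k hjk hM := by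
    rw [polyMatrix_two hjk] at hM
    unfold bet
    rw [cos_adj hM, Aa_cos hg.out]; ring

theorem DD_simple (k : Fin (2 * g + 2)) (z : ℍ) :
    DD ((pcs g).simple k • z) = DD z + 2 * bb g * ff g k z := by
  rw [simple_smul]; exact DD_refl _ _ _

theorem dist_refl (k : ℕ) (z z' : ℍ) : dist (refl hg.out k • z) (refl hg.out k • z') = dist z z' :=
  dist_smul_smul _ _ _ _ _ _

theorem dist_smul (w : PolyGroup g) (z z' : ℍ) : dist (w • z) (w • z') = dist z z' := by
  refine (pcs g).simple_induction_left (p := fun w => dist (w • z) (w • z') = dist z z') w ?_ ?_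
  · simp
  · intro w i ih
    show dist (((pcs g).simple i * w) • z) (((pcs g).simple i * w) • z') = dist z z'
    rw [mul_smul, mul_smul, simple_smul, simple_smul, dist_refl]
    exact ih

theorem DD_dist (z : ℍ) : Real.cosh (dist z I) = DD z := cosh_dist_eq z I

theorem DD_I : DD I = 1 := by
  rw [← DD_dist]; simp

/-- Properness. -/
theorem finite_dist (R : ℝ) : {w : PolyGroup g | dist (w • I) I ≤ R}.Finite := by
  obtain ⟨n, hn⟩ := exists_nat_ge ((Real.cosh R) / (2 * bb g ^ 2))
  have hb := bb_pos hg.out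
  refine (TitsData.finite_ball (cs := pcs g) n).subset ?_
  intro w hw
  simp only [Set.mem_ofPred_eq] at hw ⊢
  have h1 := titsData.growth hb.le (x := I) (fun k => ff_I k) (D := DD) (fun k y => DD_simple k y) w
  rw [DD_I, ← DD_dist] at h1
  have h2 : Real.cosh (dist (w • I) I) ≤ Real.cosh R := by
    rw [Real.cosh_le_cosh, abs_of_nonneg dist_nonneg]
    exact hw.trans (le_abs_self _)
  have h3 : 2 * bb g ^ 2 * ((pcs g).length w : ℝ) ≤ Real.cosh R := by linarith
  have h4 : ((pcs g).length w : ℝ) ≤ Real.cosh R / (2 * bb g ^ 2) := by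
    rw [le_div_iff₀ (by positivity)]; linarith
  exact_mod_cast h4.trans hn

theorem finite_pair (z z' : ℍ) (R : ℝ) : {w : PolyGroup g | dist (w • z) z' ≤ R}.Finite := by
  refine (finite_dist (g := g) (dist I z + R + dist z' I)).subset ?_
  intro w hw
  simp only [Set.mem_ofPred_eq] at hw ⊢
  calc dist (w • I) I ≤ dist (w • I) (w • z) + dist (w • z) z' + dist z' I := dist_triangle4 _ _ _ _
    _ ≤ dist I z + R + dist z' I := by rw [dist_smul]; gcongr

theorem exists_chamber (z : ℍ) : ∃ w : PolyGroup g, ∀ k : Fin (2 * g + 2), 0 ≤ ff g k (w • z) := by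
  refine TitsData.exists_chamber (cs := pcs g) (f := fun k z => ff g k z) (bb_pos hg.out) (D := DD)
    (fun k y => DD_simple k y) z ?_
  refine (finite_pair (g := g) z I (dist z I)).subset ?_
  intro w hw
  simp only [Set.mem_ofPred_eq] at hw ⊢
  rw [← DD_dist, ← DD_dist, Real.cosh_le_cosh, abs_of_nonneg dist_nonneg,
    abs_of_nonneg dist_nonneg] at hw
  exact hw

/-- A uniform bound for the closed chamber. -/
theorem exists_bound (g : ℕ) [hg : Fact (2 ≤ g)] : ∃ R : ℝ, ∀ z : ℍ,
    (∀ k : Fin (2 * g + 2), 0 ≤ ff g k z) → dist z I ≤ R := by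
  refine ⟨Real.sqrt ((1 + Real.cos (th g)) / (1 - Real.cos (th g))), fun z hz => ?_⟩
  have h1 := chamber_bounded hg.out z hz
  have hc := cos_th_lt hg.out
  have hc' := cos_th_ge hg.out
  have h2 : DD z ≤ Real.sqrt ((1 + Real.cos (th g)) / (1 - Real.cos (th g))) := by
    apply Real.le_sqrt_of_sq_le
    rw [le_div_iff₀ (by linarith)]
    exact h1
  refine le_trans ?_ h2
  rw [← DD_dist]
  exact (Real.self_le_sinh_iff.2 dist_nonneg).trans (Real.sinh_lt_cosh _).le

theorem mul_self_z22 (x : Multiplicative (ZMod 2 × ZMod 2)) : x * x = 1 := by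
  revert x; decide

/-- The parity character. -/
noncomputable def chi (g : ℕ) : PolyGroup g →* Multiplicative (ZMod 2 × ZMod 2) :=
  (pcs g).lift ⟨fun k => Multiplicative.ofAdd (if (k : ℕ) % 2 = 0 then (1, 0) else (0, 1)), by
    intro i j
    rw [polyMatrix_apply]
    by_cases h1 : i = j
    · subst h1
      rw [if_pos rfl, pow_one]
      exact mul_self_z22 _
    · rw [if_neg h1]
      split_ifs
      · rw [pow_two]; exact mul_self_z22 _
      · rw [pow_zero]⟩

theorem chi_simple (g : ℕ) (k : Fin (2 * g + 2)) :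
    chi g ((pcs g).simple k) = Multiplicative.ofAdd (if (k : ℕ) % 2 = 0 then (1, 0) else (0, 1)) := by
  unfold chi
  rw [(pcs g).lift_apply_simple]

theorem chi_even {g : ℕ} {k : Fin (2 * g + 2)} (h : (k : ℕ) % 2 = 0) :
    chi g ((pcs g).simple k) = Multiplicative.ofAdd (1, 0) := by
  rw [chi_simple, if_pos h]

theorem chi_odd {g : ℕ} {k : Fin (2 * g + 2)} (h : (k : ℕ) % 2 = 1) :
    chi g ((pcs g).simple k) = Multiplicative.ofAdd (0, 1) := by
  rw [chi_simple, if_neg (by omega)]

theorem simple_comm {g : ℕ} {i j : Fin (2 * g + 2)} (h : padj g i j) :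
    (pcs g).simple i * (pcs g).simple j = (pcs g).simple j * (pcs g).simple i := by
  have hij : i ≠ j := by
    rintro rfl
    unfold padj at h
    omega
  exact TitsData.comm_of_two ((polyMatrix_two hij).2 h)

theorem closure_trivial {g : ℕ} (K : Set (Fin (2 * g + 2)))
    (hK : ∀ i ∈ K, ∀ j ∈ K, i ≠ j → padj g i j) (w : PolyGroup g)
    (hw : w ∈ Subgroup.closure ((pcs g).simple '' K)) (hchi : chi g w = 1) : w = 1 := by
  classical
  have key : ∀ r : ℕ, ∃ u : PolyGroup g, (∀ k ∈ K, (k : ℕ) % 2 = r → (pcs g).simple k = u) ∧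
      (u = 1 ∨ ∃ k ∈ K, (k : ℕ) % 2 = r ∧ (pcs g).simple k = u) := by
    intro r
    by_cases h : ∃ k ∈ K, (k : ℕ) % 2 = r
    · obtain ⟨k, hk, hkr⟩ := h
      refine ⟨(pcs g).simple k, fun j hj hjr => ?_, Or.inr ⟨k, hk, hkr, rfl⟩⟩
      by_cases hjk : j = k
      · rw [hjk]
      · have := hK j hj k hk hjk
        unfold padj at this
        omega
    · push Not at h
      exact ⟨1, fun k hk hkr => absurd hkr (h k hk), Or.inl rfl⟩
  obtain ⟨u, hu, hu'⟩ := key 0
  obtain ⟨v, hv, hv'⟩ := key 1
  have huu : u * u = 1 := by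
    rcases hu' with rfl | ⟨k, -, -, rfl⟩
    · simp
    · exact (pcs g).simple_mul_simple_self k
  have hvv : v * v = 1 := by
    rcases hv' with rfl | ⟨k, -, -, rfl⟩
    · simp
    · exact (pcs g).simple_mul_simple_self k
  have huv : u * v = v * u := by
    rcases hu' with rfl | ⟨k, hk, hk2, rfl⟩
    · simp
    · rcases hv' with rfl | ⟨j, hj, hj2, rfl⟩
      · simp
      · exact simple_comm (hK k hk j hj (by rintro rfl; omega))
  have huv' : Commute u v := huv
  have hmem : ∃ a b : ℕ, w = u ^ a * v ^ b := by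
    clear hchi
    induction hw using Subgroup.closure_induction with
    | mem x hx =>
      obtain ⟨k, hk, rfl⟩ := hx
      rcases Nat.mod_two_eq_zero_or_one (k : ℕ) with h | h
      · exact ⟨1, 0, by simpa using hu k hk h⟩
      · exact ⟨0, 1, by simpa using hv k hk h⟩
    | one => exact ⟨0, 0, by simp⟩
    | mul x y _ _ hx hy =>
      obtain ⟨a, b, rfl⟩ := hx
      obtain ⟨c, d, rfl⟩ := hy
      refine ⟨a + c, b + d, ?_⟩
      have h1 : v ^ b * u ^ c = u ^ c * v ^ b := ((huv'.pow_pow c b).eq).symm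
      rw [pow_add, pow_add]
      calc u ^ a * v ^ b * (u ^ c * v ^ d) = u ^ a * (v ^ b * u ^ c) * v ^ d := by group
        _ = u ^ a * u ^ c * (v ^ b * v ^ d) := by rw [h1]; group
    | inv x _ hx =>
      obtain ⟨a, b, rfl⟩ := hx
      refine ⟨a, b, ?_⟩
      have hui : u⁻¹ = u := inv_eq_of_mul_eq_one_left huu
      have hvi : v⁻¹ = v := inv_eq_of_mul_eq_one_left hvv
      rw [_root_.mul_inv_rev, ← inv_pow, ← inv_pow, hui, hvi]
      exact ((huv'.pow_pow a b).eq).symm
  obtain ⟨a, b, rfl⟩ := hmem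
  have hpow : ∀ (x : PolyGroup g), x * x = 1 → ∀ n : ℕ, x ^ n = 1 ∨ x ^ n = x := by
    intro x hx n
    induction n with
    | zero => simp
    | succ n ih =>
      rcases ih with h | h
      · right; rw [pow_succ, h, one_mul]
      · left; rw [pow_succ, h, hx]
  have hcu : u = 1 ∨ chi g u = Multiplicative.ofAdd (1, 0) := by
    rcases hu' with h | ⟨k, -, hk, rfl⟩
    · exact Or.inl h
    · exact Or.inr (chi_even hk)
  have hcv : v = 1 ∨ chi g v = Multiplicative.ofAdd (0, 1) := by
    rcases hv' with h | ⟨k, -, hk, rfl⟩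
    · exact Or.inl h
    · exact Or.inr (chi_odd hk)
  have d1 : (Multiplicative.ofAdd (1, 0) : Multiplicative (ZMod 2 × ZMod 2)) ≠ 1 := by decide
  have d2 : (Multiplicative.ofAdd (0, 1) : Multiplicative (ZMod 2 × ZMod 2)) ≠ 1 := by decide
  have d3 : (Multiplicative.ofAdd (1, 0) : Multiplicative (ZMod 2 × ZMod 2)) *
      Multiplicative.ofAdd (0, 1) ≠ 1 := by decide
  clear huv huv' hw key hu' hv' hu hv hK
  rcases hpow u huu a with ha | ha <;> rcases hpow v hvv b with hb | hb <;>
    rw [ha, hb] at hchi ⊢ <;> rcases hcu with hcu | hcu <;> rcases hcv with hcv | hcv <;>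
    simp_all

theorem free_of_chi (w : PolyGroup g) (hw : chi g w = 1) (z : ℍ) (h : w • z = z) : w = 1 := by
  obtain ⟨v, hv⟩ := exists_chamber (g := g) z
  have h1 : (v * w * v⁻¹) • (v • z) = v • z := by
    rw [← mul_smul]; simp [mul_smul, h]
  have h2 := titsData.stab hv (fun k y hk => by
    rw [simple_smul]; exact rmat_fix _ _ _ _ y hk) (v * w * v⁻¹) h1
  have h3 : chi g (v * w * v⁻¹) = 1 := by
    rw [map_mul, map_mul, hw, map_inv]; simp
  have h4 := closure_trivial {k | ff g k (v • z) = 0} (fun i hi j hj hij =>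
    walls_disjoint hg.out hij _ hi hj) (v * w * v⁻¹) h2 h3
  have h5 : v * w = v := by
    rw [mul_inv_eq_one] at h4; exact h4
  simpa using h5

/-- Elements acting by Möbius transformations. -/
theorem moebius_of_mem (w : PolyGroup g)
    (hw : w ∈ Subgroup.closure (Set.range fun k : Fin (2 * g + 2) => sgen g (par g k) * sgen g k)) :
    ∃ γ : SL(2, ℝ), ∀ z : ℍ, w • z = γ • z := by
  induction hw using Subgroup.closure_induction with
  | mem x hx =>
    obtain ⟨k, rfl⟩ := hx
    refine ⟨⟨(refl hg.out (par g k) * refl hg.out k : GL (Fin 2) ℝ).val, ?_⟩, ?_⟩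
    · have h1 := rmat_det _ _ _ (n_unit hg.out (par g k))
      have h2 := rmat_det _ _ _ (n_unit hg.out k)
      rw [Matrix.GeneralLinearGroup.val_det_apply] at h1 h2
      rw [Units.val_mul, Matrix.det_mul]
      unfold refl
      rw [h1, h2]; norm_num
    · intro z
      show (sgen g (par g k) * sgen g k) • z = _
      rw [mul_smul]
      have e1 : sgen g (par g k) • sgen g k • z =
        (refl hg.out (par g k) * refl hg.out k : GL (Fin 2) ℝ) • z := by
        rw [mul_smul]
        show (pcs g).simple (par g k) • (pcs g).simple k • z = _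
        rw [simple_smul, simple_smul]
      rw [e1]
      show _ = (Matrix.SpecialLinearGroup.mapGL (n := Fin 2) (R := ℝ) ℝ _) • z
      congr 1
      ext i j
      simp
  | one => exact ⟨1, fun z => by simp⟩
  | mul x y _ _ hx hy =>
    obtain ⟨a, ha⟩ := hx
    obtain ⟨b, hb⟩ := hy
    exact ⟨a * b, fun z => by rw [mul_smul, mul_smul, hb, ha]⟩
  | inv x _ hx =>
    obtain ⟨a, ha⟩ := hx
    refine ⟨a⁻¹, fun z => ?_⟩
    rw [inv_smul_eq_iff, ha, smul_inv_smul]

theorem chi_of_mem {g : ℕ} (w : PolyGroup g)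
    (hw : w ∈ Subgroup.closure (Set.range fun k : Fin (2 * g + 2) => sgen g (par g k) * sgen g k)) :
    chi g w = 1 := by
  have : Subgroup.closure (Set.range fun k : Fin (2 * g + 2) => sgen g (par g k) * sgen g k) ≤
      (chi g).ker := by
    rw [Subgroup.closure_le]
    rintro _ ⟨k, rfl⟩
    show chi g (sgen g (par g k) * sgen g k) = 1
    rw [map_mul]
    show chi g ((pcs g).simple (par g k)) * chi g ((pcs g).simple k) = 1
    rw [chi_simple, chi_simple]
    have : ((par g k : Fin (2 * g + 2)) : ℕ) % 2 = (k : ℕ) % 2 := by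
      show (k : ℕ) % 2 % 2 = _
      omega
    rw [this]
    exact mul_self_z22 _
  exact this hw

end Act

/-- For `g ≥ 2` the surface group of genus `g` acts freely, properly discontinuously and
cocompactly on the hyperbolic plane by Möbius transformations. -/
theorem exists_surfaceAction (g : ℕ) (hg : 2 ≤ g) :
    ∃ act : MulAction (SurfaceGroup g) ℍ, @SurfaceAction (SurfaceGroup g) _ act := by
  have : Fact (2 ≤ g) := ⟨hg⟩
  obtain ⟨Ψ, hinj, hrange, hcov⟩ := exists_embedding g (by omega)
  let actP : MulAction (PolyGroup g) ℍ := polyAct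
  let act : MulAction (SurfaceGroup g) ℍ := MulAction.compHom ℍ Ψ
  have hact : ∀ (p : SurfaceGroup g) (z : ℍ), p • z = Ψ p • z := fun p z => rfl
  have hmem : ∀ p : SurfaceGroup g, Ψ p ∈ Subgroup.closure
      (Set.range fun k : Fin (2 * g + 2) => sgen g (par g k) * sgen g k) :=
    fun p => hrange ⟨p, rfl⟩
  refine ⟨act, ?_, ?_, ?_, ?_⟩
  · intro p
    exact moebius_of_mem (Ψ p) (hmem p)
  · intro p z h
    have := free_of_chi (Ψ p) (chi_of_mem _ (hmem p)) z h
    exact hinj (by rw [this, map_one])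
  · intro C hC
    obtain ⟨R, hR⟩ := hC.isBounded.subset_closedBall I
    have hfin := (finite_dist (g := g) (R + R)).preimage (hinj.injOn (s := Ψ ⁻¹' _))
    refine hfin.subset ?_
    rintro p ⟨z, hz, hz'⟩
    show dist (Ψ p • I) I ≤ R + R
    calc dist (Ψ p • I) I ≤ dist (Ψ p • I) (Ψ p • z) + dist (Ψ p • z) I := dist_triangle _ _ _
      _ ≤ R + R := by
        rw [dist_smul]
        have h1 : dist z I ≤ R := hR hz
        have h2 : dist (Ψ p • z) I ≤ R := hR hz'
        rw [dist_comm] at h1
        linarith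
  · obtain ⟨R, hR⟩ := exists_bound g
    set T : Finset (PolyGroup g) := by
      classical
      exact {1, sgen g (par g 0), sgen g (par g 1), sgen g (par g 0) * sgen g (par g 1)} with hT
    set S : ℝ := ∑ h ∈ T, dist (h • I) I with hS
    refine ⟨Metric.closedBall I (R + S), isCompact_closedBall _ _, fun z => ?_⟩
    obtain ⟨w, hw⟩ := exists_chamber (g := g) z
    obtain ⟨p, h, hh, rfl⟩ := hcov w
    refine ⟨p, ?_⟩
    have hhT : h ∈ T := by
      rw [hT]; simpa using hh
    have h1 : dist ((h * Ψ p) • z) I ≤ R := hR _ hw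
    have h2 : dist (h • I) I ≤ S :=
      Finset.single_le_sum (f := fun h : PolyGroup g => dist (h • I) I)
        (fun _ _ => dist_nonneg) hhT
    show dist (Ψ p • z) I ≤ R + S
    calc dist (Ψ p • z) I = dist (h • (Ψ p • z)) (h • I) := (dist_smul _ _ _).symm
      _ ≤ dist (h • (Ψ p • z)) I + dist I (h • I) := dist_triangle _ _ _
      _ ≤ R + S := by
        rw [← mul_smul, dist_comm I]
        linarith

end Pool.Agent.MP_e058c8_al
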