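import Mathlib

/-!
# The standard surface group and the right-angled polygon group: definitions
-/

open scoped commutatorElement

namespace Pool.Agent.MP_e058c8_al

/-- The relator `∏_{i<g} [a_i, b_i]` (`a_i = of (inl i)`, `b_i = of (inr i)`). -/
def surfaceRelator (g : ℕ) : FreeGroup (Fin g ⊕ Fin g) :=
  (List.ofFn fun i : Fin g =>
    ⁅FreeGroup.of (Sum.inl i : Fin g ⊕ Fin g), FreeGroup.of (Sum.inr i : Fin g ⊕ Fin g)⁆).prod

/-- The fundamental group of the closed orientable surface of genus `g`: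
`⟨a_i, b_i (i < g) | ∏ [a_i, b_i]⟩`. -/
abbrev SurfaceGroup (g : ℕ) : Type :=
  PresentedGroup ({surfaceRelator g} : Set (FreeGroup (Fin g ⊕ Fin g)))

/-- `zp z k = ∏_{j<k} z (j+1) * (z j)⁻¹` (product in increasing order of `j`). -/
def zp {G : Type*} [Group G] (z : ℕ → G) : ℕ → G
  | 0 => 1
  | k + 1 => zp z k * z (k + 1) * (z k)⁻¹

/-- Adjacency of two sides of the `(2g+2)`-gon. -/
def padj (g : ℕ) (i j : Fin (2 * g + 2)) : Prop :=
  i.val + 1 = j.val ∨ j.val + 1 = i.val ∨ (i.val = 0 ∧ j.val = 2 * g + 1) ∨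
    (j.val = 0 ∧ i.val = 2 * g + 1)

instance (g : ℕ) (i j : Fin (2 * g + 2)) : Decidable (padj g i j) := by
  unfold padj; infer_instance

/-- The Coxeter matrix of the right-angled `(2g+2)`-gon: `2` for adjacent sides, `∞` (coded as
`0`) for non-adjacent ones. -/
def polyMatrix (g : ℕ) : CoxeterMatrix (Fin (2 * g + 2)) where
  M := Matrix.of fun i j => if i = j then 1 else if padj g i j then 2 else 0
  isSymm := by
    ext i j
    simp only [Matrix.transpose_apply, Matrix.of_apply]
    by_cases h : i = j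
    · simp [h]
    · rw [if_neg h, if_neg (Ne.symm h)]
      have : padj g j i ↔ padj g i j := by unfold padj; omega
      simp [this]
  diagonal i := by simp
  off_diagonal i j h := by
    simp only [Matrix.of_apply, if_neg h]
    split_ifs <;> decide

/-- The right-angled polygon group `W = ⟨s_k | s_k², [s_k, s_{k+1}]⟩`. -/
abbrev PolyGroup (g : ℕ) : Type := (polyMatrix g).Group

/-- The generators of `W`. -/
abbrev sgen (g : ℕ) (k : Fin (2 * g + 2)) : PolyGroup g := (polyMatrix g).toCoxeterSystem.simple k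

/-- `0` for even `k`, `1` for odd `k`. -/
def par (g : ℕ) (k : ℕ) : Fin (2 * g + 2) := ⟨k % 2, by omega⟩

end Pool.Agent.MP_e058c8_al
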