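import Mathlib

/-!
# Reflections of the hyperbolic plane, as elements of `GL(2, ℝ)` of determinant `-1` and trace `0`
-/

open UpperHalfPlane Matrix MatrixGroups

namespace Pool.Agent.MP_e058c8_al

/-- The linear form attached to the trace zero matrix `[[a, p], [q, -a]]`. -/
noncomputable def pr (a p q : ℝ) (z : ℍ) : ℝ := (p + 2 * a * z.re - q * (z.re ^ 2 + z.im ^ 2)) / (2 * z.im)

/-- The reflection matrix. -/
noncomputable def rmat (a p q : ℝ) (h : a ^ 2 + p * q = 1) : GL (Fin 2) ℝ :=
  Matrix.GeneralLinearGroup.mkOfDetNeZero !![a, p; q, -a] (by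
    rw [Matrix.det_fin_two_of]
    have : a * -a - p * q = -1 := by linarith [h, sq a]
    rw [this]; norm_num)

theorem rmat_det (a p q : ℝ) (h : a ^ 2 + p * q = 1) : (rmat a p q h).det.val = -1 := by
  simp only [rmat, Matrix.GeneralLinearGroup.val_det_apply, Matrix.GeneralLinearGroup.mkOfDetNeZero]
  show Matrix.det !![a, p; q, -a] = -1
  rw [Matrix.det_fin_two_of]
  linarith [h, sq a]

/-- `|denominator|²` -/
noncomputable def dn (a q : ℝ) (z : ℍ) : ℝ := (q * z.re - a) ^ 2 + (q * z.im) ^ 2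

theorem dn_pos {a p q : ℝ} (h : a ^ 2 + p * q = 1) (z : ℍ) : 0 < dn a q z := by
  unfold dn
  have hz := z.im_pos
  by_cases hq : q = 0
  · subst hq
    have : a ^ 2 = 1 := by linarith
    nlinarith
  · have : 0 < (q * z.im) ^ 2 := by positivity
    nlinarith [sq_nonneg (q * z.re - a)]

theorem rmat_im (a p q : ℝ) (h : a ^ 2 + p * q = 1) (z : ℍ) :
    (rmat a p q h • z).im = z.im / dn a q z := by
  rw [im_smul_eq_div_normSq, rmat_det]
  have : Complex.normSq (denom (rmat a p q h) z) = dn a q z := by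
    simp only [denom, rmat, Matrix.GeneralLinearGroup.mkOfDetNeZero]
    show Complex.normSq (((q : ℝ) : ℂ) * (z : ℂ) + ((-a : ℝ) : ℂ)) = _
    rw [Complex.normSq_apply, dn]
    simp
    ring
  rw [this]; simp

theorem rmat_re (a p q : ℝ) (h : a ^ 2 + p * q = 1) (z : ℍ) :
    (rmat a p q h • z).re =
      (a * q * (z.re ^ 2 + z.im ^ 2) - a ^ 2 * z.re + p * q * z.re - a * p) / dn a q z := by
  rw [re_smul]
  have : Complex.normSq (denom (rmat a p q h) z) = dn a q z := by
    simp only [denom, rmat, Matrix.GeneralLinearGroup.mkOfDetNeZero]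
    show Complex.normSq (((q : ℝ) : ℂ) * (z : ℂ) + ((-a : ℝ) : ℂ)) = _
    rw [Complex.normSq_apply, dn]
    simp
    ring
  rw [Complex.div_re, this]
  have h1 : num (rmat a p q h) z = ((a : ℝ) : ℂ) * (z : ℂ) + ((p : ℝ) : ℂ) := by
    simp only [num, rmat, Matrix.GeneralLinearGroup.mkOfDetNeZero]
    rfl
  have h2 : denom (rmat a p q h) z = ((q : ℝ) : ℂ) * (z : ℂ) + ((-a : ℝ) : ℂ) := by
    simp only [denom, rmat, Matrix.GeneralLinearGroup.mkOfDetNeZero]
    rfl
  rw [h1, h2, ← add_div]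
  congr 1
  simp
  ring

theorem rmat_normSq (a p q : ℝ) (h : a ^ 2 + p * q = 1) (z : ℍ) :
    (rmat a p q h • z).re ^ 2 + (rmat a p q h • z).im ^ 2 =
      ((a * z.re + p) ^ 2 + (a * z.im) ^ 2) / dn a q z := by
  have hd := dn_pos h z
  rw [rmat_im, rmat_re]
  rw [div_pow, div_pow, ← add_div, div_eq_div_iff (by positivity) hd.ne']
  have hpq : p * q = 1 - a ^ 2 := by linarith
  have : (a * q * (z.re ^ 2 + z.im ^ 2) - a ^ 2 * z.re + p * q * z.re - a * p) ^ 2 + z.im ^ 2 =
      ((a * z.re + p) ^ 2 + (a * z.im) ^ 2) * dn a q z := by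
    unfold dn
    linear_combination (-z.im^2 * (1 + a^2 + p * q)) * h
  rw [this]; ring

/-- How the linear forms transform. -/
theorem pr_smul (a p q : ℝ) (h : a ^ 2 + p * q = 1) (a' p' q' : ℝ) (z : ℍ) :
    pr a' p' q' (rmat a p q h • z) =
      pr a' p' q' z - 2 * (a * a' + (p * q' + q * p') / 2) * pr a p q z := by
  have hd := dn_pos h z
  have hz := z.im_pos
  unfold pr
  rw [rmat_normSq, rmat_re, rmat_im]
  have hz2 : z.im ≠ 0 := hz.ne'
  have hd2 : dn a q z ≠ 0 := hd.ne'
  field_simp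
  unfold dn
  linear_combination (p' + 2 * a' * z.re - q' * (z.re ^ 2 + z.im ^ 2)) * h

/-- A point on the wall is fixed. -/
theorem rmat_fix (a p q : ℝ) (h : a ^ 2 + p * q = 1) (z : ℍ) (hz : pr a p q z = 0) :
    rmat a p q h • z = z := by
  have hy := z.im_pos
  have h0 : p + 2 * a * z.re - q * (z.re ^ 2 + z.im ^ 2) = 0 := by
    unfold pr at hz
    rw [div_eq_zero_iff] at hz
    rcases hz with hz | hz
    · exact hz
    · linarith
  have hd : dn a q z = 1 := by
    unfold dn
    linear_combination (-q) * h0 + h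
  apply UpperHalfPlane.ext
  apply Complex.ext
  · show (rmat a p q h • z).re = z.re
    rw [rmat_re, hd, div_one]
    linear_combination z.re * h - a * h0
  · show (rmat a p q h • z).im = z.im
    rw [rmat_im, hd, div_one]

/-- Positivity: the sum of two normals is timelike or lightlike, future oriented. -/
theorem pr_pos_of_timelike (a p q : ℝ) (h : a ^ 2 + p * q ≤ 0) (hpq : 0 < p - q) (z : ℍ) :
    0 < pr a p q z := by
  have hy := z.im_pos
  unfold pr
  refine div_pos ?_ (by positivity)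
  have hq : q ≤ 0 := by
    by_contra hq
    push Not at hq
    have : 0 < p := by linarith
    nlinarith [mul_pos this hq, sq_nonneg a]
  rcases hq.lt_or_eq with hq | hq
  · have h1 : 0 ≤ (-q) * (p + 2 * a * z.re - q * z.re ^ 2) := by
      nlinarith [sq_nonneg (a - q * z.re)]
    have h2 : 0 ≤ p + 2 * a * z.re - q * z.re ^ 2 := by
      by_contra hc
      push Not at hc
      nlinarith
    have h3 : 0 < (-q) * z.im ^ 2 := mul_pos (by linarith) (by positivity)
    nlinarith
  · subst hq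
    have ha : a = 0 := by nlinarith [sq_nonneg a]
    subst ha
    nlinarith

/-- `cosh` of the distance. -/
noncomputable def chd (z w : ℍ) : ℝ :=
  (z.re ^ 2 + z.im ^ 2 + (w.re ^ 2 + w.im ^ 2) - 2 * z.re * w.re) / (2 * z.im * w.im)

theorem chd_comm (z w : ℍ) : chd z w = chd w z := by
  unfold chd; ring_nf

theorem cosh_dist_eq (z w : ℍ) : Real.cosh (dist z w) = chd z w := by
  have hz := z.im_pos.ne'
  have hw := w.im_pos.ne'
  rw [UpperHalfPlane.cosh_dist]
  have : dist (z : ℂ) w ^ 2 = (z.re - w.re) ^ 2 + (z.im - w.im) ^ 2 := by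
    rw [Complex.dist_eq, ← Complex.normSq_eq_norm_sq, Complex.normSq_apply]
    simp
    ring
  rw [this]
  unfold chd
  field_simp
  ring

theorem chd_eq_pr (z w : ℍ) :
    chd z w = pr (-(w.re / w.im)) ((w.re ^ 2 + w.im ^ 2) / w.im) (-(1 / w.im)) z := by
  have hz := z.im_pos.ne'
  have hw := w.im_pos.ne'
  unfold chd pr
  field_simp
  ring

theorem chd_smul_left (a p q : ℝ) (h : a ^ 2 + p * q = 1) (z w : ℍ) :
    chd (rmat a p q h • z) w = chd z w + 2 * pr a p q z * pr a p q w := by
  have hz := z.im_pos.ne'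
  have hw := w.im_pos.ne'
  rw [chd_eq_pr, pr_smul, ← chd_eq_pr]
  have : a * -(w.re / w.im) + (p * -(1 / w.im) + q * ((w.re ^ 2 + w.im ^ 2) / w.im)) / 2 =
      - pr a p q w := by
    unfold pr
    field_simp
    ring
  rw [this]
  ring

theorem pr_smul_self (a p q : ℝ) (h : a ^ 2 + p * q = 1) (z : ℍ) :
    pr a p q (rmat a p q h • z) = - pr a p q z := by
  rw [pr_smul]
  linear_combination (-2 * pr a p q z) * h

theorem chd_smul_smul (a p q : ℝ) (h : a ^ 2 + p * q = 1) (z w : ℍ) :
    chd (rmat a p q h • z) (rmat a p q h • w) = chd z w := by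
  rw [chd_smul_left, pr_smul_self, chd_comm, chd_smul_left, chd_comm w z]
  ring

theorem dist_eq_of_chd_eq {z w z' w' : ℍ} (h : chd z w = chd z' w') : dist z w = dist z' w' := by
  rw [← cosh_dist_eq, ← cosh_dist_eq] at h
  have := congrArg Real.arcosh h
  rwa [Real.arcosh_cosh dist_nonneg, Real.arcosh_cosh dist_nonneg] at this

theorem dist_smul_smul (a p q : ℝ) (h : a ^ 2 + p * q = 1) (z w : ℍ) :
    dist (rmat a p q h • z) (rmat a p q h • w) = dist z w :=
  dist_eq_of_chd_eq (chd_smul_smul a p q h z w)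

theorem rmat_invol (a p q : ℝ) (h : a ^ 2 + p * q = 1) (z : ℍ) :
    rmat a p q h • (rmat a p q h • z) = z := by
  rw [← mul_smul]
  have : rmat a p q h * rmat a p q h = 1 := by
    ext i j
    fin_cases i <;> fin_cases j <;>
      simp [rmat, Matrix.GeneralLinearGroup.mkOfDetNeZero, Matrix.mul_apply, Fin.sum_univ_two] <;>
      nlinarith [h]
  rw [this, one_smul]

theorem rmat_comm (a p q : ℝ) (h : a ^ 2 + p * q = 1) (a' p' q' : ℝ) (h' : a' ^ 2 + p' * q' = 1)
    (horth : a * a' + (p * q' + q * p') / 2 = 0) (z : ℍ) :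
    rmat a p q h • (rmat a' p' q' h' • z) = rmat a' p' q' h' • (rmat a p q h • z) := by
  rw [← mul_smul, ← mul_smul]
  have : rmat a p q h * rmat a' p' q' h' = - (rmat a' p' q' h' * rmat a p q h) := by
    ext i j
    fin_cases i <;> fin_cases j <;>
      simp [rmat, Matrix.GeneralLinearGroup.mkOfDetNeZero, Matrix.mul_apply, Fin.sum_univ_two] <;>
      linarith [horth]
  rw [this, UpperHalfPlane.neg_smul]

end Pool.Agent.MP_e058c8_al
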