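import Mathlib

/-!
# Tits' lemma for right-angled reflection groups, abstract version
-/

namespace Pool.Agent.MP_e058c8_al

variable {B W X : Type*} [Group W] {M : CoxeterMatrix B} (cs : CoxeterSystem M W) [MulAction W X]

/-- Functions `f k` (signed distance to the wall `k`) transforming like linear forms under the
simple reflections; `-β j k` is the Gram matrix. -/
structure TitsData (f : B → X → ℝ) (β : B → B → ℝ) : Prop where
  diag : ∀ k x, f k (cs.simple k • x) = - f k x
  refl : ∀ j k, j ≠ k → ∀ x, f j (cs.simple k • x) = f j x + 2 * β j k * f k x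
  ge : ∀ j k, j ≠ k → M j k ≠ 2 → 1 ≤ β j k
  adj : ∀ j k, j ≠ k → M j k = 2 → β j k = 0

namespace TitsData

variable {cs} {f : B → X → ℝ} {β : B → B → ℝ}

theorem comm_of_two {j k : B} (h : M j k = 2) :
    cs.simple j * cs.simple k = cs.simple k * cs.simple j := by
  have h1 := cs.simple_mul_simple_pow j k
  rw [h, pow_two] at h1
  have h2 : (cs.simple j * cs.simple k)⁻¹ = cs.simple j * cs.simple k := inv_eq_of_mul_eq_one_left h1
  rw [← h2]; simp

theorem tits (T : TitsData cs f β) {c : ℝ} (hc : 0 ≤ c) {x : X} (hx : ∀ k, c ≤ f k x) :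
    ∀ (n : ℕ) (w : W), cs.length w = n →
      (∀ k, cs.length (cs.simple k * w) = n + 1 → c ≤ f k (w • x)) ∧
      (∀ j k, j ≠ k → M j k ≠ 2 → M k j ≠ 2 → cs.length (cs.simple k * w) = n + 1 →
        cs.length (cs.simple j * w) + 1 = n → 0 ≤ f k (w • x) + f j (w • x)) := by
  intro n
  induction n with
  | zero =>
    intro w hw
    rw [cs.length_eq_zero_iff] at hw
    subst hw
    refine ⟨fun k _ => by simpa using hx k, fun j k _ _ _ _ h => by omega⟩
  | succ n ih =>
    intro w hw
    -- basic facts for a left descent `j`
    have key : ∀ j, cs.length (cs.simple j * w) + 1 = n + 1 →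
        w • x = cs.simple j • ((cs.simple j * w) • x) ∧ c ≤ f j ((cs.simple j * w) • x) ∧
        f j (w • x) = - f j ((cs.simple j * w) • x) := by
      intro j hj
      have h0 : w • x = cs.simple j • ((cs.simple j * w) • x) := by
        rw [← mul_smul, ← mul_assoc]; simp
      refine ⟨h0, ?_, ?_⟩
      · refine (ih (cs.simple j * w) (by omega)).1 j ?_
        rw [← mul_assoc]; simp [hw]
      · conv_lhs => rw [h0]
        exact T.diag j _
    have S : ∀ j k, j ≠ k → M j k ≠ 2 → M k j ≠ 2 → cs.length (cs.simple k * w) = n + 1 + 1 →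
        cs.length (cs.simple j * w) + 1 = n + 1 → 0 ≤ f k (w • x) + f j (w • x) := by
      intro j k hjk hM hM' hk hj
      obtain ⟨h0, h1, h2⟩ := key j hj
      have h3 : f k (w • x) = f k ((cs.simple j * w) • x) +
          2 * β k j * f j ((cs.simple j * w) • x) := by
        conv_lhs => rw [h0]
        exact T.refl k j hjk.symm _
      have hβ := T.ge k j hjk.symm hM'
      have hfj : 0 ≤ f j ((cs.simple j * w) • x) := hc.trans h1
      have h4 : 0 ≤ f k ((cs.simple j * w) • x) + f j ((cs.simple j * w) • x) := by
        rcases cs.length_simple_mul (cs.simple j * w) k with h | h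
        · have := (ih (cs.simple j * w) (by omega)).1 k (by omega)
          linarith
        · have := (ih (cs.simple j * w) (by omega)).2 k j hjk.symm hM' hM (by
            rw [← mul_assoc]; simp [hw]) (by omega)
          linarith
      rw [h3, h2]
      nlinarith
    refine ⟨fun k hk => ?_, S⟩
    have hw1 : w ≠ 1 := by
      rintro rfl
      simp at hw
    obtain ⟨j, hj⟩ := cs.exists_leftDescent_of_ne_one hw1
    rw [cs.isLeftDescent_iff] at hj
    have hjk : j ≠ k := by
      rintro rfl
      omega
    obtain ⟨h0, h1, h2⟩ := key j (by omega)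
    by_cases hM : M j k = 2
    · have hM' : M k j = 2 := by rw [M.symmetric]; exact hM
      have h3 : f k (w • x) = f k ((cs.simple j * w) • x) := by
        conv_lhs => rw [h0]
        rw [T.refl k j hjk.symm, T.adj k j hjk.symm hM']
        ring
      rw [h3]
      refine (ih (cs.simple j * w) (by omega)).1 k ?_
      have h4 : cs.simple k * w = cs.simple j * (cs.simple k * (cs.simple j * w)) := by
        rw [← mul_assoc (cs.simple k), ← comm_of_two hM, ← mul_assoc, ← mul_assoc]
        simp
      have h5 : cs.length (cs.simple k * w) ≤ cs.length (cs.simple k * (cs.simple j * w)) + 1 := by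
        conv_lhs => rw [h4]
        refine (cs.length_mul_le _ _).trans ?_
        rw [cs.length_simple]; omega
      rcases cs.length_simple_mul (cs.simple j * w) k with h | h <;> omega
    · have hM' : M k j ≠ 2 := by rw [M.symmetric]; exact hM
      have := S j k hjk hM hM' hk (by omega)
      rw [h2] at this
      linarith

theorem pos_of_ascent (T : TitsData cs f β) {c : ℝ} (hc : 0 ≤ c) {x : X} (hx : ∀ k, c ≤ f k x)
    (w : W) (k : B) (h : cs.length (cs.simple k * w) = cs.length w + 1) : c ≤ f k (w • x) :=
  (T.tits hc hx _ w rfl).1 k h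

/-- Growth of the displacement function. -/
theorem growth (T : TitsData cs f β) {b : ℝ} (hb : 0 ≤ b) {x : X} (hx : ∀ k, f k x = b)
    {D : X → ℝ} (hD : ∀ k y, D (cs.simple k • y) = D y + 2 * b * f k y) (w : W) :
    D x + 2 * b ^ 2 * cs.length w ≤ D (w • x) := by
  generalize hn : cs.length w = n
  induction n generalizing w with
  | zero =>
    rw [cs.length_eq_zero_iff] at hn
    subst hn; simp
  | succ n ih =>
    have hw1 : w ≠ 1 := by
      rintro rfl
      simp at hn
    obtain ⟨j, hj⟩ := cs.exists_leftDescent_of_ne_one hw1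
    rw [cs.isLeftDescent_iff] at hj
    have h0 : w • x = cs.simple j • ((cs.simple j * w) • x) := by
      rw [← mul_smul, ← mul_assoc]; simp
    have h1 := ih (cs.simple j * w) (by omega)
    have h2 : b ≤ f j ((cs.simple j * w) • x) := by
      refine T.pos_of_ascent hb (fun k => (hx k).ge) _ _ ?_
      rw [← mul_assoc]; simp; omega
    rw [h0, hD]
    push_cast
    nlinarith

/-- The stabiliser of a point of the closed chamber is generated by simple reflections. -/
theorem stab (T : TitsData cs f β) {x : X} (hx : ∀ k, 0 ≤ f k x)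
    (hfix : ∀ k y, f k y = 0 → cs.simple k • y = y) (w : W) (hw : w • x = x) :
    w ∈ Subgroup.closure (cs.simple '' {k | f k x = 0}) := by
  generalize hn : cs.length w = n
  induction n generalizing w with
  | zero =>
    rw [cs.length_eq_zero_iff] at hn
    subst hn; exact one_mem _
  | succ n ih =>
    have hw1 : w ≠ 1 := by
      rintro rfl
      simp at hn
    obtain ⟨j, hj⟩ := cs.exists_leftDescent_of_ne_one hw1
    rw [cs.isLeftDescent_iff] at hj
    have h0 : w • x = cs.simple j • ((cs.simple j * w) • x) := by
      rw [← mul_smul, ← mul_assoc]; simp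
    have h2 : 0 ≤ f j ((cs.simple j * w) • x) := by
      refine T.pos_of_ascent le_rfl hx _ _ ?_
      rw [← mul_assoc]; simp; omega
    have h3 : f j (w • x) = - f j ((cs.simple j * w) • x) := by
      conv_lhs => rw [h0]
      exact T.diag j _
    have h4 : f j x = 0 := by
      have := hx j
      rw [hw] at h3
      linarith
    have h5 : (cs.simple j * w) • x = x := by
      rw [mul_smul, hw, hfix j x h4]
    have h6 := ih (cs.simple j * w) h5 (by omega)
    have h7 : w = cs.simple j * (cs.simple j * w) := by rw [← mul_assoc]; simp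
    rw [h7]
    exact mul_mem (Subgroup.subset_closure ⟨j, h4, rfl⟩) h6

/-- Every point can be moved into the closed chamber. -/
theorem exists_chamber {b : ℝ} (hb : 0 < b)
    {D : X → ℝ} (hD : ∀ k y, D (cs.simple k • y) = D y + 2 * b * f k y) (x : X)
    (hfin : {w : W | D (w • x) ≤ D x}.Finite) : ∃ w : W, ∀ k, 0 ≤ f k (w • x) := by
  obtain ⟨w, hw, hmin⟩ := Set.exists_min_image {w : W | D (w • x) ≤ D x} (fun w => D (w • x)) hfin
    ⟨1, by simp⟩
  refine ⟨w, fun k => ?_⟩
  by_contra hneg
  push Not at hneg
  have h1 : D ((cs.simple k * w) • x) < D (w • x) := by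
    rw [mul_smul, hD]
    nlinarith
  have h2 := hmin (cs.simple k * w) (by
    simp only [Set.mem_ofPred_eq] at hw ⊢
    linarith)
  linarith

/-- Balls for the word length are finite. -/
theorem finite_ball [Finite B] (n : ℕ) : {w : W | cs.length w ≤ n}.Finite := by
  have h : {w : W | cs.length w ≤ n} ⊆ cs.wordProd '' {l : List B | l.length ≤ n} := by
    intro w hw
    obtain ⟨ω, h1, h2⟩ := cs.exists_isReduced w
    refine ⟨ω, ?_, h2.symm⟩
    simp only [Set.mem_ofPred_eq] at hw ⊢
    rw [← h1.eq, ← h2]
    exact hw
  exact (Set.Finite.image _ (List.finite_length_le B n)).subset h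

end TitsData

end Pool.Agent.MP_e058c8_al
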