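import Pool.Agent.MP_e058c8_al.StdDefs
import Pool.Agent.MP_e058c8_al.StdTits
import Pool.Agent.MP_e058c8_al.StdPlane

/-!
# The regular right-angled `(2g+2)`-gon, `g ≥ 2`
-/

open UpperHalfPlane Matrix MatrixGroups

namespace Pool.Agent.MP_e058c8_al

/-- The angle `2π/(2g+2)`. -/
noncomputable def th (g : ℕ) : ℝ := Real.pi / (g + 1)

theorem th_pos (g : ℕ) : 0 < th g := by
  unfold th
  have := Real.pi_pos
  positivity

theorem th_mul (g : ℕ) : (2 * g + 2 : ℕ) * th g = 2 * Real.pi := by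
  unfold th
  push_cast
  field_simp

theorem th_le {g : ℕ} (hg : 2 ≤ g) : th g ≤ Real.pi / 3 := by
  unfold th
  have hg' : (2 : ℝ) ≤ g := by exact_mod_cast hg
  have := Real.pi_pos
  gcongr
  linarith

theorem cos_th_ge {g : ℕ} (hg : 2 ≤ g) : 1 / 2 ≤ Real.cos (th g) := by
  rw [← Real.cos_pi_div_three]
  apply Real.cos_le_cos_of_nonneg_of_le_pi (th_pos g).le _ (th_le hg)
  have := Real.pi_pos
  linarith

theorem cos_th_lt {g : ℕ} (hg : 2 ≤ g) : Real.cos (th g) < 1 := by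
  have h1 := th_pos g
  have h2 := th_le hg
  have := Real.pi_pos
  rw [← Real.cos_zero]
  exact Real.cos_lt_cos_of_nonneg_of_le_pi le_rfl (by linarith) h1

/-- `A² = 1/(1 - cos θ)`. -/
noncomputable def Aa (g : ℕ) : ℝ := Real.sqrt (1 / (1 - Real.cos (th g)))

noncomputable def bb (g : ℕ) : ℝ := Real.sqrt (Real.cos (th g) / (1 - Real.cos (th g)))

theorem Aa_sq {g : ℕ} (hg : 2 ≤ g) : Aa g ^ 2 = 1 / (1 - Real.cos (th g)) := by
  have := cos_th_lt hg
  unfold Aa
  rw [Real.sq_sqrt]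
  apply div_nonneg <;> linarith

theorem bb_sq {g : ℕ} (hg : 2 ≤ g) : bb g ^ 2 = Real.cos (th g) / (1 - Real.cos (th g)) := by
  have := cos_th_lt hg
  have := cos_th_ge hg
  unfold bb
  rw [Real.sq_sqrt]
  apply div_nonneg <;> linarith

theorem bb_pos {g : ℕ} (hg : 2 ≤ g) : 0 < bb g := by
  have := cos_th_lt hg
  have := cos_th_ge hg
  unfold bb
  apply Real.sqrt_pos.2
  apply div_pos <;> linarith

theorem Aa_pos {g : ℕ} (hg : 2 ≤ g) : 0 < Aa g := by
  have := cos_th_lt hg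
  unfold Aa
  apply Real.sqrt_pos.2
  apply div_pos <;> linarith

theorem Aa_sub {g : ℕ} (hg : 2 ≤ g) : Aa g ^ 2 - bb g ^ 2 = 1 := by
  have := cos_th_lt hg
  have h : 1 - Real.cos (th g) ≠ 0 := by linarith
  rw [Aa_sq hg, bb_sq hg]
  field_simp

theorem Aa_cos {g : ℕ} (hg : 2 ≤ g) : Aa g ^ 2 * Real.cos (th g) = bb g ^ 2 := by
  rw [Aa_sq hg, bb_sq hg]
  ring

/-- Components of the normals. -/
noncomputable def na (g k : ℕ) : ℝ := Aa g * Real.cos (k * th g)
noncomputable def np (g k : ℕ) : ℝ := Aa g * Real.sin (k * th g) + bb g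
noncomputable def nq (g k : ℕ) : ℝ := Aa g * Real.sin (k * th g) - bb g

theorem n_unit {g : ℕ} (hg : 2 ≤ g) (k : ℕ) : na g k ^ 2 + np g k * nq g k = 1 := by
  unfold na np nq
  have h1 := Real.sin_sq_add_cos_sq (k * th g)
  have h2 := Aa_sub hg
  linear_combination (Aa g ^ 2) * h1 + h2

/-- minus the Gram matrix -/
noncomputable def bet (g : ℕ) (j k : ℕ) : ℝ := bb g ^ 2 - Aa g ^ 2 * Real.cos (((j : ℝ) - k) * th g)

theorem bet_eq {g : ℕ} (j k : ℕ) :
    na g k * na g j + (np g k * nq g j + nq g k * np g j) / 2 = - bet g j k := by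
  have h : Real.cos (((j : ℝ) - k) * th g) = Real.cos (j * th g) * Real.cos (k * th g) +
      Real.sin (j * th g) * Real.sin (k * th g) := by
    rw [sub_mul, Real.cos_sub]
  unfold na np nq bet
  rw [h]
  ring

/-- The reflection in side `k`. -/
noncomputable def refl {g : ℕ} (hg : 2 ≤ g) (k : ℕ) : GL (Fin 2) ℝ :=
  rmat (na g k) (np g k) (nq g k) (n_unit hg k)

/-- The signed distance (up to `sinh`) to side `k`. -/
noncomputable def ff (g k : ℕ) (z : ℍ) : ℝ := pr (na g k) (np g k) (nq g k) z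

theorem ff_refl {g : ℕ} (hg : 2 ≤ g) (j k : ℕ) (z : ℍ) :
    ff g j (refl hg k • z) = ff g j z + 2 * bet g j k * ff g k z := by
  unfold ff refl
  rw [pr_smul, bet_eq]
  ring

theorem ff_refl_self {g : ℕ} (hg : 2 ≤ g) (k : ℕ) (z : ℍ) :
    ff g k (refl hg k • z) = - ff g k z := pr_smul_self _ _ _ _ _

theorem cos_adj {g : ℕ} {i j : Fin (2 * g + 2)} (h : padj g i j) :
    Real.cos (((i : ℕ) - (j : ℕ) : ℝ) * th g) = Real.cos (th g) := by
  have hth := th_mul g
  push_cast at hth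
  rcases h with h | h | ⟨h1, h2⟩ | ⟨h1, h2⟩
  · have : ((i : ℕ) - (j : ℕ) : ℝ) * th g = - th g := by
      rw [← h]; push_cast; ring
    rw [this, Real.cos_neg]
  · have : ((i : ℕ) - (j : ℕ) : ℝ) * th g = th g := by
      rw [← h]; push_cast; ring
    rw [this]
  · have : ((i : ℕ) - (j : ℕ) : ℝ) * th g = th g - 2 * Real.pi := by
      rw [h1, h2, ← hth]; push_cast; ring
    rw [this, Real.cos_sub_two_pi]
  · have : ((i : ℕ) - (j : ℕ) : ℝ) * th g = 2 * Real.pi - th g := by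
      rw [h1, h2, ← hth]; push_cast; ring
    rw [this, Real.cos_two_pi_sub]

theorem cos_nonadj {g : ℕ} {m : ℕ} (h2 : 2 ≤ m) (h3 : m ≤ 2 * g) :
    Real.cos (m * th g) ≤ Real.cos (2 * th g) := by
  have hth := th_mul g
  push_cast at hth
  have h0 := th_pos g
  have hm : (2 : ℝ) ≤ m := by exact_mod_cast h2
  have hm' : (m : ℝ) ≤ 2 * g := by exact_mod_cast h3
  rcases le_or_gt (m * th g) Real.pi with h | h
  · exact Real.cos_le_cos_of_nonneg_of_le_pi (by positivity) h (by nlinarith)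
  · have : Real.cos (m * th g) = Real.cos (2 * Real.pi - m * th g) := by
      rw [Real.cos_two_pi_sub]
    rw [this]
    refine Real.cos_le_cos_of_nonneg_of_le_pi (by positivity) (by linarith) ?_
    rw [← hth]
    nlinarith

theorem bet_ge {g : ℕ} (hg : 2 ≤ g) {i j : Fin (2 * g + 2)} (hij : i ≠ j) (h : ¬ padj g i j) :
    1 ≤ bet g i j := by
  have h1 : Real.cos (((i : ℕ) - (j : ℕ) : ℝ) * th g) ≤ Real.cos (2 * th g) := by
    unfold padj at h
    push Not at h
    have hi := i.isLt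
    have hj := j.isLt
    have hne : (i : ℕ) ≠ j := fun h => hij (Fin.ext h)
    rcases lt_or_gt_of_ne hne with hlt | hlt
    · have : ((i : ℕ) - (j : ℕ) : ℝ) * th g = - (((j : ℕ) - (i : ℕ) : ℕ) * th g) := by
        rw [Nat.cast_sub hlt.le]; ring
      rw [this, Real.cos_neg]
      apply cos_nonadj <;> omega
    · have : ((i : ℕ) - (j : ℕ) : ℝ) * th g = (((i : ℕ) - (j : ℕ) : ℕ) * th g) := by
        rw [Nat.cast_sub hlt.le]
      rw [this]
      apply cos_nonadj <;> omega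
  have h2 := Aa_sub hg
  have h3 := Aa_cos hg
  have h4 := cos_th_ge hg
  have h5 : Real.cos (2 * th g) = 2 * Real.cos (th g) ^ 2 - 1 := Real.cos_two_mul _
  have h6 : 0 ≤ Aa g ^ 2 := sq_nonneg _
  unfold bet
  have h7 : Aa g ^ 2 * Real.cos (((i : ℕ) - (j : ℕ) : ℝ) * th g) ≤
      Aa g ^ 2 * Real.cos (2 * th g) := mul_le_mul_of_nonneg_left h1 h6
  rw [h5] at h7
  have h8 : Aa g ^ 2 * (2 * Real.cos (th g) ^ 2 - 1) =
      2 * bb g ^ 2 * Real.cos (th g) - Aa g ^ 2 := by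
    rw [← h3]; ring
  rw [h8] at h7
  -- b² - 2 b² c + A² ≥ 1, where A² = b² + 1, A² c = b²
  nlinarith [Real.cos_le_one (th g), sq_nonneg (bb g), cos_th_lt hg, Aa_pos hg]

/-- `D z = cosh d(z, i)`. -/
noncomputable def DD (z : ℍ) : ℝ := chd z I

theorem DD_eq (z : ℍ) : DD z = (z.re ^ 2 + z.im ^ 2 + 1) / (2 * z.im) := by
  unfold DD chd
  simp

theorem ff_I {g : ℕ} (k : ℕ) : ff g k I = bb g := by
  unfold ff pr np nq
  simp

theorem DD_refl {g : ℕ} (hg : 2 ≤ g) (k : ℕ) (z : ℍ) :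
    DD (refl hg k • z) = DD z + 2 * bb g * ff g k z := by
  unfold DD refl
  rw [chd_smul_left]
  have : pr (na g k) (np g k) (nq g k) I = bb g := ff_I k
  rw [this]
  unfold ff
  ring

/-- Coordinates: `ff g k z = b D + A (cos(kθ) u + sin(kθ) v)`. -/
theorem ff_coord (g k : ℕ) (z : ℍ) :
    ff g k z = bb g * DD z + Aa g * (Real.cos (k * th g) * (z.re / z.im) +
      Real.sin (k * th g) * ((1 - (z.re ^ 2 + z.im ^ 2)) / (2 * z.im))) := by
  have hz := z.im_pos.ne'
  rw [DD_eq]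
  unfold ff pr na np nq
  field_simp
  ring

/-- Next side. -/
theorem exists_next (g : ℕ) (k : Fin (2 * g + 2)) : ∃ k' : Fin (2 * g + 2),
    Real.cos ((k' : ℕ) * th g) = Real.cos ((k : ℕ) * th g + th g) ∧
    Real.sin ((k' : ℕ) * th g) = Real.sin ((k : ℕ) * th g + th g) := by
  have hth := th_mul g
  push_cast at hth
  by_cases h : (k : ℕ) + 1 < 2 * g + 2
  · refine ⟨⟨k + 1, h⟩, ?_⟩
    push_cast
    rw [add_mul, one_mul]
    exact ⟨rfl, rfl⟩
  · have hk : (k : ℕ) = 2 * g + 1 := by omega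
    refine ⟨⟨0, by omega⟩, ?_⟩
    have : ((k : ℕ) : ℝ) * th g + th g = 2 * Real.pi := by
      rw [hk, ← hth]; push_cast; ring
    rw [this]
    simp

theorem exists_prev (g : ℕ) (k : Fin (2 * g + 2)) : ∃ k' : Fin (2 * g + 2),
    Real.cos ((k' : ℕ) * th g) = Real.cos ((k : ℕ) * th g - th g) ∧
    Real.sin ((k' : ℕ) * th g) = Real.sin ((k : ℕ) * th g - th g) := by
  have hth := th_mul g
  push_cast at hth
  by_cases h : 0 < (k : ℕ)
  · refine ⟨⟨k - 1, by omega⟩, ?_⟩
    have : (((k : ℕ) - 1 : ℕ) : ℝ) = (k : ℕ) - 1 := by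
      rw [Nat.cast_sub (by omega)]; simp
    rw [this, sub_mul, one_mul]
    exact ⟨rfl, rfl⟩
  · have hk : (k : ℕ) = 0 := by omega
    refine ⟨⟨2 * g + 1, by omega⟩, ?_⟩
    have : (((2 * g + 1 : ℕ) : ℝ)) * th g = - th g + 2 * Real.pi := by
      rw [← hth]; push_cast; ring
    simp only [this, hk]
    rw [Real.cos_add_two_pi, Real.sin_add_two_pi]
    simp

/-- The closed polygon is bounded. -/
theorem chamber_bounded {g : ℕ} (hg : 2 ≤ g) (z : ℍ) (hz : ∀ k : Fin (2 * g + 2), 0 ≤ ff g k z) :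
    DD z ^ 2 * (1 - Real.cos (th g)) ≤ 1 + Real.cos (th g) := by
  set u := z.re / z.im with hu
  set v := (1 - (z.re ^ 2 + z.im ^ 2)) / (2 * z.im) with hv
  set t := DD z with ht
  have hzi := z.im_pos
  have huv : u ^ 2 + v ^ 2 = t ^ 2 - 1 := by
    rw [hu, hv, ht, DD_eq]
    have hz := z.im_pos.ne'
    field_simp
    ring
  have ht0 : 0 ≤ t := by
    rw [ht, DD_eq]; positivity
  -- the side with maximal `m`
  obtain ⟨k, -, hk⟩ := Finset.exists_max_image (Finset.univ : Finset (Fin (2 * g + 2)))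
    (fun k => -(Real.cos ((k : ℕ) * th g) * u + Real.sin ((k : ℕ) * th g) * v))
    ⟨⟨0, by omega⟩, Finset.mem_univ _⟩
  set ck := Real.cos ((k : ℕ) * th g) with hck
  set sk := Real.sin ((k : ℕ) * th g) with hsk
  set m := -(ck * u + sk * v) with hm
  set q := sk * u - ck * v with hq
  have hcs : sk ^ 2 + ck ^ 2 = 1 := Real.sin_sq_add_cos_sq _
  have hmq : m ^ 2 + q ^ 2 = u ^ 2 + v ^ 2 := by
    rw [hm, hq]
    linear_combination (u ^ 2 + v ^ 2) * hcs
  set c := Real.cos (th g) with hc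
  set s := Real.sin (th g) with hs
  have hcs' : s ^ 2 + c ^ 2 = 1 := Real.sin_sq_add_cos_sq _
  have hs0 : 0 < s := Real.sin_pos_of_pos_of_lt_pi (th_pos g) (by
    have := th_le hg
    have := Real.pi_pos
    linarith)
  have hc1 : c < 1 := cos_th_lt hg
  have hc2 : 1 / 2 ≤ c := cos_th_ge hg
  obtain ⟨k₁, h1, h1'⟩ := exists_next g k
  obtain ⟨k₂, h2, h2'⟩ := exists_prev g k
  have e1 := hk k₁ (Finset.mem_univ _)
  have e2 := hk k₂ (Finset.mem_univ _)
  simp only [h1, h1', h2, h2', Real.cos_add, Real.sin_add, Real.cos_sub, Real.sin_sub] at e1 e2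
  rw [← hck, ← hsk, ← hc, ← hs] at e1 e2
  have e1' : s * q ≤ (1 - c) * m := by
    rw [hm, hq]; linarith
  have e2' : -(s * q) ≤ (1 - c) * m := by
    rw [hm, hq]; linarith
  have hm0 : 0 ≤ m := by
    have : 0 ≤ (1 - c) * m := by linarith
    exact nonneg_of_mul_nonneg_right this (by linarith)
  have e3 : (s * q) ^ 2 ≤ ((1 - c) * m) ^ 2 := by
    apply sq_le_sq'
    · linarith
    · exact e1'
  have e4 : (1 + c) * q ^ 2 ≤ (1 - c) * m ^ 2 := by
    have h3 : (s * q) ^ 2 = (1 - c) * ((1 + c) * q ^ 2) := by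
      linear_combination (q ^ 2) * hcs'
    have h4 : ((1 - c) * m) ^ 2 = (1 - c) * ((1 - c) * m ^ 2) := by ring
    rw [h3, h4] at e3
    exact le_of_mul_le_mul_left e3 (by linarith)
  have e5 : (1 + c) * (t ^ 2 - 1) ≤ 2 * m ^ 2 := by
    rw [← huv, ← hmq]; nlinarith
  have e6 : Aa g * m ≤ bb g * t := by
    have := hz k
    rw [ff_coord] at this
    rw [hm]
    linarith
  have e7 : m ^ 2 ≤ c * t ^ 2 := by
    have hA := Aa_pos hg
    have h5 : (Aa g * m) ^ 2 ≤ (bb g * t) ^ 2 := by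
      apply sq_le_sq' _ e6
      have := bb_pos hg
      have : 0 ≤ Aa g * m := by positivity
      have : 0 ≤ bb g * t := by positivity
      linarith
    have h6 : (bb g * t) ^ 2 = Aa g ^ 2 * (c * t ^ 2) := by
      rw [mul_pow, ← Aa_cos hg]; ring
    rw [h6, mul_pow] at h5
    exact le_of_mul_le_mul_left h5 (by positivity)
  nlinarith

/-- Two non-adjacent walls do not meet. -/
theorem walls_disjoint {g : ℕ} (hg : 2 ≤ g) {i j : Fin (2 * g + 2)} (hij : i ≠ j)
    (z : ℍ) (hi : ff g i z = 0) (hj : ff g j z = 0) : padj g i j := by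
  by_contra h
  have h1 := bet_ge hg hij h
  have h2 := bet_eq (g := g) i j
  have h3 := n_unit hg i
  have h4 := n_unit hg j
  have h5 : 0 < pr (na g i + na g j) (np g i + np g j) (nq g i + nq g j) z := by
    apply pr_pos_of_timelike
    · nlinarith
    · have := bb_pos hg
      unfold np nq
      linarith
  have h6 : pr (na g i + na g j) (np g i + np g j) (nq g i + nq g j) z = ff g i z + ff g j z := by
    unfold ff pr
    rw [← add_div]
    congr 1
    ring
  rw [h6, hi, hj] at h5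
  linarith

end Pool.Agent.MP_e058c8_al
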