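import Pool.Agent.MP_e058c8_al.StdDefs

open scoped commutatorElement

namespace Pool.Agent.MP_e058c8_al

namespace StdPres

/-- `Q z k = ∏_{j<k} [z j, z (j+1)]`. -/
def Q {G : Type*} [Group G] (z : ℕ → G) : ℕ → G
  | 0 => 1
  | k + 1 => Q z k * ⁅z k, z (k + 1)⁆

theorem zp_eq {G : Type*} [Group G] (z : ℕ → G) (h0 : z 0 = 1) (k : ℕ) :
    zp z k = Q z k * z k := by
  induction k with
  | zero => simp [zp, Q, h0]
  | succ k ih => rw [zp, Q, ih, commutatorElement_def]; group

theorem ident {G : Type*} [Group G] (x y X Y : G) :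
    ⁅x, y⁆ * ⁅y, X⁆ * ⁅X, Y⁆ =
      ⁅x, Y⁆ * ⁅Y * x * (Y⁻¹ * y) * (Y * x)⁻¹, Y * X * x⁻¹ * Y⁻¹⁆ := by
  simp only [commutatorElement_def]; group

/-- first generators -/
def A {G : Type*} [Group G] (z : ℕ → G) (Y : G) : ℕ → G
  | 0 => z 2
  | m + 1 => Y * z (2 * (m + 1)) * (Y⁻¹ * z (2 * (m + 1) + 1)) * (Y * z (2 * (m + 1)))⁻¹

/-- second generators -/
def B {G : Type*} [Group G] (z : ℕ → G) (Y : G) : ℕ → G
  | 0 => Y
  | m + 1 => Y * z (2 * (m + 2)) * (z (2 * (m + 1)))⁻¹ * Y⁻¹

theorem prod_AB {G : Type*} [Group G] (z : ℕ → G) (h0 : z 0 = 1) (h1 : z 1 = 1) (Y : G)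
    (m : ℕ) :
    (List.ofFn fun i : Fin (m + 1) => ⁅A z Y i, B z Y i⁆).prod =
      Q z (2 * (m + 1)) * ⁅z (2 * (m + 1)), Y⁆ := by
  induction m with
  | zero => simp [A, B, Q, h0, h1]
  | succ m ih =>
    rw [List.ofFn_succ', List.concat_eq_append, List.prod_append, List.prod_singleton]
    simp only [Fin.val_castSucc, Fin.val_last] at ih ⊢
    rw [ih]
    have e : 2 * (m + 1 + 1) = 2 * (m + 1) + 1 + 1 := by ring
    have h := ident (z (2 * (m + 1))) (z (2 * (m + 1) + 1)) (z (2 * (m + 1) + 1 + 1)) Y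
    simp only [A, B]
    rw [e, Q, Q, mul_assoc, ← h]
    simp only [mul_assoc]

/-- The relation in terms of `A`, `B`. -/
theorem rel_iff {G : Type*} [Group G] (z : ℕ → G) (h0 : z 0 = 1) (h1 : z 1 = 1) (g : ℕ)
    (hg : 1 ≤ g) :
    (List.ofFn fun i : Fin g => ⁅A z (z (2 * g + 1)) i, B z (z (2 * g + 1)) i⁆).prod = 1 ↔
      zp z (2 * g + 1) = z (2 * g + 1) := by
  obtain ⟨m, rfl⟩ : ∃ m, g = m + 1 := ⟨g - 1, by omega⟩
  rw [prod_AB z h0 h1, zp_eq z h0, Q]
  constructor
  · intro h; rw [h, one_mul]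
  · intro h; exact mul_eq_right.mp h

/-- `c_0 = a_0`, `c_{k+1} = b_k c_k`. -/
def c {G : Type*} [Group G] (a b : ℕ → G) : ℕ → G
  | 0 => a 0
  | k + 1 => b k * c a b k

/-- The new generators. -/
def Zs {G : Type*} [Group G] (g : ℕ) (a b : ℕ → G) (n : ℕ) : G :=
  if n ≤ 1 then 1 else if n = 2 * g + 1 then b 0 else
    if n % 2 = 0 then (b 0)⁻¹ * c a b (n / 2) else
      b 0 * (c a b (n / 2))⁻¹ * a (n / 2) * c a b (n / 2)

theorem Zs_zero {G : Type*} [Group G] (g : ℕ) (a b : ℕ → G) : Zs g a b 0 = 1 := by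
  simp [Zs]

theorem Zs_one {G : Type*} [Group G] (g : ℕ) (a b : ℕ → G) : Zs g a b 1 = 1 := by
  simp [Zs]

theorem Zs_last {G : Type*} [Group G] (g : ℕ) (hg : 1 ≤ g) (a b : ℕ → G) :
    Zs g a b (2 * g + 1) = b 0 := by
  unfold Zs
  rw [if_neg (by omega), if_pos rfl]

theorem Zs_even {G : Type*} [Group G] (g : ℕ) (a b : ℕ → G) (k : ℕ) (hk : 1 ≤ k) :
    Zs g a b (2 * k) = (b 0)⁻¹ * c a b k := by
  unfold Zs
  rw [if_neg (by omega), if_neg (by omega), if_pos (by omega),
    show 2 * k / 2 = k by omega]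

theorem Zs_odd {G : Type*} [Group G] (g : ℕ) (a b : ℕ → G) (k : ℕ) (hk : 1 ≤ k) (hkg : k < g) :
    Zs g a b (2 * k + 1) = b 0 * (c a b k)⁻¹ * a k * c a b k := by
  unfold Zs
  rw [if_neg (by omega), if_neg (by omega), if_neg (by omega),
    show (2 * k + 1) / 2 = k by omega]

theorem A_Zs {G : Type*} [Group G] (g : ℕ) (a b : ℕ → G) (m : ℕ) (hm : m < g) :
    A (Zs g a b) (b 0) m = a m := by
  cases m with
  | zero =>
    have := Zs_even g a b 1 le_rfl
    simp only [A]
    rw [show (2 : ℕ) = 2 * 1 by rfl, this, c, c]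
    group
  | succ m =>
    simp only [A]
    rw [Zs_even g a b (m + 1) (by omega), Zs_odd g a b (m + 1) (by omega) hm]
    group

theorem B_Zs {G : Type*} [Group G] (g : ℕ) (a b : ℕ → G) (m : ℕ) :
    B (Zs g a b) (b 0) m = b m := by
  cases m with
  | zero => rfl
  | succ m =>
    simp only [B]
    rw [Zs_even g a b (m + 1) (by omega), Zs_even g a b (m + 2) (by omega),
      show c a b (m + 2) = b (m + 1) * c a b (m + 1) from rfl]
    group

end StdPres

open StdPres in
/-- Another presentation of the surface group: generators `Z 2, …, Z (2g+1)`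
(`Z 0 = Z 1 = 1`), relation `zp Z (2g+1) = Z (2g+1)`. See BLUEPRINT_STD.md, part 1. -/
theorem exists_zgen (g : ℕ) (hg : 1 ≤ g) :
    ∃ Z : ℕ → SurfaceGroup g, Z 0 = 1 ∧ Z 1 = 1 ∧ zp Z (2 * g + 1) = Z (2 * g + 1) ∧
      Subgroup.closure (Set.range fun k : Fin (2 * g + 2) => Z k) = ⊤ ∧
      ∀ (H : Type) [Group H] (z : ℕ → H), z 0 = 1 → z 1 = 1 →
        zp z (2 * g + 1) = z (2 * g + 1) →
        ∃ φ : SurfaceGroup g →* H, ∀ k ≤ 2 * g + 1, φ (Z k) = z k := by
  -- the old generators as total functions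
  set rels : Set (FreeGroup (Fin g ⊕ Fin g)) := {surfaceRelator g} with hrels
  let a : ℕ → SurfaceGroup g := fun k =>
    if h : k < g then PresentedGroup.of (rels := rels) (Sum.inl ⟨k, h⟩) else 1
  let b : ℕ → SurfaceGroup g := fun k =>
    if h : k < g then PresentedGroup.of (rels := rels) (Sum.inr ⟨k, h⟩) else 1
  have ha : ∀ i : Fin g, a i = PresentedGroup.of (rels := rels) (Sum.inl i) := by
    intro i; simp only [a]; rw [dif_pos i.2]
  have hb : ∀ i : Fin g, b i = PresentedGroup.of (rels := rels) (Sum.inr i) := by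
    intro i; simp only [b]; rw [dif_pos i.2]
  have hlast := Zs_last g hg a b
  refine ⟨Zs g a b, Zs_zero g a b, Zs_one g a b, ?_, ?_, ?_⟩
  · rw [← rel_iff _ (Zs_zero g a b) (Zs_one g a b) g hg, hlast]
    have h1 : (List.ofFn fun i : Fin g => ⁅A (Zs g a b) (b 0) i, B (Zs g a b) (b 0) i⁆) =
        List.ofFn fun i : Fin g => PresentedGroup.mk rels
          ⁅FreeGroup.of (Sum.inl i : Fin g ⊕ Fin g), FreeGroup.of (Sum.inr i : Fin g ⊕ Fin g)⁆ := by
      congr 1
      funext i
      rw [A_Zs g a b i i.2, B_Zs g a b i, ha, hb, map_commutatorElement]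
      rfl
    rw [h1]
    have h2 : (List.ofFn fun i : Fin g => PresentedGroup.mk rels
          ⁅FreeGroup.of (Sum.inl i : Fin g ⊕ Fin g), FreeGroup.of (Sum.inr i : Fin g ⊕ Fin g)⁆) =
        (List.ofFn fun i : Fin g =>
          ⁅FreeGroup.of (Sum.inl i : Fin g ⊕ Fin g),
            FreeGroup.of (Sum.inr i : Fin g ⊕ Fin g)⁆).map (PresentedGroup.mk rels) := by
      rw [List.map_ofFn]; rfl
    rw [h2, ← map_list_prod]
    change PresentedGroup.mk rels (surfaceRelator g) = 1
    exact PresentedGroup.one_of_mem (by simp [hrels])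
  · rw [eq_top_iff, ← PresentedGroup.closure_range_of, Subgroup.closure_le]
    have hZ : ∀ k, k ≤ 2 * g + 1 → Zs g a b k ∈
        Subgroup.closure (Set.range fun k : Fin (2 * g + 2) => Zs g a b k) := by
      intro k hk
      exact Subgroup.subset_closure ⟨⟨k, by omega⟩, rfl⟩
    have hb0 : b 0 ∈ Subgroup.closure (Set.range fun k : Fin (2 * g + 2) => Zs g a b k) := by
      rw [← hlast]; exact hZ _ le_rfl
    rintro _ ⟨i | i, rfl⟩
    · rw [← ha i, ← A_Zs g a b i i.2]
      rcases i with ⟨i, hi⟩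
      cases i with
      | zero => exact hZ 2 (by omega)
      | succ m =>
        simp only [A]
        have e1 := hZ (2 * (m + 1)) (by omega)
        have e2 := hZ (2 * (m + 1) + 1) (by omega)
        exact mul_mem (mul_mem (mul_mem hb0 e1) (mul_mem (inv_mem hb0) e2))
          (inv_mem (mul_mem hb0 e1))
    · rw [← hb i, ← B_Zs g a b i]
      rcases i with ⟨i, hi⟩
      cases i with
      | zero => exact hb0
      | succ m =>
        simp only [B]
        have e1 := hZ (2 * (m + 1)) (by omega)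
        have e2 := hZ (2 * (m + 2)) (by omega)
        exact mul_mem (mul_mem (mul_mem hb0 e2) (inv_mem e1)) (inv_mem hb0)
  · intro H _ z h0 h1 hz
    set Y := z (2 * g + 1) with hY
    let f : Fin g ⊕ Fin g → H := Sum.elim (fun i => A z Y i) (fun i => B z Y i)
    have hrel : ∀ r ∈ rels, FreeGroup.lift f r = 1 := by
      intro r hr
      rw [hrels, Set.mem_singleton_iff] at hr
      subst hr
      rw [surfaceRelator, map_list_prod, List.map_ofFn]
      rw [← rel_iff z h0 h1 g hg] at hz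
      rw [← hz]
      congr 2
      funext i
      simp [f, map_commutatorElement, hY]
    let φ : SurfaceGroup g →* H := PresentedGroup.toGroup hrel
    have hφa : ∀ k, k < g → φ (a k) = A z Y k := by
      intro k hk
      have := ha ⟨k, hk⟩
      simp only at this
      rw [this]
      exact PresentedGroup.toGroup.of hrel
    have hφb : ∀ k, k < g → φ (b k) = B z Y k := by
      intro k hk
      have := hb ⟨k, hk⟩
      simp only at this
      rw [this]
      exact PresentedGroup.toGroup.of hrel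
    have hφc : ∀ k, k < g → φ (c a b (k + 1)) = Y * z (2 * (k + 1)) := by
      intro k
      induction k with
      | zero =>
        intro hk
        rw [c, c, map_mul, hφa 0 hk, hφb 0 hk]
        rfl
      | succ k ih =>
        intro hk
        rw [c, map_mul, ih (by omega), hφb _ hk]
        simp only [B]
        group
    have hb0 : φ (b 0) = Y := hφb 0 (by omega)
    refine ⟨φ, ?_⟩
    intro k hk
    rcases Nat.lt_or_ge k 2 with hk2 | hk2
    · rcases (by omega : k = 0 ∨ k = 1) with rfl | rfl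
      · rw [Zs_zero, map_one, h0]
      · rw [Zs_one, map_one, h1]
    · rcases Nat.even_or_odd' k with ⟨m, rfl | rfl⟩
      · obtain ⟨m, rfl⟩ : ∃ n, m = n + 1 := ⟨m - 1, by omega⟩
        rw [Zs_even g a b (m + 1) (by omega), map_mul, map_inv, hb0, hφc m (by omega)]
        group
      · obtain ⟨m, rfl⟩ : ∃ n, m = n + 1 := ⟨m - 1, by omega⟩
        rcases Nat.lt_or_ge (m + 1) g with hm | hm
        · rw [Zs_odd g a b (m + 1) (by omega) hm]
          simp only [map_mul, map_inv]
          rw [hb0, hφc m (by omega), hφa _ hm]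
          simp only [A]
          group
        · have : m + 1 = g := by omega
          rw [this, hlast, hb0]

end Pool.Agent.MP_e058c8_al
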