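import Pool.Agent.MP_e058c8_al.Defs

set_option autoImplicit false

namespace Pool.Agent.MP_e058c8_al

variable {G 𝒴 : Type*} [Group G] [MulAction G 𝒴] {P : Subgroup G} {κ : ℕ}
  {d : 𝒴 → 𝒴 → 𝒴 → ℕ} {cr : 𝒴 → 𝒴 → Prop} {cd : 𝒴 → 𝒴 → ℕ} {A : 𝒴} {a h : G}

namespace Tracks

/-- the reversed track -/
theorem track_rev (hP : Proj P κ d cr cd A a h) {z : ℤ → 𝒴} (hz : Track κ d cr z) :
    Track κ d cr (fun j => z (-j)) where
  cr j := by
    have h1 := hz.cr (-(j + 1))
    rw [show -(j + 1) + 1 = -j by ring] at h1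
    exact hP.cr_symm _ _ h1
  turn j := by
    have h1 := hz.turn (-j)
    rw [hP.d_symm] at h1
    show 20 * κ + 20 ≤ d (z (-j)) (z (-(j - 1))) (z (-(j + 1)))
    rw [show -(j - 1) = -j + 1 by ring, show -(j + 1) = -j - 1 by ring]
    exact h1

theorem fwd_iff (z : ℤ → 𝒴) (j : ℤ) (x : 𝒴) :
    Fwd κ d z j x ↔ Back κ d (fun j => z (-j)) (-j) x := by
  unfold Fwd Back
  simp only [neg_neg]
  rw [show -(-j - 1) = j + 1 by ring]

theorem ne_succ (hP : Proj P κ d cr cd A a h) {z : ℤ → 𝒴} (hz : Track κ d cr z) (j : ℤ) :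
    z j ≠ z (j + 1) := hP.cr_ne _ _ (hz.cr j)

theorem ne_pred (hP : Proj P κ d cr cd A a h) {z : ℤ → 𝒴} (hz : Track κ d cr z) (j : ℤ) :
    z (j - 1) ≠ z j := by
  have := ne_succ hP hz (j - 1)
  rwa [sub_add_cancel] at this

theorem T1 (hP : Proj P κ d cr cd A a h) {z : ℤ → 𝒴} (hz : Track κ d cr z) (i : ℤ) (m : ℕ) :
    z i ≠ z (i + m + 1) ∧ d (z (i + m + 1)) (z i) (z (i + m)) ≤ κ := by
  induction m with
  | zero =>
    simp only [Nat.cast_zero, add_zero]
    exact ⟨ne_succ hP hz i, by rw [hP.d_self]; exact Nat.zero_le _⟩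
  | succ m ih =>
    obtain ⟨h1, h2⟩ := ih
    set j : ℤ := i + m + 1 with hj
    have e1 : i + m = j - 1 := by rw [hj]; ring
    have e2 : i + ((m + 1 : ℕ) : ℤ) + 1 = j + 1 := by rw [hj]; push_cast; ring
    have e3 : i + ((m + 1 : ℕ) : ℤ) = j := by rw [hj]; push_cast; ring
    rw [e1] at h2
    rw [e2, e3]
    have h3 := hz.turn j
    have h4 := hP.d_tri (z j) (z (j - 1)) (z i) (z (j + 1)) (ne_pred hP hz j) h1
      (ne_succ hP hz j).symm
    rw [hP.d_symm (z j) (z (j - 1)) (z i)] at h4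
    have h5 : κ < d (z j) (z i) (z (j + 1)) := by omega
    have h6 : z i ≠ z (j + 1) := by
      intro h
      rw [h, hP.d_self] at h5
      omega
    refine ⟨h6, ?_⟩
    rcases hP.beh (z (j + 1)) (z j) (z i) (ne_succ hP hz j).symm h6.symm h1.symm with h7 | h7
    · rw [hP.d_symm] at h7; omega
    · rwa [hP.d_symm]

theorem ne_of_lt (hP : Proj P κ d cr cd A a h) {z : ℤ → 𝒴} (hz : Track κ d cr z) {i j : ℤ}
    (hij : i < j) : z i ≠ z j := by
  obtain ⟨m, hm⟩ := Int.eq_ofNat_of_zero_le (show 0 ≤ j - i - 1 by omega)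
  have h1 := (T1 hP hz i m).1
  rwa [show i + (m : ℤ) + 1 = j by omega] at h1

theorem proj_lt (hP : Proj P κ d cr cd A a h) {z : ℤ → 𝒴} (hz : Track κ d cr z) {i j : ℤ}
    (hij : i < j) : d (z j) (z i) (z (j - 1)) ≤ κ := by
  obtain ⟨m, hm⟩ := Int.eq_ofNat_of_zero_le (show 0 ≤ j - i - 1 by omega)
  have h1 := (T1 hP hz i m).2
  rwa [show i + (m : ℤ) + 1 = j by omega, show i + (m : ℤ) = j - 1 by omega] at h1

theorem proj_gt (hP : Proj P κ d cr cd A a h) {z : ℤ → 𝒴} (hz : Track κ d cr z) {j k : ℤ}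
    (hjk : j < k) : d (z j) (z k) (z (j + 1)) ≤ κ := by
  have h1 := proj_lt hP (track_rev hP hz) (show -k < -j by omega)
  simp only [neg_neg] at h1
  rwa [show -(-j - 1) = j + 1 by ring] at h1

theorem big_mid (hP : Proj P κ d cr cd A a h) {z : ℤ → 𝒴} (hz : Track κ d cr z) {i j k : ℤ}
    (hij : i < j) (hjk : j < k) :
    d (z j) (z (j - 1)) (z (j + 1)) ≤ d (z j) (z i) (z k) + 4 * κ := by
  have n1 := ne_of_lt hP hz hij
  have n2 := (ne_of_lt hP hz hjk).symm
  have n3 := ne_pred hP hz j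
  have n4 := (ne_succ hP hz j).symm
  have h1 := proj_lt hP hz hij
  have h2 := proj_gt hP hz hjk
  have h3 := hP.d_tri (z j) (z (j - 1)) (z i) (z (j + 1)) n3 n1 n4
  have h4 := hP.d_tri (z j) (z i) (z k) (z (j + 1)) n1 n2 n4
  rw [hP.d_symm (z j) (z (j - 1)) (z i)] at h3
  omega

theorem not_back_fwd (hP : Proj P κ d cr cd A a h) {z : ℤ → 𝒴} (hz : Track κ d cr z) {j : ℤ}
    {x : 𝒴} (hb : Back κ d z j x) (hf : Fwd κ d z j x) : False := by
  obtain ⟨h1, h2⟩ := hb
  obtain ⟨-, h3⟩ := hf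
  have h4 := hP.d_tri (z j) (z (j - 1)) x (z (j + 1)) (ne_pred hP hz j) h1
    (ne_succ hP hz j).symm
  rw [hP.d_symm (z j) (z (j - 1)) x] at h4
  have := hz.turn j
  omega

theorem fwd_pred (hP : Proj P κ d cr cd A a h) {z : ℤ → 𝒴} (hz : Track κ d cr z) {j : ℤ}
    {x : 𝒴} (hb : ¬ Back κ d z j x) : Fwd κ d z (j - 1) x := by
  have hne := ne_pred hP hz j
  unfold Fwd
  rw [sub_add_cancel]
  by_cases hx : x = z j
  · rw [hx]
    exact ⟨hne.symm, by rw [hP.d_self]; exact Nat.zero_le _⟩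
  · have h1 : κ < d (z j) x (z (j - 1)) := by
      by_contra hcon
      exact hb ⟨hx, not_lt.1 hcon⟩
    have h2 : x ≠ z (j - 1) := by
      intro h
      rw [h, hP.d_self] at h1
      omega
    refine ⟨h2, ?_⟩
    rcases hP.beh (z (j - 1)) (z j) x hne h2.symm (Ne.symm hx) with h3 | h3
    · rw [hP.d_symm] at h3; omega
    · rwa [hP.d_symm]

theorem back_succ (hP : Proj P κ d cr cd A a h) {z : ℤ → 𝒴} (hz : Track κ d cr z) {j : ℤ}
    {x : 𝒴} (hf : ¬ Fwd κ d z j x) : Back κ d z (j + 1) x := by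
  rw [fwd_iff] at hf
  have h1 := fwd_pred hP (track_rev hP hz) hf
  rw [fwd_iff] at h1
  simp only [neg_neg] at h1
  rwa [show -(-j - 1) = j + 1 by ring] at h1

/-- the set `{j | ¬ Back j x}` is closed downwards -/
theorem not_back_mono (hP : Proj P κ d cr cd A a h) {z : ℤ → 𝒴} (hz : Track κ d cr z)
    {i j : ℤ} {x : 𝒴} (hij : i ≤ j) (hb : ¬ Back κ d z j x) : ¬ Back κ d z i x := by
  obtain ⟨m, hm⟩ := Int.eq_ofNat_of_zero_le (show 0 ≤ j - i by omega)
  have key : ∀ m : ℕ, ¬ Back κ d z (j - m) x := by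
    intro m
    induction m with
    | zero => simpa using hb
    | succ m ih =>
      intro hb'
      have h1 := fwd_pred hP hz ih
      rw [show j - (m : ℤ) - 1 = j - ((m + 1 : ℕ) : ℤ) by push_cast; ring] at h1
      exact not_back_fwd hP hz hb' h1
  have := key m
  rwa [show j - (m : ℤ) = i by omega] at this

theorem bdd_above (hP : Proj P κ d cr cd A a h) {z : ℤ → 𝒴} (hz : Track κ d cr z)
    (hcd : ∀ i j : ℤ, i ≤ j → (cd (z i) (z j) : ℤ) = j - i) {j : ℤ} {x : 𝒴}
    (hb : ¬ Back κ d z j x) : j ≤ cd (z 0) x + 1 := by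
  by_contra hcon
  have hj : (0 : ℤ) < j - 1 := by
    have : (0 : ℤ) ≤ cd (z 0) x := Int.natCast_nonneg _
    omega
  obtain ⟨h1, h2⟩ := fwd_pred hP hz hb
  rw [sub_add_cancel] at h2
  have n1 := ne_of_lt hP hz hj
  have n3 := ne_pred hP hz (j - 1)
  have n4 : z j ≠ z (j - 1) := (ne_pred hP hz j).symm
  have h3 := proj_lt hP hz hj
  have h4 := hz.turn (j - 1)
  rw [sub_add_cancel] at h4
  have h5 := hP.d_tri (z (j - 1)) (z (j - 1 - 1)) (z 0) (z j) n3 n1 n4
  have h6 := hP.d_tri (z (j - 1)) (z 0) x (z j) n1 h1 n4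
  rw [hP.d_symm (z (j - 1)) (z (j - 1 - 1)) (z 0)] at h5
  have h7 : κ < d (z (j - 1)) (z 0) x := by omega
  have h8 := hP.bgi (z 0) (z (j - 1)) x n1 h1 h7
  have h9 := hcd 0 (j - 1) hj.le
  omega

end Tracks

open Tracks

theorem cd_track (hP : Proj P κ d cr cd A a h) {z : ℤ → 𝒴} (hz : Track κ d cr z) {i j : ℤ}
    (hij : i ≤ j) : (cd (z i) (z j) : ℤ) = j - i := by
  obtain ⟨m, hm⟩ := Int.eq_ofNat_of_zero_le (show 0 ≤ j - i by omega)
  have key : ∀ m : ℕ, cd (z i) (z (i + m)) = m := by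
    intro m
    induction m with
    | zero => simp [hP.cd_self]
    | succ m ih =>
      rcases Nat.eq_zero_or_pos m with h0 | h0
      · subst h0
        simpa using hP.cd_cr _ _ (hz.cr i)
      · have hlt : i < i + (m : ℤ) := by omega
        have hlt' : i + (m : ℤ) < i + (m : ℤ) + 1 := by omega
        have h1 := big_mid hP hz hlt hlt'
        have h2 := hz.turn (i + m)
        have h3 := hP.bgi (z i) (z (i + m)) (z (i + m + 1)) (ne_of_lt hP hz hlt)
          (ne_of_lt hP hz hlt').symm (by omega)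
        have e : i + ((m + 1 : ℕ) : ℤ) = i + m + 1 := by push_cast; ring
        rw [e, h3, ih, hP.cd_cr _ _ (hz.cr _)]
  have := key m
  rw [show i + (m : ℤ) = j by omega] at this
  rw [this]
  omega

namespace Tracks

theorem nonempty_bdd (hP : Proj P κ d cr cd A a h) {z : ℤ → 𝒴} (hz : Track κ d cr z) (x : 𝒴) :
    {j : ℤ | ¬ Back κ d z j x}.Nonempty ∧ BddAbove {j : ℤ | ¬ Back κ d z j x} := by
  constructor
  · have hr := track_rev hP hz
    by_contra hcon
    rw [Set.not_nonempty_iff_eq_empty, Set.eq_empty_iff_forall_notMem] at hcon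
    have h1 : ∀ j : ℤ, ¬ Back κ d (fun j => z (-j)) j x := by
      intro j hb
      have h2 : ¬¬ Back κ d z (-j) x := hcon (-j)
      rw [not_not] at h2
      refine not_back_fwd hP hz h2 ?_
      rw [fwd_iff, neg_neg]
      exact hb
    have h3 : ((cd (z (-0)) x : ℕ) : ℤ) + 2 ≤ ((cd (z (-0)) x : ℕ) : ℤ) + 1 :=
      bdd_above hP hr (fun i j hij => cd_track hP hr hij) (h1 _)
    omega
  · exact ⟨_, fun j hj => bdd_above hP hz (fun i j hij => cd_track hP hz hij) hj⟩

theorem not_back_coord (hP : Proj P κ d cr cd A a h) {z : ℤ → 𝒴} (hz : Track κ d cr z) (x : 𝒴) :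
    ¬ Back κ d z (coord κ d z x) x := by
  obtain ⟨h1, h2⟩ := nonempty_bdd hP hz x
  exact Int.csSup_mem h1 h2

theorem le_coord (hP : Proj P κ d cr cd A a h) {z : ℤ → 𝒴} (hz : Track κ d cr z) {x : 𝒴} {j : ℤ}
    (hj : ¬ Back κ d z j x) : j ≤ coord κ d z x :=
  le_csSup (nonempty_bdd hP hz x).2 hj

theorem coord_eq (hP : Proj P κ d cr cd A a h) {z : ℤ → 𝒴} (hz : Track κ d cr z) {x : 𝒴} {m : ℤ}
    (h1 : ¬ Back κ d z m x) (h2 : Back κ d z (m + 1) x) : coord κ d z x = m := by
  apply le_antisymm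
  · by_contra hcon
    exact not_back_mono hP hz (show m + 1 ≤ coord κ d z x by omega) (not_back_coord hP hz x) h2
  · exact le_coord hP hz h1

end Tracks

theorem back_of_lt (hP : Proj P κ d cr cd A a h) {z : ℤ → 𝒴} (hz : Track κ d cr z) {x : 𝒴} {j : ℤ}
    (hj : coord κ d z x < j) : Back κ d z j x := by
  by_contra hcon
  have := le_coord hP hz hcon
  omega

theorem fwd_of_lt (hP : Proj P κ d cr cd A a h) {z : ℤ → 𝒴} (hz : Track κ d cr z) {x : 𝒴} {j : ℤ}
    (hj : j < coord κ d z x) : Fwd κ d z j x := by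
  have h1 := not_back_mono hP hz (show j + 1 ≤ coord κ d z x by omega) (not_back_coord hP hz x)
  have h2 := fwd_pred hP hz h1
  rwa [add_sub_cancel_right] at h2

theorem coord_self (hP : Proj P κ d cr cd A a h) {z : ℤ → 𝒴} (hz : Track κ d cr z) (j : ℤ) :
    coord κ d z (z j) = j := by
  apply coord_eq hP hz
  · exact fun hb => hb.1 rfl
  · refine ⟨ne_succ hP hz j, ?_⟩
    have := proj_lt hP hz (show j < j + 1 by omega)
    exact this

theorem z_inj (hP : Proj P κ d cr cd A a h) {z : ℤ → 𝒴} (hz : Track κ d cr z) {i j : ℤ}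
    (hij : z i = z j) : i = j := by
  have := coord_self hP hz i
  rw [hij, coord_self hP hz j] at this
  exact this.symm

theorem track_smul (hP : Proj P κ d cr cd A a h) {z : ℤ → 𝒴} (hz : Track κ d cr z) (g : G) :
    Track κ d cr (fun j => g • z j) where
  cr j := hP.cr_smul g _ _ (hz.cr j)
  turn j := by
    show 20 * κ + 20 ≤ d (g • z j) (g • z (j - 1)) (g • z (j + 1))
    rw [hP.d_smul]
    exact hz.turn j

theorem coord_smul (hP : Proj P κ d cr cd A a h) (z : ℤ → 𝒴) (g : G) (x : 𝒴) :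
    coord κ d (fun j => g • z j) (g • x) = coord κ d z x := by
  unfold coord
  congr 1
  ext j
  simp only [Set.mem_ofPred_eq]
  unfold Back
  rw [hP.d_smul, (MulAction.injective g).ne_iff]

theorem coord_shift (hP : Proj P κ d cr cd A a h) {z : ℤ → 𝒴} (hz : Track κ d cr z) (n : ℤ)
    (x : 𝒴) : coord κ d (fun j => z (j + n)) x = coord κ d z x - n := by
  have ht : Track κ d cr (fun j => z (j + n)) :=
    { cr := fun j => by
        have := hz.cr (j + n)
        show cr (z (j + n)) (z (j + 1 + n))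
        rwa [show j + 1 + n = j + n + 1 by ring]
      turn := fun j => by
        have := hz.turn (j + n)
        show 20 * κ + 20 ≤ d (z (j + n)) (z (j - 1 + n)) (z (j + 1 + n))
        rwa [show j + 1 + n = j + n + 1 by ring, show j - 1 + n = j + n - 1 by ring] }
  have hb : ∀ j, Back κ d (fun j => z (j + n)) j x ↔ Back κ d z (j + n) x := by
    intro j
    show (x ≠ z (j + n) ∧ d (z (j + n)) x (z (j - 1 + n)) ≤ κ) ↔ _
    rw [show j - 1 + n = j + n - 1 by ring]
    rfl
  apply coord_eq hP ht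
  · rw [hb, sub_add_cancel]
    exact not_back_coord hP hz x
  · rw [hb]
    apply back_of_lt hP hz
    omega

theorem coord_rot (hP : Proj P κ d cr cd A a h) {z : ℤ → 𝒴} (hz : Track κ d cr z) {n : ℤ} {r : G}
    (hr : ∀ j, z (j + n) = r • z j) (x : 𝒴) : coord κ d z (r • x) = coord κ d z x + n := by
  have h1 := coord_shift hP hz n (r • x)
  have h2 : (fun j => z (j + n)) = fun j => r • z j := funext hr
  rw [h2, coord_smul hP] at h1
  omega

namespace Tracks

theorem coord_lip_aux (hP : Proj P κ d cr cd A a h) {z : ℤ → 𝒴} (hz : Track κ d cr z) {x y : 𝒴}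
    (hxy : cr x y) : coord κ d z y ≤ coord κ d z x + 1 := by
  set j := coord κ d z x + 1 with hj
  obtain ⟨h1, h2⟩ := back_of_lt hP hz (show coord κ d z x < j by omega)
  by_cases hy : y = z j
  · rw [hy, coord_self hP hz]
  · have h3 := hP.d_cr (z j) x y hxy h1 hy
    have h4 := hP.d_tri (z j) y x (z (j - 1)) hy h1 (ne_pred hP hz j)
    rw [hP.d_symm (z j) y x] at h4
    have h5 : ¬ Fwd κ d z j y := by
      rintro ⟨-, h6⟩
      have h7 := hP.d_tri (z j) (z (j - 1)) y (z (j + 1)) (ne_pred hP hz j) hy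
        (ne_succ hP hz j).symm
      rw [hP.d_symm (z j) (z (j - 1)) y] at h7
      have := hz.turn j
      omega
    have h6 := back_succ hP hz h5
    by_contra hcon
    exact not_back_mono hP hz (show j + 1 ≤ coord κ d z y by omega) (not_back_coord hP hz y) h6

end Tracks

theorem coord_lip (hP : Proj P κ d cr cd A a h) {z : ℤ → 𝒴} (hz : Track κ d cr z) {x y : 𝒴}
    (hxy : cr x y) : |coord κ d z x - coord κ d z y| ≤ 1 := by
  have h1 := coord_lip_aux hP hz hxy
  have h2 := coord_lip_aux hP hz (hP.cr_symm _ _ hxy)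
  rw [abs_le]
  constructor <;> omega

theorem big_between (hP : Proj P κ d cr cd A a h) {z : ℤ → 𝒴} (hz : Track κ d cr z) {x y : 𝒴}
    {j : ℤ} (h1 : coord κ d z x < j) (h2 : j < coord κ d z y) :
    x ≠ z j ∧ y ≠ z j ∧ d (z j) (z (j - 1)) (z (j + 1)) ≤ d (z j) x y + 4 * κ := by
  obtain ⟨h3, h4⟩ := back_of_lt hP hz h1
  obtain ⟨h5, h6⟩ := fwd_of_lt hP hz h2
  have n3 := ne_pred hP hz j
  have n4 := (ne_succ hP hz j).symm
  have h7 := hP.d_tri (z j) (z (j - 1)) x (z (j + 1)) n3 h3 n4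
  have h8 := hP.d_tri (z j) x y (z (j + 1)) h3 h5 n4
  rw [hP.d_symm (z j) (z (j - 1)) x] at h7
  exact ⟨h3, h5, by omega⟩

theorem split_between (hP : Proj P κ d cr cd A a h) {z : ℤ → 𝒴} (hz : Track κ d cr z) {x y : 𝒴}
    {j : ℤ} (h1 : coord κ d z x < j) (h2 : j < coord κ d z y) :
    cd x y = cd x (z j) + cd (z j) y := by
  obtain ⟨h3, h4, h5⟩ := big_between hP hz h1 h2
  have := hz.turn j
  exact hP.bgi x (z j) y h3 h4 (by omega)

namespace Tracks

theorem exists_eq (hP : Proj P κ d cr cd A a h) {z z' : ℤ → 𝒴}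
    (hz' : Track κ d cr z') {i i' j : ℤ} (hii : i < i')
    (h3 : 16 * κ + 20 ≤ d (z j) (z' i) (z' i')) : ∃ t, z j = z' t := by
  by_contra hcon
  push Not at hcon
  have key : ∀ m : ℕ, i + m ≤ i' → d (z j) (z' i) (z' (i + m)) ≤ κ := by
    intro m
    induction m with
    | zero =>
      intro _
      simp [hP.d_self]
    | succ m ih =>
      intro hm
      have hm1 : i + (m : ℤ) ≤ i' := by push_cast at hm; omega
      have ih' := ih hm1
      set t : ℤ := i + ((m + 1 : ℕ) : ℤ) with ht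
      have ht1 : i + (m : ℤ) + 1 = t := by rw [ht]; push_cast; ring
      have hit : i < t := by omega
      by_contra hA
      rw [not_le] at hA
      -- the second alternative
      have hB : d (z j) (z' t) (z' i') ≤ κ := by
        rcases eq_or_lt_of_le hm with hti | hti
        · rw [hti, hP.d_self]; exact Nat.zero_le _
        · by_contra hB
          rw [not_le] at hB
          have n1 : z' t ≠ z j := (hcon t).symm
          have n2 : z' t ≠ z' i := (ne_of_lt hP hz' hit).symm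
          have n3 : z' t ≠ z' i' := ne_of_lt hP hz' hti
          have b1 : d (z' t) (z j) (z' i) ≤ κ := by
            rcases hP.beh (z' t) (z j) (z' i) n1 n2 (hcon i) with h | h
            · rw [hP.d_symm] at h; omega
            · exact h
          have b2 : d (z' t) (z j) (z' i') ≤ κ := by
            rcases hP.beh (z' t) (z j) (z' i') n1 n3 (hcon i') with h | h
            · omega
            · exact h
          have b3 := hP.d_tri (z' t) (z' i) (z j) (z' i') n2.symm n1.symm n3.symm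
          rw [hP.d_symm (z' t) (z' i) (z j)] at b3
          have b4 := big_mid hP hz' hit hti
          have b5 := hz'.turn t
          omega
      have c1 := hz'.cr (i + m)
      rw [ht1] at c1
      have c2 := hP.d_cr (z j) (z' (i + m)) (z' t) c1 (hcon _).symm (hcon _).symm
      have c3 := hP.d_tri (z j) (z' i) (z' (i + m)) (z' t) (hcon _).symm (hcon _).symm (hcon _).symm
      have c4 := hP.d_tri (z j) (z' i) (z' t) (z' i') (hcon _).symm (hcon _).symm (hcon _).symm
      omega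
  obtain ⟨m, hm⟩ := Int.eq_ofNat_of_zero_le (show 0 ≤ i' - i by omega)
  have h4 := key m (by omega)
  rw [show i + (m : ℤ) = i' by omega] at h4
  omega

end Tracks

theorem match_tracks (hP : Proj P κ d cr cd A a h) {z z' : ℤ → 𝒴} (hz : Track κ d cr z)
    (hz' : Track κ d cr z') {i i' : ℤ} (hlt : coord κ d z (z' i) < coord κ d z (z' i')) :
    ∃ ε : ℤ, (ε = 1 ∨ ε = -1) ∧ ∃ c : ℤ, ∀ j, coord κ d z (z' i) < j → j < coord κ d z (z' i') →
      z j = z' (ε * j + c) := by
  set p := coord κ d z (z' i) with hp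
  set q := coord κ d z (z' i') with hq
  have hne : i ≠ i' := by
    intro h
    rw [h] at hp
    omega
  -- every intermediate line belongs to the other track
  have hex : ∀ j, p < j → j < q → ∃ t, z j = z' t := by
    intro j h1 h2
    obtain ⟨-, -, h3⟩ := big_between hP hz h1 h2
    have h4 := hz.turn j
    rcases lt_or_gt_of_ne hne with h5 | h5
    · exact exists_eq hP hz' h5 (by omega)
    · rw [hP.d_symm] at h3
      rw [hP.d_symm (z j) (z' i)] at h3
      exact exists_eq hP hz' h5 (by rw [hP.d_symm (z j) (z (j + 1)) (z (j - 1))] at h3; omega)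
  set τ : ℤ → ℤ := fun j => coord κ d z' (z j) with hτ
  have hτz : ∀ j, p < j → j < q → z j = z' (τ j) := by
    intro j h1 h2
    obtain ⟨t, ht⟩ := hex j h1 h2
    have : τ j = t := by
      simp only [hτ]
      rw [ht, coord_self hP hz']
    rw [this, ht]
  have hstep : ∀ j, p < j → j + 1 < q → τ (j + 1) - τ j = 1 ∨ τ (j + 1) - τ j = -1 := by
    intro j h1 h2
    have h3 := coord_lip hP hz' (hz.cr j)
    rw [abs_le] at h3
    have h4 : τ (j + 1) ≠ τ j := by
      intro h
      have h5 := hτz j h1 (by omega)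
      have h6 := hτz (j + 1) (by omega) h2
      rw [h, ← h5] at h6
      exact ne_succ hP hz j h6.symm
    simp only [hτ] at h4 ⊢
    omega
  have hturn : ∀ j, p < j → j + 2 < q → τ (j + 2) ≠ τ j := by
    intro j h1 h2 h
    have h5 := hτz j h1 (by omega)
    have h6 := hτz (j + 2) (by omega) h2
    rw [h, ← h5] at h6
    exact ne_of_lt hP hz (show j < j + 2 by omega) h6.symm
  by_cases hshort : p + 2 < q
  · obtain ⟨ε, hε1, hε2⟩ : ∃ ε : ℤ, (ε = 1 ∨ ε = -1) ∧ τ (p + 2) - τ (p + 1) = ε := by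
      have := hstep (p + 1) (by omega) (by omega)
      rw [show p + 1 + 1 = p + 2 by ring] at this
      exact ⟨_, this, rfl⟩
    have key : ∀ m : ℕ, p + 1 + m < q → τ (p + 1 + m) = τ (p + 1) + ε * m ∧
        (p + 2 + m < q → τ (p + 2 + m) - τ (p + 1 + m) = ε) := by
      intro m
      induction m with
      | zero =>
        intro _
        refine ⟨by simp, fun _ => by simpa using hε2⟩
      | succ m ih =>
        intro hm
        push_cast at hm ⊢
        obtain ⟨h1, h2⟩ := ih (by omega)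
        have h3 := h2 (by omega)
        rw [show p + 1 + ((m : ℤ) + 1) = p + 2 + m by ring]
        refine ⟨?_, fun hm2 => ?_⟩
        · rw [mul_add, mul_one]
          omega
        · have h4 := hstep (p + 2 + m) (by omega) (by omega)
          have h5 := hturn (p + 1 + m) (by omega) (by omega)
          rw [show p + 1 + (m : ℤ) + 2 = p + 2 + (m + 1) by ring] at h5
          rw [show p + 2 + (m : ℤ) + 1 = p + 2 + (m + 1) by ring] at h4
          omega
    refine ⟨ε, hε1, τ (p + 1) - ε * (p + 1), fun j h1 h2 => ?_⟩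
    obtain ⟨m, hm⟩ := Int.eq_ofNat_of_zero_le (show 0 ≤ j - (p + 1) by omega)
    have h3 := (key m (by omega)).1
    have hj : p + 1 + (m : ℤ) = j := by omega
    rw [hj] at h3
    rw [hτz j h1 h2, h3]
    congr 1
    rw [← hj]
    ring
  · refine ⟨1, Or.inl rfl, τ (p + 1) - (p + 1), fun j h1 h2 => ?_⟩
    have hj : j = p + 1 := by omega
    subst hj
    rw [hτz (p + 1) h1 h2]
    congr 1
    ring

end Pool.Agent.MP_e058c8_al
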